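import Pool.Agent.H297R2.BakerThm

/-!
# The theorem of Gelfond and Schneider in the form used here
-/

set_option autoImplicit false

namespace Pool.Agent.H583_Fol

open Complex

theorem gelfond {ν : ℂ} (h1 : IsAlgebraic ℚ ν) (h3 : ν.im ≠ 0) :
    ¬ IsAlgebraic ℚ (cexp (2 * Real.pi * I * ν)) := by
  intro h2
  have hpi : (2 * Real.pi * I : ℂ) ≠ 0 := by
    simp [Real.pi_ne_zero]
  have key := Pool.Agent.H297R2.baker (ι := Fin 2) ![2 * Real.pi * I, 2 * Real.pi * I * ν]
    (by
      intro i
      fin_cases i
      · simp only [Fin.zero_eta, Matrix.cons_val_zero]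
        rw [Complex.exp_two_pi_mul_I]
        exact isAlgebraic_one
      · simpa using h2)
    (by
      rw [LinearIndependent.pair_iff]
      intro s t hst
      have h4 : (2 * Real.pi * I : ℂ) * ((s : ℂ) + (t : ℂ) * ν) = 0 := by
        rw [← hst, Algebra.smul_def, Algebra.smul_def]
        simp only [eq_ratCast]
        ring
      have h5 : (s : ℂ) + (t : ℂ) * ν = 0 := (mul_eq_zero.1 h4).resolve_left hpi
      have h6 : (t : ℝ) * ν.im = 0 := by
        have := congrArg Complex.im h5
        simpa using this
      have h7 : t = 0 := by
        have := (mul_eq_zero.1 h6).resolve_right h3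
        exact_mod_cast this
      subst h7
      simp only [Rat.cast_zero, zero_mul, add_zero] at h5
      exact ⟨by exact_mod_cast h5, rfl⟩)
    ![-ν, 1] (by
      intro i
      fin_cases i
      · simpa using h1.neg
      · simpa using isAlgebraic_one)
    (by
      rw [Fin.sum_univ_two]
      simp only [Matrix.cons_val_zero, Matrix.cons_val_one]
      ring)
  have := key 1
  simp at this

end Pool.Agent.H583_Fol
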