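import Pool.Agent.H583_Fol.Defs
import Pool.Agent.H583_Fol.GS

/-!
# Polynomials as functions of three variables
-/

set_option autoImplicit false

namespace Pool.Agent.H583_Fol

open Complex Set Metric Filter Topology

/-- evaluation of a polynomial, in curried form -/
noncomputable def ev (p : MvPolynomial (Fin 3) ℂ) (x y v : ℂ) : ℂ := MvPolynomial.eval ![x, y, v] p

theorem ev_C (t x y v : ℂ) : ev (MvPolynomial.C t) x y v = t := by simp [ev]

theorem ev_add (p q : MvPolynomial (Fin 3) ℂ) (x y v : ℂ) :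
    ev (p + q) x y v = ev p x y v + ev q x y v := by simp [ev]

theorem ev_mul (p q : MvPolynomial (Fin 3) ℂ) (x y v : ℂ) :
    ev (p * q) x y v = ev p x y v * ev q x y v := by simp [ev]

theorem hol_X (i : Fin 3) : Differentiable ℂ (fun q : ℂ × ℂ × ℂ => (![q.1, q.2.1, q.2.2] : Fin 3 → ℂ) i) := by
  fin_cases i
  · change Differentiable ℂ (fun q : ℂ × ℂ × ℂ => q.1); fun_prop
  · change Differentiable ℂ (fun q : ℂ × ℂ × ℂ => q.2.1); fun_prop
  · change Differentiable ℂ (fun q : ℂ × ℂ × ℂ => q.2.2); fun_prop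

theorem hol_ev (p : MvPolynomial (Fin 3) ℂ) :
    Differentiable ℂ (fun q : ℂ × ℂ × ℂ => ev p q.1 q.2.1 q.2.2) := by
  induction p using MvPolynomial.induction_on with
  | C t => simp only [ev_C]; exact differentiable_const t
  | add p q hp hq => simp only [ev_add]; exact hp.add hq
  | mul_X p i hp =>
    simp only [ev_mul]
    refine hp.mul ?_
    have := hol_X i
    simpa [ev] using this

theorem hol3_ev (p : MvPolynomial (Fin 3) ℂ) : Hol3 (ev p) univ := (hol_ev p).differentiableOn

theorem hasDeriv_ev1 (p : MvPolynomial (Fin 3) ℂ) (x y v : ℂ) :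
    HasDerivAt (fun t => ev p t y v) (ev (MvPolynomial.pderiv 0 p) x y v) x := by
  induction p using MvPolynomial.induction_on with
  | C t => simp only [ev_C, MvPolynomial.pderiv_C]; simpa [ev] using hasDerivAt_const x t
  | add p q hp hq => simp only [ev_add, map_add]; exact hp.add hq
  | mul_X p i hp =>
    have h : HasDerivAt (fun t => ev (MvPolynomial.X i) t y v)
        (ev (MvPolynomial.pderiv 0 (MvPolynomial.X i)) x y v) x := by
      fin_cases i
      · simpa [ev] using hasDerivAt_id' x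
      · simpa [ev, MvPolynomial.pderiv_X_of_ne] using hasDerivAt_const x y
      · simpa [ev, MvPolynomial.pderiv_X_of_ne] using hasDerivAt_const x v
    have h2 := hp.mul h
    simp only [ev_mul]
    rw [MvPolynomial.pderiv_mul, ev_add, ev_mul, ev_mul]
    exact h2

theorem hasDeriv_ev2 (p : MvPolynomial (Fin 3) ℂ) (x y v : ℂ) :
    HasDerivAt (fun t => ev p x t v) (ev (MvPolynomial.pderiv 1 p) x y v) y := by
  induction p using MvPolynomial.induction_on with
  | C t => simp only [ev_C, MvPolynomial.pderiv_C]; simpa [ev] using hasDerivAt_const y t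
  | add p q hp hq => simp only [ev_add, map_add]; exact hp.add hq
  | mul_X p i hp =>
    have h : HasDerivAt (fun t => ev (MvPolynomial.X i) x t v)
        (ev (MvPolynomial.pderiv 1 (MvPolynomial.X i)) x y v) y := by
      fin_cases i
      · simpa [ev, MvPolynomial.pderiv_X_of_ne] using hasDerivAt_const y x
      · simpa [ev] using hasDerivAt_id' y
      · simpa [ev, MvPolynomial.pderiv_X_of_ne] using hasDerivAt_const y v
    have h2 := hp.mul h
    simp only [ev_mul]
    rw [MvPolynomial.pderiv_mul, ev_add, ev_mul, ev_mul]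
    exact h2

theorem hasDeriv_ev3 (p : MvPolynomial (Fin 3) ℂ) (x y v : ℂ) :
    HasDerivAt (fun t => ev p x y t) (ev (MvPolynomial.pderiv 2 p) x y v) v := by
  induction p using MvPolynomial.induction_on with
  | C t => simp only [ev_C, MvPolynomial.pderiv_C]; simpa [ev] using hasDerivAt_const v t
  | add p q hp hq => simp only [ev_add, map_add]; exact hp.add hq
  | mul_X p i hp =>
    have h : HasDerivAt (fun t => ev (MvPolynomial.X i) x y t)
        (ev (MvPolynomial.pderiv 2 (MvPolynomial.X i)) x y v) v := by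
      fin_cases i
      · simpa [ev, MvPolynomial.pderiv_X_of_ne] using hasDerivAt_const v x
      · simpa [ev, MvPolynomial.pderiv_X_of_ne] using hasDerivAt_const v y
      · simpa [ev] using hasDerivAt_id' v
    have h2 := hp.mul h
    simp only [ev_mul]
    rw [MvPolynomial.pderiv_mul, ev_add, ev_mul, ev_mul]
    exact h2

theorem D1_ev (p : MvPolynomial (Fin 3) ℂ) : D1 (ev p) = ev (MvPolynomial.pderiv 0 p) := by
  funext x y v
  exact (hasDeriv_ev1 p x y v).deriv

theorem D2_ev (p : MvPolynomial (Fin 3) ℂ) : D2 (ev p) = ev (MvPolynomial.pderiv 1 p) := by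
  funext x y v
  exact (hasDeriv_ev2 p x y v).deriv

theorem D3_ev (p : MvPolynomial (Fin 3) ℂ) : D3 (ev p) = ev (MvPolynomial.pderiv 2 p) := by
  funext x y v
  exact (hasDeriv_ev3 p x y v).deriv

/-- algebraic coefficients -/
def AlgC (p : MvPolynomial (Fin 3) ℂ) : Prop := ∀ m, IsAlgebraic ℚ (MvPolynomial.coeff m p)

theorem AlgC.pderiv {p : MvPolynomial (Fin 3) ℂ} (hp : AlgC p) (i : Fin 3) :
    AlgC (MvPolynomial.pderiv i p) := by
  intro m
  rw [MvPolynomial.coeff_pderiv]
  exact (hp _).mul ((isAlgebraic_natCast _).add isAlgebraic_one)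

theorem AlgC.ev {p : MvPolynomial (Fin 3) ℂ} (hp : AlgC p) {x y v : ℂ} (hx : IsAlgebraic ℚ x)
    (hy : IsAlgebraic ℚ y) (hv : IsAlgebraic ℚ v) : IsAlgebraic ℚ (H583_Fol.ev p x y v) := by
  rw [H583_Fol.ev, MvPolynomial.eval_eq]
  have hS : ∀ z : ℂ, z ∈ algebraicClosure ℚ ℂ ↔ IsAlgebraic ℚ z := fun z => mem_algebraicClosure_iff
  rw [← hS]
  refine sum_mem fun m _ => mul_mem ((hS _).2 (hp m)) (prod_mem fun i _ => pow_mem ((hS _).2 ?_) _)
  fin_cases i
  · exact hx
  · exact hy
  · exact hv

theorem alg_quad {A B C t : ℂ} (hA : IsAlgebraic ℚ A) (hB : IsAlgebraic ℚ B) (hC : IsAlgebraic ℚ C)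
    (h0 : A ≠ 0 ∨ B ≠ 0) (h : A * t ^ 2 + B * t + C = 0) : IsAlgebraic ℚ t := by
  have hA' : A ∈ algebraicClosure ℚ ℂ := mem_algebraicClosure_iff.2 hA
  have hB' : B ∈ algebraicClosure ℚ ℂ := mem_algebraicClosure_iff.2 hB
  have hC' : C ∈ algebraicClosure ℚ ℂ := mem_algebraicClosure_iff.2 hC
  have h1 : IsAlgebraic (algebraicClosure ℚ ℂ) t := by
    refine ⟨Polynomial.C ⟨A, hA'⟩ * Polynomial.X ^ 2 + Polynomial.C ⟨B, hB'⟩ * Polynomial.X +
      Polynomial.C ⟨C, hC'⟩, ?_, ?_⟩
    · intro h2
      rcases h0 with h0 | h0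
      · apply h0
        have := congrArg (fun p => Polynomial.coeff p 2) h2
        simp at this
        exact congrArg Subtype.val this
      · apply h0
        have := congrArg (fun p => Polynomial.coeff p 1) h2
        simp [Polynomial.coeff_C] at this
        exact congrArg Subtype.val this
    · simpa using h
  haveI : Algebra.IsAlgebraic ℚ (algebraicClosure ℚ ℂ) := algebraicClosure.isAlgebraic ℚ ℂ
  exact h1.restrictScalars ℚ

end Pool.Agent.H583_Fol
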