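import Pool.Agent.H583_Fol.Asm
import Pool.Agent.H583_Fol.Poly

/-!
# No polynomial integrable form near the model
-/

set_option autoImplicit false

namespace Pool.Agent.H583_Fol

open Complex Set Metric Filter Topology

theorem ev_pt (p : MvPolynomial (Fin 3) ℂ) (w : Fin 3 → ℂ) :
    ev p (w 0) (w 1) (w 2) = MvPolynomial.eval w p := by
  rw [ev]
  congr 2
  funext i
  fin_cases i <;> rfl

theorem alg_point {Q : Fin 3 → MvPolynomial (Fin 3) ℂ} (hQ : ∀ i, AlgC (Q i)) {p : ℂ × ℂ × ℂ}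
    (hp : Zero3 (ev (Q 0)) (ev (Q 1)) (ev (Q 2)) p) {s : ℂ × ℂ × ℂ → Prop} (hs : ∀ᶠ q in 𝓝 p, s q) :
    ∃ x y v : ℂ, s (x, y, v) ∧ Zero3 (ev (Q 0)) (ev (Q 1)) (ev (Q 2)) (x, y, v) ∧
      IsAlgebraic ℚ x ∧ IsAlgebraic ℚ y ∧ IsAlgebraic ℚ v := by
  obtain ⟨ε, hε, h1⟩ := Metric.eventually_nhds_iff.1 hs
  obtain ⟨w, hw1, hw2, hw3⟩ := alg_dense' (Set.range Q) (Set.finite_range Q) (by
    rintro _ ⟨i, rfl⟩ m
    exact hQ i m) ![p.1, p.2.1, p.2.2] (by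
    rintro _ ⟨i, rfl⟩
    obtain ⟨e0, e1, e2⟩ := hp
    fin_cases i
    · exact e0
    · exact e1
    · exact e2) ε hε
  refine ⟨w 0, w 1, w 2, h1 ?_, ⟨?_, ?_, ?_⟩, hw1 0, hw1 1, hw1 2⟩
  · rw [Prod.dist_eq, Prod.dist_eq]
    refine max_lt ?_ (max_lt ?_ ?_)
    · simpa [dist_eq_norm] using hw3 0
    · simpa [dist_eq_norm] using hw3 1
    · simpa [dist_eq_norm] using hw3 2
  · simp only; rw [ev_pt]; exact hw2 _ ⟨0, rfl⟩
  · simp only; rw [ev_pt]; exact hw2 _ ⟨1, rfl⟩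
  · simp only; rw [ev_pt]; exact hw2 _ ⟨2, rfl⟩

theorem alg_AtD {Q : Fin 3 → MvPolynomial (Fin 3) ℂ} (hQ : ∀ i, AlgC (Q i)) {ν' : ℂ} {p : ℂ × ℂ × ℂ}
    (h : AtD (ev (Q 0)) (ev (Q 1)) (ev (Q 2)) ν' p) : IsAlgebraic ℚ ν' := by
  obtain ⟨x, y, v, hs, hz, hx, hy, hv⟩ := alg_point hQ h.1 h.2
  obtain ⟨m, e1, e2, e3, e4⟩ := hs hz
  simp only [D1_ev, D3_ev] at e1 e2 e3 e4
  have a1 := ((hQ 2).pderiv 0).ev hx hy hv
  have a2 := ((hQ 2).pderiv 2).ev hx hy hv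
  have a3 := ((hQ 0).pderiv 0).ev hx hy hv
  have a4 := ((hQ 0).pderiv 2).ev hx hy hv
  have hm : IsAlgebraic ℚ m := by
    refine alg_quad a2 (a1.add a4) a3 (Or.inr e4) ?_
    linear_combination e1
  have h5 : ν' = (ev (MvPolynomial.pderiv 2 (Q 0)) x y v + ev (MvPolynomial.pderiv 2 (Q 2)) x y v * m) *
      (ev (MvPolynomial.pderiv 0 (Q 2)) x y v + ev (MvPolynomial.pderiv 2 (Q 2)) x y v * m)⁻¹ := by
    rw [← div_eq_mul_inv, eq_div_iff e3]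
    exact e2.symm
  rw [h5]
  exact (a4.add (a2.mul hm)).mul (a1.add (a2.mul hm)).inv

theorem alg_rho {r m ρ : ℂ} (hr : IsAlgebraic ℚ r) (hm : IsAlgebraic ℚ m) (h0 : r ≠ 0)
    (h : r ^ 2 * ρ = -(ρ - 1) ^ 2 * m) : IsAlgebraic ℚ ρ := by
  refine alg_quad (A := m) (B := r ^ 2 - (m + m)) (C := m) hm ?_ hm ?_ (by linear_combination h)
  · exact (hr.pow 2).sub (hm.add hm)
  · by_cases hm0 : m = 0
    · right
      rw [hm0]
      simpa using h0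
    · exact Or.inl hm0

theorem alg_AtN {Q : Fin 3 → MvPolynomial (Fin 3) ℂ} (hQ : ∀ i, AlgC (Q i)) {ρ : ℂ} {p : ℂ × ℂ × ℂ}
    (h : AtN (ev (Q 0)) (ev (Q 1)) (ev (Q 2)) ρ p) : IsAlgebraic ℚ ρ := by
  obtain ⟨x, y, v, hs, hz, hx, hy, hv⟩ := alg_point hQ h.1 h.2
  obtain ⟨h0, e1, e2, e3⟩ := hs hz
  have al : ∀ i j, IsAlgebraic ℚ (ev (MvPolynomial.pderiv i (Q j)) x y v) := fun i j =>
    ((hQ j).pderiv i).ev hx hy hv
  simp only [rX, rY, rV, mX, mY, mV, D1_ev, D2_ev, D3_ev] at h0 e1 e2 e3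
  rcases h0 with h0 | h0 | h0
  · exact alg_rho ((al _ _).sub (al _ _)) (((al _ _).mul (al _ _)).sub ((al _ _).mul (al _ _))) h0 e1
  · exact alg_rho ((al _ _).sub (al _ _)) (((al _ _).mul (al _ _)).sub ((al _ _).mul (al _ _))) h0 e2
  · exact alg_rho ((al _ _).sub (al _ _)) (((al _ _).mul (al _ _)).sub ((al _ _).mul (al _ _))) h0 e3

/-- integrability of a triple of polynomials -/
def PInt (P : Fin 3 → MvPolynomial (Fin 3) ℂ) : Prop :=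
  P 0 * (MvPolynomial.pderiv 1 (P 2) - MvPolynomial.pderiv 2 (P 1)) +
    P 1 * (MvPolynomial.pderiv 2 (P 0) - MvPolynomial.pderiv 0 (P 2)) +
    P 2 * (MvPolynomial.pderiv 0 (P 1) - MvPolynomial.pderiv 1 (P 0)) = 0

theorem ev_sub (p q : MvPolynomial (Fin 3) ℂ) (x y v : ℂ) :
    ev (p - q) x y v = ev p x y v - ev q x y v := by simp [ev]

theorem pint_iff (P : Fin 3 → MvPolynomial (Fin 3) ℂ) :
    PInt P ↔ Integ (ev (P 0)) (ev (P 1)) (ev (P 2)) := by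
  constructor
  · intro h x y v
    have h1 := congrArg (fun p => ev p x y v) h
    simp only [ev_add, ev_mul, ev_sub] at h1
    simp only [IntegAt, D1_ev, D2_ev, D3_ev]
    rw [h1]
    simp [ev]
  · intro h
    apply MvPolynomial.funext
    intro w
    have h1 := h (w 0) (w 1) (w 2)
    simp only [IntegAt, D1_ev, D2_ev, D3_ev, ev_pt] at h1
    simpa using h1

theorem no_poly : ∃ δ > 0, ∀ P : Fin 3 → MvPolynomial (Fin 3) ℂ,
    Integ (ev (P 0)) (ev (P 1)) (ev (P 2)) → ¬ Near (ev (P 0)) (ev (P 1)) (ev (P 2)) δ := by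
  obtain ⟨δ, hδ, hA⟩ := thmA
  refine ⟨δ / 2, by positivity, fun P hP hN => ?_⟩
  obtain ⟨Q, hQ1, hQ2, hQ3⟩ := form_dense P ((pint_iff P).2 hP) (δ / 2) (by positivity)
  have hQI : Integ (ev (Q 0)) (ev (Q 1)) (ev (Q 2)) := (pint_iff Q).1 hQ2
  have hd : ∀ i (x y v : ℂ), ‖x‖ ≤ 9 → ‖y‖ ≤ 9 → ‖v‖ ≤ 9 →
      ‖ev (Q i) x y v - ev (P i) x y v‖ ≤ δ / 2 := by
    intro i x y v hx hy hv
    apply hQ3
    intro j
    fin_cases j
    · exact hx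
    · exact hy
    · exact hv
  have hNQ : Near (ev (Q 0)) (ev (Q 1)) (ev (Q 2)) δ := by
    refine ⟨hol3_ev _, hol3_ev _, hol3_ev _, ?_, ?_, ?_⟩
    · intro x y v hx hy hv
      have h1 := hd 0 x y v hx hy hv
      have h2 := hN.na x y v hx hy hv
      calc ‖ev (Q 0) x y v - a0 x y v‖
          = ‖(ev (Q 0) x y v - ev (P 0) x y v) + (ev (P 0) x y v - a0 x y v)‖ := by congr 1; ring
        _ ≤ _ := (norm_add_le _ _)
        _ ≤ δ := by linarith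
    · intro x y v hx hy hv
      have h1 := hd 1 x y v hx hy hv
      have h2 := hN.nb x y v hx hy hv
      calc ‖ev (Q 1) x y v - b0 x y v‖
          = ‖(ev (Q 1) x y v - ev (P 1) x y v) + (ev (P 1) x y v - b0 x y v)‖ := by congr 1; ring
        _ ≤ _ := (norm_add_le _ _)
        _ ≤ δ := by linarith
    · intro x y v hx hy hv
      have h1 := hd 2 x y v hx hy hv
      have h2 := hN.nc x y v hx hy hv
      calc ‖ev (Q 2) x y v - c0 x y v‖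
          = ‖(ev (Q 2) x y v - ev (P 2) x y v) + (ev (P 2) x y v - c0 x y v)‖ := by congr 1; ring
        _ ≤ _ := (norm_add_le _ _)
        _ ≤ δ := by linarith
  obtain ⟨ν', R, hν, hR0, -, -, ⟨p0, h0⟩, ⟨p1, h1⟩, ⟨p2, h2⟩⟩ := hA _ _ _ hNQ hQI
  have g0 := alg_AtD hQ1 h0
  have g1 := alg_AtN hQ1 h1
  have g2 := alg_AtN hQ1 h2
  refine gelfond g0 hν ?_
  have := g2.mul g1.inv
  rwa [mul_inv_cancel_right₀ hR0] at this

end Pool.Agent.H583_Fol
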