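import Pool.Agent.H583_Fol.Defs
import Pool.Agent.Helper417.Mer.HartogsExt

/-!
# Basic facts on the domains
-/

set_option autoImplicit false

namespace Pool.Agent.H583_Fol

open Complex Set Metric Filter Topology

theorem isOpen_Yr : IsOpen Yr := by
  have h1 : IsOpen {y : ℂ | |y.re| < 1} := isOpen_lt (by fun_prop) (by fun_prop)
  have h2 : IsOpen {y : ℂ | -1 < y.im} := isOpen_lt (by fun_prop) (by fun_prop)
  have h3 : IsOpen {y : ℂ | y.im < 2 * Real.pi + 1} := isOpen_lt (by fun_prop) (by fun_prop)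
  exact h1.inter (h2.inter h3)

theorem isOpen_Yq : IsOpen Yq := by
  have h1 : IsOpen {y : ℂ | |y.re| < 3 / 4} := isOpen_lt (by fun_prop) (by fun_prop)
  have h2 : IsOpen {y : ℂ | -(3 / 4) < y.im} := isOpen_lt (by fun_prop) (by fun_prop)
  have h3 : IsOpen {y : ℂ | y.im < 2 * Real.pi + 3 / 4} := isOpen_lt (by fun_prop) (by fun_prop)
  exact h1.inter (h2.inter h3)

theorem isOpen_Dom : IsOpen Dom := by
  have h1 : IsOpen {p : ℂ × ℂ | ‖p.1‖ < 4} := isOpen_lt (by fun_prop) (by fun_prop)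
  exact h1.inter (isOpen_Yr.preimage continuous_snd)

theorem isOpen_Zd : IsOpen Zd := by
  have h1 : IsOpen {p : ℂ × ℂ | Real.log (3 / 10) < p.1.re} := isOpen_lt (by fun_prop) (by fun_prop)
  have h2 : IsOpen {p : ℂ × ℂ | p.1.re < Real.log (39 / 10)} := isOpen_lt (by fun_prop) (by fun_prop)
  have h3 : IsOpen {p : ℂ × ℂ | -1 < p.1.im} := isOpen_lt (by fun_prop) (by fun_prop)
  have h4 : IsOpen {p : ℂ × ℂ | p.1.im < 2 * Real.pi + 1} := isOpen_lt (by fun_prop) (by fun_prop)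
  exact h1.inter (h2.inter (h3.inter (h4.inter (isOpen_Yq.preimage continuous_snd))))

theorem isOpen_Bd : IsOpen Bd := by
  have h1 : IsOpen {p : ℂ × ℂ | ‖p.1‖ < 1 / 2} := isOpen_lt (by fun_prop) (by fun_prop)
  have h2 : IsOpen {p : ℂ × ℂ | ‖p.2‖ < 1 / 2} := isOpen_lt (by fun_prop) (by fun_prop)
  exact h1.inter h2

theorem Yq_subset_Yr : Yq ⊆ Yr := by
  rintro y ⟨h1, h2, h3⟩
  exact ⟨by linarith, by linarith, by linarith⟩

theorem convex_Yr : Convex ℝ Yr := by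
  have h1 : Convex ℝ {y : ℂ | -1 < y.re} := convex_halfSpace_re_gt (-1)
  have h2 : Convex ℝ {y : ℂ | y.re < 1} := convex_halfSpace_re_lt 1
  have h3 : Convex ℝ {y : ℂ | -1 < y.im} := convex_halfSpace_im_gt (-1)
  have h4 : Convex ℝ {y : ℂ | y.im < 2 * Real.pi + 1} := convex_halfSpace_im_lt _
  have h := (h1.inter h2).inter (h3.inter h4)
  convert h using 1
  ext y
  simp only [Yr, mem_ofPred_eq, mem_inter_iff, abs_lt]

theorem convex_Yq : Convex ℝ Yq := by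
  have h1 : Convex ℝ {y : ℂ | -(3 / 4) < y.re} := convex_halfSpace_re_gt _
  have h2 : Convex ℝ {y : ℂ | y.re < 3 / 4} := convex_halfSpace_re_lt _
  have h3 : Convex ℝ {y : ℂ | -(3 / 4) < y.im} := convex_halfSpace_im_gt _
  have h4 : Convex ℝ {y : ℂ | y.im < 2 * Real.pi + 3 / 4} := convex_halfSpace_im_lt _
  have h := (h1.inter h2).inter (h3.inter h4)
  convert h using 1
  ext y
  simp only [Yq, mem_ofPred_eq, mem_inter_iff, abs_lt]

theorem convex_Dom : Convex ℝ Dom := by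
  have h1 : Convex ℝ (ball (0 : ℂ) 4) := convex_ball 0 4
  have h := h1.prod convex_Yr
  convert h using 1
  ext p
  simp [Dom, mem_prod]

theorem convex_Zd : Convex ℝ Zd := by
  have h1 : Convex ℝ {y : ℂ | Real.log (3 / 10) < y.re} := convex_halfSpace_re_gt _
  have h2 : Convex ℝ {y : ℂ | y.re < Real.log (39 / 10)} := convex_halfSpace_re_lt _
  have h3 : Convex ℝ {y : ℂ | -1 < y.im} := convex_halfSpace_im_gt _
  have h4 : Convex ℝ {y : ℂ | y.im < 2 * Real.pi + 1} := convex_halfSpace_im_lt _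
  have h := ((h1.inter h2).inter (h3.inter h4)).prod convex_Yq
  convert h using 1
  ext p
  simp only [Zd, mem_ofPred_eq, mem_prod, mem_inter_iff]
  tauto

theorem convex_Bd : Convex ℝ Bd := by
  have h := (convex_ball (0 : ℂ) (1 / 2)).prod (convex_ball (0 : ℂ) (1 / 2))
  convert h using 1
  ext p
  simp [Bd, mem_prod]

theorem norm_exp_of_Zd {z y : ℂ} (h : (z, y) ∈ Zd) : 3 / 10 < ‖exp z‖ ∧ ‖exp z‖ < 39 / 10 := by
  obtain ⟨h1, h2, -⟩ := h
  simp only at h1 h2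
  rw [Complex.norm_exp]
  constructor
  · rw [← Real.exp_log (show (0 : ℝ) < 3 / 10 by norm_num)]
    exact Real.exp_lt_exp.2 h1
  · rw [← Real.exp_log (show (0 : ℝ) < 39 / 10 by norm_num)]
    exact Real.exp_lt_exp.2 h2

theorem exp_mem_Dom {z y : ℂ} (h : (z, y) ∈ Zd) : (exp z, y) ∈ Dom := by
  refine ⟨?_, Yq_subset_Yr h.2.2.2.2⟩
  have := (norm_exp_of_Zd h).2
  simp only
  linarith

theorem norm_lt_of_Yr {y : ℂ} (h : y ∈ Yr) : ‖y‖ < 8 := by
  obtain ⟨h1, h2, h3⟩ := h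
  have hp := Real.pi_lt_d2
  have hp0 := Real.pi_pos
  have h4 : |y.im| < 2 * Real.pi + 1 := abs_lt.2 ⟨by linarith, h3⟩
  have h5 : ‖y‖ ^ 2 = y.re ^ 2 + y.im ^ 2 := by
    rw [← Complex.normSq_eq_norm_sq, Complex.normSq_apply]; ring
  have h6 : y.re ^ 2 ≤ 1 := by
    rw [← sq_abs]
    have := abs_nonneg y.re
    nlinarith
  have h7 : y.im ^ 2 ≤ (2 * Real.pi + 1) ^ 2 := by
    rw [← sq_abs]
    have := abs_nonneg y.im
    nlinarith
  by_contra h8
  push Not at h8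
  nlinarith

theorem norm_exp_of_Yr {y : ℂ} (h : y ∈ Yr) : 1 / 3 < ‖exp y‖ ∧ ‖exp y‖ < 3 := by
  obtain ⟨h1, -, -⟩ := h
  rw [abs_lt] at h1
  rw [Complex.norm_exp]
  have e1 := Real.exp_one_lt_d9
  constructor
  · have h2 : Real.exp (-1) < Real.exp y.re := Real.exp_lt_exp.2 h1.1
    have h3 : Real.exp (-1) = (Real.exp 1)⁻¹ := Real.exp_neg 1
    rw [h3] at h2
    have h4 : (3 : ℝ)⁻¹ < (Real.exp 1)⁻¹ := by
      apply inv_strictAnti₀ (Real.exp_pos 1)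
      linarith
    have h5 : (1 : ℝ) / 3 = 3⁻¹ := by norm_num
    linarith
  · have h2 : Real.exp y.re < Real.exp 1 := Real.exp_lt_exp.2 h1.2
    linarith

theorem Near.mono {a b c : ℂ → ℂ → ℂ → ℂ} {δ δ' : ℝ} (h : Near a b c δ) (hd : δ ≤ δ') :
    Near a b c δ' :=
  ⟨h.ha, h.hb, h.hc, fun x y v hx hy hv => (h.na x y v hx hy hv).trans hd,
    fun x y v hx hy hv => (h.nb x y v hx hy hv).trans hd,
    fun x y v hx hy hv => (h.nc x y v hx hy hv).trans hd⟩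

theorem Good.mono {a b c : ℂ → ℂ → ℂ → ℂ} {φ : ℂ → ℂ → ℂ} {δ δ' : ℝ} (h : Good a b c φ δ)
    (hd : δ ≤ δ') : Good a b c φ δ' :=
  ⟨h.near.mono hd, h.int, ⟨h.leaf.hol, fun x y hxy => (h.leaf.small x y hxy).trans hd,
    h.leaf.ex, h.leaf.ey⟩⟩

theorem Gauge.mono {a b c : ℂ → ℂ → ℂ → ℂ} {φ V : ℂ → ℂ → ℂ} {ν' : ℂ} {δ δ' : ℝ}
    (h : Gauge a b c φ V ν' δ) (hd : δ ≤ δ') : Gauge a b c φ V ν' δ' :=
  ⟨h.hol, h.e1, h.e2, h.mon, fun z y hz => (h.small z y hz).trans hd, h.nu_near.trans hd, h.nu_int⟩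

end Pool.Agent.H583_Fol
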