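import Pool.Agent.H583_Fol.Stmts
import Pool.Agent.H583_Fol.Basic

set_option autoImplicit false

namespace Pool.Agent.H583_Fol

open Complex Set Metric Filter Topology

theorem node_mem {z y : ℂ} (h : (z, y) ∈ Bd) : (z, y) ∈ Zd ∧ (z, y + 2 * Real.pi * I) ∈ Zd := by
  obtain ⟨hz, hy⟩ := h
  simp only at hz hy
  have hz1 := (Complex.abs_re_le_norm z).trans_lt hz
  have hz2 := (Complex.abs_im_le_norm z).trans_lt hz
  have hy1 := (Complex.abs_re_le_norm y).trans_lt hy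
  have hy2 := (Complex.abs_im_le_norm y).trans_lt hy
  rw [abs_lt] at hz1 hz2 hy1 hy2
  have hl1 : Real.log (3 / 10) < -(1 / 2) := by
    have h1 : Real.log (3 / 10) ≤ 3 / 10 - 1 := Real.log_le_sub_one_of_pos (by norm_num)
    linarith
  have hl2 : 1 / 2 < Real.log (39 / 10) := by
    have h1 : Real.log (10 / 39) ≤ 10 / 39 - 1 := Real.log_le_sub_one_of_pos (by norm_num)
    have h2 : Real.log (10 / 39) = -Real.log (39 / 10) := by
      rw [← Real.log_inv]; norm_num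
    linarith
  have hp := Real.pi_gt_three
  have e1 : (2 * (Real.pi : ℂ) * I).re = 0 := by simp
  have e2 : (2 * (Real.pi : ℂ) * I).im = 2 * Real.pi := by simp
  refine ⟨⟨by simp only; linarith, by simp only; linarith, by simp only; linarith,
    by simp only; linarith, ?_⟩, ⟨by simp only; linarith, by simp only; linarith,
    by simp only; linarith, by simp only; linarith, ?_⟩⟩
  · refine ⟨abs_lt.2 ⟨by linarith, by linarith⟩, by linarith, by linarith⟩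
  · refine ⟨?_, ?_, ?_⟩
    · rw [add_re, e1]; exact abs_lt.2 ⟨by linarith, by linarith⟩
    · rw [add_im, e2]; linarith
    · rw [add_im, e2]; linarith

theorem d1_sh (p : ℂ) (f : ℂ → ℂ → ℂ) (z y : ℂ) : d1 (sh p f) z y = d1 f z (y + p) := rfl

theorem d2_sh (p : ℂ) (f : ℂ → ℂ → ℂ) (z y : ℂ) : d2 (sh p f) z y = d2 f z (y + p) := by
  simp only [d2, sh]
  exact deriv_comp_add_const (fun t => f z t) p y

theorem hol_sh {f : ℂ → ℂ → ℂ} (hf : Hol2 f Zd) : Hol2 (sh (2 * Real.pi * I) f) Bd := by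
  have h1 : DifferentiableOn ℂ (fun p : ℂ × ℂ => (p.1, p.2 + 2 * Real.pi * I)) Bd := by fun_prop
  have h2 : MapsTo (fun p : ℂ × ℂ => (p.1, p.2 + 2 * Real.pi * I)) Bd Zd := by
    rintro ⟨z, y⟩ h
    exact (node_mem h).2
  exact hf.comp h1 h2

theorem Bd_sub : Bd ⊆ Zd := fun ⟨_, _⟩ h => (node_mem h).1

/-- Theorem A of the paper -/
theorem thmA : ∃ δ > 0, ∀ a b c : ℂ → ℂ → ℂ → ℂ, Near a b c δ → Integ a b c →
    ∃ ν' R : ℂ, ν'.im ≠ 0 ∧ R ≠ 0 ∧ R ≠ 1 ∧ exp (2 * Real.pi * I * ν') * R ≠ 1 ∧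
      (∃ p, AtD a b c ν' p) ∧ (∃ p, AtN a b c R p) ∧
      (∃ p, AtN a b c (exp (2 * Real.pi * I * ν') * R) p) := by
  set L : ℂ := exp (2 * Real.pi * I * nu) with hL
  have hLn : ‖L‖ < 1 / 4 := by
    rw [hL, Complex.norm_exp]
    have : (2 * (Real.pi : ℂ) * I * nu).re = -(2 * Real.pi) := by
      simp [nu]
    rw [this]
    have h1 : Real.exp (-(2 * Real.pi)) < Real.exp (-2) := by
      apply Real.exp_lt_exp.2
      have := Real.pi_gt_three
      linarith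
    have h2 : Real.exp (-2) < 1 / 4 := by
      rw [Real.exp_neg, inv_lt_comm₀ (Real.exp_pos _) (by norm_num)]
      have h3 : Real.exp 2 = Real.exp 1 * Real.exp 1 := by rw [← Real.exp_add]; norm_num
      rw [h3]
      have := Real.exp_one_gt_d9
      nlinarith
    linarith
  have hL0 : L ≠ 0 := exp_ne_zero _
  have hk0 : 2 * L ≠ 0 := mul_ne_zero two_ne_zero hL0
  have hk1 : 2 * L ≠ 1 := by
    intro h
    have h1 : ‖2 * L‖ = 1 := by rw [h]; simp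
    rw [norm_mul] at h1
    have h2 : ‖(2 : ℂ)‖ = 2 := by simp
    rw [h2] at h1
    linarith
  set ε₀ : ℝ := min (1 / 16) (‖2 * L‖ / 4) with hε₀
  have hε₀p : 0 < ε₀ := lt_min (by norm_num) (by
    have := norm_pos_iff.2 hk0
    linarith)
  obtain ⟨δ₁, hδ₁, H1⟩ := node (κ := 2) (by norm_num) (by norm_num) ε₀ hε₀p
  obtain ⟨δ₂, hδ₂, H2⟩ := node (κ := 2 * L) hk0 hk1 ε₀ hε₀p
  obtain ⟨δ₃, hδ₃, H3⟩ := g_near (min δ₁ δ₂) (lt_min hδ₁ hδ₂)
  obtain ⟨δ₅, hδ₅, H5⟩ := per_transport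
  obtain ⟨δ₆, hδ₆, H6⟩ := atD
  set ε₁ : ℝ := min δ₃ (min (min δ₅ δ₆) (1 / 2)) with hε₁
  have hε₁p : 0 < ε₁ := lt_min hδ₃ (lt_min (lt_min hδ₅ hδ₆) (by norm_num))
  obtain ⟨δ₇, hδ₇, H7⟩ := exists_gauge ε₁ hε₁p
  obtain ⟨δ₈, hδ₈, H8⟩ := exists_leaf (min δ₇ ε₁) (lt_min hδ₇ hε₁p)
  refine ⟨δ₈, hδ₈, fun a b c hN hI => ?_⟩
  obtain ⟨φ, hG⟩ := H8 a b c hN hI
  obtain ⟨V, ν', hV⟩ := H7 a b c φ (hG.mono (min_le_left _ _))
  have hG1 : Good a b c φ ε₁ := hG.mono (min_le_right _ _)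
  have l3 : ε₁ ≤ δ₃ := min_le_left _ _
  have l5 : ε₁ ≤ δ₅ := (min_le_right _ _).trans ((min_le_left _ _).trans (min_le_left _ _))
  have l6 : ε₁ ≤ δ₆ := (min_le_right _ _).trans ((min_le_left _ _).trans (min_le_right _ _))
  have l7 : ε₁ ≤ 1 / 2 := (min_le_right _ _).trans (min_le_right _ _)
  obtain ⟨hA, hB, hC⟩ := g_hol hG1 hV
  have hcl := fun z y (h : (z, y) ∈ Zd) => g_closed hG1 hV h
  have hnr := H3 a b c φ V ν' (hG1.mono l3) (hV.mono l3)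
  obtain ⟨hp2, hp1⟩ := H5 a b c φ V ν' (hG1.mono l5) (hV.mono l5)
  -- the node `p`
  obtain ⟨hK1, hK2, z, y, hzy, hA0, hB0, hrot, hdet, hrel⟩ := H1 (gA a c φ V) (gB b c φ V)
    (gC c φ) (hA.mono Bd_sub) (hB.mono Bd_sub) (hC.mono Bd_sub) (fun z y h => by
      obtain ⟨h1, h2, h3, -, -, -⟩ := hnr z y h
      exact ⟨h1.trans (min_le_left _ _), h2.trans (min_le_left _ _), h3.trans (min_le_left _ _)⟩)
    (fun z y h => hcl z y (Bd_sub h))
  -- the node `p'`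
  obtain ⟨hK1', hK2', z', y', hzy', hA0', hB0', hrot', hdet', hrel'⟩ :=
    H2 (sh (2 * Real.pi * I) (gA a c φ V)) (sh (2 * Real.pi * I) (gB b c φ V))
    (sh (2 * Real.pi * I) (gC c φ)) (hol_sh hA) (hol_sh hB) (hol_sh hC) (fun z y h => by
      obtain ⟨-, -, -, h1, h2, h3⟩ := hnr z y h
      exact ⟨h1.trans (min_le_right _ _), h2.trans (min_le_right _ _), h3.trans (min_le_right _ _)⟩)
    (fun z y h => by
      have := hcl z (y + 2 * Real.pi * I) (node_mem h).2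
      rw [d1_sh, d2_sh, d1_sh, d2_sh]
      exact this)
  rw [hp2] at hK2' hrel'
  rw [hp1] at hK1' hrel'
  set K1 := per1 (gB b c φ V) (gC c φ) with hK1d
  set K2 := per2 (gA a c φ V) (gC c φ) with hK2d
  set M := exp (2 * Real.pi * I * ν') with hM
  have e16 : ε₀ ≤ 1 / 16 := min_le_left _ _
  have hK2n : K2 ≠ 0 := by
    intro h
    rw [h] at hK2
    simp at hK2
    linarith
  have nK2 : ‖K2‖ ≤ 17 / 16 := by
    calc ‖K2‖ = ‖(K2 - 1) + 1‖ := by ring_nf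
      _ ≤ ‖K2 - 1‖ + ‖(1 : ℂ)‖ := norm_add_le _ _
      _ ≤ _ := by rw [norm_one]; linarith
  have nK2' : 15 / 16 ≤ ‖K2‖ := by
    have : ‖(1 : ℂ)‖ ≤ ‖K2‖ + ‖K2 - 1‖ := by
      calc ‖(1 : ℂ)‖ = ‖K2 - (K2 - 1)‖ := by ring_nf
        _ ≤ _ := norm_sub_le _ _
    rw [norm_one] at this
    linarith
  have nK1 : 31 / 16 ≤ ‖K1‖ := by
    have : ‖(2 : ℂ)‖ ≤ ‖K1‖ + ‖K1 - 2‖ := by
      calc ‖(2 : ℂ)‖ = ‖K1 - (K1 - 2)‖ := by ring_nf
        _ ≤ _ := norm_sub_le _ _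
    rw [show ‖(2 : ℂ)‖ = 2 by simp] at this
    linarith
  have hK1n : K1 ≠ 0 := by
    intro h
    rw [h, norm_zero] at nK1
    linarith
  have nMK : ‖M * K1‖ ≤ 1 / 2 + 1 / 8 := by
    calc ‖M * K1‖ = ‖(M * K1 - 2 * L) + 2 * L‖ := by ring_nf
      _ ≤ ‖M * K1 - 2 * L‖ + ‖2 * L‖ := norm_add_le _ _
      _ ≤ ‖2 * L‖ / 4 + ‖2 * L‖ := by
          have : ε₀ ≤ ‖2 * L‖ / 4 := min_le_right _ _
          linarith
      _ ≤ _ := by
          rw [norm_mul, show ‖(2 : ℂ)‖ = 2 by simp]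
          linarith
  have hR0 : K1 / K2 ≠ 0 := div_ne_zero hK1n hK2n
  have hR1 : K1 / K2 ≠ 1 := by
    intro h
    rw [div_eq_one_iff_eq hK2n] at h
    rw [h] at nK1
    linarith
  have hR2 : M * (K1 / K2) ≠ 1 := by
    intro h
    rw [← mul_div_assoc, div_eq_one_iff_eq hK2n] at h
    rw [h] at nMK
    linarith
  refine ⟨ν', K1 / K2, ?_, hR0, hR1, hR2, ?_, ?_, ?_⟩
  · intro h
    have h1 := (Complex.abs_im_le_norm (ν' - nu)).trans hV.nu_near
    have h2 : (ν' - nu).im = -1 := by simp [nu, h]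
    rw [h2] at h1
    norm_num at h1
    linarith
  · exact H6 a b c φ ν' (hG1.mono l6) hV.nu_int
  · obtain ⟨p, h1, h4⟩ := reading hG1 hV (Bd_sub hzy) hA0 hB0 hrot hdet
    refine ⟨p, h1, h4.mono fun q hq h5 => ?_⟩
    obtain ⟨g0, g1, g2, g3⟩ := hq h5
    have key : ∀ r m : ℂ, r ^ 2 * (d1 (gA a c φ V) z y * d2 (gB b c φ V) z y -
        d2 (gA a c φ V) z y * d1 (gB b c φ V) z y) =
        (d1 (gB b c φ V) z y - d2 (gA a c φ V) z y) ^ 2 * m →
        r ^ 2 * (K1 / K2) = -(K1 / K2 - 1) ^ 2 * m := by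
      intro r m g
      have h5 : r ^ 2 * (K1 * K2) = -(K1 - K2) ^ 2 * m := by
        apply mul_right_cancel₀ hdet
        linear_combination (K1 * K2) * g + m * hrel
      have h6 : r ^ 2 * (K1 / K2) = r ^ 2 * (K1 * K2) / K2 ^ 2 := by
        field_simp
      rw [h6, h5]
      field_simp
      try ring
    exact ⟨g0, key _ _ g1, key _ _ g2, key _ _ g3⟩
  · rw [d1_sh, d2_sh] at hrot'
    rw [d1_sh, d2_sh, d1_sh, d2_sh] at hdet' hrel'
    obtain ⟨p, h1, h4⟩ := reading hG1 hV (node_mem hzy').2 hA0' hB0' hrot' hdet'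
    refine ⟨p, h1, h4.mono fun q hq h5 => ?_⟩
    obtain ⟨g0, g1, g2, g3⟩ := hq h5
    have key : ∀ r m : ℂ, r ^ 2 * (d1 (gA a c φ V) z' (y' + 2 * Real.pi * I) *
        d2 (gB b c φ V) z' (y' + 2 * Real.pi * I) -
        d2 (gA a c φ V) z' (y' + 2 * Real.pi * I) * d1 (gB b c φ V) z' (y' + 2 * Real.pi * I)) =
        (d1 (gB b c φ V) z' (y' + 2 * Real.pi * I) -
          d2 (gA a c φ V) z' (y' + 2 * Real.pi * I)) ^ 2 * m →
        r ^ 2 * (M * (K1 / K2)) = -(M * (K1 / K2) - 1) ^ 2 * m := by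
      intro r m g
      have h5 : r ^ 2 * (M * K1 * K2) = -(M * K1 - K2) ^ 2 * m := by
        apply mul_right_cancel₀ hdet'
        linear_combination (M * K1 * K2) * g + m * hrel'
      have h6 : r ^ 2 * (M * (K1 / K2)) = r ^ 2 * (M * K1 * K2) / K2 ^ 2 := by
        field_simp
      rw [h6, h5]
      field_simp
      try ring
    exact ⟨g0, key _ _ g1, key _ _ g2, key _ _ g3⟩

end Pool.Agent.H583_Fol
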