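import Mathlib

/-!
# Definitions for MP_90485e_an (approximation of foliations by polynomial ones)

Functions of two and three complex variables are written in curried form.
-/

set_option autoImplicit false

namespace Pool.Agent.H583_Fol

open Complex Set Metric

/-- `f` is holomorphic on `U` (two variables) -/
def Hol2 (f : ℂ → ℂ → ℂ) (U : Set (ℂ × ℂ)) : Prop :=
  DifferentiableOn ℂ (fun p : ℂ × ℂ => f p.1 p.2) U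

/-- `f` is holomorphic on `U` (three variables) -/
def Hol3 (f : ℂ → ℂ → ℂ → ℂ) (U : Set (ℂ × ℂ × ℂ)) : Prop :=
  DifferentiableOn ℂ (fun p : ℂ × ℂ × ℂ => f p.1 p.2.1 p.2.2) U

/-- partial derivatives of a function of two variables -/
noncomputable def d1 (f : ℂ → ℂ → ℂ) (x y : ℂ) : ℂ := deriv (fun t => f t y) x
noncomputable def d2 (f : ℂ → ℂ → ℂ) (x y : ℂ) : ℂ := deriv (fun t => f x t) y

/-- partial derivatives of a function of three variables -/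
noncomputable def D1 (f : ℂ → ℂ → ℂ → ℂ) (x y v : ℂ) : ℂ := deriv (fun t => f t y v) x
noncomputable def D2 (f : ℂ → ℂ → ℂ → ℂ) (x y v : ℂ) : ℂ := deriv (fun t => f x t v) y
noncomputable def D3 (f : ℂ → ℂ → ℂ → ℂ) (x y v : ℂ) : ℂ := deriv (fun t => f x y t) v

/-- the form `a dx + b dy + c dv` satisfies `α ∧ dα = 0` at the point -/
def IntegAt (a b c : ℂ → ℂ → ℂ → ℂ) (x y v : ℂ) : Prop :=
  a x y v * (D2 c x y v - D3 b x y v) + b x y v * (D3 a x y v - D1 c x y v) +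
    c x y v * (D1 b x y v - D2 a x y v) = 0

/-- the form `a dx + b dy + c dv` satisfies `α ∧ dα = 0` -/
def Integ (a b c : ℂ → ℂ → ℂ → ℂ) : Prop := ∀ x y v, IntegAt a b c x y v

/-- the exponent `1 + i` -/
noncomputable def nu : ℂ := 1 + I

/-- the model form -/
noncomputable def hh (x y : ℂ) : ℂ := (x - 1) * (x - exp y)
noncomputable def a0 (x y v : ℂ) : ℂ :=
  nu * v * hh x y + v ^ 2 * x * (2 * exp (nu * y) * (x - 1) + (x - exp y))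
noncomputable def b0 (x y v : ℂ) : ℂ := -(2 * exp (nu * y) * v ^ 2 * x ^ 2 * (x - 1))
noncomputable def c0 (x y _v : ℂ) : ℂ := x * hh x y

/-- holomorphic (entire) forms which are `δ`-near the model form on the polydisc of radius `9` -/
structure Near (a b c : ℂ → ℂ → ℂ → ℂ) (δ : ℝ) : Prop where
  ha : Hol3 a univ
  hb : Hol3 b univ
  hc : Hol3 c univ
  na : ∀ x y v, ‖x‖ ≤ 9 → ‖y‖ ≤ 9 → ‖v‖ ≤ 9 → ‖a x y v - a0 x y v‖ ≤ δ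
  nb : ∀ x y v, ‖x‖ ≤ 9 → ‖y‖ ≤ 9 → ‖v‖ ≤ 9 → ‖b x y v - b0 x y v‖ ≤ δ
  nc : ∀ x y v, ‖x‖ ≤ 9 → ‖y‖ ≤ 9 → ‖v‖ ≤ 9 → ‖c x y v - c0 x y v‖ ≤ δ

/-- the rectangle of the variable `y` -/
def Yr : Set ℂ := {y | |y.re| < 1 ∧ -1 < y.im ∧ y.im < 2 * Real.pi + 1}

/-- the domain `{|x| < 4} × Yr` -/
def Dom : Set (ℂ × ℂ) := {p | ‖p.1‖ < 4 ∧ p.2 ∈ Yr}

/-- the graph `v = φ(x,y)` is a leaf over `Dom`, and `|φ| ≤ ε` -/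
structure Leaf (a b c : ℂ → ℂ → ℂ → ℂ) (φ : ℂ → ℂ → ℂ) (ε : ℝ) : Prop where
  hol : Hol2 φ Dom
  small : ∀ x y, (x, y) ∈ Dom → ‖φ x y‖ ≤ ε
  ex : ∀ x y, (x, y) ∈ Dom → c x y (φ x y) * d1 φ x y + a x y (φ x y) = 0
  ey : ∀ x y, (x, y) ∈ Dom → c x y (φ x y) * d2 φ x y + b x y (φ x y) = 0

/-- near, integrable, with a leaf -/
structure Good (a b c : ℂ → ℂ → ℂ → ℂ) (φ : ℂ → ℂ → ℂ) (δ : ℝ) : Prop where
  near : Near a b c δ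
  int : Integ a b c
  leaf : Leaf a b c φ δ

/-! ### Jets along the leaf -/

noncomputable def jC (c : ℂ → ℂ → ℂ → ℂ) (φ : ℂ → ℂ → ℂ) (x y : ℂ) : ℂ := c x y (φ x y)
noncomputable def jCv (c : ℂ → ℂ → ℂ → ℂ) (φ : ℂ → ℂ → ℂ) (x y : ℂ) : ℂ := D3 c x y (φ x y)
noncomputable def jN1 (a c : ℂ → ℂ → ℂ → ℂ) (φ : ℂ → ℂ → ℂ) (x y : ℂ) : ℂ :=
  D3 a x y (φ x y) + D3 c x y (φ x y) * d1 φ x y
noncomputable def jN2 (b c : ℂ → ℂ → ℂ → ℂ) (φ : ℂ → ℂ → ℂ) (x y : ℂ) : ℂ :=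
  D3 b x y (φ x y) + D3 c x y (φ x y) * d2 φ x y
noncomputable def jM1 (a c : ℂ → ℂ → ℂ → ℂ) (φ : ℂ → ℂ → ℂ) (x y : ℂ) : ℂ :=
  (D3 (D3 a) x y (φ x y) + D3 (D3 c) x y (φ x y) * d1 φ x y) / 2
noncomputable def jM2 (b c : ℂ → ℂ → ℂ → ℂ) (φ : ℂ → ℂ → ℂ) (x y : ℂ) : ℂ :=
  (D3 (D3 b) x y (φ x y) + D3 (D3 c) x y (φ x y) * d2 φ x y) / 2

/-- `β₂`: `(M - c_v N / C) / C` -/
noncomputable def jP2 (a c : ℂ → ℂ → ℂ → ℂ) (φ : ℂ → ℂ → ℂ) (x y : ℂ) : ℂ :=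
  (jM1 a c φ x y - jCv c φ x y * (jN1 a c φ x y / jC c φ x y)) / jC c φ x y
noncomputable def jQ2 (b c : ℂ → ℂ → ℂ → ℂ) (φ : ℂ → ℂ → ℂ) (x y : ℂ) : ℂ :=
  (jM2 b c φ x y - jCv c φ x y * (jN2 b c φ x y / jC c φ x y)) / jC c φ x y

/-- a smaller rectangle of the variable `y` -/
def Yq : Set ℂ := {y | |y.re| < 3 / 4 ∧ -(3 / 4) < y.im ∧ y.im < 2 * Real.pi + 3 / 4}

/-- the domain of the variables `z = log x` and `y` -/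
def Zd : Set (ℂ × ℂ) :=
  {p | Real.log (3 / 10) < p.1.re ∧ p.1.re < Real.log (39 / 10) ∧ -1 < p.1.im ∧
    p.1.im < 2 * Real.pi + 1 ∧ p.2 ∈ Yq}

/-- the gauge potential: `dV = β₁`, with monodromy `2 π i ν'` -/
structure Gauge (a b c : ℂ → ℂ → ℂ → ℂ) (φ V : ℂ → ℂ → ℂ) (ν' : ℂ) (ε : ℝ) : Prop where
  hol : Hol2 V Zd
  e1 : ∀ z y, (z, y) ∈ Zd → jC c φ (exp z) y * d1 V z y = exp z * jN1 a c φ (exp z) y
  e2 : ∀ z y, (z, y) ∈ Zd → jC c φ (exp z) y * d2 V z y = jN2 b c φ (exp z) y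
  mon : ∀ z y, (z, y) ∈ Zd → (z + 2 * Real.pi * I, y) ∈ Zd →
    V (z + 2 * Real.pi * I) y = V z y + 2 * Real.pi * I * ν'
  small : ∀ z y, (z, y) ∈ Zd → ‖V z y - nu * z‖ ≤ ε
  nu_near : ‖ν' - nu‖ ≤ ε
  nu_int : ∀ y ∈ Yq, (∮ x in C(0, 8 / 25), jN1 a c φ x y / jC c φ x y) = 2 * Real.pi * I * ν'

/-- the coefficients of `λ (c β₂)` in the coordinates `(z, y)`, `x = e ^ z`, `λ = e ^ (-V)` -/
noncomputable def gA (a c : ℂ → ℂ → ℂ → ℂ) (φ V : ℂ → ℂ → ℂ) (z y : ℂ) : ℂ :=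
  exp (-V z y) * (exp z * jM1 a c φ (exp z) y - jCv c φ (exp z) y * d1 V z y)
noncomputable def gB (b c : ℂ → ℂ → ℂ → ℂ) (φ V : ℂ → ℂ → ℂ) (z y : ℂ) : ℂ :=
  exp (-V z y) * (jM2 b c φ (exp z) y - jCv c φ (exp z) y * d2 V z y)
noncomputable def gC (c : ℂ → ℂ → ℂ → ℂ) (φ : ℂ → ℂ → ℂ) (z y : ℂ) : ℂ := jC c φ (exp z) y

/-- the model at a node; `κ = 2` at the node `y = 0`, `κ = 2 exp (2 π i ν)` at `y = 2 π i` -/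
noncomputable def mA (κ z y : ℂ) : ℂ :=
  exp ((2 - nu) * z) * (κ * exp (nu * y) * (exp z - 1) + (exp z - exp y))
noncomputable def mB (κ z y : ℂ) : ℂ := -(κ * exp ((2 - nu) * z) * exp (nu * y) * (exp z - 1))
noncomputable def mC (z y : ℂ) : ℂ := exp z * ((exp z - 1) * (exp z - exp y))

/-- the bidisc of radius `1/2` -/
def Bd : Set (ℂ × ℂ) := {p | ‖p.1‖ < 1 / 2 ∧ ‖p.2‖ < 1 / 2}

/-- the two periods of `(A dz + B dy) / C` at a node at the origin -/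
noncomputable def per1 (B C : ℂ → ℂ → ℂ) : ℂ :=
  (2 * Real.pi * I)⁻¹ * ∮ y in C(0, 1 / 4), B (-(1 / 16)) y / C (-(1 / 16)) y
noncomputable def per2 (A C : ℂ → ℂ → ℂ) : ℂ :=
  (2 * Real.pi * I)⁻¹ * ∮ z in C(0, 1 / 16), A z (I / 4) / C z (I / 4)

/-- translation of the second variable -/
def sh (p : ℂ) (f : ℂ → ℂ → ℂ) (z y : ℂ) : ℂ := f z (y + p)

/-! ### The invariants read at singular points -/

/-- `q` is a zero of the form -/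
def Zero3 (a b c : ℂ → ℂ → ℂ → ℂ) (q : ℂ × ℂ × ℂ) : Prop :=
  a q.1 q.2.1 q.2.2 = 0 ∧ b q.1 q.2.1 q.2.2 = 0 ∧ c q.1 q.2.1 q.2.2 = 0

open Filter Topology in
/-- what is read at the singular curve near `x = v = 0` -/
def AtD (a b c : ℂ → ℂ → ℂ → ℂ) (ν' : ℂ) (p : ℂ × ℂ × ℂ) : Prop :=
  Zero3 a b c p ∧
  ∀ᶠ q : ℂ × ℂ × ℂ in 𝓝 p, Zero3 a b c q → ∃ m : ℂ,
      (D1 c q.1 q.2.1 q.2.2 + D3 c q.1 q.2.1 q.2.2 * m) * m + D1 a q.1 q.2.1 q.2.2 +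
        D3 a q.1 q.2.1 q.2.2 * m = 0 ∧
      D3 a q.1 q.2.1 q.2.2 + D3 c q.1 q.2.1 q.2.2 * m =
        ν' * (D1 c q.1 q.2.1 q.2.2 + D3 c q.1 q.2.1 q.2.2 * m) ∧
      D1 c q.1 q.2.1 q.2.2 + D3 c q.1 q.2.1 q.2.2 * m ≠ 0 ∧
      D1 c q.1 q.2.1 q.2.2 + D3 a q.1 q.2.1 q.2.2 ≠ 0

/-- the three components of `rot (a, b, c)` and the three diagonal minors of the matrix of the first
derivatives -/
noncomputable def rX (b c : ℂ → ℂ → ℂ → ℂ) (q : ℂ × ℂ × ℂ) : ℂ :=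
  D2 c q.1 q.2.1 q.2.2 - D3 b q.1 q.2.1 q.2.2
noncomputable def rY (a c : ℂ → ℂ → ℂ → ℂ) (q : ℂ × ℂ × ℂ) : ℂ :=
  D3 a q.1 q.2.1 q.2.2 - D1 c q.1 q.2.1 q.2.2
noncomputable def rV (a b : ℂ → ℂ → ℂ → ℂ) (q : ℂ × ℂ × ℂ) : ℂ :=
  D1 b q.1 q.2.1 q.2.2 - D2 a q.1 q.2.1 q.2.2
noncomputable def mX (b c : ℂ → ℂ → ℂ → ℂ) (q : ℂ × ℂ × ℂ) : ℂ :=
  D2 b q.1 q.2.1 q.2.2 * D3 c q.1 q.2.1 q.2.2 - D3 b q.1 q.2.1 q.2.2 * D2 c q.1 q.2.1 q.2.2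
noncomputable def mY (a c : ℂ → ℂ → ℂ → ℂ) (q : ℂ × ℂ × ℂ) : ℂ :=
  D1 a q.1 q.2.1 q.2.2 * D3 c q.1 q.2.1 q.2.2 - D3 a q.1 q.2.1 q.2.2 * D1 c q.1 q.2.1 q.2.2
noncomputable def mV (a b : ℂ → ℂ → ℂ → ℂ) (q : ℂ × ℂ × ℂ) : ℂ :=
  D1 a q.1 q.2.1 q.2.2 * D2 b q.1 q.2.1 q.2.2 - D2 a q.1 q.2.1 q.2.2 * D1 b q.1 q.2.1 q.2.2

open Filter Topology in
/-- what is read at the nodes: `rot ^ 2 * ρ = - (ρ - 1) ^ 2 * minor` for the three components -/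
def AtN (a b c : ℂ → ℂ → ℂ → ℂ) (ρ : ℂ) (p : ℂ × ℂ × ℂ) : Prop :=
  Zero3 a b c p ∧
  ∀ᶠ q : ℂ × ℂ × ℂ in 𝓝 p, Zero3 a b c q →
    (rX b c q ≠ 0 ∨ rY a c q ≠ 0 ∨ rV a b q ≠ 0) ∧
    rX b c q ^ 2 * ρ = -(ρ - 1) ^ 2 * mX b c q ∧
    rY a c q ^ 2 * ρ = -(ρ - 1) ^ 2 * mY a c q ∧
    rV a b q ^ 2 * ρ = -(ρ - 1) ^ 2 * mV a b q

end Pool.Agent.H583_Fol
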