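import Mathlib

/-!
# Exterior algebra computations
-/

set_option autoImplicit false

namespace Pool.Agent.H583_Fol

open ExteriorAlgebra

/-- the coordinate form `dz_i` in the exterior algebra -/
noncomputable def dz {k : ℕ} (i : Fin k) : ExteriorAlgebra ℂ (Fin k → ℂ) := ι ℂ (Pi.single i 1)

theorem dz_sq {k : ℕ} (i : Fin k) : dz i * dz i = 0 := ι_sq_zero _

theorem dz_anti {k : ℕ} (i l : Fin k) : dz i * dz l = -(dz l * dz i) := by
  have := ι_add_mul_swap (R := ℂ) (Pi.single i (1 : ℂ) : Fin k → ℂ) (Pi.single l 1)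
  exact eq_neg_of_add_eq_zero_left this

theorem wedge3 (f : Fin 3 → Fin 3 → ℂ) (g : Fin 3 → ℂ) :
    (∑ i, ∑ l, f i l • (dz i * dz l)) * (∑ j, g j • dz j) =
      (g 0 * (f 1 2 - f 2 1) + g 1 * (f 2 0 - f 0 2) + g 2 * (f 0 1 - f 1 0)) •
        (dz (0 : Fin 3) * dz 1 * dz 2) := by
  have s0 : dz (0 : Fin 3) * dz 0 = 0 := dz_sq _
  have s1 : dz (1 : Fin 3) * dz 1 = 0 := dz_sq _
  have s2 : dz (2 : Fin 3) * dz 2 = 0 := dz_sq _
  have a10 : dz (1 : Fin 3) * dz 0 = -(dz 0 * dz 1) := dz_anti _ _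
  have a20 : dz (2 : Fin 3) * dz 0 = -(dz 0 * dz 2) := dz_anti _ _
  have a21 : dz (2 : Fin 3) * dz 1 = -(dz 1 * dz 2) := dz_anti _ _
  have t010 : dz (0 : Fin 3) * dz 1 * dz 0 = 0 := by
    rw [mul_assoc, a10, mul_neg, ← mul_assoc, s0, zero_mul, neg_zero]
  have t011 : dz (0 : Fin 3) * dz 1 * dz 1 = 0 := by rw [mul_assoc, s1, mul_zero]
  have t020 : dz (0 : Fin 3) * dz 2 * dz 0 = 0 := by
    rw [mul_assoc, a20, mul_neg, ← mul_assoc, s0, zero_mul, neg_zero]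
  have t021 : dz (0 : Fin 3) * dz 2 * dz 1 = -(dz 0 * dz 1 * dz 2) := by
    rw [mul_assoc, a21, mul_neg, ← mul_assoc]
  have t022 : dz (0 : Fin 3) * dz 2 * dz 2 = 0 := by rw [mul_assoc, s2, mul_zero]
  have t120 : dz (1 : Fin 3) * dz 2 * dz 0 = dz 0 * dz 1 * dz 2 := by
    rw [mul_assoc, a20, mul_neg, ← mul_assoc, a10, neg_mul, neg_neg]
  have t121 : dz (1 : Fin 3) * dz 2 * dz 1 = 0 := by
    rw [mul_assoc, a21, mul_neg, ← mul_assoc, s1, zero_mul, neg_zero]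
  have t122 : dz (1 : Fin 3) * dz 2 * dz 2 = 0 := by rw [mul_assoc, s2, mul_zero]
  simp only [Fin.sum_univ_three, s0, s1, s2, a10, a20, a21, smul_zero, zero_add, add_zero,
    smul_neg, add_mul, mul_add, smul_mul_assoc, mul_smul_comm, t010, t011, t020, t021, t022, t120,
    t121, t122, neg_mul, neg_zero, neg_neg]
  module

theorem dz3_ne : dz (0 : Fin 3) * dz 1 * dz 2 ≠ 0 := by
  intro h
  have h1 := congrArg (liftAlternating (R := ℂ) (M := Fin 3 → ℂ) (N := ℂ) (fun n =>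
    if hn : n = 3 then by
      subst hn
      exact (Pi.basisFun ℂ (Fin 3)).det
    else 0)) h
  have h2 : dz (0 : Fin 3) * dz 1 * dz 2 =
      ιMulti ℂ 3 (fun i : Fin 3 => (Pi.single i 1 : Fin 3 → ℂ)) := by
    rw [ιMulti_apply]
    simp [dz, List.ofFn_succ, mul_assoc]
  rw [h2, liftAlternating_apply_ιMulti] at h1
  simp only [dite_true, map_zero] at h1
  have h3 : (fun i : Fin 3 => (Pi.single i 1 : Fin 3 → ℂ)) = Pi.basisFun ℂ (Fin 3) := by
    funext i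
    simp
  rw [h3, Module.Basis.det_self] at h1
  exact one_ne_zero h1

end Pool.Agent.H583_Fol
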