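import Pool.Agent.H583_Fol.Model

/-!
# The final theorem
-/

set_option autoImplicit false

namespace Pool.Agent.H583_Fol

open Filter Topology Set Metric Complex

/-- polynomial forms -/
def IsPoly {k : ℕ} (α : Form k) : Prop :=
  ∃ p : Fin k → MvPolynomial (Fin k) ℂ, ∀ z i, α z i = MvPolynomial.eval z (p i)

/-- restriction of a polynomial to the first three coordinates, scaled -/
noncomputable def rs {k : ℕ} (p : MvPolynomial (Fin k) ℂ) : MvPolynomial (Fin 3) ℂ :=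
  MvPolynomial.aeval (fun j : Fin k => if h : (j : ℕ) < 3 then
    MvPolynomial.C (1 / 10 : ℂ) * MvPolynomial.X ⟨j, h⟩ else 0) p

theorem ev_rs {k : ℕ} (hk : 3 ≤ k) (p : MvPolynomial (Fin k) ℂ) (x y v : ℂ) :
    ev (rs p) x y v = MvPolynomial.eval (inc hk ![1 / 10 * x, 1 / 10 * y, 1 / 10 * v]) p := by
  induction p using MvPolynomial.induction_on with
  | C t => simp [rs, ev]
  | add p q hp hq =>
    have : rs (p + q) = rs p + rs q := by simp [rs]
    rw [this, ev_add, hp, hq, map_add]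
  | mul_X p i hp =>
    have : rs (p * MvPolynomial.X i) = rs p * (if h : (i : ℕ) < 3 then
        MvPolynomial.C (1 / 10 : ℂ) * MvPolynomial.X ⟨i, h⟩ else 0) := by simp [rs]
    rw [this, ev_mul, hp, map_mul, MvPolynomial.eval_X]
    congr 1
    by_cases h : (i : ℕ) < 3
    · rw [dif_pos h]
      have h1 : inc hk ![1 / 10 * x, 1 / 10 * y, 1 / 10 * v] i =
          ![1 / 10 * x, 1 / 10 * y, 1 / 10 * v] ⟨i, h⟩ := by
        simp [inc, h]
      rw [h1, ev_mul, ev_C]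
      generalize (⟨i, h⟩ : Fin 3) = l
      fin_cases l <;> simp [ev]
    · rw [dif_neg h]
      have h1 : inc hk ![1 / 10 * x, 1 / 10 * y, 1 / 10 * v] i = 0 := by
        simp [inc, h]
      rw [h1]
      simp [ev]

theorem eval_diff {k : ℕ} (p : MvPolynomial (Fin k) ℂ) :
    Differentiable ℂ (fun z : Fin k → ℂ => MvPolynomial.eval z p) := by
  induction p using MvPolynomial.induction_on with
  | C t => simp
  | add p q hp hq => simp only [map_add]; exact hp.add hq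
  | mul_X p i hp =>
    simp only [map_mul, MvPolynomial.eval_X]
    exact hp.mul (differentiable_apply i)

theorem D1_inc {k : ℕ} (hk : 3 ≤ k) {F : (Fin k → ℂ) → ℂ} (hF : Differentiable ℂ F) (x y v : ℂ) :
    D1 (fun x y v => F (inc hk ![1 / 10 * x, 1 / 10 * y, 1 / 10 * v])) x y v =
      1 / 10 * fderiv ℂ F (inc hk ![1 / 10 * x, 1 / 10 * y, 1 / 10 * v])
        (Pi.single (Fin.castLE hk 0) 1) := by
  have h1 : HasDerivAt (fun t : ℂ => inc hk ![1 / 10 * t, 1 / 10 * y, 1 / 10 * v])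
      ((1 / 10 : ℂ) • (Pi.single (Fin.castLE hk 0) 1 : Fin k → ℂ)) x := by
    have h2 : ∀ t : ℂ, inc hk ![1 / 10 * t, 1 / 10 * y, 1 / 10 * v] =
        inc hk ![0, 1 / 10 * y, 1 / 10 * v] + (1 / 10 * t) • (Pi.single (Fin.castLE hk 0) 1 : Fin k → ℂ) := by
      intro t
      rw [← inc_single, ← map_smul, ← map_add]
      congr 1
      funext i
      fin_cases i <;> simp
    simp_rw [h2]
    have h3 := (((hasDerivAt_id' x).const_mul (1 / 10 : ℂ)).smul_const
      (Pi.single (Fin.castLE hk 0) 1 : Fin k → ℂ)).const_add (inc hk ![0, 1 / 10 * y, 1 / 10 * v])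
    simpa using h3
  have h4 := ((hF _).hasFDerivAt).comp_hasDerivAt x h1
  refine h4.deriv.trans ?_
  rw [map_smul, smul_eq_mul]

theorem D2_inc {k : ℕ} (hk : 3 ≤ k) {F : (Fin k → ℂ) → ℂ} (hF : Differentiable ℂ F) (x y v : ℂ) :
    D2 (fun x y v => F (inc hk ![1 / 10 * x, 1 / 10 * y, 1 / 10 * v])) x y v =
      1 / 10 * fderiv ℂ F (inc hk ![1 / 10 * x, 1 / 10 * y, 1 / 10 * v])
        (Pi.single (Fin.castLE hk 1) 1) := by
  have h1 : HasDerivAt (fun t : ℂ => inc hk ![1 / 10 * x, 1 / 10 * t, 1 / 10 * v])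
      ((1 / 10 : ℂ) • (Pi.single (Fin.castLE hk 1) 1 : Fin k → ℂ)) y := by
    have h2 : ∀ t : ℂ, inc hk ![1 / 10 * x, 1 / 10 * t, 1 / 10 * v] =
        inc hk ![1 / 10 * x, 0, 1 / 10 * v] + (1 / 10 * t) • (Pi.single (Fin.castLE hk 1) 1 : Fin k → ℂ) := by
      intro t
      rw [← inc_single, ← map_smul, ← map_add]
      congr 1
      funext i
      fin_cases i <;> simp
    simp_rw [h2]
    have h3 := (((hasDerivAt_id' y).const_mul (1 / 10 : ℂ)).smul_const
      (Pi.single (Fin.castLE hk 1) 1 : Fin k → ℂ)).const_add (inc hk ![1 / 10 * x, 0, 1 / 10 * v])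
    simpa using h3
  have h4 := ((hF _).hasFDerivAt).comp_hasDerivAt y h1
  refine h4.deriv.trans ?_
  rw [map_smul, smul_eq_mul]

theorem D3_inc {k : ℕ} (hk : 3 ≤ k) {F : (Fin k → ℂ) → ℂ} (hF : Differentiable ℂ F) (x y v : ℂ) :
    D3 (fun x y v => F (inc hk ![1 / 10 * x, 1 / 10 * y, 1 / 10 * v])) x y v =
      1 / 10 * fderiv ℂ F (inc hk ![1 / 10 * x, 1 / 10 * y, 1 / 10 * v])
        (Pi.single (Fin.castLE hk 2) 1) := by
  have h1 : HasDerivAt (fun t : ℂ => inc hk ![1 / 10 * x, 1 / 10 * y, 1 / 10 * t])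
      ((1 / 10 : ℂ) • (Pi.single (Fin.castLE hk 2) 1 : Fin k → ℂ)) v := by
    have h2 : ∀ t : ℂ, inc hk ![1 / 10 * x, 1 / 10 * y, 1 / 10 * t] =
        inc hk ![1 / 10 * x, 1 / 10 * y, 0] + (1 / 10 * t) • (Pi.single (Fin.castLE hk 2) 1 : Fin k → ℂ) := by
      intro t
      rw [← inc_single, ← map_smul, ← map_add]
      congr 1
      funext i
      fin_cases i <;> simp
    simp_rw [h2]
    have h3 := (((hasDerivAt_id' v).const_mul (1 / 10 : ℂ)).smul_const
      (Pi.single (Fin.castLE hk 2) 1 : Fin k → ℂ)).const_add (inc hk ![1 / 10 * x, 1 / 10 * y, 0])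
    simpa using h3
  have h4 := ((hF _).hasFDerivAt).comp_hasDerivAt v h1
  refine h4.deriv.trans ?_
  rw [map_smul, smul_eq_mul]

/-- a polynomial form with `∂β ∧ β = 0` restricts to an integrable triple -/
theorem integ_rs {k : ℕ} (hk : 3 ≤ k) {β : Form k} (p : Fin k → MvPolynomial (Fin k) ℂ)
    (hp : ∀ z i, β z i = MvPolynomial.eval z (p i)) (hF : ∀ z, del β z * val β z = 0) :
    Integ (ev (rs (p (Fin.castLE hk 0)))) (ev (rs (p (Fin.castLE hk 1))))
      (ev (rs (p (Fin.castLE hk 2)))) := by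
  intro x y v
  have e : ∀ l : Fin k, ev (rs (p l)) =
      fun x y v => (fun z => β z l) (inc hk ![1 / 10 * x, 1 / 10 * y, 1 / 10 * v]) := by
    intro l
    funext x y v
    rw [ev_rs hk]
    exact (hp _ _).symm
  have hd : ∀ l : Fin k, Differentiable ℂ (fun z => β z l) := by
    intro l
    rw [show (fun z => β z l) = fun z => MvPolynomial.eval z (p l) from funext fun z => hp z l]
    exact eval_diff _
  have h := map_frob hk (fun i l => fderiv ℂ (fun w => β w l) (inc hk ![1 / 10 * x, 1 / 10 * y, 1 / 10 * v])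
    (Pi.single i 1)) (β (inc hk ![1 / 10 * x, 1 / 10 * y, 1 / 10 * v])) (hF _)
  rw [IntegAt, e, e, e, D2_inc hk (hd _), D3_inc hk (hd _), D3_inc hk (hd _), D1_inc hk (hd _),
    D1_inc hk (hd _), D2_inc hk (hd _)]
  linear_combination (1 / 10) * h

/-- **Main theorem**, one form on `ℂ^k` -/
theorem main_one {k : ℕ} (hk : 3 ≤ k) : ∃ δ > 0, ∀ β : Form k, IsPoly β →
    (∀ z, del β z * val β z = 0) → ∃ z : Fin k → ℂ, (∀ i, ‖z i‖ ≤ 9 / 10) ∧
      ∃ i, δ < ‖β z i - mdl hk z i‖ := by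
  obtain ⟨δ, hδ, hno⟩ := no_poly
  refine ⟨δ, hδ, ?_⟩
  rintro β ⟨p, hp⟩ hF
  by_contra hcon
  push Not at hcon
  have key : ∀ (l : Fin 3) (x y v : ℂ), ‖x‖ ≤ 9 → ‖y‖ ≤ 9 → ‖v‖ ≤ 9 →
      ‖ev (rs (p (Fin.castLE hk l))) x y v -
        mdl hk (inc hk ![1 / 10 * x, 1 / 10 * y, 1 / 10 * v]) (Fin.castLE hk l)‖ ≤ δ := by
    intro l x y v hx hy hv
    rw [ev_rs hk, ← hp]
    apply hcon
    intro i
    by_cases hi : i ∈ Set.range (Fin.castLE hk)
    · obtain ⟨l, rfl⟩ := hi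
      rw [inc_castLE]
      fin_cases l
      · simp; linarith
      · simp; linarith
      · simp; linarith
    · rw [inc_of_ne hk _ i hi]
      norm_num
  have hm : ∀ (x y v : ℂ),
      mdl hk (inc hk ![1 / 10 * x, 1 / 10 * y, 1 / 10 * v]) (Fin.castLE hk 0) = a0 x y v ∧
      mdl hk (inc hk ![1 / 10 * x, 1 / 10 * y, 1 / 10 * v]) (Fin.castLE hk 1) = b0 x y v ∧
      mdl hk (inc hk ![1 / 10 * x, 1 / 10 * y, 1 / 10 * v]) (Fin.castLE hk 2) = c0 x y v := by
    intro x y v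
    obtain ⟨h1, h2, h3⟩ := mdl_castLE hk (inc hk ![1 / 10 * x, 1 / 10 * y, 1 / 10 * v])
    rw [h1, h2, h3]
    simp only [inc_castLE]
    have e1 : (10 : ℂ) * ![1 / 10 * x, 1 / 10 * y, 1 / 10 * v] 0 = x := by simp
    have e2 : (10 : ℂ) * ![1 / 10 * x, 1 / 10 * y, 1 / 10 * v] 1 = y := by simp
    have e3 : (10 : ℂ) * ![1 / 10 * x, 1 / 10 * y, 1 / 10 * v] 2 = v := by simp
    rw [e1, e2, e3]
    exact ⟨rfl, rfl, rfl⟩
  refine hno (fun l => rs (p (Fin.castLE hk l))) (integ_rs hk p hp hF)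
    ⟨hol3_ev _, hol3_ev _, hol3_ev _, ?_, ?_, ?_⟩
  · intro x y v hx hy hv
    rw [← (hm x y v).1]
    exact key 0 x y v hx hy hv
  · intro x y v hx hy hv
    rw [← (hm x y v).2.1]
    exact key 1 x y v hx hy hv
  · intro x y v hx hy hv
    rw [← (hm x y v).2.2]
    exact key 2 x y v hx hy hv

end Pool.Agent.H583_Fol
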