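import Pool.Agent.H583_Fol.Problem

/-!
# The model form
-/

set_option autoImplicit false

namespace Pool.Agent.H583_Fol

open Filter Topology Set Metric Complex

theorem hol_a0 : Differentiable ℂ (fun q : ℂ × ℂ × ℂ => a0 q.1 q.2.1 q.2.2) := by
  unfold a0 hh
  fun_prop

theorem hol_b0 : Differentiable ℂ (fun q : ℂ × ℂ × ℂ => b0 q.1 q.2.1 q.2.2) := by
  unfold b0
  fun_prop

theorem hol_c0 : Differentiable ℂ (fun q : ℂ × ℂ × ℂ => c0 q.1 q.2.1 q.2.2) := by
  unfold c0 hh
  fun_prop

set_option linter.all false in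
theorem integ_model : Integ a0 b0 c0 := by
  intro x y v
  have ey : HasDerivAt (fun t : ℂ => exp t) (exp y) y := Complex.hasDerivAt_exp y
  have en : HasDerivAt (fun t : ℂ => exp (nu * t)) (exp (nu * y) * nu) y := by
    simpa using ((hasDerivAt_id' y).const_mul nu).cexp
  have hx : HasDerivAt (fun t : ℂ => t) 1 x := hasDerivAt_id' x
  have hv : HasDerivAt (fun t : ℂ => t) 1 v := hasDerivAt_id' v
  have k1 : HasDerivAt (fun t => c0 x t v) (x * ((x - 1) * (0 - exp y))) y := by
    have := (((hasDerivAt_const y x).sub ey).const_mul (x - 1)).const_mul x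
    refine HasDerivAt.congr_deriv this ?_
    first
      | (norm_num; done)
      | (norm_num; ring)
      | (simp; ring)
      | ring
  have k2 : HasDerivAt (fun t => b0 x y t) (-(2 * exp (nu * y) * (2 * v) * x ^ 2 * (x - 1))) v := by
    have := (((((hv.pow 2).const_mul (2 * exp (nu * y))).mul_const (x ^ 2)).mul_const (x - 1))).neg
    refine HasDerivAt.congr_deriv this ?_
    first
      | (norm_num; done)
      | (norm_num; ring)
      | (simp; ring)
      | ring
  have k3 : HasDerivAt (fun t => a0 x y t) (nu * 1 * hh x y +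
      (2 * v) * x * (2 * exp (nu * y) * (x - 1) + (x - exp y))) v := by
    have := ((hv.const_mul nu).mul_const (hh x y)).add
      (((hv.pow 2).mul_const x).mul_const (2 * exp (nu * y) * (x - 1) + (x - exp y)))
    refine HasDerivAt.congr_deriv this ?_
    first
      | (norm_num; done)
      | (norm_num; ring)
      | (simp; ring)
      | ring
  have k4 : HasDerivAt (fun t => c0 t y v) (1 * ((x - 1) * (x - exp y)) +
      x * (1 * (x - exp y) + (x - 1) * 1)) x := by
    have := hx.mul ((hx.sub_const 1).mul (hx.sub_const (exp y)))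
    refine HasDerivAt.congr_deriv this ?_
    first
      | (norm_num; done)
      | (norm_num; ring)
      | (simp; ring)
      | ring
  have k5 : HasDerivAt (fun t => b0 t y v) (-(2 * exp (nu * y) * v ^ 2 * (2 * x) * (x - 1) +
      2 * exp (nu * y) * v ^ 2 * x ^ 2 * 1)) x := by
    have := (((hx.pow 2).const_mul (2 * exp (nu * y) * v ^ 2)).mul (hx.sub_const 1)).neg
    refine HasDerivAt.congr_deriv this ?_
    first
      | (norm_num; done)
      | (norm_num; ring)
      | (simp; ring)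
      | ring
  have k6 : HasDerivAt (fun t => a0 x t v) (nu * v * ((x - 1) * (0 - exp y)) +
      v ^ 2 * x * (2 * (exp (nu * y) * nu) * (x - 1) + (0 - exp y))) y := by
    have := (((((hasDerivAt_const y x).sub ey).const_mul (x - 1)).const_mul (nu * v))).add
      ((((en.const_mul 2).mul_const (x - 1)).add ((hasDerivAt_const y x).sub ey)).const_mul (v ^ 2 * x))
    refine HasDerivAt.congr_deriv this ?_
    first
      | (norm_num; done)
      | (norm_num; ring)
      | (simp; ring)
      | ring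
  simp only [IntegAt, D1, D2, D3]
  rw [k1.deriv, k2.deriv, k3.deriv, k4.deriv, k5.deriv, k6.deriv]
  simp only [a0, b0, c0, hh]
  ring

/-- the form on `ℂ^k` -/
noncomputable def mdl {k : ℕ} (hk : 3 ≤ k) : Form k := fun z =>
  inc hk ![a0 (10 * z (Fin.castLE hk 0)) (10 * z (Fin.castLE hk 1)) (10 * z (Fin.castLE hk 2)),
    b0 (10 * z (Fin.castLE hk 0)) (10 * z (Fin.castLE hk 1)) (10 * z (Fin.castLE hk 2)),
    c0 (10 * z (Fin.castLE hk 0)) (10 * z (Fin.castLE hk 1)) (10 * z (Fin.castLE hk 2))]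

/-- the derivative along a coordinate of `w ↦ G (10 w₀) (10 w₁) (10 w₂)` -/
theorem fderiv_scaled {k : ℕ} (hk : 3 ≤ k) {G : ℂ → ℂ → ℂ → ℂ}
    (hG : Differentiable ℂ (fun q : ℂ × ℂ × ℂ => G q.1 q.2.1 q.2.2)) (z : Fin k → ℂ) (i : Fin k) :
    fderiv ℂ (fun w : Fin k → ℂ => G (10 * w (Fin.castLE hk 0)) (10 * w (Fin.castLE hk 1))
      (10 * w (Fin.castLE hk 2))) z (Pi.single i 1) =
    (if i = Fin.castLE hk 0 then 10 * D1 G (10 * z (Fin.castLE hk 0)) (10 * z (Fin.castLE hk 1))
      (10 * z (Fin.castLE hk 2)) else 0) +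
    (if i = Fin.castLE hk 1 then 10 * D2 G (10 * z (Fin.castLE hk 0)) (10 * z (Fin.castLE hk 1))
      (10 * z (Fin.castLE hk 2)) else 0) +
    (if i = Fin.castLE hk 2 then 10 * D3 G (10 * z (Fin.castLE hk 0)) (10 * z (Fin.castLE hk 1))
      (10 * z (Fin.castLE hk 2)) else 0) := by
  set F : (Fin k → ℂ) → ℂ := fun w => G (10 * w (Fin.castLE hk 0)) (10 * w (Fin.castLE hk 1))
      (10 * w (Fin.castLE hk 2)) with hF
  have hd : Differentiable ℂ F := by
    have h1 : Differentiable ℂ (fun w : Fin k → ℂ => ((10 * w (Fin.castLE hk 0), 10 * w (Fin.castLE hk 1),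
      10 * w (Fin.castLE hk 2)) : ℂ × ℂ × ℂ)) := by fun_prop
    exact hG.comp h1
  have h2 : HasDerivAt (fun t : ℂ => F (z + t • (Pi.single i 1 : Fin k → ℂ)))
      (fderiv ℂ F z (Pi.single i 1)) 0 := by
    have h3 : HasFDerivAt F (fderiv ℂ F z) (z + (0 : ℂ) • (Pi.single i 1 : Fin k → ℂ)) := by
      rw [zero_smul, add_zero]
      exact (hd z).hasFDerivAt
    have h4 : HasDerivAt (fun t : ℂ => z + t • (Pi.single i 1 : Fin k → ℂ))
        (Pi.single i 1 : Fin k → ℂ) 0 := by
      have := ((hasDerivAt_id' (0 : ℂ)).smul_const (Pi.single i 1 : Fin k → ℂ)).const_add z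
      simpa using this
    exact h3.comp_hasDerivAt (0 : ℂ) h4
  rw [← h2.deriv]
  by_cases i0 : i = Fin.castLE hk 0
  · have e1 : Fin.castLE hk 1 ≠ Fin.castLE hk 0 := fun h => by simpa using castLE_inj' hk h
    have e2 : Fin.castLE hk 2 ≠ Fin.castLE hk 0 := fun h => by simpa using castLE_inj' hk h
    rw [if_pos i0, if_neg (by rw [i0]; exact e1.symm), if_neg (by rw [i0]; exact e2.symm), i0]
    have h5 : (fun t : ℂ => F (z + t • (Pi.single (Fin.castLE hk 0) 1 : Fin k → ℂ))) =
        fun t => (fun s => G s (10 * z (Fin.castLE hk 1)) (10 * z (Fin.castLE hk 2)))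
          (10 * (z (Fin.castLE hk 0) + t)) := by
      funext t
      simp [hF, e1, e2]
    rw [h5]
    have h6 : HasDerivAt (fun s => G s (10 * z (Fin.castLE hk 1)) (10 * z (Fin.castLE hk 2)))
        (D1 G (10 * z (Fin.castLE hk 0)) (10 * z (Fin.castLE hk 1)) (10 * z (Fin.castLE hk 2)))
        (10 * (z (Fin.castLE hk 0) + 0)) := by
      rw [add_zero]
      apply DifferentiableAt.hasDerivAt
      have : Differentiable ℂ (fun s : ℂ => ((s, 10 * z (Fin.castLE hk 1),
        10 * z (Fin.castLE hk 2)) : ℂ × ℂ × ℂ)) := by fun_prop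
      exact (hG.comp this) _
    have h7 : HasDerivAt (fun t : ℂ => 10 * (z (Fin.castLE hk 0) + t)) 10 0 := by
      simpa using ((hasDerivAt_id' (0 : ℂ)).const_add (z (Fin.castLE hk 0))).const_mul 10
    refine (h6.comp (0 : ℂ) h7).deriv.trans ?_
    ring
  by_cases i1 : i = Fin.castLE hk 1
  · have e1 : Fin.castLE hk 0 ≠ Fin.castLE hk 1 := fun h => by simpa using castLE_inj' hk h
    have e2 : Fin.castLE hk 2 ≠ Fin.castLE hk 1 := fun h => by simpa using castLE_inj' hk h
    rw [if_neg i0, if_pos i1, if_neg (by rw [i1]; exact e2.symm), i1]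
    have h5 : (fun t : ℂ => F (z + t • (Pi.single (Fin.castLE hk 1) 1 : Fin k → ℂ))) =
        fun t => (fun s => G (10 * z (Fin.castLE hk 0)) s (10 * z (Fin.castLE hk 2)))
          (10 * (z (Fin.castLE hk 1) + t)) := by
      funext t
      simp [hF, e1, e2]
    rw [h5]
    have h6 : HasDerivAt (fun s => G (10 * z (Fin.castLE hk 0)) s (10 * z (Fin.castLE hk 2)))
        (D2 G (10 * z (Fin.castLE hk 0)) (10 * z (Fin.castLE hk 1)) (10 * z (Fin.castLE hk 2)))
        (10 * (z (Fin.castLE hk 1) + 0)) := by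
      rw [add_zero]
      apply DifferentiableAt.hasDerivAt
      have : Differentiable ℂ (fun s : ℂ => ((10 * z (Fin.castLE hk 0), s,
        10 * z (Fin.castLE hk 2)) : ℂ × ℂ × ℂ)) := by fun_prop
      exact (hG.comp this) _
    have h7 : HasDerivAt (fun t : ℂ => 10 * (z (Fin.castLE hk 1) + t)) 10 0 := by
      simpa using ((hasDerivAt_id' (0 : ℂ)).const_add (z (Fin.castLE hk 1))).const_mul 10
    refine (h6.comp (0 : ℂ) h7).deriv.trans ?_
    ring
  by_cases i2 : i = Fin.castLE hk 2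
  · have e1 : Fin.castLE hk 0 ≠ Fin.castLE hk 2 := fun h => by simpa using castLE_inj' hk h
    have e2 : Fin.castLE hk 1 ≠ Fin.castLE hk 2 := fun h => by simpa using castLE_inj' hk h
    rw [if_neg i0, if_neg i1, if_pos i2, i2]
    have h5 : (fun t : ℂ => F (z + t • (Pi.single (Fin.castLE hk 2) 1 : Fin k → ℂ))) =
        fun t => (fun s => G (10 * z (Fin.castLE hk 0)) (10 * z (Fin.castLE hk 1)) s)
          (10 * (z (Fin.castLE hk 2) + t)) := by
      funext t
      simp [hF, e1, e2]
    rw [h5]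
    have h6 : HasDerivAt (fun s => G (10 * z (Fin.castLE hk 0)) (10 * z (Fin.castLE hk 1)) s)
        (D3 G (10 * z (Fin.castLE hk 0)) (10 * z (Fin.castLE hk 1)) (10 * z (Fin.castLE hk 2)))
        (10 * (z (Fin.castLE hk 2) + 0)) := by
      rw [add_zero]
      apply DifferentiableAt.hasDerivAt
      have : Differentiable ℂ (fun s : ℂ => ((10 * z (Fin.castLE hk 0), 10 * z (Fin.castLE hk 1),
        s) : ℂ × ℂ × ℂ)) := by fun_prop
      exact (hG.comp this) _
    have h7 : HasDerivAt (fun t : ℂ => 10 * (z (Fin.castLE hk 2) + t)) 10 0 := by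
      simpa using ((hasDerivAt_id' (0 : ℂ)).const_add (z (Fin.castLE hk 2))).const_mul 10
    refine (h6.comp (0 : ℂ) h7).deriv.trans ?_
    ring
  · rw [if_neg i0, if_neg i1, if_neg i2]
    have h5 : (fun t : ℂ => F (z + t • (Pi.single i 1 : Fin k → ℂ))) = fun _ => F z := by
      funext t
      simp [hF, Ne.symm i0, Ne.symm i1, Ne.symm i2]
    rw [h5, deriv_const]
    ring

theorem mdl_castLE {k : ℕ} (hk : 3 ≤ k) (z : Fin k → ℂ) :
    mdl hk z (Fin.castLE hk 0) =
      a0 (10 * z (Fin.castLE hk 0)) (10 * z (Fin.castLE hk 1)) (10 * z (Fin.castLE hk 2)) ∧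
    mdl hk z (Fin.castLE hk 1) =
      b0 (10 * z (Fin.castLE hk 0)) (10 * z (Fin.castLE hk 1)) (10 * z (Fin.castLE hk 2)) ∧
    mdl hk z (Fin.castLE hk 2) =
      c0 (10 * z (Fin.castLE hk 0)) (10 * z (Fin.castLE hk 1)) (10 * z (Fin.castLE hk 2)) := by
  refine ⟨?_, ?_, ?_⟩
  · rw [mdl, inc_castLE]; rfl
  · rw [mdl, inc_castLE]; rfl
  · rw [mdl, inc_castLE]; rfl

theorem mdl_of_ne {k : ℕ} (hk : 3 ≤ k) (z : Fin k → ℂ) (i : Fin k)
    (hi : i ∉ Set.range (Fin.castLE hk)) : mdl hk z i = 0 := inc_of_ne hk _ i hi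

theorem range_castLE {k : ℕ} (hk : 3 ≤ k) {i : Fin k} (hi : i ∉ Set.range (Fin.castLE hk)) :
    i ≠ Fin.castLE hk 0 ∧ i ≠ Fin.castLE hk 1 ∧ i ≠ Fin.castLE hk 2 :=
  ⟨fun h => hi ⟨0, h.symm⟩, fun h => hi ⟨1, h.symm⟩, fun h => hi ⟨2, h.symm⟩⟩

theorem comp_diff {k : ℕ} (hk : 3 ≤ k) {G : ℂ → ℂ → ℂ → ℂ}
    (hG : Differentiable ℂ (fun q : ℂ × ℂ × ℂ => G q.1 q.2.1 q.2.2)) :
    Differentiable ℂ (fun w : Fin k → ℂ => G (10 * w (Fin.castLE hk 0)) (10 * w (Fin.castLE hk 1))
      (10 * w (Fin.castLE hk 2))) := by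
  have h1 : Differentiable ℂ (fun w : Fin k → ℂ => ((10 * w (Fin.castLE hk 0), 10 * w (Fin.castLE hk 1),
      10 * w (Fin.castLE hk 2)) : ℂ × ℂ × ℂ)) := by fun_prop
  exact hG.comp h1

theorem mdl_diff {k : ℕ} (hk : 3 ≤ k) : Differentiable ℂ (mdl hk) := by
  rw [differentiable_pi]
  intro i
  by_cases hi : i ∈ Set.range (Fin.castLE hk)
  · obtain ⟨l, rfl⟩ := hi
    fin_cases l
    · simp only [Fin.zero_eta]
      rw [show (fun z => mdl hk z (Fin.castLE hk 0)) = _ from funext fun z => (mdl_castLE hk z).1]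
      exact comp_diff hk hol_a0
    · simp only [Fin.mk_one]
      rw [show (fun z => mdl hk z (Fin.castLE hk 1)) = _ from funext fun z => (mdl_castLE hk z).2.1]
      exact comp_diff hk hol_b0
    · simp only [Fin.reduceFinMk]
      rw [show (fun z => mdl hk z (Fin.castLE hk 2)) = _ from funext fun z => (mdl_castLE hk z).2.2]
      exact comp_diff hk hol_c0
  · rw [show (fun z => mdl hk z i) = fun _ => 0 from funext fun z => mdl_of_ne hk z i hi]
    exact differentiable_const _

theorem mdl_frob {k : ℕ} (hk : 3 ≤ k) (z : Fin k → ℂ) : del (mdl hk) z * val (mdl hk) z = 0 := by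
  have fa : (fun w => mdl hk w (Fin.castLE hk 0)) = _ := funext fun w => (mdl_castLE hk w).1
  have fb : (fun w => mdl hk w (Fin.castLE hk 1)) = _ := funext fun w => (mdl_castLE hk w).2.1
  have fc : (fun w => mdl hk w (Fin.castLE hk 2)) = _ := funext fun w => (mdl_castLE hk w).2.2
  have e01 : Fin.castLE hk 0 ≠ Fin.castLE hk 1 := fun h => by simpa using castLE_inj' hk h
  have e02 : Fin.castLE hk 0 ≠ Fin.castLE hk 2 := fun h => by simpa using castLE_inj' hk h
  have e12 : Fin.castLE hk 1 ≠ Fin.castLE hk 2 := fun h => by simpa using castLE_inj' hk h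
  refine frob_of hk (fun i l => fderiv ℂ (fun w => mdl hk w l) z (Pi.single i 1)) (mdl hk z) ?_ ?_ ?_ ?_
  · intro i l hi
    obtain ⟨i0, i1, i2⟩ := range_castLE hk hi
    by_cases hl : l ∈ Set.range (Fin.castLE hk)
    · obtain ⟨l, rfl⟩ := hl
      fin_cases l
      · simp only [Fin.zero_eta]
        rw [fa, fderiv_scaled hk hol_a0, if_neg i0, if_neg i1, if_neg i2]; simp
      · simp only [Fin.mk_one]
        rw [fb, fderiv_scaled hk hol_b0, if_neg i0, if_neg i1, if_neg i2]; simp
      · simp only [Fin.reduceFinMk]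
        rw [fc, fderiv_scaled hk hol_c0, if_neg i0, if_neg i1, if_neg i2]; simp
    · rw [show (fun z => mdl hk z l) = fun _ => 0 from funext fun z => mdl_of_ne hk z l hl]
      simp
  · intro i l hl
    rw [show (fun z => mdl hk z l) = fun _ => 0 from funext fun z => mdl_of_ne hk z l hl]
    simp
  · intro j hj
    exact mdl_of_ne hk z j hj
  · rw [fa, fb, fc, (mdl_castLE hk z).1, (mdl_castLE hk z).2.1, (mdl_castLE hk z).2.2]
    simp only [fderiv_scaled hk hol_a0, fderiv_scaled hk hol_b0, fderiv_scaled hk hol_c0, if_true, e01,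
      e02, e12, e01.symm, e02.symm, e12.symm, if_false, zero_add, add_zero]
    have h := integ_model (10 * z (Fin.castLE hk 0)) (10 * z (Fin.castLE hk 1)) (10 * z (Fin.castLE hk 2))
    rw [IntegAt] at h
    linear_combination 10 * h

/-- the model does not vanish on a dense set -/
theorem mdl_dense {k : ℕ} (hk : 3 ≤ k) (z : Fin k → ℂ) : z ∈ closure {w | mdl hk w ≠ 0} := by
  set y : ℂ := 10 * z (Fin.castLE hk 1) with hy
  have h1 : ({0, 1 / 10, exp y / 10} : Set ℂ).Finite := by simp
  have h2 : Dense ({0, 1 / 10, exp y / 10} : Set ℂ)ᶜ := h1.countable.dense_compl ℝ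
  have hcont : Continuous (fun t : ℂ => Function.update z (Fin.castLE hk 0) t) :=
    continuous_const.update _ continuous_id
  have h3 : Function.update z (Fin.castLE hk 0) (z (Fin.castLE hk 0)) ∈
      closure ((fun t : ℂ => Function.update z (Fin.castLE hk 0) t) '' ({0, 1 / 10, exp y / 10} : Set ℂ)ᶜ) :=
    image_closure_subset_closure_image hcont ⟨_, h2 _, rfl⟩
  rw [Function.update_eq_self] at h3
  refine closure_mono ?_ h3
  rintro _ ⟨t, ht, rfl⟩ h0
  apply ht
  have h4 := congrFun h0 (Fin.castLE hk 2)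
  rw [(mdl_castLE hk _).2.2] at h4
  have e01 : Fin.castLE hk 1 ≠ Fin.castLE hk 0 := fun h => by simpa using castLE_inj' hk h
  simp only [Function.update_self, c0, hh, Pi.zero_apply] at h4
  rw [Function.update_of_ne e01] at h4
  rw [← hy] at h4
  simp only [mul_eq_zero] at h4
  simp only [mem_insert_iff, mem_singleton_iff]
  rcases h4 with h4 | h4 | h4
  · left
    simpa using h4
  · right; left
    rw [sub_eq_zero] at h4
    rw [eq_div_iff (by norm_num), mul_comm]
    exact h4
  · right; right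
    rw [sub_eq_zero] at h4
    rw [eq_div_iff (by norm_num), mul_comm]
    exact h4

end Pool.Agent.H583_Fol
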