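import Pool.Agent.H583_Fol.Defs
import Pool.Agent.Helper417.Mer.HartogsExt

set_option autoImplicit false

namespace Pool.Agent.H583_Fol

open Complex Set Metric Filter Topology

namespace P0

open Pool.Agent.Helper417.Mer.Hartogs673

/-! ### partial derivatives through the total derivative -/

theorem hasFD2 {f : ℂ → ℂ → ℂ} {U : Set (ℂ × ℂ)} (hU : IsOpen U) (hf : Hol2 f U) {x y : ℂ}
    (h : (x, y) ∈ U) : HasFDerivAt (fun p : ℂ × ℂ => f p.1 p.2)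
      (fderiv ℂ (fun p : ℂ × ℂ => f p.1 p.2) (x, y)) (x, y) :=
  (DifferentiableOn.differentiableAt hf (hU.mem_nhds h)).hasFDerivAt

theorem hasFD3 {f : ℂ → ℂ → ℂ → ℂ} {U : Set (ℂ × ℂ × ℂ)} (hU : IsOpen U) (hf : Hol3 f U)
    {x y v : ℂ} (h : (x, y, v) ∈ U) : HasFDerivAt (fun p : ℂ × ℂ × ℂ => f p.1 p.2.1 p.2.2)
      (fderiv ℂ (fun p : ℂ × ℂ × ℂ => f p.1 p.2.1 p.2.2) (x, y, v)) (x, y, v) :=
  (DifferentiableOn.differentiableAt hf (hU.mem_nhds h)).hasFDerivAt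

theorem hasDerivAt_d1 {f : ℂ → ℂ → ℂ} {U : Set (ℂ × ℂ)} (hU : IsOpen U) (hf : Hol2 f U) {x y : ℂ}
    (h : (x, y) ∈ U) : HasDerivAt (fun t => f t y)
      (fderiv ℂ (fun p : ℂ × ℂ => f p.1 p.2) (x, y) (1, 0)) x :=
  (hasFD2 hU hf h).comp_hasDerivAt (f := fun t => (t, y)) x
    ((hasDerivAt_id x).prodMk (hasDerivAt_const x y))

theorem hasDerivAt_d2 {f : ℂ → ℂ → ℂ} {U : Set (ℂ × ℂ)} (hU : IsOpen U) (hf : Hol2 f U) {x y : ℂ}
    (h : (x, y) ∈ U) : HasDerivAt (fun t => f x t)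
      (fderiv ℂ (fun p : ℂ × ℂ => f p.1 p.2) (x, y) (0, 1)) y :=
  (hasFD2 hU hf h).comp_hasDerivAt (f := fun t => (x, t)) y
    ((hasDerivAt_const y x).prodMk (hasDerivAt_id y))

theorem d1_eq {f : ℂ → ℂ → ℂ} {U : Set (ℂ × ℂ)} (hU : IsOpen U) (hf : Hol2 f U) {x y : ℂ}
    (h : (x, y) ∈ U) : d1 f x y = fderiv ℂ (fun p : ℂ × ℂ => f p.1 p.2) (x, y) (1, 0) :=
  (hasDerivAt_d1 hU hf h).deriv

theorem d2_eq {f : ℂ → ℂ → ℂ} {U : Set (ℂ × ℂ)} (hU : IsOpen U) (hf : Hol2 f U) {x y : ℂ}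
    (h : (x, y) ∈ U) : d2 f x y = fderiv ℂ (fun p : ℂ × ℂ => f p.1 p.2) (x, y) (0, 1) :=
  (hasDerivAt_d2 hU hf h).deriv

theorem hasDerivAt_D1 {f : ℂ → ℂ → ℂ → ℂ} {U : Set (ℂ × ℂ × ℂ)} (hU : IsOpen U) (hf : Hol3 f U)
    {x y v : ℂ} (h : (x, y, v) ∈ U) : HasDerivAt (fun t => f t y v)
      (fderiv ℂ (fun p : ℂ × ℂ × ℂ => f p.1 p.2.1 p.2.2) (x, y, v) (1, 0, 0)) x :=
  (hasFD3 hU hf h).comp_hasDerivAt (f := fun t => (t, y, v)) x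
    ((hasDerivAt_id x).prodMk ((hasDerivAt_const x y).prodMk (hasDerivAt_const x v)))

theorem hasDerivAt_D2 {f : ℂ → ℂ → ℂ → ℂ} {U : Set (ℂ × ℂ × ℂ)} (hU : IsOpen U) (hf : Hol3 f U)
    {x y v : ℂ} (h : (x, y, v) ∈ U) : HasDerivAt (fun t => f x t v)
      (fderiv ℂ (fun p : ℂ × ℂ × ℂ => f p.1 p.2.1 p.2.2) (x, y, v) (0, 1, 0)) y :=
  (hasFD3 hU hf h).comp_hasDerivAt (f := fun t => (x, t, v)) y
    ((hasDerivAt_const y x).prodMk ((hasDerivAt_id y).prodMk (hasDerivAt_const y v)))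

theorem hasDerivAt_D3 {f : ℂ → ℂ → ℂ → ℂ} {U : Set (ℂ × ℂ × ℂ)} (hU : IsOpen U) (hf : Hol3 f U)
    {x y v : ℂ} (h : (x, y, v) ∈ U) : HasDerivAt (fun t => f x y t)
      (fderiv ℂ (fun p : ℂ × ℂ × ℂ => f p.1 p.2.1 p.2.2) (x, y, v) (0, 0, 1)) v :=
  (hasFD3 hU hf h).comp_hasDerivAt (f := fun t => (x, y, t)) v
    ((hasDerivAt_const v x).prodMk ((hasDerivAt_const v y).prodMk (hasDerivAt_id v)))

theorem D1_eq {f : ℂ → ℂ → ℂ → ℂ} {U : Set (ℂ × ℂ × ℂ)} (hU : IsOpen U) (hf : Hol3 f U) {x y v : ℂ}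
    (h : (x, y, v) ∈ U) :
    D1 f x y v = fderiv ℂ (fun p : ℂ × ℂ × ℂ => f p.1 p.2.1 p.2.2) (x, y, v) (1, 0, 0) :=
  (hasDerivAt_D1 hU hf h).deriv

theorem D2_eq {f : ℂ → ℂ → ℂ → ℂ} {U : Set (ℂ × ℂ × ℂ)} (hU : IsOpen U) (hf : Hol3 f U) {x y v : ℂ}
    (h : (x, y, v) ∈ U) :
    D2 f x y v = fderiv ℂ (fun p : ℂ × ℂ × ℂ => f p.1 p.2.1 p.2.2) (x, y, v) (0, 1, 0) :=
  (hasDerivAt_D2 hU hf h).deriv

theorem D3_eq {f : ℂ → ℂ → ℂ → ℂ} {U : Set (ℂ × ℂ × ℂ)} (hU : IsOpen U) (hf : Hol3 f U) {x y v : ℂ}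
    (h : (x, y, v) ∈ U) :
    D3 f x y v = fderiv ℂ (fun p : ℂ × ℂ × ℂ => f p.1 p.2.1 p.2.2) (x, y, v) (0, 0, 1) :=
  (hasDerivAt_D3 hU hf h).deriv

/-- second directional derivatives commute -/
theorem symm {E : Type*} [NormedAddCommGroup E] [NormedSpace ℂ E] [FiniteDimensional ℂ E]
    {F : E → ℂ} {U : Set E} (hU : IsOpen U) (hF : DifferentiableOn ℂ F U) {p : E} (hp : p ∈ U)
    (u w : E) : fderiv ℂ (fun q => fderiv ℂ F q u) p w = fderiv ℂ (fun q => fderiv ℂ F q w) p u := by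
  have hc : ContDiffAt ℂ (2 : ℕ) F p :=
    (contDiffOn_of_differentiableOn hU hF 2).contDiffAt (hU.mem_nhds hp)
  have hs : IsSymmSndFDerivAt ℂ F p := hc.isSymmSndFDerivAt (by simp)
  have hd : DifferentiableAt ℂ (fderiv ℂ F) p :=
    (hc.fderiv_right (m := 1) (by norm_num)).differentiableAt (by norm_num)
  have e : ∀ a b : E, fderiv ℂ (fun q => fderiv ℂ F q a) p b = fderiv ℂ (fderiv ℂ F) p b a := by
    intro a b
    have h1 : HasFDerivAt (fun q => fderiv ℂ F q a)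
        ((ContinuousLinearMap.apply ℂ ℂ a).comp (fderiv ℂ (fderiv ℂ F) p)) p :=
      (ContinuousLinearMap.apply ℂ ℂ a).hasFDerivAt.comp p hd.hasFDerivAt
    rw [h1.fderiv]
    rfl
  rw [e, e]
  exact hs.eq w u

end P0

open P0 Pool.Agent.Helper417.Mer.Hartogs673

theorem Hol2.d1 {f : ℂ → ℂ → ℂ} {U : Set (ℂ × ℂ)} (hU : IsOpen U) (hf : Hol2 f U) :
    Hol2 (H583_Fol.d1 f) U := by
  have h := differentiableOn_fderiv_apply hU hf ((1, 0) : ℂ × ℂ)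
  exact h.congr fun p hp => P0.d1_eq hU hf hp

theorem Hol2.d2 {f : ℂ → ℂ → ℂ} {U : Set (ℂ × ℂ)} (hU : IsOpen U) (hf : Hol2 f U) :
    Hol2 (H583_Fol.d2 f) U := by
  have h := differentiableOn_fderiv_apply hU hf ((0, 1) : ℂ × ℂ)
  exact h.congr fun p hp => P0.d2_eq hU hf hp

theorem Hol3.D1 {f : ℂ → ℂ → ℂ → ℂ} {U : Set (ℂ × ℂ × ℂ)} (hU : IsOpen U) (hf : Hol3 f U) :
    Hol3 (H583_Fol.D1 f) U := by
  have h := differentiableOn_fderiv_apply hU hf ((1, 0, 0) : ℂ × ℂ × ℂ)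
  exact h.congr fun p hp => P0.D1_eq hU hf hp

theorem Hol3.D2 {f : ℂ → ℂ → ℂ → ℂ} {U : Set (ℂ × ℂ × ℂ)} (hU : IsOpen U) (hf : Hol3 f U) :
    Hol3 (H583_Fol.D2 f) U := by
  have h := differentiableOn_fderiv_apply hU hf ((0, 1, 0) : ℂ × ℂ × ℂ)
  exact h.congr fun p hp => P0.D2_eq hU hf hp

theorem Hol3.D3 {f : ℂ → ℂ → ℂ → ℂ} {U : Set (ℂ × ℂ × ℂ)} (hU : IsOpen U) (hf : Hol3 f U) :
    Hol3 (H583_Fol.D3 f) U := by
  have h := differentiableOn_fderiv_apply hU hf ((0, 0, 1) : ℂ × ℂ × ℂ)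
  exact h.congr fun p hp => P0.D3_eq hU hf hp

theorem d_comm {f : ℂ → ℂ → ℂ} {U : Set (ℂ × ℂ)} (hU : IsOpen U) (hf : Hol2 f U) {x y : ℂ}
    (h : (x, y) ∈ U) : d1 (d2 f) x y = d2 (d1 f) x y := by
  rw [P0.d1_eq hU (hf.d2 hU) h, P0.d2_eq hU (hf.d1 hU) h]
  have e1 : (fun p : ℂ × ℂ => d2 f p.1 p.2) =ᶠ[𝓝 (x, y)]
      fun p => fderiv ℂ (fun p : ℂ × ℂ => f p.1 p.2) p (0, 1) := by
    filter_upwards [hU.mem_nhds h] with p hp
    exact P0.d2_eq hU hf hp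
  have e2 : (fun p : ℂ × ℂ => d1 f p.1 p.2) =ᶠ[𝓝 (x, y)]
      fun p => fderiv ℂ (fun p : ℂ × ℂ => f p.1 p.2) p (1, 0) := by
    filter_upwards [hU.mem_nhds h] with p hp
    exact P0.d1_eq hU hf hp
  rw [e1.fderiv_eq, e2.fderiv_eq]
  exact P0.symm hU hf h _ _

theorem D12_comm {f : ℂ → ℂ → ℂ → ℂ} {U : Set (ℂ × ℂ × ℂ)} (hU : IsOpen U) (hf : Hol3 f U)
    {x y v : ℂ} (h : (x, y, v) ∈ U) : D1 (D2 f) x y v = D2 (D1 f) x y v := by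
  rw [P0.D1_eq hU (hf.D2 hU) h, P0.D2_eq hU (hf.D1 hU) h]
  have e1 : (fun p : ℂ × ℂ × ℂ => D2 f p.1 p.2.1 p.2.2) =ᶠ[𝓝 (x, y, v)]
      fun p => fderiv ℂ (fun p : ℂ × ℂ × ℂ => f p.1 p.2.1 p.2.2) p (0, 1, 0) := by
    filter_upwards [hU.mem_nhds h] with p hp
    exact P0.D2_eq hU hf hp
  have e2 : (fun p : ℂ × ℂ × ℂ => D1 f p.1 p.2.1 p.2.2) =ᶠ[𝓝 (x, y, v)]
      fun p => fderiv ℂ (fun p : ℂ × ℂ × ℂ => f p.1 p.2.1 p.2.2) p (1, 0, 0) := by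
    filter_upwards [hU.mem_nhds h] with p hp
    exact P0.D1_eq hU hf hp
  rw [e1.fderiv_eq, e2.fderiv_eq]
  exact P0.symm hU hf h _ _

theorem D13_comm {f : ℂ → ℂ → ℂ → ℂ} {U : Set (ℂ × ℂ × ℂ)} (hU : IsOpen U) (hf : Hol3 f U)
    {x y v : ℂ} (h : (x, y, v) ∈ U) : D1 (D3 f) x y v = D3 (D1 f) x y v := by
  rw [P0.D1_eq hU (hf.D3 hU) h, P0.D3_eq hU (hf.D1 hU) h]
  have e1 : (fun p : ℂ × ℂ × ℂ => D3 f p.1 p.2.1 p.2.2) =ᶠ[𝓝 (x, y, v)]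
      fun p => fderiv ℂ (fun p : ℂ × ℂ × ℂ => f p.1 p.2.1 p.2.2) p (0, 0, 1) := by
    filter_upwards [hU.mem_nhds h] with p hp
    exact P0.D3_eq hU hf hp
  have e2 : (fun p : ℂ × ℂ × ℂ => D1 f p.1 p.2.1 p.2.2) =ᶠ[𝓝 (x, y, v)]
      fun p => fderiv ℂ (fun p : ℂ × ℂ × ℂ => f p.1 p.2.1 p.2.2) p (1, 0, 0) := by
    filter_upwards [hU.mem_nhds h] with p hp
    exact P0.D1_eq hU hf hp
  rw [e1.fderiv_eq, e2.fderiv_eq]
  exact P0.symm hU hf h _ _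

theorem D23_comm {f : ℂ → ℂ → ℂ → ℂ} {U : Set (ℂ × ℂ × ℂ)} (hU : IsOpen U) (hf : Hol3 f U)
    {x y v : ℂ} (h : (x, y, v) ∈ U) : D2 (D3 f) x y v = D3 (D2 f) x y v := by
  rw [P0.D2_eq hU (hf.D3 hU) h, P0.D3_eq hU (hf.D2 hU) h]
  have e1 : (fun p : ℂ × ℂ × ℂ => D3 f p.1 p.2.1 p.2.2) =ᶠ[𝓝 (x, y, v)]
      fun p => fderiv ℂ (fun p : ℂ × ℂ × ℂ => f p.1 p.2.1 p.2.2) p (0, 0, 1) := by
    filter_upwards [hU.mem_nhds h] with p hp
    exact P0.D3_eq hU hf hp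
  have e2 : (fun p : ℂ × ℂ × ℂ => D2 f p.1 p.2.1 p.2.2) =ᶠ[𝓝 (x, y, v)]
      fun p => fderiv ℂ (fun p : ℂ × ℂ × ℂ => f p.1 p.2.1 p.2.2) p (0, 1, 0) := by
    filter_upwards [hU.mem_nhds h] with p hp
    exact P0.D2_eq hU hf hp
  rw [e1.fderiv_eq, e2.fderiv_eq]
  exact P0.symm hU hf h _ _

/-- composition with a graph, and the chain rule -/
theorem comp3 {f : ℂ → ℂ → ℂ → ℂ} (hf : Hol3 f univ) {φ : ℂ → ℂ → ℂ} {U : Set (ℂ × ℂ)}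
    (hφ : Hol2 φ U) : Hol2 (fun x y => f x y (φ x y)) U := by
  have h1 : DifferentiableOn ℂ (fun p : ℂ × ℂ => (p.1, p.2, φ p.1 p.2)) U :=
    differentiableOn_fst.prodMk (differentiableOn_snd.prodMk hφ)
  exact DifferentiableOn.comp (g := fun p : ℂ × ℂ × ℂ => f p.1 p.2.1 p.2.2) hf h1
    (fun _ _ => mem_univ _)

theorem d1_comp3 {f : ℂ → ℂ → ℂ → ℂ} (hf : Hol3 f univ) {φ : ℂ → ℂ → ℂ} {U : Set (ℂ × ℂ)}
    (hU : IsOpen U) (hφ : Hol2 φ U) {x y : ℂ} (h : (x, y) ∈ U) :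
    d1 (fun x y => f x y (φ x y)) x y =
      D1 f x y (φ x y) + D3 f x y (φ x y) * d1 φ x y := by
  have h1 := P0.hasFD3 isOpen_univ hf (mem_univ (x, y, φ x y))
  have h2 : HasDerivAt (fun t => φ t y) (d1 φ x y) x := by
    rw [P0.d1_eq hU hφ h]
    exact P0.hasDerivAt_d1 hU hφ h
  have h3 := h1.comp_hasDerivAt (f := fun t => (t, y, φ t y)) x
    ((hasDerivAt_id x).prodMk ((hasDerivAt_const x y).prodMk h2))
  have h4 : d1 (fun x y => f x y (φ x y)) x y =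
    fderiv ℂ (fun p : ℂ × ℂ × ℂ => f p.1 p.2.1 p.2.2) (x, y, φ x y) (1, 0, d1 φ x y) := h3.deriv
  rw [h4, P0.D1_eq isOpen_univ hf (mem_univ (x, y, φ x y)),
    P0.D3_eq isOpen_univ hf (mem_univ (x, y, φ x y))]
  have h5 : ((1, 0, d1 φ x y) : ℂ × ℂ × ℂ) = (1, 0, 0) + d1 φ x y • (0, 0, 1) := by
    simp
  rw [h5, map_add, map_smul, smul_eq_mul, mul_comm (d1 φ x y)]

theorem d2_comp3 {f : ℂ → ℂ → ℂ → ℂ} (hf : Hol3 f univ) {φ : ℂ → ℂ → ℂ} {U : Set (ℂ × ℂ)}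
    (hU : IsOpen U) (hφ : Hol2 φ U) {x y : ℂ} (h : (x, y) ∈ U) :
    d2 (fun x y => f x y (φ x y)) x y =
      D2 f x y (φ x y) + D3 f x y (φ x y) * d2 φ x y := by
  have h1 := P0.hasFD3 isOpen_univ hf (mem_univ (x, y, φ x y))
  have h2 : HasDerivAt (fun t => φ x t) (d2 φ x y) y := by
    rw [P0.d2_eq hU hφ h]
    exact P0.hasDerivAt_d2 hU hφ h
  have h3 := h1.comp_hasDerivAt (f := fun t => (x, t, φ x t)) y
    ((hasDerivAt_const y x).prodMk ((hasDerivAt_id y).prodMk h2))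
  have h4 : d2 (fun x y => f x y (φ x y)) x y =
    fderiv ℂ (fun p : ℂ × ℂ × ℂ => f p.1 p.2.1 p.2.2) (x, y, φ x y) (0, 1, d2 φ x y) := h3.deriv
  rw [h4, P0.D2_eq isOpen_univ hf (mem_univ (x, y, φ x y)),
    P0.D3_eq isOpen_univ hf (mem_univ (x, y, φ x y))]
  have h5 : ((0, 1, d2 φ x y) : ℂ × ℂ × ℂ) = (0, 1, 0) + d2 φ x y • (0, 0, 1) := by
    simp
  rw [h5, map_add, map_smul, smul_eq_mul, mul_comm (d2 φ x y)]

namespace P0

theorem cauchy_one {g : ℂ → ℂ} (hg : Differentiable ℂ g) {x : ℂ} {R δ : ℝ}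
    (h : ∀ t, ‖t‖ ≤ R → ‖g t‖ ≤ δ) (hx : ‖x‖ ≤ R - 1) : ‖deriv g x‖ ≤ δ := by
  have h1 : ∀ t ∈ sphere x 1, ‖g t‖ ≤ δ := by
    intro t ht
    apply h
    rw [mem_sphere, dist_eq_norm] at ht
    calc ‖t‖ = ‖(t - x) + x‖ := by congr 1; ring
      _ ≤ ‖t - x‖ + ‖x‖ := norm_add_le _ _
      _ ≤ R := by linarith
  have := Complex.norm_deriv_le_of_forall_mem_sphere_norm_le one_pos hg.diffContOnCl h1
  simpa using this

theorem cauchy_ball {g : ℂ → ℂ} {x : ℂ} {r M : ℝ} (hr : 0 < r)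
    (hg : DifferentiableOn ℂ g (ball x r)) (h : ∀ t ∈ ball x r, ‖g t‖ ≤ M) :
    ‖deriv g x‖ ≤ M / r := by
  have key : ∀ s ∈ Ioo 0 r, ‖deriv g x‖ ≤ M / s := by
    intro s hs
    refine Complex.norm_deriv_le_of_forall_mem_sphere_norm_le hs.1 ?_ ?_
    · refine (hg.mono ?_).diffContOnCl
      rw [closure_ball x hs.1.ne']
      exact closedBall_subset_ball hs.2
    · intro t ht
      exact h t (sphere_subset_ball hs.2 ht)
  have hlim : Tendsto (fun s : ℝ => M / s) (𝓝[<] r) (𝓝 (M / r)) :=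
    (tendsto_const_nhds.div tendsto_id hr.ne').mono_left nhdsWithin_le_nhds
  refine ge_of_tendsto hlim ?_
  filter_upwards [Ioo_mem_nhdsLT hr] with s hs using key s hs

theorem slice1 {f : ℂ → ℂ → ℂ → ℂ} (hf : Hol3 f univ) (y v : ℂ) :
    Differentiable ℂ (fun t => f t y v) := fun x =>
  (P0.hasDerivAt_D1 isOpen_univ hf (mem_univ (x, y, v))).differentiableAt

theorem slice2 {f : ℂ → ℂ → ℂ → ℂ} (hf : Hol3 f univ) (x v : ℂ) :
    Differentiable ℂ (fun t => f x t v) := fun y =>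
  (P0.hasDerivAt_D2 isOpen_univ hf (mem_univ (x, y, v))).differentiableAt

theorem slice3 {f : ℂ → ℂ → ℂ → ℂ} (hf : Hol3 f univ) (x y : ℂ) :
    Differentiable ℂ (fun t => f x y t) := fun v =>
  (P0.hasDerivAt_D3 isOpen_univ hf (mem_univ (x, y, v))).differentiableAt

end P0

/-- Cauchy estimates -/
theorem cauchy_D1 {f : ℂ → ℂ → ℂ → ℂ} (hf : Hol3 f univ) {R δ : ℝ}
    (h : ∀ x y v, ‖x‖ ≤ R → ‖y‖ ≤ R → ‖v‖ ≤ R → ‖f x y v‖ ≤ δ) (x y v : ℂ)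
    (hx : ‖x‖ ≤ R - 1) (hy : ‖y‖ ≤ R) (hv : ‖v‖ ≤ R) : ‖D1 f x y v‖ ≤ δ :=
  P0.cauchy_one (P0.slice1 hf y v) (fun t ht => h t y v ht hy hv) hx

theorem cauchy_D2 {f : ℂ → ℂ → ℂ → ℂ} (hf : Hol3 f univ) {R δ : ℝ}
    (h : ∀ x y v, ‖x‖ ≤ R → ‖y‖ ≤ R → ‖v‖ ≤ R → ‖f x y v‖ ≤ δ) (x y v : ℂ)
    (hx : ‖x‖ ≤ R) (hy : ‖y‖ ≤ R - 1) (hv : ‖v‖ ≤ R) : ‖D2 f x y v‖ ≤ δ :=
  P0.cauchy_one (P0.slice2 hf x v) (fun t ht => h x t v hx ht hv) hy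

theorem cauchy_D3 {f : ℂ → ℂ → ℂ → ℂ} (hf : Hol3 f univ) {R δ : ℝ}
    (h : ∀ x y v, ‖x‖ ≤ R → ‖y‖ ≤ R → ‖v‖ ≤ R → ‖f x y v‖ ≤ δ) (x y v : ℂ)
    (hx : ‖x‖ ≤ R) (hy : ‖y‖ ≤ R) (hv : ‖v‖ ≤ R - 1) : ‖D3 f x y v‖ ≤ δ :=
  P0.cauchy_one (P0.slice3 hf x y) (fun t ht => h x y t hx hy ht) hv

theorem cauchy_d1 {f : ℂ → ℂ → ℂ} {x y : ℂ} {r M : ℝ} (hr : 0 < r)
    (hf : DifferentiableOn ℂ (fun t => f t y) (ball x r)) (h : ∀ t ∈ ball x r, ‖f t y‖ ≤ M) :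
    ‖d1 f x y‖ ≤ M / r := P0.cauchy_ball hr hf h

theorem cauchy_d2 {f : ℂ → ℂ → ℂ} {x y : ℂ} {r M : ℝ} (hr : 0 < r)
    (hf : DifferentiableOn ℂ (fun t => f x t) (ball y r)) (h : ∀ t ∈ ball y r, ‖f x t‖ ≤ M) :
    ‖d2 f x y‖ ≤ M / r := P0.cauchy_ball hr hf h

/-- identity theorem -/
theorem ident2 {f : ℂ → ℂ → ℂ} {U : Set (ℂ × ℂ)} (hU : IsOpen U) (hc : Convex ℝ U)
    (hf : Hol2 f U) {W : Set (ℂ × ℂ)} (hW : IsOpen W) (hne : (W ∩ U).Nonempty)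
    (h : ∀ x y, (x, y) ∈ W ∩ U → f x y = 0) {x y : ℂ} (hxy : (x, y) ∈ U) : f x y = 0 := by
  obtain ⟨q, hq⟩ := hne
  set l : ℂ → ℂ × ℂ := fun t => q + t • ((x, y) - q) with hl
  have hlc : Continuous l := by rw [hl]; fun_prop
  have hld : Differentiable ℂ l := by rw [hl]; fun_prop
  set T : Set ℂ := l ⁻¹' U with hT
  have hTo : IsOpen T := hU.preimage hlc
  have hTc : Convex ℝ T := by
    intro a ha b hb s t hs ht hst
    have e : l (s • a + t • b) = s • l a + t • l b := by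
      simp only [hl, smul_add, Complex.real_smul]
      have e1 : q = s • q + t • q := by rw [← add_smul, hst, one_smul]
      have e2 : ∀ (r : ℝ) (z : ℂ) (w : ℂ × ℂ), r • (z • w) = ((r : ℂ) * z) • w := by
        intro r z w
        ext <;> simp [mul_assoc]
      rw [e2, e2, add_smul]
      nth_rewrite 1 [e1]
      abel
    show l (s • a + t • b) ∈ U
    rw [e]
    exact hc ha hb hs ht hst
  have hg : DifferentiableOn ℂ (fun t => f (l t).1 (l t).2) T :=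
    DifferentiableOn.comp (g := fun p : ℂ × ℂ => f p.1 p.2) hf hld.differentiableOn
      (fun _ ht => ht)
  have hga : AnalyticOnNhd ℂ (fun t => f (l t).1 (l t).2) T := hg.analyticOnNhd hTo
  have h0 : (0 : ℂ) ∈ T := by
    show l 0 ∈ U
    simp only [hl, zero_smul, add_zero]
    exact hq.2
  have h1 : (1 : ℂ) ∈ T := by
    show l 1 ∈ U
    simp only [hl, one_smul, add_sub_cancel]
    exact hxy
  have hev : (fun t => f (l t).1 (l t).2) =ᶠ[𝓝 0] 0 := by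
    have hWU : l ⁻¹' (W ∩ U) ∈ 𝓝 (0 : ℂ) := by
      refine ((hW.inter hU).preimage hlc).mem_nhds ?_
      show l 0 ∈ W ∩ U
      simp only [hl, zero_smul, add_zero]
      exact hq
    filter_upwards [hWU] with t ht
    exact h _ _ ht
  have := hga.eqOn_zero_of_preconnected_of_eventuallyEq_zero hTc.isPreconnected h0 hev h1
  simpa [hl] using this

namespace P0

theorem fd2_apply {f : ℂ → ℂ → ℂ} {U : Set (ℂ × ℂ)} (hU : IsOpen U) (hf : Hol2 f U) {x y : ℂ}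
    (h : (x, y) ∈ U) (u w : ℂ) : fderiv ℂ (fun p : ℂ × ℂ => f p.1 p.2) (x, y) (u, w) =
      d1 f x y * u + d2 f x y * w := by
  rw [P0.d1_eq hU hf h, P0.d2_eq hU hf h]
  have h5 : ((u, w) : ℂ × ℂ) = u • (1, 0) + w • (0, 1) := by
    simp
  rw [h5, map_add, map_smul, map_smul, smul_eq_mul, smul_eq_mul]
  ring

/-- derivative along a real curve -/
theorem curve {f : ℂ → ℂ → ℂ} {U : Set (ℂ × ℂ)} (hU : IsOpen U) (hf : Hol2 f U) {A B : ℝ → ℂ}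
    {A' B' : ℂ} {t : ℝ} (h : (A t, B t) ∈ U) (hA : HasDerivAt A A' t) (hB : HasDerivAt B B' t) :
    HasDerivAt (fun s => f (A s) (B s)) (d1 f (A t) (B t) * A' + d2 f (A t) (B t) * B') t := by
  have h1 := ((hasFD2 hU hf h).restrictScalars ℝ).comp_hasDerivAt
    (f := fun s => (A s, B s)) t (hA.prodMk hB)
  have h2 : HasDerivAt (fun s => f (A s) (B s))
    (fderiv ℂ (fun p : ℂ × ℂ => f p.1 p.2) (A t, B t) (A', B')) t := h1
  rwa [fd2_apply hU hf h] at h2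

/-- the homotopy -/
noncomputable def H (X X' : ℝ → ℂ) (q : ℝ × ℝ) : ℂ := (1 - q.1) * X q.2 + q.1 * X' q.2

/-- the integrand in the second variable -/
noncomputable def FF (P Q : ℂ → ℂ → ℂ) (X Y X' Y' : ℝ → ℂ) (q : ℝ × ℝ) : ℂ :=
  P (H X X' q) (H Y Y' q) * H (deriv X) (deriv X') q +
    Q (H X X' q) (H Y Y' q) * H (deriv Y) (deriv Y') q

/-- the integrand in the first variable -/
noncomputable def GG (P Q : ℂ → ℂ → ℂ) (X Y X' Y' : ℝ → ℂ) (q : ℝ × ℝ) : ℂ :=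
  -(P (H X X' q) (H Y Y' q) * (X' q.2 - X q.2) + Q (H X X' q) (H Y Y' q) * (Y' q.2 - Y q.2))

theorem H_diff {X X' : ℝ → ℂ} (hX : Differentiable ℝ X) (hX' : Differentiable ℝ X') :
    Differentiable ℝ (H X X') := by
  have h1 : Differentiable ℝ (fun q : ℝ × ℝ => X q.2) := hX.comp differentiable_snd
  have h2 : Differentiable ℝ (fun q : ℝ × ℝ => X' q.2) := hX'.comp differentiable_snd
  have h3 : Differentiable ℝ (fun q : ℝ × ℝ => (q.1 : ℂ)) :=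
    Complex.ofRealCLM.differentiable.comp differentiable_fst
  exact (((differentiable_const (1 : ℂ)).sub h3).mul h1).add (h3.mul h2)

theorem H_t {X X' : ℝ → ℂ} (q : ℝ × ℝ) :
    HasDerivAt (fun t => H X X' (t, q.2)) (X' q.2 - X q.2) q.1 := by
  have h3 : HasDerivAt (fun t : ℝ => (t : ℂ)) 1 q.1 := Complex.ofRealCLM.hasDerivAt
  have h := (((hasDerivAt_const q.1 (1 : ℂ)).sub h3).mul_const (X q.2)).add
    (h3.mul_const (X' q.2))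
  refine HasDerivAt.congr_deriv (f := fun t => H X X' (t, q.2)) h ?_
  ring

theorem H_th {X X' : ℝ → ℂ} (hX : Differentiable ℝ X) (hX' : Differentiable ℝ X') (q : ℝ × ℝ) :
    HasDerivAt (fun t => H X X' (q.1, t)) (H (deriv X) (deriv X') q) q.2 :=
  ((hX q.2).hasDerivAt.const_mul (1 - (q.1 : ℂ))).add ((hX' q.2).hasDerivAt.const_mul (q.1 : ℂ))

variable {P Q : ℂ → ℂ → ℂ} {U : Set (ℂ × ℂ)} {X Y X' Y' : ℝ → ℂ}

theorem comp_diff {P : ℂ → ℂ → ℂ} (hU : IsOpen U) (hP : Hol2 P U)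
    (hX : Differentiable ℝ X) (hY : Differentiable ℝ Y) (hX' : Differentiable ℝ X')
    (hY' : Differentiable ℝ Y') {q : ℝ × ℝ} (h : (H X X' q, H Y Y' q) ∈ U) :
    DifferentiableAt ℝ (fun q => P (H X X' q) (H Y Y' q)) q := by
  have h1 := ((hasFD2 hU hP h).restrictScalars ℝ).differentiableAt
  exact DifferentiableAt.comp (f := fun q => (H X X' q, H Y Y' q)) q h1
    ((H_diff hX hX' q).prodMk (H_diff hY hY' q))

theorem FF_diff (hU : IsOpen U) (hP : Hol2 P U) (hQ : Hol2 Q U)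
    (hX : ContDiff ℝ 2 X) (hY : ContDiff ℝ 2 Y) (hX' : ContDiff ℝ 2 X') (hY' : ContDiff ℝ 2 Y')
    {q : ℝ × ℝ} (h : (H X X' q, H Y Y' q) ∈ U) :
    DifferentiableAt ℝ (FF P Q X Y X' Y') q := by
  have d1 : ∀ {X : ℝ → ℂ}, ContDiff ℝ 2 X → Differentiable ℝ X := fun h => h.differentiable (by simp)
  have d2 : ∀ {X : ℝ → ℂ}, ContDiff ℝ 2 X → Differentiable ℝ (deriv X) := fun {X} h => by
    have : ContDiff ℝ (1 + 1) X := by
      convert h using 1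
      norm_num
    exact (contDiff_succ_iff_deriv.1 this).2.2.differentiable (by simp)
  exact ((comp_diff hU hP (d1 hX) (d1 hY) (d1 hX') (d1 hY') h).mul
      (H_diff (d2 hX) (d2 hX') q)).add
    ((comp_diff hU hQ (d1 hX) (d1 hY) (d1 hX') (d1 hY') h).mul (H_diff (d2 hY) (d2 hY') q))

theorem GG_diff (hU : IsOpen U) (hP : Hol2 P U) (hQ : Hol2 Q U)
    (hX : ContDiff ℝ 2 X) (hY : ContDiff ℝ 2 Y) (hX' : ContDiff ℝ 2 X') (hY' : ContDiff ℝ 2 Y')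
    {q : ℝ × ℝ} (h : (H X X' q, H Y Y' q) ∈ U) :
    DifferentiableAt ℝ (GG P Q X Y X' Y') q := by
  have d1 : ∀ {X : ℝ → ℂ}, ContDiff ℝ 2 X → Differentiable ℝ X := fun h => h.differentiable (by simp)
  have h1 : ∀ {X : ℝ → ℂ}, ContDiff ℝ 2 X → Differentiable ℝ (fun q : ℝ × ℝ => X q.2) :=
    fun h => (d1 h).comp differentiable_snd
  exact (((comp_diff hU hP (d1 hX) (d1 hY) (d1 hX') (d1 hY') h).mul
      ((h1 hX' q).sub (h1 hX q))).add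
    ((comp_diff hU hQ (d1 hX) (d1 hY) (d1 hX') (d1 hY') h).mul
      ((h1 hY' q).sub (h1 hY q)))).neg

theorem div_zero' (hU : IsOpen U) (hP : Hol2 P U) (hQ : Hol2 Q U)
    (hcl : ∀ x y, (x, y) ∈ U → d1 Q x y = d2 P x y)
    (hX : ContDiff ℝ 2 X) (hY : ContDiff ℝ 2 Y) (hX' : ContDiff ℝ 2 X') (hY' : ContDiff ℝ 2 Y')
    {q : ℝ × ℝ} (h : (H X X' q, H Y Y' q) ∈ U) :
    fderiv ℝ (FF P Q X Y X' Y') q (1, 0) + fderiv ℝ (GG P Q X Y X' Y') q (0, 1) = 0 := by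
  have dd1 : ∀ {X : ℝ → ℂ}, ContDiff ℝ 2 X → Differentiable ℝ X :=
    fun h => h.differentiable (by simp)
  have hF := (FF_diff hU hP hQ hX hY hX' hY' h).hasFDerivAt.comp_hasDerivAt
    (f := fun t => (t, q.2)) q.1 ((hasDerivAt_id q.1).prodMk (hasDerivAt_const q.1 q.2))
  have hG := (GG_diff hU hP hQ hX hY hX' hY' h).hasFDerivAt.comp_hasDerivAt
    (f := fun t => (q.1, t)) q.2 ((hasDerivAt_const q.2 q.1).prodMk (hasDerivAt_id q.2))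
  have hP1 := curve hU hP (A := fun t => H X X' (t, q.2)) (B := fun t => H Y Y' (t, q.2))
    (t := q.1) h (H_t q) (H_t q)
  have hQ1 := curve hU hQ (A := fun t => H X X' (t, q.2)) (B := fun t => H Y Y' (t, q.2))
    (t := q.1) h (H_t q) (H_t q)
  have hP2 := curve hU hP (A := fun t => H X X' (q.1, t)) (B := fun t => H Y Y' (q.1, t))
    (t := q.2) h (H_th (dd1 hX) (dd1 hX') q) (H_th (dd1 hY) (dd1 hY') q)
  have hQ2 := curve hU hQ (A := fun t => H X X' (q.1, t)) (B := fun t => H Y Y' (q.1, t))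
    (t := q.2) h (H_th (dd1 hX) (dd1 hX') q) (H_th (dd1 hY) (dd1 hY') q)
  have hF' := (hP1.mul (H_t (X := deriv X) (X' := deriv X') q)).add
    (hQ1.mul (H_t (X := deriv Y) (X' := deriv Y') q))
  have hG' := ((hP2.mul ((dd1 hX' q.2).hasDerivAt.sub (dd1 hX q.2).hasDerivAt)).add
    (hQ2.mul ((dd1 hY' q.2).hasDerivAt.sub (dd1 hY q.2).hasDerivAt))).neg
  have eF := hF.unique hF'
  have eG := hG.unique hG'
  rw [eF, eG]
  have hc := hcl _ _ h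
  simp only [Prod.mk.eta, Pi.sub_apply]
  rw [hc]
  ring

end P0

/-- integrals of a closed form over loops joined by a straight homotopy. The loops are
`θ ↦ (X θ, Y θ)`, `0 ≤ θ ≤ 2 π`. -/
theorem loop_eq {P Q : ℂ → ℂ → ℂ} {U : Set (ℂ × ℂ)} (hU : IsOpen U) (hP : Hol2 P U) (hQ : Hol2 Q U)
    (hcl : ∀ x y, (x, y) ∈ U → d1 Q x y = d2 P x y) {X Y X' Y' : ℝ → ℂ}
    (hX : ContDiff ℝ 2 X) (hY : ContDiff ℝ 2 Y) (hX' : ContDiff ℝ 2 X') (hY' : ContDiff ℝ 2 Y')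
    (pX : X (2 * Real.pi) = X 0) (pY : Y (2 * Real.pi) = Y 0) (pX' : X' (2 * Real.pi) = X' 0)
    (pY' : Y' (2 * Real.pi) = Y' 0)
    (hin : ∀ τ ∈ Icc (0 : ℝ) 1, ∀ θ ∈ Icc (0 : ℝ) (2 * Real.pi),
      ((1 - τ) * X θ + τ * X' θ, (1 - τ) * Y θ + τ * Y' θ) ∈ U) :
    (∫ θ in (0 : ℝ)..(2 * Real.pi), (P (X θ) (Y θ) * deriv X θ + Q (X θ) (Y θ) * deriv Y θ)) =
      ∫ θ in (0 : ℝ)..(2 * Real.pi), (P (X' θ) (Y' θ) * deriv X' θ + Q (X' θ) (Y' θ) * deriv Y' θ) := by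
  have h2p : (0 : ℝ) ≤ 2 * Real.pi := by positivity
  have hin' : ∀ q ∈ Icc (0 : ℝ) 1 ×ˢ Icc (0 : ℝ) (2 * Real.pi), (P0.H X X' q, P0.H Y Y' q) ∈ U := by
    rintro ⟨t, s⟩ ⟨ht, hs⟩
    exact hin t ht s hs
  have hsub : Ioo (0 : ℝ) 1 ×ˢ Ioo (0 : ℝ) (2 * Real.pi) ⊆ Icc (0 : ℝ) 1 ×ˢ Icc (0 : ℝ) (2 * Real.pi) :=
    prod_mono Ioo_subset_Icc_self Ioo_subset_Icc_self
  have key := MeasureTheory.integral2_divergence_prod_of_hasFDerivAt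
    (P0.FF P Q X Y X' Y') (P0.GG P Q X Y X' Y') (fderiv ℝ (P0.FF P Q X Y X' Y'))
    (fderiv ℝ (P0.GG P Q X Y X' Y')) 0 0 1 (2 * Real.pi)
    (by
      rw [uIcc_of_le zero_le_one, uIcc_of_le h2p]
      intro q hq
      exact (P0.FF_diff hU hP hQ hX hY hX' hY' (hin' q hq)).continuousAt.continuousWithinAt)
    (by
      rw [uIcc_of_le zero_le_one, uIcc_of_le h2p]
      intro q hq
      exact (P0.GG_diff hU hP hQ hX hY hX' hY' (hin' q hq)).continuousAt.continuousWithinAt)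
    (by
      rw [min_eq_left zero_le_one, max_eq_right zero_le_one, min_eq_left h2p, max_eq_right h2p]
      intro q hq
      exact (P0.FF_diff hU hP hQ hX hY hX' hY' (hin' q (hsub hq))).hasFDerivAt)
    (by
      rw [min_eq_left zero_le_one, max_eq_right zero_le_one, min_eq_left h2p, max_eq_right h2p]
      intro q hq
      exact (P0.GG_diff hU hP hQ hX hY hX' hY' (hin' q (hsub hq))).hasFDerivAt)
    (by
      rw [uIcc_of_le zero_le_one, uIcc_of_le h2p]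
      refine (MeasureTheory.integrableOn_zero).congr_fun (fun q hq => ?_)
        (measurableSet_Icc.prod measurableSet_Icc)
      exact (P0.div_zero' hU hP hQ hcl hX hY hX' hY' (hin' q hq)).symm)
  have e0 : (∫ x in (0 : ℝ)..1, ∫ y in (0 : ℝ)..(2 * Real.pi),
      fderiv ℝ (P0.FF P Q X Y X' Y') (x, y) (1, 0) +
        fderiv ℝ (P0.GG P Q X Y X' Y') (x, y) (0, 1)) = 0 := by
    rw [intervalIntegral.integral_congr (g := fun _ => (0 : ℂ))]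
    · simp
    · intro x hx
      rw [uIcc_of_le zero_le_one] at hx
      show (∫ y in (0 : ℝ)..(2 * Real.pi), fderiv ℝ (P0.FF P Q X Y X' Y') (x, y) (1, 0) +
        fderiv ℝ (P0.GG P Q X Y X' Y') (x, y) (0, 1)) = 0
      rw [intervalIntegral.integral_congr (g := fun _ => (0 : ℂ))]
      · simp
      · intro y hy
        rw [uIcc_of_le h2p] at hy
        exact P0.div_zero' hU hP hQ hcl hX hY hX' hY' (hin' (x, y) ⟨hx, hy⟩)
  have eG : ∀ x : ℝ, P0.GG P Q X Y X' Y' (x, 2 * Real.pi) = P0.GG P Q X Y X' Y' (x, 0) := by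
    intro x
    simp only [P0.GG, P0.H, pX, pY, pX', pY']
  rw [e0] at key
  simp only [eG, sub_self, zero_add] at key
  have eF0 : ∀ y : ℝ, P0.FF P Q X Y X' Y' (0, y) =
      P (X y) (Y y) * deriv X y + Q (X y) (Y y) * deriv Y y := by
    intro y
    simp [P0.FF, P0.H]
  have eF1 : ∀ y : ℝ, P0.FF P Q X Y X' Y' (1, y) =
      P (X' y) (Y' y) * deriv X' y + Q (X' y) (Y' y) * deriv Y' y := by
    intro y
    simp [P0.FF, P0.H]
  simp only [eF0, eF1] at key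
  exact (sub_eq_zero.1 key.symm).symm

end Pool.Agent.H583_Fol
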