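import Pool.Agent.H583_Fol.Defs
import Pool.Agent.H583_Fol.Basic
import Pool.Agent.H583_Fol.St.T0

/-!
# Lemma 1 of the paper: Lyapunov-Schmidt
-/

set_option autoImplicit false

namespace Pool.Agent.H583_Fol

open Complex Set Metric Filter Topology

namespace P1

open Pool.Agent.Helper417.Mer.Hartogs673

/-- integrals over a real segment of holomorphic functions with parameters -/
theorem param_seg {E : Type} [NormedAddCommGroup E] [NormedSpace ℂ E] [FiniteDimensional ℂ E]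
    {Ω : Set (E × ℂ)} (hΩ : IsOpen Ω) {F : E × ℂ → ℂ} (hF : DifferentiableOn ℂ F Ω) {w : ℝ → ℂ}
    (hw : MeasureTheory.AEStronglyMeasurable w MeasureTheory.volume)
    (hwb : ∀ t ∈ Ioc (0:ℝ) 1, ‖w t‖ ≤ 1)
    {U : Set E} (hU : IsOpen U) (hsub : ∀ p ∈ U, ∀ t ∈ Icc (0:ℝ) 1, (p, (t : ℂ)) ∈ Ω) :
    DifferentiableOn ℂ (fun p => ∫ t in (0:ℝ)..1, w t * F (p, (t : ℂ))) U := by
  have hcd : ContDiffOn ℂ (1:ℕ) F Ω := contDiffOn_of_differentiableOn hΩ hF 1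
  have hfd : ContinuousOn (fun q => fderiv ℂ F q) Ω :=
    hcd.continuousOn_fderiv_of_isOpen hΩ (by simp)
  intro p0 hp0
  have : ProperSpace E := FiniteDimensional.proper ℂ E
  obtain ⟨δ, hδ, hδU⟩ := Metric.nhds_basis_closedBall.mem_iff.1 (hU.mem_nhds hp0)
  have hcI : IsCompact ((fun t : ℝ => (t : ℂ)) '' Icc (0:ℝ) 1) :=
    isCompact_Icc.image Complex.continuous_ofReal
  have hK : IsCompact (closedBall p0 δ ×ˢ ((fun t : ℝ => (t : ℂ)) '' Icc (0:ℝ) 1)) :=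
    (isCompact_closedBall _ _).prod hcI
  have hKΩ : closedBall p0 δ ×ˢ ((fun t : ℝ => (t : ℂ)) '' Icc (0:ℝ) 1) ⊆ Ω := by
    rintro ⟨p, ξ⟩ ⟨h1, t, ht, rfl⟩
    exact hsub p (hδU h1) t ht
  obtain ⟨M, hM⟩ := hK.exists_bound_of_continuousOn (hfd.mono hKΩ)
  have hIoc : uIoc (0:ℝ) 1 = Ioc 0 1 := uIoc_of_le zero_le_one
  have hmeas : ∀ {V : Type} [NormedAddCommGroup V] [NormedSpace ℂ V] {G : ℝ → V},
      ContinuousOn G (Icc 0 1) → MeasureTheory.AEStronglyMeasurable G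
        (MeasureTheory.volume.restrict (uIoc (0:ℝ) 1)) := by
    intro V _ _ G hG
    rw [hIoc]
    exact (hG.mono Ioc_subset_Icc_self).aestronglyMeasurable measurableSet_Ioc
  have hwm : MeasureTheory.AEStronglyMeasurable w (MeasureTheory.volume.restrict (uIoc (0:ℝ) 1)) :=
    hw.restrict
  have hFc : ∀ p ∈ U, ContinuousOn (fun t : ℝ => F (p, (t : ℂ))) (Icc 0 1) := by
    intro p hp
    refine hF.continuousOn.comp (f := fun t : ℝ => (p, (t : ℂ))) (by fun_prop) ?_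
    intro t ht
    exact hsub p hp t ht
  have hF'c : ∀ p ∈ U, ContinuousOn (fun t : ℝ => fderiv ℂ F (p, (t : ℂ))) (Icc 0 1) := by
    intro p hp
    refine hfd.comp (f := fun t : ℝ => (p, (t : ℂ))) (by fun_prop) ?_
    intro t ht
    exact hsub p hp t ht
  have key := intervalIntegral.hasFDerivAt_integral_of_dominated_of_fderiv_le (𝕜 := ℂ)
    (F := fun (p : E) (t : ℝ) => w t • F (p, (t : ℂ)))
    (F' := fun (p : E) (t : ℝ) => w t •
      ((fderiv ℂ F (p, (t : ℂ))).comp (ContinuousLinearMap.inl ℂ E ℂ)))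
    (x₀ := p0) (s := ball p0 δ) (μ := MeasureTheory.volume) (a := 0) (b := 1)
    (bound := fun _ => 1 * (M * ‖ContinuousLinearMap.inl ℂ E ℂ‖))
    (ball_mem_nhds p0 hδ)
    (by
      filter_upwards [hU.mem_nhds hp0] with p hp
      exact hwm.smul (hmeas (hFc p hp)))
    (by
      obtain ⟨B, hB⟩ := isCompact_Icc.exists_bound_of_continuousOn (hFc p0 hp0)
      have hm1 := hwm.smul (hmeas (hFc p0 hp0))
      rw [intervalIntegrable_iff]
      rw [hIoc] at hm1 ⊢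
      refine MeasureTheory.Integrable.of_bound hm1 B ?_
      refine (MeasureTheory.ae_restrict_iff' measurableSet_Ioc).2
        (Filter.Eventually.of_forall fun t ht => ?_)
      rw [norm_smul]
      have h1 := hB t (Ioc_subset_Icc_self ht)
      calc ‖w t‖ * ‖F (p0, (t : ℂ))‖ ≤ 1 * ‖F (p0, (t : ℂ))‖ :=
            mul_le_mul_of_nonneg_right (hwb t ht) (norm_nonneg _)
        _ ≤ B := by rw [one_mul]; exact h1)
    (by
      refine hwm.smul (hmeas ?_)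
      exact (hF'c p0 hp0).clm_comp continuousOn_const)
    (by
      refine Filter.Eventually.of_forall fun t ht p hp => ?_
      rw [hIoc] at ht
      rw [norm_smul]
      apply mul_le_mul (hwb t ht) _ (norm_nonneg _) zero_le_one
      refine (ContinuousLinearMap.opNorm_comp_le _ _).trans ?_
      apply mul_le_mul_of_nonneg_right _ (norm_nonneg _)
      exact hM (p, (t : ℂ)) ⟨ball_subset_closedBall hp, t, Ioc_subset_Icc_self ht, rfl⟩)
    intervalIntegrable_const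
    (by
      refine Filter.Eventually.of_forall fun t ht p hp => ?_
      rw [hIoc] at ht
      have h1 : (p, (t : ℂ)) ∈ Ω := hsub p (hδU (ball_subset_closedBall hp)) t
        (Ioc_subset_Icc_self ht)
      have h2 : HasFDerivAt (fun x : E => F (x, (t : ℂ)))
          ((fderiv ℂ F (p, (t : ℂ))).comp (ContinuousLinearMap.inl ℂ E ℂ)) p :=
        (hF.differentiableAt (hΩ.mem_nhds h1)).hasFDerivAt.comp p
          (hasFDerivAt_prodMk_left p (t : ℂ))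
      exact h2.const_smul (w t))
  exact key.differentiableAt.differentiableWithinAt

/-- division by `x - e`: maximum principle -/
theorem div_bound {f : ℂ → ℂ} {e : ℂ} {m : ℝ} (he : ‖e‖ < 3)
    (hf : DifferentiableOn ℂ f (ball 0 4))
    (h : ∀ x ∈ ball (0:ℂ) 4, ‖(x - e) * f x‖ ≤ m) {x : ℂ} (hx : x ∈ ball (0:ℂ) 4) : ‖f x‖ ≤ m := by
  have far : ∀ z ∈ ball (0:ℂ) 4, 1 ≤ ‖z - e‖ → ‖f z‖ ≤ m := by
    intro z hz h1
    refine le_trans ?_ (h z hz)
    rw [norm_mul]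
    nlinarith [norm_nonneg (f z)]
  by_cases h1 : 1 ≤ ‖x - e‖
  · exact far x hx h1
  push Not at h1
  have hsub : closedBall e 1 ⊆ ball (0:ℂ) 4 := by
    intro z hz
    rw [mem_closedBall, dist_eq_norm] at hz
    rw [mem_ball, dist_zero_right]
    have : ‖z‖ ≤ ‖z - e‖ + ‖e‖ := by
      have := norm_add_le (z - e) e
      simpa using this
    linarith
  have hd : DiffContOnCl ℂ f (ball e 1) := by
    apply DifferentiableOn.diffContOnCl
    rw [closure_ball e one_ne_zero]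
    exact hf.mono hsub
  refine Complex.norm_le_of_forall_mem_frontier_norm_le isBounded_ball hd ?_ (subset_closure ?_)
  · intro z hz
    rw [frontier_ball e one_ne_zero, mem_sphere, dist_eq_norm] at hz
    apply far z _ hz.ge
    apply hsub
    rw [mem_closedBall, dist_eq_norm]
    exact hz.le
  · rw [mem_ball, dist_eq_norm]
    exact h1

/-- the inverse of `x ∂ₓ + ν` -/
noncomputable def Lam (q : ℂ → ℂ → ℂ) (x y : ℂ) : ℂ :=
  ∫ t in (0:ℝ)..1, (t : ℂ) ^ I * q (t * x) y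

theorem norm_w {t : ℝ} (ht : t ∈ Ioc (0:ℝ) 1) : ‖(t : ℂ) ^ I‖ ≤ 1 := by
  rw [Complex.norm_cpow_eq_rpow_re_of_pos ht.1]
  simp

theorem meas_w : MeasureTheory.AEStronglyMeasurable (fun t : ℝ => (t : ℂ) ^ I)
    MeasureTheory.volume := by
  apply Measurable.aestronglyMeasurable
  exact Complex.measurable_ofReal.pow_const I

theorem mem_Dom_smul {x y : ℂ} (h : (x, y) ∈ Dom) {t : ℝ} (ht : t ∈ Icc (0:ℝ) 1) :
    ((t : ℂ) * x, y) ∈ Dom := by
  refine ⟨?_, h.2⟩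
  have h1 : ‖x‖ < 4 := h.1
  simp only [norm_mul, Complex.norm_real, Real.norm_eq_abs, abs_of_nonneg ht.1]
  nlinarith [norm_nonneg x, ht.1, ht.2]

theorem Lam_hol {q : ℂ → ℂ → ℂ} (hq : Hol2 q Dom) : Hol2 (Lam q) Dom := by
  have hc : Continuous (fun p : (ℂ × ℂ) × ℂ => (p.2 * p.1.1, p.1.2)) := by fun_prop
  have hΩ : IsOpen ((fun p : (ℂ × ℂ) × ℂ => (p.2 * p.1.1, p.1.2)) ⁻¹' Dom) := isOpen_Dom.preimage hc
  exact param_seg (F := fun p => q (p.2 * p.1.1) p.1.2) hΩ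
    (DifferentiableOn.comp (g := fun p : ℂ × ℂ => q p.1 p.2) (t := Dom)
      (f := fun p : (ℂ × ℂ) × ℂ => (p.2 * p.1.1, p.1.2)) hq
      (Differentiable.differentiableOn (by fun_prop)) (fun p hp => hp)) meas_w
      (fun t ht => norm_w ht) isOpen_Dom (fun p hp t ht => mem_Dom_smul hp ht)

theorem Lam_bound {q : ℂ → ℂ → ℂ} {m : ℝ} (hm : ∀ x y, (x, y) ∈ Dom → ‖q x y‖ ≤ m) {x y : ℂ}
    (h : (x, y) ∈ Dom) : ‖Lam q x y‖ ≤ m := by
  have h1 := intervalIntegral.norm_integral_le_of_norm_le_const (a := 0) (b := 1) (C := m)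
    (f := fun t : ℝ => (t : ℂ) ^ I * q (t * x) y) (by
      intro t ht
      rw [uIoc_of_le zero_le_one] at ht
      rw [norm_mul]
      have h2 := norm_w ht
      have h3 := hm _ _ (mem_Dom_smul h (Ioc_subset_Icc_self ht))
      calc _ ≤ 1 * m := mul_le_mul h2 h3 (norm_nonneg _) zero_le_one
        _ = m := one_mul m)
  simpa [Lam] using h1

theorem cont_seg {q : ℂ → ℂ → ℂ} (hq : Hol2 q Dom) {x y : ℂ} (hy : y ∈ Yr) :
    ContinuousOn (fun t : ℝ => q (t * x) y) {t : ℝ | ‖(t : ℂ) * x‖ < 4} := by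
  refine ContinuousOn.comp (g := fun p : ℂ × ℂ => q p.1 p.2) (t := Dom)
    (f := fun t : ℝ => ((t : ℂ) * x, y)) hq.continuousOn (by fun_prop) ?_
  intro t ht
  exact ⟨ht, hy⟩

theorem Lam_eq {q : ℂ → ℂ → ℂ} (hq : Hol2 q Dom) {x y : ℂ} (h : (x, y) ∈ Dom) :
    x * d1 (Lam q) x y + nu * Lam q x y = q x y := by
  have hx4 : ‖x‖ < 4 := h.1
  -- the function `s ↦ s ^ I q(s x, y)`
  set f : ℝ → ℂ := fun s => (s : ℂ) ^ I * q (s * x) y with hf
  have hop : IsOpen {t : ℝ | ‖(t : ℂ) * x‖ < 4} := isOpen_lt (by fun_prop) (by fun_prop)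
  have hcw : ∀ t : ℝ, 0 < t → ContinuousAt (fun t : ℝ => (t : ℂ) ^ I) t := by
    intro t ht
    exact (Complex.continuousAt_ofReal_cpow_const t I (Or.inr ht.ne'))
  have hfc : ContinuousOn f ({t : ℝ | ‖(t : ℂ) * x‖ < 4} ∩ Ioi 0) := by
    refine ContinuousOn.mul ?_ ((cont_seg hq h.2).mono inter_subset_left)
    intro t ht
    exact (hcw t ht.2).continuousWithinAt
  have hop2 : IsOpen ({t : ℝ | ‖(t : ℂ) * x‖ < 4} ∩ Ioi 0) := hop.inter isOpen_Ioi
  have h1mem : (1:ℝ) ∈ ({t : ℝ | ‖(t : ℂ) * x‖ < 4} ∩ Ioi 0) := by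
    refine ⟨?_, ?_⟩
    · simpa using hx4
    · simp
  -- integrability
  have hint : IntervalIntegrable f MeasureTheory.volume 0 1 := by
    have hq1 : ContinuousOn (fun t : ℝ => q (t * x) y) (Icc 0 1) := by
      refine (cont_seg hq h.2).mono ?_
      intro t ht
      exact (mem_Dom_smul h ht).1
    obtain ⟨B, hB⟩ := isCompact_Icc.exists_bound_of_continuousOn hq1
    rw [intervalIntegrable_iff, uIoc_of_le zero_le_one]
    refine MeasureTheory.Integrable.of_bound (meas_w.restrict.mul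
      ((hq1.mono Ioc_subset_Icc_self).aestronglyMeasurable measurableSet_Ioc)) B ?_
    refine (MeasureTheory.ae_restrict_iff' measurableSet_Ioc).2
      (Filter.Eventually.of_forall fun t ht => ?_)
    rw [norm_mul]
    calc _ ≤ 1 * ‖q (t * x) y‖ := mul_le_mul_of_nonneg_right (norm_w ht) (norm_nonneg _)
      _ ≤ B := by rw [one_mul]; exact hB t (Ioc_subset_Icc_self ht)
  have hFTC : HasDerivAt (fun u : ℝ => ∫ s in (0:ℝ)..u, f s) (f 1) 1 :=
    intervalIntegral.integral_hasDerivAt_right hint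
      (hfc.stronglyMeasurableAtFilter hop2 1 h1mem) (hfc.continuousAt (hop2.mem_nhds h1mem))
  -- change of variables
  have hcv : ∀ l : ℝ, 0 < l → ∫ s in (0:ℝ)..l, f s = (l : ℂ) * (l : ℂ) ^ I * Lam q (l * x) y := by
    intro l hl
    have h1 := intervalIntegral.integral_comp_mul_right (a := 0) (b := 1) f hl.ne'
    rw [zero_mul, one_mul] at h1
    have h2 : ∫ s in (0:ℝ)..l, f s = l • ∫ t in (0:ℝ)..1, f (t * l) := by
      rw [h1, smul_smul, mul_inv_cancel₀ hl.ne', one_smul]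
    rw [h2]
    have h3 : ∫ t in (0:ℝ)..1, f (t * l) = (l : ℂ) ^ I * Lam q (l * x) y := by
      rw [Lam, ← intervalIntegral.integral_const_mul]
      apply intervalIntegral.integral_congr
      intro t ht
      rw [uIcc_of_le zero_le_one] at ht
      simp only [hf]
      rw [Complex.ofReal_mul, Complex.mul_cpow_ofReal_nonneg ht.1 hl.le]
      rw [show (t : ℂ) * l * x = t * (l * x) by ring]
      ring
    rw [h3, Complex.real_smul]
    ring
  -- derivative of the right hand side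
  have hLd : HasDerivAt (fun z : ℂ => Lam q z y) (d1 (Lam q) x y) x := by
    have h1 : DifferentiableAt ℂ (fun p : ℂ × ℂ => Lam q p.1 p.2) (x, y) :=
      (Lam_hol hq).differentiableAt (isOpen_Dom.mem_nhds h)
    have h2 : DifferentiableAt ℂ (fun z : ℂ => Lam q z y) x :=
      DifferentiableAt.comp (g := fun p : ℂ × ℂ => Lam q p.1 p.2) (f := fun z : ℂ => (z, y)) x h1
        (by fun_prop)
    exact h2.hasDerivAt
  have hLr : HasDerivAt (fun l : ℝ => Lam q (l * x) y) (d1 (Lam q) x y * x) 1 := by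
    have h1 : HasDerivAt (fun l : ℝ => (l : ℂ) * x) (1 * x) 1 :=
      (Complex.ofRealCLM.hasDerivAt (x := 1)).mul_const x
    rw [one_mul] at h1
    have h2 : HasDerivAt (fun z : ℂ => Lam q z y) (d1 (Lam q) x y) (((1:ℝ) : ℂ) * x) := by
      simpa using hLd
    exact h2.comp_of_eq (1:ℝ) h1 rfl
  have hpw : HasDerivAt (fun l : ℝ => (l : ℂ) ^ I) I 1 := by
    have h1 : HasDerivAt (fun z : ℂ => z ^ I) (I * (1:ℂ) ^ (I - 1)) ((1:ℝ) : ℂ) := by
      have := (hasDerivAt_id (1:ℂ)).cpow_const (c := I) (Or.inl (by simp))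
      simpa using this
    have h2 := h1.comp_ofReal
    simpa using h2
  have hl : HasDerivAt (fun l : ℝ => (l : ℂ)) 1 1 := Complex.ofRealCLM.hasDerivAt (x := 1)
  have hR := (hl.mul hpw).mul hLr
  have hEq : (fun u : ℝ => ∫ s in (0:ℝ)..u, f s) =ᶠ[𝓝 1]
      (fun l : ℝ => (l : ℂ) * (l : ℂ) ^ I * Lam q (l * x) y) := by
    filter_upwards [Ioi_mem_nhds (show (0:ℝ) < 1 by norm_num)] with l hl
    exact hcv l hl
  have hR2 := hR.congr_of_eventuallyEq (f₁ := fun u : ℝ => ∫ s in (0:ℝ)..u, f s) hEq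
  have huniq := hFTC.unique hR2
  simp only [hf, Complex.ofReal_one, Complex.one_cpow, one_mul, Pi.mul_apply, mul_one] at huniq
  rw [huniq, nu]
  ring

/-- slices -/
theorem slice1 {f : ℂ → ℂ → ℂ} (hf : Hol2 f Dom) {y : ℂ} (hy : y ∈ Yr) :
    DifferentiableOn ℂ (fun x => f x y) (ball 0 4) := by
  refine DifferentiableOn.comp (g := fun p : ℂ × ℂ => f p.1 p.2) (t := Dom)
    (f := fun x : ℂ => (x, y)) hf (Differentiable.differentiableOn (by fun_prop)) ?_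
  intro x hx
  exact ⟨by simpa using hx, hy⟩

theorem slice_e {f : ℂ → ℂ → ℂ} (hf : Hol2 f Dom) {e : ℂ → ℂ} (he : Differentiable ℂ e)
    (heb : ∀ y ∈ Yr, ‖e y‖ < 3) : DifferentiableOn ℂ (fun y => f (e y) y) Yr := by
  refine DifferentiableOn.comp (g := fun p : ℂ × ℂ => f p.1 p.2) (t := Dom)
    (f := fun y : ℂ => (e y, y)) hf (Differentiable.differentiableOn (by fun_prop)) ?_
  intro y hy
  exact ⟨(heb y hy).trans (by norm_num), hy⟩

/-- the difference quotient at `x = e y` -/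
noncomputable def Dq (e : ℂ → ℂ) (g : ℂ → ℂ → ℂ) (x y : ℂ) : ℂ :=
  ∫ s in (0:ℝ)..1, d1 g (e y + s * (x - e y)) y

theorem mem_Dom_seg {e : ℂ → ℂ} (heb : ∀ y ∈ Yr, ‖e y‖ < 3) {x y : ℂ} (h : (x, y) ∈ Dom) {t : ℝ}
    (ht : t ∈ Icc (0:ℝ) 1) : (e y + t * (x - e y), y) ∈ Dom := by
  refine ⟨?_, h.2⟩
  have h1 : ‖x‖ < 4 := h.1
  have h2 := heb y h.2
  have h3 : e y + t * (x - e y) = ((1 - t : ℝ) : ℂ) * e y + (t : ℂ) * x := by
    push_cast; ring
  simp only [h3]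
  have h4 : 0 ≤ 1 - t := by linarith [ht.2]
  calc ‖((1 - t : ℝ) : ℂ) * e y + (t : ℂ) * x‖ ≤ (1 - t) * ‖e y‖ + t * ‖x‖ := by
        refine (norm_add_le _ _).trans ?_
        rw [norm_mul, norm_mul, Complex.norm_real, Complex.norm_real, Real.norm_eq_abs,
          Real.norm_eq_abs, abs_of_nonneg h4, abs_of_nonneg ht.1]
    _ < 4 := by
      rcases ht.1.eq_or_lt with h0 | h0
      · rw [← h0]; linarith
      · nlinarith [ht.2]

theorem Dq_hol {e : ℂ → ℂ} (he : Differentiable ℂ e) (heb : ∀ y ∈ Yr, ‖e y‖ < 3)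
    {g : ℂ → ℂ → ℂ} (hg : Hol2 g Dom) : Hol2 (Dq e g) Dom := by
  have hd : Differentiable ℂ
      (fun p : (ℂ × ℂ) × ℂ => (e p.1.2 + p.2 * (p.1.1 - e p.1.2), p.1.2)) := by
    have h1 : Differentiable ℂ (fun p : (ℂ × ℂ) × ℂ => e p.1.2) :=
      he.comp (by fun_prop)
    fun_prop
  have hΩ : IsOpen ((fun p : (ℂ × ℂ) × ℂ => (e p.1.2 + p.2 * (p.1.1 - e p.1.2), p.1.2)) ⁻¹' Dom) :=
    isOpen_Dom.preimage hd.continuous
  have h := param_seg (F := fun p => d1 g (e p.1.2 + p.2 * (p.1.1 - e p.1.2)) p.1.2)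
    (w := fun _ => 1) hΩ
    (DifferentiableOn.comp (g := fun p : ℂ × ℂ => d1 g p.1 p.2) (t := Dom)
      (f := fun p : (ℂ × ℂ) × ℂ => (e p.1.2 + p.2 * (p.1.1 - e p.1.2), p.1.2)) (hg.d1 isOpen_Dom)
      hd.differentiableOn (fun p hp => hp)) MeasureTheory.aestronglyMeasurable_const
      (fun t ht => by simp) isOpen_Dom (fun p hp t ht => mem_Dom_seg heb hp ht)
  simp only [one_mul] at h
  exact h

theorem Dq_eq {e : ℂ → ℂ} (heb : ∀ y ∈ Yr, ‖e y‖ < 3)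
    {g : ℂ → ℂ → ℂ} (hg : Hol2 g Dom) {x y : ℂ} (h : (x, y) ∈ Dom) :
    (x - e y) * Dq e g x y = g x y - g (e y) y := by
  have hs := slice1 hg h.2
  have hd : ∀ t ∈ uIcc (0:ℝ) 1, HasDerivAt (fun t : ℝ => g (e y + t * (x - e y)) y)
      ((x - e y) * d1 g (e y + t * (x - e y)) y) t := by
    intro t ht
    rw [uIcc_of_le zero_le_one] at ht
    have h1 : e y + t * (x - e y) ∈ ball (0:ℂ) 4 := by
      rw [mem_ball, dist_zero_right]
      exact (mem_Dom_seg heb h ht).1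
    have h2 : HasDerivAt (fun z : ℂ => g z y) (d1 g (e y + t * (x - e y)) y)
        (e y + t * (x - e y)) :=
      (hs.differentiableAt (isOpen_ball.mem_nhds h1)).hasDerivAt
    have h3 : HasDerivAt (fun t : ℝ => e y + t * (x - e y)) (1 * (x - e y)) t :=
      ((Complex.ofRealCLM.hasDerivAt (x := t)).mul_const (x - e y)).const_add (e y)
    have h4 := h2.comp_of_eq t h3 rfl
    rw [one_mul, mul_comm] at h4
    exact h4
  have hc : ContinuousOn (fun t : ℝ => (x - e y) * d1 g (e y + t * (x - e y)) y) (uIcc 0 1) := by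
    refine continuousOn_const.mul ?_
    refine ContinuousOn.comp (g := fun p : ℂ × ℂ => d1 g p.1 p.2) (t := Dom)
      (f := fun t : ℝ => (e y + t * (x - e y), y)) (hg.d1 isOpen_Dom).continuousOn
      (by fun_prop) ?_
    intro t ht
    rw [uIcc_of_le zero_le_one] at ht
    exact mem_Dom_seg heb h ht
  have h5 := intervalIntegral.integral_eq_sub_of_hasDerivAt hd hc.intervalIntegrable
  rw [intervalIntegral.integral_const_mul] at h5
  rw [Dq, h5]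
  simp

theorem Dq_bound {e : ℂ → ℂ} (he : Differentiable ℂ e) (heb : ∀ y ∈ Yr, ‖e y‖ < 3)
    {g : ℂ → ℂ → ℂ} (hg : Hol2 g Dom) {m : ℝ} (hm : ∀ x y, (x, y) ∈ Dom → ‖g x y‖ ≤ m) {x y : ℂ}
    (h : (x, y) ∈ Dom) : ‖Dq e g x y‖ ≤ 2 * m := by
  refine div_bound (heb y h.2) (slice1 (Dq_hol he heb hg) h.2) ?_ (by simpa using h.1)
  intro z hz
  have hzD : (z, y) ∈ Dom := ⟨by simpa using hz, h.2⟩
  have heD : (e y, y) ∈ Dom := ⟨(heb y h.2).trans (by norm_num), h.2⟩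
  rw [Dq_eq heb hg hzD]
  refine (norm_sub_le _ _).trans ?_
  linarith [hm _ _ hzD, hm _ _ heD]

theorem Dq_sub_bound {e : ℂ → ℂ} (he : Differentiable ℂ e) (heb : ∀ y ∈ Yr, ‖e y‖ < 3)
    {g g' : ℂ → ℂ → ℂ} (hg : Hol2 g Dom) (hg' : Hol2 g' Dom) {m : ℝ}
    (hm : ∀ x y, (x, y) ∈ Dom → ‖g x y - g' x y‖ ≤ m) {x y : ℂ}
    (h : (x, y) ∈ Dom) : ‖Dq e g x y - Dq e g' x y‖ ≤ 2 * m := by
  refine div_bound (f := fun z => Dq e g z y - Dq e g' z y) (heb y h.2)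
    ((slice1 (Dq_hol he heb hg) h.2).sub (slice1 (Dq_hol he heb hg') h.2)) ?_ (by simpa using h.1)
  intro z hz
  have hzD : (z, y) ∈ Dom := ⟨by simpa using hz, h.2⟩
  have heD : (e y, y) ∈ Dom := ⟨(heb y h.2).trans (by norm_num), h.2⟩
  have e1 : (z - e y) * (Dq e g z y - Dq e g' z y) =
      (g z y - g' z y) - (g (e y) y - g' (e y) y) := by
    rw [mul_sub, Dq_eq heb hg hzD, Dq_eq heb hg' hzD]; ring
  rw [e1]
  refine (norm_sub_le _ _).trans ?_
  linarith [hm _ _ hzD, hm _ _ heD]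

theorem Lam_sub {q q' : ℂ → ℂ → ℂ} (hq : Hol2 q Dom) (hq' : Hol2 q' Dom) {x y : ℂ}
    (h : (x, y) ∈ Dom) : Lam q x y - Lam q' x y = Lam (fun x y => q x y - q' x y) x y := by
  have hint : ∀ {r : ℂ → ℂ → ℂ}, Hol2 r Dom → IntervalIntegrable
      (fun t : ℝ => (t : ℂ) ^ I * r (t * x) y) MeasureTheory.volume 0 1 := by
    intro r hr
    have hq1 : ContinuousOn (fun t : ℝ => r (t * x) y) (Icc 0 1) := by
      refine (cont_seg hr h.2).mono ?_
      intro t ht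
      exact (mem_Dom_smul h ht).1
    obtain ⟨B, hB⟩ := isCompact_Icc.exists_bound_of_continuousOn hq1
    rw [intervalIntegrable_iff, uIoc_of_le zero_le_one]
    refine MeasureTheory.Integrable.of_bound (meas_w.restrict.mul
      ((hq1.mono Ioc_subset_Icc_self).aestronglyMeasurable measurableSet_Ioc)) B ?_
    refine (MeasureTheory.ae_restrict_iff' measurableSet_Ioc).2
      (Filter.Eventually.of_forall fun t ht => ?_)
    rw [norm_mul]
    calc _ ≤ 1 * ‖r (t * x) y‖ := mul_le_mul_of_nonneg_right (norm_w ht) (norm_nonneg _)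
      _ ≤ B := by rw [one_mul]; exact hB t (Ioc_subset_Icc_self ht)
  rw [Lam, Lam, Lam, ← intervalIntegral.integral_sub (hint hq) (hint hq')]
  simp only [mul_sub]

theorem norm_nu_le : ‖nu‖ ≤ 2 := by
  rw [nu]
  refine (norm_add_le _ _).trans ?_
  simp
  norm_num

theorem Lam_sub_bound {q q' : ℂ → ℂ → ℂ} (hq : Hol2 q Dom) (hq' : Hol2 q' Dom) {m : ℝ}
    (hm : ∀ x y, (x, y) ∈ Dom → ‖q x y - q' x y‖ ≤ m) {x y : ℂ}
    (h : (x, y) ∈ Dom) : ‖Lam q x y - Lam q' x y‖ ≤ m := by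
  rw [Lam_sub hq hq' h]
  exact Lam_bound hm h

theorem d1_Lam_bound {q : ℂ → ℂ → ℂ} (hq : Hol2 q Dom) {m : ℝ}
    (hm : ∀ x y, (x, y) ∈ Dom → ‖q x y‖ ≤ m) {x y : ℂ}
    (h : (x, y) ∈ Dom) : ‖d1 (Lam q) x y‖ ≤ 3 * m := by
  refine div_bound (f := fun z => d1 (Lam q) z y) (e := 0) (by simp)
    (slice1 ((Lam_hol hq).d1 isOpen_Dom) h.2) ?_ (by simpa using h.1)
  intro z hz
  have hzD : (z, y) ∈ Dom := ⟨by simpa using hz, h.2⟩
  have e1 : (z - 0) * d1 (Lam q) z y = q z y - nu * Lam q z y := by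
    rw [← Lam_eq hq hzD]; ring
  rw [e1]
  refine (norm_sub_le _ _).trans ?_
  rw [norm_mul]
  have h1 := hm z y hzD
  have h2 := Lam_bound hm hzD
  nlinarith [norm_nonneg (Lam q z y), norm_nonneg nu, norm_nu_le]

theorem d1_Lam_sub_bound {q q' : ℂ → ℂ → ℂ} (hq : Hol2 q Dom) (hq' : Hol2 q' Dom) {m : ℝ}
    (hm : ∀ x y, (x, y) ∈ Dom → ‖q x y - q' x y‖ ≤ m) {x y : ℂ}
    (h : (x, y) ∈ Dom) : ‖d1 (Lam q) x y - d1 (Lam q') x y‖ ≤ 3 * m := by
  refine div_bound (f := fun z => d1 (Lam q) z y - d1 (Lam q') z y) (e := 0) (by simp)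
    ((slice1 ((Lam_hol hq).d1 isOpen_Dom) h.2).sub (slice1 ((Lam_hol hq').d1 isOpen_Dom) h.2)) ?_
    (by simpa using h.1)
  intro z hz
  have hzD : (z, y) ∈ Dom := ⟨by simpa using hz, h.2⟩
  have e1 : (z - 0) * (d1 (Lam q) z y - d1 (Lam q') z y) =
      (q z y - q' z y) - nu * (Lam q z y - Lam q' z y) := by
    rw [← Lam_eq hq hzD, ← Lam_eq hq' hzD]; ring
  rw [e1]
  refine (norm_sub_le _ _).trans ?_
  rw [norm_mul]
  have h1 := hm z y hzD
  have h2 := Lam_sub_bound hq hq' hm hzD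
  nlinarith [norm_nonneg (Lam q z y - Lam q' z y), norm_nonneg nu, norm_nu_le]

/-- the quadratic coefficient of the model -/
noncomputable def G0 (x y : ℂ) : ℂ := x * (2 * exp (nu * y) * (x - 1) + (x - exp y))

noncomputable def Aa (a : ℂ → ℂ → ℂ → ℂ) (x y v : ℂ) : ℂ := a x y v - a0 x y v
noncomputable def Cc (c : ℂ → ℂ → ℂ → ℂ) (x y v : ℂ) : ℂ := c x y v - c0 x y v

noncomputable def N (a c : ℂ → ℂ → ℂ → ℂ) (q : ℂ → ℂ → ℂ) (x y : ℂ) : ℂ :=
  -(Cc c x y (Lam q x y) * d1 (Lam q) x y + G0 x y * (Lam q x y) ^ 2 + Aa a x y (Lam q x y))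

noncomputable def T (a c : ℂ → ℂ → ℂ → ℂ) (q : ℂ → ℂ → ℂ) : ℂ → ℂ → ℂ :=
  Dq exp (Dq (fun _ => 1) (N a c q))

theorem one_lt3 : ∀ y ∈ Yr, ‖(fun _ : ℂ => (1:ℂ)) y‖ < 3 := by
  intro y _
  simp

theorem exp_lt3 : ∀ y ∈ Yr, ‖exp y‖ < 3 := fun _ hy => (norm_exp_of_Yr hy).2

theorem exp_nu_bound {y : ℂ} (hy : y ∈ Yr) : ‖exp (nu * y)‖ ≤ 9 := by
  rw [Complex.norm_exp]
  have h1 : (nu * y).re = y.re - y.im := by
    simp [nu, add_mul]
    ring
  rw [h1]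
  have h2 : y.re < 1 := (abs_lt.1 hy.1).2
  have h3 : -1 < y.im := hy.2.1
  have h4 : Real.exp (y.re - y.im) ≤ Real.exp (1 + 1) := Real.exp_le_exp.2 (by linarith)
  rw [Real.exp_add] at h4
  have e1 := Real.exp_one_lt_d9
  have e0 := Real.exp_pos 1
  nlinarith

theorem G0_bound {x y : ℂ} (h : (x, y) ∈ Dom) : ‖G0 x y‖ ≤ 400 := by
  have hx : ‖x‖ < 4 := h.1
  have h1 := exp_nu_bound h.2
  have h2 := exp_lt3 y h.2
  have h3 : ‖x - 1‖ ≤ 5 := by
    refine (norm_sub_le _ _).trans ?_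
    rw [norm_one]; linarith
  have h4 : ‖x - exp y‖ ≤ 7 := by
    refine (norm_sub_le _ _).trans ?_
    linarith
  have h5 : ‖2 * exp (nu * y) * (x - 1)‖ ≤ 90 := by
    rw [norm_mul, norm_mul]
    have : ‖(2:ℂ)‖ = 2 := by simp
    rw [this]
    nlinarith [norm_nonneg (exp (nu * y)), norm_nonneg (x - 1)]
  have h6 : ‖2 * exp (nu * y) * (x - 1) + (x - exp y)‖ ≤ 97 := by
    refine (norm_add_le _ _).trans ?_
    linarith
  rw [G0, norm_mul]
  nlinarith [norm_nonneg x, norm_nonneg (2 * exp (nu * y) * (x - 1) + (x - exp y))]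

theorem G0_hol : Hol2 G0 Dom := by
  apply Differentiable.differentiableOn
  unfold G0
  fun_prop

theorem Aa_hol {a : ℂ → ℂ → ℂ → ℂ} (ha : Hol3 a univ) : Hol3 (Aa a) univ := by
  have h1 : Hol3 a0 univ := by
    apply Differentiable.differentiableOn
    unfold a0 hh
    fun_prop
  exact DifferentiableOn.sub ha h1

theorem Cc_hol {c : ℂ → ℂ → ℂ → ℂ} (hc : Hol3 c univ) : Hol3 (Cc c) univ := by
  have h1 : Hol3 c0 univ := by
    apply Differentiable.differentiableOn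
    unfold c0 hh
    fun_prop
  exact DifferentiableOn.sub hc h1

theorem lip_v {f : ℂ → ℂ → ℂ → ℂ} (hf : Hol3 f univ) {δ : ℝ}
    (h : ∀ x y v, ‖x‖ ≤ 9 → ‖y‖ ≤ 9 → ‖v‖ ≤ 9 → ‖f x y v‖ ≤ δ) {x y v v' : ℂ}
    (hx : ‖x‖ ≤ 9) (hy : ‖y‖ ≤ 9) (hv : ‖v‖ ≤ 8) (hv' : ‖v'‖ ≤ 8) :
    ‖f x y v - f x y v'‖ ≤ δ * ‖v - v'‖ := by
  have hd : Differentiable ℂ (fun t => f x y t) := by
    intro t
    refine DifferentiableAt.comp (g := fun p : ℂ × ℂ × ℂ => f p.1 p.2.1 p.2.2)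
      (f := fun t : ℂ => (x, y, t)) t ?_ (by fun_prop)
    exact hf.differentiableAt (by simp)
  refine Convex.norm_image_sub_le_of_norm_deriv_le (f := fun t => f x y t)
    (s := closedBall (0:ℂ) 8) (fun t _ => hd t) (fun t ht => ?_) (convex_closedBall 0 8)
    (by simpa using hv') (by simpa using hv)
  have := cauchy_D3 hf (R := 9) h x y t hx hy (by
    rw [mem_closedBall, dist_zero_right] at ht
    linarith)
  exact this

theorem N_hol {a c : ℂ → ℂ → ℂ → ℂ} (ha : Hol3 a univ) (hc : Hol3 c univ) {q : ℂ → ℂ → ℂ}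
    (hq : Hol2 q Dom) : Hol2 (N a c q) Dom := by
  have hL := Lam_hol hq
  have h1 := comp3 (Cc_hol hc) hL
  have h2 := comp3 (Aa_hol ha) hL
  have h3 := hL.d1 isOpen_Dom
  have h4 := G0_hol
  unfold Hol2 at *
  unfold N
  exact (((h1.mul h3).add (h4.mul (hL.pow 2))).add h2).neg

theorem T_hol {a c : ℂ → ℂ → ℂ → ℂ} (ha : Hol3 a univ) (hc : Hol3 c univ) {q : ℂ → ℂ → ℂ}
    (hq : Hol2 q Dom) : Hol2 (T a c q) Dom :=
  Dq_hol Complex.differentiable_exp exp_lt3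
    (Dq_hol (differentiable_const 1) one_lt3 (N_hol ha hc hq))

theorem N_bound {a b c : ℂ → ℂ → ℂ → ℂ} {δ κ : ℝ} (hκ1 : κ ≤ 1 / 10000)
    (hn : Near a b c δ) {q : ℂ → ℂ → ℂ} (hq : Hol2 q Dom)
    (hb : ∀ x y, (x, y) ∈ Dom → ‖q x y‖ ≤ κ) {x y : ℂ} (h : (x, y) ∈ Dom) :
    ‖N a c q x y‖ ≤ 2 * δ + 400 * κ ^ 2 := by
  have hx : ‖x‖ < 4 := h.1
  have hy := norm_lt_of_Yr h.2
  have h1 := Lam_bound hb h
  have h2 := d1_Lam_bound hq hb h
  have hκ : 0 ≤ κ := (norm_nonneg _).trans (hb x y h)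
  have hC : ‖Cc c x y (Lam q x y)‖ ≤ δ := hn.nc x y _ (by linarith) (by linarith) (by linarith)
  have hA : ‖Aa a x y (Lam q x y)‖ ≤ δ := hn.na x y _ (by linarith) (by linarith) (by linarith)
  have hδ : 0 ≤ δ := (norm_nonneg _).trans hA
  have hG := G0_bound h
  rw [N, norm_neg]
  have e1 : ‖Cc c x y (Lam q x y) * d1 (Lam q) x y‖ ≤ δ := by
    rw [norm_mul]
    calc _ ≤ δ * 1 := mul_le_mul hC (by linarith) (norm_nonneg _) hδ
      _ = δ := mul_one δ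
  have e2 : ‖G0 x y * Lam q x y ^ 2‖ ≤ 400 * κ ^ 2 := by
    rw [norm_mul, norm_pow]
    exact mul_le_mul hG (pow_le_pow_left₀ (norm_nonneg _) h1 2) (by positivity) (by norm_num)
  calc _ ≤ _ := norm_add₃_le
    _ ≤ _ := by linarith

theorem N_sub_bound {a b c : ℂ → ℂ → ℂ → ℂ} {δ κ m : ℝ} (hκ1 : κ ≤ 1 / 10000)
    (hn : Near a b c δ) {q q' : ℂ → ℂ → ℂ} (hq : Hol2 q Dom) (hq' : Hol2 q' Dom)
    (hb : ∀ x y, (x, y) ∈ Dom → ‖q x y‖ ≤ κ) (hb' : ∀ x y, (x, y) ∈ Dom → ‖q' x y‖ ≤ κ)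
    (hm : ∀ x y, (x, y) ∈ Dom → ‖q x y - q' x y‖ ≤ m) {x y : ℂ} (h : (x, y) ∈ Dom) :
    ‖N a c q x y - N a c q' x y‖ ≤ (5 * δ + 800 * κ) * m := by
  have hx : ‖x‖ < 4 := h.1
  have hy := norm_lt_of_Yr h.2
  have h1 := Lam_bound hb h
  have h1' := Lam_bound hb' h
  have h2' := d1_Lam_bound hq' hb' h
  have h3 := Lam_sub_bound hq hq' hm h
  have h4 := d1_Lam_sub_bound hq hq' hm h
  have hκ : 0 ≤ κ := (norm_nonneg _).trans (hb x y h)
  have hm0 : 0 ≤ m := (norm_nonneg _).trans (hm x y h)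
  have hC : ‖Cc c x y (Lam q x y)‖ ≤ δ := hn.nc x y _ (by linarith) (by linarith) (by linarith)
  have hδ : 0 ≤ δ := (norm_nonneg _).trans hC
  have hCd : ‖Cc c x y (Lam q x y) - Cc c x y (Lam q' x y)‖ ≤ δ * ‖Lam q x y - Lam q' x y‖ :=
    lip_v (Cc_hol hn.hc) (fun x y v hx hy hv => hn.nc x y v hx hy hv) (by linarith) (by linarith)
      (by linarith) (by linarith)
  have hAd : ‖Aa a x y (Lam q x y) - Aa a x y (Lam q' x y)‖ ≤ δ * ‖Lam q x y - Lam q' x y‖ :=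
    lip_v (Aa_hol hn.ha) (fun x y v hx hy hv => hn.na x y v hx hy hv) (by linarith) (by linarith)
      (by linarith) (by linarith)
  have hG := G0_bound h
  have hCd' : ‖Cc c x y (Lam q x y) - Cc c x y (Lam q' x y)‖ ≤ δ * m :=
    hCd.trans (mul_le_mul_of_nonneg_left h3 hδ)
  have hAd' : ‖Aa a x y (Lam q x y) - Aa a x y (Lam q' x y)‖ ≤ δ * m :=
    hAd.trans (mul_le_mul_of_nonneg_left h3 hδ)
  have e0 : N a c q x y - N a c q' x y =
      -(Cc c x y (Lam q x y) * (d1 (Lam q) x y - d1 (Lam q') x y) +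
        (Cc c x y (Lam q x y) - Cc c x y (Lam q' x y)) * d1 (Lam q') x y +
        G0 x y * ((Lam q x y - Lam q' x y) * (Lam q x y + Lam q' x y)) +
        (Aa a x y (Lam q x y) - Aa a x y (Lam q' x y))) := by
    rw [N, N]; ring
  rw [e0, norm_neg]
  have e1 : ‖Cc c x y (Lam q x y) * (d1 (Lam q) x y - d1 (Lam q') x y)‖ ≤ δ * (3 * m) := by
    rw [norm_mul]
    exact mul_le_mul hC h4 (norm_nonneg _) hδ
  have e2 : ‖(Cc c x y (Lam q x y) - Cc c x y (Lam q' x y)) * d1 (Lam q') x y‖ ≤ (δ * m) * 1 := by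
    rw [norm_mul]
    exact mul_le_mul hCd' (by linarith) (norm_nonneg _) (by positivity)
  have e3 : ‖G0 x y * ((Lam q x y - Lam q' x y) * (Lam q x y + Lam q' x y))‖ ≤
      400 * (m * (2 * κ)) := by
    rw [norm_mul, norm_mul]
    have : ‖Lam q x y + Lam q' x y‖ ≤ 2 * κ := (norm_add_le _ _).trans (by linarith)
    exact mul_le_mul hG (mul_le_mul h3 this (norm_nonneg _) hm0) (by positivity) (by norm_num)
  calc _ ≤ _ := norm_add_le _ _
    _ ≤ _ := add_le_add_left norm_add₃_le _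
    _ ≤ _ := by nlinarith

theorem T_bound {a b c : ℂ → ℂ → ℂ → ℂ} {κ : ℝ} (hκ1 : κ ≤ 1 / 10000)
    (hn : Near a b c (κ / 64)) {q : ℂ → ℂ → ℂ} (hq : Hol2 q Dom)
    (hb : ∀ x y, (x, y) ∈ Dom → ‖q x y‖ ≤ κ) {x y : ℂ} (h : (x, y) ∈ Dom) :
    ‖T a c q x y‖ ≤ κ := by
  have hκ : 0 ≤ κ := (norm_nonneg _).trans (hb x y h)
  have h1 : ‖T a c q x y‖ ≤ 2 * (2 * (2 * (κ / 64) + 400 * κ ^ 2)) :=
    Dq_bound Complex.differentiable_exp exp_lt3
      (Dq_hol (differentiable_const 1) one_lt3 (N_hol hn.ha hn.hc hq))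
      (fun x y hxy => Dq_bound (differentiable_const 1) one_lt3 (N_hol hn.ha hn.hc hq)
        (fun x y hxy => N_bound hκ1 hn hq hb hxy) hxy) h
  nlinarith

theorem T_sub_bound {a b c : ℂ → ℂ → ℂ → ℂ} {κ m : ℝ} (hκ1 : κ ≤ 1 / 10000)
    (hn : Near a b c (κ / 64)) {q q' : ℂ → ℂ → ℂ} (hq : Hol2 q Dom) (hq' : Hol2 q' Dom)
    (hb : ∀ x y, (x, y) ∈ Dom → ‖q x y‖ ≤ κ) (hb' : ∀ x y, (x, y) ∈ Dom → ‖q' x y‖ ≤ κ)
    (hm : ∀ x y, (x, y) ∈ Dom → ‖q x y - q' x y‖ ≤ m) {x y : ℂ} (h : (x, y) ∈ Dom) :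
    ‖T a c q x y - T a c q' x y‖ ≤ m / 2 := by
  have hκ : 0 ≤ κ := (norm_nonneg _).trans (hb x y h)
  have hm0 : 0 ≤ m := (norm_nonneg _).trans (hm x y h)
  have h1 : ‖T a c q x y - T a c q' x y‖ ≤ 2 * (2 * ((5 * (κ / 64) + 800 * κ) * m)) :=
    Dq_sub_bound Complex.differentiable_exp exp_lt3
      (Dq_hol (differentiable_const 1) one_lt3 (N_hol hn.ha hn.hc hq))
      (Dq_hol (differentiable_const 1) one_lt3 (N_hol hn.ha hn.hc hq'))
      (fun x y hxy => Dq_sub_bound (differentiable_const 1) one_lt3 (N_hol hn.ha hn.hc hq)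
        (N_hol hn.ha hn.hc hq') (fun x y hxy => N_sub_bound hκ1 hn hq hq' hb hb' hm hxy) hxy) h
  have h2 : (5 * (κ / 64) + 800 * κ) ≤ 1 / 8 := by linarith
  nlinarith

/-- the iterates -/
noncomputable def qs (a c : ℂ → ℂ → ℂ → ℂ) : ℕ → ℂ → ℂ → ℂ
  | 0 => fun _ _ => 0
  | n + 1 => T a c (qs a c n)

theorem qs_hol {a c : ℂ → ℂ → ℂ → ℂ} (ha : Hol3 a univ) (hc : Hol3 c univ) (n : ℕ) :
    Hol2 (qs a c n) Dom := by
  induction n with
  | zero => exact differentiableOn_const 0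
  | succ n ih => exact T_hol ha hc ih

theorem qs_bound {a b c : ℂ → ℂ → ℂ → ℂ} {κ : ℝ} (hκ0 : 0 ≤ κ) (hκ1 : κ ≤ 1 / 10000)
    (hn : Near a b c (κ / 64)) (n : ℕ) : ∀ x y, (x, y) ∈ Dom → ‖qs a c n x y‖ ≤ κ := by
  induction n with
  | zero => intro x y _; simpa [qs] using hκ0
  | succ n ih => exact fun x y h => T_bound hκ1 hn (qs_hol hn.ha hn.hc n) ih h

theorem qs_step {a b c : ℂ → ℂ → ℂ → ℂ} {κ : ℝ} (hκ0 : 0 ≤ κ) (hκ1 : κ ≤ 1 / 10000)
    (hn : Near a b c (κ / 64)) (n : ℕ) : ∀ x y, (x, y) ∈ Dom →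
    ‖qs a c n x y - qs a c (n + 1) x y‖ ≤ κ * (1 / 2) ^ n := by
  induction n with
  | zero =>
    intro x y h
    have := qs_bound hκ0 hκ1 hn 1 x y h
    simpa [qs] using this
  | succ n ih =>
    intro x y h
    have := T_sub_bound hκ1 hn (qs_hol hn.ha hn.hc n) (qs_hol hn.ha hn.hc (n + 1))
      (qs_bound hκ0 hκ1 hn n) (qs_bound hκ0 hκ1 hn (n + 1)) ih h
    calc _ ≤ _ := this
      _ = _ := by rw [pow_succ]; ring

/-- the fixed point -/
theorem exists_fixed {a b c : ℂ → ℂ → ℂ → ℂ} {κ : ℝ} (hκ0 : 0 ≤ κ) (hκ1 : κ ≤ 1 / 10000)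
    (hn : Near a b c (κ / 64)) : ∃ q : ℂ → ℂ → ℂ, Hol2 q Dom ∧
      (∀ x y, (x, y) ∈ Dom → ‖q x y‖ ≤ κ) ∧ ∀ x y, (x, y) ∈ Dom → T a c q x y = q x y := by
  have hd : ∀ x y, (x, y) ∈ Dom → ∀ n, dist (qs a c n x y) (qs a c (n + 1) x y) ≤
      κ * (1 / 2) ^ n := by
    intro x y h n
    rw [dist_eq_norm]
    exact qs_step hκ0 hκ1 hn n x y h
  have hlim : ∀ x y, (x, y) ∈ Dom → ∃ l, Tendsto (fun n => qs a c n x y) atTop (𝓝 l) := by
    intro x y h
    exact cauchySeq_tendsto_of_complete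
      (cauchySeq_of_le_geometric (1 / 2) κ (by norm_num) (hd x y h))
  choose! q hq using hlim
  have hdist : ∀ x y, (x, y) ∈ Dom → ∀ n, ‖qs a c n x y - q x y‖ ≤ 2 * κ * (1 / 2) ^ n := by
    intro x y h n
    have := dist_le_of_le_geometric_of_tendsto (1 / 2) κ (by norm_num) (hd x y h) (hq x y h) n
    rw [dist_eq_norm] at this
    calc _ ≤ _ := this
      _ = _ := by ring
  have hto : Tendsto (fun n : ℕ => 2 * κ * (1 / 2) ^ n) atTop (𝓝 0) := by
    have := (tendsto_pow_atTop_nhds_zero_of_lt_one (r := (1:ℝ) / 2) (by norm_num)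
      (by norm_num)).const_mul (2 * κ)
    simpa using this
  have hunif : TendstoUniformlyOn (fun n (p : ℂ × ℂ) => qs a c n p.1 p.2)
      (fun p : ℂ × ℂ => q p.1 p.2) atTop Dom := by
    rw [Metric.tendstoUniformlyOn_iff]
    intro ε hε
    filter_upwards [hto.eventually_lt_const hε] with n hn' p hp
    rw [dist_comm, dist_eq_norm]
    exact (hdist p.1 p.2 hp n).trans_lt hn'
  have hhol : Hol2 q Dom := by
    intro p hp
    obtain ⟨R, hR, hRD⟩ := Metric.isOpen_iff.1 isOpen_Dom p hp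
    have h1 := differentiableOn_of_uniform_limit (c := p) (R := R)
      (fun n => (qs_hol hn.ha hn.hc n).mono hRD) (hunif.mono hRD)
    exact (h1.differentiableAt (ball_mem_nhds p (by positivity))).differentiableWithinAt
  have hb : ∀ x y, (x, y) ∈ Dom → ‖q x y‖ ≤ κ := by
    intro x y h
    exact le_of_tendsto (hq x y h).norm
      (Filter.Eventually.of_forall fun n => qs_bound hκ0 hκ1 hn n x y h)
  refine ⟨q, hhol, hb, fun x y h => ?_⟩
  have h1 : Tendsto (fun n => qs a c (n + 1) x y) atTop (𝓝 (T a c q x y)) := by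
    rw [tendsto_iff_norm_sub_tendsto_zero]
    refine squeeze_zero (fun n => norm_nonneg _) (fun n => ?_) hto
    have := T_sub_bound hκ1 hn (qs_hol hn.ha hn.hc n) hhol (qs_bound hκ0 hκ1 hn n) hb
      (fun x y h => hdist x y h n) h
    calc _ ≤ _ := this
      _ ≤ _ := by
        have : 0 ≤ 2 * κ * (1 / 2) ^ n := by positivity
        linarith
  exact tendsto_nhds_unique h1 ((tendsto_add_atTop_iff_nat 1).2 (hq x y h))

end P1

/-- Lemma 1 of the paper -/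
theorem LS : ∀ ε > 0, ∃ δ > 0, ∀ a b c : ℂ → ℂ → ℂ → ℂ, Near a b c δ →
    ∃ φ : ℂ → ℂ → ℂ, ∃ r0 r1 : ℂ → ℂ, Hol2 φ Dom ∧ DifferentiableOn ℂ r0 Yr ∧
      DifferentiableOn ℂ r1 Yr ∧ (∀ x y, (x, y) ∈ Dom → ‖φ x y‖ ≤ ε) ∧
      ∀ x y, (x, y) ∈ Dom → c x y (φ x y) * d1 φ x y + a x y (φ x y) = r0 y + r1 y * x := by
  intro ε hε
  obtain ⟨κ, hκ, hκε, hκ1⟩ : ∃ κ : ℝ, 0 < κ ∧ κ ≤ ε ∧ κ ≤ 1 / 10000 :=
    ⟨min ε (1 / 10000), lt_min hε (by norm_num), min_le_left _ _, min_le_right _ _⟩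
  refine ⟨κ / 64, by positivity, fun a b c hn => ?_⟩
  obtain ⟨q, hq, hb, hT⟩ := P1.exists_fixed hκ.le hκ1 hn
  have hN := P1.N_hol hn.ha hn.hc hq
  have hp := P1.Dq_hol (differentiable_const 1) P1.one_lt3 hN
  have hN1 : DifferentiableOn ℂ (fun y => P1.N a c q 1 y) Yr :=
    P1.slice_e hN (differentiable_const 1) P1.one_lt3
  have hp1 : DifferentiableOn ℂ (fun y => P1.Dq (fun _ => 1) (P1.N a c q) (exp y) y) Yr :=
    P1.slice_e hp Complex.differentiable_exp P1.exp_lt3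
  refine ⟨P1.Lam q, fun y => P1.Dq (fun _ => 1) (P1.N a c q) (exp y) y - P1.N a c q 1 y,
    fun y => -P1.Dq (fun _ => 1) (P1.N a c q) (exp y) y, P1.Lam_hol hq, hp1.sub hN1, hp1.neg,
    fun x y h => (P1.Lam_bound hb h).trans hκε, fun x y h => ?_⟩
  have h1 := P1.Dq_eq P1.one_lt3 hN h
  have h2 := P1.Dq_eq P1.exp_lt3 hp h
  have h3 : P1.Dq exp (P1.Dq (fun _ => 1) (P1.N a c q)) x y = q x y := hT x y h
  have h4 := P1.Lam_eq hq h
  rw [h3] at h2
  have h5 : P1.N a c q x y = -(P1.Cc c x y (P1.Lam q x y) * d1 (P1.Lam q) x y +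
    P1.G0 x y * (P1.Lam q x y) ^ 2 + P1.Aa a x y (P1.Lam q x y)) := rfl
  simp only [P1.Cc, P1.Aa, P1.G0, c0, a0, hh] at h5
  linear_combination h5 + h1 + (x - 1) * h2 + (x - 1) * (x - exp y) * h4

end Pool.Agent.H583_Fol

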