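import Pool.Agent.H583_Fol.Basic
import Pool.Agent.H583_Fol.St.T0
import Pool.Agent.H583_Fol.St.T9

set_option autoImplicit false

namespace Pool.Agent.H583_Fol

open Complex Set Metric Filter Topology

namespace P10

/-- chain rule for three variables -/
theorem chain3 {f : ℂ → ℂ → ℂ → ℂ} {U : Set (ℂ × ℂ × ℂ)} (hU : IsOpen U) (hf : Hol3 f U)
    {X Y Z : ℂ → ℂ} {x' y' z' t : ℂ} (hX : HasDerivAt X x' t) (hY : HasDerivAt Y y' t)
    (hZ : HasDerivAt Z z' t) (h : (X t, Y t, Z t) ∈ U) :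
    HasDerivAt (fun s => f (X s) (Y s) (Z s))
      (D1 f (X t) (Y t) (Z t) * x' + D2 f (X t) (Y t) (Z t) * y' +
        D3 f (X t) (Y t) (Z t) * z') t := by
  obtain ⟨L, hL⟩ := hf.differentiableAt (hU.mem_nhds h)
  have e1 : D1 f (X t) (Y t) (Z t) = L (1, 0, 0) := by
    have hc : HasDerivAt (fun s : ℂ => ((s, Y t, Z t) : ℂ × ℂ × ℂ)) (1, 0, 0) (X t) :=
      (hasDerivAt_id _).prodMk ((hasDerivAt_const _ _).prodMk (hasDerivAt_const _ _))
    have := hL.comp_hasDerivAt (X t) hc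
    exact this.deriv
  have e2 : D2 f (X t) (Y t) (Z t) = L (0, 1, 0) := by
    have hc : HasDerivAt (fun s : ℂ => ((X t, s, Z t) : ℂ × ℂ × ℂ)) (0, 1, 0) (Y t) :=
      (hasDerivAt_const _ _).prodMk ((hasDerivAt_id _).prodMk (hasDerivAt_const _ _))
    have := hL.comp_hasDerivAt (Y t) hc
    exact this.deriv
  have e3 : D3 f (X t) (Y t) (Z t) = L (0, 0, 1) := by
    have hc : HasDerivAt (fun s : ℂ => ((X t, Y t, s) : ℂ × ℂ × ℂ)) (0, 0, 1) (Z t) :=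
      (hasDerivAt_const _ _).prodMk ((hasDerivAt_const _ _).prodMk (hasDerivAt_id _))
    have := hL.comp_hasDerivAt (Z t) hc
    exact this.deriv
  have hc : HasDerivAt (fun s => ((X s, Y s, Z s) : ℂ × ℂ × ℂ)) (x', y', z') t :=
    hX.prodMk (hY.prodMk hZ)
  have := hL.comp_hasDerivAt t hc
  refine HasDerivAt.congr_deriv this ?_
  have e4 : ((x', y', z') : ℂ × ℂ × ℂ) = x' • (1, 0, 0) + y' • (0, 1, 0) + z' • (0, 0, 1) := by
    simp
  rw [e4, map_add, map_add, map_smul, map_smul, map_smul, e1, e2, e3]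
  simp only [smul_eq_mul]
  ring

/-- chain rule for two variables -/
theorem chain2 {f : ℂ → ℂ → ℂ} {U : Set (ℂ × ℂ)} (hU : IsOpen U) (hf : Hol2 f U)
    {X Y : ℂ → ℂ} {x' y' t : ℂ} (hX : HasDerivAt X x' t) (hY : HasDerivAt Y y' t)
    (h : (X t, Y t) ∈ U) :
    HasDerivAt (fun s => f (X s) (Y s)) (d1 f (X t) (Y t) * x' + d2 f (X t) (Y t) * y') t := by
  obtain ⟨L, hL⟩ := hf.differentiableAt (hU.mem_nhds h)
  have e1 : d1 f (X t) (Y t) = L (1, 0) := by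
    have hc : HasDerivAt (fun s : ℂ => ((s, Y t) : ℂ × ℂ)) (1, 0) (X t) :=
      (hasDerivAt_id _).prodMk (hasDerivAt_const _ _)
    have := hL.comp_hasDerivAt (X t) hc
    exact this.deriv
  have e2 : d2 f (X t) (Y t) = L (0, 1) := by
    have hc : HasDerivAt (fun s : ℂ => ((X t, s) : ℂ × ℂ)) (0, 1) (Y t) :=
      (hasDerivAt_const _ _).prodMk (hasDerivAt_id _)
    have := hL.comp_hasDerivAt (Y t) hc
    exact this.deriv
  have hc : HasDerivAt (fun s => ((X s, Y s) : ℂ × ℂ)) (x', y') t := hX.prodMk hY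
  have := hL.comp_hasDerivAt t hc
  refine HasDerivAt.congr_deriv this ?_
  have e4 : ((x', y') : ℂ × ℂ) = x' • (1, 0) + y' • (0, 1) := by
    simp
  rw [e4, map_add, map_smul, map_smul, e1, e2]
  simp only [smul_eq_mul]
  ring

/-- one variable: division by the square of the variable -/
theorem div_one {f : ℂ → ℂ} (hf : Differentiable ℂ f) (h0 : f 0 = 0) (h1 : deriv f 0 = 0) :
    ∃ h : ℂ → ℂ, Differentiable ℂ h ∧ (∀ w, f w = w ^ 2 * h w) ∧ h 0 = deriv (deriv f) 0 / 2 := by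
  have hd1 : Differentiable ℂ (dslope f 0) := by
    rw [← differentiableOn_univ, Complex.differentiableOn_dslope univ_mem, differentiableOn_univ]
    exact hf
  have hd2 : Differentiable ℂ (dslope (dslope f 0) 0) := by
    rw [← differentiableOn_univ, Complex.differentiableOn_dslope univ_mem, differentiableOn_univ]
    exact hd1
  have hfw : ∀ w, f w = w ^ 2 * dslope (dslope f 0) 0 w := by
    intro w
    by_cases hw : w = 0
    · rw [hw, h0]; ring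
    · rw [dslope_of_ne _ hw, slope_def_field, dslope_of_ne _ hw, slope_def_field, dslope_same, h0, h1]
      field_simp
      ring
  refine ⟨dslope (dslope f 0) 0, hd2, hfw, ?_⟩
  set h := dslope (dslope f 0) 0 with hh
  have e1 : deriv f = fun w => w * (2 * h w + w * deriv h w) := by
    ext w
    have h2 : HasDerivAt (fun w : ℂ => w ^ 2 * h w) (2 * w * h w + w ^ 2 * deriv h w) w := by
      refine ((hasDerivAt_pow 2 w).mul (hd2 w).hasDerivAt).congr_deriv ?_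
      simp
    have h3 : f = fun w => w ^ 2 * h w := funext hfw
    rw [h3, h2.deriv]
    ring
  have hd3 : Differentiable ℂ (deriv h) := by
    rw [← differentiableOn_univ]
    exact hd2.differentiableOn.deriv isOpen_univ
  rw [e1]
  have h4 : HasDerivAt (fun w : ℂ => w * (2 * h w + w * deriv h w)) (1 * (2 * h 0 + 0 * deriv h 0) +
      0 * (2 * deriv h 0 + (1 * deriv h 0 + 0 * deriv (deriv h) 0))) 0 :=
    (hasDerivAt_id' 0).mul (((hd2 0).hasDerivAt.const_mul 2).add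
      ((hasDerivAt_id' 0).mul (hd3 0).hasDerivAt))
  rw [h4.deriv]
  ring

/-- division by the square of the third variable -/
theorem div2 {F : ℂ → ℂ → ℂ → ℂ} {W : Set (ℂ × ℂ)} (hW : IsOpen W)
    (hF : Hol3 F {q | (q.1, q.2.1) ∈ W}) (h0 : ∀ z y, (z, y) ∈ W → F z y 0 = 0)
    (h1 : ∀ z y, (z, y) ∈ W → D3 F z y 0 = 0) :
    ∃ G : ℂ → ℂ → ℂ → ℂ, Hol3 G {q | (q.1, q.2.1) ∈ W ∧ ‖q.2.2‖ < 1} ∧
      (∀ z y w, (z, y) ∈ W → ‖w‖ < 1 → F z y w = w ^ 2 * G z y w) ∧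
      ∀ z y, (z, y) ∈ W → G z y 0 = D3 (D3 F) z y 0 / 2 := by
  have hWo : IsOpen {q : ℂ × ℂ × ℂ | (q.1, q.2.1) ∈ W} := hW.preimage (by fun_prop)
  set Ω : Set ((ℂ × ℂ × ℂ) × ℂ) := {q | (q.1.1, q.1.2.1) ∈ W ∧ q.2 ≠ 0 ∧ q.2 - q.1.2.2 ≠ 0} with hΩ
  have hΩo : IsOpen Ω := by
    have h1 : IsOpen {q : (ℂ × ℂ × ℂ) × ℂ | (q.1.1, q.1.2.1) ∈ W} := hW.preimage (by fun_prop)
    have h2 : IsOpen {q : (ℂ × ℂ × ℂ) × ℂ | q.2 ≠ 0} := isOpen_ne_fun (by fun_prop) (by fun_prop)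
    have h3 : IsOpen {q : (ℂ × ℂ × ℂ) × ℂ | q.2 - q.1.2.2 ≠ 0} :=
      isOpen_ne_fun (by fun_prop) (by fun_prop)
    exact h1.inter (h2.inter h3)
  set Q : (ℂ × ℂ × ℂ) × ℂ → ℂ := fun q => (q.2 - q.1.2.2)⁻¹ • (F q.1.1 q.1.2.1 q.2 / q.2 ^ 2) with hQ
  have hQd : DifferentiableOn ℂ Q Ω := by
    rintro q ⟨h1, h2, h3⟩
    apply DifferentiableAt.differentiableWithinAt
    have h4 : DifferentiableAt ℂ (fun p : ℂ × ℂ × ℂ => F p.1 p.2.1 p.2.2) (q.1.1, q.1.2.1, q.2) :=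
      hF.differentiableAt (hWo.mem_nhds h1)
    have h5 : DifferentiableAt ℂ (fun q : (ℂ × ℂ × ℂ) × ℂ => F q.1.1 q.1.2.1 q.2) q := by
      have h6 : DifferentiableAt ℂ (fun q : (ℂ × ℂ × ℂ) × ℂ =>
        ((q.1.1, q.1.2.1, q.2) : ℂ × ℂ × ℂ)) q := by fun_prop
      exact DifferentiableAt.comp q h4 h6
    have h7 : DifferentiableAt ℂ (fun q : (ℂ × ℂ × ℂ) × ℂ => (q.2 - q.1.2.2)⁻¹) q := by
      have h9 : DifferentiableAt ℂ (fun q : (ℂ × ℂ × ℂ) × ℂ => q.2 - q.1.2.2) q := by fun_prop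
      exact h9.inv h3
    have h8 : DifferentiableAt ℂ (fun q : (ℂ × ℂ × ℂ) × ℂ => q.2 ^ 2) q := by fun_prop
    have h9 : DifferentiableAt ℂ (fun q : (ℂ × ℂ × ℂ) × ℂ => F q.1.1 q.1.2.1 q.2 / q.2 ^ 2) q := by
      simp only [div_eq_mul_inv]
      exact h5.mul (h8.inv (pow_ne_zero 2 h2))
    exact h7.smul h9
  have hUo : IsOpen {q : ℂ × ℂ × ℂ | (q.1, q.2.1) ∈ W ∧ ‖q.2.2‖ < 1} := by
    have h2 : IsOpen {q : ℂ × ℂ × ℂ | ‖q.2.2‖ < 1} := isOpen_lt (by fun_prop) (by fun_prop)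
    exact hWo.inter h2
  have hI := Pool.Agent.Helper417.Mer.Hartogs673.param_circle hΩo hQd (r := 1) hUo (by
    rintro p ⟨h1, h2⟩ ξ hξ
    rw [mem_sphere_zero_iff_norm, abs_one] at hξ
    refine ⟨h1, ?_, ?_⟩
    · intro h
      simp only at h
      rw [h, norm_zero] at hξ
      exact zero_ne_one hξ
    · intro h
      simp only at h
      rw [sub_eq_zero] at h
      rw [h] at hξ
      exact absurd hξ h2.ne)
  have key : ∀ z y, (z, y) ∈ W → ∃ h : ℂ → ℂ, (∀ w, F z y w = w ^ 2 * h w) ∧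
      h 0 = D3 (D3 F) z y 0 / 2 ∧ ∀ w : ℂ, ‖w‖ < 1 → h w =
        (2 * Real.pi * Complex.I : ℂ)⁻¹ • ∮ ξ in C(0, 1), Q ((z, y, w), ξ) := by
    intro z y hzy
    have hf : Differentiable ℂ (fun w => F z y w) := by
      intro w
      have h4 : DifferentiableAt ℂ (fun p : ℂ × ℂ × ℂ => F p.1 p.2.1 p.2.2) (z, y, w) :=
        hF.differentiableAt (hWo.mem_nhds hzy)
      have h6 : DifferentiableAt ℂ (fun w : ℂ => ((z, y, w) : ℂ × ℂ × ℂ)) w := by fun_prop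
      exact DifferentiableAt.comp (g := fun p : ℂ × ℂ × ℂ => F p.1 p.2.1 p.2.2) w h4 h6
    obtain ⟨h, hd, hw, he⟩ := div_one hf (h0 z y hzy) (h1 z y hzy)
    refine ⟨h, hw, he, ?_⟩
    intro w hw1
    have hdc : DiffContOnCl ℂ h (ball 0 1) := hd.diffContOnCl
    rw [← hdc.two_pi_i_inv_smul_circleIntegral_sub_inv_smul (w := w) (by simpa using hw1)]
    congr 1
    apply circleIntegral.integral_congr zero_le_one
    intro ξ hξ
    rw [mem_sphere_zero_iff_norm] at hξ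
    have hξ0 : ξ ≠ 0 := by
      intro h
      rw [h, norm_zero] at hξ
      exact zero_ne_one hξ
    simp only [hQ]
    rw [hw ξ, mul_div_cancel_left₀ _ (pow_ne_zero 2 hξ0)]
  refine ⟨fun z y w => (2 * Real.pi * Complex.I : ℂ)⁻¹ • ∮ ξ in C(0, 1), Q ((z, y, w), ξ), ?_, ?_, ?_⟩
  · exact DifferentiableOn.const_smul (R := ℂ) hI (2 * Real.pi * Complex.I : ℂ)⁻¹
  · intro z y w hzy hw
    obtain ⟨h, e1, -, e3⟩ := key z y hzy
    rw [e1, e3 w hw]
  · intro z y hzy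
    obtain ⟨h, -, e2, e3⟩ := key z y hzy
    rw [← e2, e3 0 (by simp)]

/-! ### the blow-up map -/

theorem lift2 {f : ℂ → ℂ → ℂ} {U : Set (ℂ × ℂ)} (hU : IsOpen U) (hf : Hol2 f U)
    {g : ℂ × ℂ × ℂ → ℂ × ℂ} {q : ℂ × ℂ × ℂ} (hg : DifferentiableAt ℂ g q) (h : g q ∈ U) :
    DifferentiableAt ℂ (fun q => f (g q).1 (g q).2) q :=
  DifferentiableAt.comp (g := fun p : ℂ × ℂ => f p.1 p.2) q
    (hf.differentiableAt (hU.mem_nhds h)) hg

theorem lift3 {f : ℂ → ℂ → ℂ → ℂ} {U : Set (ℂ × ℂ × ℂ)} (hU : IsOpen U) (hf : Hol3 f U)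
    {g : ℂ × ℂ × ℂ → ℂ × ℂ × ℂ} {q : ℂ × ℂ × ℂ} (hg : DifferentiableAt ℂ g q) (h : g q ∈ U) :
    DifferentiableAt ℂ (fun q => f (g q).1 (g q).2.1 (g q).2.2) q :=
  DifferentiableAt.comp (g := fun p : ℂ × ℂ × ℂ => f p.1 p.2.1 p.2.2) q
    (hf.differentiableAt (hU.mem_nhds h)) hg

/-- third component of the blow-up map -/
noncomputable def Ph (φ V : ℂ → ℂ → ℂ) (z y w : ℂ) : ℂ := φ (exp z) y + exp (-V z y) * w

/-- its first two derivatives -/
noncomputable def Pz (φ V : ℂ → ℂ → ℂ) (z y w : ℂ) : ℂ :=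
  d1 φ (exp z) y * exp z - exp (-V z y) * d1 V z y * w
noncomputable def Py (φ V : ℂ → ℂ → ℂ) (z y w : ℂ) : ℂ :=
  d2 φ (exp z) y - exp (-V z y) * d2 V z y * w

/-- the coefficients of the pull back -/
noncomputable def F1 (a c : ℂ → ℂ → ℂ → ℂ) (φ V : ℂ → ℂ → ℂ) (z y w : ℂ) : ℂ :=
  a (exp z) y (Ph φ V z y w) * exp z + c (exp z) y (Ph φ V z y w) * Pz φ V z y w
noncomputable def F2 (b c : ℂ → ℂ → ℂ → ℂ) (φ V : ℂ → ℂ → ℂ) (z y w : ℂ) : ℂ :=
  b (exp z) y (Ph φ V z y w) + c (exp z) y (Ph φ V z y w) * Py φ V z y w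

section derivs

variable {φ V : ℂ → ℂ → ℂ} (hφ : Hol2 φ Dom) (hV : Hol2 V Zd)

theorem hd1 {f : ℂ → ℂ → ℂ} {U : Set (ℂ × ℂ)} (hU : IsOpen U) (hf : Hol2 f U) {z y : ℂ}
    (h : (z, y) ∈ U) : HasDerivAt (fun t => f t y) (d1 f z y) z := by
  have := chain2 hU hf (hasDerivAt_id' z) (hasDerivAt_const z y) h
  simpa using this

theorem hd2 {f : ℂ → ℂ → ℂ} {U : Set (ℂ × ℂ)} (hU : IsOpen U) (hf : Hol2 f U) {z y : ℂ}
    (h : (z, y) ∈ U) : HasDerivAt (fun t => f z t) (d2 f z y) y := by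
  have := chain2 hU hf (hasDerivAt_const y z) (hasDerivAt_id' y) h
  simpa using this

theorem hD1 {f : ℂ → ℂ → ℂ → ℂ} {U : Set (ℂ × ℂ × ℂ)} (hU : IsOpen U) (hf : Hol3 f U) {z y w : ℂ}
    (h : (z, y, w) ∈ U) : HasDerivAt (fun t => f t y w) (D1 f z y w) z := by
  have := chain3 hU hf (hasDerivAt_id' z) (hasDerivAt_const z y) (hasDerivAt_const z w) h
  simpa using this

theorem hD2 {f : ℂ → ℂ → ℂ → ℂ} {U : Set (ℂ × ℂ × ℂ)} (hU : IsOpen U) (hf : Hol3 f U) {z y w : ℂ}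
    (h : (z, y, w) ∈ U) : HasDerivAt (fun t => f z t w) (D2 f z y w) y := by
  have := chain3 hU hf (hasDerivAt_const y z) (hasDerivAt_id' y) (hasDerivAt_const y w) h
  simpa using this

theorem hD3 {f : ℂ → ℂ → ℂ → ℂ} {U : Set (ℂ × ℂ × ℂ)} (hU : IsOpen U) (hf : Hol3 f U) {z y w : ℂ}
    (h : (z, y, w) ∈ U) : HasDerivAt (fun t => f z y t) (D3 f z y w) w := by
  have := chain3 hU hf (hasDerivAt_const w z) (hasDerivAt_const w y) (hasDerivAt_id' w) h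
  simpa using this

include hV in
theorem lam_z {z y : ℂ} (h : (z, y) ∈ Zd) :
    HasDerivAt (fun t => exp (-V t y)) (exp (-V z y) * (-d1 V z y)) z :=
  (hd1 isOpen_Zd hV h).neg.cexp

include hV in
theorem lam_y {z y : ℂ} (h : (z, y) ∈ Zd) :
    HasDerivAt (fun t => exp (-V z t)) (exp (-V z y) * (-d2 V z y)) y :=
  (hd2 isOpen_Zd hV h).neg.cexp

/-- a function on `Dom` read at `(exp z, y)` -/
theorem ex_z {f : ℂ → ℂ → ℂ} (hf : Hol2 f Dom) {z y : ℂ} (h : (z, y) ∈ Zd) :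
    HasDerivAt (fun t => f (exp t) y) (d1 f (exp z) y * exp z) z := by
  have := chain2 isOpen_Dom hf (hasDerivAt_id' z).cexp (hasDerivAt_const z y) (exp_mem_Dom h)
  simpa using this

theorem ex_y {f : ℂ → ℂ → ℂ} (hf : Hol2 f Dom) {z y : ℂ} (h : (z, y) ∈ Zd) :
    HasDerivAt (fun t => f (exp z) t) (d2 f (exp z) y) y :=
  hd2 isOpen_Dom hf (exp_mem_Dom h)

include hφ hV in
theorem Ph_z {z y : ℂ} (h : (z, y) ∈ Zd) (w : ℂ) :
    HasDerivAt (fun t => Ph φ V t y w) (Pz φ V z y w) z := by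
  refine ((ex_z hφ h).add ((lam_z hV h).mul_const w)).congr_deriv ?_
  unfold Pz
  ring

include hφ hV in
theorem Ph_y {z y : ℂ} (h : (z, y) ∈ Zd) (w : ℂ) :
    HasDerivAt (fun t => Ph φ V z t w) (Py φ V z y w) y := by
  refine ((ex_y hφ h).add ((lam_y hV h).mul_const w)).congr_deriv ?_
  unfold Py
  ring

theorem Ph_w (φ V : ℂ → ℂ → ℂ) (z y w : ℂ) :
    HasDerivAt (fun t => Ph φ V z y t) (exp (-V z y)) w := by
  refine (((hasDerivAt_id' w).const_mul (exp (-V z y))).const_add (φ (exp z) y)).congr_deriv ?_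
  ring

include hφ hV in
theorem Py_z {z y : ℂ} (h : (z, y) ∈ Zd) (w : ℂ) :
    HasDerivAt (fun t => Py φ V t y w) (d1 (d2 φ) (exp z) y * exp z -
      (exp (-V z y) * (-d1 V z y) * d2 V z y + exp (-V z y) * d1 (d2 V) z y) * w) z :=
  (ex_z (Hol2.d2 isOpen_Dom hφ) h).sub
    (((lam_z hV h).mul (hd1 isOpen_Zd (Hol2.d2 isOpen_Zd hV) h)).mul_const w)

include hφ hV in
theorem Pz_y {z y : ℂ} (h : (z, y) ∈ Zd) (w : ℂ) :
    HasDerivAt (fun t => Pz φ V z t w) (d2 (d1 φ) (exp z) y * exp z -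
      (exp (-V z y) * (-d2 V z y) * d1 V z y + exp (-V z y) * d2 (d1 V) z y) * w) y :=
  ((ex_y (Hol2.d1 isOpen_Dom hφ) h).mul_const (exp z)).sub
    (((lam_y hV h).mul (hd2 isOpen_Zd (Hol2.d1 isOpen_Zd hV) h)).mul_const w)

theorem Pz_w (φ V : ℂ → ℂ → ℂ) (z y w : ℂ) :
    HasDerivAt (fun t => Pz φ V z y t) (-(exp (-V z y) * d1 V z y)) w := by
  refine (((hasDerivAt_id' w).const_mul (exp (-V z y) * d1 V z y)).const_sub
    (d1 φ (exp z) y * exp z)).congr_deriv ?_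
  ring

theorem Py_w (φ V : ℂ → ℂ → ℂ) (z y w : ℂ) :
    HasDerivAt (fun t => Py φ V z y t) (-(exp (-V z y) * d2 V z y)) w := by
  refine (((hasDerivAt_id' w).const_mul (exp (-V z y) * d2 V z y)).const_sub
    (d2 φ (exp z) y)).congr_deriv ?_
  ring

include hφ hV in
theorem cz {f : ℂ → ℂ → ℂ → ℂ} (hf : Hol3 f univ) {z y : ℂ} (h : (z, y) ∈ Zd) (w : ℂ) :
    HasDerivAt (fun t => f (exp t) y (Ph φ V t y w))
      (D1 f (exp z) y (Ph φ V z y w) * exp z + D3 f (exp z) y (Ph φ V z y w) * Pz φ V z y w) z := by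
  have := chain3 isOpen_univ hf (hasDerivAt_id' z).cexp (hasDerivAt_const z y) (Ph_z hφ hV h w)
    (mem_univ _)
  simpa using this

include hφ hV in
theorem cy {f : ℂ → ℂ → ℂ → ℂ} (hf : Hol3 f univ) {z y : ℂ} (h : (z, y) ∈ Zd) (w : ℂ) :
    HasDerivAt (fun t => f (exp z) t (Ph φ V z t w))
      (D2 f (exp z) y (Ph φ V z y w) + D3 f (exp z) y (Ph φ V z y w) * Py φ V z y w) y := by
  have := chain3 isOpen_univ hf (hasDerivAt_const y (exp z)) (hasDerivAt_id' y) (Ph_y hφ hV h w)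
    (mem_univ _)
  simpa using this

theorem cw (φ V : ℂ → ℂ → ℂ) {f : ℂ → ℂ → ℂ → ℂ} (hf : Hol3 f univ) (z y w : ℂ) :
    HasDerivAt (fun t => f (exp z) y (Ph φ V z y t))
      (D3 f (exp z) y (Ph φ V z y w) * exp (-V z y)) w := by
  have := chain3 isOpen_univ hf (hasDerivAt_const w (exp z)) (hasDerivAt_const w y) (Ph_w φ V z y w)
    (mem_univ _)
  simpa using this

/-- the domain of the pull back -/
theorem isOpen_Zc : IsOpen {q : ℂ × ℂ × ℂ | (q.1, q.2.1) ∈ Zd} := isOpen_Zd.preimage (by fun_prop)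

include hφ hV in
theorem dPh {q : ℂ × ℂ × ℂ} (h : (q.1, q.2.1) ∈ Zd) :
    DifferentiableAt ℂ (fun q : ℂ × ℂ × ℂ => Ph φ V q.1 q.2.1 q.2.2) q := by
  have h1 : DifferentiableAt ℂ (fun q : ℂ × ℂ × ℂ => φ (exp q.1) q.2.1) q :=
    lift2 isOpen_Dom hφ (g := fun q : ℂ × ℂ × ℂ => (exp q.1, q.2.1)) (by fun_prop) (exp_mem_Dom h)
  have h2 : DifferentiableAt ℂ (fun q : ℂ × ℂ × ℂ => V q.1 q.2.1) q :=
    lift2 isOpen_Zd hV (g := fun q : ℂ × ℂ × ℂ => (q.1, q.2.1)) (by fun_prop) h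
  have h4 : DifferentiableAt ℂ (fun q : ℂ × ℂ × ℂ => q.2.2) q := by fun_prop
  exact h1.add (h2.neg.cexp.mul h4)

include hφ hV in
theorem dPz {q : ℂ × ℂ × ℂ} (h : (q.1, q.2.1) ∈ Zd) :
    DifferentiableAt ℂ (fun q : ℂ × ℂ × ℂ => Pz φ V q.1 q.2.1 q.2.2) q := by
  have h1 : DifferentiableAt ℂ (fun q : ℂ × ℂ × ℂ => d1 φ (exp q.1) q.2.1) q :=
    lift2 isOpen_Dom (Hol2.d1 isOpen_Dom hφ) (g := fun q : ℂ × ℂ × ℂ => (exp q.1, q.2.1))
      (by fun_prop) (exp_mem_Dom h)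
  have h2 : DifferentiableAt ℂ (fun q : ℂ × ℂ × ℂ => V q.1 q.2.1) q :=
    lift2 isOpen_Zd hV (g := fun q : ℂ × ℂ × ℂ => (q.1, q.2.1)) (by fun_prop) h
  have h3 : DifferentiableAt ℂ (fun q : ℂ × ℂ × ℂ => d1 V q.1 q.2.1) q :=
    lift2 isOpen_Zd (Hol2.d1 isOpen_Zd hV) (g := fun q : ℂ × ℂ × ℂ => (q.1, q.2.1)) (by fun_prop) h
  have h4 : DifferentiableAt ℂ (fun q : ℂ × ℂ × ℂ => q.2.2) q := by fun_prop
  have h5 : DifferentiableAt ℂ (fun q : ℂ × ℂ × ℂ => exp q.1) q := by fun_prop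
  exact (h1.mul h5).sub ((h2.neg.cexp.mul h3).mul h4)

include hφ hV in
theorem dPy {q : ℂ × ℂ × ℂ} (h : (q.1, q.2.1) ∈ Zd) :
    DifferentiableAt ℂ (fun q : ℂ × ℂ × ℂ => Py φ V q.1 q.2.1 q.2.2) q := by
  have h1 : DifferentiableAt ℂ (fun q : ℂ × ℂ × ℂ => d2 φ (exp q.1) q.2.1) q :=
    lift2 isOpen_Dom (Hol2.d2 isOpen_Dom hφ) (g := fun q : ℂ × ℂ × ℂ => (exp q.1, q.2.1))
      (by fun_prop) (exp_mem_Dom h)
  have h2 : DifferentiableAt ℂ (fun q : ℂ × ℂ × ℂ => V q.1 q.2.1) q :=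
    lift2 isOpen_Zd hV (g := fun q : ℂ × ℂ × ℂ => (q.1, q.2.1)) (by fun_prop) h
  have h3 : DifferentiableAt ℂ (fun q : ℂ × ℂ × ℂ => d2 V q.1 q.2.1) q :=
    lift2 isOpen_Zd (Hol2.d2 isOpen_Zd hV) (g := fun q : ℂ × ℂ × ℂ => (q.1, q.2.1)) (by fun_prop) h
  have h4 : DifferentiableAt ℂ (fun q : ℂ × ℂ × ℂ => q.2.2) q := by fun_prop
  exact h1.sub ((h2.neg.cexp.mul h3).mul h4)

include hφ hV in
theorem dcomp {f : ℂ → ℂ → ℂ → ℂ} (hf : Hol3 f univ) {q : ℂ × ℂ × ℂ} (h : (q.1, q.2.1) ∈ Zd) :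
    DifferentiableAt ℂ (fun q : ℂ × ℂ × ℂ => f (exp q.1) q.2.1 (Ph φ V q.1 q.2.1 q.2.2)) q := by
  have h1 := dPh hφ hV h
  exact lift3 isOpen_univ hf
    (g := fun q : ℂ × ℂ × ℂ => (exp q.1, q.2.1, Ph φ V q.1 q.2.1 q.2.2)) (by fun_prop) (mem_univ _)

include hφ hV in
theorem hol_F1 {a c : ℂ → ℂ → ℂ → ℂ} (ha : Hol3 a univ) (hc : Hol3 c univ) :
    Hol3 (F1 a c φ V) {q | (q.1, q.2.1) ∈ Zd} := by
  intro q hq
  apply DifferentiableAt.differentiableWithinAt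
  have h1 := dcomp hφ hV ha hq
  have h2 := dcomp hφ hV hc hq
  have h3 := dPz hφ hV hq
  have h5 : DifferentiableAt ℂ (fun q : ℂ × ℂ × ℂ => exp q.1) q := by fun_prop
  exact (h1.mul h5).add (h2.mul h3)

include hφ hV in
theorem hol_F2 {b c : ℂ → ℂ → ℂ → ℂ} (hb : Hol3 b univ) (hc : Hol3 c univ) :
    Hol3 (F2 b c φ V) {q | (q.1, q.2.1) ∈ Zd} := by
  intro q hq
  apply DifferentiableAt.differentiableWithinAt
  have h1 := dcomp hφ hV hb hq
  have h2 := dcomp hφ hV hc hq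
  have h3 := dPy hφ hV hq
  exact h1.add (h2.mul h3)

/-- the derivatives of the coefficients in `w` -/
theorem F1_w (φ V : ℂ → ℂ → ℂ) {a c : ℂ → ℂ → ℂ → ℂ} (ha : Hol3 a univ) (hc : Hol3 c univ)
    (z y w : ℂ) : HasDerivAt (fun t => F1 a c φ V z y t)
      (exp (-V z y) * (D3 a (exp z) y (Ph φ V z y w) * exp z +
        D3 c (exp z) y (Ph φ V z y w) * Pz φ V z y w - c (exp z) y (Ph φ V z y w) * d1 V z y)) w := by
  refine (((cw φ V ha z y w).mul_const (exp z)).add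
    ((cw φ V hc z y w).mul (Pz_w φ V z y w))).congr_deriv ?_
  ring

theorem F2_w (φ V : ℂ → ℂ → ℂ) {b c : ℂ → ℂ → ℂ → ℂ} (hb : Hol3 b univ) (hc : Hol3 c univ)
    (z y w : ℂ) : HasDerivAt (fun t => F2 b c φ V z y t)
      (exp (-V z y) * (D3 b (exp z) y (Ph φ V z y w) +
        D3 c (exp z) y (Ph φ V z y w) * Py φ V z y w - c (exp z) y (Ph φ V z y w) * d2 V z y)) w := by
  refine ((cw φ V hb z y w).add
    ((cw φ V hc z y w).mul (Py_w φ V z y w))).congr_deriv ?_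
  ring

theorem F1_ww (φ V : ℂ → ℂ → ℂ) {a c : ℂ → ℂ → ℂ → ℂ} (ha : Hol3 a univ) (hc : Hol3 c univ)
    (z y : ℂ) : D3 (D3 (F1 a c φ V)) z y 0 = exp (-V z y) ^ 2 *
      (D3 (D3 a) (exp z) y (φ (exp z) y) * exp z +
        D3 (D3 c) (exp z) y (φ (exp z) y) * (d1 φ (exp z) y * exp z) -
        2 * D3 c (exp z) y (φ (exp z) y) * d1 V z y) := by
  have e : (fun w => D3 (F1 a c φ V) z y w) = fun w =>
      exp (-V z y) * (D3 a (exp z) y (Ph φ V z y w) * exp z +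
        D3 c (exp z) y (Ph φ V z y w) * Pz φ V z y w - c (exp z) y (Ph φ V z y w) * d1 V z y) := by
    ext w
    exact (F1_w φ V ha hc z y w).deriv
  have h : HasDerivAt (fun w =>
      exp (-V z y) * (D3 a (exp z) y (Ph φ V z y w) * exp z +
        D3 c (exp z) y (Ph φ V z y w) * Pz φ V z y w - c (exp z) y (Ph φ V z y w) * d1 V z y)) _ 0 :=
    ((((cw φ V (Hol3.D3 isOpen_univ ha) z y 0).mul_const (exp z)).add
      ((cw φ V (Hol3.D3 isOpen_univ hc) z y 0).mul (Pz_w φ V z y 0))).sub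
      ((cw φ V hc z y 0).mul_const (d1 V z y))).const_mul (exp (-V z y))
  have e2 : D3 (D3 (F1 a c φ V)) z y 0 = deriv (fun w => D3 (F1 a c φ V) z y w) 0 := rfl
  rw [e2, e, h.deriv]
  simp only [Ph, Pz, mul_zero, add_zero, sub_zero]
  ring

theorem F2_ww (φ V : ℂ → ℂ → ℂ) {b c : ℂ → ℂ → ℂ → ℂ} (hb : Hol3 b univ) (hc : Hol3 c univ)
    (z y : ℂ) : D3 (D3 (F2 b c φ V)) z y 0 = exp (-V z y) ^ 2 *
      (D3 (D3 b) (exp z) y (φ (exp z) y) +
        D3 (D3 c) (exp z) y (φ (exp z) y) * d2 φ (exp z) y -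
        2 * D3 c (exp z) y (φ (exp z) y) * d2 V z y) := by
  have e : (fun w => D3 (F2 b c φ V) z y w) = fun w =>
      exp (-V z y) * (D3 b (exp z) y (Ph φ V z y w) +
        D3 c (exp z) y (Ph φ V z y w) * Py φ V z y w - c (exp z) y (Ph φ V z y w) * d2 V z y) := by
    ext w
    exact (F2_w φ V hb hc z y w).deriv
  have h : HasDerivAt (fun w =>
      exp (-V z y) * (D3 b (exp z) y (Ph φ V z y w) +
        D3 c (exp z) y (Ph φ V z y w) * Py φ V z y w - c (exp z) y (Ph φ V z y w) * d2 V z y)) _ 0 :=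
    (((cw φ V (Hol3.D3 isOpen_univ hb) z y 0).add
      ((cw φ V (Hol3.D3 isOpen_univ hc) z y 0).mul (Py_w φ V z y 0))).sub
      ((cw φ V hc z y 0).mul_const (d2 V z y))).const_mul (exp (-V z y))
  have e2 : D3 (D3 (F2 b c φ V)) z y 0 = deriv (fun w => D3 (F2 b c φ V) z y w) 0 := rfl
  rw [e2, e, h.deriv]
  simp only [Ph, Py, mul_zero, add_zero, sub_zero]
  ring

end derivs

/-! ### algebra -/

theorem alg1 {E lam w a b c a2 a3 b1 b3 c1 c2 c3 Pz Py M1 M2 Vz Vy A B A2 A3 B1 B3 : ℂ}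
    (hl : lam ≠ 0) (hw : w ≠ 0)
    (h1 : a * E + c * Pz = lam * w ^ 2 * A)
    (h2 : b + c * Py = lam * w ^ 2 * B)
    (h3 : (a2 + a3 * Py) * E + ((c2 + c3 * Py) * Pz + c * M1) =
      lam * (-Vy) * w ^ 2 * A + lam * w ^ 2 * A2)
    (h4 : lam * (a3 * E + c3 * Pz - c * Vz) = lam * (2 * w * A + w ^ 2 * A3))
    (h5 : (b1 * E + b3 * Pz) + ((c1 * E + c3 * Pz) * Py + c * M2) =
      lam * (-Vz) * w ^ 2 * B + lam * w ^ 2 * B1)
    (h6 : lam * (b3 + c3 * Py - c * Vy) = lam * (2 * w * B + w ^ 2 * B3))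
    (h7 : a * (c2 - b3) + b * (a3 - c1) + c * (b1 - a2) = 0) (hM : M1 = M2) :
    c * (B1 - A2) = B * (c1 * E + c3 * Pz) - A * (c2 + c3 * Py) + w ^ 2 * (A * B3 - B * A3) := by
  have h4' := mul_left_cancel₀ hl h4
  have h6' := mul_left_cancel₀ hl h6
  have hne : lam * w ^ 2 ≠ 0 := mul_ne_zero hl (pow_ne_zero 2 hw)
  apply mul_left_cancel₀ hne
  linear_combination (-c) * h5 + c * h3 +
    (-c * Vz + (c1 * E + c3 * Pz) - w ^ 2 * A3 - 2 * w * A) * h2 +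
    (c * Vy - (c2 + c3 * Py) + w ^ 2 * B3 + 2 * w * B) * h1 +
    (a * E + c * Pz) * h6' - (b + c * Py) * h4' + E * h7 - c ^ 2 * hM

end P10

theorem blow {a b c : ℂ → ℂ → ℂ → ℂ} {φ V : ℂ → ℂ → ℂ} {ν' : ℂ} {δ ε : ℝ}
    (hG : Good a b c φ δ) (hV : Gauge a b c φ V ν' ε) {z₀ y₀ : ℂ} (h0 : (z₀, y₀) ∈ Zd) :
    ∃ A B C : ℂ → ℂ → ℂ → ℂ, ∃ U : Set (ℂ × ℂ × ℂ), IsOpen U ∧ (z₀, y₀, 0) ∈ U ∧
      (∀ q ∈ U, (q.1, q.2.1) ∈ Zd) ∧ Hol3 A U ∧ Hol3 B U ∧ Hol3 C U ∧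
      (∀ z y, (z, y, 0) ∈ U → A z y 0 = gA a c φ V z y ∧ B z y 0 = gB b c φ V z y) ∧
      (∀ z y w, (z, y, w) ∈ U → C z y w = c (exp z) y (φ (exp z) y + exp (-V z y) * w)) ∧
      (∀ z y w, (z, y, w) ∈ U →
        a (exp z) y (φ (exp z) y + exp (-V z y) * w) * exp z +
          c (exp z) y (φ (exp z) y + exp (-V z y) * w) *
            (d1 φ (exp z) y * exp z - exp (-V z y) * d1 V z y * w) =
        exp (-V z y) * w ^ 2 * A z y w) ∧
      (∀ z y w, (z, y, w) ∈ U →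
        b (exp z) y (φ (exp z) y + exp (-V z y) * w) +
          c (exp z) y (φ (exp z) y + exp (-V z y) * w) *
            (d2 φ (exp z) y - exp (-V z y) * d2 V z y * w) =
        exp (-V z y) * w ^ 2 * B z y w) ∧
      (∀ z y w, (z, y, w) ∈ U → C z y w * (D1 B z y w - D2 A z y w) =
        B z y w * D1 C z y w - A z y w * D2 C z y w +
          w ^ 2 * (A z y w * D3 B z y w - B z y w * D3 A z y w)) := by
  have ha := hG.near.ha
  have hb := hG.near.hb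
  have hc := hG.near.hc
  have hφ := hG.leaf.hol
  have hVh := hV.hol
  obtain ⟨G1, hG1, e1, k1⟩ := P10.div2 isOpen_Zd (P10.hol_F1 hφ hVh ha hc)
    (fun z y hzy => by
      have := hG.leaf.ex (exp z) y (exp_mem_Dom hzy)
      simp only [P10.F1, P10.Ph, P10.Pz, mul_zero, add_zero, sub_zero]
      linear_combination (exp z) * this)
    (fun z y hzy => by
      have h1 := (P10.F1_w φ V ha hc z y 0).deriv
      have h2 := hV.e1 z y hzy
      simp only [jC, jN1] at h2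
      simp only [P10.Ph, P10.Pz, mul_zero, add_zero, sub_zero] at h1
      show deriv (fun t => P10.F1 a c φ V z y t) 0 = 0
      rw [h1]
      linear_combination (-exp (-V z y)) * h2)
  obtain ⟨G2, hG2, e2, k2⟩ := P10.div2 isOpen_Zd (P10.hol_F2 hφ hVh hb hc)
    (fun z y hzy => by
      have := hG.leaf.ey (exp z) y (exp_mem_Dom hzy)
      simp only [P10.F2, P10.Ph, P10.Py, mul_zero, add_zero, sub_zero]
      linear_combination this)
    (fun z y hzy => by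
      have h1 := (P10.F2_w φ V hb hc z y 0).deriv
      have h2 := hV.e2 z y hzy
      simp only [jC, jN2] at h2
      simp only [P10.Ph, P10.Py, mul_zero, add_zero, sub_zero] at h1
      show deriv (fun t => P10.F2 b c φ V z y t) 0 = 0
      rw [h1]
      linear_combination (-exp (-V z y)) * h2)
  set U : Set (ℂ × ℂ × ℂ) := {q | (q.1, q.2.1) ∈ Zd ∧ ‖q.2.2‖ < 1} with hU
  have hUo : IsOpen U := by
    have h2 : IsOpen {q : ℂ × ℂ × ℂ | ‖q.2.2‖ < 1} := isOpen_lt (by fun_prop) (by fun_prop)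
    exact P10.isOpen_Zc.inter h2
  set A : ℂ → ℂ → ℂ → ℂ := fun z y w => exp (V z y) * G1 z y w with hAd
  set B : ℂ → ℂ → ℂ → ℂ := fun z y w => exp (V z y) * G2 z y w with hBd
  set C : ℂ → ℂ → ℂ → ℂ := fun z y w => c (exp z) y (P10.Ph φ V z y w) with hCd
  have hVq : ∀ q ∈ U, DifferentiableAt ℂ (fun q : ℂ × ℂ × ℂ => V q.1 q.2.1) q := fun q hq =>
    P10.lift2 isOpen_Zd hVh (g := fun q : ℂ × ℂ × ℂ => (q.1, q.2.1)) (by fun_prop) hq.1
  have hA : Hol3 A U := fun q hq =>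
    ((hVq q hq).cexp.mul (hG1.differentiableAt (hUo.mem_nhds hq))).differentiableWithinAt
  have hB : Hol3 B U := fun q hq =>
    ((hVq q hq).cexp.mul (hG2.differentiableAt (hUo.mem_nhds hq))).differentiableWithinAt
  have hC : Hol3 C U := fun q hq => (P10.dcomp hφ hVh hc hq.1).differentiableWithinAt
  have hinv : ∀ z y, exp (-V z y) * exp (V z y) = 1 := by
    intro z y
    rw [← Complex.exp_add, neg_add_cancel, Complex.exp_zero]
  have E1 : ∀ z y w, (z, y, w) ∈ U → P10.F1 a c φ V z y w = exp (-V z y) * w ^ 2 * A z y w := by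
    intro z y w h
    rw [e1 z y w h.1 h.2]
    linear_combination (-(w ^ 2 * G1 z y w)) * hinv z y
  have E2 : ∀ z y w, (z, y, w) ∈ U → P10.F2 b c φ V z y w = exp (-V z y) * w ^ 2 * B z y w := by
    intro z y w h
    rw [e2 z y w h.1 h.2]
    linear_combination (-(w ^ 2 * G2 z y w)) * hinv z y
  -- the identity for `w ≠ 0`
  have key : ∀ z y w, (z, y, w) ∈ U → w ≠ 0 → C z y w * (D1 B z y w - D2 A z y w) =
        B z y w * D1 C z y w - A z y w * D2 C z y w +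
          w ^ 2 * (A z y w * D3 B z y w - B z y w * D3 A z y w) := by
    intro z y w h hw
    have hzy : (z, y) ∈ Zd := h.1
    have c1 := (P10.cz hφ hVh hc hzy w).deriv
    have c2 := (P10.cy hφ hVh hc hzy w).deriv
    have hC1 : D1 C z y w = _ := c1
    have hC2 : D2 C z y w = _ := c2
    rw [hC1, hC2]
    -- neighbourhoods
    have hnz : ∀ᶠ t in 𝓝 z, (t, y, w) ∈ U := by
      have hcont : ContinuousAt (fun t : ℂ => ((t, y, w) : ℂ × ℂ × ℂ)) z := by fun_prop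
      exact hcont.eventually_mem (hUo.mem_nhds h)
    have hny : ∀ᶠ t in 𝓝 y, (z, t, w) ∈ U := by
      have hcont : ContinuousAt (fun t : ℂ => ((z, t, w) : ℂ × ℂ × ℂ)) y := by fun_prop
      exact hcont.eventually_mem (hUo.mem_nhds h)
    have hnw : ∀ᶠ t in 𝓝 w, (z, y, t) ∈ U := by
      have hcont : ContinuousAt (fun t : ℂ => ((z, y, t) : ℂ × ℂ × ℂ)) w := by fun_prop
      exact hcont.eventually_mem (hUo.mem_nhds h)
    have h3 : HasDerivAt (fun t => P10.F1 a c φ V z t w) _ y :=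
      ((P10.cy hφ hVh ha hzy w).mul_const (exp z)).add
        ((P10.cy hφ hVh hc hzy w).mul (P10.Pz_y hφ hVh hzy w))
    have h3' : HasDerivAt (fun t => P10.F1 a c φ V z t w) _ y :=
      (((P10.lam_y hVh hzy).mul_const (w ^ 2)).mul (P10.hD2 hUo hA h)).congr_of_eventuallyEq (by
        filter_upwards [hny] with t ht
        exact E1 z t w ht)
    have h5 : HasDerivAt (fun t => P10.F2 b c φ V t y w) _ z :=
      (P10.cz hφ hVh hb hzy w).add ((P10.cz hφ hVh hc hzy w).mul (P10.Py_z hφ hVh hzy w))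
    have h5' : HasDerivAt (fun t => P10.F2 b c φ V t y w) _ z :=
      (((P10.lam_z hVh hzy).mul_const (w ^ 2)).mul (P10.hD1 hUo hB h)).congr_of_eventuallyEq (by
        filter_upwards [hnz] with t ht
        exact E2 t y w ht)
    have h4 := P10.F1_w φ V ha hc z y w
    have h4' : HasDerivAt (fun t => P10.F1 a c φ V z y t) _ w :=
      (((hasDerivAt_pow 2 w).const_mul (exp (-V z y))).mul
        (P10.hD3 hUo hA h)).congr_of_eventuallyEq (by
        filter_upwards [hnw] with t ht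
        exact E1 z y t ht)
    have h6 := P10.F2_w φ V hb hc z y w
    have h6' : HasDerivAt (fun t => P10.F2 b c φ V z y t) _ w :=
      (((hasDerivAt_pow 2 w).const_mul (exp (-V z y))).mul
        (P10.hD3 hUo hB h)).congr_of_eventuallyEq (by
        filter_upwards [hnw] with t ht
        exact E2 z y t ht)
    have g3 := h3.unique h3'
    have g4 := h4.unique h4'
    have g5 := h5.unique h5'
    have g6 := h6.unique h6'
    have g1 := E1 z y w h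
    have g2 := E2 z y w h
    have g7 := hG.int (exp z) y (P10.Ph φ V z y w)
    unfold IntegAt at g7
    have gM : d2 (d1 φ) (exp z) y * exp z -
      (exp (-V z y) * (-d2 V z y) * d1 V z y + exp (-V z y) * d2 (d1 V) z y) * w =
      d1 (d2 φ) (exp z) y * exp z -
      (exp (-V z y) * (-d1 V z y) * d2 V z y + exp (-V z y) * d1 (d2 V) z y) * w := by
      rw [d_comm isOpen_Dom hφ (exp_mem_Dom hzy), d_comm isOpen_Zd hVh hzy]
      ring
    refine P10.alg1 (Complex.exp_ne_zero (-V z y)) hw g1 g2 g3 (g4.trans ?_) g5 (g6.trans ?_) g7 gM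
    · push_cast
      ring
    · push_cast
      ring
  refine ⟨A, B, C, U, hUo, ⟨h0, by simp⟩, fun q hq => hq.1, hA, hB, hC, ?_, ?_, ?_, ?_, ?_⟩
  · intro z y h
    have hzy : (z, y) ∈ Zd := h.1
    constructor
    · simp only [hAd]
      rw [k1 z y hzy, P10.F1_ww φ V ha hc]
      unfold gA jM1 jCv
      linear_combination (exp (-V z y) * (D3 (D3 a) (exp z) y (φ (exp z) y) * exp z +
        D3 (D3 c) (exp z) y (φ (exp z) y) * (d1 φ (exp z) y * exp z) -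
        2 * D3 c (exp z) y (φ (exp z) y) * d1 V z y) / 2) * hinv z y
    · simp only [hBd]
      rw [k2 z y hzy, P10.F2_ww φ V hb hc]
      unfold gB jM2 jCv
      linear_combination (exp (-V z y) * (D3 (D3 b) (exp z) y (φ (exp z) y) +
        D3 (D3 c) (exp z) y (φ (exp z) y) * d2 φ (exp z) y -
        2 * D3 c (exp z) y (φ (exp z) y) * d2 V z y) / 2) * hinv z y
  · intro z y w _
    rfl
  · intro z y w h
    exact E1 z y w h
  · intro z y w h
    exact E2 z y w h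
  · intro z y w h
    by_cases hw : w = 0
    · subst hw
      -- continuity
      have hcont : ∀ {f : ℂ → ℂ → ℂ → ℂ}, Hol3 f U →
          ContinuousAt (fun t => f z y t) 0 := fun {f} hf => (P10.hD3 hUo hf h).continuousAt
      have c1 := hcont hC
      have c2 := hcont (Hol3.D1 hUo hB)
      have c3 := hcont (Hol3.D2 hUo hA)
      have c4 := hcont hB
      have c5 := hcont hA
      have c6 := hcont (Hol3.D1 hUo hC)
      have c7 := hcont (Hol3.D2 hUo hC)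
      have c8 := hcont (Hol3.D3 hUo hB)
      have c9 := hcont (Hol3.D3 hUo hA)
      have hid : ContinuousAt (fun t : ℂ => t ^ 2) 0 := by fun_prop
      have l1 : ContinuousAt (fun t => C z y t * (D1 B z y t - D2 A z y t)) 0 := c1.mul (c2.sub c3)
      have l2 : ContinuousAt (fun t => B z y t * D1 C z y t - A z y t * D2 C z y t +
          t ^ 2 * (A z y t * D3 B z y t - B z y t * D3 A z y t)) 0 :=
        ((c4.mul c6).sub (c5.mul c7)).add (hid.mul ((c5.mul c8).sub (c4.mul c9)))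
      have hnw : ∀ᶠ t in 𝓝 (0 : ℂ), (z, y, t) ∈ U := by
        have hcont : ContinuousAt (fun t : ℂ => ((z, y, t) : ℂ × ℂ × ℂ)) 0 := by fun_prop
        exact hcont.eventually_mem (hUo.mem_nhds h)
      have heq : (fun t => C z y t * (D1 B z y t - D2 A z y t)) =ᶠ[𝓝[≠] 0]
          (fun t => B z y t * D1 C z y t - A z y t * D2 C z y t +
          t ^ 2 * (A z y t * D3 B z y t - B z y t * D3 A z y t)) := by
        filter_upwards [hnw.filter_mono nhdsWithin_le_nhds, self_mem_nhdsWithin] with t ht ht0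
        exact key z y t ht ht0
      have t1 := l1.tendsto.mono_left (nhdsWithin_le_nhds (s := {0}ᶜ))
      have t2 := l2.tendsto.mono_left (nhdsWithin_le_nhds (s := {0}ᶜ))
      exact tendsto_nhds_unique (t1.congr' heq) t2
    · exact key z y w h hw

namespace P10

/-- rank one matrices -/
theorem rank1 {Z1 Z2 Z3 m11 m12 m13 m21 m22 m23 m31 m32 m33 : ℂ}
    (c12 : m11 * Z2 = m21 * Z1) (c13 : m11 * Z3 = m31 * Z1)
    (c21 : m22 * Z1 = m12 * Z2) (c23 : m22 * Z3 = m32 * Z2)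
    (c31 : m33 * Z1 = m13 * Z3) (c32 : m33 * Z2 = m23 * Z3)
    (r12 : m11 * Z2 = m12 * Z1) (r13 : m11 * Z3 = m13 * Z1) (r1 : m12 * Z3 = m13 * Z2)
    (r21 : m22 * Z1 = m21 * Z2) (r23 : m22 * Z3 = m23 * Z2) (r2 : m21 * Z3 = m23 * Z1)
    (r31 : m33 * Z1 = m31 * Z3) (r32 : m33 * Z2 = m32 * Z3) (r3 : m31 * Z2 = m32 * Z1)
    (u1 u2 u3 : ℂ) :
    Z1 ^ 2 * (u1 * (u1 * m11 + u2 * m12 + u3 * m13) + u2 * (u1 * m21 + u2 * m22 + u3 * m23) +
      u3 * (u1 * m31 + u2 * m32 + u3 * m33)) = (u1 * Z1 + u2 * Z2 + u3 * Z3) ^ 2 * m11 ∧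
    Z2 ^ 2 * (u1 * (u1 * m11 + u2 * m12 + u3 * m13) + u2 * (u1 * m21 + u2 * m22 + u3 * m23) +
      u3 * (u1 * m31 + u2 * m32 + u3 * m33)) = (u1 * Z1 + u2 * Z2 + u3 * Z3) ^ 2 * m22 ∧
    Z3 ^ 2 * (u1 * (u1 * m11 + u2 * m12 + u3 * m13) + u2 * (u1 * m21 + u2 * m22 + u3 * m23) +
      u3 * (u1 * m31 + u2 * m32 + u3 * m33)) = (u1 * Z1 + u2 * Z2 + u3 * Z3) ^ 2 * m33 := by
  refine ⟨?_, ?_, ?_⟩
  · linear_combination (-(u1 * Z1 + u2 * Z2 + u3 * Z3)) * (u2 * c12 + u3 * c13) -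
      Z1 * (u1 * (u2 * r12 + u3 * r13) + u2 * (-u2 * r21 + u3 * r2) +
        u3 * (u2 * r3 - u3 * r31))
  · linear_combination (-(u1 * Z1 + u2 * Z2 + u3 * Z3)) * (u1 * c21 + u3 * c23) -
      Z2 * (u1 * (-u1 * r12 + u3 * r1) + u2 * (u1 * r21 + u3 * r23) +
        u3 * (-u1 * r3 - u3 * r32))
  · linear_combination (-(u1 * Z1 + u2 * Z2 + u3 * Z3)) * (u1 * c31 + u2 * c32) -
      Z3 * (u1 * (-u1 * r13 - u2 * r1) + u2 * (-u1 * r2 - u2 * r23) +
        u3 * (u1 * r31 + u2 * r32))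

theorem alg2 {E W a1 a2 a3 b1 b2 b3 c1 c2 c3 P K A1 A2 B1 B2 : ℂ}
    (i1 : a1 * (c2 - b3) + b1 * (a3 - c1) + c1 * (b1 - a2) = 0)
    (i2 : a2 * (c2 - b3) + b2 * (a3 - c1) + c2 * (b1 - a2) = 0)
    (i3 : a3 * (c2 - b3) + b3 * (a3 - c1) + c3 * (b1 - a2) = 0)
    (hW : W ≠ 0)
    (hA1 : (a1 * E + a3 * P) * E + (c1 * E + c3 * P) * P = W * A1)
    (hA2 : (a2 + a3 * K) * E + (c2 + c3 * K) * P = W * A2)
    (hB1 : (b1 * E + b3 * P) + (c1 * E + c3 * P) * K = W * B1)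
    (hB2 : (b2 + b3 * K) + (c2 + c3 * K) * K = W * B2) (hrot : B1 - A2 ≠ 0) :
    (c2 - b3 ≠ 0 ∨ a3 - c1 ≠ 0 ∨ b1 - a2 ≠ 0) ∧
    (c2 - b3) ^ 2 * (A1 * B2 - A2 * B1) = (B1 - A2) ^ 2 * (b2 * c3 - b3 * c2) ∧
    (a3 - c1) ^ 2 * (A1 * B2 - A2 * B1) = (B1 - A2) ^ 2 * (a1 * c3 - a3 * c1) ∧
    (b1 - a2) ^ 2 * (A1 * B2 - A2 * B1) = (B1 - A2) ^ 2 * (a1 * b2 - a2 * b1) := by
  have hs : W * (B1 - A2) = -P * (c2 - b3) + -(E * K) * (a3 - c1) + E * (b1 - a2) := by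
    linear_combination hA2 - hB1
  have k1 : a1 * (c2 - b3) + a2 * (a3 - c1) + a3 * (b1 - a2) = 0 := by linear_combination i1
  have k2 : b1 * (c2 - b3) + b2 * (a3 - c1) + b3 * (b1 - a2) = 0 := by linear_combination i2
  have k3 : c1 * (c2 - b3) + c2 * (a3 - c1) + c3 * (b1 - a2) = 0 := by linear_combination i3
  obtain ⟨R1, R2, R3⟩ := rank1 (Z1 := c2 - b3) (Z2 := a3 - c1) (Z3 := b1 - a2)
    (m11 := b2 * c3 - c2 * b3) (m21 := c2 * a3 - a2 * c3) (m31 := a2 * b3 - b2 * a3)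
    (m12 := b3 * c1 - c3 * b1) (m22 := c3 * a1 - a3 * c1) (m32 := a3 * b1 - b3 * a1)
    (m13 := b1 * c2 - c1 * b2) (m23 := c1 * a2 - a1 * c2) (m33 := a1 * b2 - b1 * a2)
    (by linear_combination c3 * i2 - c2 * i3) (by linear_combination b2 * i3 - b3 * i2)
    (by linear_combination c3 * i1 - c1 * i3) (by linear_combination a1 * i3 - a3 * i1)
    (by linear_combination b2 * i1 - b1 * i2) (by linear_combination a1 * i2 - a2 * i1)
    (by linear_combination c3 * k2 - b3 * k3) (by linear_combination b2 * k3 - c2 * k2)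
    (by linear_combination c1 * k2 - b1 * k3)
    (by linear_combination c3 * k1 - a3 * k3) (by linear_combination a1 * k3 - c1 * k1)
    (by linear_combination c2 * k1 - a2 * k3)
    (by linear_combination b2 * k1 - a2 * k2) (by linear_combination a1 * k2 - b1 * k1)
    (by linear_combination b3 * k1 - a3 * k2) (-P) (-(E * K)) E
  rw [← hs] at R1 R2 R3
  have hT : -P * (-P * (b2 * c3 - c2 * b3) + -(E * K) * (b3 * c1 - c3 * b1) +
        E * (b1 * c2 - c1 * b2)) +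
      -(E * K) * (-P * (c2 * a3 - a2 * c3) + -(E * K) * (c3 * a1 - a3 * c1) +
        E * (c1 * a2 - a1 * c2)) +
      E * (-P * (a2 * b3 - b2 * a3) + -(E * K) * (a3 * b1 - b3 * a1) +
        E * (a1 * b2 - b1 * a2)) = W ^ 2 * (A1 * B2 - A2 * B1) := by
    have : W ^ 2 * (A1 * B2 - A2 * B1) = (W * A1) * (W * B2) - (W * A2) * (W * B1) := by ring
    rw [this, ← hA1, ← hA2, ← hB1, ← hB2]
    ring
  rw [hT] at R1 R2 R3
  have hW2 : W ^ 2 ≠ 0 := pow_ne_zero 2 hW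
  refine ⟨?_, ?_, ?_, ?_⟩
  · by_contra hcon
    push Not at hcon
    obtain ⟨z1, z2, z3⟩ := hcon
    rw [z1, z2, z3] at hs
    apply hrot
    apply mul_left_cancel₀ hW
    rw [hs]
    ring
  · apply mul_left_cancel₀ hW2
    linear_combination R1
  · apply mul_left_cancel₀ hW2
    linear_combination R2
  · apply mul_left_cancel₀ hW2
    linear_combination R3

/-- at a zero of an integrable form `J Z = 0`, `Z = rot` -/
theorem integ_zero {a b c : ℂ → ℂ → ℂ → ℂ} (ha : Hol3 a univ) (hb : Hol3 b univ)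
    (hc : Hol3 c univ) (hI : Integ a b c) {x y v : ℂ} (a0 : a x y v = 0) (b0 : b x y v = 0)
    (c0 : c x y v = 0) :
    (D1 a x y v * (D2 c x y v - D3 b x y v) + D1 b x y v * (D3 a x y v - D1 c x y v) +
      D1 c x y v * (D1 b x y v - D2 a x y v) = 0) ∧
    (D2 a x y v * (D2 c x y v - D3 b x y v) + D2 b x y v * (D3 a x y v - D1 c x y v) +
      D2 c x y v * (D1 b x y v - D2 a x y v) = 0) ∧
    (D3 a x y v * (D2 c x y v - D3 b x y v) + D3 b x y v * (D3 a x y v - D1 c x y v) +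
      D3 c x y v * (D1 b x y v - D2 a x y v) = 0) := by
  have o := isOpen_univ (X := ℂ × ℂ × ℂ)
  have m : (x, y, v) ∈ (univ : Set (ℂ × ℂ × ℂ)) := mem_univ _
  refine ⟨?_, ?_, ?_⟩
  · have h := (((hD1 o ha m).mul ((hD1 o (Hol3.D2 o hc) m).sub (hD1 o (Hol3.D3 o hb) m))).add
      ((hD1 o hb m).mul ((hD1 o (Hol3.D3 o ha) m).sub (hD1 o (Hol3.D1 o hc) m)))).add
      ((hD1 o hc m).mul ((hD1 o (Hol3.D1 o hb) m).sub (hD1 o (Hol3.D2 o ha) m)))
    have h0 := hasDerivAt_const x (0 : ℂ)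
    have := h.unique (h0.congr_of_eventuallyEq (Filter.Eventually.of_forall fun t => hI t y v))
    simp only [Pi.sub_apply] at this
    rw [a0, b0, c0] at this
    linear_combination this
  · have h := (((hD2 o ha m).mul ((hD2 o (Hol3.D2 o hc) m).sub (hD2 o (Hol3.D3 o hb) m))).add
      ((hD2 o hb m).mul ((hD2 o (Hol3.D3 o ha) m).sub (hD2 o (Hol3.D1 o hc) m)))).add
      ((hD2 o hc m).mul ((hD2 o (Hol3.D1 o hb) m).sub (hD2 o (Hol3.D2 o ha) m)))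
    have h0 := hasDerivAt_const y (0 : ℂ)
    have := h.unique (h0.congr_of_eventuallyEq (Filter.Eventually.of_forall fun t => hI x t v))
    simp only [Pi.sub_apply] at this
    rw [a0, b0, c0] at this
    linear_combination this
  · have h := (((hD3 o ha m).mul ((hD3 o (Hol3.D2 o hc) m).sub (hD3 o (Hol3.D3 o hb) m))).add
      ((hD3 o hb m).mul ((hD3 o (Hol3.D3 o ha) m).sub (hD3 o (Hol3.D1 o hc) m)))).add
      ((hD3 o hc m).mul ((hD3 o (Hol3.D1 o hb) m).sub (hD3 o (Hol3.D2 o ha) m)))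
    have h0 := hasDerivAt_const v (0 : ℂ)
    have := h.unique (h0.congr_of_eventuallyEq (Filter.Eventually.of_forall fun t => hI x y t))
    simp only [Pi.sub_apply] at this
    rw [a0, b0, c0] at this
    linear_combination this

section

variable {φ V : ℂ → ℂ → ℂ} (hφ : Hol2 φ Dom) (hV : Hol2 V Zd)

include hφ hV in
theorem Pz_z {z y : ℂ} (h : (z, y) ∈ Zd) (w : ℂ) :
    HasDerivAt (fun t => Pz φ V t y w) (d1 (d1 φ) (exp z) y * exp z * exp z +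
      d1 φ (exp z) y * exp z -
      (exp (-V z y) * (-d1 V z y) * d1 V z y + exp (-V z y) * d1 (d1 V) z y) * w) z :=
  ((ex_z (Hol2.d1 isOpen_Dom hφ) h).mul (Complex.hasDerivAt_exp z)).sub
    (((lam_z hV h).mul (hd1 isOpen_Zd (Hol2.d1 isOpen_Zd hV) h)).mul_const w)

include hφ hV in
theorem Py_y {z y : ℂ} (h : (z, y) ∈ Zd) (w : ℂ) :
    HasDerivAt (fun t => Py φ V z t w) (d2 (d2 φ) (exp z) y -
      (exp (-V z y) * (-d2 V z y) * d2 V z y + exp (-V z y) * d2 (d2 V) z y) * w) y :=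
  (ex_y (Hol2.d2 isOpen_Dom hφ) h).sub
    (((lam_y hV h).mul (hd2 isOpen_Zd (Hol2.d2 isOpen_Zd hV) h)).mul_const w)

include hφ hV in
/-- the transformation of the invariant under the blow-up map -/
theorem trans {a b c A B : ℂ → ℂ → ℂ → ℂ} (ha : Hol3 a univ) (hb : Hol3 b univ)
    (hc : Hol3 c univ) (hI : Integ a b c) {U : Set (ℂ × ℂ × ℂ)} (hUo : IsOpen U)
    (hUZ : ∀ q ∈ U, (q.1, q.2.1) ∈ Zd) (hA : Hol3 A U) (hB : Hol3 B U)
    (E1 : ∀ z y w, (z, y, w) ∈ U → F1 a c φ V z y w = exp (-V z y) * w ^ 2 * A z y w)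
    (E2 : ∀ z y w, (z, y, w) ∈ U → F2 b c φ V z y w = exp (-V z y) * w ^ 2 * B z y w)
    {z y w : ℂ} (h : (z, y, w) ∈ U) (hw : w ≠ 0) (hA0 : A z y w = 0) (hB0 : B z y w = 0)
    (a0 : a (exp z) y (Ph φ V z y w) = 0) (b0 : b (exp z) y (Ph φ V z y w) = 0)
    (c0 : c (exp z) y (Ph φ V z y w) = 0) (hrot : D1 B z y w - D2 A z y w ≠ 0) :
    let q : ℂ × ℂ × ℂ := (exp z, y, Ph φ V z y w)
    (rX b c q ≠ 0 ∨ rY a c q ≠ 0 ∨ rV a b q ≠ 0) ∧
    rX b c q ^ 2 * (D1 A z y w * D2 B z y w - D2 A z y w * D1 B z y w) =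
      (D1 B z y w - D2 A z y w) ^ 2 * mX b c q ∧
    rY a c q ^ 2 * (D1 A z y w * D2 B z y w - D2 A z y w * D1 B z y w) =
      (D1 B z y w - D2 A z y w) ^ 2 * mY a c q ∧
    rV a b q ^ 2 * (D1 A z y w * D2 B z y w - D2 A z y w * D1 B z y w) =
      (D1 B z y w - D2 A z y w) ^ 2 * mV a b q := by
  intro q
  have hzy : (z, y) ∈ Zd := hUZ _ h
  obtain ⟨i1, i2, i3⟩ := integ_zero ha hb hc hI a0 b0 c0
  have hnz : ∀ᶠ t in 𝓝 z, (t, y, w) ∈ U := by
    have hcont : ContinuousAt (fun t : ℂ => ((t, y, w) : ℂ × ℂ × ℂ)) z := by fun_prop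
    exact hcont.eventually_mem (hUo.mem_nhds h)
  have hny : ∀ᶠ t in 𝓝 y, (z, t, w) ∈ U := by
    have hcont : ContinuousAt (fun t : ℂ => ((z, t, w) : ℂ × ℂ × ℂ)) y := by fun_prop
    exact hcont.eventually_mem (hUo.mem_nhds h)
  have g1 := (((cz hφ hV ha hzy w).mul (Complex.hasDerivAt_exp z)).add
    ((cz hφ hV hc hzy w).mul (Pz_z hφ hV hzy w))).unique
    ((((lam_z hV hzy).mul_const (w ^ 2)).mul (hD1 hUo hA h)).congr_of_eventuallyEq (by
        filter_upwards [hnz] with t ht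
        exact E1 t y w ht))
  have g2 := (((cy hφ hV ha hzy w).mul_const (exp z)).add
    ((cy hφ hV hc hzy w).mul (Pz_y hφ hV hzy w))).unique
    ((((lam_y hV hzy).mul_const (w ^ 2)).mul (hD2 hUo hA h)).congr_of_eventuallyEq (by
        filter_upwards [hny] with t ht
        exact E1 z t w ht))
  have g3 := ((cz hφ hV hb hzy w).add ((cz hφ hV hc hzy w).mul (Py_z hφ hV hzy w))).unique
    ((((lam_z hV hzy).mul_const (w ^ 2)).mul (hD1 hUo hB h)).congr_of_eventuallyEq (by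
        filter_upwards [hnz] with t ht
        exact E2 t y w ht))
  have g4 := ((cy hφ hV hb hzy w).add ((cy hφ hV hc hzy w).mul (Py_y hφ hV hzy w))).unique
    ((((lam_y hV hzy).mul_const (w ^ 2)).mul (hD2 hUo hB h)).congr_of_eventuallyEq (by
        filter_upwards [hny] with t ht
        exact E2 z t w ht))
  rw [a0, c0, hA0] at g1
  rw [c0, hA0] at g2
  rw [c0, hB0] at g3 g4
  have hW : exp (-V z y) * w ^ 2 ≠ 0 := mul_ne_zero (Complex.exp_ne_zero _) (pow_ne_zero 2 hw)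
  exact alg2 (E := exp z) (W := exp (-V z y) * w ^ 2) (P := Pz φ V z y w) (K := Py φ V z y w)
    i1 i2 i3 hW (by linear_combination g1) (by linear_combination g2) (by linear_combination g3)
    (by linear_combination g4) hrot

end

end P10

theorem reading {a b c : ℂ → ℂ → ℂ → ℂ} {φ V : ℂ → ℂ → ℂ} {ν' : ℂ} {δ ε : ℝ}
    (hG : Good a b c φ δ) (hV : Gauge a b c φ V ν' ε) {z₀ y₀ : ℂ} (h0 : (z₀, y₀) ∈ Zd)
    (hA : gA a c φ V z₀ y₀ = 0) (hB : gB b c φ V z₀ y₀ = 0)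
    (hrot : d1 (gB b c φ V) z₀ y₀ - d2 (gA a c φ V) z₀ y₀ ≠ 0)
    (hdet : d1 (gA a c φ V) z₀ y₀ * d2 (gB b c φ V) z₀ y₀ -
      d2 (gA a c φ V) z₀ y₀ * d1 (gB b c φ V) z₀ y₀ ≠ 0) :
    ∃ p : ℂ × ℂ × ℂ, Zero3 a b c p ∧ ∀ᶠ q : ℂ × ℂ × ℂ in 𝓝 p, Zero3 a b c q →
      (rX b c q ≠ 0 ∨ rY a c q ≠ 0 ∨ rV a b q ≠ 0) ∧
      rX b c q ^ 2 * (d1 (gA a c φ V) z₀ y₀ * d2 (gB b c φ V) z₀ y₀ -
        d2 (gA a c φ V) z₀ y₀ * d1 (gB b c φ V) z₀ y₀) =
        (d1 (gB b c φ V) z₀ y₀ - d2 (gA a c φ V) z₀ y₀) ^ 2 * mX b c q ∧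
      rY a c q ^ 2 * (d1 (gA a c φ V) z₀ y₀ * d2 (gB b c φ V) z₀ y₀ -
        d2 (gA a c φ V) z₀ y₀ * d1 (gB b c φ V) z₀ y₀) =
        (d1 (gB b c φ V) z₀ y₀ - d2 (gA a c φ V) z₀ y₀) ^ 2 * mY a c q ∧
      rV a b q ^ 2 * (d1 (gA a c φ V) z₀ y₀ * d2 (gB b c φ V) z₀ y₀ -
        d2 (gA a c φ V) z₀ y₀ * d1 (gB b c φ V) z₀ y₀) =
        (d1 (gB b c φ V) z₀ y₀ - d2 (gA a c φ V) z₀ y₀) ^ 2 * mV a b q := by
  have ha := hG.near.ha
  have hb := hG.near.hb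
  have hc := hG.near.hc
  have hφ := hG.leaf.hol
  have hVh := hV.hol
  obtain ⟨A, B, C, U, hUo, hm, hUZ, hA', hB', hC', e0, eC, eA, eB, eI⟩ := blow hG hV h0
  -- values at `w = 0`
  have hA0 : A z₀ y₀ 0 = 0 := by rw [(e0 z₀ y₀ hm).1, hA]
  have hB0 : B z₀ y₀ 0 = 0 := by rw [(e0 z₀ y₀ hm).2, hB]
  have nz : ∀ᶠ t in 𝓝 z₀, (t, y₀, (0 : ℂ)) ∈ U := by
    have hcont : ContinuousAt (fun t : ℂ => ((t, y₀, 0) : ℂ × ℂ × ℂ)) z₀ := by fun_prop
    exact hcont.eventually_mem (hUo.mem_nhds hm)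
  have ny : ∀ᶠ t in 𝓝 y₀, (z₀, t, (0 : ℂ)) ∈ U := by
    have hcont : ContinuousAt (fun t : ℂ => ((z₀, t, 0) : ℂ × ℂ × ℂ)) y₀ := by fun_prop
    exact hcont.eventually_mem (hUo.mem_nhds hm)
  have dA1 : D1 A z₀ y₀ 0 = d1 (gA a c φ V) z₀ y₀ := by
    apply Filter.EventuallyEq.deriv_eq
    filter_upwards [nz] with t ht
    exact (e0 t y₀ ht).1
  have dA2 : D2 A z₀ y₀ 0 = d2 (gA a c φ V) z₀ y₀ := by
    apply Filter.EventuallyEq.deriv_eq
    filter_upwards [ny] with t ht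
    exact (e0 z₀ t ht).1
  have dB1 : D1 B z₀ y₀ 0 = d1 (gB b c φ V) z₀ y₀ := by
    apply Filter.EventuallyEq.deriv_eq
    filter_upwards [nz] with t ht
    exact (e0 t y₀ ht).2
  have dB2 : D2 B z₀ y₀ 0 = d2 (gB b c φ V) z₀ y₀ := by
    apply Filter.EventuallyEq.deriv_eq
    filter_upwards [ny] with t ht
    exact (e0 z₀ t ht).2
  rw [← dA2, ← dB1] at hrot
  rw [← dA1, ← dA2, ← dB1, ← dB2] at hdet ⊢
  obtain ⟨hk1, hk2⟩ := kupka hUo hm hA' hB' hC' eI hA0 hB0 hrot hdet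
  obtain ⟨⟨z1, y1, w1⟩, ⟨hqA, hqB, hqw⟩, hk3, hqU⟩ :=
    (hk2.and_eventually ((eventually_eventually_nhds.2 hk1).and (hUo.mem_nhds hm))).exists
  simp only at hqA hqB hqw
  have hz1 : (z1, y1) ∈ Zd := hUZ _ hqU
  have zero_of : ∀ z y w, (z, y, w) ∈ U → A z y w = 0 → B z y w = 0 → C z y w = 0 →
      Zero3 a b c (exp z, y, P10.Ph φ V z y w) := by
    intro z y w h h1 h2 h3
    have h4 : c (exp z) y (P10.Ph φ V z y w) = 0 := by rw [← h3, eC z y w h]; rfl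
    have h5 := eA z y w h
    have h6 := eB z y w h
    have h4' : c (exp z) y (φ (exp z) y + exp (-V z y) * w) = 0 := h4
    rw [h4', h1] at h5
    rw [h4', h2] at h6
    have h7 : a (exp z) y (φ (exp z) y + exp (-V z y) * w) * exp z = 0 := by
      linear_combination h5
    refine ⟨?_, ?_, h4⟩
    · exact (mul_eq_zero.1 h7).resolve_right (Complex.exp_ne_zero z)
    · show b (exp z) y (φ (exp z) y + exp (-V z y) * w) = 0
      linear_combination h6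
  have hqC : C z1 y1 w1 = 0 := (hk3.self_of_nhds hqA hqB hqw).1
  refine ⟨(exp z1, y1, P10.Ph φ V z1 y1 w1), zero_of z1 y1 w1 hqU hqA hqB hqC, ?_⟩
  -- the local inverse
  set lg : ℂ → ℂ := fun x => z1 + Complex.log (x / exp z1) with hlg
  set Ψ : ℂ × ℂ × ℂ → ℂ × ℂ × ℂ := fun q =>
    (lg q.1, q.2.1, (q.2.2 - φ q.1 q.2.1) * exp (V (lg q.1) q.2.1)) with hΨ
  have hlg1 : lg (exp z1) = z1 := by
    simp only [hlg]
    rw [div_self (Complex.exp_ne_zero z1), Complex.log_one, add_zero]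
  have hlgc : ContinuousAt lg (exp z1) := by
    have h1 : ContinuousAt (fun x : ℂ => x / exp z1) (exp z1) := by fun_prop
    have h2 : ContinuousAt (fun x : ℂ => Complex.log (x / exp z1)) (exp z1) := by
      apply h1.clog
      rw [div_self (Complex.exp_ne_zero z1)]
      exact Complex.one_mem_slitPlane
    exact continuousAt_const.add h2
  have hΨ1 : Ψ (exp z1, y1, P10.Ph φ V z1 y1 w1) = (z1, y1, w1) := by
    simp only [hΨ, hlg1, P10.Ph, add_sub_cancel_left]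
    have : exp (-V z1 y1) * w1 * exp (V z1 y1) = w1 := by
      have h1 : exp (-V z1 y1) * exp (V z1 y1) = 1 := by
        rw [← Complex.exp_add, neg_add_cancel, Complex.exp_zero]
      linear_combination w1 * h1
    rw [this]
  have hΨc : ContinuousAt Ψ (exp z1, y1, P10.Ph φ V z1 y1 w1) := by
    have f1 : ContinuousAt (fun q : ℂ × ℂ × ℂ => q.1) (exp z1, y1, P10.Ph φ V z1 y1 w1) :=
      continuousAt_fst
    have f2 : ContinuousAt (fun q : ℂ × ℂ × ℂ => q.2.1) (exp z1, y1, P10.Ph φ V z1 y1 w1) := by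
      fun_prop
    have f3 : ContinuousAt (fun q : ℂ × ℂ × ℂ => q.2.2) (exp z1, y1, P10.Ph φ V z1 y1 w1) := by
      fun_prop
    have c1 : ContinuousAt (fun q : ℂ × ℂ × ℂ => lg q.1) (exp z1, y1, P10.Ph φ V z1 y1 w1) :=
      ContinuousAt.comp (g := lg) hlgc f1
    have c2 : ContinuousAt (fun q : ℂ × ℂ × ℂ => φ q.1 q.2.1)
        (exp z1, y1, P10.Ph φ V z1 y1 w1) :=
      ContinuousAt.comp (g := fun p : ℂ × ℂ => φ p.1 p.2)
        (f := fun q : ℂ × ℂ × ℂ => (q.1, q.2.1))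
        (hφ.continuousOn.continuousAt (isOpen_Dom.mem_nhds (exp_mem_Dom hz1))) (f1.prodMk f2)
    have c3 : ContinuousAt (fun q : ℂ × ℂ × ℂ => V (lg q.1) q.2.1)
        (exp z1, y1, P10.Ph φ V z1 y1 w1) := by
      refine ContinuousAt.comp (g := fun p : ℂ × ℂ => V p.1 p.2)
        (f := fun q : ℂ × ℂ × ℂ => (lg q.1, q.2.1)) ?_ (c1.prodMk f2)
      simp only [hlg1]
      exact hVh.continuousOn.continuousAt (isOpen_Zd.mem_nhds hz1)
    exact c1.prodMk (f2.prodMk ((f3.sub c2).mul c3.cexp))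
  have hΨt : Tendsto Ψ (𝓝 (exp z1, y1, P10.Ph φ V z1 y1 w1)) (𝓝 (z1, y1, w1)) := by
    have := hΨc.tendsto
    rwa [hΨ1] at this
  have hwne : ∀ᶠ q : ℂ × ℂ × ℂ in 𝓝 (z1, y1, w1), q.2.2 ≠ 0 := by
    have hcont : ContinuousAt (fun q : ℂ × ℂ × ℂ => q.2.2) (z1, y1, w1) := by fun_prop
    exact hcont.eventually_ne hqw
  have hxne : ∀ᶠ q : ℂ × ℂ × ℂ in 𝓝 (exp z1, y1, P10.Ph φ V z1 y1 w1), q.1 ≠ 0 := by
    have hcont : ContinuousAt (fun q : ℂ × ℂ × ℂ => q.1)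
      (exp z1, y1, P10.Ph φ V z1 y1 w1) := by fun_prop
    exact hcont.eventually_ne (Complex.exp_ne_zero z1)
  filter_upwards [hΨt.eventually hk3, hΨt.eventually hwne, hΨt.eventually (hUo.mem_nhds hqU),
    hxne] with q hR hw hU hx hz
  obtain ⟨x, y, v⟩ := q
  simp only at hx
  -- `q = Φ (Ψ q)`
  obtain ⟨z, hzd⟩ : ∃ z, z = lg x := ⟨_, rfl⟩
  obtain ⟨w, hwd⟩ : ∃ w, w = (v - φ x y) * exp (V z y) := ⟨_, rfl⟩
  have hΨq : Ψ (x, y, v) = (z, y, w) := by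
    simp only [hΨ]
    rw [← hzd, ← hwd]
  rw [hΨq] at hR hw hU
  simp only at hR hw
  have hez : exp z = x := by
    rw [hzd, hlg]
    simp only
    rw [Complex.exp_add, Complex.exp_log (div_ne_zero hx (Complex.exp_ne_zero z1))]
    field_simp
  have hev : P10.Ph φ V z y w = v := by
    unfold P10.Ph
    rw [hez, hwd]
    have h1 : exp (-V z y) * exp (V z y) = 1 := by
      rw [← Complex.exp_add, neg_add_cancel, Complex.exp_zero]
    linear_combination (v - φ x y) * h1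
  have hq : ((x, y, v) : ℂ × ℂ × ℂ) = (exp z, y, P10.Ph φ V z y w) := by rw [hez, hev]
  rw [hq] at hz ⊢
  obtain ⟨a0, b0, c0⟩ := hz
  simp only at a0 b0 c0
  have hlam : exp (-V z y) * w ^ 2 ≠ 0 := mul_ne_zero (Complex.exp_ne_zero _) (pow_ne_zero 2 hw)
  have hAz : A z y w = 0 := by
    have h5 := eA z y w hU
    have a0' : a (exp z) y (φ (exp z) y + exp (-V z y) * w) = 0 := a0
    have c0' : c (exp z) y (φ (exp z) y + exp (-V z y) * w) = 0 := c0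
    rw [a0', c0'] at h5
    apply mul_left_cancel₀ hlam
    rw [← h5]
    ring
  have hBz : B z y w = 0 := by
    have h5 := eB z y w hU
    have b0' : b (exp z) y (φ (exp z) y + exp (-V z y) * w) = 0 := b0
    have c0' : c (exp z) y (φ (exp z) y + exp (-V z y) * w) = 0 := c0
    rw [b0', c0'] at h5
    apply mul_left_cancel₀ hlam
    rw [← h5]
    ring
  obtain ⟨-, hr, -, hk⟩ := hR hAz hBz hw
  obtain ⟨t0, t1, t2, t3⟩ := P10.trans hφ hVh ha hb hc hG.int hUo hUZ hA' hB' eA eB hU hw hAz hBz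
    a0 b0 c0 hr
  refine ⟨t0, ?_, ?_, ?_⟩
  · apply mul_left_cancel₀ (pow_ne_zero 2 hr)
    linear_combination (rX b c (exp z, y, P10.Ph φ V z y w)) ^ 2 * hk +
      (D1 B z₀ y₀ 0 - D2 A z₀ y₀ 0) ^ 2 * t1
  · apply mul_left_cancel₀ (pow_ne_zero 2 hr)
    linear_combination (rY a c (exp z, y, P10.Ph φ V z y w)) ^ 2 * hk +
      (D1 B z₀ y₀ 0 - D2 A z₀ y₀ 0) ^ 2 * t2
  · apply mul_left_cancel₀ (pow_ne_zero 2 hr)
    linear_combination (rV a b (exp z, y, P10.Ph φ V z y w)) ^ 2 * hk +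
      (D1 B z₀ y₀ 0 - D2 A z₀ y₀ 0) ^ 2 * t3

end Pool.Agent.H583_Fol
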