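import Pool.Agent.H583_Fol.Defs
import Pool.Agent.H583_Fol.Basic
import Pool.Agent.H583_Fol.St.T0

set_option autoImplicit false

namespace Pool.Agent.H583_Fol

open Complex Set Metric Filter Topology

namespace P11

/-- the residue at a simple zero of the denominator -/
theorem residue_simple {f g : ℂ → ℂ} {R R' : ℝ} {x0 : ℂ} (hR : R < R')
    (hx0 : x0 ∈ ball (0 : ℂ) R) (hf : DifferentiableOn ℂ f (closedBall 0 R))
    (hg : DifferentiableOn ℂ g (ball 0 R')) (h0 : g x0 = 0) (h1 : deriv g x0 ≠ 0)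
    (hu : ∀ x ∈ closedBall (0 : ℂ) R, g x = 0 → x = x0) :
    (∮ x in C(0, R), f x / g x) = 2 * Real.pi * I * (f x0 / deriv g x0) := by
  have hRpos : 0 < R := (norm_nonneg x0).trans_lt (by simpa using hx0)
  have hk : DifferentiableOn ℂ (dslope g x0) (ball 0 R') :=
    (Complex.differentiableOn_dslope (isOpen_ball.mem_nhds (ball_subset_ball hR.le hx0))).2 hg
  have hkn : ∀ x ∈ closedBall (0 : ℂ) R, dslope g x0 x ≠ 0 := by
    intro x hx
    by_cases h : x = x0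
    · rw [h, dslope_same]; exact h1
    · rw [dslope_of_ne _ h, slope_def_field, h0, sub_zero]
      exact div_ne_zero (fun h2 => h (hu x hx h2)) (sub_ne_zero.2 h)
  have hF : DifferentiableOn ℂ (fun x => f x / dslope g x0 x) (closedBall 0 R) :=
    hf.div (hk.mono (closedBall_subset_ball hR)) hkn
  have h2 := DifferentiableOn.circleIntegral_sub_inv_smul hF hx0
  rw [dslope_same] at h2
  rw [← smul_eq_mul, ← h2]
  refine circleIntegral.integral_congr hRpos.le ?_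
  intro x hx
  have hx1 : x ≠ x0 := by
    rintro rfl
    have h3 : ‖x‖ = R := by simpa using hx
    have h4 : ‖x‖ < R := by simpa using hx0
    linarith
  have hx2 : dslope g x0 x = g x / (x - x0) := by
    rw [dslope_of_ne _ hx1, slope_def_field, h0, sub_zero]
  have hx3 : x - x0 ≠ 0 := sub_ne_zero.2 hx1
  simp only [hx2, smul_eq_mul]
  field_simp

/-- a function near the identity on a disc -/
theorem near_id {G : ℂ → ℂ} {ε : ℝ} (hε : ε ≤ 1 / 100) (hG : DifferentiableOn ℂ G (ball 0 (2 / 5)))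
    (hb : ∀ x ∈ ball (0 : ℂ) (2 / 5), ‖G x - x‖ ≤ ε) :
    (∃ x0, ‖x0‖ ≤ ε ∧ G x0 = 0) ∧
    (∀ x ∈ closedBall (0 : ℂ) (8 / 25), ∀ x' ∈ closedBall (0 : ℂ) (8 / 25), G x = G x' → x = x') ∧
    ∀ x ∈ closedBall (0 : ℂ) (8 / 25), deriv G x ≠ 0 := by
  have hε0 : 0 ≤ ε := (norm_nonneg _).trans (hb 0 (by simp))
  have hd : ∀ x ∈ closedBall (0 : ℂ) (8 / 25), DifferentiableAt ℂ G x := fun x hx =>
    hG.differentiableAt (isOpen_ball.mem_nhds (closedBall_subset_ball (by norm_num) hx))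
  have hder : ∀ x ∈ closedBall (0 : ℂ) (8 / 25), ‖deriv (fun t => G t - t) x‖ ≤ 1 / 4 := by
    intro x hx
    have hsub : ∀ t ∈ closedBall x (1 / 20), t ∈ ball (0 : ℂ) (2 / 5) := by
      intro t ht
      rw [mem_ball_zero_iff]
      rw [mem_closedBall_zero_iff] at hx
      rw [mem_closedBall, dist_eq_norm] at ht
      calc ‖t‖ = ‖(t - x) + x‖ := by ring_nf
        _ ≤ ‖t - x‖ + ‖x‖ := norm_add_le _ _
        _ ≤ 1 / 20 + 8 / 25 := add_le_add ht hx
        _ < 2 / 5 := by norm_num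
    have h1 : ‖deriv (fun t => G t - t) x‖ ≤ ε / (1 / 20) := by
      refine Complex.norm_deriv_le_of_forall_mem_sphere_norm_le (by norm_num) ?_ ?_
      · refine DifferentiableOn.diffContOnCl ?_
        rw [closure_ball _ (by norm_num)]
        exact (hG.mono hsub).sub differentiableOn_id
      · intro z hz
        exact hb z (hsub z (sphere_subset_closedBall hz))
    refine h1.trans ?_
    linarith
  have hlip : ∀ x ∈ closedBall (0 : ℂ) (8 / 25), ∀ x' ∈ closedBall (0 : ℂ) (8 / 25),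
      ‖(G x - x) - (G x' - x')‖ ≤ 1 / 4 * ‖x - x'‖ := by
    intro x hx x' hx'
    exact (convex_closedBall (0 : ℂ) (8 / 25)).norm_image_sub_le_of_norm_deriv_le
      (f := fun t => G t - t) (fun t ht => (hd t ht).sub differentiableAt_id) hder hx' hx
  refine ⟨?_, ?_, ?_⟩
  · have hmaps : MapsTo (fun x : ℂ => -(G x - x)) (closedBall 0 ε) (closedBall 0 ε) := by
      intro x hx
      rw [mem_closedBall_zero_iff] at hx ⊢
      simp only [norm_neg]
      exact hb x (by rw [mem_ball_zero_iff]; linarith)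
    have hcon : ContractingWith (1 / 4) (hmaps.restrict _ _ _) := by
      refine ⟨by rw [← NNReal.coe_lt_coe]; norm_num, ?_⟩
      refine LipschitzWith.of_dist_le_mul ?_
      rintro ⟨x, hx⟩ ⟨x', hx'⟩
      rw [Subtype.dist_eq, Subtype.dist_eq]
      simp only [MapsTo.val_restrict_apply, dist_eq_norm]
      have e : -(G x - x) - -(G x' - x') = -((G x - x) - (G x' - x')) := by ring
      rw [e, norm_neg]
      have := hlip x (closedBall_subset_closedBall (by linarith) hx) x'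
        (closedBall_subset_closedBall (by linarith) hx')
      simpa using this
    obtain ⟨y, hy, hfix, -⟩ := hcon.exists_fixedPoint' isClosed_closedBall.isComplete hmaps
      (x := 0) (by simpa using hε0) (edist_ne_top _ _)
    refine ⟨y, by simpa using hy, ?_⟩
    have h2 : -(G y - y) = y := hfix
    linear_combination -h2
  · intro x hx x' hx' h
    have h1 := hlip x hx x' hx'
    have e : (G x - x) - (G x' - x') = -(x - x') := by rw [h]; ring
    rw [e, norm_neg] at h1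
    have h2 : ‖x - x'‖ = 0 := by
      have := norm_nonneg (x - x')
      linarith
    exact sub_eq_zero.1 (norm_eq_zero.1 h2)
  · intro x hx h
    have h1 := hder x hx
    have h2 : deriv (fun t => G t - t) x = deriv G x - 1 := by
      rw [deriv_fun_sub (hd x hx) differentiableAt_fun_id]
      simp
    rw [h2, h] at h1
    simp at h1
    norm_num at h1

theorem mem_Yq {y : ℂ} (hy : ‖y‖ < 1 / 100) : y ∈ Yq := by
  have h1 := abs_re_le_norm y
  have h2 := abs_im_le_norm y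
  have h3 := Real.pi_pos
  refine ⟨by linarith, ?_, ?_⟩
  · have := neg_abs_le y.im
    linarith
  · have := le_abs_self y.im
    linarith

theorem mem_Dom {x y : ℂ} (hx : ‖x‖ < 4) (hy : ‖y‖ < 1 / 100) : (x, y) ∈ Dom :=
  ⟨hx, Yq_subset_Yr (mem_Yq hy)⟩

theorem h_lower {x y : ℂ} (hx : ‖x‖ < 2 / 5) (hy : ‖y‖ < 1 / 100) :
    1 / 3 ≤ ‖(x - 1) * (x - exp y)‖ := by
  have h1 : 3 / 5 ≤ ‖x - 1‖ := by
    have h := norm_sub_norm_le (1 : ℂ) x
    rw [norm_one, norm_sub_rev] at h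
    linarith
  have h2 : 14 / 25 ≤ ‖x - exp y‖ := by
    have h3 : ‖exp y - 1‖ ≤ 2 * ‖y‖ := Complex.norm_exp_sub_one_le (by linarith)
    have h4 : ‖(1 : ℂ)‖ ≤ ‖exp y - 1‖ + ‖exp y - x‖ + ‖x‖ := by
      calc ‖(1 : ℂ)‖ = ‖-(exp y - 1) + (exp y - x) + x‖ := by ring_nf
        _ ≤ ‖-(exp y - 1) + (exp y - x)‖ + ‖x‖ := norm_add_le _ _
        _ ≤ ‖-(exp y - 1)‖ + ‖exp y - x‖ + ‖x‖ := by gcongr; exact norm_add_le _ _
        _ = _ := by rw [norm_neg]
    rw [norm_one] at h4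
    rw [norm_sub_rev x]
    linarith
  rw [norm_mul]
  nlinarith

theorem slice1 {f : ℂ → ℂ → ℂ} {U : Set (ℂ × ℂ)} (hf : Hol2 f U) {y : ℂ} {s : Set ℂ}
    (h : ∀ x ∈ s, (x, y) ∈ U) : DifferentiableOn ℂ (fun x => f x y) s := by
  have h1 : DifferentiableOn ℂ (fun x : ℂ => (x, y)) s :=
    (differentiable_id.prodMk (differentiable_const y)).differentiableOn
  exact DifferentiableOn.comp (g := fun p : ℂ × ℂ => f p.1 p.2) hf h1 h

/-- `jC / h` is near the identity -/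
theorem G_props {a b c : ℂ → ℂ → ℂ → ℂ} {φ : ℂ → ℂ → ℂ} {δ : ℝ} (hG : Good a b c φ δ)
    (hδ : δ ≤ 1 / 1000) {y : ℂ} (hy : ‖y‖ < 1 / 100) :
    (∃ x0, ‖x0‖ ≤ 3 * δ ∧ jC c φ x0 y = 0) ∧
    (∀ x ∈ closedBall (0 : ℂ) (8 / 25), ∀ x' ∈ closedBall (0 : ℂ) (8 / 25),
      jC c φ x y = 0 → jC c φ x' y = 0 → x = x') ∧
    ∀ x ∈ closedBall (0 : ℂ) (8 / 25), jC c φ x y = 0 → d1 (jC c φ) x y ≠ 0 := by
  have hJ : Hol2 (jC c φ) Dom := comp3 hG.near.hc hG.leaf.hol
  have hJ1 : DifferentiableOn ℂ (fun x => jC c φ x y) (ball 0 (2 / 5)) :=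
    slice1 hJ (fun x hx => mem_Dom (by rw [mem_ball_zero_iff] at hx; linarith) hy)
  have hh0 : ∀ x ∈ ball (0 : ℂ) (2 / 5), (x - 1) * (x - exp y) ≠ 0 := by
    intro x hx h
    have := h_lower (by simpa using hx) hy
    rw [h, norm_zero] at this
    norm_num at this
  have hh1 : DifferentiableOn ℂ (fun x : ℂ => (x - 1) * (x - exp y)) (ball 0 (2 / 5)) := by
    fun_prop
  set G : ℂ → ℂ := fun x => jC c φ x y / ((x - 1) * (x - exp y)) with hGdef
  have hGd : DifferentiableOn ℂ G (ball 0 (2 / 5)) := hJ1.div hh1 hh0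
  have hδ0 : 0 ≤ δ := (norm_nonneg _).trans (hG.near.nc 0 0 0 (by norm_num) (by norm_num) (by norm_num))
  have hb : ∀ x ∈ ball (0 : ℂ) (2 / 5), ‖G x - x‖ ≤ 3 * δ := by
    intro x hx
    have hx' : ‖x‖ < 2 / 5 := by simpa using hx
    have e : G x - x = (jC c φ x y - x * ((x - 1) * (x - exp y))) / ((x - 1) * (x - exp y)) := by
      rw [hGdef, sub_div, mul_div_cancel_right₀ _ (hh0 x hx)]
    have h1 : ‖jC c φ x y - x * ((x - 1) * (x - exp y))‖ ≤ δ := by
      have hsm := hG.leaf.small x y (mem_Dom (by linarith) hy)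
      have := hG.near.nc x y (φ x y) (by linarith) (by linarith) (by linarith)
      simpa [jC, c0, hh] using this
    rw [e, norm_div, div_le_iff₀ (by have := h_lower hx' hy; linarith)]
    have := h_lower hx' hy
    nlinarith
  obtain ⟨⟨x0, hx0, hx0'⟩, hinj, hder⟩ := near_id (by linarith) hGd hb
  have key : ∀ x ∈ ball (0 : ℂ) (2 / 5), jC c φ x y = 0 ↔ G x = 0 := by
    intro x hx
    rw [hGdef]
    simp only [div_eq_zero_iff]
    constructor
    · exact Or.inl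
    · rintro (h | h)
      · exact h
      · exact absurd h (hh0 x hx)
  have hsub : ∀ x ∈ closedBall (0 : ℂ) (8 / 25), x ∈ ball (0 : ℂ) (2 / 5) := fun x hx =>
    closedBall_subset_ball (by norm_num) hx
  refine ⟨⟨x0, hx0, ?_⟩, ?_, ?_⟩
  · exact (key x0 (by rw [mem_ball_zero_iff]; linarith)).2 hx0'
  · intro x hx x' hx' h h'
    exact hinj x hx x' hx' (by rw [(key x (hsub x hx)).1 h, (key x' (hsub x' hx')).1 h'])
  · intro x hx h
    have hG0 := (key x (hsub x hx)).1 h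
    have hmem : ball (0 : ℂ) (2 / 5) ∈ 𝓝 x := isOpen_ball.mem_nhds (hsub x hx)
    have e : (fun x => jC c φ x y) =ᶠ[𝓝 x] fun x => G x * ((x - 1) * (x - exp y)) := by
      filter_upwards [hmem] with t ht
      rw [hGdef]
      exact (div_mul_cancel₀ _ (hh0 t ht)).symm
    have h1 : d1 (jC c φ) x y = deriv G x * ((x - 1) * (x - exp y)) := by
      rw [H583_Fol.d1, e.deriv_eq]
      rw [deriv_fun_mul (hGd.differentiableAt hmem) (hh1.differentiableAt hmem), hG0]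
      ring
    rw [h1]
    exact mul_ne_zero (hder x hx) (hh0 x (hsub x hx))

/-- the residue of `β₁` -/
theorem nu_eq {a b c : ℂ → ℂ → ℂ → ℂ} {φ : ℂ → ℂ → ℂ} {δ : ℝ} {ν' : ℂ} (hG : Good a b c φ δ)
    (hδ : δ ≤ 1 / 1000)
    (hν : ∀ y ∈ Yq, (∮ x in C(0, 8 / 25), jN1 a c φ x y / jC c φ x y) = 2 * Real.pi * I * ν')
    {x y : ℂ} (hx : ‖x‖ < 8 / 25) (hy : ‖y‖ < 1 / 100) (h0 : jC c φ x y = 0) :
    jN1 a c φ x y = ν' * d1 (jC c φ) x y := by
  obtain ⟨-, hinj, hder⟩ := G_props hG hδ hy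
  have hxc : x ∈ closedBall (0 : ℂ) (8 / 25) := by rw [mem_closedBall_zero_iff]; exact hx.le
  have hJ : Hol2 (jC c φ) Dom := comp3 hG.near.hc hG.leaf.hol
  have hN : Hol2 (jN1 a c φ) Dom := by
    have h1 : Hol2 (fun x y => D3 a x y (φ x y)) Dom :=
      comp3 (Hol3.D3 isOpen_univ hG.near.ha) hG.leaf.hol
    have h2 : Hol2 (fun x y => D3 c x y (φ x y)) Dom :=
      comp3 (Hol3.D3 isOpen_univ hG.near.hc) hG.leaf.hol
    have h3 : Hol2 (H583_Fol.d1 φ) Dom := Hol2.d1 isOpen_Dom hG.leaf.hol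
    exact DifferentiableOn.add h1 (DifferentiableOn.mul h2 h3)
  have hD : ∀ x ∈ ball (0 : ℂ) 4, (x, y) ∈ Dom := fun x hx => mem_Dom (by simpa using hx) hy
  have h1 := residue_simple (f := fun x => jN1 a c φ x y) (g := fun x => jC c φ x y)
    (R := 8 / 25) (R' := 4) (x0 := x) (by norm_num) (by rw [mem_ball_zero_iff]; exact hx)
    ((slice1 hN hD).mono (closedBall_subset_ball (by norm_num))) (slice1 hJ hD) h0
    (hder x hxc h0) (fun x' hx' h => hinj x' hx' x hxc h h0)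
  rw [hν y (mem_Yq hy)] at h1
  have h2 : (2 * Real.pi * I : ℂ) ≠ 0 := by
    simp [Real.pi_ne_zero]
  have h3 := mul_left_cancel₀ h2 h1
  have h4 : deriv (fun x => jC c φ x y) x ≠ 0 := hder x hxc h0
  rw [h3]
  change _ = _ / deriv (fun x => jC c φ x y) x * deriv (fun x => jC c φ x y) x
  rw [div_mul_cancel₀ _ h4]

theorem sliceD1 {f : ℂ → ℂ → ℂ → ℂ} (hf : Hol3 f univ) (x y v : ℂ) :
    DifferentiableAt ℂ (fun t => f t y v) x := by
  have h1 : DifferentiableAt ℂ (fun t : ℂ => (t, y, v)) x := by fun_prop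
  have h2 : Differentiable ℂ (fun p : ℂ × ℂ × ℂ => f p.1 p.2.1 p.2.2) :=
    differentiableOn_univ.1 hf
  exact DifferentiableAt.comp x (g := fun p : ℂ × ℂ × ℂ => f p.1 p.2.1 p.2.2) (h2 _) h1

theorem sliceD3 {f : ℂ → ℂ → ℂ → ℂ} (hf : Hol3 f univ) (x y v : ℂ) :
    DifferentiableAt ℂ (fun t => f x y t) v := by
  have h1 : DifferentiableAt ℂ (fun t : ℂ => (x, y, t)) v := by fun_prop
  have h2 : Differentiable ℂ (fun p : ℂ × ℂ × ℂ => f p.1 p.2.1 p.2.2) :=
    differentiableOn_univ.1 hf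
  exact DifferentiableAt.comp v (g := fun p : ℂ × ℂ × ℂ => f p.1 p.2.1 p.2.2) (h2 _) h1

theorem hol_a0 : Hol3 a0 univ := by
  unfold Hol3 a0 hh
  fun_prop

theorem hol_c0 : Hol3 c0 univ := by
  unfold Hol3 c0 hh
  fun_prop

theorem D3_a0 (x v : ℂ) : D3 a0 x 0 v = nu * (x - 1) ^ 2 + 6 * v * x * (x - 1) := by
  have h : HasDerivAt (fun t : ℂ => a0 x 0 t) (nu * (x - 1) ^ 2 + 6 * v * x * (x - 1)) v := by
    have h1 : HasDerivAt (fun t : ℂ => nu * t * ((x - 1) * (x - 1)) +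
        t ^ 2 * x * (2 * (x - 1) + (x - 1)))
        (nu * 1 * ((x - 1) * (x - 1)) + (((2 : ℕ) : ℂ) * v ^ (2 - 1) * 1) * x *
          (2 * (x - 1) + (x - 1))) v :=
      (((hasDerivAt_id v).const_mul nu).mul_const _).add
        (((((hasDerivAt_id v).pow 2)).mul_const x).mul_const _)
    convert h1 using 1
    · funext t
      simp [a0, hh]
    · push_cast
      ring
  exact h.deriv

theorem D1_c0 (x v : ℂ) : D1 c0 x 0 v = (x - 1) ^ 2 + 2 * x * (x - 1) := by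
  have h : HasDerivAt (fun t : ℂ => c0 t 0 v) ((x - 1) ^ 2 + 2 * x * (x - 1)) x := by
    have h1 : HasDerivAt (fun t : ℂ => t * ((t - 1) * (t - 1)))
        (1 * ((x - 1) * (x - 1)) + x * (1 * (x - 1) + (x - 1) * 1)) x :=
      (hasDerivAt_id x).mul (((hasDerivAt_id x).sub_const 1).mul ((hasDerivAt_id x).sub_const 1))
    convert h1 using 1
    · funext t
      simp [c0, hh]
    · ring
  exact h.deriv

theorem D3_c0 (x y v : ℂ) : D3 c0 x y v = 0 := by
  unfold H583_Fol.D3 c0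
  exact deriv_const _ _

theorem norm_nu : 7 / 5 ≤ ‖nu‖ := by
  have h : ‖nu‖ ^ 2 = 2 := by
    rw [← Complex.normSq_eq_norm_sq, Complex.normSq_apply]
    simp [nu]
    norm_num
  nlinarith [norm_nonneg nu]

theorem norm_nu1 : 2 ≤ ‖1 + nu‖ := by
  have h := abs_re_le_norm (1 + nu)
  have h1 : (1 + nu).re = 2 := by
    simp [nu]
    norm_num
  rw [h1] at h
  simpa using h

/-- two nonvanishing quantities at the point `p` -/
theorem nonvan {a b c : ℂ → ℂ → ℂ → ℂ} {φ : ℂ → ℂ → ℂ} {δ : ℝ} (hG : Good a b c φ δ)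
    (hδ : δ ≤ 1 / 1000) {x : ℂ} (hx : ‖x‖ ≤ 3 * δ) :
    jN1 a c φ x 0 ≠ 0 ∧ D1 c x 0 (φ x 0) + D3 a x 0 (φ x 0) ≠ 0 := by
  have hδ0 : 0 ≤ δ := (norm_nonneg _).trans (hG.near.nc 0 0 0 (by norm_num) (by norm_num) (by norm_num))
  set v := φ x 0 with hv
  have hx4 : ‖x‖ < 1 / 4 := by linarith
  have hvs : ‖v‖ ≤ δ := hG.leaf.small x 0 (mem_Dom (by linarith) (by norm_num))
  have hm : ‖d1 φ x 0‖ ≤ δ := by
    have hsub : ∀ t ∈ ball x 1, (t, (0 : ℂ)) ∈ Dom := by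
      intro t ht
      refine mem_Dom ?_ (by norm_num)
      rw [mem_ball, dist_eq_norm] at ht
      have := norm_sub_norm_le t x
      linarith
    have := cauchy_d1 (f := φ) (x := x) (y := 0) (r := 1) (M := δ) one_pos
      (slice1 hG.leaf.hol hsub) (fun t ht => hG.leaf.small t 0 (hsub t ht))
    simpa using this
  have hA3 : ‖D3 a x 0 v - D3 a0 x 0 v‖ ≤ δ := by
    have h1 := cauchy_D3 (f := fun x y v => a x y v - a0 x y v) (R := 9) (δ := δ)
      (DifferentiableOn.sub hG.near.ha hol_a0) hG.near.na x 0 v (by linarith) (by norm_num)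
      (by linarith)
    have e : D3 (fun x y v => a x y v - a0 x y v) x 0 v = D3 a x 0 v - D3 a0 x 0 v :=
      deriv_fun_sub (sliceD3 hG.near.ha x 0 v) (sliceD3 hol_a0 x 0 v)
    rwa [e] at h1
  have hC3 : ‖D3 c x 0 v‖ ≤ δ := by
    have h1 := cauchy_D3 (f := fun x y v => c x y v - c0 x y v) (R := 9) (δ := δ)
      (DifferentiableOn.sub hG.near.hc hol_c0) hG.near.nc x 0 v (by linarith) (by norm_num)
      (by linarith)
    have e : D3 (fun x y v => c x y v - c0 x y v) x 0 v = D3 c x 0 v - D3 c0 x 0 v :=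
      deriv_fun_sub (sliceD3 hG.near.hc x 0 v) (sliceD3 hol_c0 x 0 v)
    rwa [e, D3_c0, sub_zero] at h1
  have hC1 : ‖D1 c x 0 v - D1 c0 x 0 v‖ ≤ δ := by
    have h1 := cauchy_D1 (f := fun x y v => c x y v - c0 x y v) (R := 9) (δ := δ)
      (DifferentiableOn.sub hG.near.hc hol_c0) hG.near.nc x 0 v (by linarith) (by norm_num)
      (by linarith)
    have e : D1 (fun x y v => c x y v - c0 x y v) x 0 v = D1 c x 0 v - D1 c0 x 0 v :=
      deriv_fun_sub (sliceD1 hG.near.hc x 0 v) (sliceD1 hol_c0 x 0 v)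
    rwa [e] at h1
  rw [D3_a0] at hA3
  rw [D1_c0] at hC1
  have hx1 : 99 / 100 ≤ ‖x - 1‖ := by
    have h := norm_sub_norm_le (1 : ℂ) x
    rw [norm_one, norm_sub_rev] at h
    linarith
  have hx2 : ‖x - 1‖ ≤ 2 := by
    have h := norm_sub_le x 1
    rw [norm_one] at h
    linarith
  have hsq : 49 / 50 ≤ ‖x - 1‖ ^ 2 := by nlinarith
  have hvx : ‖6 * v * x * (x - 1)‖ ≤ 1 / 100 := by
    rw [norm_mul, norm_mul, norm_mul]
    have : ‖(6 : ℂ)‖ = 6 := by norm_num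
    rw [this]
    calc 6 * ‖v‖ * ‖x‖ * ‖x - 1‖ ≤ 6 * (1 / 1000) * (3 / 1000) * 2 := by
          gcongr <;> linarith
      _ ≤ 1 / 100 := by norm_num
  have h2x : ‖2 * x * (x - 1)‖ ≤ 1 / 50 := by
    rw [norm_mul, norm_mul]
    have : ‖(2 : ℂ)‖ = 2 := by norm_num
    rw [this]
    calc 2 * ‖x‖ * ‖x - 1‖ ≤ 2 * (3 / 1000) * 2 := by
          gcongr; linarith
      _ ≤ 1 / 50 := by norm_num
  constructor
  · intro h
    have h1 : D3 a x 0 v + D3 c x 0 v * d1 φ x 0 = 0 := h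
    have e : nu * (x - 1) ^ 2 = -(D3 a x 0 v - (nu * (x - 1) ^ 2 + 6 * v * x * (x - 1))) -
        6 * v * x * (x - 1) - D3 c x 0 v * d1 φ x 0 := by
      linear_combination h1
    have h2 : ‖nu * (x - 1) ^ 2‖ ≤ δ + 1 / 100 + δ * δ := by
      rw [e]
      refine (norm_sub_le _ _).trans (add_le_add ((norm_sub_le _ _).trans (add_le_add ?_ hvx)) ?_)
      · rw [norm_neg]; exact hA3
      · rw [norm_mul]
        exact mul_le_mul hC3 hm (norm_nonneg _) hδ0
    rw [norm_mul, norm_pow] at h2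
    have := norm_nu
    nlinarith
  · intro h
    have e : (1 + nu) * (x - 1) ^ 2 = -(D3 a x 0 v - (nu * (x - 1) ^ 2 + 6 * v * x * (x - 1))) -
        6 * v * x * (x - 1) - (D1 c x 0 v - ((x - 1) ^ 2 + 2 * x * (x - 1))) -
        2 * x * (x - 1) := by
      linear_combination h
    have h2 : ‖(1 + nu) * (x - 1) ^ 2‖ ≤ δ + 1 / 100 + δ + 1 / 50 := by
      rw [e]
      refine (norm_sub_le _ _).trans (add_le_add ((norm_sub_le _ _).trans
        (add_le_add ((norm_sub_le _ _).trans (add_le_add ?_ hvx)) hC1)) h2x)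
      rw [norm_neg]; exact hA3
    rw [norm_mul, norm_pow] at h2
    have := norm_nu1
    nlinarith

end P11

/-- last paragraph of section 4 of the paper (uses T0) -/
theorem atD : ∃ δ > 0, ∀ (a b c : ℂ → ℂ → ℂ → ℂ) (φ : ℂ → ℂ → ℂ) (ν' : ℂ), Good a b c φ δ →
    (∀ y ∈ Yq, (∮ x in C(0, 8 / 25), jN1 a c φ x y / jC c φ x y) = 2 * Real.pi * I * ν') →
    ∃ p, AtD a b c ν' p := by
  refine ⟨1 / 1000, by norm_num, ?_⟩
  intro a b c φ ν' hG hν
  obtain ⟨⟨x0, hx0, hz0⟩, -, -⟩ := P11.G_props hG le_rfl (y := 0) (by norm_num)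
  obtain ⟨hn1, hn2⟩ := P11.nonvan hG le_rfl hx0
  have hx0' : ‖x0‖ < 8 / 25 := by linarith
  have hD0 : (x0, (0 : ℂ)) ∈ Dom := P11.mem_Dom (by linarith) (by norm_num)
  refine ⟨(x0, 0, φ x0 0), ⟨?_, ?_, ?_⟩, ?_⟩
  · have h := hG.leaf.ex x0 0 hD0
    have hz : c x0 0 (φ x0 0) = 0 := hz0
    rw [hz, zero_mul, zero_add] at h
    exact h
  · have h := hG.leaf.ey x0 0 hD0
    have hz : c x0 0 (φ x0 0) = 0 := hz0
    rw [hz, zero_mul, zero_add] at h
    exact h
  · exact hz0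
  -- continuity facts
  have ca : Continuous (fun q : ℂ × ℂ × ℂ => D3 a q.1 q.2.1 q.2.2) :=
    (differentiableOn_univ.1 (Hol3.D3 isOpen_univ hG.near.ha)).continuous
  have cc : Continuous (fun q : ℂ × ℂ × ℂ => D3 c q.1 q.2.1 q.2.2) :=
    (differentiableOn_univ.1 (Hol3.D3 isOpen_univ hG.near.hc)).continuous
  have cc1 : Continuous (fun q : ℂ × ℂ × ℂ => D1 c q.1 q.2.1 q.2.2) :=
    (differentiableOn_univ.1 (Hol3.D1 isOpen_univ hG.near.hc)).continuous
  have cφ : ContinuousAt (fun p : ℂ × ℂ => φ p.1 p.2) (x0, 0) :=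
    (DifferentiableOn.differentiableAt hG.leaf.hol (isOpen_Dom.mem_nhds hD0)).continuousAt
  have cφ1 : ContinuousAt (fun p : ℂ × ℂ => H583_Fol.d1 φ p.1 p.2) (x0, 0) :=
    (DifferentiableOn.differentiableAt (Hol2.d1 isOpen_Dom hG.leaf.hol)
      (isOpen_Dom.mem_nhds hD0)).continuousAt
  have cpr : ContinuousAt (fun q : ℂ × ℂ × ℂ => (q.1, q.2.1)) (x0, 0, φ x0 0) := by fun_prop
  -- the derivative in `v`
  set s0 := jN1 a c φ x0 0 with hs0
  have hs0pos : 0 < ‖s0‖ := norm_pos_iff.2 hn1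
  have cΨ : ContinuousAt (fun r : ℂ × ℂ × ℂ × ℂ => D3 a r.1 r.2.1 r.2.2.1 +
      D3 c r.1 r.2.1 r.2.2.1 * r.2.2.2) (x0, 0, φ x0 0, H583_Fol.d1 φ x0 0) := by
    have e1 : Continuous (fun r : ℂ × ℂ × ℂ × ℂ => D3 a r.1 r.2.1 r.2.2.1) :=
      ca.comp (by fun_prop : Continuous fun r : ℂ × ℂ × ℂ × ℂ => (r.1, r.2.1, r.2.2.1))
    have e2 : Continuous (fun r : ℂ × ℂ × ℂ × ℂ => D3 c r.1 r.2.1 r.2.2.1) :=
      cc.comp (by fun_prop : Continuous fun r : ℂ × ℂ × ℂ × ℂ => (r.1, r.2.1, r.2.2.1))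
    exact (e1.add (e2.mul (by fun_prop))).continuousAt
  obtain ⟨ε, hε, hΨ⟩ := Metric.continuousAt_iff.1 cΨ (‖s0‖ / 2) (by positivity)
  have E1 : ∀ᶠ q : ℂ × ℂ × ℂ in 𝓝 (x0, 0, φ x0 0), ‖q.1‖ < 8 / 25 := by
    have : ContinuousAt (fun q : ℂ × ℂ × ℂ => ‖q.1‖) (x0, 0, φ x0 0) := by fun_prop
    exact this.eventually_lt continuousAt_const hx0'
  have E2 : ∀ᶠ q : ℂ × ℂ × ℂ in 𝓝 (x0, 0, φ x0 0), ‖q.2.1‖ < 1 / 100 := by
    have : ContinuousAt (fun q : ℂ × ℂ × ℂ => ‖q.2.1‖) (x0, 0, φ x0 0) := by fun_prop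
    exact this.eventually_lt continuousAt_const (by simp)
  have E3 : ∀ᶠ q : ℂ × ℂ × ℂ in 𝓝 (x0, 0, φ x0 0),
      D1 c q.1 q.2.1 q.2.2 + D3 a q.1 q.2.1 q.2.2 ≠ 0 :=
    (cc1.add ca).continuousAt.eventually_ne hn2
  have E4 : ∀ᶠ q : ℂ × ℂ × ℂ in 𝓝 (x0, 0, φ x0 0), dist q.1 x0 < ε := by
    have : ContinuousAt (fun q : ℂ × ℂ × ℂ => dist q.1 x0) (x0, 0, φ x0 0) := by fun_prop
    exact this.eventually_lt continuousAt_const (by simpa using hε)
  have E5 : ∀ᶠ q : ℂ × ℂ × ℂ in 𝓝 (x0, 0, φ x0 0), dist q.2.1 0 < ε := by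
    have : ContinuousAt (fun q : ℂ × ℂ × ℂ => dist q.2.1 0) (x0, 0, φ x0 0) := by fun_prop
    exact this.eventually_lt continuousAt_const (by simpa using hε)
  have E6 : ∀ᶠ q : ℂ × ℂ × ℂ in 𝓝 (x0, 0, φ x0 0), dist q.2.2 (φ x0 0) < ε := by
    have : ContinuousAt (fun q : ℂ × ℂ × ℂ => dist q.2.2 (φ x0 0)) (x0, 0, φ x0 0) := by fun_prop
    exact this.eventually_lt continuousAt_const (by simpa using hε)
  have E7 : ∀ᶠ q : ℂ × ℂ × ℂ in 𝓝 (x0, 0, φ x0 0), dist (φ q.1 q.2.1) (φ x0 0) < ε := by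
    have h1 : ContinuousAt (fun q : ℂ × ℂ × ℂ => φ q.1 q.2.1) (x0, 0, φ x0 0) :=
      ContinuousAt.comp (x := (x0, 0, φ x0 0)) (f := fun q : ℂ × ℂ × ℂ => (q.1, q.2.1))
        (g := fun p : ℂ × ℂ => φ p.1 p.2) cφ cpr
    have h2 : ContinuousAt (fun q : ℂ × ℂ × ℂ => dist (φ q.1 q.2.1) (φ x0 0)) (x0, 0, φ x0 0) :=
      h1.dist continuousAt_const
    exact h2.eventually_lt continuousAt_const (by simpa using hε)
  have E8 : ∀ᶠ q : ℂ × ℂ × ℂ in 𝓝 (x0, 0, φ x0 0),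
      dist (H583_Fol.d1 φ q.1 q.2.1) (H583_Fol.d1 φ x0 0) < ε := by
    have h1 : ContinuousAt (fun q : ℂ × ℂ × ℂ => H583_Fol.d1 φ q.1 q.2.1) (x0, 0, φ x0 0) :=
      ContinuousAt.comp (x := (x0, 0, φ x0 0)) (f := fun q : ℂ × ℂ × ℂ => (q.1, q.2.1))
        (g := fun p : ℂ × ℂ => H583_Fol.d1 φ p.1 p.2) cφ1 cpr
    have h2 : ContinuousAt (fun q : ℂ × ℂ × ℂ => dist (H583_Fol.d1 φ q.1 q.2.1)
        (H583_Fol.d1 φ x0 0)) (x0, 0, φ x0 0) := h1.dist continuousAt_const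
    exact h2.eventually_lt continuousAt_const (by simpa using hε)
  filter_upwards [E1, E2, E3, E4, E5, E6, E7, E8] with q h1 h2 h3 h4 h5 h6 h7 h8 hq
  obtain ⟨x, y, v⟩ := q
  obtain ⟨qa, qb, qc⟩ := hq
  simp only at h1 h2 h3 h4 h5 h6 h7 h8 qa qb qc ⊢
  have hD : (x, y) ∈ Dom := P11.mem_Dom (by linarith) h2
  set m := H583_Fol.d1 φ x y with hm
  -- `v = φ x y`
  have hvφ : v = φ x y := by
    have hder : ∀ t ∈ ball (φ x0 0) ε,
        HasDerivWithinAt (fun t => a x y t + c x y t * m - s0 * t)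
          (D3 a x y t + D3 c x y t * m - s0) (ball (φ x0 0) ε) t := by
      intro t _
      have e1 : HasDerivAt (fun t => a x y t) (D3 a x y t) t :=
        (P11.sliceD3 hG.near.ha x y t).hasDerivAt
      have e2 : HasDerivAt (fun t => c x y t) (D3 c x y t) t :=
        (P11.sliceD3 hG.near.hc x y t).hasDerivAt
      have e3 : HasDerivAt (fun t : ℂ => s0 * t) s0 t := by
        simpa using (hasDerivAt_id t).const_mul s0
      exact ((e1.add (e2.mul_const m)).sub e3).hasDerivWithinAt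
    have hbd : ∀ t ∈ ball (φ x0 0) ε, ‖D3 a x y t + D3 c x y t * m - s0‖ ≤ ‖s0‖ / 2 := by
      intro t ht
      have := hΨ (x := (x, y, t, m)) (by
        simp only [Prod.dist_eq, sup_lt_iff]
        exact ⟨h4, h5, ht, h8⟩)
      rw [dist_eq_norm] at this
      exact this.le
    have hm1 := (convex_ball (φ x0 0) ε).norm_image_sub_le_of_norm_hasDerivWithin_le hder hbd
      (x := φ x y) (y := v) h7 h6
    have hA : a x y (φ x y) + c x y (φ x y) * m = 0 := by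
      have := hG.leaf.ex x y hD
      linear_combination this
    rw [qa, qc, hA] at hm1
    have e : (0 : ℂ) + 0 * m - s0 * v - (0 - s0 * φ x y) = -(s0 * (v - φ x y)) := by ring
    rw [e, norm_neg, norm_mul] at hm1
    have h9 : ‖v - φ x y‖ = 0 := by
      have := norm_nonneg (v - φ x y)
      by_contra hne
      have hpos : 0 < ‖v - φ x y‖ := lt_of_le_of_ne this (Ne.symm hne)
      nlinarith [mul_pos hs0pos hpos]
    exact sub_eq_zero.1 (norm_eq_zero.1 h9)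
  subst hvφ
  have hz : jC c φ x y = 0 := qc
  have hxc : x ∈ closedBall (0 : ℂ) (8 / 25) := by rw [mem_closedBall_zero_iff]; exact h1.le
  have hdne := (P11.G_props hG le_rfl h2).2.2 x hxc hz
  have hν1 := P11.nu_eq hG le_rfl hν h1 h2 hz
  have hd1 : H583_Fol.d1 (jC c φ) x y = D1 c x y (φ x y) + D3 c x y (φ x y) * m :=
    d1_comp3 hG.near.hc isOpen_Dom hG.leaf.hol hD
  rw [hd1] at hdne hν1
  refine ⟨m, ?_, hν1, hdne, h3⟩
  -- the derivative of the equation of the leaf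
  have hDn : Dom ∈ 𝓝 (x, y) := isOpen_Dom.mem_nhds hD
  have hc1 : ContinuousAt (fun t : ℂ => (t, y)) x := by fun_prop
  have hE : (fun t => jC c φ t y * H583_Fol.d1 φ t y + a t y (φ t y)) =ᶠ[𝓝 x] fun _ => 0 := by
    have := hc1.preimage_mem_nhds hDn
    filter_upwards [this] with t ht
    exact hG.leaf.ex t y ht
  have hE1 := hE.deriv_eq
  rw [deriv_const] at hE1
  have s1 : DifferentiableAt ℂ (fun t => jC c φ t y) x :=
    (P11.slice1 (s := {t | (t, y) ∈ Dom}) (comp3 hG.near.hc hG.leaf.hol) (fun _ h => h)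
      ).differentiableAt (hc1.preimage_mem_nhds hDn)
  have s2 : DifferentiableAt ℂ (fun t => H583_Fol.d1 φ t y) x :=
    (P11.slice1 (s := {t | (t, y) ∈ Dom}) (Hol2.d1 isOpen_Dom hG.leaf.hol) (fun _ h => h)
      ).differentiableAt (hc1.preimage_mem_nhds hDn)
  have s3 : DifferentiableAt ℂ (fun t => a t y (φ t y)) x :=
    (P11.slice1 (f := fun x y => a x y (φ x y)) (s := {t | (t, y) ∈ Dom})
      (comp3 hG.near.ha hG.leaf.hol) (fun _ h => h)
      ).differentiableAt (hc1.preimage_mem_nhds hDn)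
  rw [deriv_fun_add (s1.fun_mul s2) s3, deriv_fun_mul s1 s2, hz, zero_mul, add_zero] at hE1
  have t1 : deriv (fun t => jC c φ t y) x = D1 c x y (φ x y) + D3 c x y (φ x y) * m := hd1
  have t2 : deriv (fun t => a t y (φ t y)) x = D1 a x y (φ x y) + D3 a x y (φ x y) * m :=
    d1_comp3 hG.near.ha isOpen_Dom hG.leaf.hol hD
  rw [t1, t2] at hE1
  linear_combination hE1

end Pool.Agent.H583_Fol
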