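import Pool.Agent.H583_Fol.Defs
import Pool.Agent.H699R2.Spec

/-!
# Density of the algebraic points of an algebraic set

From the approximation of real points by real algebraic specialisations (`H699R2.good_mv`).
-/

set_option autoImplicit false

namespace Pool.Agent.H583_Fol

open Complex Set Metric Filter Topology

namespace P12

open Pool.Agent.H699R2 (RAlg good_mv good_equiv)

theorem re_alg {c : ℂ} (hc : IsAlgebraic ℚ c) : IsAlgebraic ℚ c.re := by
  have h1 : IsAlgebraic ℚ ((starRingEnd ℂ) c) :=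
    IsAlgebraic.algHom ((Complex.conjAe.restrictScalars ℚ : ℂ ≃ₐ[ℚ] ℂ) : ℂ →ₐ[ℚ] ℂ) hc
  have h2 : IsAlgebraic ℚ (c + (starRingEnd ℂ) c) := hc.add h1
  have h3 : IsAlgebraic ℚ (((1 / 2 : ℚ)) • (c + (starRingEnd ℂ) c)) := h2.smul _
  have h4 : (((1 / 2 : ℚ)) • (c + (starRingEnd ℂ) c)) = algebraMap ℝ ℂ c.re := by
    rw [Complex.add_conj]
    apply Complex.ext
    · simp [Algebra.smul_def]
    · simp [Algebra.smul_def]
  rw [h4] at h3
  exact (isAlgebraic_algebraMap_iff (algebraMap ℝ ℂ).injective).1 h3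

theorem I_alg : IsAlgebraic ℚ Complex.I := by
  refine ⟨Polynomial.X ^ 2 + 1, ?_, ?_⟩
  · intro h
    have := congrArg (Polynomial.eval 0) h
    simp at this
  · simp

theorem im_alg {c : ℂ} (hc : IsAlgebraic ℚ c) : IsAlgebraic ℚ c.im := by
  have h1 : IsAlgebraic ℚ (-(Complex.I * c)) := (I_alg.mul hc).neg
  have h2 := re_alg h1
  have h3 : (-(Complex.I * c)).re = c.im := by simp
  rwa [h3] at h2

/-- real and imaginary parts -/
def vv {ι : Type} (z : ι → ℂ) : ι ⊕ ι → ℝ := Sum.elim (fun i => (z i).re) (fun i => (z i).im)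

/-- functions whose real and imaginary parts are polynomials with real algebraic coefficients -/
def Rep {ι : Type} (F : (ι → ℂ) → ℂ) : Prop :=
  ∃ P Q : MvPolynomial (ι ⊕ ι) RAlg, ∀ z : ι → ℂ,
    (F z).re = MvPolynomial.aeval (vv z) P ∧ (F z).im = MvPolynomial.aeval (vv z) Q

theorem Rep.const {ι : Type} {c : ℂ} (hc : IsAlgebraic ℚ c) : Rep (fun _ : ι → ℂ => c) := by
  refine ⟨MvPolynomial.C ⟨c.re, mem_algebraicClosure_iff.2 (re_alg hc)⟩,
    MvPolynomial.C ⟨c.im, mem_algebraicClosure_iff.2 (im_alg hc)⟩, fun z => ⟨?_, ?_⟩⟩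
  · rw [MvPolynomial.aeval_C]; rfl
  · rw [MvPolynomial.aeval_C]; rfl

theorem Rep.coord {ι : Type} (i : ι) : Rep (fun z : ι → ℂ => z i) := by
  refine ⟨MvPolynomial.X (Sum.inl i), MvPolynomial.X (Sum.inr i), fun z => ⟨?_, ?_⟩⟩
  · rw [MvPolynomial.aeval_X]; rfl
  · rw [MvPolynomial.aeval_X]; rfl

theorem Rep.add {ι : Type} {F G : (ι → ℂ) → ℂ} (hF : Rep F) (hG : Rep G) :
    Rep (fun z => F z + G z) := by
  obtain ⟨P, Q, h⟩ := hF
  obtain ⟨P', Q', h'⟩ := hG
  refine ⟨P + P', Q + Q', fun z => ⟨?_, ?_⟩⟩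
  · rw [Complex.add_re, (h z).1, (h' z).1, map_add]
  · rw [Complex.add_im, (h z).2, (h' z).2, map_add]

theorem Rep.mul {ι : Type} {F G : (ι → ℂ) → ℂ} (hF : Rep F) (hG : Rep G) :
    Rep (fun z => F z * G z) := by
  obtain ⟨P, Q, h⟩ := hF
  obtain ⟨P', Q', h'⟩ := hG
  refine ⟨P * P' - Q * Q', P * Q' + Q * P', fun z => ⟨?_, ?_⟩⟩
  · rw [Complex.mul_re, (h z).1, (h' z).1, (h z).2, (h' z).2, map_sub, map_mul, map_mul]
  · rw [Complex.mul_im, (h z).1, (h' z).1, (h z).2, (h' z).2, map_add, map_mul, map_mul]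

theorem isAlgebraic_one' : IsAlgebraic ℚ (1 : ℂ) := isAlgebraic_one

theorem Rep.pow {ι : Type} {F : (ι → ℂ) → ℂ} (hF : Rep F) (n : ℕ) : Rep (fun z => F z ^ n) := by
  induction n with
  | zero => simpa using Rep.const (ι := ι) isAlgebraic_one'
  | succ n ih => simpa only [pow_succ] using ih.mul hF

theorem Rep.sum {ι α : Type} (s : Finset α) {F : α → (ι → ℂ) → ℂ} (hF : ∀ a ∈ s, Rep (F a)) :
    Rep (fun z => ∑ a ∈ s, F a z) := by
  classical
  induction s using Finset.induction_on with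
  | empty => simpa using Rep.const (ι := ι) (c := 0) isAlgebraic_zero
  | insert a s ha ih =>
    simp only [Finset.sum_insert ha]
    exact (hF a (by simp)).add (ih fun b hb => hF b (by simp [hb]))

theorem Rep.prod {ι α : Type} (s : Finset α) {F : α → (ι → ℂ) → ℂ} (hF : ∀ a ∈ s, Rep (F a)) :
    Rep (fun z => ∏ a ∈ s, F a z) := by
  classical
  induction s using Finset.induction_on with
  | empty => simpa using Rep.const (ι := ι) isAlgebraic_one'
  | insert a s ha ih =>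
    simp only [Finset.prod_insert ha]
    exact (hF a (by simp)).mul (ih fun b hb => hF b (by simp [hb]))

theorem Rep.eval {ι : Type} (p : MvPolynomial ι ℂ)
    (hcoef : ∀ m, IsAlgebraic ℚ (MvPolynomial.coeff m p)) :
    Rep (fun z => MvPolynomial.eval z p) := by
  simp only [MvPolynomial.eval_eq]
  refine Rep.sum _ fun m _ => (Rep.const (hcoef m)).mul (Rep.prod _ fun i _ => ?_)
  exact (Rep.coord i).pow _

theorem good_sum {ι : Type} [Finite ι] (φ : MvPolynomial (ι ⊕ ι) RAlg →ₐ[RAlg] ℝ) :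
    Pool.Agent.H699R2.Good _ φ := by
  obtain ⟨n, ⟨e⟩⟩ := Finite.exists_equiv_fin (ι ⊕ ι)
  have h := good_equiv (MvPolynomial.renameEquiv RAlg e)
    (good_mv n (φ.comp (MvPolynomial.renameEquiv RAlg e).symm.toAlgHom))
  convert h using 1
  apply MvPolynomial.algHom_ext
  intro i
  simp

end P12

/-- the same over the field of algebraic numbers -/
theorem alg_dense' {ι : Type} [Finite ι] (S : Set (MvPolynomial ι ℂ)) (hS : S.Finite)
    (hcoef : ∀ p ∈ S, ∀ m, IsAlgebraic ℚ (MvPolynomial.coeff m p)) (z : ι → ℂ)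
    (hz : ∀ p ∈ S, MvPolynomial.eval z p = 0) (ε : ℝ) (hε : 0 < ε) :
    ∃ w : ι → ℂ, (∀ i, IsAlgebraic ℚ (w i)) ∧ (∀ p ∈ S, MvPolynomial.eval w p = 0) ∧
      ∀ i, ‖w i - z i‖ < ε := by
  obtain ⟨κ, l, hl, Φ, hker, hlim⟩ :=
    P12.good_sum (MvPolynomial.aeval (P12.vv z) : MvPolynomial (ι ⊕ ι) Pool.Agent.H699R2.RAlg →ₐ[_] ℝ)
  -- the points
  set W : κ → ι → ℂ := fun k i =>
    ⟨((Φ k (MvPolynomial.X (Sum.inl i)) : Pool.Agent.H699R2.RAlg) : ℝ),
      ((Φ k (MvPolynomial.X (Sum.inr i)) : Pool.Agent.H699R2.RAlg) : ℝ)⟩ with hW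
  have hWv : ∀ k (P : MvPolynomial (ι ⊕ ι) Pool.Agent.H699R2.RAlg),
      MvPolynomial.aeval (P12.vv (W k)) P = ((Φ k P : Pool.Agent.H699R2.RAlg) : ℝ) := by
    intro k P
    have h1 : (MvPolynomial.aeval (P12.vv (W k)) :
        MvPolynomial (ι ⊕ ι) Pool.Agent.H699R2.RAlg →ₐ[_] ℝ) =
        (Algebra.ofId Pool.Agent.H699R2.RAlg ℝ).comp (Φ k) := by
      apply MvPolynomial.algHom_ext
      intro s
      rcases s with s | s
      · simp only [MvPolynomial.aeval_X]; rfl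
      · simp only [MvPolynomial.aeval_X]; rfl
    rw [h1]; rfl
  have hlim2 : ∀ i, Tendsto (fun k => W k i) l (𝓝 (z i)) := by
    intro i
    have h1 := hlim (MvPolynomial.X (Sum.inl i))
    have h2 := hlim (MvPolynomial.X (Sum.inr i))
    rw [MvPolynomial.aeval_X] at h1 h2
    have h3 : Tendsto (fun k => (((Φ k (MvPolynomial.X (Sum.inl i)) : Pool.Agent.H699R2.RAlg) : ℝ) : ℂ) +
        (((Φ k (MvPolynomial.X (Sum.inr i)) : Pool.Agent.H699R2.RAlg) : ℝ) : ℂ) * I) l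
        (𝓝 (((z i).re : ℂ) + ((z i).im : ℂ) * I)) :=
      ((Complex.continuous_ofReal.tendsto _).comp h1).add
        (((Complex.continuous_ofReal.tendsto _).comp h2).mul_const I)
    rw [Complex.re_add_im] at h3
    refine h3.congr fun k => ?_
    apply Complex.ext <;> simp [hW]
  have hev : ∀ᶠ k in l, ∀ i, ‖W k i - z i‖ < ε := by
    rw [eventually_all]
    intro i
    have h1 := (hlim2 i).eventually (Metric.ball_mem_nhds (z i) hε)
    filter_upwards [h1] with k hk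
    rwa [dist_eq_norm] at hk
  obtain ⟨k, hk1, hk2⟩ := (hker.and hev).exists
  refine ⟨W k, ?_, ?_, hk2⟩
  · intro i
    have h1 : IsAlgebraic ℚ (((Φ k (MvPolynomial.X (Sum.inl i)) : Pool.Agent.H699R2.RAlg) : ℝ) : ℂ) :=
      (mem_algebraicClosure_iff.1 (Φ k (MvPolynomial.X (Sum.inl i))).2).algebraMap
    have h2 : IsAlgebraic ℚ (((Φ k (MvPolynomial.X (Sum.inr i)) : Pool.Agent.H699R2.RAlg) : ℝ) : ℂ) :=
      (mem_algebraicClosure_iff.1 (Φ k (MvPolynomial.X (Sum.inr i))).2).algebraMap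
    have h3 : W k i = (((Φ k (MvPolynomial.X (Sum.inl i)) : Pool.Agent.H699R2.RAlg) : ℝ) : ℂ) +
        (((Φ k (MvPolynomial.X (Sum.inr i)) : Pool.Agent.H699R2.RAlg) : ℝ) : ℂ) * I := by
      apply Complex.ext <;> simp [hW]
    rw [h3]
    exact h1.add (h2.mul P12.I_alg)
  · intro p hp
    obtain ⟨P, Q, h⟩ := P12.Rep.eval p (hcoef p hp)
    have h0 := h z
    simp only [hz p hp] at h0
    have e1 : Φ k P = 0 := hk1 P h0.1.symm
    have e2 : Φ k Q = 0 := hk1 Q h0.2.symm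
    have h4 := h (W k)
    rw [hWv, hWv, e1, e2] at h4
    exact Complex.ext (h4.1.trans (by simp)) (h4.2.trans (by simp))

/-- algebraic points are dense in an algebraic set defined over `ℚ` -/
theorem alg_dense {ι : Type} [Finite ι] (S : Set (MvPolynomial ι ℚ)) (hS : S.Finite) (z : ι → ℂ)
    (hz : ∀ p ∈ S, MvPolynomial.aeval z p = 0) (ε : ℝ) (hε : 0 < ε) :
    ∃ w : ι → ℂ, (∀ i, IsAlgebraic ℚ (w i)) ∧ (∀ p ∈ S, MvPolynomial.aeval w p = 0) ∧
      ∀ i, ‖w i - z i‖ < ε := by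
  have key : ∀ (w : ι → ℂ) (p : MvPolynomial ι ℚ),
      MvPolynomial.eval w (MvPolynomial.map (algebraMap ℚ ℂ) p) = MvPolynomial.aeval w p := by
    intro w p
    rw [MvPolynomial.eval_map]; rfl
  obtain ⟨w, h1, h2, h3⟩ := alg_dense' (MvPolynomial.map (algebraMap ℚ ℂ) '' S) (hS.image _)
    (by
      rintro _ ⟨p, _, rfl⟩ m
      rw [MvPolynomial.coeff_map]
      exact isAlgebraic_algebraMap _) z
    (by
      rintro _ ⟨p, hp, rfl⟩
      rw [key]; exact hz p hp) ε hε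
  exact ⟨w, h1, fun p hp => by rw [← key]; exact h2 _ ⟨p, hp, rfl⟩, h3⟩

end Pool.Agent.H583_Fol
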