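import Pool.Agent.H583_Fol.P12a

/-!
# Integrable polynomial forms with algebraic coefficients are dense
-/

set_option autoImplicit false

namespace Pool.Agent.H583_Fol

open Complex Set Metric Filter Topology

namespace P12

open MvPolynomial

/-- the integrability expression -/
noncomputable def EE {R : Type} [CommRing R] (P : Fin 3 → MvPolynomial (Fin 3) R) :
    MvPolynomial (Fin 3) R :=
  P 0 * (pderiv 1 (P 2) - pderiv 2 (P 1)) + P 1 * (pderiv 2 (P 0) - pderiv 0 (P 2)) +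
    P 2 * (pderiv 0 (P 1) - pderiv 1 (P 0))

theorem EE_map {R R' : Type} [CommRing R] [CommRing R'] (f : R →+* R')
    (P : Fin 3 → MvPolynomial (Fin 3) R) : map f (EE P) = EE (fun i => map f (P i)) := by
  simp only [EE, map_add, map_mul, map_sub, pderiv_map]

/-- polynomials with coefficients `c` and support in `s` -/
noncomputable def gen {R : Type} [CommRing R] (s : Finset (Fin 3 →₀ ℕ)) (c : Fin 3 × s → R)
    (i : Fin 3) : MvPolynomial (Fin 3) R :=
  ∑ m : s, monomial m.1 (c (i, m))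

theorem gen_map {R R' : Type} [CommRing R] [CommRing R'] (f : R →+* R')
    (s : Finset (Fin 3 →₀ ℕ)) (c : Fin 3 × s → R) (i : Fin 3) :
    map f (gen s c i) = gen s (fun x => f (c x)) i := by
  simp only [gen, map_sum, map_monomial]

theorem gen_coeff {R : Type} [CommRing R] (s : Finset (Fin 3 →₀ ℕ)) (P : MvPolynomial (Fin 3) R)
    (hP : P.support ⊆ s) : P = ∑ m : s, monomial m.1 (coeff m.1 P) := by
  conv_lhs => rw [P.as_sum]
  rw [Finset.sum_coe_sort s (fun m => monomial m (coeff m P))]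
  refine Finset.sum_subset hP fun m _ hm => ?_
  rw [notMem_support_iff.1 hm, map_zero]

theorem gen_coe {R : Type} [CommRing R] (s : Finset (Fin 3 →₀ ℕ)) (c : Fin 3 × s → R) (i : Fin 3)
    (m : Fin 3 →₀ ℕ) : coeff m (gen s c i) = ∑ m' : s, if m'.1 = m then c (i, m') else 0 := by
  unfold gen
  rw [coeff_sum]
  exact Finset.sum_congr rfl fun m' _ => coeff_monomial _ _ _

theorem gen_eval {R : Type} [CommRing R] (s : Finset (Fin 3 →₀ ℕ)) (c : Fin 3 × s → R) (i : Fin 3)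
    (z : Fin 3 → R) : eval z (gen s c i) = ∑ m : s, c (i, m) * m.1.prod fun j e => z j ^ e := by
  unfold gen
  rw [map_sum]
  exact Finset.sum_congr rfl fun m' _ => eval_monomial

theorem gen_alg (s : Finset (Fin 3 →₀ ℕ)) (c : Fin 3 × s → ℂ) (hc : ∀ x, IsAlgebraic ℚ (c x))
    (i : Fin 3) (m : Fin 3 →₀ ℕ) : IsAlgebraic ℚ (coeff m (gen s c i)) := by
  rw [gen_coe]
  refine Finset.sum_induction _ (fun x => IsAlgebraic ℚ x) (fun _ _ h1 h2 => h1.add h2)
    isAlgebraic_zero fun m' _ => ?_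
  split_ifs
  · exact hc _
  · exact isAlgebraic_zero

theorem gen_near (s : Finset (Fin 3 →₀ ℕ)) (w c : Fin 3 × s → ℂ) (δ : ℝ) (hδ : 0 ≤ δ)
    (h : ∀ x, ‖w x - c x‖ < δ) (i : Fin 3) (z : Fin 3 → ℂ) (hz : ∀ j, ‖z j‖ ≤ 9) :
    ‖eval z (gen s w i) - eval z (gen s c i)‖ ≤ δ * ∑ m ∈ s, (9 : ℝ) ^ (m.sum fun _ e => e) := by
  rw [gen_eval, gen_eval, ← Finset.sum_sub_distrib]
  have h2 : ∀ m : s, ‖w (i, m) * (m.1.prod fun j e => z j ^ e) -
      c (i, m) * m.1.prod fun j e => z j ^ e‖ ≤ δ * (9 : ℝ) ^ (m.1.sum fun _ e => e) := by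
    intro m
    rw [← sub_mul, norm_mul]
    refine mul_le_mul (h _).le ?_ (norm_nonneg _) hδ
    rw [Finsupp.prod, Finsupp.sum, norm_prod, ← Finset.prod_pow_eq_pow_sum]
    refine Finset.prod_le_prod (fun _ _ => norm_nonneg _) fun j _ => ?_
    rw [norm_pow]
    exact pow_le_pow_left₀ (norm_nonneg _) (hz j) _
  refine (norm_sum_le _ _).trans ((Finset.sum_le_sum fun m _ => h2 m).trans ?_)
  rw [← Finset.mul_sum, Finset.sum_coe_sort s (fun m => (9 : ℝ) ^ (m.sum fun _ e => e))]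

end P12

open MvPolynomial in
/-- integrable polynomial forms with algebraic coefficients are dense -/
theorem form_dense (P : Fin 3 → MvPolynomial (Fin 3) ℂ)
    (hP : P 0 * (pderiv 1 (P 2) - pderiv 2 (P 1)) + P 1 * (pderiv 2 (P 0) - pderiv 0 (P 2)) +
      P 2 * (pderiv 0 (P 1) - pderiv 1 (P 0)) = 0) (ε : ℝ) (hε : 0 < ε) :
    ∃ Q : Fin 3 → MvPolynomial (Fin 3) ℂ, (∀ i m, IsAlgebraic ℚ (coeff m (Q i))) ∧
      (Q 0 * (pderiv 1 (Q 2) - pderiv 2 (Q 1)) + Q 1 * (pderiv 2 (Q 0) - pderiv 0 (Q 2)) +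
        Q 2 * (pderiv 0 (Q 1) - pderiv 1 (Q 0)) = 0) ∧
      ∀ i, ∀ z : Fin 3 → ℂ, (∀ j, ‖z j‖ ≤ 9) → ‖eval z (Q i) - eval z (P i)‖ ≤ ε := by
  classical
  set s : Finset (Fin 3 →₀ ℕ) := Finset.univ.biUnion fun i => (P i).support with hs
  have hsub : ∀ i, (P i).support ⊆ s := fun i =>
    Finset.subset_biUnion_of_mem (fun i => (P i).support) (Finset.mem_univ i)
  set c₀ : Fin 3 × s → ℂ := fun x => coeff x.2.1 (P x.1) with hc₀
  have hP0 : ∀ i, P i = P12.gen s c₀ i := fun i => P12.gen_coeff s (P i) (hsub i)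
  set G : Fin 3 → MvPolynomial (Fin 3) (MvPolynomial (Fin 3 × s) ℚ) :=
    P12.gen s (fun x => X x) with hG
  set S : Set (MvPolynomial (Fin 3 × s) ℚ) :=
    (fun m => coeff m (P12.EE G)) '' ((P12.EE G).support : Set (Fin 3 →₀ ℕ)) with hS
  have key : ∀ c : Fin 3 × s → ℂ, map (aeval c : MvPolynomial (Fin 3 × s) ℚ →ₐ[ℚ] ℂ).toRingHom
      (P12.EE G) = P12.EE (P12.gen s c) := by
    intro c
    rw [P12.EE_map]
    congr 1
    funext i
    rw [hG, P12.gen_map]
    congr 1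
    funext x
    simp
  have key2 : ∀ (c : Fin 3 × s → ℂ) (m : Fin 3 →₀ ℕ),
      aeval c (coeff m (P12.EE G)) = coeff m (P12.EE (P12.gen s c)) := by
    intro c m
    rw [← key, coeff_map]
    rfl
  have hE0 : P12.EE (P12.gen s c₀) = 0 := by
    have : P12.gen s c₀ = P := funext fun i => (hP0 i).symm
    rw [this]
    exact hP
  set N : ℝ := ∑ m ∈ s, (9 : ℝ) ^ (m.sum fun _ e => e) with hN
  have hN0 : 0 ≤ N := Finset.sum_nonneg fun m _ => by positivity
  have hN1 : 0 < N + 1 := by linarith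
  have hq : 0 < ε / (N + 1) := div_pos hε hN1
  obtain ⟨w, hw1, hw2, hw3⟩ := alg_dense S ((Finset.finite_toSet _).image _) c₀ (by
    rintro _ ⟨m, _, rfl⟩
    dsimp only
    rw [key2, hE0, coeff_zero]) (ε / (N + 1)) hq
  refine ⟨P12.gen s w, P12.gen_alg s w hw1, ?_, ?_⟩
  · show P12.EE (P12.gen s w) = 0
    ext m
    rw [coeff_zero, ← key2]
    by_cases hm : m ∈ (P12.EE G).support
    · exact hw2 _ ⟨m, hm, rfl⟩
    · rw [notMem_support_iff.1 hm, map_zero]
  · intro i z hz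
    rw [hP0 i]
    refine (P12.gen_near s w c₀ _ hq.le hw3 i z hz).trans ?_
    rw [← hN, div_mul_eq_mul_div, div_le_iff₀ hN1]
    exact mul_le_mul_of_nonneg_left (by linarith) hε.le

end Pool.Agent.H583_Fol
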