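import Pool.Agent.H583_Fol.Defs

set_option autoImplicit false

namespace Pool.Agent.H583_Fol

open Complex Set Metric Filter Topology

namespace P2

/-- maximum principle on the disc of radius `4` -/
lemma maxmod {F : ℂ → ℂ} (hF : DifferentiableOn ℂ F (ball 0 4)) {M : ℝ}
    (h : ∀ x : ℂ, 7 / 2 ≤ ‖x‖ → ‖x‖ < 4 → ‖F x‖ ≤ M) : ∀ x ∈ ball (0 : ℂ) 4, ‖F x‖ ≤ M := by
  intro x hx
  rw [mem_ball_zero_iff] at hx
  obtain ⟨R, hR1, hR2⟩ := exists_between (max_lt hx (by norm_num : (7 / 2 : ℝ) < 4))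
  have hRx : ‖x‖ < R := lt_of_le_of_lt (le_max_left _ _) hR1
  have hR7 : 7 / 2 < R := lt_of_le_of_lt (le_max_right _ _) hR1
  have hd : DiffContOnCl ℂ F (ball 0 R) := by
    apply DifferentiableOn.diffContOnCl
    exact hF.mono (closure_ball_subset_closedBall.trans (closedBall_subset_ball hR2))
  refine Complex.norm_le_of_forall_mem_frontier_norm_le isBounded_ball hd ?_
    (subset_closure (mem_ball_zero_iff.2 hRx))
  intro z hz
  rw [frontier_ball _ (by linarith : R ≠ 0)] at hz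
  have h1 := mem_sphere_zero_iff_norm.1 hz
  exact h z (by linarith) (by linarith)

/-- the estimate for `x ψ' + ν ψ` -/
lemma psi_bound {ψ : ℂ → ℂ} (hψ : DifferentiableOn ℂ ψ (ball 0 4)) {M : ℝ}
    (h : ∀ x ∈ ball (0 : ℂ) 4, ‖x * deriv ψ x + nu * ψ x‖ ≤ M) :
    ∀ x ∈ ball (0 : ℂ) 4, ‖ψ x‖ ≤ M := by
  intro x hx
  rw [mem_ball_zero_iff] at hx
  obtain ⟨R, hR1, hR2⟩ := exists_between hx
  have hR0 : 0 ≤ R := (norm_nonneg x).trans hR1.le
  have hsub : closedBall (0 : ℂ) R ⊆ ball 0 4 := closedBall_subset_ball hR2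
  have hcont : ContinuousOn (fun z => ‖ψ z‖) (closedBall 0 R) :=
    (hψ.continuousOn.mono hsub).norm
  obtain ⟨x0, hx0, hmax⟩ := (isCompact_closedBall (0 : ℂ) R).exists_isMaxOn
    ⟨0, by simpa using hR0⟩ hcont
  have hx0R : ‖x0‖ ≤ R := by simpa using hx0
  have hx04 : x0 ∈ ball (0 : ℂ) 4 := hsub hx0
  -- the radial derivative at `x0`
  have hder : HasDerivAt ψ (deriv ψ x0) x0 :=
    ((hψ x0 hx04).differentiableAt (isOpen_ball.mem_nhds hx04)).hasDerivAt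
  set a := ψ x0 with ha
  have hv : HasDerivAt (fun t : ℝ => ((starRingEnd ℂ) a * ψ ((t : ℂ) * x0)).re)
      (((starRingEnd ℂ) a * (deriv ψ x0 * x0)).re) 1 := by
    have h1 : HasDerivAt (fun t : ℝ => (t : ℂ) * x0) x0 1 := by
      have := (Complex.ofRealCLM.hasDerivAt (x := (1 : ℝ))).mul_const x0
      simpa using this
    have h2 : HasDerivAt ψ (deriv ψ x0) (((1 : ℝ) : ℂ) * x0) := by simpa using hder
    have h3 : HasDerivAt (fun t : ℝ => ψ ((t : ℂ) * x0)) (deriv ψ x0 * x0) 1 :=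
      h2.comp (1 : ℝ) h1
    have h4 := h3.const_mul ((starRingEnd ℂ) a)
    exact Complex.reCLM.hasFDerivAt.comp_hasDerivAt (1 : ℝ) h4
  have hle : IsLocalMaxOn (fun t : ℝ => ((starRingEnd ℂ) a * ψ ((t : ℂ) * x0)).re) (Icc 0 1) 1 := by
    apply IsMaxOn.localize
    intro t ht
    show ((starRingEnd ℂ) a * ψ ((t : ℂ) * x0)).re ≤ ((starRingEnd ℂ) a * ψ (((1 : ℝ) : ℂ) * x0)).re
    have hmem : (t : ℂ) * x0 ∈ closedBall (0 : ℂ) R := by
      rw [mem_closedBall_zero_iff, norm_mul, Complex.norm_real, Real.norm_of_nonneg ht.1]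
      calc t * ‖x0‖ ≤ 1 * ‖x0‖ := mul_le_mul_of_nonneg_right ht.2 (norm_nonneg _)
        _ ≤ R := by rw [one_mul]; exact hx0R
    have h1 : ‖ψ ((t : ℂ) * x0)‖ ≤ ‖a‖ := hmax hmem
    have h2 : ((starRingEnd ℂ) a * ψ (((1 : ℝ) : ℂ) * x0)).re = ‖a‖ ^ 2 := by
      rw [Complex.ofReal_one, one_mul, ← ha, mul_comm, Complex.mul_conj, Complex.normSq_eq_norm_sq]
      exact Complex.ofReal_re _
    rw [h2]
    calc ((starRingEnd ℂ) a * ψ ((t : ℂ) * x0)).re ≤ ‖(starRingEnd ℂ) a * ψ ((t : ℂ) * x0)‖ :=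
          Complex.re_le_norm _
      _ = ‖a‖ * ‖ψ ((t : ℂ) * x0)‖ := by rw [norm_mul, Complex.norm_conj]
      _ ≤ ‖a‖ * ‖a‖ := mul_le_mul_of_nonneg_left h1 (norm_nonneg _)
      _ = ‖a‖ ^ 2 := by ring
  have hpos : 0 ≤ ((starRingEnd ℂ) a * (deriv ψ x0 * x0)).re := by
    have h1 := hle.hasFDerivWithinAt_nonpos hv.hasFDerivAt.hasFDerivWithinAt
      (y := (-1 : ℝ)) (by
        have : (-1 : ℝ) = 0 - 1 := by norm_num
        rw [this]
        apply sub_mem_posTangentConeAt_of_segment_subset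
        rw [segment_symm, segment_eq_Icc zero_le_one])
    simp only [ContinuousLinearMap.toSpanSingleton_apply, smul_eq_mul, neg_mul, one_mul] at h1
    linarith
  have hq := h x0 hx04
  have hnure : nu.re = 1 := by simp [nu]
  have hkey : ‖a‖ ^ 2 ≤ ‖a‖ * M := by
    have h1 : ((starRingEnd ℂ) a * (x0 * deriv ψ x0 + nu * a)).re =
        ((starRingEnd ℂ) a * (deriv ψ x0 * x0)).re + ‖a‖ ^ 2 := by
      have h2 : (starRingEnd ℂ) a * (x0 * deriv ψ x0 + nu * a) =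
          (starRingEnd ℂ) a * (deriv ψ x0 * x0) + nu * (a * (starRingEnd ℂ) a) := by ring
      rw [h2, Complex.add_re, Complex.mul_conj, Complex.normSq_eq_norm_sq, Complex.re_mul_ofReal,
        hnure, one_mul]
    have h3 : ((starRingEnd ℂ) a * (x0 * deriv ψ x0 + nu * a)).re ≤ ‖a‖ * M :=
      calc _ ≤ ‖(starRingEnd ℂ) a * (x0 * deriv ψ x0 + nu * a)‖ := Complex.re_le_norm _
        _ = ‖a‖ * ‖x0 * deriv ψ x0 + nu * a‖ := by rw [norm_mul, Complex.norm_conj]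
        _ ≤ ‖a‖ * M := mul_le_mul_of_nonneg_left hq (norm_nonneg _)
    linarith
  have hM : 0 ≤ M := (norm_nonneg _).trans hq
  have haM : ‖a‖ ≤ M := by
    rcases eq_or_lt_of_le (norm_nonneg a) with h0 | h0
    · rw [← h0]; exact hM
    · nlinarith
  have hxa : ‖ψ x‖ ≤ ‖a‖ := hmax (mem_closedBall_zero_iff.2 hR1.le)
  exact hxa.trans haM

/-- division by `x - c` -/
lemma div1 {F : ℂ → ℂ} (hF : DifferentiableOn ℂ F (ball 0 4)) {c : ℂ} (hc : c ∈ ball (0 : ℂ) 4)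
    (h0 : F c = 0) : ∃ G : ℂ → ℂ, DifferentiableOn ℂ G (ball 0 4) ∧ ∀ x, F x = (x - c) * G x := by
  refine ⟨dslope F c, (Complex.differentiableOn_dslope (isOpen_ball.mem_nhds hc)).2 hF, ?_⟩
  intro x
  have h1 := sub_smul_dslope F c x
  rw [smul_eq_mul, h0, sub_zero] at h1
  exact h1.symm

lemma div3 {F : ℂ → ℂ} (hF : DifferentiableOn ℂ F (ball 0 4)) {e : ℂ} (he : e ∈ ball (0 : ℂ) 4)
    (he0 : e ≠ 0) (he1 : e ≠ 1) (h0 : F 0 = 0) (h1 : F 1 = 0) (h2 : F e = 0) :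
    ∃ ψ : ℂ → ℂ, DifferentiableOn ℂ ψ (ball 0 4) ∧ ∀ x, F x = x * ((x - 1) * (x - e)) * ψ x := by
  obtain ⟨G, hG, hFG⟩ := div1 hF (by simp) h0
  have hG1 : G 1 = 0 := by
    have := hFG 1
    rw [h1] at this
    simpa using this.symm
  obtain ⟨H, hH, hGH⟩ := div1 hG (c := 1) (by simp) hG1
  have hHe : H e = 0 := by
    have := hFG e
    rw [h2, hGH] at this
    have h3 : (e - 0) * (e - 1) * H e = 0 := by rw [mul_assoc]; exact this.symm
    rcases mul_eq_zero.1 h3 with h4 | h4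
    · rcases mul_eq_zero.1 h4 with h5 | h5
      · exact absurd (by simpa using h5) he0
      · exact absurd (sub_eq_zero.1 h5) he1
    · exact h4
  obtain ⟨ψ, hψ, hHψ⟩ := div1 hH he hHe
  refine ⟨ψ, hψ, fun x => ?_⟩
  rw [hFG, hGH, hHψ]
  ring

/-- the exact linear estimate -/
lemma linear {c : ℝ} (hc : 1 ≤ c) {e : ℂ} (he3 : ‖e‖ ≤ 3) (he0 : 1 ≤ c * ‖e‖)
    (he1 : 1 ≤ c * ‖e - 1‖) {g : ℂ → ℂ} (hg : DifferentiableOn ℂ g (ball 0 4)) {s1 s2 : ℂ} {ε : ℝ}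
    (hP : ∀ x ∈ ball (0 : ℂ) 4, ‖x * ((x - 1) * (x - e)) * deriv g x -
      ((x - 1) * (x - e) + x * (x - 1) + x * (x - e) - nu * ((x - 1) * (x - e))) * g x -
      x * ((x - 1) * (x - e)) * (s1 * e * (x - 1) + s2 * (x - e))‖ ≤ ε) :
    (∀ x ∈ ball (0 : ℂ) 4, ‖g x‖ ≤ 30000000 * c ^ 6 * ε) ∧ ‖s1‖ ≤ 30000000 * c ^ 6 * ε ∧
      ‖s2‖ ≤ 30000000 * c ^ 6 * ε := by
  have hc0 : 0 < c := by linarith
  have hε : 0 ≤ ε := (norm_nonneg _).trans (hP 0 (by simp))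
  have he4 : e ∈ ball (0 : ℂ) 4 := by rw [mem_ball_zero_iff]; linarith
  have h14 : (1 : ℂ) ∈ ball (0 : ℂ) 4 := by simp
  have h04 : (0 : ℂ) ∈ ball (0 : ℂ) 4 := by simp
  have hen0 : 0 < ‖e‖ := by
    by_contra hcon
    have : ‖e‖ = 0 := le_antisymm (not_lt.1 hcon) (norm_nonneg _)
    rw [this] at he0; linarith
  have hen1 : 0 < ‖e - 1‖ := by
    by_contra hcon
    have : ‖e - 1‖ = 0 := le_antisymm (not_lt.1 hcon) (norm_nonneg _)
    rw [this] at he1; linarith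
  have hene0 : e ≠ 0 := norm_pos_iff.1 hen0
  have hene1 : e ≠ 1 := fun h => by rw [h, sub_self, norm_zero] at hen1; exact lt_irrefl _ hen1
  -- division estimates
  have hdiv0 : ∀ (z : ℂ) (B : ℝ), ‖e * z‖ ≤ B → ‖z‖ ≤ c * B := by
    intro z B hz
    rw [norm_mul] at hz
    calc ‖z‖ = 1 * ‖z‖ := (one_mul _).symm
      _ ≤ (c * ‖e‖) * ‖z‖ := mul_le_mul_of_nonneg_right he0 (norm_nonneg _)
      _ = c * (‖e‖ * ‖z‖) := by ring
      _ ≤ c * B := mul_le_mul_of_nonneg_left hz hc0.le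
  have hdiv1 : ∀ (z : ℂ) (B : ℝ), ‖(e - 1) * z‖ ≤ B → ‖z‖ ≤ c * B := by
    intro z B hz
    rw [norm_mul] at hz
    calc ‖z‖ = 1 * ‖z‖ := (one_mul _).symm
      _ ≤ (c * ‖e - 1‖) * ‖z‖ := mul_le_mul_of_nonneg_right he1 (norm_nonneg _)
      _ = c * (‖e - 1‖ * ‖z‖) := by ring
      _ ≤ c * B := mul_le_mul_of_nonneg_left hz hc0.le
  have hnu1 : ‖1 - nu‖ = 1 := by
    have : 1 - nu = -I := by unfold nu; ring
    rw [this, norm_neg, norm_I]
  have hnu : ‖nu‖ ≤ 2 := by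
    unfold nu
    calc ‖1 + I‖ ≤ ‖(1 : ℂ)‖ + ‖I‖ := norm_add_le _ _
      _ = 2 := by rw [norm_one, norm_I]; norm_num
  -- values of `g` at the three points
  have hg0 : ‖g 0‖ ≤ c * ε := by
    apply hdiv0
    have h1 := hP 0 h04
    have h2 : (0 : ℂ) * ((0 - 1) * (0 - e)) * deriv g 0 -
        ((0 - 1) * (0 - e) + 0 * (0 - 1) + 0 * (0 - e) - nu * ((0 - 1) * (0 - e))) * g 0 -
        0 * ((0 - 1) * (0 - e)) * (s1 * e * (0 - 1) + s2 * (0 - e)) = -((1 - nu) * (e * g 0)) := by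
      ring
    rw [h2, norm_neg, norm_mul, hnu1, one_mul] at h1
    exact h1
  have hg1 : ‖g 1‖ ≤ c * ε := by
    apply hdiv1
    have h1 := hP 1 h14
    have h2 : (1 : ℂ) * ((1 - 1) * (1 - e)) * deriv g 1 -
        ((1 - 1) * (1 - e) + 1 * (1 - 1) + 1 * (1 - e) - nu * ((1 - 1) * (1 - e))) * g 1 -
        1 * ((1 - 1) * (1 - e)) * (s1 * e * (1 - 1) + s2 * (1 - e)) = (e - 1) * g 1 := by
      ring
    rw [h2] at h1
    exact h1
  have hge : ‖g e‖ ≤ c * (c * ε) := by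
    apply hdiv1
    apply hdiv0
    have h1 := hP e he4
    have h2 : e * ((e - 1) * (e - e)) * deriv g e -
        ((e - 1) * (e - e) + e * (e - 1) + e * (e - e) - nu * ((e - 1) * (e - e))) * g e -
        e * ((e - 1) * (e - e)) * (s1 * e * (e - 1) + s2 * (e - e)) = -(e * ((e - 1) * g e)) := by
      ring
    rw [h2, norm_neg] at h1
    exact h1
  have hc2 : c ≤ c ^ 2 := by nlinarith
  have hc3 : c ^ 2 ≤ c ^ 3 := by nlinarith [sq_nonneg c]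
  have hc4 : c ^ 3 ≤ c ^ 4 := by nlinarith [pow_pos hc0 3]
  have hc5 : c ^ 4 ≤ c ^ 5 := by nlinarith [pow_pos hc0 4]
  have hc6 : c ^ 5 ≤ c ^ 6 := by nlinarith [pow_pos hc0 5]
  -- interpolation
  obtain ⟨A1, hA1⟩ : ∃ A1, A1 = g 1 - g 0 := ⟨_, rfl⟩
  obtain ⟨A2, hA2⟩ : ∃ A2, A2 = ((g e - g 0) / e - A1) / (e - 1) := ⟨_, rfl⟩
  have hA2e : e * A1 + e * (e - 1) * A2 = g e - g 0 := by
    have h3 : e - 1 ≠ 0 := sub_ne_zero.2 hene1
    rw [hA2]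
    field_simp
    ring
  have hA1b : ‖A1‖ ≤ 2 * c * ε := by
    rw [hA1]
    calc ‖g 1 - g 0‖ ≤ ‖g 1‖ + ‖g 0‖ := norm_sub_le _ _
      _ ≤ 2 * c * ε := by linarith
  have m1 : c * ε ≤ c ^ 4 * ε := mul_le_mul_of_nonneg_right (by linarith) hε
  have m2 : ε ≤ c ^ 4 * ε := by
    calc ε = 1 * ε := (one_mul _).symm
      _ ≤ c ^ 4 * ε := mul_le_mul_of_nonneg_right (by linarith) hε
  have m3 : c * ε ≤ c ^ 2 * ε := mul_le_mul_of_nonneg_right hc2 hε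
  have hA2b : ‖A2‖ ≤ 8 * (c ^ 4 * ε) := by
    have h1 : ‖A2‖ ≤ c * (c * (8 * (c ^ 2 * ε))) := by
      apply hdiv1
      apply hdiv0
      have h2 : e * ((e - 1) * A2) = g e - g 0 - e * A1 := by
        linear_combination hA2e
      rw [h2]
      calc ‖g e - g 0 - e * A1‖ ≤ ‖g e - g 0‖ + ‖e * A1‖ := norm_sub_le _ _
        _ ≤ (‖g e‖ + ‖g 0‖) + ‖e‖ * ‖A1‖ := by
          rw [norm_mul]
          exact add_le_add_left (norm_sub_le _ _) _
        _ ≤ (c * (c * ε) + c * ε) + 3 * (2 * c * ε) := by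
          have h4 : ‖e‖ * ‖A1‖ ≤ 3 * (2 * c * ε) :=
            mul_le_mul he3 hA1b (norm_nonneg _) (by norm_num)
          linarith
        _ ≤ 8 * (c ^ 2 * ε) := by
          have h5 : c * (c * ε) = c ^ 2 * ε := by ring
          have h6 : 3 * (2 * c * ε) = 6 * (c * ε) := by ring
          rw [h5, h6]
          linarith
    calc ‖A2‖ ≤ c * (c * (8 * (c ^ 2 * ε))) := h1
      _ = 8 * (c ^ 4 * ε) := by ring
  obtain ⟨ψ, hψ, hFψ⟩ := div3 (F := fun x => g x - (g 0 + x * A1 + x * (x - 1) * A2))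
    (by
      apply hg.sub
      fun_prop) he4 hene0 hene1 (by simp) (by rw [hA1]; ring)
    (by linear_combination -hA2e)
  have hgψ : g = fun x => (g 0 + x * A1 + x * (x - 1) * A2) + x * ((x - 1) * (x - e)) * ψ x := by
    funext x
    have := hFψ x
    linear_combination this
  have hdg : ∀ x ∈ ball (0 : ℂ) 4, deriv g x = A1 + (2 * x - 1) * A2 +
      (((x - 1) * (x - e) + x * (x - 1) + x * (x - e)) * ψ x +
        x * ((x - 1) * (x - e)) * deriv ψ x) := by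
    intro x hx
    have h1 : HasDerivAt ψ (deriv ψ x) x :=
      ((hψ x hx).differentiableAt (isOpen_ball.mem_nhds hx)).hasDerivAt
    have h2 := (((hasDerivAt_id' x).mul_const A1).const_add (g 0)).add
      (((hasDerivAt_id' x).mul ((hasDerivAt_id' x).sub_const 1)).mul_const A2)
    have h3 := ((hasDerivAt_id' x).mul (((hasDerivAt_id' x).sub_const 1).mul
      ((hasDerivAt_id' x).sub_const e))).mul h1
    have h4 := h2.add h3
    have h5 := h4.congr_of_eventuallyEq (f₁ := g)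
      (Filter.Eventually.of_forall fun z => congrFun hgψ z)
    rw [h5.deriv]
    simp only [Pi.mul_apply]
    ring
  -- sizes
  have bx : ∀ x ∈ ball (0 : ℂ) 4, ‖x‖ ≤ 4 := fun x hx => by
    rw [mem_ball_zero_iff] at hx; exact hx.le
  have bx1 : ∀ x ∈ ball (0 : ℂ) 4, ‖x - 1‖ ≤ 5 := fun x hx => by
    calc ‖x - 1‖ ≤ ‖x‖ + ‖(1 : ℂ)‖ := norm_sub_le _ _
      _ ≤ 5 := by rw [norm_one]; linarith [bx x hx]
  have bxe : ∀ x ∈ ball (0 : ℂ) 4, ‖x - e‖ ≤ 7 := fun x hx => by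
    calc ‖x - e‖ ≤ ‖x‖ + ‖e‖ := norm_sub_le _ _
      _ ≤ 7 := by linarith [bx x hx]
  have bh : ∀ x ∈ ball (0 : ℂ) 4, ‖(x - 1) * (x - e)‖ ≤ 35 := fun x hx => by
    rw [norm_mul]
    calc ‖x - 1‖ * ‖x - e‖ ≤ 5 * 7 :=
          mul_le_mul (bx1 x hx) (bxe x hx) (norm_nonneg _) (by norm_num)
      _ = 35 := by norm_num
  have bxh : ∀ x ∈ ball (0 : ℂ) 4, ‖x * ((x - 1) * (x - e))‖ ≤ 140 := fun x hx => by
    rw [norm_mul]
    calc ‖x‖ * ‖(x - 1) * (x - e)‖ ≤ 4 * 35 :=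
          mul_le_mul (bx x hx) (bh x hx) (norm_nonneg _) (by norm_num)
      _ = 140 := by norm_num
  have bG : ∀ x ∈ ball (0 : ℂ) 4, ‖(x - 1) * (x - e) + x * (x - 1) + x * (x - e) -
      nu * ((x - 1) * (x - e))‖ ≤ 153 := fun x hx => by
    have h1 : ‖x * (x - 1)‖ ≤ 20 := by
      rw [norm_mul]
      calc ‖x‖ * ‖x - 1‖ ≤ 4 * 5 :=
            mul_le_mul (bx x hx) (bx1 x hx) (norm_nonneg _) (by norm_num)
        _ = 20 := by norm_num
    have h2 : ‖x * (x - e)‖ ≤ 28 := by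
      rw [norm_mul]
      calc ‖x‖ * ‖x - e‖ ≤ 4 * 7 :=
            mul_le_mul (bx x hx) (bxe x hx) (norm_nonneg _) (by norm_num)
        _ = 28 := by norm_num
    have h3 : ‖nu * ((x - 1) * (x - e))‖ ≤ 70 := by
      rw [norm_mul]
      calc ‖nu‖ * ‖(x - 1) * (x - e)‖ ≤ 2 * 35 :=
            mul_le_mul hnu (bh x hx) (norm_nonneg _) (by norm_num)
        _ = 70 := by norm_num
    calc _ ≤ ‖(x - 1) * (x - e) + x * (x - 1) + x * (x - e)‖ + ‖nu * ((x - 1) * (x - e))‖ :=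
          norm_sub_le _ _
      _ ≤ (‖(x - 1) * (x - e)‖ + ‖x * (x - 1)‖ + ‖x * (x - e)‖) + ‖nu * ((x - 1) * (x - e))‖ := by
          gcongr
          exact norm_add₃_le
      _ ≤ 153 := by linarith [bh x hx]
  have bI : ∀ x ∈ ball (0 : ℂ) 4, ‖g 0 + x * A1 + x * (x - 1) * A2‖ ≤ 169 * (c ^ 4 * ε) := by
    intro x hx
    have h1 : ‖x * A1‖ ≤ 8 * (c ^ 4 * ε) := by
      rw [norm_mul]
      calc ‖x‖ * ‖A1‖ ≤ 4 * (2 * c * ε) :=
            mul_le_mul (bx x hx) hA1b (norm_nonneg _) (by norm_num)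
        _ = 8 * (c * ε) := by ring
        _ ≤ 8 * (c ^ 4 * ε) := by linarith
    have h2 : ‖x * (x - 1) * A2‖ ≤ 160 * (c ^ 4 * ε) := by
      rw [norm_mul, norm_mul]
      calc ‖x‖ * ‖x - 1‖ * ‖A2‖ ≤ (4 * 5) * (8 * (c ^ 4 * ε)) :=
            mul_le_mul (mul_le_mul (bx x hx) (bx1 x hx) (norm_nonneg _) (by norm_num)) hA2b
              (norm_nonneg _) (by norm_num)
        _ = 160 * (c ^ 4 * ε) := by ring
    calc _ ≤ ‖g 0‖ + ‖x * A1‖ + ‖x * (x - 1) * A2‖ := norm_add₃_le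
      _ ≤ 169 * (c ^ 4 * ε) := by linarith
  have bI' : ∀ x ∈ ball (0 : ℂ) 4, ‖A1 + (2 * x - 1) * A2‖ ≤ 74 * (c ^ 4 * ε) := by
    intro x hx
    have h1 : ‖2 * x - 1‖ ≤ 9 := by
      calc ‖2 * x - 1‖ ≤ ‖2 * x‖ + ‖(1 : ℂ)‖ := norm_sub_le _ _
        _ ≤ 9 := by
          rw [norm_mul, norm_one, RCLike.norm_ofNat]
          linarith [bx x hx]
    calc _ ≤ ‖A1‖ + ‖(2 * x - 1) * A2‖ := norm_add_le _ _
      _ ≤ 2 * c * ε + 9 * (8 * (c ^ 4 * ε)) := by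
        rw [norm_mul]
        have := mul_le_mul h1 hA2b (norm_nonneg _) (by norm_num)
        linarith
      _ ≤ 74 * (c ^ 4 * ε) := by
        have : 2 * c * ε = 2 * (c * ε) := by ring
        rw [this]
        linarith
  -- lower bounds near the boundary
  have lx1 : ∀ x : ℂ, 7 / 2 ≤ ‖x‖ → 5 / 2 ≤ ‖x - 1‖ := fun x hx => by
    have := norm_sub_norm_le x 1
    rw [norm_one] at this
    linarith
  have lxe : ∀ x : ℂ, 7 / 2 ≤ ‖x‖ → 1 / 2 ≤ ‖x - e‖ := fun x hx => by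
    have := norm_sub_norm_le x e
    linarith
  have lh : ∀ x : ℂ, 7 / 2 ≤ ‖x‖ → 5 / 4 ≤ ‖(x - 1) * (x - e)‖ := fun x hx => by
    rw [norm_mul]
    calc (5 / 4 : ℝ) = (5 / 2) * (1 / 2) := by norm_num
      _ ≤ ‖x - 1‖ * ‖x - e‖ := mul_le_mul (lx1 x hx) (lxe x hx) (by norm_num) (norm_nonneg _)
  have lxh : ∀ x : ℂ, 7 / 2 ≤ ‖x‖ → 35 / 8 ≤ ‖x * ((x - 1) * (x - e))‖ := fun x hx => by
    rw [norm_mul]
    calc (35 / 8 : ℝ) = (7 / 2) * (5 / 4) := by norm_num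
      _ ≤ ‖x‖ * ‖(x - 1) * (x - e)‖ := mul_le_mul hx (lh x hx) (by norm_num) (norm_nonneg _)
  -- the function `Φ`
  have hψ' : DifferentiableOn ℂ (deriv ψ) (ball 0 4) := hψ.deriv isOpen_ball
  have hq : DifferentiableOn ℂ (fun x => x * deriv ψ x + nu * ψ x) (ball 0 4) := by
    apply DifferentiableOn.add
    · exact differentiableOn_id.mul hψ'
    · exact hψ.const_mul nu
  have hΦ : DifferentiableOn ℂ (fun x => (x - 1) * (x - e) * (x * deriv ψ x + nu * ψ x) -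
      s1 * e * (x - 1) - s2 * (x - e)) (ball 0 4) := by
    apply DifferentiableOn.sub
    · apply DifferentiableOn.sub
      · exact DifferentiableOn.mul (by fun_prop) hq
      · fun_prop
    · fun_prop
  have bxΦ : ∀ x ∈ ball (0 : ℂ) 4, ‖x * ((x - 1) * (x - e)) * ((x - 1) * (x - e) *
      (x * deriv ψ x + nu * ψ x) - s1 * e * (x - 1) - s2 * (x - e))‖ ≤ 36225 * (c ^ 4 * ε) := by
    intro x hx
    have h1 : x * ((x - 1) * (x - e)) * ((x - 1) * (x - e) *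
        (x * deriv ψ x + nu * ψ x) - s1 * e * (x - 1) - s2 * (x - e)) =
        (x * ((x - 1) * (x - e)) * deriv g x -
        ((x - 1) * (x - e) + x * (x - 1) + x * (x - e) - nu * ((x - 1) * (x - e))) * g x -
        x * ((x - 1) * (x - e)) * (s1 * e * (x - 1) + s2 * (x - e))) -
        x * ((x - 1) * (x - e)) * (A1 + (2 * x - 1) * A2) +
        ((x - 1) * (x - e) + x * (x - 1) + x * (x - e) - nu * ((x - 1) * (x - e))) *
          (g 0 + x * A1 + x * (x - 1) * A2) := by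
      have h2 := hdg x hx
      have h3 : g x = (g 0 + x * A1 + x * (x - 1) * A2) + x * ((x - 1) * (x - e)) * ψ x :=
        congrFun hgψ x
      rw [h2]
      linear_combination ((x - 1) * (x - e) + x * (x - 1) + x * (x - e) -
        nu * ((x - 1) * (x - e))) * h3
    rw [h1]
    calc _ ≤ ‖(x * ((x - 1) * (x - e)) * deriv g x -
        ((x - 1) * (x - e) + x * (x - 1) + x * (x - e) - nu * ((x - 1) * (x - e))) * g x -
        x * ((x - 1) * (x - e)) * (s1 * e * (x - 1) + s2 * (x - e))) -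
        x * ((x - 1) * (x - e)) * (A1 + (2 * x - 1) * A2)‖ +
        ‖((x - 1) * (x - e) + x * (x - 1) + x * (x - e) - nu * ((x - 1) * (x - e))) *
          (g 0 + x * A1 + x * (x - 1) * A2)‖ := norm_add_le _ _
      _ ≤ (ε + 140 * (74 * (c ^ 4 * ε))) + 153 * (169 * (c ^ 4 * ε)) := by
        apply add_le_add
        · refine (norm_sub_le _ _).trans (add_le_add (hP x hx) ?_)
          rw [norm_mul]
          exact mul_le_mul (bxh x hx) (bI' x hx) (norm_nonneg _) (by norm_num)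
        · rw [norm_mul]
          exact mul_le_mul (bG x hx) (bI x hx) (norm_nonneg _) (by norm_num)
      _ ≤ 36225 * (c ^ 4 * ε) := by linarith
  have bΦ : ∀ x ∈ ball (0 : ℂ) 4, ‖(x - 1) * (x - e) *
      (x * deriv ψ x + nu * ψ x) - s1 * e * (x - 1) - s2 * (x - e)‖ ≤ 8280 * (c ^ 4 * ε) := by
    apply maxmod hΦ
    intro x hx1 hx2
    have h1 := bxΦ x (mem_ball_zero_iff.2 hx2)
    rw [norm_mul] at h1
    have h2 := mul_le_mul_of_nonneg_right (lxh x hx1) (norm_nonneg ((x - 1) * (x - e) *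
      (x * deriv ψ x + nu * ψ x) - s1 * e * (x - 1) - s2 * (x - e)))
    linarith
  have hs2 : ‖s2‖ ≤ c * (8280 * (c ^ 4 * ε)) := by
    apply hdiv1
    have h1 := bΦ 1 h14
    have h2 : (1 - 1 : ℂ) * (1 - e) * (1 * deriv ψ 1 + nu * ψ 1) - s1 * e * (1 - 1) -
        s2 * (1 - e) = (e - 1) * s2 := by ring
    rw [h2] at h1
    exact h1
  have hs1 : ‖s1‖ ≤ c * (c * (8280 * (c ^ 4 * ε))) := by
    apply hdiv1
    apply hdiv0
    have h1 := bΦ e he4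
    have h2 : (e - 1) * (e - e) * (e * deriv ψ e + nu * ψ e) - s1 * e * (e - 1) -
        s2 * (e - e) = -(e * ((e - 1) * s1)) := by ring
    rw [h2, norm_neg] at h1
    exact h1
  have n1 : c ^ 4 * ε ≤ c ^ 6 * ε := mul_le_mul_of_nonneg_right (by linarith) hε
  have n2 : c ^ 5 * ε ≤ c ^ 6 * ε := mul_le_mul_of_nonneg_right (by linarith) hε
  have n3 : 0 ≤ c ^ 6 * ε := by positivity
  have hs1' : ‖s1‖ ≤ 8280 * (c ^ 6 * ε) := by
    calc ‖s1‖ ≤ c * (c * (8280 * (c ^ 4 * ε))) := hs1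
      _ = 8280 * (c ^ 6 * ε) := by ring
  have hs2' : ‖s2‖ ≤ 8280 * (c ^ 6 * ε) := by
    calc ‖s2‖ ≤ c * (8280 * (c ^ 4 * ε)) := hs2
      _ = 8280 * (c ^ 5 * ε) := by ring
      _ ≤ 8280 * (c ^ 6 * ε) := by linarith
  have bq : ∀ x ∈ ball (0 : ℂ) 4, ‖x * deriv ψ x + nu * ψ x‖ ≤ 152400 * (c ^ 6 * ε) := by
    apply maxmod hq
    intro x hx1 hx2
    have hx := (mem_ball_zero_iff (a := x) (r := (4 : ℝ))).2 hx2
    have h1 : ‖(x - 1) * (x - e) * (x * deriv ψ x + nu * ψ x)‖ ≤ 190440 * (c ^ 6 * ε) := by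
      have h2 : (x - 1) * (x - e) * (x * deriv ψ x + nu * ψ x) =
          ((x - 1) * (x - e) * (x * deriv ψ x + nu * ψ x) - s1 * e * (x - 1) - s2 * (x - e)) +
          s1 * e * (x - 1) + s2 * (x - e) := by ring
      rw [h2]
      calc _ ≤ ‖(x - 1) * (x - e) * (x * deriv ψ x + nu * ψ x) - s1 * e * (x - 1) -
            s2 * (x - e)‖ + ‖s1 * e * (x - 1)‖ + ‖s2 * (x - e)‖ := norm_add₃_le
        _ ≤ 8280 * (c ^ 4 * ε) + (8280 * (c ^ 6 * ε)) * 3 * 5 + (8280 * (c ^ 6 * ε)) * 7 := by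
          apply add_le_add
          · apply add_le_add (bΦ x hx)
            rw [norm_mul, norm_mul]
            exact mul_le_mul (mul_le_mul hs1' he3 (norm_nonneg _) (by positivity)) (bx1 x hx)
              (norm_nonneg _) (by positivity)
          · rw [norm_mul]
            exact mul_le_mul hs2' (bxe x hx) (norm_nonneg _) (by positivity)
        _ ≤ 190440 * (c ^ 6 * ε) := by linarith
    rw [norm_mul] at h1
    have h2 := mul_le_mul_of_nonneg_right (lh x hx1) (norm_nonneg (x * deriv ψ x + nu * ψ x))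
    linarith
  have bψ := psi_bound hψ bq
  refine ⟨fun x hx => ?_, ?_, ?_⟩
  · have h1 : g x = (g 0 + x * A1 + x * (x - 1) * A2) + x * ((x - 1) * (x - e)) * ψ x :=
      congrFun hgψ x
    rw [h1]
    calc _ ≤ ‖g 0 + x * A1 + x * (x - 1) * A2‖ + ‖x * ((x - 1) * (x - e)) * ψ x‖ :=
          norm_add_le _ _
      _ ≤ 169 * (c ^ 4 * ε) + 140 * (152400 * (c ^ 6 * ε)) := by
        apply add_le_add (bI x hx)
        rw [norm_mul]
        exact mul_le_mul (bxh x hx) (bψ x hx) (norm_nonneg _) (by norm_num)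
      _ ≤ 30000000 * c ^ 6 * ε := by
        rw [mul_assoc]
        linarith
  · rw [mul_assoc]; linarith
  · rw [mul_assoc]; linarith

end P2

open P2 in
/-- Lemma 2 of the paper, in the perturbed form -/
theorem LE : ∀ κ > 0, ∃ K > 0, ∃ η₀ > 0, ∀ e : ℂ, ‖e‖ ≤ 3 → κ ≤ ‖e‖ → κ ≤ ‖e - 1‖ →
    ∀ (C G1 G2 f : ℂ → ℂ) (η : ℝ) (ρ1 ρ2 σ1 σ2 : ℂ), 0 < η → η ≤ η₀ →
    DifferentiableOn ℂ f (ball 0 4) → (∃ M, ∀ x ∈ ball (0 : ℂ) 4, ‖f x‖ ≤ M) →
    (∀ x ∈ ball (0 : ℂ) 4, ‖C x - x * ((x - 1) * (x - e))‖ ≤ η) →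
    (∀ x ∈ ball (0 : ℂ) 4, ‖G1 x - ((x - 1) * (x - e) + x * (x - 1) + x * (x - e) -
      nu * ((x - 1) * (x - e)))‖ ≤ η) →
    (∀ x ∈ ball (0 : ℂ) 4, ‖G2 x + x * e * (x - 1)‖ ≤ η) →
    (∀ x ∈ ball (0 : ℂ) 4, C x * (deriv f x - (σ1 * e * (x - 1) + ρ1 * e * (x - 1) +
      σ2 * (x - e) - ρ2 * e)) + (ρ1 * e * (x - 1) + ρ2 * (x - e)) * G2 x - f x * G1 x = 0) →
    (∀ x ∈ ball (0 : ℂ) 4, ‖f x + ρ1 * e * x * (x - 1)‖ ≤ K * η * (‖ρ1‖ + ‖ρ2‖)) ∧
      ‖σ1 + nu * ρ1‖ ≤ K * η * (‖ρ1‖ + ‖ρ2‖) ∧ ‖σ2‖ ≤ K * η * (‖ρ1‖ + ‖ρ2‖) := by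
  intro κ hκ
  obtain ⟨c, hcdef⟩ : ∃ c : ℝ, c = max 1 (1 / κ) := ⟨_, rfl⟩
  have hc : 1 ≤ c := by rw [hcdef]; exact le_max_left _ _
  have hcκ : 1 ≤ c * κ := by
    calc (1 : ℝ) = (1 / κ) * κ := by field_simp
      _ ≤ c * κ := mul_le_mul_of_nonneg_right (by rw [hcdef]; exact le_max_right _ _) hκ.le
  obtain ⟨K1, hK1⟩ : ∃ K1 : ℝ, K1 = 30000000 * c ^ 6 := ⟨_, rfl⟩
  have hc6 : 1 ≤ c ^ 6 := one_le_pow₀ hc
  have hK1p : 1 ≤ K1 := by rw [hK1]; linarith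
  obtain ⟨Q, hQ⟩ : ∃ Q : ℝ, Q = 9000 * K1 := ⟨_, rfl⟩
  have hQp : 9000 ≤ Q := by rw [hQ]; linarith
  refine ⟨2 * Q, by linarith, 1 / (2 * Q), by positivity, ?_⟩
  intro e he3 heκ he1κ C G1 G2 f η ρ1 ρ2 σ1 σ2 hη hη0 hf hfM hC hG1 hG2 heq
  have hηQ : η * (2 * Q) ≤ 1 := by
    calc η * (2 * Q) ≤ 1 / (2 * Q) * (2 * Q) := mul_le_mul_of_nonneg_right hη0 (by linarith)
      _ = 1 := by field_simp
  have hηs : η ≤ 1 / 16 := by nlinarith
  have he0 : 1 ≤ c * ‖e‖ := hcκ.trans (mul_le_mul_of_nonneg_left heκ (by linarith))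
  have he1 : 1 ≤ c * ‖e - 1‖ := hcκ.trans (mul_le_mul_of_nonneg_left he1κ (by linarith))
  have he4 : e ∈ ball (0 : ℂ) 4 := by rw [mem_ball_zero_iff]; linarith
  have hnu : ‖nu‖ ≤ 2 := by
    unfold nu
    calc ‖1 + I‖ ≤ ‖(1 : ℂ)‖ + ‖I‖ := norm_add_le _ _
      _ = 2 := by rw [norm_one, norm_I]; norm_num
  obtain ⟨ρ, hρ⟩ : ∃ ρ, ρ = ‖ρ1‖ + ‖ρ2‖ := ⟨_, rfl⟩
  have hρ1 : ‖ρ1‖ ≤ ρ := by rw [hρ]; linarith [norm_nonneg ρ2]
  have hρ2 : ‖ρ2‖ ≤ ρ := by rw [hρ]; linarith [norm_nonneg ρ1]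
  have hρ0 : 0 ≤ ρ := (norm_nonneg _).trans hρ1
  obtain ⟨s1, hs1⟩ : ∃ s1, s1 = σ1 + nu * ρ1 := ⟨_, rfl⟩
  have hσ1 : σ1 = s1 - nu * ρ1 := by rw [hs1]; ring
  obtain ⟨s, hs⟩ : ∃ s, s = ‖s1‖ + ‖σ2‖ := ⟨_, rfl⟩
  have hs1s : ‖s1‖ ≤ s := by rw [hs]; linarith [norm_nonneg σ2]
  have hs2s : ‖σ2‖ ≤ s := by rw [hs]; linarith [norm_nonneg s1]
  have hs0 : 0 ≤ s := (norm_nonneg _).trans hs1s
  -- sizes
  have bx : ∀ x ∈ ball (0 : ℂ) 4, ‖x‖ ≤ 4 := fun x hx => by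
    rw [mem_ball_zero_iff] at hx; exact hx.le
  have bx1 : ∀ x ∈ ball (0 : ℂ) 4, ‖x - 1‖ ≤ 5 := fun x hx => by
    calc ‖x - 1‖ ≤ ‖x‖ + ‖(1 : ℂ)‖ := norm_sub_le _ _
      _ ≤ 5 := by rw [norm_one]; linarith [bx x hx]
  have bxe : ∀ x ∈ ball (0 : ℂ) 4, ‖x - e‖ ≤ 7 := fun x hx => by
    calc ‖x - e‖ ≤ ‖x‖ + ‖e‖ := norm_sub_le _ _
      _ ≤ 7 := by linarith [bx x hx]
  have be1 : ∀ x ∈ ball (0 : ℂ) 4, ‖e * (x - 1)‖ ≤ 15 := fun x hx => by
    rw [norm_mul]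
    calc ‖e‖ * ‖x - 1‖ ≤ 3 * 5 := mul_le_mul he3 (bx1 x hx) (norm_nonneg _) (by norm_num)
      _ = 15 := by norm_num
  have bh : ∀ x ∈ ball (0 : ℂ) 4, ‖(x - 1) * (x - e)‖ ≤ 35 := fun x hx => by
    rw [norm_mul]
    calc ‖x - 1‖ * ‖x - e‖ ≤ 5 * 7 :=
          mul_le_mul (bx1 x hx) (bxe x hx) (norm_nonneg _) (by norm_num)
      _ = 35 := by norm_num
  have bG : ∀ x ∈ ball (0 : ℂ) 4, ‖(x - 1) * (x - e) + x * (x - 1) + x * (x - e) -
      nu * ((x - 1) * (x - e))‖ ≤ 153 := fun x hx => by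
    have h1 : ‖x * (x - 1)‖ ≤ 20 := by
      rw [norm_mul]
      calc ‖x‖ * ‖x - 1‖ ≤ 4 * 5 :=
            mul_le_mul (bx x hx) (bx1 x hx) (norm_nonneg _) (by norm_num)
        _ = 20 := by norm_num
    have h2 : ‖x * (x - e)‖ ≤ 28 := by
      rw [norm_mul]
      calc ‖x‖ * ‖x - e‖ ≤ 4 * 7 :=
            mul_le_mul (bx x hx) (bxe x hx) (norm_nonneg _) (by norm_num)
        _ = 28 := by norm_num
    have h3 : ‖nu * ((x - 1) * (x - e))‖ ≤ 70 := by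
      rw [norm_mul]
      calc ‖nu‖ * ‖(x - 1) * (x - e)‖ ≤ 2 * 35 :=
            mul_le_mul hnu (bh x hx) (norm_nonneg _) (by norm_num)
        _ = 70 := by norm_num
    calc _ ≤ ‖(x - 1) * (x - e) + x * (x - 1) + x * (x - e)‖ + ‖nu * ((x - 1) * (x - e))‖ :=
          norm_sub_le _ _
      _ ≤ (‖(x - 1) * (x - e)‖ + ‖x * (x - 1)‖ + ‖x * (x - e)‖) + ‖nu * ((x - 1) * (x - e))‖ := by
          gcongr
          exact norm_add₃_le
      _ ≤ 153 := by linarith [bh x hx]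
  have bG1 : ∀ x ∈ ball (0 : ℂ) 4, ‖G1 x‖ ≤ 154 := fun x hx => by
    have h1 : G1 x = (G1 x - ((x - 1) * (x - e) + x * (x - 1) + x * (x - e) -
      nu * ((x - 1) * (x - e)))) + ((x - 1) * (x - e) + x * (x - 1) + x * (x - e) -
      nu * ((x - 1) * (x - e))) := by ring
    rw [h1]
    exact (norm_add_le _ _).trans (by linarith [hG1 x hx, bG x hx])
  have bG2 : ∀ x ∈ ball (0 : ℂ) 4, ‖G2 x‖ ≤ 61 := fun x hx => by
    have h1 : G2 x = (G2 x + x * e * (x - 1)) - x * (e * (x - 1)) := by ring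
    have h2 : ‖x * (e * (x - 1))‖ ≤ 60 := by
      rw [norm_mul]
      calc ‖x‖ * ‖e * (x - 1)‖ ≤ 4 * 15 :=
            mul_le_mul (bx x hx) (be1 x hx) (norm_nonneg _) (by norm_num)
        _ = 60 := by norm_num
    rw [h1]
    exact (norm_sub_le _ _).trans (by linarith [hG2 x hx])
  have lxh : ∀ x : ℂ, 7 / 2 ≤ ‖x‖ → 35 / 8 ≤ ‖x * ((x - 1) * (x - e))‖ := fun x hx => by
    have h1 : 5 / 2 ≤ ‖x - 1‖ := by
      have := norm_sub_norm_le x 1
      rw [norm_one] at this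
      linarith
    have h2 : 1 / 2 ≤ ‖x - e‖ := by
      have := norm_sub_norm_le x e
      linarith
    rw [norm_mul, norm_mul]
    calc (35 / 8 : ℝ) = (7 / 2) * ((5 / 2) * (1 / 2)) := by norm_num
      _ ≤ ‖x‖ * (‖x - 1‖ * ‖x - e‖) := mul_le_mul hx (mul_le_mul h1 h2 (by norm_num)
          (norm_nonneg _)) (by norm_num) (norm_nonneg _)
  have lC : ∀ x ∈ ball (0 : ℂ) 4, 7 / 2 ≤ ‖x‖ → 4 ≤ ‖C x‖ := fun x hx h7 => by
    have h1 := norm_sub_norm_le (x * ((x - 1) * (x - e))) (x * ((x - 1) * (x - e)) - C x)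
    have h2 : x * ((x - 1) * (x - e)) - (x * ((x - 1) * (x - e)) - C x) = C x := by ring
    rw [h2, norm_sub_rev _ (C x)] at h1
    linarith [lxh x h7, hC x hx]
  -- the function `g`
  obtain ⟨g, hg⟩ : ∃ g : ℂ → ℂ, g = fun x => f x + ρ1 * e * x * (x - 1) := ⟨_, rfl⟩
  have hgx : ∀ x, g x = f x + ρ1 * e * x * (x - 1) := fun x => by rw [hg]
  have hgd : DifferentiableOn ℂ g (ball 0 4) := by
    rw [hg]
    exact hf.add (by fun_prop)
  have bρ : ∀ x ∈ ball (0 : ℂ) 4, ‖ρ1 * e * x * (x - 1)‖ ≤ 60 * ρ := fun x hx => by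
    have h1 : ρ1 * e * x * (x - 1) = ρ1 * (x * (e * (x - 1))) := by ring
    rw [h1, norm_mul, norm_mul]
    calc ‖ρ1‖ * (‖x‖ * ‖e * (x - 1)‖) ≤ ρ * (4 * 15) :=
          mul_le_mul hρ1 (mul_le_mul (bx x hx) (be1 x hx) (norm_nonneg _) (by norm_num))
            (mul_nonneg (norm_nonneg _) (norm_nonneg _)) hρ0
      _ = 60 * ρ := by ring
  obtain ⟨M0, hM0⟩ := hfM
  have hbdd : BddAbove ((fun x => ‖g x‖) '' ball (0 : ℂ) 4) := by
    refine ⟨M0 + 60 * ρ, ?_⟩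
    rintro _ ⟨x, hx, rfl⟩
    show ‖g x‖ ≤ _
    rw [hgx]
    exact (norm_add_le _ _).trans (add_le_add (hM0 x hx) (bρ x hx))
  obtain ⟨m, hm⟩ : ∃ m, m = sSup ((fun x => ‖g x‖) '' ball (0 : ℂ) 4) := ⟨_, rfl⟩
  have hgm : ∀ x ∈ ball (0 : ℂ) 4, ‖g x‖ ≤ m := fun x hx => by
    rw [hm]
    exact le_csSup hbdd ⟨x, hx, rfl⟩
  have hmle : ∀ B, (∀ x ∈ ball (0 : ℂ) 4, ‖g x‖ ≤ B) → m ≤ B := fun B hB => by
    rw [hm]
    refine csSup_le ((nonempty_ball.2 (by norm_num)).image _) ?_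
    rintro _ ⟨x, hx, rfl⟩
    exact hB x hx
  have hm0 : 0 ≤ m := (norm_nonneg _).trans (hgm 0 (by simp))
  have hfm : ∀ x ∈ ball (0 : ℂ) 4, ‖f x‖ ≤ m + 60 * ρ := fun x hx => by
    have h1 : f x = g x - ρ1 * e * x * (x - 1) := by rw [hgx]; ring
    rw [h1]
    exact (norm_sub_le _ _).trans (add_le_add (hgm x hx) (bρ x hx))
  -- the linear term
  have hσ1n : ‖σ1‖ ≤ s + 2 * ρ := by
    rw [hσ1]
    refine (norm_sub_le _ _).trans (add_le_add hs1s ?_)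
    rw [norm_mul]
    exact mul_le_mul hnu hρ1 (norm_nonneg _) (by norm_num)
  have bL : ∀ x ∈ ball (0 : ℂ) 4, ‖σ1 * e * (x - 1) + ρ1 * e * (x - 1) +
      σ2 * (x - e) - ρ2 * e‖ ≤ 22 * s + 48 * ρ := fun x hx => by
    have h1 : ‖σ1 * (e * (x - 1))‖ ≤ (s + 2 * ρ) * 15 := by
      rw [norm_mul]
      exact mul_le_mul hσ1n (be1 x hx) (norm_nonneg _) (by positivity)
    have h2 : ‖ρ1 * (e * (x - 1))‖ ≤ ρ * 15 := by
      rw [norm_mul]
      exact mul_le_mul hρ1 (be1 x hx) (norm_nonneg _) hρ0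
    have h3 : ‖σ2 * (x - e)‖ ≤ s * 7 := by
      rw [norm_mul]
      exact mul_le_mul hs2s (bxe x hx) (norm_nonneg _) hs0
    have h4 : ‖ρ2 * e‖ ≤ ρ * 3 := by
      rw [norm_mul]
      exact mul_le_mul hρ2 he3 (norm_nonneg _) hρ0
    have h5 : σ1 * e * (x - 1) + ρ1 * e * (x - 1) + σ2 * (x - e) - ρ2 * e =
        (σ1 * (e * (x - 1)) + ρ1 * (e * (x - 1)) + σ2 * (x - e)) - ρ2 * e := by ring
    rw [h5]
    refine (norm_sub_le _ _).trans ?_
    have h6 := norm_add₃_le (a := σ1 * (e * (x - 1))) (b := ρ1 * (e * (x - 1)))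
      (c := σ2 * (x - e))
    linarith
  have bW : ∀ x ∈ ball (0 : ℂ) 4, ‖ρ1 * e * (x - 1) + ρ2 * (x - e)‖ ≤ 22 * ρ := fun x hx => by
    have h2 : ‖ρ1 * (e * (x - 1))‖ ≤ ρ * 15 := by
      rw [norm_mul]
      exact mul_le_mul hρ1 (be1 x hx) (norm_nonneg _) hρ0
    have h3 : ‖ρ2 * (x - e)‖ ≤ ρ * 7 := by
      rw [norm_mul]
      exact mul_le_mul hρ2 (bxe x hx) (norm_nonneg _) hρ0
    rw [mul_assoc ρ1]
    exact (norm_add_le _ _).trans (by linarith)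
  -- the derivative of `f`
  have hf' : DifferentiableOn ℂ (deriv f) (ball 0 4) := hf.deriv isOpen_ball
  have bf' : ∀ x ∈ ball (0 : ℂ) 4, ‖deriv f x‖ ≤ 22 * s + 39 * m + 2700 * ρ := by
    apply maxmod hf'
    intro x h7 h4
    have hx := (mem_ball_zero_iff (a := x) (r := (4 : ℝ))).2 h4
    obtain ⟨D, hD⟩ : ∃ D, D = deriv f x - (σ1 * e * (x - 1) + ρ1 * e * (x - 1) +
      σ2 * (x - e) - ρ2 * e) := ⟨_, rfl⟩
    have h1 : C x * D = f x * G1 x - (ρ1 * e * (x - 1) + ρ2 * (x - e)) * G2 x := by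
      rw [hD]
      linear_combination heq x hx
    have h2 : ‖C x * D‖ ≤ (m + 60 * ρ) * 154 + 22 * ρ * 61 := by
      rw [h1]
      refine (norm_sub_le _ _).trans (add_le_add ?_ ?_)
      · rw [norm_mul]
        exact mul_le_mul (hfm x hx) (bG1 x hx) (norm_nonneg _) (by positivity)
      · rw [norm_mul]
        exact mul_le_mul (bW x hx) (bG2 x hx) (norm_nonneg _) (by positivity)
    rw [norm_mul] at h2
    have h3 := mul_le_mul_of_nonneg_right (lC x hx h7) (norm_nonneg D)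
    have h5 : deriv f x = D + (σ1 * e * (x - 1) + ρ1 * e * (x - 1) +
      σ2 * (x - e) - ρ2 * e) := by rw [hD]; ring
    rw [h5]
    refine (norm_add_le _ _).trans ?_
    have h6 := bL x hx
    linarith
  -- the error
  have hP : ∀ x ∈ ball (0 : ℂ) 4, ‖x * ((x - 1) * (x - e)) * deriv g x -
      ((x - 1) * (x - e) + x * (x - 1) + x * (x - e) - nu * ((x - 1) * (x - e))) * g x -
      x * ((x - 1) * (x - e)) * (s1 * e * (x - 1) + σ2 * (x - e))‖ ≤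
      3000 * η * (m + s + ρ) := by
    intro x hx
    have hfd : HasDerivAt f (deriv f x) x :=
      ((hf x hx).differentiableAt (isOpen_ball.mem_nhds hx)).hasDerivAt
    have hgd' : deriv g x = deriv f x + ρ1 * e * (2 * x - 1) := by
      have h1 := hfd.add (((hasDerivAt_id' x).const_mul (ρ1 * e)).mul
        ((hasDerivAt_id' x).sub_const 1))
      have h2 : HasDerivAt g (deriv f x + (ρ1 * e * 1 * (x - 1) + ρ1 * e * x * 1)) x := by
        rw [hg]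
        exact h1
      rw [h2.deriv]
      ring
    have h1 : x * ((x - 1) * (x - e)) * deriv g x -
        ((x - 1) * (x - e) + x * (x - 1) + x * (x - e) - nu * ((x - 1) * (x - e))) * g x -
        x * ((x - 1) * (x - e)) * (s1 * e * (x - 1) + σ2 * (x - e)) =
        -((C x - x * ((x - 1) * (x - e))) * (deriv f x - (σ1 * e * (x - 1) + ρ1 * e * (x - 1) +
          σ2 * (x - e) - ρ2 * e))) -
        (ρ1 * e * (x - 1) + ρ2 * (x - e)) * (G2 x + x * e * (x - 1)) +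
        f x * (G1 x - ((x - 1) * (x - e) + x * (x - 1) + x * (x - e) -
          nu * ((x - 1) * (x - e)))) := by
      rw [hgd', hgx, hs1]
      linear_combination heq x hx
    rw [h1]
    have e1 : ‖-((C x - x * ((x - 1) * (x - e))) * (deriv f x - (σ1 * e * (x - 1) +
        ρ1 * e * (x - 1) + σ2 * (x - e) - ρ2 * e)))‖ ≤
        η * ((22 * s + 39 * m + 2700 * ρ) + (22 * s + 48 * ρ)) := by
      rw [norm_neg, norm_mul]
      exact mul_le_mul (hC x hx) ((norm_sub_le _ _).trans (add_le_add (bf' x hx) (bL x hx)))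
        (norm_nonneg _) hη.le
    have e2 : ‖(ρ1 * e * (x - 1) + ρ2 * (x - e)) * (G2 x + x * e * (x - 1))‖ ≤ 22 * ρ * η := by
      rw [norm_mul]
      exact mul_le_mul (bW x hx) (hG2 x hx) (norm_nonneg _) (by positivity)
    have e3 : ‖f x * (G1 x - ((x - 1) * (x - e) + x * (x - 1) + x * (x - e) -
          nu * ((x - 1) * (x - e))))‖ ≤ (m + 60 * ρ) * η := by
      rw [norm_mul]
      exact mul_le_mul (hfm x hx) (hG1 x hx) (norm_nonneg _) (by positivity)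
    refine (norm_add_le _ _).trans ((add_le_add (norm_sub_le _ _) le_rfl).trans ?_)
    have e4 : 0 ≤ η * s := by positivity
    have e5 : 0 ≤ η * m := by positivity
    have e6 : 0 ≤ η * ρ := by positivity
    nlinarith
  obtain ⟨r1, r2, r3⟩ := linear hc he3 he0 he1 hgd hP
  rw [← hK1] at r1 r2 r3
  have hm1 := hmle _ r1
  have hsum : m + s ≤ Q * η * (m + s + ρ) := by
    rw [hs, hQ]
    rw [hs] at hm1 r2 r3
    linarith
  have hfin : m + s ≤ 2 * Q * η * ρ := by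
    have h1 : Q * η * (m + s) ≤ 1 / 2 * (m + s) :=
      mul_le_mul_of_nonneg_right (by linarith) (by positivity)
    linarith
  rw [← hρ, ← hs1]
  refine ⟨fun x hx => ?_, ?_, ?_⟩
  · rw [← hgx]
    linarith [hgm x hx]
  · linarith
  · linarith

end Pool.Agent.H583_Fol
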