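import Pool.Agent.H583_Fol.Defs
import Pool.Agent.H583_Fol.St.T0

set_option autoImplicit false

namespace Pool.Agent.H583_Fol

open Complex Set Metric Filter Topology

/-! ## T3. Identities from integrability -/

namespace P3

/-! ### Slices -/

theorem s1 {f : ℂ → ℂ → ℂ} {U : Set (ℂ × ℂ)} (hU : IsOpen U) (hf : Hol2 f U) {x y : ℂ}
    (h : (x, y) ∈ U) : HasDerivAt (fun t => f t y) (d1 f x y) x := by
  have h1 : DifferentiableAt ℂ (fun p : ℂ × ℂ => f p.1 p.2) (x, y) :=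
    (hf _ h).differentiableAt (hU.mem_nhds h)
  have h2 : DifferentiableAt ℂ (fun t : ℂ => ((t, y) : ℂ × ℂ)) x :=
    differentiableAt_id.prodMk (differentiableAt_const _)
  have h3 : DifferentiableAt ℂ (fun t => f t y) x :=
    DifferentiableAt.comp x (g := fun p : ℂ × ℂ => f p.1 p.2) h1 h2
  exact h3.hasDerivAt

theorem s2 {f : ℂ → ℂ → ℂ} {U : Set (ℂ × ℂ)} (hU : IsOpen U) (hf : Hol2 f U) {x y : ℂ}
    (h : (x, y) ∈ U) : HasDerivAt (fun t => f x t) (d2 f x y) y := by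
  have h1 : DifferentiableAt ℂ (fun p : ℂ × ℂ => f p.1 p.2) (x, y) :=
    (hf _ h).differentiableAt (hU.mem_nhds h)
  have h2 : DifferentiableAt ℂ (fun t : ℂ => ((x, t) : ℂ × ℂ)) y :=
    (differentiableAt_const _).prodMk differentiableAt_id
  have h3 : DifferentiableAt ℂ (fun t => f x t) y :=
    DifferentiableAt.comp y (g := fun p : ℂ × ℂ => f p.1 p.2) h1 h2
  exact h3.hasDerivAt

theorem t3 {f : ℂ → ℂ → ℂ → ℂ} (hf : Hol3 f univ) (x y v : ℂ) :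
    HasDerivAt (fun t => f x y t) (D3 f x y v) v := by
  have h1 : DifferentiableAt ℂ (fun p : ℂ × ℂ × ℂ => f p.1 p.2.1 p.2.2) (x, y, v) :=
    (hf _ (mem_univ _)).differentiableAt univ_mem
  have h2 : DifferentiableAt ℂ (fun t : ℂ => ((x, y, t) : ℂ × ℂ × ℂ)) v :=
    (differentiableAt_const _).prodMk ((differentiableAt_const _).prodMk differentiableAt_id)
  have h3 : DifferentiableAt ℂ (fun t => f x y t) v :=
    DifferentiableAt.comp v (g := fun p : ℂ × ℂ × ℂ => f p.1 p.2.1 p.2.2) h1 h2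
  exact h3.hasDerivAt

/-! ### Derivatives along the graph -/

theorem g1 {f : ℂ → ℂ → ℂ → ℂ} (hf : Hol3 f univ) {φ : ℂ → ℂ → ℂ} {U : Set (ℂ × ℂ)}
    (hU : IsOpen U) (hφ : Hol2 φ U) {x y : ℂ} (h : (x, y) ∈ U) :
    HasDerivAt (fun t => f t y (φ t y))
      (D1 f x y (φ x y) + D3 f x y (φ x y) * d1 φ x y) x := by
  have h1 := s1 hU (comp3 hf hφ) h
  rwa [d1_comp3 hf hU hφ h] at h1

theorem g2 {f : ℂ → ℂ → ℂ → ℂ} (hf : Hol3 f univ) {φ : ℂ → ℂ → ℂ} {U : Set (ℂ × ℂ)}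
    (hU : IsOpen U) (hφ : Hol2 φ U) {x y : ℂ} (h : (x, y) ∈ U) :
    HasDerivAt (fun t => f x t (φ x t))
      (D2 f x y (φ x y) + D3 f x y (φ x y) * d2 φ x y) y := by
  have h1 := s2 hU (comp3 hf hφ) h
  rwa [d2_comp3 hf hU hφ h] at h1

theorem c13 {f : ℂ → ℂ → ℂ → ℂ} (hf : Hol3 f univ) : D1 (D3 f) = D3 (D1 f) := by
  funext x y v
  exact D13_comm isOpen_univ hf (mem_univ _)

theorem c23 {f : ℂ → ℂ → ℂ → ℂ} (hf : Hol3 f univ) : D2 (D3 f) = D3 (D2 f) := by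
  funext x y v
  exact D23_comm isOpen_univ hf (mem_univ _)

/-! ### Derivatives of the integrability condition -/

theorem int1 {a b c : ℂ → ℂ → ℂ → ℂ} (ha : Hol3 a univ) (hb : Hol3 b univ) (hc : Hol3 c univ)
    (hI : Integ a b c) (x y v : ℂ) :
    D3 a x y v * (D2 c x y v - D3 b x y v) +
      a x y v * (D3 (D2 c) x y v - D3 (D3 b) x y v) +
      D3 b x y v * (D3 a x y v - D1 c x y v) +
      b x y v * (D3 (D3 a) x y v - D3 (D1 c) x y v) +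
      D3 c x y v * (D1 b x y v - D2 a x y v) +
      c x y v * (D3 (D1 b) x y v - D3 (D2 a) x y v) = 0 := by
  have hu := isOpen_univ (X := ℂ × ℂ × ℂ)
  have h1 := (((t3 ha x y v).mul ((t3 (hc.D2 hu) x y v).sub (t3 (hb.D3 hu) x y v))).add
    ((t3 hb x y v).mul ((t3 (ha.D3 hu) x y v).sub (t3 (hc.D1 hu) x y v)))).add
    ((t3 hc x y v).mul ((t3 (hb.D1 hu) x y v).sub (t3 (ha.D2 hu) x y v)))
  have h2 : HasDerivAt (fun _ : ℂ => (0 : ℂ)) 0 v := hasDerivAt_const v 0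
  have h3 := (h1.congr_of_eventuallyEq (f₁ := fun _ : ℂ => (0 : ℂ))
    (Filter.Eventually.of_forall fun t => (hI x y t).symm)).unique h2
  simp only [Pi.sub_apply] at h3
  linear_combination h3

theorem int2 {a b c : ℂ → ℂ → ℂ → ℂ} (ha : Hol3 a univ) (hb : Hol3 b univ) (hc : Hol3 c univ)
    (hI : Integ a b c) (x y v : ℂ) :
    D3 (D3 a) x y v * (D2 c x y v - D3 b x y v) +
      2 * (D3 a x y v * (D3 (D2 c) x y v - D3 (D3 b) x y v)) +
      a x y v * (D3 (D3 (D2 c)) x y v - D3 (D3 (D3 b)) x y v) +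
      D3 (D3 b) x y v * (D3 a x y v - D1 c x y v) +
      2 * (D3 b x y v * (D3 (D3 a) x y v - D3 (D1 c) x y v)) +
      b x y v * (D3 (D3 (D3 a)) x y v - D3 (D3 (D1 c)) x y v) +
      D3 (D3 c) x y v * (D1 b x y v - D2 a x y v) +
      2 * (D3 c x y v * (D3 (D1 b) x y v - D3 (D2 a) x y v)) +
      c x y v * (D3 (D3 (D1 b)) x y v - D3 (D3 (D2 a)) x y v) = 0 := by
  have hu := isOpen_univ (X := ℂ × ℂ × ℂ)
  have h1 := ((((((t3 (ha.D3 hu) x y v).mul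
      ((t3 (hc.D2 hu) x y v).sub (t3 (hb.D3 hu) x y v))).add
    ((t3 ha x y v).mul ((t3 ((hc.D2 hu).D3 hu) x y v).sub (t3 ((hb.D3 hu).D3 hu) x y v)))).add
    ((t3 (hb.D3 hu) x y v).mul ((t3 (ha.D3 hu) x y v).sub (t3 (hc.D1 hu) x y v)))).add
    ((t3 hb x y v).mul ((t3 ((ha.D3 hu).D3 hu) x y v).sub (t3 ((hc.D1 hu).D3 hu) x y v)))).add
    ((t3 (hc.D3 hu) x y v).mul ((t3 (hb.D1 hu) x y v).sub (t3 (ha.D2 hu) x y v)))).add
    ((t3 hc x y v).mul ((t3 ((hb.D1 hu).D3 hu) x y v).sub (t3 ((ha.D2 hu).D3 hu) x y v)))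
  have h2 : HasDerivAt (fun _ : ℂ => (0 : ℂ)) 0 v := hasDerivAt_const v 0
  have h3 := (h1.congr_of_eventuallyEq (f₁ := fun _ : ℂ => (0 : ℂ))
    (Filter.Eventually.of_forall fun t => (int1 ha hb hc hI x y t).symm)).unique h2
  simp only [Pi.sub_apply] at h3
  linear_combination h3

theorem alg2 {C C1 C2 V V1 V2 N1 N2 N21 N12 M1 M2 M21 M12 : ℂ} (hC : C ≠ 0)
    (h1 : C * (N21 - N12) = N2 * C1 - N1 * C2)
    (h2 : C * (M21 - M12) - (M2 * C1 - M1 * C2) - (V1 * N2 - V2 * N1) + V * (N21 - N12) =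
      N1 * M2 - N2 * M1) :
    ((M21 - (V1 * (N2 / C) + V * ((N21 * C - N2 * C1) / C ^ 2))) * C -
        (M2 - V * (N2 / C)) * C1) / C ^ 2 -
      ((M12 - (V2 * (N1 / C) + V * ((N12 * C - N1 * C2) / C ^ 2))) * C -
        (M1 - V * (N1 / C)) * C2) / C ^ 2 =
      N1 / C * ((M2 - V * (N2 / C)) / C) - N2 / C * ((M1 - V * (N1 / C)) / C) := by
  rw [← sub_eq_zero]
  have h3 : ((M21 - (V1 * (N2 / C) + V * ((N21 * C - N2 * C1) / C ^ 2))) * C -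
        (M2 - V * (N2 / C)) * C1) / C ^ 2 -
      ((M12 - (V2 * (N1 / C) + V * ((N12 * C - N1 * C2) / C ^ 2))) * C -
        (M1 - V * (N1 / C)) * C2) / C ^ 2 -
      (N1 / C * ((M2 - V * (N2 / C)) / C) - N2 / C * ((M1 - V * (N1 / C)) / C)) =
      (C * ((C * (M21 - M12) - (M2 * C1 - M1 * C2) - (V1 * N2 - V2 * N1) + V * (N21 - N12)) -
      (N1 * M2 - N2 * M1)) - 2 * V * (C * (N21 - N12) - (N2 * C1 - N1 * C2))) / C ^ 3 := by
    field_simp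
    ring
  rw [h3, h1, h2]
  simp

end P3

open P3

/-- (i) of the paper -/
theorem id_i {a b c : ℂ → ℂ → ℂ → ℂ} (ha : Hol3 a univ) (hb : Hol3 b univ) (hc : Hol3 c univ)
    (hI : Integ a b c) {φ : ℂ → ℂ → ℂ} {U : Set (ℂ × ℂ)} (hU : IsOpen U) (hφ : Hol2 φ U) {x y : ℂ}
    (h : (x, y) ∈ U) :
    c x y (φ x y) * (d1 (fun x y => c x y (φ x y) * d2 φ x y + b x y (φ x y)) x y -
        d2 (fun x y => c x y (φ x y) * d1 φ x y + a x y (φ x y)) x y) +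
      (c x y (φ x y) * d1 φ x y + a x y (φ x y)) * (D2 c x y (φ x y) - D3 b x y (φ x y)) -
      (c x y (φ x y) * d2 φ x y + b x y (φ x y)) * (D1 c x y (φ x y) - D3 a x y (φ x y)) = 0 := by
  have e1 : d1 (fun x y => c x y (φ x y) * d2 φ x y + b x y (φ x y)) x y =
      (D1 c x y (φ x y) + D3 c x y (φ x y) * d1 φ x y) * d2 φ x y +
        c x y (φ x y) * d1 (d2 φ) x y + (D1 b x y (φ x y) + D3 b x y (φ x y) * d1 φ x y) :=
    (((g1 hc hU hφ h).mul (s1 hU (hφ.d2 hU) h)).add (g1 hb hU hφ h)).deriv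
  have e2 : d2 (fun x y => c x y (φ x y) * d1 φ x y + a x y (φ x y)) x y =
      (D2 c x y (φ x y) + D3 c x y (φ x y) * d2 φ x y) * d1 φ x y +
        c x y (φ x y) * d2 (d1 φ) x y + (D2 a x y (φ x y) + D3 a x y (φ x y) * d2 φ x y) :=
    (((g2 hc hU hφ h).mul (s2 hU (hφ.d1 hU) h)).add (g2 ha hU hφ h)).deriv
  have e3 := d_comm hU hφ h
  have e4 := hI x y (φ x y)
  unfold IntegAt at e4
  rw [e1, e2, e3]
  linear_combination e4

namespace P3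

/-- the `v`-derivative of a quotient -/
theorem q3 {b c : ℂ → ℂ → ℂ → ℂ} (hb : Hol3 b univ) (hc : Hol3 c univ) {x y v : ℂ}
    (hne : c x y v ≠ 0) : D3 (fun x y v => b x y v / c x y v) x y v =
      (D3 b x y v * c x y v - b x y v * D3 c x y v) / c x y v ^ 2 :=
  ((t3 hb x y v).div (t3 hc x y v) hne).deriv

theorem alg3 {C Cx Cy Cv Cvx Cvy Cvv a ay av avy avv b bx bv bvx bvv p1 p2 : ℂ} (hC : C ≠ 0)
    (e3 : a * (Cy - bv) + b * (av - Cx) + C * (bx - ay) = 0)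
    (e4 : av * (Cy - bv) + a * (Cvy - bvv) + bv * (av - Cx) + b * (avv - Cvx) +
      Cv * (bx - ay) + C * (bvx - avy) = 0) :
    (((bvx + bvv * p1) * C + bv * (Cx + Cv * p1) - ((bx + bv * p1) * Cv + b * (Cvx + Cvv * p1))) *
        C ^ 2 - (bv * C - b * Cv) * (((2 : ℕ) : ℂ) * C ^ (2 - 1) * (Cx + Cv * p1))) / (C ^ 2) ^ 2 -
      (((avy + avv * p2) * C + av * (Cy + Cv * p2) - ((ay + av * p2) * Cv + a * (Cvy + Cvv * p2))) *
        C ^ 2 - (av * C - a * Cv) * (((2 : ℕ) : ℂ) * C ^ (2 - 1) * (Cy + Cv * p2))) / (C ^ 2) ^ 2 =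
      (C * p1 + a) / C * (((bvv * C - b * Cvv) * C ^ 2 - (bv * C - b * Cv) * (2 * C * Cv)) /
        (C ^ 2) ^ 2) -
      (C * p2 + b) / C * (((avv * C - a * Cvv) * C ^ 2 - (av * C - a * Cv) * (2 * C * Cv)) /
        (C ^ 2) ^ 2) := by
  rw [← sub_eq_zero]
  have h3 : (((bvx + bvv * p1) * C + bv * (Cx + Cv * p1) -
        ((bx + bv * p1) * Cv + b * (Cvx + Cvv * p1))) *
        C ^ 2 - (bv * C - b * Cv) * (((2 : ℕ) : ℂ) * C ^ (2 - 1) * (Cx + Cv * p1))) / (C ^ 2) ^ 2 -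
      (((avy + avv * p2) * C + av * (Cy + Cv * p2) - ((ay + av * p2) * Cv + a * (Cvy + Cvv * p2))) *
        C ^ 2 - (av * C - a * Cv) * (((2 : ℕ) : ℂ) * C ^ (2 - 1) * (Cy + Cv * p2))) / (C ^ 2) ^ 2 -
      ((C * p1 + a) / C * (((bvv * C - b * Cvv) * C ^ 2 - (bv * C - b * Cv) * (2 * C * Cv)) /
        (C ^ 2) ^ 2) -
      (C * p2 + b) / C * (((avv * C - a * Cvv) * C ^ 2 - (av * C - a * Cv) * (2 * C * Cv)) /
        (C ^ 2) ^ 2)) =
      (C * (av * (Cy - bv) + a * (Cvy - bvv) + bv * (av - Cx) + b * (avv - Cvx) +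
      Cv * (bx - ay) + C * (bvx - avy)) -
        2 * Cv * (a * (Cy - bv) + b * (av - Cx) + C * (bx - ay))) / C ^ 3 := by
    push_cast
    norm_num
    field_simp
    ring
  rw [h3, e3, e4]
  simp

/-- the second `v`-derivative of a quotient -/
theorem q33 {b c : ℂ → ℂ → ℂ → ℂ} (hb : Hol3 b univ) (hc : Hol3 c univ) {x y v : ℂ}
    (hne : c x y v ≠ 0) : D3 (D3 (fun x y v => b x y v / c x y v)) x y v =
      ((D3 (D3 b) x y v * c x y v - b x y v * D3 (D3 c) x y v) * c x y v ^ 2 -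
        (D3 b x y v * c x y v - b x y v * D3 c x y v) * (2 * c x y v * D3 c x y v)) /
          (c x y v ^ 2) ^ 2 := by
  have hu := isOpen_univ (X := ℂ × ℂ × ℂ)
  have h1 := (((t3 (hb.D3 hu) x y v).mul (t3 hc x y v)).sub
    ((t3 hb x y v).mul (t3 (hc.D3 hu) x y v))).div ((t3 hc x y v).pow 2) (pow_ne_zero 2 hne)
  have h2 : ∀ᶠ t in 𝓝 v, c x y t ≠ 0 := (t3 hc x y v).continuousAt.eventually_ne hne
  have h3 := (h1.congr_of_eventuallyEq (f₁ := fun t => D3 (fun x y v => b x y v / c x y v) x y t)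
    (h2.mono fun t ht => q3 hb hc ht)).deriv
  have h4 : D3 (D3 (fun x y v => b x y v / c x y v)) x y v = _ := h3
  rw [h4]
  simp only [Pi.sub_apply, Pi.mul_apply, Pi.pow_apply]
  congr 1
  push_cast
  ring

end P3

/-- (ii) of the paper: `p1 = P_v`, `q1 = Q_v`, `p2 = P_vv`, `q2 = Q_vv` on the graph, where
`P = a / c`, `Q = b / c` -/
theorem id_ii {a b c : ℂ → ℂ → ℂ → ℂ} (ha : Hol3 a univ) (hb : Hol3 b univ) (hc : Hol3 c univ)
    (hI : Integ a b c) {φ : ℂ → ℂ → ℂ} {U : Set (ℂ × ℂ)} (hU : IsOpen U) (hφ : Hol2 φ U) {x y : ℂ}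
    (h : (x, y) ∈ U) (hne : c x y (φ x y) ≠ 0) :
    d1 (fun x y => D3 (fun x y v => b x y v / c x y v) x y (φ x y)) x y -
        d2 (fun x y => D3 (fun x y v => a x y v / c x y v) x y (φ x y)) x y =
      (c x y (φ x y) * d1 φ x y + a x y (φ x y)) / c x y (φ x y) *
          D3 (D3 (fun x y v => b x y v / c x y v)) x y (φ x y) -
        (c x y (φ x y) * d2 φ x y + b x y (φ x y)) / c x y (φ x y) *
          D3 (D3 (fun x y v => a x y v / c x y v)) x y (φ x y) := by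
  have hu := isOpen_univ (X := ℂ × ℂ × ℂ)
  have f1 := (((g1 (hb.D3 hu) hU hφ h).mul (g1 hc hU hφ h)).sub
    ((g1 hb hU hφ h).mul (g1 (hc.D3 hu) hU hφ h))).div ((g1 hc hU hφ h).pow 2)
      (pow_ne_zero 2 hne)
  have f2 := (((g2 (ha.D3 hu) hU hφ h).mul (g2 hc hU hφ h)).sub
    ((g2 ha hU hφ h).mul (g2 (hc.D3 hu) hU hφ h))).div ((g2 hc hU hφ h).pow 2)
      (pow_ne_zero 2 hne)
  have n1 : ∀ᶠ t in 𝓝 x, c t y (φ t y) ≠ 0 := (g1 hc hU hφ h).continuousAt.eventually_ne hne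
  have n2 : ∀ᶠ t in 𝓝 y, c x t (φ x t) ≠ 0 := (g2 hc hU hφ h).continuousAt.eventually_ne hne
  have e1 := (f1.congr_of_eventuallyEq
    (f₁ := fun t => D3 (fun x y v => b x y v / c x y v) t y (φ t y))
    (n1.mono fun t ht => q3 hb hc ht)).deriv
  have e2 := (f2.congr_of_eventuallyEq
    (f₁ := fun t => D3 (fun x y v => a x y v / c x y v) x t (φ x t))
    (n2.mono fun t ht => q3 ha hc ht)).deriv
  have e1' : d1 (fun x y => D3 (fun x y v => b x y v / c x y v) x y (φ x y)) x y = _ := e1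
  have e2' : d2 (fun x y => D3 (fun x y v => a x y v / c x y v) x y (φ x y)) x y = _ := e2
  have e3 := hI x y (φ x y)
  unfold IntegAt at e3
  have e4 := int1 ha hb hc hI x y (φ x y)
  rw [e1', e2', q33 hb hc hne, q33 ha hc hne, c13 hb, c13 hc, c23 ha, c23 hc]
  simp only [Pi.sub_apply, Pi.mul_apply, Pi.pow_apply]
  exact alg3 hne e3 e4

/-- the derivative of the equations of the leaf -/
theorem P3.leafd {a b c : ℂ → ℂ → ℂ → ℂ} (ha : Hol3 a univ) (hb : Hol3 b univ) (hc : Hol3 c univ)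
    {φ : ℂ → ℂ → ℂ} {U : Set (ℂ × ℂ)} (hU : IsOpen U) (hφ : Hol2 φ U)
    (ex : ∀ x y, (x, y) ∈ U → c x y (φ x y) * d1 φ x y + a x y (φ x y) = 0)
    (ey : ∀ x y, (x, y) ∈ U → c x y (φ x y) * d2 φ x y + b x y (φ x y) = 0) {x y : ℂ}
    (h : (x, y) ∈ U) :
    D1 c x y (φ x y) * d2 φ x y - D2 c x y (φ x y) * d1 φ x y + D1 b x y (φ x y) +
      D3 b x y (φ x y) * d1 φ x y - D2 a x y (φ x y) - D3 a x y (φ x y) * d2 φ x y = 0 := by
  have e1 := ((g1 hc hU hφ h).mul (s1 hU (hφ.d2 hU) h)).add (g1 hb hU hφ h)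
  have e2 := ((g2 hc hU hφ h).mul (s2 hU (hφ.d1 hU) h)).add (g2 ha hU hφ h)
  have e3 := d_comm hU hφ h
  have n1 : ∀ᶠ t in 𝓝 x, (t, y) ∈ U :=
    (Continuous.prodMk_left y).continuousAt.eventually_mem (hU.mem_nhds h)
  have n2 : ∀ᶠ t in 𝓝 y, (x, t) ∈ U :=
    (Continuous.prodMk_right x).continuousAt.eventually_mem (hU.mem_nhds h)
  have e4 := (e1.congr_of_eventuallyEq (f₁ := fun _ : ℂ => (0 : ℂ))
    (n1.mono fun t ht => (ey t y ht).symm)).unique (hasDerivAt_const x 0)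
  have e5 := (e2.congr_of_eventuallyEq (f₁ := fun _ : ℂ => (0 : ℂ))
    (n2.mono fun t ht => (ex x t ht).symm)).unique (hasDerivAt_const y 0)
  rw [e3] at e4
  linear_combination e4 - e5

/-- along a leaf: `β₁ = (jN1, jN2) / jC` is closed, in a form valid also where `jC = 0` -/
theorem closed1 {a b c : ℂ → ℂ → ℂ → ℂ} (ha : Hol3 a univ) (hb : Hol3 b univ) (hc : Hol3 c univ)
    (hI : Integ a b c) {φ : ℂ → ℂ → ℂ} {U : Set (ℂ × ℂ)} (hU : IsOpen U) (hφ : Hol2 φ U)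
    (ex : ∀ x y, (x, y) ∈ U → c x y (φ x y) * d1 φ x y + a x y (φ x y) = 0)
    (ey : ∀ x y, (x, y) ∈ U → c x y (φ x y) * d2 φ x y + b x y (φ x y) = 0) {x y : ℂ}
    (h : (x, y) ∈ U) :
    jC c φ x y * (d1 (jN2 b c φ) x y - d2 (jN1 a c φ) x y) =
      jN2 b c φ x y * d1 (jC c φ) x y - jN1 a c φ x y * d2 (jC c φ) x y := by
  have hu := isOpen_univ (X := ℂ × ℂ × ℂ)
  have e1 : d1 (jN2 b c φ) x y =
      (D1 (D3 b) x y (φ x y) + D3 (D3 b) x y (φ x y) * d1 φ x y) +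
        ((D1 (D3 c) x y (φ x y) + D3 (D3 c) x y (φ x y) * d1 φ x y) * d2 φ x y +
          D3 c x y (φ x y) * d1 (d2 φ) x y) :=
    ((g1 (hb.D3 hu) hU hφ h).add
      ((g1 (hc.D3 hu) hU hφ h).mul (s1 hU (hφ.d2 hU) h))).deriv
  have e2 : d2 (jN1 a c φ) x y =
      (D2 (D3 a) x y (φ x y) + D3 (D3 a) x y (φ x y) * d2 φ x y) +
        ((D2 (D3 c) x y (φ x y) + D3 (D3 c) x y (φ x y) * d2 φ x y) * d1 φ x y +
          D3 c x y (φ x y) * d2 (d1 φ) x y) :=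
    ((g2 (ha.D3 hu) hU hφ h).add
      ((g2 (hc.D3 hu) hU hφ h).mul (s2 hU (hφ.d1 hU) h))).deriv
  have e3 : d1 (jC c φ) x y = D1 c x y (φ x y) + D3 c x y (φ x y) * d1 φ x y :=
    (g1 hc hU hφ h).deriv
  have e4 : d2 (jC c φ) x y = D2 c x y (φ x y) + D3 c x y (φ x y) * d2 φ x y :=
    (g2 hc hU hφ h).deriv
  have e5 := int1 ha hb hc hI x y (φ x y)
  have e6 := leafd ha hb hc hU hφ ex ey h
  have e7 : a x y (φ x y) = -(c x y (φ x y) * d1 φ x y) := by linear_combination ex x y h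
  have e8 : b x y (φ x y) = -(c x y (φ x y) * d2 φ x y) := by linear_combination ey x y h
  rw [e1, e2, e3, e4, d_comm hU hφ h, c13 hb, c13 hc, c23 ha, c23 hc]
  rw [e7, e8] at e5
  unfold jC jN1 jN2
  linear_combination e5 - D3 c x y (φ x y) * e6

/-- along a leaf: `d β₂ = β₁ ∧ β₂` -/
theorem closed2 {a b c : ℂ → ℂ → ℂ → ℂ} (ha : Hol3 a univ) (hb : Hol3 b univ) (hc : Hol3 c univ)
    (hI : Integ a b c) {φ : ℂ → ℂ → ℂ} {U : Set (ℂ × ℂ)} (hU : IsOpen U) (hφ : Hol2 φ U)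
    (ex : ∀ x y, (x, y) ∈ U → c x y (φ x y) * d1 φ x y + a x y (φ x y) = 0)
    (ey : ∀ x y, (x, y) ∈ U → c x y (φ x y) * d2 φ x y + b x y (φ x y) = 0) {x y : ℂ}
    (h : (x, y) ∈ U) (hne : jC c φ x y ≠ 0) :
    d1 (jQ2 b c φ) x y - d2 (jP2 a c φ) x y =
      jN1 a c φ x y / jC c φ x y * jQ2 b c φ x y - jN2 b c φ x y / jC c φ x y * jP2 a c φ x y := by
  have hu := isOpen_univ (X := ℂ × ℂ × ℂ)
  have fC1 : HasDerivAt (fun t => jC c φ t y) (D1 c x y (φ x y) + D3 c x y (φ x y) * d1 φ x y) x :=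
    g1 hc hU hφ h
  have fC2 : HasDerivAt (fun t => jC c φ x t) (D2 c x y (φ x y) + D3 c x y (φ x y) * d2 φ x y) y :=
    g2 hc hU hφ h
  have fV1 : HasDerivAt (fun t => jCv c φ t y)
      (D3 (D1 c) x y (φ x y) + D3 (D3 c) x y (φ x y) * d1 φ x y) x := by
    rw [← c13 hc]
    exact g1 (hc.D3 hu) hU hφ h
  have fV2 : HasDerivAt (fun t => jCv c φ x t)
      (D3 (D2 c) x y (φ x y) + D3 (D3 c) x y (φ x y) * d2 φ x y) y := by
    rw [← c23 hc]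
    exact g2 (hc.D3 hu) hU hφ h
  have fN2 : HasDerivAt (fun t => jN2 b c φ t y)
      ((D3 (D1 b) x y (φ x y) + D3 (D3 b) x y (φ x y) * d1 φ x y) +
        ((D3 (D1 c) x y (φ x y) + D3 (D3 c) x y (φ x y) * d1 φ x y) * d2 φ x y +
          D3 c x y (φ x y) * d2 (d1 φ) x y)) x := by
    rw [← c13 hc, ← c13 hb, ← d_comm hU hφ h]
    exact (g1 (hb.D3 hu) hU hφ h).add
      ((g1 (hc.D3 hu) hU hφ h).mul (s1 hU (hφ.d2 hU) h))
  have fN1 : HasDerivAt (fun t => jN1 a c φ x t)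
      ((D3 (D2 a) x y (φ x y) + D3 (D3 a) x y (φ x y) * d2 φ x y) +
        ((D3 (D2 c) x y (φ x y) + D3 (D3 c) x y (φ x y) * d2 φ x y) * d1 φ x y +
          D3 c x y (φ x y) * d2 (d1 φ) x y)) y := by
    rw [← c23 hc, ← c23 ha]
    exact (g2 (ha.D3 hu) hU hφ h).add
      ((g2 (hc.D3 hu) hU hφ h).mul (s2 hU (hφ.d1 hU) h))
  have k1 : ∀ {f : ℂ → ℂ → ℂ → ℂ}, Hol3 f univ → D1 (D3 (D3 f)) = D3 (D3 (D1 f)) := by
    intro f hf
    rw [c13 (hf.D3 hu), c13 hf]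
  have k2 : ∀ {f : ℂ → ℂ → ℂ → ℂ}, Hol3 f univ → D2 (D3 (D3 f)) = D3 (D3 (D2 f)) := by
    intro f hf
    rw [c23 (hf.D3 hu), c23 hf]
  have fM2 : HasDerivAt (fun t => jM2 b c φ t y)
      (((D3 (D3 (D1 b)) x y (φ x y) + D3 (D3 (D3 b)) x y (φ x y) * d1 φ x y) +
        ((D3 (D3 (D1 c)) x y (φ x y) + D3 (D3 (D3 c)) x y (φ x y) * d1 φ x y) * d2 φ x y +
          D3 (D3 c) x y (φ x y) * d2 (d1 φ) x y)) / 2) x := by
    rw [← k1 hc, ← k1 hb, ← d_comm hU hφ h]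
    exact ((g1 ((hb.D3 hu).D3 hu) hU hφ h).add
      ((g1 ((hc.D3 hu).D3 hu) hU hφ h).mul (s1 hU (hφ.d2 hU) h))).div_const 2
  have fM1 : HasDerivAt (fun t => jM1 a c φ x t)
      (((D3 (D3 (D2 a)) x y (φ x y) + D3 (D3 (D3 a)) x y (φ x y) * d2 φ x y) +
        ((D3 (D3 (D2 c)) x y (φ x y) + D3 (D3 (D3 c)) x y (φ x y) * d2 φ x y) * d1 φ x y +
          D3 (D3 c) x y (φ x y) * d2 (d1 φ) x y)) / 2) y := by
    rw [← k2 hc, ← k2 ha]
    exact ((g2 ((ha.D3 hu).D3 hu) hU hφ h).add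
      ((g2 ((hc.D3 hu).D3 hu) hU hφ h).mul (s2 hU (hφ.d1 hU) h))).div_const 2
  have e1 := ((fM2.sub (fV1.mul (fN2.div fC1 hne))).div fC1 hne).deriv
  have e2 := ((fM1.sub (fV2.mul (fN1.div fC2 hne))).div fC2 hne).deriv
  have e1' : d1 (jQ2 b c φ) x y = _ := e1
  have e2' : d2 (jP2 a c φ) x y = _ := e2
  have e5 := int1 ha hb hc hI x y (φ x y)
  have e6 := leafd ha hb hc hU hφ ex ey h
  have e7 : a x y (φ x y) = -(c x y (φ x y) * d1 φ x y) := by linear_combination ex x y h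
  have e8 : b x y (φ x y) = -(c x y (φ x y) * d2 φ x y) := by linear_combination ey x y h
  have e9 := int2 ha hb hc hI x y (φ x y)
  rw [e7, e8] at e5 e9
  rw [e1', e2']
  simp only [Pi.sub_apply, Pi.mul_apply, Pi.div_apply]
  refine alg2 hne ?_ ?_
  · unfold jC jN1 jN2
    linear_combination e5 - D3 c x y (φ x y) * e6
  · unfold jC jN1 jN2 jM1 jM2 jCv
    linear_combination (1 / 2) * e9 - D3 (D3 c) x y (φ x y) / 2 * e6

end Pool.Agent.H583_Fol
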