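import Pool.Agent.H583_Fol.Defs
import Pool.Agent.H583_Fol.Basic
import Pool.Agent.H583_Fol.St.T0
import Pool.Agent.H583_Fol.St.T1
import Pool.Agent.H583_Fol.St.T2
import Pool.Agent.H583_Fol.St.T3

/-!
# A leaf over `Dom` (Lemma 3 of the paper)
-/

set_option autoImplicit false

namespace Pool.Agent.H583_Fol

open Complex Set Metric Filter Topology

namespace P4

/-! ### Slices and the model -/

theorem sl1 {f : ℂ → ℂ → ℂ → ℂ} (hf : Hol3 f univ) (y v : ℂ) : Differentiable ℂ (fun t => f t y v) :=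
  (differentiableOn_univ.1 hf).comp (g := fun p : ℂ × ℂ × ℂ => f p.1 p.2.1 p.2.2)
    (f := fun t : ℂ => (t, y, v)) (by fun_prop)

theorem sl2 {f : ℂ → ℂ → ℂ → ℂ} (hf : Hol3 f univ) (x v : ℂ) : Differentiable ℂ (fun t => f x t v) :=
  (differentiableOn_univ.1 hf).comp (g := fun p : ℂ × ℂ × ℂ => f p.1 p.2.1 p.2.2)
    (f := fun t : ℂ => (x, t, v)) (by fun_prop)

theorem sl3 {f : ℂ → ℂ → ℂ → ℂ} (hf : Hol3 f univ) (x y : ℂ) : Differentiable ℂ (fun t => f x y t) :=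
  (differentiableOn_univ.1 hf).comp (g := fun p : ℂ × ℂ × ℂ => f p.1 p.2.1 p.2.2)
    (f := fun t : ℂ => (x, y, t)) (by fun_prop)

theorem hol_a0 : Hol3 a0 univ := by
  apply Differentiable.differentiableOn
  unfold a0 hh
  fun_prop

theorem hol_b0 : Hol3 b0 univ := by
  apply Differentiable.differentiableOn
  unfold b0
  fun_prop

theorem hol_c0 : Hol3 c0 univ := by
  apply Differentiable.differentiableOn
  unfold c0 hh
  fun_prop

theorem D1_sub {f g : ℂ → ℂ → ℂ → ℂ} (hf : Hol3 f univ) (hg : Hol3 g univ) (x y v : ℂ) :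
    D1 (fun x y v => f x y v - g x y v) x y v = D1 f x y v - D1 g x y v :=
  deriv_fun_sub ((sl1 hf y v) x) ((sl1 hg y v) x)

theorem D2_sub {f g : ℂ → ℂ → ℂ → ℂ} (hf : Hol3 f univ) (hg : Hol3 g univ) (x y v : ℂ) :
    D2 (fun x y v => f x y v - g x y v) x y v = D2 f x y v - D2 g x y v :=
  deriv_fun_sub ((sl2 hf x v) y) ((sl2 hg x v) y)

theorem D3_sub {f g : ℂ → ℂ → ℂ → ℂ} (hf : Hol3 f univ) (hg : Hol3 g univ) (x y v : ℂ) :
    D3 (fun x y v => f x y v - g x y v) x y v = D3 f x y v - D3 g x y v :=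
  deriv_fun_sub ((sl3 hf x y) v) ((sl3 hg x y) v)

theorem hol_sub {f g : ℂ → ℂ → ℂ → ℂ} (hf : Hol3 f univ) (hg : Hol3 g univ) :
    Hol3 (fun x y v => f x y v - g x y v) univ :=
  DifferentiableOn.sub hf hg

theorem D1_c0 (x y v : ℂ) : D1 c0 x y v =
    (x - 1) * (x - exp y) + x * (x - 1) + x * (x - exp y) := by
  have h : HasDerivAt (fun t : ℂ => t * ((t - 1) * (t - exp y)))
      (1 * ((x - 1) * (x - exp y)) + x * (1 * (x - exp y) + (x - 1) * 1)) x :=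
    (hasDerivAt_id x).mul (((hasDerivAt_id x).sub_const 1).mul ((hasDerivAt_id x).sub_const (exp y)))
  have h2 : D1 c0 x y v = _ := h.deriv
  rw [h2]; ring

theorem D2_c0 (x y v : ℂ) : D2 c0 x y v = -(x * (x - 1) * exp y) := by
  have h : HasDerivAt (fun t : ℂ => x * ((x - 1) * (x - exp t)))
      (x * ((x - 1) * (0 - exp y))) y :=
    (((hasDerivAt_const y x).sub (Complex.hasDerivAt_exp y)).const_mul (x - 1)).const_mul x
  have h2 : D2 c0 x y v = _ := h.deriv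
  rw [h2]; ring

theorem D3_a0 (x y v : ℂ) : D3 a0 x y v =
    nu * hh x y + 2 * v * x * (2 * exp (nu * y) * (x - 1) + (x - exp y)) := by
  have h : HasDerivAt (fun t : ℂ => nu * t * hh x y +
      t ^ 2 * x * (2 * exp (nu * y) * (x - 1) + (x - exp y)))
      (nu * 1 * hh x y + (2 * v ^ (2 - 1) * 1) * x * (2 * exp (nu * y) * (x - 1) + (x - exp y))) v :=
    (((hasDerivAt_id v).const_mul nu).mul_const (hh x y)).add
      (((((hasDerivAt_id v).fun_pow 2)).mul_const x).mul_const _)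
  have h2 : D3 a0 x y v = _ := h.deriv
  rw [h2]; ring

theorem D3_b0 (x y v : ℂ) : D3 b0 x y v = -(4 * exp (nu * y) * v * x ^ 2 * (x - 1)) := by
  have h : HasDerivAt (fun t : ℂ => -(2 * exp (nu * y) * t ^ 2 * x ^ 2 * (x - 1)))
      (-(2 * exp (nu * y) * (2 * v ^ (2 - 1) * 1) * x ^ 2 * (x - 1))) v :=
    ((((((hasDerivAt_id v).fun_pow 2)).const_mul (2 * exp (nu * y))).mul_const (x ^ 2)).mul_const
      (x - 1)).neg
  have h2 : D3 b0 x y v = _ := h.deriv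
  rw [h2]; ring

/-! ### A bound for the exponentials -/

/-- a large constant -/
noncomputable def E0 : ℝ := Real.exp 16

theorem one_le_E0 : 1 ≤ E0 := Real.one_le_exp (by norm_num)

theorem norm_nu : ‖nu‖ ≤ 2 := by
  unfold nu
  calc ‖(1 : ℂ) + I‖ ≤ ‖(1 : ℂ)‖ + ‖I‖ := norm_add_le _ _
    _ = 2 := by simp; norm_num

theorem norm_exp_mul_le {k y : ℂ} (hk : ‖k‖ ≤ 2) (hy : y ∈ Yr) : ‖exp (k * y)‖ ≤ E0 := by
  refine (Complex.norm_exp_le_exp_norm _).trans (Real.exp_le_exp.2 ?_)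
  rw [norm_mul]
  have := norm_lt_of_Yr hy
  nlinarith [norm_nonneg k, norm_nonneg y]

theorem norm_exp_nu {y : ℂ} (hy : y ∈ Yr) : ‖exp (nu * y)‖ ≤ E0 := norm_exp_mul_le norm_nu hy

/-! ### The estimates near the model -/

/-- the estimates used in the linear estimate -/
theorem near1 {η : ℝ} (hη : 0 < η) : ∃ δ > 0, δ ≤ 1 ∧ ∀ a b c : ℂ → ℂ → ℂ → ℂ, Near a b c δ →
    ∀ x y v : ℂ, ‖x‖ < 4 → y ∈ Yr → ‖v‖ ≤ δ →
    ‖c x y v - x * ((x - 1) * (x - exp y))‖ ≤ η ∧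
    ‖(D1 c x y v - D3 a x y v) - ((x - 1) * (x - exp y) + x * (x - 1) + x * (x - exp y) -
      nu * ((x - 1) * (x - exp y)))‖ ≤ η ∧
    ‖(D2 c x y v - D3 b x y v) + x * exp y * (x - 1)‖ ≤ η := by
  have hE := one_le_E0
  refine ⟨min 1 (η / (330 * E0)), by positivity, min_le_left _ _, ?_⟩
  intro a b c hN x y v hx hy hv
  set δ := min 1 (η / (330 * E0)) with hδ
  have hδ0 : 0 < δ := by positivity
  have hδ1 : δ ≤ 1 := min_le_left _ _
  have hδη : δ * (330 * E0) ≤ η := by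
    have : δ ≤ η / (330 * E0) := min_le_right _ _
    rwa [le_div_iff₀ (by positivity)] at this
  have hy8 := norm_lt_of_Yr hy
  have hexpy := (norm_exp_of_Yr hy).2
  have hEn := norm_exp_nu hy
  have hv1 : ‖v‖ ≤ 1 := hv.trans hδ1
  have hx1 : ‖x - 1‖ ≤ 5 := (norm_sub_le _ _).trans (by rw [norm_one]; linarith)
  have hx2 : ‖x - exp y‖ ≤ 7 := (norm_sub_le _ _).trans (by linarith)
  have e1 : ‖c x y v - c0 x y v‖ ≤ δ := hN.nc x y v (by linarith) (by linarith) (by linarith)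
  have k1 : ‖D1 c x y v - D1 c0 x y v‖ ≤ δ := by
    rw [← D1_sub hN.hc hol_c0]
    exact cauchy_D1 (hol_sub hN.hc hol_c0) hN.nc x y v (by linarith) (by linarith) (by linarith)
  have k2 : ‖D2 c x y v - D2 c0 x y v‖ ≤ δ := by
    rw [← D2_sub hN.hc hol_c0]
    exact cauchy_D2 (hol_sub hN.hc hol_c0) hN.nc x y v (by linarith) (by linarith) (by linarith)
  have k3 : ‖D3 a x y v - D3 a0 x y v‖ ≤ δ := by
    rw [← D3_sub hN.ha hol_a0]
    exact cauchy_D3 (hol_sub hN.ha hol_a0) hN.na x y v (by linarith) (by linarith) (by linarith)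
  have k4 : ‖D3 b x y v - D3 b0 x y v‖ ≤ δ := by
    rw [← D3_sub hN.hb hol_b0]
    exact cauchy_D3 (hol_sub hN.hb hol_b0) hN.nb x y v (by linarith) (by linarith) (by linarith)
  have hδE : δ ≤ δ * E0 := by nlinarith
  refine ⟨?_, ?_, ?_⟩
  · have : c x y v - x * ((x - 1) * (x - exp y)) = c x y v - c0 x y v := by simp [c0, hh]
    rw [this]
    nlinarith
  · have h1 : (D1 c x y v - D3 a x y v) - ((x - 1) * (x - exp y) + x * (x - 1) + x * (x - exp y) -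
        nu * ((x - 1) * (x - exp y))) = (D1 c x y v - D1 c0 x y v) - (D3 a x y v - D3 a0 x y v) -
        2 * v * x * (2 * exp (nu * y) * (x - 1) + (x - exp y)) := by
      rw [D1_c0, D3_a0]; simp only [hh]; ring
    rw [h1]
    have h2 : ‖2 * v * x * (2 * exp (nu * y) * (x - 1) + (x - exp y))‖ ≤
        2 * δ * 4 * (2 * E0 * 5 + 7) := by
      rw [norm_mul, norm_mul, norm_mul]
      have h3 : ‖2 * exp (nu * y) * (x - 1) + (x - exp y)‖ ≤ 2 * E0 * 5 + 7 := by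
        refine (norm_add_le _ _).trans (add_le_add ?_ hx2)
        rw [norm_mul, norm_mul]
        have : ‖(2 : ℂ)‖ = 2 := by simp
        rw [this]
        gcongr
      have h4 : ‖(2 : ℂ)‖ = 2 := by simp
      rw [h4]
      gcongr
    calc _ ≤ ‖(D1 c x y v - D1 c0 x y v) - (D3 a x y v - D3 a0 x y v)‖ +
          ‖2 * v * x * (2 * exp (nu * y) * (x - 1) + (x - exp y))‖ := norm_sub_le _ _
      _ ≤ (δ + δ) + 2 * δ * 4 * (2 * E0 * 5 + 7) := by
          refine add_le_add ((norm_sub_le _ _).trans (add_le_add k1 k3)) h2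
      _ ≤ δ * (330 * E0) := by nlinarith
      _ ≤ η := hδη
  · have h1 : (D2 c x y v - D3 b x y v) + x * exp y * (x - 1) =
        (D2 c x y v - D2 c0 x y v) - (D3 b x y v - D3 b0 x y v) +
        4 * exp (nu * y) * v * x ^ 2 * (x - 1) := by
      rw [D2_c0, D3_b0]; ring
    rw [h1]
    have h2 : ‖4 * exp (nu * y) * v * x ^ 2 * (x - 1)‖ ≤ 4 * E0 * δ * 4 ^ 2 * 5 := by
      rw [norm_mul, norm_mul, norm_mul, norm_mul, norm_pow]
      have h4 : ‖(4 : ℂ)‖ = 4 := by simp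
      rw [h4]
      gcongr
    calc _ ≤ ‖(D2 c x y v - D2 c0 x y v) - (D3 b x y v - D3 b0 x y v)‖ +
          ‖4 * exp (nu * y) * v * x ^ 2 * (x - 1)‖ := norm_add_le _ _
      _ ≤ (δ + δ) + 4 * E0 * δ * 4 ^ 2 * 5 := by
          refine add_le_add ((norm_sub_le _ _).trans (add_le_add k2 k4)) h2
      _ ≤ δ * (330 * E0) := by nlinarith
      _ ≤ η := hδη

/-! ### The second derivatives on the tori -/

theorem quot_second {f g f0 : ℂ → ℂ} {g0 : ℂ} {δ B κ : ℝ} (hf : Differentiable ℂ f)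
    (hg : Differentiable ℂ g) (hf0 : Differentiable ℂ f0) (hκ : 0 < κ) (hg0 : κ ≤ ‖g0‖)
    (hδ0 : 0 ≤ δ) (hB : 0 ≤ B)
    (hδ : δ ≤ κ / 2) (h1 : ∀ v, ‖v‖ ≤ 2 → ‖f v - f0 v‖ ≤ δ) (h2 : ∀ v, ‖v‖ ≤ 2 → ‖g v - g0‖ ≤ δ)
    (h3 : ∀ v, ‖v‖ ≤ 2 → ‖f0 v‖ ≤ B) {v : ℂ} (hv : ‖v‖ ≤ 1) :
    ‖deriv (deriv (fun v => f v / g v)) v - deriv (deriv (fun v => f0 v / g0)) v‖ ≤
      2 * (2 * δ / κ + 2 * B * δ / κ ^ 2) := by
  have hgl : ∀ w : ℂ, ‖w‖ ≤ 2 → κ / 2 ≤ ‖g w‖ := by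
    intro w hw
    have h4 := h2 w hw
    have h5 : ‖g0‖ ≤ ‖g w‖ + ‖g w - g0‖ := by
      calc ‖g0‖ = ‖g w - (g w - g0)‖ := by congr 1; ring
        _ ≤ _ := norm_sub_le _ _
    linarith
  have hgne : ∀ w : ℂ, ‖w‖ ≤ 2 → g w ≠ 0 := by
    intro w hw h
    have := hgl w hw
    rw [h, norm_zero] at this
    linarith
  have hg0ne : g0 ≠ 0 := by
    intro h; rw [h, norm_zero] at hg0; linarith
  set S : Set ℂ := {w | g w ≠ 0} with hS
  have hSo : IsOpen S := isOpen_ne_fun hg.continuous continuous_const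
  have hdq : DifferentiableOn ℂ (fun v => f v / g v) S := fun w hw =>
    ((hf w).fun_div (hg w) hw).differentiableWithinAt
  have hdq' : DifferentiableOn ℂ (deriv (fun v => f v / g v)) S := hdq.deriv hSo
  have hd0 : Differentiable ℂ (fun v => f0 v / g0) := hf0.div_const g0
  have hd0' : Differentiable ℂ (deriv (fun v => f0 v / g0)) := by
    rw [← differentiableOn_univ]
    exact hd0.differentiableOn.deriv isOpen_univ
  have hvS : v ∈ S := hgne v (by linarith)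
  have e1 : iteratedDeriv 2 (fun v => f v / g v - f0 v / g0) v =
      deriv (deriv (fun v => f v / g v)) v - deriv (deriv (fun v => f0 v / g0)) v := by
    have e2 : deriv (fun v => f v / g v - f0 v / g0) =ᶠ[𝓝 v]
        fun w => deriv (fun v => f v / g v) w - deriv (fun v => f0 v / g0) w := by
      filter_upwards [hSo.mem_nhds hvS] with w hw
      exact deriv_fun_sub (hdq.differentiableAt (hSo.mem_nhds hw)) (hd0 w)
    rw [iteratedDeriv_succ, iteratedDeriv_one, e2.deriv_eq]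
    exact deriv_fun_sub (hdq'.differentiableAt (hSo.mem_nhds hvS)) (hd0' v)
  rw [← e1]
  have hball : ∀ w : ℂ, ‖w - v‖ ≤ 1 → ‖w‖ ≤ 2 := by
    intro w hw
    calc ‖w‖ = ‖(w - v) + v‖ := by congr 1; ring
      _ ≤ _ := norm_add_le _ _
      _ ≤ 2 := by linarith
  have hdc : DiffContOnCl ℂ (fun v => f v / g v - f0 v / g0) (ball v 1) := by
    apply DifferentiableOn.diffContOnCl
    rw [closure_ball v (by norm_num)]
    intro w hw
    have hw2 : ‖w‖ ≤ 2 := hball w (by simpa [dist_eq_norm] using hw)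
    exact ((hdq.differentiableAt (hSo.mem_nhds (hgne w hw2))).fun_sub
      (hd0 w)).differentiableWithinAt
  have hbd : ∀ w ∈ sphere v 1, ‖f w / g w - f0 w / g0‖ ≤ 2 * δ / κ + 2 * B * δ / κ ^ 2 := by
    intro w hw
    have hw2 : ‖w‖ ≤ 2 := hball w (by simpa [dist_eq_norm] using (mem_sphere.1 hw).le)
    have hgw := hgl w hw2
    have hgn := hgne w hw2
    have e3 : f w / g w - f0 w / g0 = (f w - f0 w) / g w - f0 w * (g w - g0) / (g w * g0) := by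
      field_simp; ring
    rw [e3]
    have b1 : ‖(f w - f0 w) / g w‖ ≤ 2 * δ / κ := by
      rw [norm_div, div_le_div_iff₀ (by linarith) hκ]
      have := h1 w hw2
      nlinarith
    have b2 : ‖f0 w * (g w - g0) / (g w * g0)‖ ≤ 2 * B * δ / κ ^ 2 := by
      rw [norm_div, norm_mul, norm_mul, div_le_div_iff₀ (by nlinarith) (by positivity)]
      have c1 : ‖f0 w‖ * ‖g w - g0‖ ≤ B * δ :=
        mul_le_mul (h3 w hw2) (h2 w hw2) (norm_nonneg _) hB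
      have c2 : κ ^ 2 ≤ 2 * (‖g w‖ * ‖g0‖) := by
        have : κ / 2 * κ ≤ ‖g w‖ * ‖g0‖ := mul_le_mul hgw hg0 hκ.le (norm_nonneg _)
        nlinarith
      calc ‖f0 w‖ * ‖g w - g0‖ * κ ^ 2 ≤ B * δ * (2 * (‖g w‖ * ‖g0‖)) := by
            apply mul_le_mul c1 c2 (by positivity) (by positivity)
        _ = 2 * B * δ * (‖g w‖ * ‖g0‖) := by ring
    exact (norm_sub_le _ _).trans (add_le_add b1 b2)
  have := Complex.norm_iteratedDeriv_le_of_forall_mem_sphere_norm_le 2 (by norm_num) hdc hbd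
  refine this.trans ?_
  simp [Nat.factorial]

theorem exp_sub_one_lower {p y : ℂ} (hp : exp p = 1) (hy : ‖y - p‖ ≤ 1 / 2) :
    ‖y - p‖ / 2 ≤ ‖exp y - 1‖ := by
  have h1 : exp y = exp (y - p) := by
    rw [exp_sub, hp, div_one]
  have h2 : ‖exp (y - p) - 1 - (y - p)‖ ≤ ‖y - p‖ ^ 2 :=
    Complex.norm_exp_sub_one_sub_id_le (by linarith)
  have h3 : ‖y - p‖ ≤ ‖exp (y - p) - 1‖ + ‖exp (y - p) - 1 - (y - p)‖ := by
    calc ‖y - p‖ = ‖(exp (y - p) - 1) - (exp (y - p) - 1 - (y - p))‖ := by congr 1; ring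
      _ ≤ _ := norm_sub_le _ _
  rw [h1]
  nlinarith [norm_nonneg (y - p)]

/-- the two nodes -/
def IsNode (p : ℂ) : Prop := p = 0 ∨ p = 2 * Real.pi * I

theorem IsNode.exp {p : ℂ} (hp : IsNode p) : Complex.exp p = 1 := by
  rcases hp with rfl | rfl
  · exact Complex.exp_zero
  · exact Complex.exp_two_pi_mul_I

theorem IsNode.mem_Yr {p y : ℂ} (hp : IsNode p) (hy : ‖y - p‖ ≤ 1 / 2) : y ∈ Yr := by
  have h1 : |(y - p).re| ≤ 1 / 2 := (Complex.abs_re_le_norm _).trans hy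
  have h2 : |(y - p).im| ≤ 1 / 2 := (Complex.abs_im_le_norm _).trans hy
  have hpi := Real.pi_pos
  rw [abs_le] at h1 h2
  rcases hp with rfl | rfl
  · simp at h1 h2
    refine ⟨abs_lt.2 ⟨by linarith, by linarith⟩, by linarith, by linarith⟩
  · simp at h1 h2
    refine ⟨abs_lt.2 ⟨by linarith, by linarith⟩, by linarith, by linarith⟩

/-- the lower bound of the factors on the tori -/
theorem torus_bounds {p x y : ℂ} (hp : IsNode p) (hx : ‖x - 1‖ = 1 / 16) (hy : ‖y - p‖ = 1 / 4) :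
    15 / 16 ≤ ‖x‖ ∧ ‖x‖ ≤ 2 ∧ 1 / 16 ≤ ‖x - exp y‖ ∧ ‖x - exp y‖ ≤ 5 ∧ 1 / 8 ≤ ‖exp y - 1‖ ∧
      1 / 300 ≤ ‖x * ((x - 1) * (x - exp y))‖ := by
  have h1 : (1 : ℝ) ≤ ‖x‖ + ‖x - 1‖ := by
    calc (1 : ℝ) = ‖x - (x - 1)‖ := by simp
      _ ≤ _ := norm_sub_le _ _
  have h2 : ‖x‖ ≤ ‖x - 1‖ + 1 := by
    calc ‖x‖ = ‖(x - 1) + 1‖ := by congr 1; ring
      _ ≤ ‖x - 1‖ + ‖(1 : ℂ)‖ := norm_add_le _ _
      _ = _ := by rw [norm_one]
  have h3 := exp_sub_one_lower hp.exp (y := y) (by linarith)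
  have h4 : ‖exp y - 1‖ ≤ ‖x - 1‖ + ‖x - exp y‖ := by
    calc ‖exp y - 1‖ = ‖(x - 1) - (x - exp y)‖ := by congr 1; ring
      _ ≤ _ := norm_sub_le _ _
  have h5 := (norm_exp_of_Yr (hp.mem_Yr (y := y) (by linarith))).2
  have h6 : ‖x - exp y‖ ≤ ‖x‖ + ‖exp y‖ := norm_sub_le _ _
  refine ⟨by linarith, by linarith, by linarith, by linarith, by linarith, ?_⟩
  rw [norm_mul, norm_mul, hx]
  have h7 : (15 : ℝ) / 16 * (1 / 16 * (1 / 16)) ≤ ‖x‖ * (1 / 16 * ‖x - exp y‖) := by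
    apply mul_le_mul (by linarith) _ (by norm_num) (norm_nonneg _)
    linarith
  linarith

/-- the estimates used on the tori -/
theorem near2 {η : ℝ} (hη : 0 < η) : ∃ δ > 0, ∀ a b c : ℂ → ℂ → ℂ → ℂ, Near a b c δ →
    ∀ p x y v : ℂ, IsNode p → ‖x - 1‖ = 1 / 16 → ‖y - p‖ = 1 / 4 → ‖v‖ ≤ 1 →
    1 / 600 ≤ ‖c x y v‖ ∧
    ‖D3 (D3 (fun x y v => b x y v / c x y v)) x y v -
      (-(4 * exp (nu * y) * x / (x - exp y)))‖ ≤ η ∧
    ‖D3 (D3 (fun x y v => a x y v / c x y v)) x y v -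
      (4 * exp (nu * y) / (x - exp y) + 2 / (x - 1))‖ ≤ η := by
  have hE := one_le_E0
  set K : ℝ := 2 * (2 / (1 / 300) + 2 * (80 * E0) / (1 / 300) ^ 2) with hK
  have hK0 : 0 < K := by positivity
  refine ⟨min (1 / 600) (η / K), by positivity, ?_⟩
  intro a b c hN p x y v hp hx hy hv
  set δ := min (1 / 600) (η / K) with hδ
  have hδ0 : 0 < δ := by positivity
  have hδ1 : δ ≤ 1 / 600 := min_le_left _ _
  have hδη : δ * K ≤ η := by
    have : δ ≤ η / K := min_le_right _ _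
    rwa [le_div_iff₀ hK0] at this
  obtain ⟨t1, t2, t3, t4, t5, t6⟩ := torus_bounds hp hx hy
  have hyr : y ∈ Yr := hp.mem_Yr (by linarith)
  have hy8 := norm_lt_of_Yr hyr
  have hEn := norm_exp_nu hyr
  have hnn := norm_nu
  have key := fun w (hw : ‖w‖ ≤ 2) => hN.nc x y w (by linarith) (by linarith) (by linarith)
  have hxne : x ≠ 0 := by intro h; rw [h, norm_zero] at t1; linarith
  have hx1ne : x - 1 ≠ 0 := by intro h; rw [h, norm_zero] at hx; linarith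
  have hxene : x - exp y ≠ 0 := by intro h; rw [h, norm_zero] at t3; linarith
  have hKe : 2 * (2 * δ / (1 / 300) + 2 * (80 * E0) * δ / (1 / 300) ^ 2) ≤ η := by
    calc _ = δ * K := by rw [hK]; ring
      _ ≤ η := hδη
  refine ⟨?_, ?_, ?_⟩
  · have h1 := key v (by linarith)
    have h2 : ‖c0 x y v‖ ≤ ‖c x y v‖ + ‖c x y v - c0 x y v‖ := by
      calc ‖c0 x y v‖ = ‖c x y v - (c x y v - c0 x y v)‖ := by congr 1; ring
        _ ≤ _ := norm_sub_le _ _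
    have h3 : c0 x y v = x * ((x - 1) * (x - exp y)) := rfl
    rw [h3] at h2 h1
    linarith
  · have hq := quot_second (f := fun w => b x y w) (g := fun w => c x y w)
      (f0 := fun w => b0 x y w) (g0 := x * ((x - 1) * (x - exp y))) (δ := δ) (B := 80 * E0)
      (κ := 1 / 300) (sl3 hN.hb x y) (sl3 hN.hc x y) (sl3 hol_b0 x y) (by norm_num) t6 hδ0.le
      (by positivity) (by linarith)
      (fun w hw => hN.nb x y w (by linarith) (by linarith) (by linarith)) key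
      (fun w hw => by
        unfold b0
        rw [norm_neg, norm_mul, norm_mul, norm_mul, norm_mul, norm_pow, norm_pow, hx]
        have h4 : ‖(2 : ℂ)‖ = 2 := by simp
        rw [h4]
        calc 2 * ‖exp (nu * y)‖ * ‖w‖ ^ 2 * ‖x‖ ^ 2 * (1 / 16)
            ≤ 2 * E0 * 2 ^ 2 * 2 ^ 2 * (1 / 16) := by gcongr
          _ ≤ 80 * E0 := by nlinarith) hv
    have hm : deriv (deriv (fun w => b0 x y w / (x * ((x - 1) * (x - exp y))))) v =
        -(4 * exp (nu * y) * x / (x - exp y)) := by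
      have e1 : (fun w => b0 x y w / (x * ((x - 1) * (x - exp y)))) =
          fun w => (-(2 * exp (nu * y) * x / (x - exp y))) * w ^ 2 := by
        funext w
        unfold b0
        field_simp
      have e2 : deriv (fun w => (-(2 * exp (nu * y) * x / (x - exp y))) * w ^ 2) =
          fun w => (-(2 * exp (nu * y) * x / (x - exp y))) * (2 * w) := by
        funext w
        have := (((hasDerivAt_id w).fun_pow 2)).const_mul (-(2 * exp (nu * y) * x / (x - exp y)))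
        have h := this.deriv
        simp only [id] at h
        rw [h]; push_cast; ring
      rw [e1, e2]
      have := (((hasDerivAt_id v).const_mul 2)).const_mul (-(2 * exp (nu * y) * x / (x - exp y)))
      have h := this.deriv
      simp only [id] at h
      rw [h]; ring
    rw [hm] at hq
    exact hq.trans hKe
  · have hq := quot_second (f := fun w => a x y w) (g := fun w => c x y w)
      (f0 := fun w => a0 x y w) (g0 := x * ((x - 1) * (x - exp y))) (δ := δ) (B := 80 * E0)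
      (κ := 1 / 300) (sl3 hN.ha x y) (sl3 hN.hc x y) (sl3 hol_a0 x y) (by norm_num) t6 hδ0.le
      (by positivity) (by linarith)
      (fun w hw => hN.na x y w (by linarith) (by linarith) (by linarith)) key
      (fun w hw => by
        unfold a0 hh
        have h4 : ‖(2 : ℂ)‖ = 2 := by simp
        have h5 : ‖nu * w * ((x - 1) * (x - exp y))‖ ≤ 2 * 2 * ((1 / 16) * 5) := by
          rw [norm_mul, norm_mul, norm_mul, hx]
          gcongr
        have h6 : ‖w ^ 2 * x * (2 * exp (nu * y) * (x - 1) + (x - exp y))‖ ≤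
            2 ^ 2 * 2 * (2 * E0 * (1 / 16) + 5) := by
          rw [norm_mul, norm_mul, norm_pow]
          have h7 : ‖2 * exp (nu * y) * (x - 1) + (x - exp y)‖ ≤ 2 * E0 * (1 / 16) + 5 := by
            refine (norm_add_le _ _).trans (add_le_add ?_ t4)
            rw [norm_mul, norm_mul, h4, hx]
            gcongr
          gcongr
        calc _ ≤ _ := norm_add_le _ _
          _ ≤ 2 * 2 * ((1 / 16) * 5) + 2 ^ 2 * 2 * (2 * E0 * (1 / 16) + 5) := add_le_add h5 h6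
          _ ≤ 80 * E0 := by nlinarith) hv
    have hm : deriv (deriv (fun w => a0 x y w / (x * ((x - 1) * (x - exp y))))) v =
        4 * exp (nu * y) / (x - exp y) + 2 / (x - 1) := by
      have e1 : (fun w => a0 x y w / (x * ((x - 1) * (x - exp y)))) =
          fun w => (nu / x) * w + (2 * exp (nu * y) / (x - exp y) + 1 / (x - 1)) * w ^ 2 := by
        funext w
        unfold a0 hh
        field_simp
      have e2 : deriv (fun w => (nu / x) * w +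
          (2 * exp (nu * y) / (x - exp y) + 1 / (x - 1)) * w ^ 2) =
          fun w => (nu / x) + (2 * exp (nu * y) / (x - exp y) + 1 / (x - 1)) * (2 * w) := by
        funext w
        have := ((hasDerivAt_id w).const_mul (nu / x)).add (((hasDerivAt_id w).fun_pow 2).const_mul
          (2 * exp (nu * y) / (x - exp y) + 1 / (x - 1)))
        have h : deriv (fun w => (nu / x) * w +
          (2 * exp (nu * y) / (x - exp y) + 1 / (x - 1)) * w ^ 2) w = _ := this.deriv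
        rw [h]; simp only [id]; push_cast; ring
      rw [e1, e2]
      have := (((hasDerivAt_id v).const_mul 2).const_mul
        (2 * exp (nu * y) / (x - exp y) + 1 / (x - 1))).const_add (nu / x)
      have h : deriv (fun w => (nu / x) +
        (2 * exp (nu * y) / (x - exp y) + 1 / (x - 1)) * (2 * w)) v = _ := this.deriv
      rw [h]; ring
    rw [hm] at hq
    exact hq.trans hKe

/-! ### Integrals over tori -/

theorem cont_inner {H : ℂ → ℂ → ℂ} {c₁ c₂ : ℂ} {r₁ r₂ : ℝ} (h₁ : 0 ≤ r₁) (h₂ : 0 ≤ r₂)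
    (hH : ContinuousOn (fun q : ℂ × ℂ => H q.1 q.2) (sphere c₁ r₁ ×ˢ sphere c₂ r₂)) :
    Continuous (fun q : ℝ × ℝ => H (circleMap c₁ r₁ q.1) (circleMap c₂ r₂ q.2)) :=
  hH.comp_continuous (f := fun q : ℝ × ℝ => (circleMap c₁ r₁ q.1, circleMap c₂ r₂ q.2))
    (by fun_prop) (fun q => ⟨circleMap_mem_sphere c₁ h₁ q.1, circleMap_mem_sphere c₂ h₂ q.2⟩)

theorem torus_swap {H : ℂ → ℂ → ℂ} {c₁ c₂ : ℂ} {r₁ r₂ : ℝ} (h₁ : 0 ≤ r₁) (h₂ : 0 ≤ r₂)
    (hH : ContinuousOn (fun q : ℂ × ℂ => H q.1 q.2) (sphere c₁ r₁ ×ˢ sphere c₂ r₂)) :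
    (∮ y in C(c₂, r₂), ∮ x in C(c₁, r₁), H x y) = ∮ x in C(c₁, r₁), ∮ y in C(c₂, r₂), H x y := by
  have hc := cont_inner h₁ h₂ hH
  have e : ∀ (f : ℂ → ℂ) (c : ℂ) (r : ℝ), (∮ z in C(c, r), f z) =
      ∫ θ in (0 : ℝ)..2 * Real.pi, deriv (circleMap c r) θ * f (circleMap c r θ) := by
    intro f c r
    simp [circleIntegral, smul_eq_mul]
  simp only [e]
  simp only [← intervalIntegral.integral_const_mul]
  rw [MeasureTheory.intervalIntegral_intervalIntegral_swap]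
  · congr 1
    funext θ
    congr 1
    funext ψ
    ring
  · have hcont : Continuous (Function.uncurry (fun (ψ θ : ℝ) => deriv (circleMap c₂ r₂) ψ *
        (deriv (circleMap c₁ r₁) θ * H (circleMap c₁ r₁ θ) (circleMap c₂ r₂ ψ)))) := by
      have h3 : Continuous (fun q : ℝ × ℝ => H (circleMap c₁ r₁ q.2) (circleMap c₂ r₂ q.1)) :=
        hc.comp (continuous_swap)
      simp only [deriv_circleMap, Function.uncurry_def]
      exact Continuous.mul (by fun_prop) (Continuous.mul (by fun_prop) h3)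
    exact (hcont.continuousOn.integrableOn_compact
      (isCompact_uIcc.prod isCompact_uIcc)).mono_set (prod_mono uIoc_subset_uIcc uIoc_subset_uIcc)

theorem torus_cont {H : ℂ → ℂ → ℂ} {c₁ c₂ : ℂ} {r₁ r₂ : ℝ} (h₁ : 0 ≤ r₁) (h₂ : 0 ≤ r₂)
    (hH : ContinuousOn (fun q : ℂ × ℂ => H q.1 q.2) (sphere c₁ r₁ ×ˢ sphere c₂ r₂)) :
    CircleIntegrable (fun y => ∮ x in C(c₁, r₁), H x y) c₂ r₂ := by
  have hc := cont_inner h₁ h₂ hH
  unfold CircleIntegrable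
  apply Continuous.intervalIntegrable
  have e : (fun ψ : ℝ => ∮ x in C(c₁, r₁), H x (circleMap c₂ r₂ ψ)) =
      fun ψ : ℝ => ∫ θ in (0 : ℝ)..2 * Real.pi,
        deriv (circleMap c₁ r₁) θ * H (circleMap c₁ r₁ θ) (circleMap c₂ r₂ ψ) := by
    funext ψ
    simp [circleIntegral, smul_eq_mul]
  rw [e]
  apply intervalIntegral.continuous_parametric_intervalIntegral_of_continuous' (f := fun ψ θ =>
    deriv (circleMap c₁ r₁) θ * H (circleMap c₁ r₁ θ) (circleMap c₂ r₂ ψ))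
  have h3 : Continuous (fun q : ℝ × ℝ => H (circleMap c₁ r₁ q.2) (circleMap c₂ r₂ q.1)) :=
    hc.comp (continuous_swap)
  simp only [deriv_circleMap, Function.uncurry_def]
  exact Continuous.mul (by fun_prop) h3

theorem torus_slice {H : ℂ → ℂ → ℂ} {c₁ c₂ : ℂ} {r₁ r₂ : ℝ} (h₁ : 0 ≤ r₁)
    (hH : ContinuousOn (fun q : ℂ × ℂ => H q.1 q.2) (sphere c₁ r₁ ×ˢ sphere c₂ r₂)) {y : ℂ}
    (hy : y ∈ sphere c₂ r₂) : CircleIntegrable (fun x => H x y) c₁ r₁ := by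
  apply ContinuousOn.circleIntegrable h₁
  exact hH.comp (f := fun x : ℂ => (x, y)) (by fun_prop) (fun x hx => ⟨hx, hy⟩)

/-- a function of the form `∂ₓ Q - ∂_y P` has zero integral over a torus -/
theorem torus_zero {P Q : ℂ → ℂ → ℂ} {U : Set (ℂ × ℂ)} (hU : IsOpen U) (hP : Hol2 P U)
    (hQ : Hol2 Q U) {c₁ c₂ : ℂ} {r₁ r₂ : ℝ} (h₁ : 0 ≤ r₁) (h₂ : 0 ≤ r₂)
    (hs : sphere c₁ r₁ ×ˢ sphere c₂ r₂ ⊆ U) :
    (∮ y in C(c₂, r₂), ∮ x in C(c₁, r₁), (d1 Q x y - d2 P x y)) = 0 := by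
  have hQ1 : ContinuousOn (fun q : ℂ × ℂ => d1 Q q.1 q.2) (sphere c₁ r₁ ×ˢ sphere c₂ r₂) :=
    (hQ.d1 hU).continuousOn.mono hs
  have hP2 : ContinuousOn (fun q : ℂ × ℂ => d2 P q.1 q.2) (sphere c₁ r₁ ×ˢ sphere c₂ r₂) :=
    (hP.d2 hU).continuousOn.mono hs
  have e1 : (∮ y in C(c₂, r₂), ∮ x in C(c₁, r₁), (d1 Q x y - d2 P x y)) =
      ∮ y in C(c₂, r₂), -∮ x in C(c₁, r₁), d2 P x y := by
    apply circleIntegral.integral_congr h₂
    intro y hy
    simp only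
    rw [circleIntegral.integral_sub (torus_slice h₁ hQ1 hy) (torus_slice h₁ hP2 hy)]
    have : (∮ x in C(c₁, r₁), d1 Q x y) = 0 := by
      apply circleIntegral.integral_eq_zero_of_hasDerivWithinAt (f := fun x => Q x y) h₁
      intro x hx
      have hxy : (x, y) ∈ U := hs ⟨hx, hy⟩
      have hd : DifferentiableAt ℂ (fun t => Q t y) x :=
        (hQ.differentiableAt (hU.mem_nhds hxy)).comp x (f := fun t : ℂ => (t, y)) (by fun_prop)
      exact hd.hasDerivAt.hasDerivWithinAt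
    rw [this, zero_sub]
  have e2 : (∮ y in C(c₂, r₂), -∮ x in C(c₁, r₁), d2 P x y) =
      -∮ y in C(c₂, r₂), ∮ x in C(c₁, r₁), d2 P x y := by
    have := circleIntegral.integral_const_mul (-1) (fun y => ∮ x in C(c₁, r₁), d2 P x y) c₂ r₂
    simpa using this
  rw [e1, e2, torus_swap h₁ h₂ hP2]
  have e3 : (∮ x in C(c₁, r₁), ∮ y in C(c₂, r₂), d2 P x y) = ∮ x in C(c₁, r₁), (0 : ℂ) := by
    apply circleIntegral.integral_congr h₁
    intro x hx
    apply circleIntegral.integral_eq_zero_of_hasDerivWithinAt (f := fun y => P x y) h₂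
    intro y hy
    have hxy : (x, y) ∈ U := hs ⟨hx, hy⟩
    have hd : DifferentiableAt ℂ (fun t => P x t) y :=
      (hP.differentiableAt (hU.mem_nhds hxy)).comp y (f := fun t : ℂ => (x, t)) (by fun_prop)
    exact hd.hasDerivAt.hasDerivWithinAt
  rw [e3]
  simp [circleIntegral]

/-- the comparison of two functions on a torus -/
theorem torus_le {H G : ℂ → ℂ → ℂ} {c₁ c₂ : ℂ} {r₁ r₂ B : ℝ} (h₁ : 0 ≤ r₁) (h₂ : 0 ≤ r₂)
    (hH : ContinuousOn (fun q : ℂ × ℂ => H q.1 q.2) (sphere c₁ r₁ ×ˢ sphere c₂ r₂))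
    (hG : ContinuousOn (fun q : ℂ × ℂ => G q.1 q.2) (sphere c₁ r₁ ×ˢ sphere c₂ r₂))
    (hB : ∀ x ∈ sphere c₁ r₁, ∀ y ∈ sphere c₂ r₂, ‖H x y - G x y‖ ≤ B)
    (h0 : (∮ y in C(c₂, r₂), ∮ x in C(c₁, r₁), H x y) = 0) :
    ‖∮ y in C(c₂, r₂), ∮ x in C(c₁, r₁), G x y‖ ≤ 2 * Real.pi * r₂ * (2 * Real.pi * r₁ * B) := by
  have e1 : (∮ y in C(c₂, r₂), ∮ x in C(c₁, r₁), G x y) =
      -∮ y in C(c₂, r₂), ((∮ x in C(c₁, r₁), H x y) - ∮ x in C(c₁, r₁), G x y) := by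
    rw [circleIntegral.integral_sub (torus_cont h₁ h₂ hH) (torus_cont h₁ h₂ hG), h0]
    ring
  rw [e1, norm_neg]
  apply circleIntegral.norm_integral_le_of_norm_le_const h₂
  intro y hy
  rw [← circleIntegral.integral_sub (torus_slice h₁ hH hy) (torus_slice h₁ hG hy)]
  apply circleIntegral.norm_integral_le_of_norm_le_const h₁
  intro x hx
  exact hB x hx y hy

/-- the double integral of the model -/
theorem model_integral {p : ℂ} (hp : IsNode p) {N : ℂ → ℂ} (hN : Differentiable ℂ N) :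
    (∮ y in C(p, 1 / 4), ∮ x in C(1, 1 / 16), N y / ((x - 1) * (x - exp y))) =
      -(2 * Real.pi * I) ^ 2 * N p := by
  have e1 : (∮ y in C(p, 1 / 4), ∮ x in C(1, 1 / 16), N y / ((x - 1) * (x - exp y))) =
      ∮ y in C(p, 1 / 4), (y - p)⁻¹ • (-(2 * Real.pi * I) * N y / dslope exp p y) := by
    apply circleIntegral.integral_congr (by norm_num)
    intro y hy
    simp only
    have hy' : ‖y - p‖ = 1 / 4 := by simpa [dist_eq_norm] using hy
    have hyne : y ≠ p := by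
      intro h; rw [h, sub_self, norm_zero] at hy'; norm_num at hy'
    have h8 := exp_sub_one_lower hp.exp (y := y) (by linarith)
    rw [hy'] at h8
    have hene : exp y - 1 ≠ 0 := by
      intro h; rw [h, norm_zero] at h8; norm_num at h8
    have hd : DifferentiableOn ℂ (fun x : ℂ => N y / (x - exp y)) (closedBall 1 (1 / 16)) := by
      intro x hx
      have hx' : ‖x - 1‖ ≤ 1 / 16 := by simpa [dist_eq_norm] using hx
      have hne : x - exp y ≠ 0 := by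
        intro h
        have h9 : exp y - 1 = x - 1 := by linear_combination -h
        rw [h9] at h8
        linarith
      exact ((differentiableAt_const (N y)).fun_div (differentiableAt_fun_id.sub_const (exp y))
        hne).differentiableWithinAt
    have h := hd.circleIntegral_sub_inv_smul (w := 1) (mem_ball_self (by norm_num))
    have e2 : (∮ x in C(1, 1 / 16), N y / ((x - 1) * (x - exp y))) =
        ∮ x in C(1, 1 / 16), (x - 1)⁻¹ • (N y / (x - exp y)) := by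
      congr 1
      funext x
      rw [smul_eq_mul, div_eq_mul_inv, div_eq_mul_inv, mul_inv]
      ring
    rw [e2, h, dslope_of_ne _ hyne, slope_def_field, hp.exp, smul_eq_mul, smul_eq_mul]
    have hne1 : (1 : ℂ) - exp y ≠ 0 := by
      intro h; apply hene; linear_combination -h
    have hne2 : y - p ≠ 0 := sub_ne_zero.2 hyne
    field_simp
    ring
  rw [e1]
  have hdne : ∀ y ∈ closedBall p (1 / 4), dslope exp p y ≠ 0 := by
    intro y hy
    have hy' : ‖y - p‖ ≤ 1 / 4 := by simpa [dist_eq_norm] using hy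
    rcases eq_or_ne y p with rfl | hyne
    · rw [dslope_same, Complex.deriv_exp]
      exact Complex.exp_ne_zero _
    · rw [dslope_of_ne _ hyne, slope_def_field, hp.exp]
      have h8 := exp_sub_one_lower hp.exp (y := y) (by linarith)
      have hne2 : 0 < ‖y - p‖ := norm_pos_iff.2 (sub_ne_zero.2 hyne)
      have hene : exp y - 1 ≠ 0 := by
        intro h; rw [h, norm_zero] at h8; linarith
      exact div_ne_zero hene (sub_ne_zero.2 hyne)
  have hds : Differentiable ℂ (dslope exp p) := by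
    rw [← differentiableOn_univ]
    exact (Complex.differentiableOn_dslope univ_mem).2 Complex.differentiable_exp.differentiableOn
  have hd : DifferentiableOn ℂ (fun y : ℂ => -(2 * Real.pi * I) * N y / dslope exp p y)
      (closedBall p (1 / 4)) := by
    intro y hy
    exact (DifferentiableAt.fun_div ((hN y).const_mul _) (hds y) (hdne y hy)).differentiableWithinAt
  rw [hd.circleIntegral_sub_inv_smul (w := p) (mem_ball_self (by norm_num))]
  rw [dslope_same, Complex.deriv_exp, hp.exp, smul_eq_mul]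
  ring

/-! ### The compact set `Kc` and the estimate along it -/

/-- two circles and a segment -/
def Kc : Set ℂ := sphere 0 (1 / 4) ∪ sphere (2 * Real.pi * I) (1 / 4) ∪
  (fun t : ℝ => (t : ℂ) * I) '' Icc (1 / 4) (2 * Real.pi - 1 / 4)

theorem isCompact_Kc : IsCompact Kc :=
  ((isCompact_sphere _ _).union (isCompact_sphere _ _)).union
    (isCompact_Icc.image (by fun_prop))

theorem node_mem_Kc {p y : ℂ} (hp : IsNode p) (hy : y ∈ sphere p (1 / 4)) : y ∈ Kc := by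
  rcases hp with rfl | rfl
  · exact Or.inl (Or.inl hy)
  · exact Or.inl (Or.inr hy)

theorem Kc_bounds {y : ℂ} (hy : y ∈ Kc) : |y.re| ≤ 1 / 4 ∧ -(1 / 4) ≤ y.im ∧
    y.im ≤ 2 * Real.pi + 1 / 4 := by
  have hpi := Real.pi_pos
  rcases hy with (hy | hy) | ⟨t, ht, rfl⟩
  · have h : ‖y - 0‖ = 1 / 4 := by simpa [dist_eq_norm] using hy
    have h1 : |(y - 0).re| ≤ 1 / 4 := (Complex.abs_re_le_norm _).trans h.le
    have h2 : |(y - 0).im| ≤ 1 / 4 := (Complex.abs_im_le_norm _).trans h.le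
    simp only [sub_zero] at h1 h2
    rw [abs_le] at h2
    exact ⟨h1, h2.1, by linarith [h2.2]⟩
  · have h : ‖y - 2 * Real.pi * I‖ = 1 / 4 := by simpa [dist_eq_norm] using hy
    have h1 : |(y - 2 * Real.pi * I).re| ≤ 1 / 4 := (Complex.abs_re_le_norm _).trans h.le
    have h2 : |(y - 2 * Real.pi * I).im| ≤ 1 / 4 := (Complex.abs_im_le_norm _).trans h.le
    simp at h1 h2
    rw [abs_le] at h2
    refine ⟨by linarith, by linarith, by linarith⟩
  · simp only [mem_Icc] at ht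
    simp
    constructor
    · linarith
    · linarith

theorem Kc_ball {y z : ℂ} (hy : y ∈ Kc) (hz : ‖z - y‖ < 1 / 2) : z ∈ Yr := by
  obtain ⟨h1, h2, h3⟩ := Kc_bounds hy
  have h4 : |(z - y).re| < 1 / 2 := (Complex.abs_re_le_norm _).trans_lt hz
  have h5 : |(z - y).im| < 1 / 2 := (Complex.abs_im_le_norm _).trans_lt hz
  simp only [sub_re, sub_im] at h4 h5
  rw [abs_lt] at h4 h5
  rw [abs_le] at h1
  refine ⟨abs_lt.2 ⟨by linarith, by linarith⟩, by linarith, by linarith⟩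

theorem Kc_sub {y : ℂ} (hy : y ∈ Kc) : y ∈ Yr := Kc_ball hy (by simp)

theorem Kc_exp_ne {y : ℂ} (hy : y ∈ Kc) : exp y - 1 ≠ 0 := by
  have hpi := Real.pi_pos
  have hnode : ∀ p : ℂ, IsNode p → y ∈ sphere p (1 / 4) → exp y - 1 ≠ 0 := by
    intro p hp hy h
    have h0 : ‖y - p‖ = 1 / 4 := by simpa [dist_eq_norm] using hy
    have h8 := exp_sub_one_lower hp.exp (y := y) (by linarith)
    rw [h, norm_zero] at h8
    linarith
  rcases hy with (hy | hy) | ⟨t, ht, rfl⟩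
  · exact hnode 0 (Or.inl rfl) hy
  · exact hnode _ (Or.inr rfl) hy
  · intro h
    have h1 : exp ((t : ℂ) * I) = 1 := by linear_combination h
    rw [Complex.exp_eq_one_iff] at h1
    obtain ⟨n, hn⟩ := h1
    have h2 := congrArg Complex.im hn
    simp at h2
    simp only [mem_Icc] at ht
    rw [h2] at ht
    have h3 : (0 : ℝ) < n := by
      by_contra h4
      push Not at h4
      nlinarith [ht.1]
    have h5 : (n : ℝ) < 1 := by
      by_contra h6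
      push Not at h6
      nlinarith [ht.2]
    have h7 : 0 < n := by exact_mod_cast h3
    have h8 : n < 1 := by exact_mod_cast h5
    omega

theorem Kc_kappa : ∃ κ > 0, ∀ y ∈ Kc, κ ≤ ‖exp y‖ ∧ κ ≤ ‖exp y - 1‖ := by
  have hne : Kc.Nonempty := ⟨_, Or.inr ⟨1 / 4, by
    have := Real.pi_gt_three
    simp only [mem_Icc]; constructor <;> linarith, rfl⟩⟩
  have hc : ContinuousOn (fun y : ℂ => ‖exp y - 1‖) Kc := by fun_prop
  obtain ⟨y0, hy0, hmin⟩ := isCompact_Kc.exists_isMinOn hne hc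
  have hpos : 0 < ‖exp y0 - 1‖ := norm_pos_iff.2 (Kc_exp_ne hy0)
  refine ⟨min (1 / 3) ‖exp y0 - 1‖, by positivity, fun y hy => ⟨?_, ?_⟩⟩
  · exact (min_le_left _ _).trans (norm_exp_of_Yr (Kc_sub hy)).1.le
  · exact (min_le_right _ _).trans (hmin hy)

theorem path_le {u : ℂ → ℂ} {B L : ℝ} (hB : ∀ y ∈ Kc, ‖deriv u y‖ ≤ B)
    (hd : ∀ y ∈ Kc, DifferentiableAt ℂ u y) {γ γ' : ℝ → ℂ} {S : Set ℝ} (hS : Convex ℝ S)
    (hγ : ∀ s, HasDerivAt γ (γ' s) s) (hL : ∀ s, ‖γ' s‖ ≤ L) (hK : ∀ s ∈ S, γ s ∈ Kc) {s t : ℝ}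
    (hs : s ∈ S) (ht : t ∈ S) : ‖u (γ t) - u (γ s)‖ ≤ L * B * |t - s| := by
  have hL0 : 0 ≤ L := (norm_nonneg _).trans (hL s)
  have h := hS.norm_image_sub_le_of_norm_hasDerivWithin_le (f := fun s => u (γ s))
    (f' := fun s => γ' s • deriv u (γ s)) (C := L * B)
    (fun r hr => ((hd _ (hK r hr)).hasDerivAt.scomp r (hγ r)).hasDerivWithinAt)
    (fun r hr => by
      rw [norm_smul]
      exact mul_le_mul (hL r) (hB _ (hK r hr)) (norm_nonneg _) hL0) hs ht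
  simpa [Real.norm_eq_abs] using h

theorem curve_est {u : ℂ → ℂ} {B : ℝ} (hB : ∀ y ∈ Kc, ‖deriv u y‖ ≤ B)
    (hd : ∀ y ∈ Kc, DifferentiableAt ℂ u y) : ∀ y ∈ Kc, ‖u y - u (I / 4)‖ ≤ 12 * B := by
  have hpi := Real.pi_gt_three
  have hpi' := Real.pi_lt_d2
  have hseg : ∀ t ∈ Icc (1 / 4 : ℝ) (2 * Real.pi - 1 / 4), ((t : ℝ) : ℂ) * I ∈ Kc :=
    fun t ht => Or.inr ⟨t, ht, rfl⟩
  have hbase : ((1 / 4 : ℝ) : ℂ) * I = I / 4 := by push_cast; ring
  have hB0 : 0 ≤ B := (norm_nonneg _).trans (hB _ (hseg (1 / 4) ⟨le_rfl, by linarith⟩))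
  have hcirc : ∀ (c : ℂ), (∀ y ∈ sphere c (1 / 4), y ∈ Kc) → ∀ y ∈ sphere c (1 / 4), ∀ θ₀ : ℝ,
      |θ₀| ≤ Real.pi / 2 → ‖u y - u (circleMap c (1 / 4) θ₀)‖ ≤ 2 * B := by
    intro c hc y hy θ₀ hθ₀
    have h1 : y ∈ circleMap c (1 / 4) '' Ioc 0 (2 * Real.pi) := by
      rw [image_circleMap_Ioc]
      rwa [abs_of_pos (by norm_num)]
    obtain ⟨θ, hθ, rfl⟩ := h1
    have h2 := path_le hB hd convex_univ (γ := circleMap c (1 / 4))
      (γ' := fun s => circleMap 0 (1 / 4) s * I) (L := 1 / 4)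
      (fun s => hasDerivAt_circleMap c (1 / 4) s) (fun s => by simp)
      (fun s _ => hc _ (circleMap_mem_sphere c (by norm_num) s)) (mem_univ θ₀) (mem_univ θ)
    refine h2.trans ?_
    have h3 : |θ - θ₀| ≤ 8 := by
      rw [abs_le] at hθ₀ ⊢
      simp only [mem_Ioc] at hθ
      constructor <;> linarith
    nlinarith
  have hsg : ∀ t ∈ Icc (1 / 4 : ℝ) (2 * Real.pi - 1 / 4),
      ‖u ((t : ℂ) * I) - u (I / 4)‖ ≤ 6 * B := by
    intro t ht
    have h2 := path_le hB hd (convex_Icc (1 / 4 : ℝ) (2 * Real.pi - 1 / 4))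
      (γ := fun t : ℝ => (t : ℂ) * I) (γ' := fun _ => 1 * I) (L := 1)
      (fun s => (Complex.ofRealCLM.hasDerivAt (x := s)).mul_const I) (fun s => by simp)
      (fun s hs => hseg s hs) (s := 1 / 4) (t := t) ⟨le_rfl, by linarith⟩ ht
    simp only [hbase] at h2
    refine h2.trans ?_
    have h3 : |t - 1 / 4| ≤ 6 := by
      simp only [mem_Icc] at ht
      rw [abs_le]
      constructor <;> linarith
    nlinarith
  intro y hy
  rcases hy with (hy | hy) | ⟨t, ht, rfl⟩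
  · have h := hcirc 0 (fun z hz => Or.inl (Or.inl hz)) y hy (Real.pi / 2)
      (by rw [abs_of_pos (by linarith)])
    rw [circleMap_pi_div_two] at h
    have e : (0 : ℂ) + ((1 / 4 : ℝ) : ℂ) * I = I / 4 := by push_cast; ring
    rw [e] at h
    linarith
  · have h := hcirc (2 * Real.pi * I) (fun z hz => Or.inl (Or.inr hz)) y hy (-Real.pi / 2)
      (by rw [abs_le]; constructor <;> linarith)
    rw [circleMap_neg_pi_div_two] at h
    have e : (2 * Real.pi * I : ℂ) - ((1 / 4 : ℝ) : ℂ) * I =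
        ((2 * Real.pi - 1 / 4 : ℝ) : ℂ) * I := by push_cast; ring
    rw [e] at h
    have h2 := hsg (2 * Real.pi - 1 / 4) ⟨by linarith, le_rfl⟩
    have h3 : u y - u (I / 4) = (u y - u (((2 * Real.pi - 1 / 4 : ℝ) : ℂ) * I)) +
      (u (((2 * Real.pi - 1 / 4 : ℝ) : ℂ) * I) - u (I / 4)) := by ring
    rw [h3]
    refine (norm_add_le _ _).trans ?_
    linarith
  · exact (hsg t ht).trans (by linarith)

/-! ### The node relation -/

theorem alg_le {r Ψ Ψ0 C C0 Q Q0 P P0 : ℂ} {B M t κ : ℝ} (hκ : 0 < κ) (hB : 0 ≤ B) (hM : 0 ≤ M)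
    (ht : 0 ≤ t) (h1 : ‖r‖ ≤ B * M) (h2 : ‖Ψ‖ ≤ B * M) (h3 : ‖Ψ - Ψ0‖ ≤ t * M)
    (h4 : ‖C - C0‖ ≤ t) (h5 : κ ≤ ‖C‖) (h6 : κ ≤ ‖C0‖) (h7 : ‖Q - Q0‖ ≤ t) (h8 : ‖P - P0‖ ≤ t)
    (h9 : ‖Q0‖ ≤ B) (h10 : ‖P0‖ ≤ B) :
    ‖(r / C * Q - Ψ / C * P) - (r / C0 * Q0 - Ψ0 / C0 * P0)‖ ≤
      (3 * B / κ + 2 * B ^ 2 / κ ^ 2) * (t * M) := by
  have hC : C ≠ 0 := by intro h; rw [h, norm_zero] at h5; linarith
  have hC0 : C0 ≠ 0 := by intro h; rw [h, norm_zero] at h6; linarith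
  have e : (r / C * Q - Ψ / C * P) - (r / C0 * Q0 - Ψ0 / C0 * P0) =
      r * (Q - Q0) / C - r * Q0 * (C - C0) / (C * C0) - Ψ * (P - P0) / C +
        Ψ * P0 * (C - C0) / (C * C0) - (Ψ - Ψ0) * P0 / C0 := by
    field_simp
    ring
  have g1 : ∀ z w : ℂ, ‖z‖ ≤ B * M → ‖w‖ ≤ t → ‖z * w / C‖ ≤ B / κ * (t * M) := by
    intro z w hz hw
    rw [norm_div, norm_mul]
    calc ‖z‖ * ‖w‖ / ‖C‖ ≤ B * M * t / κ := by gcongr
      _ = _ := by ring
  have g2 : ∀ z w : ℂ, ‖z‖ ≤ B * M → ‖w‖ ≤ B → ‖z * w * (C - C0) / (C * C0)‖ ≤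
      B ^ 2 / κ ^ 2 * (t * M) := by
    intro z w hz hw
    rw [norm_div, norm_mul, norm_mul, norm_mul]
    calc ‖z‖ * ‖w‖ * ‖C - C0‖ / (‖C‖ * ‖C0‖) ≤ B * M * B * t / (κ * κ) := by gcongr
      _ = _ := by ring
  have g3 : ‖(Ψ - Ψ0) * P0 / C0‖ ≤ B / κ * (t * M) := by
    rw [norm_div, norm_mul]
    calc ‖Ψ - Ψ0‖ * ‖P0‖ / ‖C0‖ ≤ t * M * B / κ := by gcongr
      _ = _ := by ring
  rw [e]
  refine (norm_sub_le _ _).trans ?_
  have s1 := norm_add_le (r * (Q - Q0) / C - r * Q0 * (C - C0) / (C * C0) - Ψ * (P - P0) / C)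
    (Ψ * P0 * (C - C0) / (C * C0))
  have s2 := norm_sub_le (r * (Q - Q0) / C - r * Q0 * (C - C0) / (C * C0)) (Ψ * (P - P0) / C)
  have s3 := norm_sub_le (r * (Q - Q0) / C) (r * Q0 * (C - C0) / (C * C0))
  have t1 := g1 r (Q - Q0) h1 h7
  have t2 := g1 Ψ (P - P0) h2 h8
  have t3 := g2 r Q0 h1 h9
  have t4 := g2 Ψ P0 h2 h10
  have e5 : (3 * B / κ + 2 * B ^ 2 / κ ^ 2) * (t * M) = 3 * (B / κ * (t * M)) +
      2 * (B ^ 2 / κ ^ 2 * (t * M)) := by ring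
  rw [e5]
  linarith

theorem graph_hol {f c : ℂ → ℂ → ℂ → ℂ} (hf : Hol3 f univ) (hc : Hol3 c univ) {φ : ℂ → ℂ → ℂ}
    (hφ : Hol2 φ Dom) : Hol2 (fun x y => D3 (fun x y v => f x y v / c x y v) x y (φ x y))
      (Dom ∩ {q : ℂ × ℂ | c q.1 q.2 (φ q.1 q.2) ≠ 0}) := by
  have hcc : Continuous (fun q : ℂ × ℂ × ℂ => c q.1 q.2.1 q.2.2) :=
    (differentiableOn_univ.1 hc).continuous
  have hSo : IsOpen {q : ℂ × ℂ × ℂ | c q.1 q.2.1 q.2.2 ≠ 0} :=
    isOpen_ne_fun hcc continuous_const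
  have h1 : Hol3 (fun x y v => f x y v / c x y v) {q : ℂ × ℂ × ℂ | c q.1 q.2.1 q.2.2 ≠ 0} := by
    have h2 : DifferentiableOn ℂ (fun q : ℂ × ℂ × ℂ => f q.1 q.2.1 q.2.2)
      {q : ℂ × ℂ × ℂ | c q.1 q.2.1 q.2.2 ≠ 0} := (differentiableOn_univ.1 hf).differentiableOn
    have h3 : DifferentiableOn ℂ (fun q : ℂ × ℂ × ℂ => c q.1 q.2.1 q.2.2)
      {q : ℂ × ℂ × ℂ | c q.1 q.2.1 q.2.2 ≠ 0} := (differentiableOn_univ.1 hc).differentiableOn
    intro q hq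
    have h4 := (h2 q hq).differentiableAt (hSo.mem_nhds hq)
    have h5 := (h3 q hq).differentiableAt (hSo.mem_nhds hq)
    have h6 : DifferentiableAt ℂ (fun q : ℂ × ℂ × ℂ => f q.1 q.2.1 q.2.2 * (c q.1 q.2.1 q.2.2)⁻¹) q :=
      h4.fun_mul (h5.fun_inv hq)
    simp only [← div_eq_mul_inv] at h6
    exact h6.differentiableWithinAt
  have h2 := h1.D3 hSo
  refine DifferentiableOn.comp (g := fun q : ℂ × ℂ × ℂ =>
    D3 (fun x y v => f x y v / c x y v) q.1 q.2.1 q.2.2)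
    (f := fun q : ℂ × ℂ => (q.1, q.2, φ q.1 q.2)) h2 ?_ ?_
  · exact differentiableOn_fst.prodMk (differentiableOn_snd.prodMk (hφ.mono inter_subset_left))
  · rintro q ⟨-, hq⟩
    exact hq

theorem isOpen_U {c : ℂ → ℂ → ℂ → ℂ} (hc : Hol3 c univ) {φ : ℂ → ℂ → ℂ} (hφ : Hol2 φ Dom) :
    IsOpen (Dom ∩ {q : ℂ × ℂ | c q.1 q.2 (φ q.1 q.2) ≠ 0}) := by
  have h := (comp3 hc hφ).continuousOn
  exact h.isOpen_inter_preimage isOpen_Dom (isOpen_ne (x := (0 : ℂ)))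

/-- the pointwise comparison on the torus -/
theorem cmp_alg {x e E E' ρ1 ρ2 C1 C2 Ψ C Q P : ℂ} {M t : ℝ} (ht : 0 < t) (ht1 : t ≤ 1) (hM0 : 0 ≤ M)
    (hMy : ‖ρ1‖ + ‖ρ2‖ ≤ M) (hexp : E' * E = e) (he : ‖e‖ ≤ 3) (hEn : ‖E‖ ≤ E0) (hEn' : ‖E'‖ ≤ E0)
    (h1 : ‖x - 1‖ = 1 / 16) (t1 : 15 / 16 ≤ ‖x‖) (t2 : ‖x‖ ≤ 2) (t3 : 1 / 16 ≤ ‖x - e‖)
    (t4 : ‖x - e‖ ≤ 5) (t6 : 1 / 300 ≤ ‖x * ((x - 1) * (x - e))‖) (n1 : 1 / 600 ≤ ‖C‖)
    (n2 : ‖Q - -(4 * E * x / (x - e))‖ ≤ t) (n3 : ‖P - (4 * E / (x - e) + 2 / (x - 1))‖ ≤ t)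
    (hCd : ‖C - x * ((x - 1) * (x - e))‖ ≤ t) (hΨ : ‖Ψ + ρ1 * e * x * (x - 1)‖ ≤ t * M)
    (hC1 : ‖E * ρ1 - C1‖ ≤ t * M) (hC2 : ‖ρ2 - C2‖ ≤ t * M) :
    ‖((ρ1 * e * (x - 1) + ρ2 * (x - e)) / C * Q - Ψ / C * P) -
      2 * (C1 * E' - 2 * C2 * E) / ((x - 1) * (x - e))‖ ≤
      (3 * (128 * E0) / (1 / 600) + 2 * (128 * E0) ^ 2 / (1 / 600) ^ 2 + 1536 * E0) * (t * M) := by
  have hE := one_le_E0
  set A' : ℝ := 3 * (128 * E0) / (1 / 600) + 2 * (128 * E0) ^ 2 / (1 / 600) ^ 2 with hA'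
  have hA'0 : 0 ≤ A' := by positivity
  have hC : C ≠ 0 := by
    intro h; rw [h, norm_zero] at n1; linarith
  have hxne : x ≠ 0 := by intro h; rw [h, norm_zero] at t1; linarith
  have hx1ne : x - 1 ≠ 0 := by intro h; rw [h, norm_zero] at h1; linarith
  have hxene : x - e ≠ 0 := by intro h; rw [h, norm_zero] at t3; linarith
  have hn1 := norm_nonneg ρ1
  have hn2 := norm_nonneg ρ2
  have b1 : ‖ρ1 * e * (x - 1) + ρ2 * (x - e)‖ ≤ 128 * E0 * M := by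
    calc _ ≤ ‖ρ1 * e * (x - 1)‖ + ‖ρ2 * (x - e)‖ := norm_add_le _ _
      _ = ‖ρ1‖ * ‖e‖ * (1 / 16) + ‖ρ2‖ * ‖x - e‖ := by
          rw [norm_mul, norm_mul, norm_mul, h1]
      _ ≤ ‖ρ1‖ * 3 * (1 / 16) + ‖ρ2‖ * 5 := by gcongr
      _ ≤ 5 * M := by nlinarith
      _ ≤ 128 * E0 * M := by nlinarith
  have b2' : ‖-(ρ1 * e * x * (x - 1))‖ ≤ M := by
    rw [norm_neg, norm_mul, norm_mul, norm_mul, h1]
    calc ‖ρ1‖ * ‖e‖ * ‖x‖ * (1 / 16) ≤ ‖ρ1‖ * 3 * 2 * (1 / 16) := by gcongr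
      _ ≤ M := by nlinarith
  have b3 : ‖Ψ - -(ρ1 * e * x * (x - 1))‖ ≤ t * M := by
    rw [sub_neg_eq_add]; exact hΨ
  have b2 : ‖Ψ‖ ≤ 128 * E0 * M := by
    have : ‖Ψ‖ ≤ ‖Ψ - -(ρ1 * e * x * (x - 1))‖ + ‖-(ρ1 * e * x * (x - 1))‖ := by
      calc ‖Ψ‖ = ‖(Ψ - -(ρ1 * e * x * (x - 1))) + -(ρ1 * e * x * (x - 1))‖ := by
            congr 1; ring
        _ ≤ _ := norm_add_le _ _
    nlinarith
  have hnum4 : ‖(4 : ℂ)‖ = 4 := by simp
  have hnum2 : ‖(2 : ℂ)‖ = 2 := by simp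
  have b9 : ‖-(4 * E * x / (x - e))‖ ≤ 128 * E0 := by
    rw [norm_neg, norm_div, norm_mul, norm_mul, hnum4]
    calc 4 * ‖E‖ * ‖x‖ / ‖x - e‖ ≤ 4 * E0 * 2 / (1 / 16) := by gcongr
      _ = 128 * E0 := by ring
  have b10 : ‖4 * E / (x - e) + 2 / (x - 1)‖ ≤ 128 * E0 := by
    calc _ ≤ ‖4 * E / (x - e)‖ + ‖2 / (x - 1)‖ := norm_add_le _ _
      _ = 4 * ‖E‖ / ‖x - e‖ + 2 / (1 / 16) := by
          rw [norm_div, norm_mul, norm_div, hnum4, hnum2, h1]
      _ ≤ 4 * E0 / (1 / 16) + 2 / (1 / 16) := by gcongr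
      _ ≤ 128 * E0 := by linarith
  have key := alg_le (κ := 1 / 600) (B := 128 * E0) (M := M) (t := t) (by norm_num)
    (by positivity) hM0 ht.le b1 b2 b3 hCd n1 (by linarith) n2 n3 b9 b10
  rw [← hA'] at key
  have hmodel : (ρ1 * e * (x - 1) + ρ2 * (x - e)) / (x * ((x - 1) * (x - e))) *
        -(4 * E * x / (x - e)) -
      -(ρ1 * e * x * (x - 1)) / (x * ((x - 1) * (x - e))) *
        (4 * E / (x - e) + 2 / (x - 1)) =
      2 * (ρ1 * e - 2 * E * ρ2) / ((x - 1) * (x - e)) := by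
    field_simp
    ring
  rw [hmodel] at key
  have hdiff : 2 * (ρ1 * e - 2 * E * ρ2) / ((x - 1) * (x - e)) -
      2 * (C1 * E' - 2 * C2 * E) / ((x - 1) * (x - e)) =
      2 * ((E * ρ1 - C1) * E' - 2 * E * (ρ2 - C2)) / ((x - 1) * (x - e)) := by
    rw [← sub_div, ← hexp]
    congr 1
    ring
  have htM : 0 ≤ t * M := by positivity
  have hdle : ‖2 * (ρ1 * e - 2 * E * ρ2) / ((x - 1) * (x - e)) -
      2 * (C1 * E' - 2 * C2 * E) / ((x - 1) * (x - e))‖ ≤ 1536 * E0 * (t * M) := by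
    rw [hdiff, norm_div, norm_mul, norm_mul, h1, hnum2]
    have c1 : ‖(E * ρ1 - C1) * E' - 2 * E * (ρ2 - C2)‖ ≤ 3 * E0 * (t * M) := by
      calc _ ≤ ‖(E * ρ1 - C1) * E'‖ + ‖2 * E * (ρ2 - C2)‖ := norm_sub_le _ _
        _ = ‖E * ρ1 - C1‖ * ‖E'‖ + 2 * ‖E‖ * ‖ρ2 - C2‖ := by
            rw [norm_mul, norm_mul, norm_mul, hnum2]
        _ ≤ t * M * E0 + 2 * E0 * (t * M) := by gcongr
        _ = 3 * E0 * (t * M) := by ring
    calc _ ≤ 2 * (3 * E0 * (t * M)) / (1 / 16 * (1 / 16)) := by gcongr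
      _ = 1536 * E0 * (t * M) := by ring
  have hfin : ∀ X Y Z : ℂ, ‖X - Y‖ ≤ A' * (t * M) → ‖Y - Z‖ ≤ 1536 * E0 * (t * M) →
      ‖X - Z‖ ≤ (A' + 1536 * E0) * (t * M) := by
    intro X Y Z hX hY
    calc ‖X - Z‖ = ‖(X - Y) + (Y - Z)‖ := by congr 1; ring
      _ ≤ _ := norm_add_le _ _
      _ ≤ A' * (t * M) + 1536 * E0 * (t * M) := add_le_add hX hY
      _ = _ := by ring
  exact hfin _ _ _ key hdle

theorem node_rel : ∃ A > 0, ∀ t > 0, t ≤ 1 → ∃ δ > 0, ∀ a b c : ℂ → ℂ → ℂ → ℂ, Near a b c δ →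
    Integ a b c → ∀ (φ : ℂ → ℂ → ℂ) (r0 r1 ρ1 ρ2 : ℂ → ℂ) (M : ℝ) (C1 C2 : ℂ), Hol2 φ Dom →
    (∀ x y, (x, y) ∈ Dom → ‖φ x y‖ ≤ 1) →
    (∀ x y, (x, y) ∈ Dom → c x y (φ x y) * d1 φ x y + a x y (φ x y) = r0 y + r1 y * x) →
    (∀ y ∈ Kc, r0 y = -(ρ1 y + ρ2 y) * exp y ∧ r1 y = ρ1 y * exp y + ρ2 y) →
    (∀ y ∈ Kc, ‖ρ1 y‖ + ‖ρ2 y‖ ≤ M) →
    (∀ y ∈ Kc, ∀ x ∈ ball (0 : ℂ) 4,
      ‖c x y (φ x y) * d2 φ x y + b x y (φ x y) + ρ1 y * exp y * x * (x - 1)‖ ≤ t * M) →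
    (∀ y ∈ Kc, ‖exp (nu * y) * ρ1 y - C1‖ ≤ t * M) →
    (∀ y ∈ Kc, ‖ρ2 y - C2‖ ≤ t * M) →
    ∀ p : ℂ, IsNode p → ‖C1 * exp (-(nu * p)) - 2 * C2 * exp (nu * p)‖ ≤ A * (t * M) := by
  have hE := one_le_E0
  set A : ℝ := 3 * (128 * E0) / (1 / 600) + 2 * (128 * E0) ^ 2 / (1 / 600) ^ 2 + 1536 * E0 with hA
  have hA0 : 0 < A := by positivity
  refine ⟨A, hA0, ?_⟩
  intro t ht ht1
  obtain ⟨δ, hδ, hnear⟩ := near2 ht
  refine ⟨min δ t, by positivity, ?_⟩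
  intro a b c hN hI φ r0 r1 ρ1 ρ2 M C1 C2 hφ hφ1 hr hρ hM hΨ hC1 hC2 p hp
  have hN1 : Near a b c δ := hN.mono (min_le_left _ _)
  have hN2 : Near a b c t := hN.mono (min_le_right _ _)
  -- the torus
  set U : Set (ℂ × ℂ) := Dom ∩ {q : ℂ × ℂ | c q.1 q.2 (φ q.1 q.2) ≠ 0} with hUdef
  have hUo : IsOpen U := isOpen_U hN.hc hφ
  have hxy : ∀ x ∈ sphere (1 : ℂ) (1 / 16), ∀ y ∈ sphere p (1 / 4), ‖x - 1‖ = 1 / 16 ∧
      ‖y - p‖ = 1 / 4 ∧ (x, y) ∈ Dom ∧ ‖φ x y‖ ≤ 1 ∧ x ∈ ball (0 : ℂ) 4 ∧ y ∈ Kc := by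
    intro x hx y hy
    have hx' : ‖x - 1‖ = 1 / 16 := by simpa [dist_eq_norm] using hx
    have hy' : ‖y - p‖ = 1 / 4 := by simpa [dist_eq_norm] using hy
    obtain ⟨t1, t2, -, -, -, -⟩ := torus_bounds hp hx' hy'
    have hd : (x, y) ∈ Dom := ⟨by simp only; linarith, hp.mem_Yr (by linarith)⟩
    exact ⟨hx', hy', hd, hφ1 x y hd, by simpa using (show ‖x‖ < 4 by linarith), node_mem_Kc hp hy⟩
  have hsub : sphere (1 : ℂ) (1 / 16) ×ˢ sphere p (1 / 4) ⊆ U := by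
    rintro ⟨x, y⟩ ⟨hx, hy⟩
    obtain ⟨h1, h2, h3, h4, -, -⟩ := hxy x hx y hy
    refine ⟨h3, ?_⟩
    have h5 := (hnear a b c hN1 p x y (φ x y) hp h1 h2 h4).1
    intro h
    rw [h, norm_zero] at h5
    linarith
  set P : ℂ → ℂ → ℂ := fun x y => D3 (fun x y v => a x y v / c x y v) x y (φ x y) with hP
  set Q : ℂ → ℂ → ℂ := fun x y => D3 (fun x y v => b x y v / c x y v) x y (φ x y) with hQ
  have hPh : Hol2 P U := graph_hol hN.ha hN.hc hφ
  have hQh : Hol2 Q U := graph_hol hN.hb hN.hc hφ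
  have hzero := torus_zero hUo hPh hQh (c₁ := 1) (c₂ := p) (r₁ := 1 / 16) (r₂ := 1 / 4)
    (by norm_num) (by norm_num) hsub
  -- the model
  have hNd : Differentiable ℂ
      (fun y => 2 * (C1 * exp ((1 - nu) * y) - 2 * C2 * exp (nu * y))) := by fun_prop
  have hmod := model_integral hp hNd
  have hHc : ContinuousOn (fun q : ℂ × ℂ => d1 Q q.1 q.2 - d2 P q.1 q.2)
      (sphere (1 : ℂ) (1 / 16) ×ˢ sphere p (1 / 4)) :=
    ((hQh.d1 hUo).continuousOn.sub (hPh.d2 hUo).continuousOn).mono hsub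
  have hGc : ContinuousOn (fun q : ℂ × ℂ =>
      (2 * (C1 * exp ((1 - nu) * q.2) - 2 * C2 * exp (nu * q.2))) / ((q.1 - 1) * (q.1 - exp q.2)))
      (sphere (1 : ℂ) (1 / 16) ×ˢ sphere p (1 / 4)) := by
    apply ContinuousOn.div
    · exact (hNd.continuous.comp continuous_snd).continuousOn
    · fun_prop
    · rintro ⟨x, y⟩ ⟨hx, hy⟩
      obtain ⟨h1, h2, h3, h4, -, -⟩ := hxy x hx y hy
      obtain ⟨t1, t2, t3, t4, t5, t6⟩ := torus_bounds hp h1 h2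
      apply mul_ne_zero
      · intro h; simp only at h; rw [h, norm_zero] at h1; norm_num at h1
      · intro h; simp only at h; rw [h, norm_zero] at t3; norm_num at t3
  have hM0 : 0 ≤ M := by
    have : (p + 1 / 4) ∈ sphere p (1 / 4 : ℝ) := by simp
    have h := hM _ (node_mem_Kc hp this)
    exact (by positivity : (0 : ℝ) ≤ ‖ρ1 (p + 1 / 4)‖ + ‖ρ2 (p + 1 / 4)‖).trans h
  have hcmp : ∀ x ∈ sphere (1 : ℂ) (1 / 16), ∀ y ∈ sphere p (1 / 4),
      ‖(d1 Q x y - d2 P x y) - (2 * (C1 * exp ((1 - nu) * y) - 2 * C2 * exp (nu * y))) /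
        ((x - 1) * (x - exp y))‖ ≤ A * (t * M) := by
    intro x hx y hy
    obtain ⟨h1, h2, hd, hφl, hx4, hyK⟩ := hxy x hx y hy
    obtain ⟨t1, t2, t3, t4, t5, t6⟩ := torus_bounds hp h1 h2
    obtain ⟨n1, n2, n3⟩ := hnear a b c hN1 p x y (φ x y) hp h1 h2 hφl
    have hyr : y ∈ Yr := hp.mem_Yr (by linarith)
    have hy8 := norm_lt_of_Yr hyr
    have hEn' : ‖exp ((1 - nu) * y)‖ ≤ E0 := by
      apply norm_exp_mul_le _ hyr
      have : (1 : ℂ) - nu = -I := by unfold nu; ring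
      rw [this, norm_neg, Complex.norm_I]; norm_num
    have hC : c x y (φ x y) ≠ 0 := by
      intro h; rw [h, norm_zero] at n1; linarith
    have hCd : ‖c x y (φ x y) - x * ((x - 1) * (x - exp y))‖ ≤ t :=
      hN2.nc x y (φ x y) (by linarith) (by linarith) (by linarith)
    have hid := id_ii hN.ha hN.hb hN.hc hI isOpen_Dom hφ hd hC
    obtain ⟨q1, q2⟩ := hρ y hyK
    have hre : r0 y + r1 y * x = ρ1 y * exp y * (x - 1) + ρ2 y * (x - exp y) := by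
      rw [q1, q2]; ring
    rw [hr x y hd, hre] at hid
    have hH : d1 Q x y - d2 P x y = _ := hid
    rw [hH]
    have hexp : exp ((1 - nu) * y) * exp (nu * y) = exp y := by
      rw [← Complex.exp_add]; congr 1; ring
    exact cmp_alg ht ht1 hM0 (hM y hyK) hexp (norm_exp_of_Yr hyr).2.le (norm_exp_nu hyr) hEn' h1 t1 t2
      t3 t4 t6 n1 n2 n3 hCd (hΨ y hyK x hx4) (hC1 y hyK) (hC2 y hyK)
  have hle := torus_le (by norm_num) (by norm_num) hHc hGc hcmp hzero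
  rw [hmod] at hle
  have hexp2 : exp ((1 - nu) * p) = exp (-(nu * p)) := by
    have e : (1 - nu) * p = p + -(nu * p) := by ring
    rw [e, Complex.exp_add, hp.exp, one_mul]
  rw [hexp2] at hle
  have hpi := Real.pi_pos
  have e1 : ‖(2 * Real.pi * I : ℂ)‖ = 2 * Real.pi := by
    simp [abs_of_pos hpi]
  have e2 : ‖(2 : ℂ)‖ = 2 := by simp
  rw [norm_mul, norm_neg, norm_pow, e1, norm_mul, e2] at hle
  set X := ‖C1 * exp (-(nu * p)) - 2 * C2 * exp (nu * p)‖ with hX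
  have h3 : (2 * Real.pi) ^ 2 * (2 * X) ≤ (2 * Real.pi) ^ 2 * (A * (t * M) / 64) := by
    calc _ ≤ _ := hle
      _ = _ := by ring
  have h4 := le_of_mul_le_mul_left h3 (by positivity)
  have h5 : 0 ≤ A * (t * M) := by positivity
  linarith

/-! ### The estimate on `Kc` -/

/-- the coordinates of the remainder -/
noncomputable def rho1 (r0 r1 : ℂ → ℂ) (y : ℂ) : ℂ :=
  (r0 y + r1 y * exp y) / (exp y * (exp y - 1))

/-- the coordinates of the remainder -/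
noncomputable def rho2 (r0 r1 : ℂ → ℂ) (y : ℂ) : ℂ := -(r0 y + r1 y) / (exp y - 1)

theorem rho_r0 {r0 r1 : ℂ → ℂ} {y : ℂ} (h : exp y - 1 ≠ 0) :
    r0 y = -(rho1 r0 r1 y + rho2 r0 r1 y) * exp y := by
  have h2 := Complex.exp_ne_zero y
  unfold rho1 rho2
  field_simp
  ring

theorem rho_r1 {r0 r1 : ℂ → ℂ} {y : ℂ} (h : exp y - 1 ≠ 0) :
    r1 y = rho1 r0 r1 y * exp y + rho2 r0 r1 y := by
  have h2 := Complex.exp_ne_zero y
  unfold rho1 rho2
  field_simp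
  ring

theorem rho1_diff {r0 r1 : ℂ → ℂ} (h0 : DifferentiableOn ℂ r0 Yr) (h1 : DifferentiableOn ℂ r1 Yr)
    {y : ℂ} (hy : y ∈ Yr) (h : exp y - 1 ≠ 0) : DifferentiableAt ℂ (rho1 r0 r1) y := by
  have d0 := (h0 y hy).differentiableAt (isOpen_Yr.mem_nhds hy)
  have d1 := (h1 y hy).differentiableAt (isOpen_Yr.mem_nhds hy)
  have h2 := Complex.exp_ne_zero y
  unfold rho1
  exact DifferentiableAt.fun_div (by fun_prop) (by fun_prop) (mul_ne_zero h2 h)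

theorem rho2_diff {r0 r1 : ℂ → ℂ} (h0 : DifferentiableOn ℂ r0 Yr) (h1 : DifferentiableOn ℂ r1 Yr)
    {y : ℂ} (hy : y ∈ Yr) (h : exp y - 1 ≠ 0) : DifferentiableAt ℂ (rho2 r0 r1) y := by
  have d0 := (h0 y hy).differentiableAt (isOpen_Yr.mem_nhds hy)
  have d1 := (h1 y hy).differentiableAt (isOpen_Yr.mem_nhds hy)
  unfold rho2
  exact DifferentiableAt.fun_div (by fun_prop) (by fun_prop) h

/-- `Ψ` -/
noncomputable def Psi (b c : ℂ → ℂ → ℂ → ℂ) (φ : ℂ → ℂ → ℂ) (x y : ℂ) : ℂ :=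
  c x y (φ x y) * d2 φ x y + b x y (φ x y)

theorem Psi_hol {b c : ℂ → ℂ → ℂ → ℂ} (hb : Hol3 b univ) (hc : Hol3 c univ) {φ : ℂ → ℂ → ℂ}
    (hφ : Hol2 φ Dom) : Hol2 (Psi b c φ) Dom :=
  DifferentiableOn.add (DifferentiableOn.mul (comp3 hc hφ) (hφ.d2 isOpen_Dom)) (comp3 hb hφ)

theorem d2_r {a c : ℂ → ℂ → ℂ → ℂ} {φ : ℂ → ℂ → ℂ} {r0 r1 : ℂ → ℂ}
    (h0 : DifferentiableOn ℂ r0 Yr) (h1 : DifferentiableOn ℂ r1 Yr)
    (hr : ∀ x y, (x, y) ∈ Dom → c x y (φ x y) * d1 φ x y + a x y (φ x y) = r0 y + r1 y * x)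
    {x y : ℂ} (hx : ‖x‖ < 4) (hy : y ∈ Kc) :
    d2 (fun x y => c x y (φ x y) * d1 φ x y + a x y (φ x y)) x y =
      deriv (rho1 r0 r1) y * exp y * (x - 1) + rho1 r0 r1 y * exp y * (x - 1) +
        deriv (rho2 r0 r1) y * (x - exp y) - rho2 r0 r1 y * exp y := by
  have hyr := Kc_sub hy
  have hye := Kc_exp_ne hy
  have hev : (fun t => c x t (φ x t) * d1 φ x t + a x t (φ x t)) =ᶠ[𝓝 y]
      fun t => rho1 r0 r1 t * exp t * (x - 1) + rho2 r0 r1 t * (x - exp t) := by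
    have hne : ∀ᶠ t in 𝓝 y, exp t - 1 ≠ 0 :=
      (by fun_prop : ContinuousAt (fun t : ℂ => exp t - 1) y).eventually_ne hye
    filter_upwards [hne, isOpen_Yr.mem_nhds hyr] with t ht1 ht2
    have hd : (x, t) ∈ Dom := ⟨hx, ht2⟩
    rw [hr x t hd, rho_r0 (r0 := r0) (r1 := r1) ht1, rho_r1 (r0 := r0) (r1 := r1) ht1]
    ring
  have h3 := (rho1_diff h0 h1 hyr hye).hasDerivAt
  have h4 := (rho2_diff h0 h1 hyr hye).hasDerivAt
  have h5 := Complex.hasDerivAt_exp y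
  have h6 := ((h3.fun_mul h5).mul_const (x - 1)).fun_add (h4.fun_mul (h5.const_sub x))
  unfold d2
  rw [hev.deriv_eq, h6.deriv]
  ring

theorem kc_est : ∃ K > 0, ∃ η₀ > 0, ∀ η > 0, η ≤ η₀ → ∃ δ > 0, δ ≤ 1 ∧
    ∀ a b c : ℂ → ℂ → ℂ → ℂ, Near a b c δ → Integ a b c →
    ∀ (φ : ℂ → ℂ → ℂ) (r0 r1 : ℂ → ℂ), Hol2 φ Dom → DifferentiableOn ℂ r0 Yr →
    DifferentiableOn ℂ r1 Yr → (∀ x y, (x, y) ∈ Dom → ‖φ x y‖ ≤ δ) →
    (∀ x y, (x, y) ∈ Dom → c x y (φ x y) * d1 φ x y + a x y (φ x y) = r0 y + r1 y * x) →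
    ∀ y ∈ Kc, (∀ x ∈ ball (0 : ℂ) 4, ‖Psi b c φ x y + rho1 r0 r1 y * exp y * x * (x - 1)‖ ≤
        K * η * (‖rho1 r0 r1 y‖ + ‖rho2 r0 r1 y‖)) ∧
      ‖deriv (rho1 r0 r1) y + nu * rho1 r0 r1 y‖ ≤ K * η * (‖rho1 r0 r1 y‖ + ‖rho2 r0 r1 y‖) ∧
      ‖deriv (rho2 r0 r1) y‖ ≤ K * η * (‖rho1 r0 r1 y‖ + ‖rho2 r0 r1 y‖) := by
  obtain ⟨κ, hκ, hκ2⟩ := Kc_kappa
  obtain ⟨K, hK, η₀, hη₀, hLE⟩ := LE κ hκ
  refine ⟨K, hK, η₀, hη₀, ?_⟩
  intro η hη hη2
  obtain ⟨δ, hδ, hδ1, hnear⟩ := near1 hη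
  refine ⟨δ, hδ, hδ1, ?_⟩
  intro a b c hN hI φ r0 r1 hφ h0 h1 hφδ hr y hy
  have hyr := Kc_sub hy
  have hye := Kc_exp_ne hy
  have hE := one_le_E0
  have hEn := norm_exp_nu hyr
  have hy3 := (norm_exp_of_Yr hyr).2
  have hy8 := norm_lt_of_Yr hyr
  have hdom : ∀ x ∈ ball (0 : ℂ) 4, ‖x‖ < 4 ∧ (x, y) ∈ Dom := by
    intro x hx
    have : ‖x‖ < 4 := by simpa using hx
    exact ⟨this, this, hyr⟩
  have hn := fun x (hx : x ∈ ball (0 : ℂ) 4) =>
    hnear a b c hN x y (φ x y) (hdom x hx).1 hyr (hφδ x y (hdom x hx).2)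
  have hPd : DifferentiableOn ℂ (fun x => Psi b c φ x y) (ball 0 4) := by
    have h3 := Psi_hol hN.hb hN.hc hφ
    exact h3.comp (f := fun x : ℂ => (x, y)) (by fun_prop) (fun x hx => (hdom x hx).2)
  have hPb : ∃ M, ∀ x ∈ ball (0 : ℂ) 4, ‖Psi b c φ x y‖ ≤ M := by
    refine ⟨(140 + η) * (1 / (1 / 2)) + (1 + 160 * E0), ?_⟩
    intro x hx
    obtain ⟨hx4, hxd⟩ := hdom x hx
    have hx1 : ‖x - 1‖ ≤ 5 := (norm_sub_le _ _).trans (by rw [norm_one]; linarith)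
    have hx2 : ‖x - exp y‖ ≤ 7 := (norm_sub_le _ _).trans (by linarith)
    have hφ1 : ‖φ x y‖ ≤ 1 := (hφδ x y hxd).trans hδ1
    have k1 : ‖c x y (φ x y)‖ ≤ 140 + η := by
      have h3 := (hn x hx).1
      have h4 : ‖x * ((x - 1) * (x - exp y))‖ ≤ 4 * (5 * 7) := by
        rw [norm_mul, norm_mul]
        gcongr
      have h5 : ‖c x y (φ x y)‖ ≤ ‖x * ((x - 1) * (x - exp y))‖ +
          ‖c x y (φ x y) - x * ((x - 1) * (x - exp y))‖ := by
        calc ‖c x y (φ x y)‖ = ‖x * ((x - 1) * (x - exp y)) +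
              (c x y (φ x y) - x * ((x - 1) * (x - exp y)))‖ := by congr 1; ring
          _ ≤ _ := norm_add_le _ _
      linarith
    have k2 : ‖d2 φ x y‖ ≤ 1 / (1 / 2) := by
      apply cauchy_d2 (by norm_num)
      · have hsub : MapsTo (fun t : ℂ => (x, t)) (ball y (1 / 2)) Dom := by
          intro t ht
          exact ⟨hx4, Kc_ball hy (by simpa [dist_eq_norm] using ht)⟩
        exact hφ.comp (f := fun t : ℂ => (x, t)) (by fun_prop) hsub
      · intro t ht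
        exact (hφδ x t ⟨hx4, Kc_ball hy (by simpa [dist_eq_norm] using ht)⟩).trans hδ1
    have k3 : ‖b x y (φ x y)‖ ≤ 1 + 160 * E0 := by
      have h3 := hN.nb x y (φ x y) (by linarith) (by linarith) (by linarith)
      have h4 : ‖b0 x y (φ x y)‖ ≤ 160 * E0 := by
        unfold b0
        rw [norm_neg, norm_mul, norm_mul, norm_mul, norm_mul, norm_pow, norm_pow]
        have h6 : ‖(2 : ℂ)‖ = 2 := by simp
        rw [h6]
        calc 2 * ‖exp (nu * y)‖ * ‖φ x y‖ ^ 2 * ‖x‖ ^ 2 * ‖x - 1‖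
            ≤ 2 * E0 * 1 ^ 2 * 4 ^ 2 * 5 := by gcongr
          _ = 160 * E0 := by ring
      have h5 : ‖b x y (φ x y)‖ ≤ ‖b0 x y (φ x y)‖ + ‖b x y (φ x y) - b0 x y (φ x y)‖ := by
        calc ‖b x y (φ x y)‖ = ‖b0 x y (φ x y) + (b x y (φ x y) - b0 x y (φ x y))‖ := by
              congr 1; ring
          _ ≤ _ := norm_add_le _ _
      linarith
    calc ‖Psi b c φ x y‖ ≤ ‖c x y (φ x y) * d2 φ x y‖ + ‖b x y (φ x y)‖ := norm_add_le _ _
      _ = ‖c x y (φ x y)‖ * ‖d2 φ x y‖ + ‖b x y (φ x y)‖ := by rw [norm_mul]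
      _ ≤ (140 + η) * (1 / (1 / 2)) + (1 + 160 * E0) := by gcongr
  refine hLE (exp y) hy3.le (hκ2 y hy).1 (hκ2 y hy).2 (fun x => c x y (φ x y))
    (fun x => D1 c x y (φ x y) - D3 a x y (φ x y)) (fun x => D2 c x y (φ x y) - D3 b x y (φ x y))
    (fun x => Psi b c φ x y) η (rho1 r0 r1 y) (rho2 r0 r1 y) (deriv (rho1 r0 r1) y)
    (deriv (rho2 r0 r1) y) hη hη2 hPd hPb (fun x hx => (hn x hx).1) (fun x hx => (hn x hx).2.1)
    (fun x hx => (hn x hx).2.2) ?_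
  intro x hx
  obtain ⟨hx4, hxd⟩ := hdom x hx
  have hid := id_i hN.ha hN.hb hN.hc hI isOpen_Dom hφ hxd
  rw [d2_r h0 h1 hr hx4 hy, hr x y hxd] at hid
  have hre : r0 y + r1 y * x =
      rho1 r0 r1 y * exp y * (x - 1) + rho2 r0 r1 y * (x - exp y) := by
    rw [rho_r0 (r0 := r0) (r1 := r1) hye, rho_r1 (r0 := r0) (r1 := r1) hye]
    ring
  rw [hre] at hid
  exact hid

/-! ### The end of the proof -/

/-- the linear algebra of the two node relations -/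
theorem two_nodes {C1 C2 : ℂ} {B : ℝ} (hB : 0 ≤ B)
    (h : ∀ p : ℂ, IsNode p → ‖C1 * exp (-(nu * p)) - 2 * C2 * exp (nu * p)‖ ≤ B) :
    ‖C1‖ ≤ 5 * B ∧ ‖C2‖ ≤ 2 * B := by
  have h0 := h 0 (Or.inl rfl)
  have h1 := h (2 * Real.pi * I) (Or.inr rfl)
  simp only [mul_zero, neg_zero, Complex.exp_zero, mul_one] at h0
  have e1 : exp (nu * (2 * Real.pi * I)) = ((Real.exp (-(2 * Real.pi)) : ℝ) : ℂ) := by
    have : nu * (2 * Real.pi * I) = 2 * Real.pi * I + ((-(2 * Real.pi) : ℝ) : ℂ) := by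
      unfold nu
      push_cast
      linear_combination (2 * (Real.pi : ℂ)) * Complex.I_mul_I
    rw [this, Complex.exp_add, Complex.exp_two_pi_mul_I, one_mul, Complex.ofReal_exp]
  have e2 : exp (-(nu * (2 * Real.pi * I))) = ((Real.exp (2 * Real.pi) : ℝ) : ℂ) := by
    rw [Complex.exp_neg, e1, ← Complex.ofReal_inv, ← Real.exp_neg, neg_neg]
  rw [e1, e2] at h1
  set L : ℝ := Real.exp (-(2 * Real.pi)) with hL
  set L' : ℝ := Real.exp (2 * Real.pi) with hL'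
  have hLL : L * L' = 1 := by
    rw [hL, hL', ← Real.exp_add]; simp
  have hL0 : 0 < L := Real.exp_pos _
  have hpi := Real.pi_gt_three
  have hL1 : L ≤ 1 / 2 := by
    have h3 : (2 * Real.pi) + 1 ≤ L' := Real.add_one_le_exp _
    have h4 : 2 ≤ L' := by linarith
    nlinarith
  -- multiply the second relation by `L`
  have h2 : ‖C1 - 2 * C2 * ((L : ℂ) ^ 2)‖ ≤ B := by
    have e3 : C1 - 2 * C2 * ((L : ℂ) ^ 2) = (L : ℂ) * (C1 * (L' : ℂ) - 2 * C2 * (L : ℂ)) := by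
      have : (L : ℂ) * (L' : ℂ) = 1 := by exact_mod_cast hLL
      linear_combination (-C1) * this
    rw [e3, norm_mul, Complex.norm_real, Real.norm_eq_abs, abs_of_pos hL0]
    have := norm_nonneg (C1 * (L' : ℂ) - 2 * C2 * (L : ℂ))
    nlinarith
  have h3 : ‖2 * C2 * (1 - (L : ℂ) ^ 2)‖ ≤ 2 * B := by
    have e3 : 2 * C2 * (1 - (L : ℂ) ^ 2) = (C1 - 2 * C2 * ((L : ℂ) ^ 2)) - (C1 - 2 * C2) := by ring
    rw [e3]
    exact (norm_sub_le _ _).trans (by linarith)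
  have h4 : ‖(1 : ℂ) - (L : ℂ) ^ 2‖ = 1 - L ^ 2 := by
    have : (1 : ℂ) - (L : ℂ) ^ 2 = ((1 - L ^ 2 : ℝ) : ℂ) := by push_cast; ring
    rw [this, Complex.norm_real, Real.norm_eq_abs, abs_of_nonneg (by nlinarith)]
  rw [norm_mul, norm_mul, h4] at h3
  have h5 : ‖(2 : ℂ)‖ = 2 := by simp
  rw [h5] at h3
  have h6 := norm_nonneg C2
  have hL2 : L ^ 2 ≤ 1 / 4 := by nlinarith
  have hL3 : ‖C2‖ * L ^ 2 ≤ ‖C2‖ * (1 / 4) := mul_le_mul_of_nonneg_left hL2 h6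
  have h7 : ‖C2‖ ≤ 2 * B := by nlinarith
  refine ⟨?_, h7⟩
  have h8 : ‖C1‖ ≤ ‖C1 - 2 * C2‖ + ‖2 * C2‖ := by
    calc ‖C1‖ = ‖(C1 - 2 * C2) + 2 * C2‖ := by congr 1; ring
      _ ≤ _ := norm_add_le _ _
  rw [norm_mul, h5] at h8
  linarith

/-- a function of two variables which vanishes for `|y| = 1/4` vanishes on `Dom` -/
theorem vanish {f : ℂ → ℂ → ℂ} (hf : Hol2 f Dom)
    (h : ∀ y ∈ sphere (0 : ℂ) (1 / 4), ∀ x ∈ ball (0 : ℂ) 4, f x y = 0) :
    ∀ x y, (x, y) ∈ Dom → f x y = 0 := by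
  have hball : ∀ y ∈ closedBall (0 : ℂ) (1 / 4), y ∈ Yr := fun y hy =>
    IsNode.mem_Yr (p := 0) (Or.inl rfl) (by
      have : ‖y‖ ≤ 1 / 4 := by simpa using hy
      simpa using (by linarith : ‖y‖ ≤ 1 / 2))
  have h1 : ∀ x ∈ ball (0 : ℂ) 4, ∀ y ∈ closedBall (0 : ℂ) (1 / 4), f x y = 0 := by
    intro x hx y hy
    have hx4 : ‖x‖ < 4 := by simpa using hx
    have hd : DiffContOnCl ℂ (fun t => f x t) (ball 0 (1 / 4)) := by
      apply DifferentiableOn.diffContOnCl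
      rw [closure_ball (0 : ℂ) (by norm_num)]
      exact hf.comp (f := fun t : ℂ => (x, t)) (by fun_prop) (fun t ht => ⟨hx4, hball t ht⟩)
    have h2 := Complex.eqOn_closure_of_eqOn_frontier (f := fun t => f x t) (g := fun _ => 0)
      (U := ball (0 : ℂ) (1 / 4)) isBounded_ball hd (diffContOnCl_const) (by
        intro t ht
        rw [frontier_ball (0 : ℂ) (by norm_num)] at ht
        exact h t ht x hx)
    rw [closure_ball (0 : ℂ) (by norm_num)] at h2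
    exact h2 hy
  intro x y hxy
  have hW : IsOpen (ball (0 : ℂ) 4 ×ˢ ball (0 : ℂ) (1 / 4)) := isOpen_ball.prod isOpen_ball
  refine ident2 isOpen_Dom convex_Dom hf hW ?_ ?_ hxy
  · refine ⟨(0, 0), ⟨mem_ball_self (by norm_num), mem_ball_self (by norm_num)⟩, ?_, ?_⟩
    · simp
    · exact hball 0 (mem_closedBall_self (by norm_num))
  · rintro x y ⟨⟨hx, hy⟩, -⟩
    exact h1 x hx y (ball_subset_closedBall hy)

end P4

open P4 in
/-- Lemma 3 of the paper: `v = φ` is a leaf over `Dom` -/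
theorem exists_leaf : ∀ ε > 0, ∃ δ > 0, ∀ a b c : ℂ → ℂ → ℂ → ℂ, Near a b c δ → Integ a b c →
    ∃ φ : ℂ → ℂ → ℂ, Good a b c φ ε := by
  intro ε hε
  obtain ⟨K, hK, η₀, hη₀, hkc⟩ := kc_est
  obtain ⟨A, hA, hnode⟩ := node_rel
  have hE := one_le_E0
  set t : ℝ := min 1 (1 / (2 * E0 * (7 * A + 2))) with ht
  have ht0 : 0 < t := by positivity
  have ht1 : t ≤ 1 := min_le_left _ _
  have ht2 : E0 * (7 * A + 2) * t ≤ 1 / 2 := by
    have h1 : t ≤ 1 / (2 * E0 * (7 * A + 2)) := min_le_right _ _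
    rw [le_div_iff₀ (by positivity)] at h1
    linarith
  set η : ℝ := min η₀ (t / (12 * E0 * K)) with hη
  have hη0 : 0 < η := by positivity
  have hη1 : η ≤ η₀ := min_le_left _ _
  have hη2 : 12 * E0 * (K * η) ≤ t := by
    have h1 : η ≤ t / (12 * E0 * K) := min_le_right _ _
    rw [le_div_iff₀ (by positivity)] at h1
    linarith
  obtain ⟨δ₁, hδ₁, hδ₁1, hkc'⟩ := hkc η hη0 hη1
  obtain ⟨δ₂, hδ₂, hnode'⟩ := hnode t ht0 ht1
  obtain ⟨δ₃, hδ₃, hLS⟩ := LS (min ε δ₁) (by positivity)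
  refine ⟨min (min ε δ₁) (min δ₂ δ₃), by positivity, ?_⟩
  intro a b c hN hI
  have hNε : Near a b c ε := hN.mono ((min_le_left _ _).trans (min_le_left _ _))
  have hN1 : Near a b c δ₁ := hN.mono ((min_le_left _ _).trans (min_le_right _ _))
  have hN2 : Near a b c δ₂ := hN.mono ((min_le_right _ _).trans (min_le_left _ _))
  have hN3 : Near a b c δ₃ := hN.mono ((min_le_right _ _).trans (min_le_right _ _))
  obtain ⟨φ, r0, r1, hφ, h0, h1, hφs, hr⟩ := hLS a b c hN3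
  have hφε : ∀ x y, (x, y) ∈ Dom → ‖φ x y‖ ≤ ε := fun x y h => (hφs x y h).trans (min_le_left _ _)
  have hφδ : ∀ x y, (x, y) ∈ Dom → ‖φ x y‖ ≤ δ₁ := fun x y h => (hφs x y h).trans (min_le_right _ _)
  have hest := hkc' a b c hN1 hI φ r0 r1 hφ h0 h1 hφδ hr
  -- the maximum
  have hne : Kc.Nonempty := ⟨1 / 4, Or.inl (Or.inl (by simp))⟩
  have hd1 : ∀ y ∈ Kc, DifferentiableAt ℂ (rho1 r0 r1) y := fun y hy =>
    rho1_diff h0 h1 (Kc_sub hy) (Kc_exp_ne hy)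
  have hd2 : ∀ y ∈ Kc, DifferentiableAt ℂ (rho2 r0 r1) y := fun y hy =>
    rho2_diff h0 h1 (Kc_sub hy) (Kc_exp_ne hy)
  have hcont : ContinuousOn (fun y => ‖rho1 r0 r1 y‖ + ‖rho2 r0 r1 y‖) Kc := by
    intro y hy
    exact ((hd1 y hy).continuousAt.norm.add (hd2 y hy).continuousAt.norm).continuousWithinAt
  obtain ⟨y0, hy0, hmax⟩ := isCompact_Kc.exists_isMaxOn hne hcont
  set M : ℝ := ‖rho1 r0 r1 y0‖ + ‖rho2 r0 r1 y0‖ with hMdef
  have hM0 : 0 ≤ M := by positivity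
  have hM : ∀ y ∈ Kc, ‖rho1 r0 r1 y‖ + ‖rho2 r0 r1 y‖ ≤ M := fun y hy => hmax hy
  have hKη : 0 < K * η := by positivity
  have hKt : K * η ≤ t := by nlinarith
  -- the curve
  have hu1 : ∀ y ∈ Kc, ‖exp (nu * y) * rho1 r0 r1 y - exp (nu * (I / 4)) * rho1 r0 r1 (I / 4)‖ ≤
      t * M := by
    intro y hy
    have h := curve_est (u := fun y => exp (nu * y) * rho1 r0 r1 y) (B := E0 * (K * η * M))
      (fun z hz => by
        have e1 : HasDerivAt (fun y => exp (nu * y)) (exp (nu * z) * (nu * 1)) z :=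
          ((hasDerivAt_id z).const_mul nu).cexp
        have e2 := (e1.fun_mul (hd1 z hz).hasDerivAt).deriv
        rw [e2]
        have e3 : exp (nu * z) * (nu * 1) * rho1 r0 r1 z + exp (nu * z) * deriv (rho1 r0 r1) z =
            exp (nu * z) * (deriv (rho1 r0 r1) z + nu * rho1 r0 r1 z) := by ring
        rw [e3, norm_mul]
        have e4 := (hest z hz).2.1
        have e5 : ‖deriv (rho1 r0 r1) z + nu * rho1 r0 r1 z‖ ≤ K * η * M :=
          e4.trans (mul_le_mul_of_nonneg_left (hM z hz) hKη.le)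
        exact mul_le_mul (norm_exp_nu (Kc_sub hz)) e5 (norm_nonneg _) (by linarith))
      (fun z hz => (by fun_prop : DifferentiableAt ℂ (fun y => exp (nu * y)) z).fun_mul (hd1 z hz))
      y hy
    refine h.trans ?_
    calc 12 * (E0 * (K * η * M)) = 12 * E0 * (K * η) * M := by ring
      _ ≤ t * M := mul_le_mul_of_nonneg_right hη2 hM0
  have hu2 : ∀ y ∈ Kc, ‖rho2 r0 r1 y - rho2 r0 r1 (I / 4)‖ ≤ t * M := by
    intro y hy
    have h := curve_est (u := rho2 r0 r1) (B := K * η * M)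
      (fun z hz => (hest z hz).2.2.trans (mul_le_mul_of_nonneg_left (hM z hz) hKη.le)) hd2 y hy
    refine h.trans ?_
    have h2 : 12 * (K * η) ≤ t := by nlinarith
    calc 12 * (K * η * M) = 12 * (K * η) * M := by ring
      _ ≤ t * M := mul_le_mul_of_nonneg_right h2 hM0
  have hPsi : ∀ y ∈ Kc, ∀ x ∈ ball (0 : ℂ) 4,
      ‖c x y (φ x y) * d2 φ x y + b x y (φ x y) + rho1 r0 r1 y * exp y * x * (x - 1)‖ ≤ t * M := by
    intro y hy x hx
    refine ((hest y hy).1 x hx).trans ?_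
    exact mul_le_mul hKt (hM y hy) (by positivity) ht0.le
  have hnd := hnode' a b c hN2 hI φ r0 r1 (rho1 r0 r1) (rho2 r0 r1) M
    (exp (nu * (I / 4)) * rho1 r0 r1 (I / 4)) (rho2 r0 r1 (I / 4)) hφ
    (fun x y h => (hφδ x y h).trans hδ₁1) hr
    (fun y hy => ⟨rho_r0 (Kc_exp_ne hy), rho_r1 (Kc_exp_ne hy)⟩) hM hPsi hu1 hu2
  set C1 : ℂ := exp (nu * (I / 4)) * rho1 r0 r1 (I / 4) with hC1
  set C2 : ℂ := rho2 r0 r1 (I / 4) with hC2
  obtain ⟨g1, g2⟩ := two_nodes (by positivity) hnd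
  -- `M = 0`
  have hMz : M = 0 := by
    have k1 : ‖exp (nu * y0) * rho1 r0 r1 y0‖ ≤ 5 * (A * (t * M)) + t * M := by
      calc ‖exp (nu * y0) * rho1 r0 r1 y0‖ = ‖C1 + (exp (nu * y0) * rho1 r0 r1 y0 - C1)‖ := by
            congr 1; ring
        _ ≤ _ := norm_add_le _ _
        _ ≤ _ := add_le_add g1 (hu1 y0 hy0)
    have k2 : ‖rho2 r0 r1 y0‖ ≤ 2 * (A * (t * M)) + t * M := by
      calc ‖rho2 r0 r1 y0‖ = ‖C2 + (rho2 r0 r1 y0 - C2)‖ := by congr 1; ring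
        _ ≤ _ := norm_add_le _ _
        _ ≤ _ := add_le_add g2 (hu2 y0 hy0)
    have k3 : ‖rho1 r0 r1 y0‖ ≤ E0 * (5 * (A * (t * M)) + t * M) := by
      have e1 : rho1 r0 r1 y0 = exp ((-nu) * y0) * (exp (nu * y0) * rho1 r0 r1 y0) := by
        rw [← mul_assoc, ← Complex.exp_add]
        have : (-nu) * y0 + nu * y0 = 0 := by ring
        rw [this, Complex.exp_zero, one_mul]
      rw [e1, norm_mul]
      have e2 : ‖exp ((-nu) * y0)‖ ≤ E0 :=
        norm_exp_mul_le (by rw [norm_neg]; exact norm_nu) (Kc_sub hy0)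
      exact mul_le_mul e2 k1 (norm_nonneg _) (by linarith)
    have htM : 0 ≤ t * M := by positivity
    have hAtM : 0 ≤ A * (t * M) := by positivity
    have k4 : M ≤ E0 * (7 * A + 2) * t * M := by
      have : 2 * (A * (t * M)) + t * M ≤ E0 * (2 * (A * (t * M)) + t * M) := by nlinarith
      calc M ≤ E0 * (5 * (A * (t * M)) + t * M) + (2 * (A * (t * M)) + t * M) := by
            rw [hMdef]; exact add_le_add k3 k2
        _ ≤ E0 * (5 * (A * (t * M)) + t * M) + E0 * (2 * (A * (t * M)) + t * M) := by linarith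
        _ = E0 * (7 * A + 2) * t * M := by ring
    have k5 : E0 * (7 * A + 2) * t * M ≤ 1 / 2 * M := mul_le_mul_of_nonneg_right ht2 hM0
    linarith
  have hz : ∀ y ∈ Kc, rho1 r0 r1 y = 0 ∧ rho2 r0 r1 y = 0 := by
    intro y hy
    have h2 := hM y hy
    rw [hMz] at h2
    have h3 := norm_nonneg (rho1 r0 r1 y)
    have h4 := norm_nonneg (rho2 r0 r1 y)
    exact ⟨norm_eq_zero.1 (by linarith), norm_eq_zero.1 (by linarith)⟩
  have hcirc : ∀ y ∈ sphere (0 : ℂ) (1 / 4), y ∈ Kc := fun y hy => Or.inl (Or.inl hy)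
  -- `r = 0`
  have hrz : ∀ x y, (x, y) ∈ Dom → c x y (φ x y) * d1 φ x y + a x y (φ x y) = 0 := by
    apply vanish (f := fun x y => c x y (φ x y) * d1 φ x y + a x y (φ x y))
    · exact DifferentiableOn.add (DifferentiableOn.mul (comp3 hN.hc hφ) (hφ.d1 isOpen_Dom))
        (comp3 hN.ha hφ)
    · intro y hy x hx
      have hyK := hcirc y hy
      have hd : (x, y) ∈ Dom := ⟨by simpa using hx, Kc_sub hyK⟩
      rw [hr x y hd, rho_r0 (r0 := r0) (r1 := r1) (Kc_exp_ne hyK),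
        rho_r1 (r0 := r0) (r1 := r1) (Kc_exp_ne hyK), (hz y hyK).1, (hz y hyK).2]
      ring
  -- `Ψ = 0`
  have hPz : ∀ x y, (x, y) ∈ Dom → Psi b c φ x y = 0 := by
    apply vanish (Psi_hol hN.hb hN.hc hφ)
    intro y hy x hx
    have hyK := hcirc y hy
    have h2 := hPsi y hyK x hx
    rw [hMz, mul_zero, (hz y hyK).1] at h2
    have h3 := norm_le_zero_iff.1 h2
    have h4 : Psi b c φ x y = c x y (φ x y) * d2 φ x y + b x y (φ x y) := rfl
    rw [h4]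
    linear_combination h3
  exact ⟨φ, hNε, hI, hφ, hφε, hrz, hPz⟩

end Pool.Agent.H583_Fol
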