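import Pool.Agent.H583_Fol.Defs
import Pool.Agent.H583_Fol.Basic
import Pool.Agent.H583_Fol.P0
import Pool.Agent.H583_Fol.P3

set_option autoImplicit false

namespace Pool.Agent.H583_Fol

open Complex Set Metric Filter Topology MeasureTheory

namespace P4n

/-! ### a torus integral -/

theorem hasFD2 {f : ℂ → ℂ → ℂ} {U : Set (ℂ × ℂ)} (hU : IsOpen U) (hf : Hol2 f U) {x y : ℂ}
    (h : (x, y) ∈ U) : HasFDerivAt (fun p : ℂ × ℂ => f p.1 p.2)
      (fderiv ℂ (fun p : ℂ × ℂ => f p.1 p.2) (x, y)) (x, y) :=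
  (DifferentiableOn.differentiableAt hf (hU.mem_nhds h)).hasFDerivAt

theorem hasDerivAt_d1 {f : ℂ → ℂ → ℂ} {U : Set (ℂ × ℂ)} (hU : IsOpen U) (hf : Hol2 f U) {x y : ℂ}
    (h : (x, y) ∈ U) : HasDerivAt (fun t => f t y) (d1 f x y) x :=
  ((hasFD2 hU hf h).comp_hasDerivAt (f := fun t => (t, y)) x
    ((hasDerivAt_id x).prodMk (hasDerivAt_const x y))).differentiableAt.hasDerivAt

theorem hasDerivAt_d2 {f : ℂ → ℂ → ℂ} {U : Set (ℂ × ℂ)} (hU : IsOpen U) (hf : Hol2 f U) {x y : ℂ}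
    (h : (x, y) ∈ U) : HasDerivAt (fun t => f x t) (d2 f x y) y :=
  ((hasFD2 hU hf h).comp_hasDerivAt (f := fun t => (x, t)) y
    ((hasDerivAt_const y x).prodMk (hasDerivAt_id y))).differentiableAt.hasDerivAt

theorem curve1 {f : ℂ → ℂ → ℂ} {U : Set (ℂ × ℂ)} (hU : IsOpen U) (hf : Hol2 f U) {A : ℝ → ℂ}
    {A' y : ℂ} {t : ℝ} (h : (A t, y) ∈ U) (hA : HasDerivAt A A' t) :
    HasDerivAt (fun s => f (A s) y) (d1 f (A t) y * A') t := by
  have h1 := (hasDerivAt_d1 hU hf h).scomp t hA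
  refine h1.congr_deriv ?_
  rw [smul_eq_mul, mul_comm]

theorem curve2 {f : ℂ → ℂ → ℂ} {U : Set (ℂ × ℂ)} (hU : IsOpen U) (hf : Hol2 f U) {A : ℝ → ℂ}
    {A' x : ℂ} {t : ℝ} (h : (x, A t) ∈ U) (hA : HasDerivAt A A' t) :
    HasDerivAt (fun s => f x (A s)) (d2 f x (A t) * A') t := by
  have h1 := (hasDerivAt_d2 hU hf h).scomp t hA
  refine h1.congr_deriv ?_
  rw [smul_eq_mul, mul_comm]

theorem comp_diff {f : ℂ → ℂ → ℂ} {U : Set (ℂ × ℂ)} (hU : IsOpen U) (hf : Hol2 f U)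
    {X Y : ℝ → ℂ} (hX : Differentiable ℝ X) (hY : Differentiable ℝ Y) {q : ℝ × ℝ}
    (h : (X q.2, Y q.1) ∈ U) :
    DifferentiableAt ℝ (fun q : ℝ × ℝ => f (X q.2) (Y q.1)) q := by
  have h1 := ((hasFD2 hU hf h).restrictScalars ℝ).differentiableAt
  exact DifferentiableAt.comp (f := fun q : ℝ × ℝ => (X q.2, Y q.1)) q h1
    (((hX q.2).comp q differentiableAt_snd).prodMk ((hY q.1).comp q differentiableAt_fst))

theorem torus_int {P Q : ℂ → ℂ → ℂ} {U : Set (ℂ × ℂ)} (hU : IsOpen U) (hP : Hol2 P U)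
    (hQ : Hol2 Q U) {X Y : ℝ → ℂ} (hX : Differentiable ℝ X) (hY : Differentiable ℝ Y)
    (hX' : Differentiable ℝ (deriv X)) (hY' : Differentiable ℝ (deriv Y))
    (hin : ∀ ψ θ, (X θ, Y ψ) ∈ U) :
    IntegrableOn (fun q : ℝ × ℝ => (d1 Q (X q.2) (Y q.1) - d2 P (X q.2) (Y q.1)) * deriv X q.2 *
      deriv Y q.1) (Icc ((0, 0) : ℝ × ℝ) (2 * Real.pi, 2 * Real.pi)) := by
  refine ContinuousOn.integrableOn_compact isCompact_Icc ?_
  intro q _
  have c1 := (comp_diff hU (hQ.d1 hU) hX hY (hin q.1 q.2)).continuousAt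
  have c2 := (comp_diff hU (hP.d2 hU) hX hY (hin q.1 q.2)).continuousAt
  have c3 : ContinuousAt (fun q : ℝ × ℝ => deriv X q.2) q :=
    ((hX' q.2).comp q differentiableAt_snd).continuousAt
  have c4 : ContinuousAt (fun q : ℝ × ℝ => deriv Y q.1) q :=
    ((hY' q.1).comp q differentiableAt_fst).continuousAt
  exact (((c1.sub c2).mul c3).mul c4).continuousWithinAt

theorem torus_zero {P Q : ℂ → ℂ → ℂ} {U : Set (ℂ × ℂ)} (hU : IsOpen U) (hP : Hol2 P U)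
    (hQ : Hol2 Q U) {X Y : ℝ → ℂ} (hX : Differentiable ℝ X) (hY : Differentiable ℝ Y)
    (hX' : Differentiable ℝ (deriv X)) (hY' : Differentiable ℝ (deriv Y))
    (pX : X (2 * Real.pi) = X 0) (pY : Y (2 * Real.pi) = Y 0)
    (hin : ∀ ψ θ, (X θ, Y ψ) ∈ U) :
    ∫ q in Icc ((0, 0) : ℝ × ℝ) (2 * Real.pi, 2 * Real.pi),
      (d1 Q (X q.2) (Y q.1) - d2 P (X q.2) (Y q.1)) * deriv X q.2 * deriv Y q.1 = 0 := by
  have h2p : (0 : ℝ) ≤ 2 * Real.pi := by positivity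
  set f : ℝ × ℝ → ℂ := fun q => -(P (X q.2) (Y q.1) * deriv X q.2) with hf
  set g : ℝ × ℝ → ℂ := fun q => Q (X q.2) (Y q.1) * deriv Y q.1 with hg
  have df : Differentiable ℝ f := by
    intro q
    exact ((comp_diff hU hP hX hY (hin q.1 q.2)).mul
      ((hX' q.2).comp q differentiableAt_snd)).neg
  have dg : Differentiable ℝ g := by
    intro q
    exact (comp_diff hU hQ hX hY (hin q.1 q.2)).mul ((hY' q.1).comp q differentiableAt_fst)
  have e : ∀ q : ℝ × ℝ, fderiv ℝ f q (1, 0) + fderiv ℝ g q (0, 1) =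
      (d1 Q (X q.2) (Y q.1) - d2 P (X q.2) (Y q.1)) * deriv X q.2 * deriv Y q.1 := by
    intro q
    have hF := (df q).hasFDerivAt.comp_hasDerivAt
      (f := fun t => (t, q.2)) q.1 ((hasDerivAt_id q.1).prodMk (hasDerivAt_const q.1 q.2))
    have hG := (dg q).hasFDerivAt.comp_hasDerivAt
      (f := fun t => (q.1, t)) q.2 ((hasDerivAt_const q.2 q.1).prodMk (hasDerivAt_id q.2))
    have hF' := ((curve2 hU hP (hin q.1 q.2) (hY q.1).hasDerivAt).mul_const (deriv X q.2)).neg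
    have hG' := (curve1 hU hQ (hin q.1 q.2) (hX q.2).hasDerivAt).mul_const (deriv Y q.1)
    have eF := hF.unique hF'
    have eG := hG.unique hG'
    rw [eF, eG]
    ring
  have hcont : IntegrableOn (fun q : ℝ × ℝ => fderiv ℝ f q (1, 0) + fderiv ℝ g q (0, 1))
      (Icc ((0, 0) : ℝ × ℝ) (2 * Real.pi, 2 * Real.pi)) := by
    simp only [e]
    exact torus_int hU hP hQ hX hY hX' hY' hin
  have key := MeasureTheory.integral_divergence_prod_Icc_of_hasFDerivAt_of_le f g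
    (fderiv ℝ f) (fderiv ℝ g) (0, 0) (2 * Real.pi, 2 * Real.pi) ⟨h2p, h2p⟩
    df.continuous.continuousOn dg.continuous.continuousOn
    (fun q _ => (df q).hasFDerivAt) (fun q _ => (dg q).hasFDerivAt) hcont
  simp only [e] at key
  rw [key]
  simp only [hf, hg, pX, pY]
  ring

/-! ### second derivative estimate -/

theorem cauchy_ball {g : ℂ → ℂ} {x : ℂ} {M : ℝ}
    (hg : DifferentiableOn ℂ g (ball x 1)) (h : ∀ t ∈ ball x 1, ‖g t‖ ≤ M) :
    ‖deriv g x‖ ≤ M := by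
  have := cauchy_d1 (f := fun t _ => g t) (x := x) (y := 0) one_pos hg h
  rw [div_one] at this
  exact this

theorem second {u : ℂ → ℂ} {A B : ℂ} {M : ℝ} (hu : DifferentiableOn ℂ u (ball 0 9))
    (h : ∀ v ∈ ball (0 : ℂ) 9, ‖u v - (A * v + B * v ^ 2)‖ ≤ M) {v : ℂ} (hv : ‖v‖ < 7) :
    ‖deriv (deriv u) v - 2 * B‖ ≤ M := by
  have hsub : ∀ {r : ℝ} {w : ℂ}, ‖w‖ < r → ball w 1 ⊆ ball 0 (r + 1) := by
    intro r w hw
    apply ball_subset_ball'
    rw [dist_zero_right]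
    linarith
  set w : ℂ → ℂ := fun v => u v - (A * v + B * v ^ 2) with hw
  have hwd : DifferentiableOn ℂ w (ball 0 9) := hu.sub (by fun_prop)
  have hwd' : DifferentiableOn ℂ (deriv w) (ball 0 9) := hwd.deriv isOpen_ball
  have h1 : ∀ v ∈ ball (0 : ℂ) 8, ‖deriv w v‖ ≤ M := by
    intro v hv
    rw [mem_ball_zero_iff] at hv
    have hs := hsub hv
    norm_num at hs
    exact cauchy_ball (hwd.mono hs) (fun t ht => h t (hs ht))
  have hs := hsub hv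
  norm_num at hs
  have h2 : ‖deriv (deriv w) v‖ ≤ M :=
    cauchy_ball (hwd'.mono (hs.trans (ball_subset_ball (by norm_num)))) (fun t ht => h1 t (hs ht))
  have e1 : ∀ t ∈ ball (0 : ℂ) 9, deriv w t = deriv u t - (A + 2 * B * t) := by
    intro t ht
    have hh : HasDerivAt (fun v : ℂ => A * v + B * v ^ 2) (A + 2 * B * t) t := by
      have a1 := ((hasDerivAt_id t).const_mul A).add (((hasDerivAt_id t).pow 2).const_mul B)
      refine a1.congr_deriv ?_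
      simp
      ring
    exact ((hu.differentiableAt (isOpen_ball.mem_nhds ht)).hasDerivAt.sub hh).deriv
  have hvb : v ∈ ball (0 : ℂ) 9 := by
    rw [mem_ball_zero_iff]
    linarith
  have e2 : deriv (deriv w) v = deriv (deriv u) v - 2 * B := by
    have e3 : deriv w =ᶠ[𝓝 v] fun t => deriv u t - (A + 2 * B * t) := by
      filter_upwards [isOpen_ball.mem_nhds hvb] with t ht using e1 t ht
    rw [e3.deriv_eq]
    have hu' : DifferentiableAt ℂ (deriv u) v :=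
      (hu.deriv isOpen_ball).differentiableAt (isOpen_ball.mem_nhds hvb)
    have hh : HasDerivAt (fun t : ℂ => A + 2 * B * t) (2 * B) v := by
      simpa using ((hasDerivAt_id v).const_mul (2 * B)).const_add A
    exact (hu'.hasDerivAt.sub hh).deriv
  rw [← e2]
  exact h2

/-! ### the model integral -/

/-- the circle of the variable `x` -/
noncomputable def Xc (θ : ℝ) : ℂ := circleMap 1 (1 / 16) θ

/-- the circle of the variable `y` -/
noncomputable def Yc (p : ℂ) (θ : ℝ) : ℂ := circleMap p (1 / 4) θ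

/-- the square -/
def Sq : Set (ℝ × ℝ) := Icc ((0, 0) : ℝ × ℝ) (2 * Real.pi, 2 * Real.pi)

theorem exp_lower {p y : ℂ} (hp : exp p = 1) (hy : ‖y - p‖ = 1 / 4) : 3 / 16 ≤ ‖exp y - 1‖ := by
  have e : exp y = exp (y - p) := by rw [exp_sub, hp, div_one]
  have h1 := Complex.norm_exp_sub_one_sub_id_le (x := y - p) (by rw [hy]; norm_num)
  rw [hy] at h1
  rw [e]
  have h2 : ‖y - p‖ ≤ ‖exp (y - p) - 1‖ + ‖exp (y - p) - 1 - (y - p)‖ := by
    calc ‖y - p‖ = ‖(exp (y - p) - 1) - (exp (y - p) - 1 - (y - p))‖ := by congr 1; ring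
      _ ≤ _ := norm_sub_le _ _
  rw [hy] at h2
  linarith

theorem x_sub_exp_lower {p x y : ℂ} (hp : exp p = 1) (hy : ‖y - p‖ = 1 / 4)
    (hx : ‖x - 1‖ ≤ 1 / 16) : 1 / 8 ≤ ‖x - exp y‖ := by
  have h1 := exp_lower hp hy
  have h2 : ‖exp y - 1‖ ≤ ‖x - exp y‖ + ‖x - 1‖ := by
    calc ‖exp y - 1‖ = ‖(x - 1) - (x - exp y)‖ := by congr 1; ring
      _ ≤ ‖x - 1‖ + ‖x - exp y‖ := norm_sub_le _ _
      _ = _ := add_comm _ _
  linarith

theorem inner_int {p y : ℂ} (hp : exp p = 1) (hy : ‖y - p‖ = 1 / 4) :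
    (∮ x in C(1, 1 / 16), ((x - 1) * (x - exp y))⁻¹) = 2 * Real.pi * I * (1 - exp y)⁻¹ := by
  have hd : DifferentiableOn ℂ (fun x : ℂ => (x - exp y)⁻¹) (closedBall 1 (1 / 16)) := by
    intro x hx
    rw [mem_closedBall, dist_eq_norm] at hx
    have h1 := x_sub_exp_lower hp hy hx
    have h2 : x - exp y ≠ 0 := by
      intro h0
      rw [h0, norm_zero] at h1
      norm_num at h1
    have h3 : DifferentiableAt ℂ (fun x : ℂ => x - exp y) x := by fun_prop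
    exact (h3.inv h2).differentiableWithinAt
  have hd' : DiffContOnCl ℂ (fun x : ℂ => (x - exp y)⁻¹) (ball 1 (1 / 16)) := by
    apply DifferentiableOn.diffContOnCl
    rw [closure_ball _ (by norm_num)]
    exact hd
  have key := hd'.circleIntegral_sub_inv_smul (w := 1) (mem_ball_self (by norm_num))
  rw [smul_eq_mul] at key
  rw [← key]
  congr 1
  ext x
  rw [mul_inv, smul_eq_mul]

theorem outer_int {p : ℂ} (hp : exp p = 1) {g : ℂ → ℂ} (hg : Differentiable ℂ g) :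
    (∮ y in C(p, 1 / 4), g y * (1 - exp y)⁻¹) = -(2 * Real.pi * I * g p) := by
  set k : ℂ → ℂ := fun y => -(g y * (dslope exp p y)⁻¹) with hk
  have hds : Differentiable ℂ (dslope exp p) := by
    rw [← differentiableOn_univ]
    exact (Complex.differentiableOn_dslope univ_mem).2 Complex.differentiable_exp.differentiableOn
  have hne : ∀ y ∈ closedBall p (1 / 4), dslope exp p y ≠ 0 := by
    intro y hy
    rw [mem_closedBall, dist_eq_norm] at hy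
    rcases eq_or_ne y p with rfl | hyp
    · rw [dslope_same, Complex.deriv_exp, hp]
      exact one_ne_zero
    · rw [dslope_of_ne _ hyp, slope_def_field, hp]
      apply div_ne_zero _ (sub_ne_zero.2 hyp)
      intro h0
      have e : exp y = exp (y - p) := by rw [exp_sub, hp, div_one]
      have h1 := Complex.norm_exp_sub_one_sub_id_le (x := y - p) (by linarith)
      rw [← e, h0, zero_sub, norm_neg] at h1
      have h2 : 0 < ‖y - p‖ := norm_pos_iff.2 (sub_ne_zero.2 hyp)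
      nlinarith
  have hkd : DifferentiableOn ℂ k (closedBall p (1 / 4)) := by
    intro y hy
    exact ((hg y).mul ((hds y).inv (hne y hy))).neg.differentiableWithinAt
  have hkd' : DiffContOnCl ℂ k (ball p (1 / 4)) := by
    apply DifferentiableOn.diffContOnCl
    rw [closure_ball _ (by norm_num)]
    exact hkd
  have key := hkd'.circleIntegral_sub_inv_smul (w := p) (mem_ball_self (by norm_num))
  have e1 : k p = -g p := by
    simp only [hk]
    rw [dslope_same, Complex.deriv_exp, hp]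
    simp
  rw [e1, smul_eq_mul] at key
  rw [← mul_neg, ← key]
  refine circleIntegral.integral_congr (by norm_num) ?_
  intro y hy
  have hyp : y ≠ p := by
    rintro rfl
    simp at hy
  simp only [hk, smul_eq_mul]
  rw [dslope_of_ne _ hyp, slope_def_field, hp, inv_div]
  have h3 : y - p ≠ 0 := sub_ne_zero.2 hyp
  have h4 : exp y - 1 ≠ 0 := by
    intro h0
    rw [mem_sphere, dist_eq_norm] at hy
    have := exp_lower hp hy
    rw [h0, norm_zero] at this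
    norm_num at this
  have h5 : 1 - exp y ≠ 0 := by
    rw [← neg_sub]
    exact neg_ne_zero.2 h4
  field_simp
  ring

theorem deriv_Xc (θ : ℝ) : deriv Xc θ = circleMap 0 (1 / 16) θ * I := deriv_circleMap 1 (1 / 16) θ

theorem deriv_Yc (p : ℂ) (θ : ℝ) : deriv (Yc p) θ = circleMap 0 (1 / 4) θ * I :=
  deriv_circleMap p (1 / 4) θ

theorem diff_Xc : Differentiable ℝ Xc := differentiable_circleMap 1 (1 / 16)

theorem diff_Yc (p : ℂ) : Differentiable ℝ (Yc p) := differentiable_circleMap p (1 / 4)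

theorem diff_Xc' : Differentiable ℝ (deriv Xc) := by
  have : deriv Xc = fun θ => circleMap 0 (1 / 16) θ * I := by
    ext θ
    exact deriv_Xc θ
  rw [this]
  exact (differentiable_circleMap 0 (1 / 16)).mul_const I

theorem diff_Yc' (p : ℂ) : Differentiable ℝ (deriv (Yc p)) := by
  have : deriv (Yc p) = fun θ => circleMap 0 (1 / 4) θ * I := by
    ext θ
    exact deriv_Yc p θ
  rw [this]
  exact (differentiable_circleMap 0 (1 / 4)).mul_const I

theorem norm_Xc (θ : ℝ) : ‖Xc θ - 1‖ = 1 / 16 := by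
  rw [Xc, circleMap_sub_center, norm_circleMap_zero]
  norm_num

theorem norm_Yc (p : ℂ) (θ : ℝ) : ‖Yc p θ - p‖ = 1 / 4 := by
  rw [Yc, circleMap_sub_center, norm_circleMap_zero]
  norm_num

theorem model_integrable {p : ℂ} (hp : exp p = 1) {g : ℂ → ℂ} (hg : Differentiable ℂ g) :
    IntegrableOn (fun q : ℝ × ℝ =>
      (g (Yc p q.1) * ((Xc q.2 - 1) * (Xc q.2 - exp (Yc p q.1)))⁻¹) * deriv Xc q.2 *
        deriv (Yc p) q.1) (Icc ((0, 0) : ℝ × ℝ) (2 * Real.pi, 2 * Real.pi)) := by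
  refine ContinuousOn.integrableOn_compact isCompact_Icc ?_
  refine Continuous.continuousOn ?_
  have c1 : Continuous (fun q : ℝ × ℝ => Yc p q.1) := (diff_Yc p).continuous.comp continuous_fst
  have c2 : Continuous (fun q : ℝ × ℝ => Xc q.2) := diff_Xc.continuous.comp continuous_snd
  have c3 : Continuous (fun q : ℝ × ℝ => deriv Xc q.2) :=
    diff_Xc'.continuous.comp continuous_snd
  have c4 : Continuous (fun q : ℝ × ℝ => deriv (Yc p) q.1) :=
    (diff_Yc' p).continuous.comp continuous_fst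
  have c5 : Continuous (fun q : ℝ × ℝ => ((Xc q.2 - 1) * (Xc q.2 - exp (Yc p q.1)))⁻¹) := by
    refine Continuous.inv₀ ?_ ?_
    · exact (c2.sub continuous_const).mul (c2.sub (continuous_exp.comp c1))
    · intro q
      refine mul_ne_zero ?_ ?_
      · intro h0
        have := norm_Xc q.2
        rw [h0, norm_zero] at this
        norm_num at this
      · intro h0
        have := x_sub_exp_lower hp (norm_Yc p q.1) (norm_Xc q.2).le
        rw [h0, norm_zero] at this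
        norm_num at this
  exact (((hg.continuous.comp c1).mul c5).mul c3).mul c4

theorem model_int {p : ℂ} (hp : exp p = 1) {g : ℂ → ℂ} (hg : Differentiable ℂ g) :
    (∫ q in Icc ((0, 0) : ℝ × ℝ) (2 * Real.pi, 2 * Real.pi),
      (g (Yc p q.1) * ((Xc q.2 - 1) * (Xc q.2 - exp (Yc p q.1)))⁻¹) * deriv Xc q.2 *
        deriv (Yc p) q.1) = -((2 * Real.pi * I) ^ 2 * g p) := by
  have h2p : (0 : ℝ) ≤ 2 * Real.pi := by positivity
  have hint := model_integrable hp hg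
  rw [Icc_prod_eq] at hint
  rw [Icc_prod_eq]
  have hpr := MeasureTheory.setIntegral_prod (μ := (volume : Measure ℝ))
    (ν := (volume : Measure ℝ)) _ hint
  rw [Measure.volume_eq_prod, hpr]
  have inner : ∀ ψ : ℝ, (∫ θ in Icc (0 : ℝ) (2 * Real.pi),
      (g (Yc p ψ) * ((Xc θ - 1) * (Xc θ - exp (Yc p ψ)))⁻¹) * deriv Xc θ *
        deriv (Yc p) ψ) = 2 * Real.pi * I *
          (deriv (Yc p) ψ • (g (Yc p ψ) * (1 - exp (Yc p ψ))⁻¹)) := by
    intro ψ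
    rw [integral_Icc_eq_integral_Ioc, ← intervalIntegral.integral_of_le h2p]
    have h1 := inner_int hp (norm_Yc p ψ)
    rw [circleIntegral] at h1
    have h2 : ∀ θ : ℝ, (g (Yc p ψ) * ((Xc θ - 1) * (Xc θ - exp (Yc p ψ)))⁻¹) * deriv Xc θ *
        deriv (Yc p) ψ = (g (Yc p ψ) * deriv (Yc p) ψ) * (deriv (circleMap 1 (1 / 16)) θ •
          ((circleMap 1 (1 / 16) θ - 1) * (circleMap 1 (1 / 16) θ - exp (Yc p ψ)))⁻¹) := by
      intro θ
      rw [smul_eq_mul]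
      show _ = (g (Yc p ψ) * deriv (Yc p) ψ) * (deriv Xc θ * ((Xc θ - 1) * (Xc θ - exp (Yc p ψ)))⁻¹)
      ring
    simp only [h2]
    rw [intervalIntegral.integral_const_mul, h1, smul_eq_mul]
    ring
  simp only [inner]
  rw [MeasureTheory.integral_const_mul, integral_Icc_eq_integral_Ioc,
    ← intervalIntegral.integral_of_le h2p]
  have h3 := outer_int hp hg
  rw [circleIntegral] at h3
  have h4 : (∫ ψ in (0 : ℝ)..(2 * Real.pi), deriv (Yc p) ψ •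
      (g (Yc p ψ) * (1 - exp (Yc p ψ))⁻¹)) = -(2 * Real.pi * I * g p) := h3
  rw [h4]
  ring

/-! ### estimates at a point of the torus -/

/-- bound of `exp (± nu y)` -/
noncomputable def NN : ℝ := Real.exp 16

theorem one_le_NN : 1 ≤ NN := Real.one_le_exp (by norm_num)

theorem norm_nu : ‖nu‖ ≤ 2 := by
  unfold nu
  calc ‖(1 : ℂ) + I‖ ≤ ‖(1 : ℂ)‖ + ‖I‖ := norm_add_le _ _
    _ = 2 := by rw [norm_one, norm_I]; norm_num

theorem norm_exp_nu {y : ℂ} (hy : ‖y‖ ≤ 8) : ‖exp (nu * y)‖ ≤ NN ∧ ‖exp (-(nu * y))‖ ≤ NN := by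
  have h1 : ‖nu * y‖ ≤ 16 := by
    rw [norm_mul]
    calc ‖nu‖ * ‖y‖ ≤ 2 * 8 := mul_le_mul norm_nu hy (norm_nonneg _) (by norm_num)
      _ = 16 := by norm_num
  constructor
  · exact (norm_exp_le_exp_norm _).trans (Real.exp_le_exp.2 h1)
  · refine (norm_exp_le_exp_norm _).trans (Real.exp_le_exp.2 ?_)
    rw [norm_neg]
    exact h1

/-- quotient estimate -/
theorem quot_est {r rm C c0 : ℂ} {e B δ m : ℝ} (hm : 0 < m) (hc0 : m ≤ ‖c0‖)
    (hC : ‖C - c0‖ ≤ δ) (hδ : δ ≤ m / 2) (hr : ‖r - rm‖ ≤ e) (hrm : ‖rm‖ ≤ B) :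
    ‖r / C - rm / c0‖ ≤ e * (2 / m) + B * δ * (2 / m * (1 / m)) := by
  have hC' : m / 2 ≤ ‖C‖ := by
    have : ‖c0‖ ≤ ‖C‖ + ‖C - c0‖ := by
      calc ‖c0‖ = ‖C - (C - c0)‖ := by congr 1; ring
        _ ≤ _ := norm_sub_le _ _
    linarith
  have hCpos : 0 < ‖C‖ := by linarith [half_pos hm]
  have hcpos : 0 < ‖c0‖ := by linarith
  have hC0 : C ≠ 0 := norm_pos_iff.1 hCpos
  have hc00 : c0 ≠ 0 := norm_pos_iff.1 hcpos
  have e1 : r / C - rm / c0 = (r - rm) * C⁻¹ + rm * (c0 - C) * (C⁻¹ * c0⁻¹) := by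
    field_simp
    ring
  have i1 : ‖C⁻¹‖ ≤ 2 / m := by
    rw [norm_inv, inv_le_comm₀ hCpos (by positivity)]
    rw [inv_div]
    exact hC'
  have i2 : ‖c0⁻¹‖ ≤ 1 / m := by
    rw [norm_inv, inv_le_comm₀ hcpos (by positivity)]
    rw [one_div, inv_inv]
    exact hc0
  have he : 0 ≤ e := (norm_nonneg _).trans hr
  have hB : 0 ≤ B := (norm_nonneg _).trans hrm
  have hδ0 : 0 ≤ δ := (norm_nonneg _).trans hC
  rw [e1]
  refine (norm_add_le _ _).trans (add_le_add ?_ ?_)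
  · rw [norm_mul]
    exact mul_le_mul hr i1 (norm_nonneg _) he
  · rw [norm_mul, norm_mul, norm_mul]
    refine mul_le_mul (mul_le_mul hrm ?_ (norm_nonneg _) hB)
      (mul_le_mul i1 i2 (norm_nonneg _) (by positivity)) (by positivity) (by positivity)
    rw [norm_sub_rev]
    exact hC

/-- bilinear estimate -/
theorem bil_est {P Q P2 Q2 Pm Qm P2m Q2m : ℂ} {E1 E2 G1 G2 : ℝ} (h1 : ‖P - Pm‖ ≤ E1)
    (h2 : ‖Q - Qm‖ ≤ E1) (h3 : ‖P2 - P2m‖ ≤ E2) (h4 : ‖Q2 - Q2m‖ ≤ E2) (h5 : ‖Pm‖ ≤ G1)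
    (h6 : ‖Qm‖ ≤ G1) (h7 : ‖P2m‖ ≤ G2) (h8 : ‖Q2m‖ ≤ G2) :
    ‖(P * Q2 - Q * P2) - (Pm * Q2m - Qm * P2m)‖ ≤ 2 * (E1 * (G2 + E2) + G1 * E2) := by
  have e : (P * Q2 - Q * P2) - (Pm * Q2m - Qm * P2m) =
      ((P - Pm) * Q2 + Pm * (Q2 - Q2m)) - ((Q - Qm) * P2 + Qm * (P2 - P2m)) := by ring
  have a1 : ‖Q2‖ ≤ G2 + E2 := by
    calc ‖Q2‖ = ‖Q2m + (Q2 - Q2m)‖ := by congr 1; ring
      _ ≤ _ := (norm_add_le _ _).trans (add_le_add h8 h4)
  have a2 : ‖P2‖ ≤ G2 + E2 := by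
    calc ‖P2‖ = ‖P2m + (P2 - P2m)‖ := by congr 1; ring
      _ ≤ _ := (norm_add_le _ _).trans (add_le_add h7 h3)
  have hE1 : 0 ≤ E1 := (norm_nonneg _).trans h1
  have hG1 : 0 ≤ G1 := (norm_nonneg _).trans h5
  have b : ∀ {x y : ℂ} {X Y : ℝ}, ‖x‖ ≤ X → ‖y‖ ≤ Y → 0 ≤ X → ‖x * y‖ ≤ X * Y := by
    intro x y X Y hx hy hX
    rw [norm_mul]
    exact mul_le_mul hx hy (norm_nonneg _) hX
  rw [e]
  calc _ ≤ ‖(P - Pm) * Q2 + Pm * (Q2 - Q2m)‖ + ‖(Q - Qm) * P2 + Qm * (P2 - P2m)‖ :=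
        norm_sub_le _ _
    _ ≤ (E1 * (G2 + E2) + G1 * E2) + (E1 * (G2 + E2) + G1 * E2) :=
        add_le_add ((norm_add_le _ _).trans (add_le_add (b h1 a1 hE1) (b h5 h4 hG1)))
          ((norm_add_le _ _).trans (add_le_add (b h2 a2 hE1) (b h6 h3 hG1)))
    _ = _ := by ring

/-- the situation at a point of the torus -/
structure Pt (p x y : ℂ) : Prop where
  hp : exp p = 1
  hx : ‖x - 1‖ = 1 / 16
  hy : ‖y - p‖ = 1 / 4
  yr : y ∈ Yr

theorem Pt.nx {p x y : ℂ} (h : Pt p x y) : 15 / 16 ≤ ‖x‖ ∧ ‖x‖ ≤ 17 / 16 := by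
  have h1 := h.hx
  have h2 : ‖(1 : ℂ)‖ ≤ ‖x‖ + ‖x - 1‖ := by
    calc ‖(1 : ℂ)‖ = ‖x - (x - 1)‖ := by congr 1; ring
      _ ≤ _ := norm_sub_le _ _
  have h3 : ‖x‖ ≤ ‖x - 1‖ + ‖(1 : ℂ)‖ := by
    calc ‖x‖ = ‖(x - 1) + 1‖ := by congr 1; ring
      _ ≤ _ := norm_add_le _ _
  rw [norm_one] at h2 h3
  constructor <;> linarith

theorem Pt.ne {p x y : ℂ} (h : Pt p x y) : ‖x - exp y‖ ≤ 5 := by
  have h1 := (norm_exp_of_Yr h.yr).2
  have h2 := h.nx.2
  calc ‖x - exp y‖ ≤ ‖x‖ + ‖exp y‖ := norm_sub_le _ _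
    _ ≤ 5 := by linarith

theorem Pt.lo {p x y : ℂ} (h : Pt p x y) : 1 / 8 ≤ ‖x - exp y‖ := x_sub_exp_lower h.hp h.hy h.hx.le

theorem Pt.hh_lo {p x y : ℂ} (h : Pt p x y) : 1 / 128 ≤ ‖hh x y‖ := by
  unfold hh
  rw [norm_mul, h.hx]
  linarith [h.lo]

theorem Pt.hh_up {p x y : ℂ} (h : Pt p x y) : ‖hh x y‖ ≤ 1 := by
  unfold hh
  rw [norm_mul, h.hx]
  linarith [h.ne]

theorem Pt.c0_lo {p x y : ℂ} (h : Pt p x y) (v : ℂ) : 1 / 200 ≤ ‖c0 x y v‖ := by
  unfold c0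
  rw [norm_mul]
  have h1 := h.nx.1
  have h2 := h.hh_lo
  nlinarith [norm_nonneg x, norm_nonneg (hh x y)]

theorem Pt.x_ne {p x y : ℂ} (h : Pt p x y) : x ≠ 0 := by
  rintro rfl
  have := h.nx.1
  rw [norm_zero] at this
  norm_num at this

theorem Pt.hh_ne {p x y : ℂ} (h : Pt p x y) : hh x y ≠ 0 := by
  intro h0
  have := h.hh_lo
  rw [h0, norm_zero] at this
  norm_num at this

/-- the coefficient of `v ^ 2 x` in `a0` -/
noncomputable def gg (x y : ℂ) : ℂ := 2 * exp (nu * y) * (x - 1) + (x - exp y)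

theorem Pt.y8 {p x y : ℂ} (h : Pt p x y) : ‖y‖ ≤ 8 := (norm_lt_of_Yr h.yr).le

theorem Pt.gg_up {p x y : ℂ} (h : Pt p x y) : ‖gg x y‖ ≤ 6 * NN := by
  unfold gg
  have h1 := (norm_exp_nu h.y8).1
  have h2 := one_le_NN
  calc _ ≤ ‖2 * exp (nu * y) * (x - 1)‖ + ‖x - exp y‖ := norm_add_le _ _
    _ ≤ 2 * NN * (1 / 16) + 5 := by
        refine add_le_add ?_ h.ne
        rw [norm_mul, norm_mul, h.hx]
        simp only [Complex.norm_ofNat]
        nlinarith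
    _ ≤ 6 * NN := by nlinarith

theorem Pt.a0_up {p x y : ℂ} (h : Pt p x y) {v : ℂ} (hv : ‖v‖ ≤ 9) : ‖a0 x y v‖ ≤ 1100 * NN := by
  have h2 := one_le_NN
  have e : a0 x y v = nu * v * hh x y + v ^ 2 * x * gg x y := by
    unfold a0 gg
    ring
  rw [e]
  have h3 := h.gg_up
  have h4 := h.nx.2
  have h5 := h.hh_up
  have h6 := norm_nu
  have h7 : ‖v‖ ^ 2 ≤ 81 := by nlinarith [norm_nonneg v]
  have b1 : ‖nu * v * hh x y‖ ≤ 2 * 9 * 1 := by
    rw [norm_mul, norm_mul]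
    exact mul_le_mul (mul_le_mul h6 hv (norm_nonneg _) (by norm_num)) h5 (norm_nonneg _)
      (by norm_num)
  have b2 : ‖v ^ 2 * x * gg x y‖ ≤ 81 * (17 / 16) * (6 * NN) := by
    rw [norm_mul, norm_mul, norm_pow]
    exact mul_le_mul (mul_le_mul h7 h4 (norm_nonneg _) (by norm_num)) h3 (norm_nonneg _)
      (by norm_num)
  calc _ ≤ _ := norm_add_le _ _
    _ ≤ 2 * 9 * 1 + 81 * (17 / 16) * (6 * NN) := add_le_add b1 b2
    _ ≤ 1100 * NN := by nlinarith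

theorem Pt.b0_up {p x y : ℂ} (h : Pt p x y) {v : ℂ} (hv : ‖v‖ ≤ 9) : ‖b0 x y v‖ ≤ 1100 * NN := by
  have h2 := one_le_NN
  have h1 := (norm_exp_nu h.y8).1
  have h4 := h.nx.2
  have h7 : ‖v‖ ^ 2 ≤ 81 := by nlinarith [norm_nonneg v]
  have h8 : ‖x‖ ^ 2 ≤ 2 := by nlinarith [norm_nonneg x]
  unfold b0
  rw [norm_neg, norm_mul, norm_mul, norm_mul, norm_mul, norm_pow, norm_pow, h.hx]
  simp only [Complex.norm_ofNat]
  calc 2 * ‖exp (nu * y)‖ * ‖v‖ ^ 2 * ‖x‖ ^ 2 * (1 / 16) ≤ 2 * NN * 81 * 2 * (1 / 16) := by gcongr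
    _ ≤ 1100 * NN := by nlinarith

theorem Pt.Near {p x y : ℂ} (h : Pt p x y) {a b c : ℂ → ℂ → ℂ → ℂ} {δ : ℝ}
    (hn : H583_Fol.Near a b c δ) {v : ℂ} (hv : ‖v‖ ≤ 9) :
    ‖a x y v - a0 x y v‖ ≤ δ ∧ ‖b x y v - b0 x y v‖ ≤ δ ∧ ‖c x y v - c0 x y v‖ ≤ δ := by
  have h1 : ‖x‖ ≤ 9 := by linarith [h.nx.2]
  have h2 : ‖y‖ ≤ 9 := by linarith [h.y8]
  exact ⟨hn.na x y v h1 h2 hv, hn.nb x y v h1 h2 hv, hn.nc x y v h1 h2 hv⟩

theorem Pt.c_ne {p x y : ℂ} (h : Pt p x y) {a b c : ℂ → ℂ → ℂ → ℂ} {δ : ℝ}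
    (hn : H583_Fol.Near a b c δ) (hδ : δ ≤ 1 / 400) {v : ℂ} (hv : ‖v‖ ≤ 9) : c x y v ≠ 0 := by
  intro h0
  have h1 := (h.Near hn hv).2.2
  have h2 := h.c0_lo v
  rw [h0, zero_sub, norm_neg] at h1
  linarith

theorem slice3 {f : ℂ → ℂ → ℂ → ℂ} (hf : Hol3 f univ) (x y : ℂ) :
    Differentiable ℂ (fun t => f x y t) := by
  have h1 : Differentiable ℂ (fun p : ℂ × ℂ × ℂ => f p.1 p.2.1 p.2.2) :=
    differentiableOn_univ.1 hf
  exact h1.comp (f := fun t : ℂ => (x, y, t))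
    ((differentiable_const x).prodMk ((differentiable_const y).prodMk differentiable_id))

/-- the error of the second derivatives -/
noncomputable def KE : ℝ := 10 ^ 8 * NN

theorem Pt.second_a {p x y : ℂ} (h : Pt p x y) {a b c : ℂ → ℂ → ℂ → ℂ} {δ : ℝ}
    (hn : H583_Fol.Near a b c δ) (hδ : δ ≤ 1 / 400) {v : ℂ} (hv : ‖v‖ < 7) :
    ‖D3 (D3 (fun x y v => a x y v / c x y v)) x y v - 2 * (gg x y / hh x y)‖ ≤ KE * δ := by
  have hN := one_le_NN
  have hδ0 : 0 ≤ δ := (norm_nonneg _).trans (hn.na 0 0 0 (by simp) (by simp) (by simp))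
  refine second (u := fun v => a x y v / c x y v) (A := nu / x) (B := gg x y / hh x y) ?_ ?_ hv
  · intro v hv
    rw [mem_ball_zero_iff] at hv
    exact (((slice3 hn.ha x y) v).div ((slice3 hn.hc x y) v)
      (h.c_ne hn hδ hv.le)).differentiableWithinAt
  · intro v hv
    rw [mem_ball_zero_iff] at hv
    obtain ⟨n1, n2, n3⟩ := h.Near hn hv.le
    have e : nu / x * v + gg x y / hh x y * v ^ 2 = a0 x y v / c0 x y v := by
      have hx := h.x_ne
      have hh' := h.hh_ne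
      unfold a0 c0 gg
      field_simp
    rw [e]
    refine (quot_est (m := 1 / 200) (by norm_num) (h.c0_lo v) n3 (by linarith) n1
      (h.a0_up hv.le)).trans ?_
    unfold KE
    nlinarith [mul_nonneg hδ0 (by linarith : (0 : ℝ) ≤ NN - 1)]

theorem Pt.second_b {p x y : ℂ} (h : Pt p x y) {a b c : ℂ → ℂ → ℂ → ℂ} {δ : ℝ}
    (hn : H583_Fol.Near a b c δ) (hδ : δ ≤ 1 / 400) {v : ℂ} (hv : ‖v‖ < 7) :
    ‖D3 (D3 (fun x y v => b x y v / c x y v)) x y v -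
      2 * (-(2 * exp (nu * y) * x / (x - exp y)))‖ ≤ KE * δ := by
  have hN := one_le_NN
  have hδ0 : 0 ≤ δ := (norm_nonneg _).trans (hn.na 0 0 0 (by simp) (by simp) (by simp))
  refine second (u := fun v => b x y v / c x y v) (A := 0)
    (B := -(2 * exp (nu * y) * x / (x - exp y))) ?_ ?_ hv
  · intro v hv
    rw [mem_ball_zero_iff] at hv
    exact (((slice3 hn.hb x y) v).div ((slice3 hn.hc x y) v)
      (h.c_ne hn hδ hv.le)).differentiableWithinAt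
  · intro v hv
    rw [mem_ball_zero_iff] at hv
    obtain ⟨n1, n2, n3⟩ := h.Near hn hv.le
    have e : 0 * v + -(2 * exp (nu * y) * x / (x - exp y)) * v ^ 2 = b0 x y v / c0 x y v := by
      have hx := h.x_ne
      have hh' := h.hh_ne
      unfold hh at hh'
      have h1 : x - 1 ≠ 0 := left_ne_zero_of_mul hh'
      have h2 : x - exp y ≠ 0 := right_ne_zero_of_mul hh'
      unfold b0 c0 hh
      field_simp
      ring
    rw [e]
    refine (quot_est (m := 1 / 200) (by norm_num) (h.c0_lo v) n3 (by linarith) n2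
      (h.b0_up hv.le)).trans ?_
    unfold KE
    nlinarith [mul_nonneg hδ0 (by linarith : (0 : ℝ) ≤ NN - 1)]

/-- the constant of the pointwise estimate -/
noncomputable def KP : ℝ := 2 * ((2400 + 400000 * NN) * (2000 * NN + KE) + 1000 * NN * KE)

theorem final_num {δ η S : ℝ} (hδ0 : 0 ≤ δ) (hδ : δ ≤ 1 / 400) (hS : 0 ≤ S) (hη : 0 ≤ η) :
    2 * ((2400 + 400000 * NN) * (η + δ * S) * (2000 * NN + KE * δ) + 1000 * NN * S * (KE * δ)) ≤
      KP * (η + δ * S) := by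
  have hN := one_le_NN
  have hN0 : 0 ≤ NN := by linarith
  have hKE : 0 ≤ KE := mul_nonneg (by norm_num) hN0
  have hT0 : 0 ≤ η + δ * S := add_nonneg hη (mul_nonneg hδ0 hS)
  have t1 : KE * δ ≤ KE := mul_le_of_le_one_right hKE (by linarith)
  have t2 : δ * S ≤ η + δ * S := by linarith
  have a0 : 0 ≤ (2400 + 400000 * NN) * (η + δ * S) := mul_nonneg (by linarith) hT0
  have s1 : (2400 + 400000 * NN) * (η + δ * S) * (2000 * NN + KE * δ) ≤
      (2400 + 400000 * NN) * (η + δ * S) * (2000 * NN + KE) :=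
    mul_le_mul_of_nonneg_left (by linarith) a0
  have s2 : 1000 * NN * S * (KE * δ) ≤ 1000 * NN * KE * (η + δ * S) := by
    have e : 1000 * NN * S * (KE * δ) = 1000 * NN * KE * (δ * S) := by ring
    rw [e]
    exact mul_le_mul_of_nonneg_left t2 (mul_nonneg (by linarith) hKE)
  calc _ ≤ 2 * ((2400 + 400000 * NN) * (η + δ * S) * (2000 * NN + KE) +
          1000 * NN * KE * (η + δ * S)) :=
        mul_le_mul_of_nonneg_left (add_le_add s1 s2) (by norm_num)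
    _ = KP * (η + δ * S) := by
        unfold KP
        ring

theorem Pt.est {p x y : ℂ} (h : Pt p x y) {a b c : ℂ → ℂ → ℂ → ℂ} {δ : ℝ}
    (hn : H583_Fol.Near a b c δ) (hδ : δ ≤ 1 / 400) {v Pn Qn : ℂ} (hv : ‖v‖ ≤ 1 / 2)
    {r1 r2 C1 C2 : ℂ} {η : ℝ} (h1 : Pn = r1 * exp y * (x - 1) + r2 * (x - exp y))
    (h2 : ‖r1 - C1 * exp (-(nu * y))‖ ≤ η) (h3 : ‖r2 - C2‖ ≤ η)
    (h4 : ‖Qn + r1 * exp y * x * (x - 1)‖ ≤ η) :
    ‖(Pn / c x y v * D3 (D3 (fun x y v => b x y v / c x y v)) x y v -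
        Qn / c x y v * D3 (D3 (fun x y v => a x y v / c x y v)) x y v) -
      (2 * (C1 * exp (-(nu * y)) * exp y - 2 * C2 * exp (nu * y))) *
        ((x - 1) * (x - exp y))⁻¹‖ ≤ KP * (η + δ * (‖C1‖ + ‖C2‖)) := by
  have hN := one_le_NN
  have hδ0 : 0 ≤ δ := (norm_nonneg _).trans (hn.na 0 0 0 (by simp) (by simp) (by simp))
  have hη0 : 0 ≤ η := (norm_nonneg _).trans h3
  have hC1 := norm_nonneg C1
  have hC2 := norm_nonneg C2
  have hx1 := h.nx.1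
  have hx2 := h.nx.2
  have hey := (norm_exp_of_Yr h.yr).2
  have hey0 := norm_nonneg (exp y)
  obtain ⟨en1, en2⟩ := norm_exp_nu h.y8
  have hv9 : ‖v‖ ≤ 9 := by linarith
  obtain ⟨n1, n2, n3⟩ := h.Near hn hv9
  have lo := h.c0_lo v
  have hh' := h.hh_ne
  have hx0 := h.x_ne
  have hx10 : x - 1 ≠ 0 := by
    unfold hh at hh'
    exact left_ne_zero_of_mul hh'
  have hxe0 : x - exp y ≠ 0 := by
    unfold hh at hh'
    exact right_ne_zero_of_mul hh'
  -- first component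
  set Pm : ℂ := C1 * exp (-(nu * y)) * exp y * (x - 1) + C2 * (x - exp y) with hPm
  set Qm : ℂ := -(C1 * exp (-(nu * y)) * exp y * x * (x - 1)) with hQm
  have bP : ‖Pm‖ ≤ 5 * NN * (‖C1‖ + ‖C2‖) := by
    calc ‖Pm‖ ≤ ‖C1 * exp (-(nu * y)) * exp y * (x - 1)‖ + ‖C2 * (x - exp y)‖ := norm_add_le _ _
      _ ≤ ‖C1‖ * NN * 3 * (1 / 16) + ‖C2‖ * 5 := by
          rw [norm_mul, norm_mul, norm_mul, norm_mul, h.hx]
          have := h.ne
          gcongr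
      _ ≤ 5 * NN * (‖C1‖ + ‖C2‖) := by nlinarith
  have bQ : ‖Qm‖ ≤ 5 * NN * (‖C1‖ + ‖C2‖) := by
    calc ‖Qm‖ ≤ ‖C1‖ * NN * 3 * (17 / 16) * (1 / 16) := by
          rw [hQm, norm_neg, norm_mul, norm_mul, norm_mul, norm_mul, h.hx]
          gcongr
      _ ≤ 5 * NN * (‖C1‖ + ‖C2‖) := by nlinarith
  have dP : ‖Pn - Pm‖ ≤ 6 * η := by
    have e : Pn - Pm = (r1 - C1 * exp (-(nu * y))) * exp y * (x - 1) + (r2 - C2) * (x - exp y) := by
      rw [h1, hPm]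
      ring
    rw [e]
    calc _ ≤ ‖(r1 - C1 * exp (-(nu * y))) * exp y * (x - 1)‖ + ‖(r2 - C2) * (x - exp y)‖ :=
          norm_add_le _ _
      _ ≤ η * 3 * (1 / 16) + η * 5 := by
          rw [norm_mul, norm_mul, norm_mul, h.hx]
          have := h.ne
          gcongr
      _ ≤ 6 * η := by linarith
  have dQ : ‖Qn - Qm‖ ≤ 6 * η := by
    have e : Qn - Qm = (Qn + r1 * exp y * x * (x - 1)) -
        (r1 - C1 * exp (-(nu * y))) * exp y * x * (x - 1) := by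
      rw [hQm]
      ring
    rw [e]
    calc _ ≤ ‖Qn + r1 * exp y * x * (x - 1)‖ +
          ‖(r1 - C1 * exp (-(nu * y))) * exp y * x * (x - 1)‖ := norm_sub_le _ _
      _ ≤ η + η * 3 * (17 / 16) * (1 / 16) := by
          refine add_le_add h4 ?_
          rw [norm_mul, norm_mul, norm_mul, h.hx]
          gcongr
      _ ≤ 6 * η := by linarith
  have qP := quot_est (m := 1 / 200) (by norm_num) lo n3 (by linarith) dP bP
  have qQ := quot_est (m := 1 / 200) (by norm_num) lo n3 (by linarith) dQ bQ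
  have qE : 6 * η * (2 / (1 / 200)) + 5 * NN * (‖C1‖ + ‖C2‖) * δ * (2 / (1 / 200) * (1 / (1 / 200))) ≤
      (2400 + 400000 * NN) * (η + δ * (‖C1‖ + ‖C2‖)) := by
    have := mul_nonneg hδ0 (add_nonneg hC1 hC2)
    have := mul_nonneg (show (0 : ℝ) ≤ NN by linarith) hη0
    nlinarith
  have g1 : ∀ w : ℂ, ‖w‖ ≤ 5 * NN * (‖C1‖ + ‖C2‖) →
      ‖w / c0 x y v‖ ≤ 1000 * NN * (‖C1‖ + ‖C2‖) := by
    intro w hw
    have hpos : 0 < ‖c0 x y v‖ := by linarith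
    rw [norm_div, div_le_iff₀ hpos]
    have h0 : 0 ≤ NN * (‖C1‖ + ‖C2‖) := by positivity
    nlinarith
  have bil := bil_est (qP.trans qE) (qQ.trans qE)
    (h.second_a hn hδ (by linarith : ‖v‖ < 7)) (h.second_b hn hδ (by linarith : ‖v‖ < 7))
    (g1 _ bP) (g1 _ bQ) (P2m := 2 * (gg x y / hh x y))
    (Q2m := 2 * (-(2 * exp (nu * y) * x / (x - exp y)))) (G2 := 2000 * NN)
    (by
      rw [norm_mul, norm_div]
      simp only [Complex.norm_ofNat]
      have hpos : 0 < ‖hh x y‖ := by linarith [h.hh_lo]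
      have h6 : ‖gg x y‖ / ‖hh x y‖ ≤ 1000 * NN := by
        rw [div_le_iff₀ hpos]
        nlinarith [h.gg_up, h.hh_lo]
      linarith)
    (by
      rw [norm_mul, norm_neg, norm_div, norm_mul, norm_mul]
      simp only [Complex.norm_ofNat]
      have hpos : 0 < ‖x - exp y‖ := by linarith [h.lo]
      have h6 : 2 * ‖exp (nu * y)‖ * ‖x‖ / ‖x - exp y‖ ≤ 1000 * NN := by
        rw [div_le_iff₀ hpos]
        have h7 : 2 * ‖exp (nu * y)‖ * ‖x‖ ≤ 2 * NN * (17 / 16) := by gcongr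
        nlinarith [h.lo]
      linarith)
  have e : Pm / c0 x y v * (2 * (-(2 * exp (nu * y) * x / (x - exp y)))) -
      Qm / c0 x y v * (2 * (gg x y / hh x y)) =
      (2 * (C1 * exp (-(nu * y)) * exp y - 2 * C2 * exp (nu * y))) *
        ((x - 1) * (x - exp y))⁻¹ := by
    rw [hPm, hQm]
    unfold c0 gg hh
    field_simp
    ring
  rw [e] at bil
  exact bil.trans (final_num hδ0 hδ (add_nonneg hC1 hC2) hη0)

/-! ### the graph -/

/-- where `c` does not vanish on the graph -/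
def Ug (c : ℂ → ℂ → ℂ → ℂ) (φ : ℂ → ℂ → ℂ) : Set (ℂ × ℂ) :=
  {q | q ∈ Dom ∧ c q.1 q.2 (φ q.1 q.2) ≠ 0}

theorem isOpen_Ug {c : ℂ → ℂ → ℂ → ℂ} {φ : ℂ → ℂ → ℂ} (hc : Hol3 c univ) (hφ : Hol2 φ Dom) :
    IsOpen (Ug c φ) := by
  have h1 : ContinuousOn (fun q : ℂ × ℂ => c q.1 q.2 (φ q.1 q.2)) Dom :=
    DifferentiableOn.continuousOn (comp3 hc hφ)
  exact h1.isOpen_inter_preimage isOpen_Dom isOpen_ne

theorem hol_quot {a c : ℂ → ℂ → ℂ → ℂ} {φ : ℂ → ℂ → ℂ} (ha : Hol3 a univ) (hc : Hol3 c univ)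
    (hφ : Hol2 φ Dom) :
    Hol2 (fun x y => D3 (fun x y v => a x y v / c x y v) x y (φ x y)) (Ug c φ) := by
  have hcc : Continuous (fun q : ℂ × ℂ × ℂ => c q.1 q.2.1 q.2.2) :=
    (differentiableOn_univ.1 hc).continuous
  have hW : IsOpen {q : ℂ × ℂ × ℂ | c q.1 q.2.1 q.2.2 ≠ 0} := isOpen_ne.preimage hcc
  have ha' : DifferentiableOn ℂ (fun q : ℂ × ℂ × ℂ => a q.1 q.2.1 q.2.2)
      {q : ℂ × ℂ × ℂ | c q.1 q.2.1 q.2.2 ≠ 0} := DifferentiableOn.mono ha (subset_univ _)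
  have hc' : DifferentiableOn ℂ (fun q : ℂ × ℂ × ℂ => c q.1 q.2.1 q.2.2)
      {q : ℂ × ℂ × ℂ | c q.1 q.2.1 q.2.2 ≠ 0} := DifferentiableOn.mono hc (subset_univ _)
  have hq : Hol3 (fun x y v => a x y v / c x y v) {q : ℂ × ℂ × ℂ | c q.1 q.2.1 q.2.2 ≠ 0} := by
    intro q hq
    have h0 := (ha' q hq).mul ((hc' q hq).inv hq)
    refine h0.congr_of_eventuallyEq (Eventually.of_forall fun r => ?_) ?_
    · exact div_eq_mul_inv _ _
    · exact div_eq_mul_inv _ _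
  have hD := hq.D3 hW
  have h1 : DifferentiableOn ℂ (fun p : ℂ × ℂ => (p.1, p.2, φ p.1 p.2)) (Ug c φ) :=
    differentiableOn_fst.prodMk (differentiableOn_snd.prodMk (hφ.mono fun _ h => h.1))
  exact DifferentiableOn.comp (g := fun p : ℂ × ℂ × ℂ =>
    D3 (fun x y v => a x y v / c x y v) p.1 p.2.1 p.2.2) hD h1 (fun _ h => h.2)

theorem exp_p {p : ℂ} (hp : p = 0 ∨ p = 2 * Real.pi * I) : exp p = 1 := by
  rcases hp with rfl | rfl
  · exact exp_zero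
  · exact exp_two_pi_mul_I

theorem mem_Yr {p y : ℂ} (hp : p = 0 ∨ p = 2 * Real.pi * I) (hy : ‖y - p‖ = 1 / 4) : y ∈ Yr := by
  have hpi := Real.pi_pos
  have h1 := (abs_re_le_norm (y - p)).trans hy.le
  have h2 := (abs_im_le_norm (y - p)).trans hy.le
  rw [abs_le] at h1 h2
  rcases hp with rfl | rfl
  · rw [sub_zero] at h1 h2
    refine ⟨?_, ?_, ?_⟩
    · rw [abs_lt]
      constructor <;> linarith
    · linarith
    · linarith
  · have e1 : (y - 2 * Real.pi * I).re = y.re := by simp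
    have e2 : (y - 2 * Real.pi * I).im = y.im - 2 * Real.pi := by simp
    rw [e1] at h1
    rw [e2] at h2
    refine ⟨?_, ?_, ?_⟩
    · rw [abs_lt]
      constructor <;> linarith
    · linarith
    · linarith

theorem KP_pos : 0 < KP := by
  have := one_le_NN
  have h0 : 0 < NN := by linarith
  unfold KP KE
  positivity

theorem vol_sq : (volume : Measure (ℝ × ℝ)).real (Icc ((0, 0) : ℝ × ℝ) (2 * Real.pi, 2 * Real.pi)) =
    (2 * Real.pi) * (2 * Real.pi) := by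
  have h2p : (0 : ℝ) ≤ 2 * Real.pi := by positivity
  rw [Icc_prod_eq, Measure.volume_eq_prod, measureReal_prod_prod, Real.volume_real_Icc_of_le h2p]
  simp

end P4n

open P4n

/-- the relation at a node, for the proof of the existence of the leaf -/
theorem node_rel : ∃ K > 0, ∃ δ₀ > 0, ∀ p : ℂ, (p = 0 ∨ p = 2 * Real.pi * I) → ∀ δ : ℝ, δ ≤ δ₀ →
    ∀ (a b c : ℂ → ℂ → ℂ → ℂ) (φ : ℂ → ℂ → ℂ), Near a b c δ → Integ a b c → Hol2 φ Dom →
    (∀ x y, (x, y) ∈ Dom → ‖φ x y‖ ≤ 1 / 2) → ∀ (ρ1 ρ2 : ℂ → ℂ) (C1 C2 : ℂ) (η : ℝ),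
    (∀ x y, ‖x‖ < 4 → ‖y - p‖ = 1 / 4 → c x y (φ x y) * d1 φ x y + a x y (φ x y) =
      ρ1 y * exp y * (x - 1) + ρ2 y * (x - exp y)) →
    (∀ y, ‖y - p‖ = 1 / 4 → ‖ρ1 y - C1 * exp (-(nu * y))‖ ≤ η) →
    (∀ y, ‖y - p‖ = 1 / 4 → ‖ρ2 y - C2‖ ≤ η) →
    (∀ x y, ‖x‖ < 4 → ‖y - p‖ = 1 / 4 →
      ‖c x y (φ x y) * d2 φ x y + b x y (φ x y) + ρ1 y * exp y * x * (x - 1)‖ ≤ η) →
    ‖C1 * exp (-(nu * p)) - 2 * C2 * exp (nu * p)‖ ≤ K * (η + δ * (‖C1‖ + ‖C2‖)) := by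
  refine ⟨KP, KP_pos, 1 / 400, by norm_num, ?_⟩
  intro p hp δ hδ a b c φ hn hI hφ hs ρ1 ρ2 C1 C2 η h1 h2 h3 h4
  have hep := exp_p hp
  have hpt : ∀ ψ θ, Pt p (Xc θ) (Yc p ψ) := fun ψ θ =>
    ⟨hep, norm_Xc θ, norm_Yc p ψ, mem_Yr hp (norm_Yc p ψ)⟩
  have hx4 : ∀ ψ θ, ‖Xc θ‖ < 4 := fun ψ θ => by linarith [(hpt ψ θ).nx.2]
  have hdom : ∀ ψ θ, (Xc θ, Yc p ψ) ∈ Dom := fun ψ θ => ⟨hx4 ψ θ, (hpt ψ θ).yr⟩
  have hcn : ∀ ψ θ, c (Xc θ) (Yc p ψ) (φ (Xc θ) (Yc p ψ)) ≠ 0 := fun ψ θ =>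
    (hpt ψ θ).c_ne hn hδ (by linarith [hs _ _ (hdom ψ θ)])
  have hin : ∀ ψ θ, (Xc θ, Yc p ψ) ∈ Ug c φ := fun ψ θ => ⟨hdom ψ θ, hcn ψ θ⟩
  have hUo := isOpen_Ug hn.hc hφ
  have hP := hol_quot hn.ha hn.hc hφ
  have hQ := hol_quot hn.hb hn.hc hφ
  have pX : Xc (2 * Real.pi) = Xc 0 := by
    simp [Xc, circleMap]
  have pY : Yc p (2 * Real.pi) = Yc p 0 := by
    simp [Yc, circleMap]
  have z := torus_zero hUo hP hQ diff_Xc (diff_Yc p) diff_Xc' (diff_Yc' p) pX pY hin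
  have zi := torus_int hUo hP hQ diff_Xc (diff_Yc p) diff_Xc' (diff_Yc' p) hin
  set g : ℂ → ℂ := fun y => 2 * (C1 * exp (-(nu * y)) * exp y - 2 * C2 * exp (nu * y)) with hg
  have hgd : Differentiable ℂ g := by
    rw [hg]
    fun_prop
  have m := model_int hep hgd
  have mi := model_integrable hep hgd
  have hsub := integral_sub mi zi
  rw [m, z, sub_zero] at hsub
  have hbound := norm_setIntegral_le_of_norm_le_const (μ := (volume : Measure (ℝ × ℝ)))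
    (s := Icc ((0, 0) : ℝ × ℝ) (2 * Real.pi, 2 * Real.pi))
    (C := KP * (η + δ * (‖C1‖ + ‖C2‖)) * (1 / 16) * (1 / 4)) (isCompact_Icc.measure_lt_top)
    (f := fun q : ℝ × ℝ => g (Yc p q.1) * ((Xc q.2 - 1) * (Xc q.2 - exp (Yc p q.1)))⁻¹ *
      deriv Xc q.2 * deriv (Yc p) q.1 -
      (d1 (fun x y => D3 (fun x y v => b x y v / c x y v) x y (φ x y)) (Xc q.2) (Yc p q.1) -
        d2 (fun x y => D3 (fun x y v => a x y v / c x y v) x y (φ x y)) (Xc q.2) (Yc p q.1)) *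
          deriv Xc q.2 * deriv (Yc p) q.1)
    (by
      rintro ⟨ψ, θ⟩ -
      have hid := id_ii hn.ha hn.hb hn.hc hI isOpen_Dom hφ (hdom ψ θ) (hcn ψ θ)
      simp only
      rw [hid, ← sub_mul, ← sub_mul, norm_mul, norm_mul]
      have e1 : ‖deriv Xc θ‖ = 1 / 16 := by
        rw [deriv_Xc, norm_mul, norm_circleMap_zero, norm_I, mul_one]
        norm_num
      have e2 : ‖deriv (Yc p) ψ‖ = 1 / 4 := by
        rw [deriv_Yc, norm_mul, norm_circleMap_zero, norm_I, mul_one]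
        norm_num
      rw [e1, e2]
      refine mul_le_mul_of_nonneg_right (mul_le_mul_of_nonneg_right ?_ (by norm_num))
        (by norm_num)
      rw [norm_sub_rev]
      exact (hpt ψ θ).est hn hδ (hs _ _ (hdom ψ θ)) (h1 _ _ (hx4 ψ θ) (norm_Yc p ψ))
        (h2 _ (norm_Yc p ψ)) (h3 _ (norm_Yc p ψ)) (h4 _ _ (hx4 ψ θ) (norm_Yc p ψ)))
  rw [hsub, vol_sq] at hbound
  have e3 : ‖-((2 * Real.pi * I) ^ 2 * g p)‖ =
      4 * Real.pi ^ 2 * (2 * ‖C1 * exp (-(nu * p)) - 2 * C2 * exp (nu * p)‖) := by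
    rw [norm_neg, norm_mul, norm_pow, norm_mul, norm_mul, norm_I, mul_one]
    simp only [hg, hep, mul_one, norm_mul, Complex.norm_ofNat, Complex.norm_real,
      Real.norm_eq_abs, abs_of_pos Real.pi_pos]
    ring
  rw [e3] at hbound
  have hpi : 0 < Real.pi ^ 2 := by positivity
  have hT : 0 ≤ KP * (η + δ * (‖C1‖ + ‖C2‖)) := by
    have hη : 0 ≤ η := by
      have := h3 (Yc p 0) (norm_Yc p 0)
      exact (norm_nonneg _).trans this
    have hδ0 : 0 ≤ δ := (norm_nonneg _).trans (hn.na 0 0 0 (by simp) (by simp) (by simp))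
    exact mul_nonneg KP_pos.le
      (add_nonneg hη (mul_nonneg hδ0 (add_nonneg (norm_nonneg _) (norm_nonneg _))))
  have e4 : Real.pi ^ 2 * (8 * ‖C1 * exp (-(nu * p)) - 2 * C2 * exp (nu * p)‖) ≤
      Real.pi ^ 2 * (KP * (η + δ * (‖C1‖ + ‖C2‖)) * (1 / 16)) := by
    linarith
  have e5 := le_of_mul_le_mul_left e4 hpi
  linarith

end Pool.Agent.H583_Fol
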