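import Pool.Agent.H583_Fol.Defs
import Pool.Agent.H583_Fol.Basic
import Pool.Agent.H583_Fol.St.T0
import Pool.Agent.H583_Fol.St.T3

set_option autoImplicit false

namespace Pool.Agent.H583_Fol

open Complex Set Metric Filter Topology

namespace P5

/-! ### Real calculus -/

theorem dui {f f' : ℝ → ℝ → ℂ} (hf : Continuous (Function.uncurry f))
    (hf' : Continuous (Function.uncurry f')) (h : ∀ x t, HasDerivAt (fun x => f x t) (f' x t) x)
    (a b x₀ : ℝ) :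
    HasDerivAt (fun x => ∫ t in a..b, f x t) (∫ t in a..b, f' x₀ t) x₀ := by
  have hK : IsCompact (closedBall x₀ 1 ×ˢ uIcc a b) := (isCompact_closedBall x₀ 1).prod isCompact_uIcc
  obtain ⟨C, hC⟩ := hK.exists_bound_of_continuousOn hf'.continuousOn
  have h1 : ∀ x, Continuous (f x) := fun x => hf.comp (continuous_const.prodMk continuous_id)
  have h2 : ∀ x, Continuous (f' x) := fun x => hf'.comp (continuous_const.prodMk continuous_id)
  refine (intervalIntegral.hasDerivAt_integral_of_dominated_loc_of_deriv_le (F := f) (F' := f')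
    (bound := fun _ => C) (closedBall_mem_nhds x₀ one_pos) ?_ ?_ ?_ ?_ ?_ ?_).2
  · exact Eventually.of_forall fun x => (h1 x).aestronglyMeasurable
  · exact (h1 x₀).intervalIntegrable _ _
  · exact (h2 x₀).aestronglyMeasurable
  · refine Eventually.of_forall fun t ht x hx => ?_
    exact hC (x, t) ⟨hx, uIoc_subset_uIcc ht⟩
  · exact intervalIntegrable_const
  · exact Eventually.of_forall fun t _ x _ => h x t

/-- continuity of a holomorphic function along two curves -/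
theorem cont_comp {F : ℂ → ℂ → ℂ} {U : Set (ℂ × ℂ)} (hF : Hol2 F U) {X Y : ℝ → ℂ}
    (hX : Continuous X) (hY : Continuous Y) (hin : ∀ θ ψ, (X θ, Y ψ) ∈ U) :
    Continuous (fun p : ℝ × ℝ => F (X p.1) (Y p.2)) := by
  have h1 : Continuous fun p : ℝ × ℝ => ((X p.1, Y p.2) : ℂ × ℂ) := by fun_prop
  exact hF.continuousOn.comp_continuous h1 fun p => hin _ _

theorem hasDerivAt_fst {F : ℂ → ℂ → ℂ} {U : Set (ℂ × ℂ)} (hU : IsOpen U) (hF : Hol2 F U) {x y : ℂ}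
    (h : (x, y) ∈ U) : HasDerivAt (fun t => F t y) (d1 F x y) x := by
  have h1 : DifferentiableAt ℂ (fun p : ℂ × ℂ => F p.1 p.2) (x, y) := hF.differentiableAt (hU.mem_nhds h)
  have h2 : DifferentiableAt ℂ (fun t : ℂ => ((t, y) : ℂ × ℂ)) x := by fun_prop
  have h3 : DifferentiableAt ℂ ((fun p : ℂ × ℂ => F p.1 p.2) ∘ fun t : ℂ => ((t, y) : ℂ × ℂ)) x :=
    h1.comp x h2
  exact h3.hasDerivAt

theorem hasDerivAt_snd {F : ℂ → ℂ → ℂ} {U : Set (ℂ × ℂ)} (hU : IsOpen U) (hF : Hol2 F U) {x y : ℂ}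
    (h : (x, y) ∈ U) : HasDerivAt (fun t => F x t) (d2 F x y) y := by
  have h1 : DifferentiableAt ℂ (fun p : ℂ × ℂ => F p.1 p.2) (x, y) := hF.differentiableAt (hU.mem_nhds h)
  have h2 : DifferentiableAt ℂ (fun t : ℂ => ((x, t) : ℂ × ℂ)) y := by fun_prop
  have h3 : DifferentiableAt ℂ ((fun p : ℂ × ℂ => F p.1 p.2) ∘ fun t : ℂ => ((x, t) : ℂ × ℂ)) y :=
    h1.comp y h2
  exact h3.hasDerivAt

/-- the torus relation -/
theorem torus {P Q p q : ℂ → ℂ → ℂ} {U : Set (ℂ × ℂ)} (hU : IsOpen U) (hP : Hol2 P U) (hQ : Hol2 Q U)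
    (hp : Hol2 p U) (hq : Hol2 q U) (hcl : ∀ x y, (x, y) ∈ U → d1 Q x y = d2 P x y)
    (hcl2 : ∀ x y, (x, y) ∈ U → d1 q x y - d2 p x y = P x y * q x y - Q x y * p x y)
    {X Y X' Y' : ℝ → ℂ} (hX : ∀ θ, HasDerivAt X (X' θ) θ) (hY : ∀ θ, HasDerivAt Y (Y' θ) θ)
    (cX' : Continuous X') (cY' : Continuous Y') (pX : X (2 * Real.pi) = X 0)
    (pY : Y (2 * Real.pi) = Y 0) (hin : ∀ θ ψ, (X θ, Y ψ) ∈ U) :
    (exp (-∫ t in (0 : ℝ)..(2 * Real.pi), Q (X 0) (Y t) * Y' t) - 1) *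
        ∫ θ in (0 : ℝ)..(2 * Real.pi), exp (-∫ t in (0 : ℝ)..θ, P (X t) (Y 0) * X' t) *
          (p (X θ) (Y 0) * X' θ) =
      (exp (-∫ t in (0 : ℝ)..(2 * Real.pi), P (X t) (Y 0) * X' t) - 1) *
        ∫ ψ in (0 : ℝ)..(2 * Real.pi), exp (-∫ t in (0 : ℝ)..ψ, Q (X 0) (Y t) * Y' t) *
          (q (X 0) (Y ψ) * Y' ψ) := by
  have cX : Continuous X := continuous_iff_continuousAt.2 fun θ => (hX θ).continuousAt
  have cY : Continuous Y := continuous_iff_continuousAt.2 fun θ => (hY θ).continuousAt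
  have hd1Q : Hol2 (d1 Q) U := hQ.d1 hU
  have hd2P : Hol2 (d2 P) U := hP.d2 hU
  have hd2p : Hol2 (d2 p) U := hp.d2 hU
  have hd1q : Hol2 (d1 q) U := hq.d1 hU
  have cP := cont_comp hP cX cY hin
  have cQ := cont_comp hQ cX cY hin
  have cp := cont_comp hp cX cY hin
  have cq := cont_comp hq cX cY hin
  have cd1Q := cont_comp hd1Q cX cY hin
  have cd2p := cont_comp hd2p cX cY hin
  -- partial derivatives along the curves
  have dθ : ∀ {F : ℂ → ℂ → ℂ}, Hol2 F U → ∀ θ ψ,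
      HasDerivAt (fun θ => F (X θ) (Y ψ)) (d1 F (X θ) (Y ψ) * X' θ) θ := by
    intro F hF θ ψ
    exact (hasDerivAt_fst hU hF (hin θ ψ)).comp θ (hX θ)
  have dψ : ∀ {F : ℂ → ℂ → ℂ}, Hol2 F U → ∀ θ ψ,
      HasDerivAt (fun ψ => F (X θ) (Y ψ)) (d2 F (X θ) (Y ψ) * Y' ψ) ψ := by
    intro F hF θ ψ
    exact (hasDerivAt_snd hU hF (hin θ ψ)).comp ψ (hY ψ)
  -- the primitive
  obtain ⟨W, hW⟩ : ∃ W : ℝ → ℝ → ℂ, W = fun θ ψ => (∫ t in (0 : ℝ)..θ, P (X t) (Y 0) * X' t) +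
      ∫ t in (0 : ℝ)..ψ, Q (X θ) (Y t) * Y' t := ⟨_, rfl⟩
  have hWdef : ∀ θ ψ, W θ ψ = (∫ t in (0 : ℝ)..θ, P (X t) (Y 0) * X' t) +
      ∫ t in (0 : ℝ)..ψ, Q (X θ) (Y t) * Y' t := fun θ ψ => by rw [hW]
  have cP0 : ∀ y, Continuous fun t => P (X t) (Y y) * X' t := fun y =>
    (cP.comp (continuous_id.prodMk continuous_const)).mul cX'
  have cQ0 : ∀ x, Continuous fun t => Q (X x) (Y t) * Y' t := fun x =>
    (cQ.comp (continuous_const.prodMk continuous_id)).mul cY'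
  have Wψ : ∀ θ ψ, HasDerivAt (fun ψ => W θ ψ) (Q (X θ) (Y ψ) * Y' ψ) ψ := by
    intro θ ψ
    rw [hW]
    have h1 := intervalIntegral.integral_hasDerivAt_right ((cQ0 θ).intervalIntegrable 0 ψ)
      ((cQ0 θ).stronglyMeasurableAtFilter _ _) (cQ0 θ).continuousAt
    exact h1.const_add _
  have Wθ : ∀ θ ψ, HasDerivAt (fun θ => W θ ψ) (P (X θ) (Y ψ) * X' θ) θ := by
    intro θ ψ
    rw [hW]
    have h1 := intervalIntegral.integral_hasDerivAt_right ((cP0 0).intervalIntegrable 0 θ)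
      ((cP0 0).stronglyMeasurableAtFilter _ _) (cP0 0).continuousAt
    have h2 := dui (f := fun θ t => Q (X θ) (Y t) * Y' t)
      (f' := fun θ t => d1 Q (X θ) (Y t) * X' θ * Y' t)
      (cQ.mul (cY'.comp continuous_snd)) ((cd1Q.mul (cX'.comp continuous_fst)).mul
        (cY'.comp continuous_snd)) (fun θ t => (dθ hQ θ t).mul_const _) 0 ψ θ
    have h3 : ∫ t in (0 : ℝ)..ψ, d1 Q (X θ) (Y t) * X' θ * Y' t =
        P (X θ) (Y ψ) * X' θ - P (X θ) (Y 0) * X' θ := by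
      have h4 : ∀ t, HasDerivAt (fun t => P (X θ) (Y t) * X' θ) (d1 Q (X θ) (Y t) * X' θ * Y' t) t := by
        intro t
        have h5 := (dψ hP θ t).mul_const (X' θ)
        rw [← hcl _ _ (hin θ t)] at h5
        have h6 : d1 Q (X θ) (Y t) * Y' t * X' θ = d1 Q (X θ) (Y t) * X' θ * Y' t := by ring
        rwa [h6] at h5
      refine intervalIntegral.integral_eq_sub_of_hasDerivAt (fun t _ => h4 t) ?_
      refine Continuous.intervalIntegrable ?_ _ _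
      exact ((cd1Q.comp (continuous_const.prodMk continuous_id)).mul continuous_const).mul cY'
    have h5 := h1.add h2
    rw [h3] at h5
    have h6 : P (X θ) (Y 0) * X' θ + (P (X θ) (Y ψ) * X' θ - P (X θ) (Y 0) * X' θ) =
        P (X θ) (Y ψ) * X' θ := by ring
    rw [h6] at h5
    exact h5
  have cW : Continuous (fun r : ℝ × ℝ => W r.1 r.2) := by
    rw [hW]
    refine Continuous.add ?_ ?_
    · exact (intervalIntegral.continuous_primitive (fun a b => (cP0 0).intervalIntegrable a b)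
        0).comp continuous_fst
    · refine intervalIntegral.continuous_parametric_intervalIntegral_of_continuous
        (f := fun (r : ℝ × ℝ) t => Q (X r.1) (Y t) * Y' t) ?_ continuous_snd
      have h1 : Continuous fun w : (ℝ × ℝ) × ℝ => ((w.1.1, w.2) : ℝ × ℝ) := by fun_prop
      exact (cQ.comp h1).mul (cY'.comp continuous_snd)
  -- periodicity
  have W2π : ∀ ψ, W (2 * Real.pi) ψ = (∫ t in (0 : ℝ)..(2 * Real.pi), P (X t) (Y 0) * X' t) + W 0 ψ := by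
    intro ψ
    rw [hWdef, hWdef, pX, intervalIntegral.integral_same, zero_add]
  have Wψ2π : ∀ θ, W θ (2 * Real.pi) = (∫ t in (0 : ℝ)..(2 * Real.pi), Q (X 0) (Y t) * Y' t) + W θ 0 := by
    have h1 : ∀ θ, HasDerivAt (fun θ => W θ (2 * Real.pi) - W θ 0) 0 θ := by
      intro θ
      have h2 := (Wθ θ (2 * Real.pi)).sub (Wθ θ 0)
      rw [pY, sub_self] at h2
      exact h2
    have h3 : ∀ θ, W θ (2 * Real.pi) - W θ 0 = W 0 (2 * Real.pi) - W 0 0 := by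
      intro θ
      have h4 : Differentiable ℝ (fun θ => W θ (2 * Real.pi) - W θ 0) := fun θ =>
        (h1 θ).differentiableAt
      exact is_const_of_deriv_eq_zero h4 (fun θ => (h1 θ).deriv) θ 0
    intro θ
    have h5 := h3 θ
    rw [hWdef 0, hWdef 0 0] at h5
    simp only [intervalIntegral.integral_same, zero_add, sub_zero] at h5
    rw [← h5]
    ring
  -- the function G
  have hG : ∀ ψ, HasDerivAt (fun ψ => ∫ θ in (0 : ℝ)..(2 * Real.pi), exp (-W θ ψ) *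
      (p (X θ) (Y ψ) * X' θ)) ((exp (-∫ t in (0 : ℝ)..(2 * Real.pi), P (X t) (Y 0) * X' t) - 1) *
        (exp (-W 0 ψ) * (q (X 0) (Y ψ) * Y' ψ))) ψ := by
    intro ψ
    have h1 := dui (f := fun ψ θ => exp (-W θ ψ) * (p (X θ) (Y ψ) * X' θ))
      (f' := fun ψ θ => exp (-W θ ψ) * -(Q (X θ) (Y ψ) * Y' ψ) * (p (X θ) (Y ψ) * X' θ) +
        exp (-W θ ψ) * (d2 p (X θ) (Y ψ) * Y' ψ * X' θ)) ?_ ?_ ?_ 0 (2 * Real.pi) ψ
    · have h2 : ∫ θ in (0 : ℝ)..(2 * Real.pi), (exp (-W θ ψ) * -(Q (X θ) (Y ψ) * Y' ψ) *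
          (p (X θ) (Y ψ) * X' θ) + exp (-W θ ψ) * (d2 p (X θ) (Y ψ) * Y' ψ * X' θ)) =
          exp (-W (2 * Real.pi) ψ) * (q (X (2 * Real.pi)) (Y ψ) * Y' ψ) -
            exp (-W 0 ψ) * (q (X 0) (Y ψ) * Y' ψ) := by
        have h3 : ∀ θ, HasDerivAt (fun θ => exp (-W θ ψ) * (q (X θ) (Y ψ) * Y' ψ))
            (exp (-W θ ψ) * -(Q (X θ) (Y ψ) * Y' ψ) * (p (X θ) (Y ψ) * X' θ) +
              exp (-W θ ψ) * (d2 p (X θ) (Y ψ) * Y' ψ * X' θ)) θ := by
          intro θ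
          have h4 := ((Wθ θ ψ).neg.cexp).mul ((dθ hq θ ψ).mul_const (Y' ψ))
          have h5 := hcl2 _ _ (hin θ ψ)
          have h6 : exp (-W θ ψ) * -(P (X θ) (Y ψ) * X' θ) * (q (X θ) (Y ψ) * Y' ψ) +
              exp (-W θ ψ) * (d1 q (X θ) (Y ψ) * X' θ * Y' ψ) =
              exp (-W θ ψ) * -(Q (X θ) (Y ψ) * Y' ψ) * (p (X θ) (Y ψ) * X' θ) +
              exp (-W θ ψ) * (d2 p (X θ) (Y ψ) * Y' ψ * X' θ) := by
            have h7 : d1 q (X θ) (Y ψ) = d2 p (X θ) (Y ψ) + (P (X θ) (Y ψ) * q (X θ) (Y ψ) -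
              Q (X θ) (Y ψ) * p (X θ) (Y ψ)) := by rw [← h5]; ring
            rw [h7]
            ring
          rw [← h6]
          exact h4
        refine intervalIntegral.integral_eq_sub_of_hasDerivAt (fun θ _ => h3 θ) ?_
        refine Continuous.intervalIntegrable ?_ _ _
        have g1 : Continuous fun θ => exp (-W θ ψ) :=
          (cW.comp (continuous_id.prodMk continuous_const)).neg.cexp
        have g2 : Continuous fun θ => Q (X θ) (Y ψ) := cQ.comp (continuous_id.prodMk continuous_const)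
        have g3 : Continuous fun θ => p (X θ) (Y ψ) := cp.comp (continuous_id.prodMk continuous_const)
        have g4 : Continuous fun θ => d2 p (X θ) (Y ψ) :=
          cd2p.comp (continuous_id.prodMk continuous_const)
        exact ((g1.mul (g2.mul continuous_const).neg).mul (g3.mul cX')).add
          (g1.mul ((g4.mul continuous_const).mul cX'))
      rw [h2, W2π, pX] at h1
      have h8 : exp (-((∫ t in (0 : ℝ)..(2 * Real.pi), P (X t) (Y 0) * X' t) + W 0 ψ)) *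
          (q (X 0) (Y ψ) * Y' ψ) - exp (-W 0 ψ) * (q (X 0) (Y ψ) * Y' ψ) =
          (exp (-∫ t in (0 : ℝ)..(2 * Real.pi), P (X t) (Y 0) * X' t) - 1) *
        (exp (-W 0 ψ) * (q (X 0) (Y ψ) * Y' ψ)) := by
        rw [neg_add, Complex.exp_add]
        ring
      rw [h8] at h1
      exact h1
    · have g0 : Continuous fun w : ℝ × ℝ => ((w.2, w.1) : ℝ × ℝ) := by fun_prop
      exact ((cW.comp g0).neg.cexp).mul ((cp.comp g0).mul (cX'.comp continuous_snd))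
    · have g0 : Continuous fun w : ℝ × ℝ => ((w.2, w.1) : ℝ × ℝ) := by fun_prop
      exact ((((cW.comp g0).neg.cexp).mul ((cQ.comp g0).mul (cY'.comp continuous_fst)).neg).mul
        ((cp.comp g0).mul (cX'.comp continuous_snd))).add (((cW.comp g0).neg.cexp).mul
        (((cd2p.comp g0).mul (cY'.comp continuous_fst)).mul (cX'.comp continuous_snd)))
    · intro ψ θ
      exact ((Wψ θ ψ).neg.cexp).mul ((dψ hp θ ψ).mul_const (X' θ))
  have h9 := intervalIntegral.integral_eq_sub_of_hasDerivAt (a := 0) (b := 2 * Real.pi)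
    (fun ψ _ => hG ψ) (by
      refine Continuous.intervalIntegrable ?_ _ _
      have g1 : Continuous fun ψ => exp (-W 0 ψ) :=
        (cW.comp (continuous_const.prodMk continuous_id)).neg.cexp
      have g2 : Continuous fun ψ => q (X 0) (Y ψ) := cq.comp (continuous_const.prodMk continuous_id)
      exact continuous_const.mul (g1.mul (g2.mul cY')))
  rw [intervalIntegral.integral_const_mul] at h9
  have h10 : ∀ ψ, W 0 ψ = ∫ t in (0 : ℝ)..ψ, Q (X 0) (Y t) * Y' t := by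
    intro ψ
    rw [hWdef, intervalIntegral.integral_same, zero_add]
  have h11 : ∀ θ, W θ 0 = ∫ t in (0 : ℝ)..θ, P (X t) (Y 0) * X' t := by
    intro θ
    rw [hWdef, intervalIntegral.integral_same, add_zero]
  simp only [h10] at h9
  rw [h9]
  have h12 : ∫ θ in (0 : ℝ)..(2 * Real.pi), exp (-W θ (2 * Real.pi)) *
      (p (X θ) (Y (2 * Real.pi)) * X' θ) =
      exp (-∫ t in (0 : ℝ)..(2 * Real.pi), Q (X 0) (Y t) * Y' t) *
      ∫ θ in (0 : ℝ)..(2 * Real.pi), exp (-W θ 0) * (p (X θ) (Y 0) * X' θ) := by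
    rw [← intervalIntegral.integral_const_mul]
    refine intervalIntegral.integral_congr fun θ _ => ?_
    rw [Wψ2π, pY, neg_add, Complex.exp_add]
    ring
  rw [h12]
  simp only [h11]
  ring

end P5

namespace P5

/-! ### The forms -/

/-- where the form is defined, in the variables `x`, `y` -/
def Ux (c : ℂ → ℂ → ℂ → ℂ) (φ : ℂ → ℂ → ℂ) : Set (ℂ × ℂ) := {p | p ∈ Dom ∧ jC c φ p.1 p.2 ≠ 0}

/-- where the form is defined, in the variables `z`, `y` -/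
def Uz (c : ℂ → ℂ → ℂ → ℂ) (φ : ℂ → ℂ → ℂ) : Set (ℂ × ℂ) := {p | (exp p.1, p.2) ∈ Ux c φ}

/-- coefficients of `β₁` -/
noncomputable def PX (a c : ℂ → ℂ → ℂ → ℂ) (φ : ℂ → ℂ → ℂ) (x y : ℂ) : ℂ := jN1 a c φ x y / jC c φ x y
noncomputable def QX (b c : ℂ → ℂ → ℂ → ℂ) (φ : ℂ → ℂ → ℂ) (x y : ℂ) : ℂ := jN2 b c φ x y / jC c φ x y
noncomputable def PZ (a c : ℂ → ℂ → ℂ → ℂ) (φ : ℂ → ℂ → ℂ) (z y : ℂ) : ℂ := exp z * PX a c φ (exp z) y
noncomputable def QZ (b c : ℂ → ℂ → ℂ → ℂ) (φ : ℂ → ℂ → ℂ) (z y : ℂ) : ℂ := QX b c φ (exp z) y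
noncomputable def pZ (a c : ℂ → ℂ → ℂ → ℂ) (φ : ℂ → ℂ → ℂ) (z y : ℂ) : ℂ := exp z * jP2 a c φ (exp z) y
noncomputable def qZ (b c : ℂ → ℂ → ℂ → ℂ) (φ : ℂ → ℂ → ℂ) (z y : ℂ) : ℂ := jQ2 b c φ (exp z) y

theorem mono2 {F : ℂ → ℂ → ℂ} {U V : Set (ℂ × ℂ)} (h : Hol2 F U) (hV : V ⊆ U) : Hol2 F V :=
  DifferentiableOn.mono h hV

theorem h_add {f g : ℂ → ℂ → ℂ} {U : Set (ℂ × ℂ)} (hf : Hol2 f U) (hg : Hol2 g U) :
    Hol2 (fun x y => f x y + g x y) U := fun p hp => (hf p hp).add (hg p hp)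

theorem h_sub {f g : ℂ → ℂ → ℂ} {U : Set (ℂ × ℂ)} (hf : Hol2 f U) (hg : Hol2 g U) :
    Hol2 (fun x y => f x y - g x y) U := fun p hp => (hf p hp).sub (hg p hp)

theorem h_mul {f g : ℂ → ℂ → ℂ} {U : Set (ℂ × ℂ)} (hf : Hol2 f U) (hg : Hol2 g U) :
    Hol2 (fun x y => f x y * g x y) U := fun p hp => (hf p hp).mul (hg p hp)

theorem h_div {f g : ℂ → ℂ → ℂ} {U : Set (ℂ × ℂ)} (hf : Hol2 f U) (hg : Hol2 g U)
    (hne : ∀ p ∈ U, g p.1 p.2 ≠ 0) :
    Hol2 (fun x y => f x y / g x y) U := by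
  simp only [div_eq_mul_inv]
  exact fun p hp => (hf p hp).mul ((hg p hp).inv (hne p hp))

theorem h_const (k : ℂ) (U : Set (ℂ × ℂ)) : Hol2 (fun _ _ => k) U := differentiableOn_const k

theorem Ux_sub (c : ℂ → ℂ → ℂ → ℂ) (φ : ℂ → ℂ → ℂ) : Ux c φ ⊆ Dom := fun _ h => h.1

section
variable {a b c : ℂ → ℂ → ℂ → ℂ} {φ : ℂ → ℂ → ℂ}

theorem hol_jC (hc : Hol3 c univ) (hφ : Hol2 φ Dom) : Hol2 (jC c φ) Dom := comp3 hc hφ

theorem hol_jCv (hc : Hol3 c univ) (hφ : Hol2 φ Dom) : Hol2 (jCv c φ) Dom :=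
  comp3 (hc.D3 isOpen_univ) hφ

theorem hol_jN1 (ha : Hol3 a univ) (hc : Hol3 c univ) (hφ : Hol2 φ Dom) : Hol2 (jN1 a c φ) Dom :=
  h_add (comp3 (ha.D3 isOpen_univ) hφ) (h_mul (comp3 (hc.D3 isOpen_univ) hφ) (hφ.d1 isOpen_Dom))

theorem hol_jN2 (hb : Hol3 b univ) (hc : Hol3 c univ) (hφ : Hol2 φ Dom) : Hol2 (jN2 b c φ) Dom :=
  h_add (comp3 (hb.D3 isOpen_univ) hφ) (h_mul (comp3 (hc.D3 isOpen_univ) hφ) (hφ.d2 isOpen_Dom))

theorem hol_jM1 (ha : Hol3 a univ) (hc : Hol3 c univ) (hφ : Hol2 φ Dom) : Hol2 (jM1 a c φ) Dom :=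
  h_div (h_add (comp3 ((ha.D3 isOpen_univ).D3 isOpen_univ) hφ)
    (h_mul (comp3 ((hc.D3 isOpen_univ).D3 isOpen_univ) hφ) (hφ.d1 isOpen_Dom))) (h_const 2 _)
    (fun _ _ => two_ne_zero)

theorem hol_jM2 (hb : Hol3 b univ) (hc : Hol3 c univ) (hφ : Hol2 φ Dom) : Hol2 (jM2 b c φ) Dom :=
  h_div (h_add (comp3 ((hb.D3 isOpen_univ).D3 isOpen_univ) hφ)
    (h_mul (comp3 ((hc.D3 isOpen_univ).D3 isOpen_univ) hφ) (hφ.d2 isOpen_Dom))) (h_const 2 _)
    (fun _ _ => two_ne_zero)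

theorem isOpen_Ux (hc : Hol3 c univ) (hφ : Hol2 φ Dom) : IsOpen (Ux c φ) := by
  have h1 : ContinuousOn (fun p : ℂ × ℂ => jC c φ p.1 p.2) Dom := (hol_jC hc hφ).continuousOn
  exact h1.isOpen_inter_preimage isOpen_Dom isOpen_compl_singleton

theorem hol_PX (ha : Hol3 a univ) (hc : Hol3 c univ) (hφ : Hol2 φ Dom) :
    Hol2 (PX a c φ) (Ux c φ) :=
  h_div (mono2 (hol_jN1 ha hc hφ) (Ux_sub c φ)) (mono2 (hol_jC hc hφ) (Ux_sub c φ))
    (fun _ h => h.2)

theorem hol_QX (hb : Hol3 b univ) (hc : Hol3 c univ) (hφ : Hol2 φ Dom) :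
    Hol2 (QX b c φ) (Ux c φ) :=
  h_div (mono2 (hol_jN2 hb hc hφ) (Ux_sub c φ)) (mono2 (hol_jC hc hφ) (Ux_sub c φ))
    (fun _ h => h.2)

theorem hol_jP2 (ha : Hol3 a univ) (hc : Hol3 c univ) (hφ : Hol2 φ Dom) :
    Hol2 (jP2 a c φ) (Ux c φ) :=
  h_div (h_sub (mono2 (hol_jM1 ha hc hφ) (Ux_sub c φ))
    (h_mul (mono2 (hol_jCv hc hφ) (Ux_sub c φ)) (hol_PX ha hc hφ)))
    (mono2 (hol_jC hc hφ) (Ux_sub c φ)) (fun _ h => h.2)

theorem hol_jQ2 (hb : Hol3 b univ) (hc : Hol3 c univ) (hφ : Hol2 φ Dom) :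
    Hol2 (jQ2 b c φ) (Ux c φ) :=
  h_div (h_sub (mono2 (hol_jM2 hb hc hφ) (Ux_sub c φ))
    (h_mul (mono2 (hol_jCv hc hφ) (Ux_sub c φ)) (hol_QX hb hc hφ)))
    (mono2 (hol_jC hc hφ) (Ux_sub c φ)) (fun _ h => h.2)

theorem closedX (ha : Hol3 a univ) (hb : Hol3 b univ) (hc : Hol3 c univ) (hI : Integ a b c)
    (hφ : Hol2 φ Dom)
    (ex : ∀ x y, (x, y) ∈ Dom → c x y (φ x y) * d1 φ x y + a x y (φ x y) = 0)
    (ey : ∀ x y, (x, y) ∈ Dom → c x y (φ x y) * d2 φ x y + b x y (φ x y) = 0) {x y : ℂ}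
    (h : (x, y) ∈ Ux c φ) : d1 (QX b c φ) x y = d2 (PX a c φ) x y := by
  have hne : jC c φ x y ≠ 0 := h.2
  have h1 := closed1 ha hb hc hI isOpen_Dom hφ ex ey h.1
  have q1 := hasDerivAt_fst isOpen_Dom (hol_jN2 hb hc hφ) h.1
  have q2 := hasDerivAt_fst isOpen_Dom (hol_jC hc hφ) h.1
  have p1 := hasDerivAt_snd isOpen_Dom (hol_jN1 ha hc hφ) h.1
  have p2 := hasDerivAt_snd isOpen_Dom (hol_jC hc hφ) h.1
  have e1 : d1 (QX b c φ) x y = (d1 (jN2 b c φ) x y * jC c φ x y - jN2 b c φ x y *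
      d1 (jC c φ) x y) / jC c φ x y ^ 2 := (q1.div q2 hne).deriv
  have e2 : d2 (PX a c φ) x y = (d2 (jN1 a c φ) x y * jC c φ x y - jN1 a c φ x y *
      d2 (jC c φ) x y) / jC c φ x y ^ 2 := (p1.div p2 hne).deriv
  rw [e1, e2]
  congr 1
  linear_combination h1

end

/-! ### Change of the variable -/

theorem hol_exp {F : ℂ → ℂ → ℂ} {U : Set (ℂ × ℂ)} (hF : Hol2 F U) :
    Hol2 (fun z y => F (exp z) y) {p : ℂ × ℂ | (exp p.1, p.2) ∈ U} := by
  have h1 : Differentiable ℂ (fun p : ℂ × ℂ => ((exp p.1, p.2) : ℂ × ℂ)) := by fun_prop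
  exact DifferentiableOn.comp (g := fun p : ℂ × ℂ => F p.1 p.2) hF h1.differentiableOn
    (fun p hp => hp)

theorem d1_exp {F : ℂ → ℂ → ℂ} {U : Set (ℂ × ℂ)} (hU : IsOpen U) (hF : Hol2 F U) {z y : ℂ}
    (h : (exp z, y) ∈ U) : HasDerivAt (fun t => F (exp t) y) (d1 F (exp z) y * exp z) z :=
  (hasDerivAt_fst hU hF h).comp z (Complex.hasDerivAt_exp z)

section
variable {a b c : ℂ → ℂ → ℂ → ℂ} {φ : ℂ → ℂ → ℂ}

theorem isOpen_Uz (hc : Hol3 c univ) (hφ : Hol2 φ Dom) : IsOpen (Uz c φ) := by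
  have h1 : Continuous (fun p : ℂ × ℂ => ((exp p.1, p.2) : ℂ × ℂ)) := by fun_prop
  exact (isOpen_Ux hc hφ).preimage h1

theorem hol_PZ (ha : Hol3 a univ) (hc : Hol3 c univ) (hφ : Hol2 φ Dom) :
    Hol2 (PZ a c φ) (Uz c φ) := by
  have h1 : Differentiable ℂ (fun p : ℂ × ℂ => exp p.1) := by fun_prop
  exact DifferentiableOn.mul h1.differentiableOn (hol_exp (hol_PX ha hc hφ))

theorem hol_QZ (hb : Hol3 b univ) (hc : Hol3 c univ) (hφ : Hol2 φ Dom) :
    Hol2 (QZ b c φ) (Uz c φ) := hol_exp (hol_QX hb hc hφ)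

theorem hol_pZ (ha : Hol3 a univ) (hc : Hol3 c univ) (hφ : Hol2 φ Dom) :
    Hol2 (pZ a c φ) (Uz c φ) := by
  have h1 : Differentiable ℂ (fun p : ℂ × ℂ => exp p.1) := by fun_prop
  exact DifferentiableOn.mul h1.differentiableOn (hol_exp (hol_jP2 ha hc hφ))

theorem hol_qZ (hb : Hol3 b univ) (hc : Hol3 c univ) (hφ : Hol2 φ Dom) :
    Hol2 (qZ b c φ) (Uz c φ) := hol_exp (hol_jQ2 hb hc hφ)

theorem closedZ (ha : Hol3 a univ) (hb : Hol3 b univ) (hc : Hol3 c univ) (hI : Integ a b c)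
    (hφ : Hol2 φ Dom)
    (ex : ∀ x y, (x, y) ∈ Dom → c x y (φ x y) * d1 φ x y + a x y (φ x y) = 0)
    (ey : ∀ x y, (x, y) ∈ Dom → c x y (φ x y) * d2 φ x y + b x y (φ x y) = 0) (z y : ℂ)
    (h : (z, y) ∈ Uz c φ) : d1 (QZ b c φ) z y = d2 (PZ a c φ) z y := by
  have h0 : (exp z, y) ∈ Ux c φ := h
  have e1 : d1 (QZ b c φ) z y = d1 (QX b c φ) (exp z) y * exp z :=
    (d1_exp (isOpen_Ux hc hφ) (hol_QX hb hc hφ) h0).deriv
  have e2 : d2 (PZ a c φ) z y = exp z * d2 (PX a c φ) (exp z) y :=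
    ((hasDerivAt_snd (isOpen_Ux hc hφ) (hol_PX ha hc hφ) h0).const_mul (exp z)).deriv
  rw [e1, e2, closedX ha hb hc hI hφ ex ey h0]
  ring

theorem closedZ2 (ha : Hol3 a univ) (hb : Hol3 b univ) (hc : Hol3 c univ) (hI : Integ a b c)
    (hφ : Hol2 φ Dom)
    (ex : ∀ x y, (x, y) ∈ Dom → c x y (φ x y) * d1 φ x y + a x y (φ x y) = 0)
    (ey : ∀ x y, (x, y) ∈ Dom → c x y (φ x y) * d2 φ x y + b x y (φ x y) = 0) (z y : ℂ)
    (h : (z, y) ∈ Uz c φ) : d1 (qZ b c φ) z y - d2 (pZ a c φ) z y =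
      PZ a c φ z y * qZ b c φ z y - QZ b c φ z y * pZ a c φ z y := by
  have h0 : (exp z, y) ∈ Ux c φ := h
  have e1 : d1 (qZ b c φ) z y = d1 (jQ2 b c φ) (exp z) y * exp z :=
    (d1_exp (isOpen_Ux hc hφ) (hol_jQ2 hb hc hφ) h0).deriv
  have e2 : d2 (pZ a c φ) z y = exp z * d2 (jP2 a c φ) (exp z) y :=
    ((hasDerivAt_snd (isOpen_Ux hc hφ) (hol_jP2 ha hc hφ) h0).const_mul (exp z)).deriv
  have e3 := closed2 ha hb hc hI isOpen_Dom hφ ex ey h0.1 h0.2
  rw [e1, e2]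
  unfold PZ qZ QZ pZ PX QX
  linear_combination exp z * e3

end

end P5

namespace P5

/-! ### Estimates -/

/-- the coefficient of `v ^ 2 x` in the model -/
noncomputable def g0 (x y : ℂ) : ℂ := 2 * exp (nu * y) * (x - 1) + (x - exp y)

/-- the region of the estimates -/
def Rg (x y : ℂ) : Prop := ‖x‖ ≤ 2 ∧ |y.re| ≤ 1 / 2 ∧ -(1 / 2) ≤ y.im ∧ y.im ≤ 2 * Real.pi + 1 / 2

theorem diff3 {f : ℂ → ℂ → ℂ → ℂ} (hf : Hol3 f univ) (x y v : ℂ) :
    DifferentiableAt ℂ (fun t => f x y t) v := by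
  have h1 : DifferentiableAt ℂ (fun p : ℂ × ℂ × ℂ => f p.1 p.2.1 p.2.2) (x, y, v) :=
    hf.differentiableAt (isOpen_univ.mem_nhds trivial)
  have h2 : DifferentiableAt ℂ (fun t : ℂ => ((x, y, t) : ℂ × ℂ × ℂ)) v := by fun_prop
  have h3 : DifferentiableAt ℂ ((fun p : ℂ × ℂ × ℂ => f p.1 p.2.1 p.2.2) ∘
    fun t : ℂ => ((x, y, t) : ℂ × ℂ × ℂ)) v := h1.comp v h2
  exact h3

theorem D3_sub {f g : ℂ → ℂ → ℂ → ℂ} (hf : Hol3 f univ) (hg : Hol3 g univ) :
    D3 (fun x y v => f x y v - g x y v) = fun x y v => D3 f x y v - D3 g x y v := by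
  funext x y v
  exact deriv_fun_sub (diff3 hf x y v) (diff3 hg x y v)

theorem h3_sub {f g : ℂ → ℂ → ℂ → ℂ} (hf : Hol3 f univ) (hg : Hol3 g univ) :
    Hol3 (fun x y v => f x y v - g x y v) univ := fun p hp => (hf p hp).sub (hg p hp)

theorem hol_a0 : Hol3 a0 univ := by
  unfold Hol3 a0 hh
  fun_prop

theorem hol_b0 : Hol3 b0 univ := by
  unfold Hol3 b0
  fun_prop

theorem hol_c0 : Hol3 c0 univ := by
  unfold Hol3 c0 hh
  fun_prop

theorem D3_a0 : D3 a0 = fun x y v => nu * hh x y + 2 * v * (x * g0 x y) := by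
  funext x y v
  have h : HasDerivAt (fun t : ℂ => a0 x y t) (nu * 1 * hh x y + 2 * v ^ 1 * 1 * x *
      (2 * exp (nu * y) * (x - 1) + (x - exp y))) v := by
    unfold a0
    exact (((hasDerivAt_id v).const_mul nu).mul_const _).add
      ((((hasDerivAt_id v).fun_pow 2).mul_const x).mul_const _)
  have h2 := h.deriv
  unfold D3
  rw [h2]
  unfold g0
  ring

theorem D3_b0 : D3 b0 = fun x y v => -(4 * exp (nu * y) * v * x ^ 2 * (x - 1)) := by
  funext x y v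
  have h : HasDerivAt (fun t : ℂ => b0 x y t) (-(2 * exp (nu * y) * (2 * v ^ 1 * 1) * x ^ 2 * (x - 1))) v := by
    unfold b0
    exact (((((hasDerivAt_id v).fun_pow 2).const_mul (2 * exp (nu * y))).mul_const (x ^ 2)).mul_const
      (x - 1)).fun_neg
  have h2 := h.deriv
  unfold D3
  rw [h2]
  ring

theorem D3_c0 : D3 c0 = fun _ _ _ => 0 := by
  funext x y v
  unfold D3 c0
  exact deriv_const _ _

theorem D33_a0 : D3 (D3 a0) = fun x y _ => 2 * (x * g0 x y) := by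
  rw [D3_a0]
  funext x y v
  have h : HasDerivAt (fun t : ℂ => nu * hh x y + 2 * t * (x * g0 x y)) (2 * 1 * (x * g0 x y)) v :=
    (((hasDerivAt_id v).const_mul 2).mul_const _).const_add _
  have h2 := h.deriv
  unfold D3
  rw [h2]
  ring

theorem D33_b0 : D3 (D3 b0) = fun x y _ => -(4 * exp (nu * y) * x ^ 2 * (x - 1)) := by
  rw [D3_b0]
  funext x y v
  have h : HasDerivAt (fun t : ℂ => -(4 * exp (nu * y) * t * x ^ 2 * (x - 1)))
      (-(4 * exp (nu * y) * 1 * x ^ 2 * (x - 1))) v :=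
    ((((hasDerivAt_id v).const_mul (4 * exp (nu * y))).mul_const (x ^ 2)).mul_const (x - 1)).fun_neg
  have h2 := h.deriv
  unfold D3
  rw [h2]
  ring

theorem D33_c0 : D3 (D3 c0) = fun _ _ _ => 0 := by
  rw [D3_c0]
  funext x y v
  unfold D3
  exact deriv_const _ _

/-- Cauchy estimates for the first and second derivative in `v` -/
theorem cauchy_v {f f0 : ℂ → ℂ → ℂ → ℂ} (hf : Hol3 f univ) (hf0 : Hol3 f0 univ) {δ : ℝ}
    (h : ∀ x y v, ‖x‖ ≤ 9 → ‖y‖ ≤ 9 → ‖v‖ ≤ 9 → ‖f x y v - f0 x y v‖ ≤ δ) {x y v : ℂ}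
    (hx : ‖x‖ ≤ 8) (hy : ‖y‖ ≤ 8) (hv : ‖v‖ ≤ 7) :
    ‖D3 f x y v - D3 f0 x y v‖ ≤ δ ∧ ‖D3 (D3 f) x y v - D3 (D3 f0) x y v‖ ≤ δ := by
  have h1 : ∀ x y v : ℂ, ‖x‖ ≤ 9 → ‖y‖ ≤ 9 → ‖v‖ ≤ 9 - 1 → ‖D3 f x y v - D3 f0 x y v‖ ≤ δ := by
    intro x y v hx hy hv
    have h2 := cauchy_D3 (h3_sub hf hf0) h x y v hx hy hv
    rw [D3_sub hf hf0] at h2
    exact h2
  refine ⟨h1 x y v (by linarith) (by linarith) (by linarith), ?_⟩
  have h3 := cauchy_D3 (R := 8) (δ := δ) (h3_sub (hf.D3 isOpen_univ) (hf0.D3 isOpen_univ))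
    (fun x y v hx hy hv => h1 x y v (by linarith) (by linarith) (by linarith)) x y v hx hy
    (by linarith)
  rw [D3_sub (hf.D3 isOpen_univ) (hf0.D3 isOpen_univ)] at h3
  exact h3

theorem Rg.dom {x y : ℂ} (h : Rg x y) : (x, y) ∈ Dom := by
  obtain ⟨h1, h2, h3, h4⟩ := h
  refine ⟨?_, ?_, ?_, ?_⟩ <;> simp only <;> linarith

theorem near_id (y t : ℂ) : |t.re - y.re| ≤ ‖t - y‖ ∧ |t.im - y.im| ≤ ‖t - y‖ := by
  constructor
  · rw [← Complex.sub_re]; exact Complex.abs_re_le_norm _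
  · rw [← Complex.sub_im]; exact Complex.abs_im_le_norm _

theorem phi_est {a b c : ℂ → ℂ → ℂ → ℂ} {φ : ℂ → ℂ → ℂ} {δ : ℝ} (hG : Good a b c φ δ) {x y : ℂ}
    (h : Rg x y) : ‖φ x y‖ ≤ δ ∧ ‖d1 φ x y‖ ≤ δ ∧ ‖d2 φ x y‖ ≤ 2 * δ := by
  refine ⟨hG.leaf.small x y h.dom, ?_, ?_⟩
  · have hin : ∀ t ∈ ball x 1, (t, y) ∈ Dom := by
      intro t ht
      refine ⟨?_, h.dom.2⟩
      rw [mem_ball, dist_eq_norm] at ht
      have h1 := norm_sub_norm_le t x
      have := h.1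
      simp only
      linarith
    have h1 := cauchy_d1 (f := φ) (x := x) (y := y) (r := 1) (M := δ) one_pos (by
      intro t ht
      exact ((hasDerivAt_fst isOpen_Dom hG.leaf.hol (hin t ht)).differentiableAt).differentiableWithinAt)
      (fun t ht => hG.leaf.small t y (hin t ht))
    rwa [div_one] at h1
  · have hin : ∀ t ∈ ball y (1 / 2), (x, t) ∈ Dom := by
      intro t ht
      obtain ⟨h1, h2, h3, h4⟩ := h
      rw [mem_ball, dist_eq_norm] at ht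
      obtain ⟨e1, e2⟩ := near_id y t
      rw [abs_le] at e1 e2 h2
      refine ⟨by simp only; linarith, ?_, ?_, ?_⟩
      · rw [abs_lt]
        constructor <;> simp only <;> linarith
      · simp only; linarith
      · simp only; linarith
    have h1 := cauchy_d2 (f := φ) (x := x) (y := y) (r := 1 / 2) (M := δ) (by norm_num) (by
      intro t ht
      exact ((hasDerivAt_snd isOpen_Dom hG.leaf.hol (hin t ht)).differentiableAt).differentiableWithinAt)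
      (fun t ht => hG.leaf.small x t (hin t ht))
    have h2 : δ / (1 / 2) = 2 * δ := by ring
    rwa [h2] at h1

theorem nu_norm : ‖nu‖ ≤ 2 := by
  unfold nu
  refine (norm_add_le _ _).trans ?_
  rw [norm_one, Complex.norm_I]
  norm_num

theorem g0_est {x y : ℂ} (h : Rg x y) : ‖exp (nu * y)‖ ≤ 3 ∧ ‖g0 x y‖ ≤ 23 ∧ ‖x - 1‖ ≤ 3 ∧
    ‖x - exp y‖ ≤ 5 := by
  have e0 : ‖exp y‖ < 3 := (norm_exp_of_Yr h.dom.2).2
  obtain ⟨h1, h2, h3, h4⟩ := h
  have e1 : ‖exp (nu * y)‖ ≤ 3 := by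
    rw [Complex.norm_exp]
    have h5 : (nu * y).re = y.re - y.im := by simp [nu, Complex.mul_re]
    rw [h5]
    have h6 : Real.exp (y.re - y.im) ≤ Real.exp 1 := by
      apply Real.exp_le_exp.2
      have := (abs_le.1 h2).2
      linarith
    have := Real.exp_one_lt_d9
    linarith
  have e2 : ‖x - 1‖ ≤ 3 := by
    refine (norm_sub_le _ _).trans ?_
    rw [norm_one]; linarith
  have e3 : ‖x - exp y‖ ≤ 5 := by
    refine (norm_sub_le _ _).trans ?_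
    linarith
  refine ⟨e1, ?_, e2, e3⟩
  unfold g0
  refine (norm_add_le _ _).trans ?_
  rw [norm_mul, norm_mul, Complex.norm_two]
  have h7 : 2 * ‖exp (nu * y)‖ * ‖x - 1‖ ≤ 2 * 3 * 3 := by
    have := norm_nonneg (exp (nu * y))
    have := norm_nonneg (x - 1)
    apply mul_le_mul _ e2 (norm_nonneg _) (by norm_num)
    linarith
  linarith

/-- estimates of the jets -/
theorem jets {a b c : ℂ → ℂ → ℂ → ℂ} {φ : ℂ → ℂ → ℂ} {δ : ℝ} (hG : Good a b c φ δ) (hδ : δ ≤ 1)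
    {x y : ℂ} (h : Rg x y) :
    ‖jC c φ x y - x * hh x y‖ ≤ δ ∧ ‖jCv c φ x y‖ ≤ δ ∧
    ‖jN1 a c φ x y - nu * hh x y‖ ≤ 150 * δ ∧ ‖jN2 b c φ x y‖ ≤ 150 * δ ∧
    ‖jM1 a c φ x y - x * g0 x y‖ ≤ 150 * δ ∧
    ‖jM2 b c φ x y + 2 * exp (nu * y) * x ^ 2 * (x - 1)‖ ≤ 150 * δ := by
  obtain ⟨f1, f2, f3⟩ := phi_est hG h
  obtain ⟨e1, e2, e3, e4⟩ := g0_est h
  have hx : ‖x‖ ≤ 2 := h.1
  have hy : ‖y‖ < 8 := norm_lt_of_Yr h.dom.2
  have hδ0 : 0 ≤ δ := (norm_nonneg _).trans f1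
  have hv : ‖φ x y‖ ≤ 7 := by linarith
  obtain ⟨a1, a2⟩ := cauchy_v hG.near.ha hol_a0 hG.near.na (x := x) (y := y) (by linarith) hy.le hv
  obtain ⟨b1, b2⟩ := cauchy_v hG.near.hb hol_b0 hG.near.nb (x := x) (y := y) (by linarith) hy.le hv
  obtain ⟨c1, c2⟩ := cauchy_v hG.near.hc hol_c0 hG.near.nc (x := x) (y := y) (by linarith) hy.le hv
  have c3 := hG.near.nc x y (φ x y) (by linarith) (by linarith) (by linarith)
  rw [D3_a0] at a1
  rw [D33_a0] at a2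
  rw [D3_b0] at b1
  rw [D33_b0] at b2
  rw [D3_c0, sub_zero] at c1
  rw [D33_c0, sub_zero] at c2
  simp only at a1 a2 b1 b2
  have hδδ : δ * δ ≤ δ := by nlinarith
  refine ⟨c3, c1, ?_, ?_, ?_, ?_⟩
  · have k1 : jN1 a c φ x y - nu * hh x y = (D3 a x y (φ x y) - (nu * hh x y + 2 * φ x y * (x * g0 x y))) +
        2 * φ x y * (x * g0 x y) + D3 c x y (φ x y) * d1 φ x y := by unfold jN1; ring
    rw [k1]
    have k2 : ‖2 * φ x y * (x * g0 x y)‖ ≤ 2 * δ * (2 * 23) := by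
      rw [norm_mul, norm_mul, norm_mul, Complex.norm_two]
      have := norm_nonneg x
      have := norm_nonneg (g0 x y)
      gcongr
    have k3 : ‖D3 c x y (φ x y) * d1 φ x y‖ ≤ δ * δ := by
      rw [norm_mul]
      exact mul_le_mul c1 f2 (norm_nonneg _) hδ0
    refine (norm_add_le _ _).trans ?_
    have k4 := norm_add_le (D3 a x y (φ x y) - (nu * hh x y + 2 * φ x y * (x * g0 x y)))
      (2 * φ x y * (x * g0 x y))
    linarith
  · have k1 : jN2 b c φ x y = (D3 b x y (φ x y) - -(4 * exp (nu * y) * φ x y * x ^ 2 * (x - 1))) +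
        -(4 * exp (nu * y) * φ x y * x ^ 2 * (x - 1)) + D3 c x y (φ x y) * d2 φ x y := by
      unfold jN2; ring
    rw [k1]
    have k2 : ‖-(4 * exp (nu * y) * φ x y * x ^ 2 * (x - 1))‖ ≤ 4 * 3 * δ * 2 ^ 2 * 3 := by
      rw [norm_neg, norm_mul, norm_mul, norm_mul, norm_mul, norm_pow]
      have : ‖(4 : ℂ)‖ = 4 := by norm_num
      rw [this]
      gcongr
    have k3 : ‖D3 c x y (φ x y) * d2 φ x y‖ ≤ δ * (2 * δ) := by
      rw [norm_mul]
      exact mul_le_mul c1 f3 (norm_nonneg _) hδ0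
    refine (norm_add_le _ _).trans ?_
    have k4 := norm_add_le (D3 b x y (φ x y) - -(4 * exp (nu * y) * φ x y * x ^ 2 * (x - 1)))
      (-(4 * exp (nu * y) * φ x y * x ^ 2 * (x - 1)))
    linarith
  · have k1 : jM1 a c φ x y - x * g0 x y = ((D3 (D3 a) x y (φ x y) - 2 * (x * g0 x y)) +
        D3 (D3 c) x y (φ x y) * d1 φ x y) / 2 := by unfold jM1; ring
    rw [k1, norm_div, Complex.norm_two]
    have k3 : ‖D3 (D3 c) x y (φ x y) * d1 φ x y‖ ≤ δ * δ := by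
      rw [norm_mul]
      exact mul_le_mul c2 f2 (norm_nonneg _) hδ0
    have k4 := norm_add_le (D3 (D3 a) x y (φ x y) - 2 * (x * g0 x y))
      (D3 (D3 c) x y (φ x y) * d1 φ x y)
    linarith
  · have k1 : jM2 b c φ x y + 2 * exp (nu * y) * x ^ 2 * (x - 1) =
        ((D3 (D3 b) x y (φ x y) - -(4 * exp (nu * y) * x ^ 2 * (x - 1))) +
        D3 (D3 c) x y (φ x y) * d2 φ x y) / 2 := by unfold jM2; ring
    rw [k1, norm_div, Complex.norm_two]
    have k3 : ‖D3 (D3 c) x y (φ x y) * d2 φ x y‖ ≤ δ * (2 * δ) := by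
      rw [norm_mul]
      exact mul_le_mul c2 f3 (norm_nonneg _) hδ0
    have k4 := norm_add_le (D3 (D3 b) x y (φ x y) - -(4 * exp (nu * y) * x ^ 2 * (x - 1)))
      (D3 (D3 c) x y (φ x y) * d2 φ x y)
    linarith

end P5

namespace P5

theorem div_bound {N C : ℂ} {B : ℝ} (hC : 1 / 600 ≤ ‖C‖) (hN : ‖N‖ ≤ B) : ‖N / C‖ ≤ 600 * B := by
  rw [norm_div, div_le_iff₀ (by linarith)]
  have hB : 0 ≤ B := (norm_nonneg N).trans hN
  nlinarith

/-- estimates of the forms -/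
theorem forms {a b c : ℂ → ℂ → ℂ → ℂ} {φ : ℂ → ℂ → ℂ} {δ : ℝ} (hG : Good a b c φ δ)
    (hδ : δ ≤ 1 / 600) {x y : ℂ} (h : Rg x y) (hm : 1 / 300 ≤ ‖x * hh x y‖) :
    jC c φ x y ≠ 0 ∧ ‖x * PX a c φ x y - nu‖ ≤ 30000000 * δ ∧ ‖QX b c φ x y‖ ≤ 30000000 * δ ∧
    ‖x * jP2 a c φ x y - x * g0 x y / hh x y‖ ≤ 30000000 * δ ∧
    ‖jQ2 b c φ x y - -(2 * exp (nu * y) * x ^ 2 * (x - 1)) / (x * hh x y)‖ ≤ 30000000 * δ := by
  obtain ⟨j1, j2, j3, j4, j5, j6⟩ := jets hG (by linarith) h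
  obtain ⟨e1, e2, e3, e4⟩ := g0_est h
  have hx : ‖x‖ ≤ 2 := h.1
  have hδ0 : 0 ≤ δ := (norm_nonneg _).trans j1
  have hC : 1 / 600 ≤ ‖jC c φ x y‖ := by
    have h1 := norm_sub_norm_le (x * hh x y) (x * hh x y - jC c φ x y)
    rw [norm_sub_rev (x * hh x y) (jC c φ x y), sub_sub_cancel] at h1
    linarith
  have hC0 : jC c φ x y ≠ 0 := by
    intro h0
    rw [h0, norm_zero] at hC
    norm_num at hC
  have hxh : x * hh x y ≠ 0 := by
    intro h0
    rw [h0, norm_zero] at hm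
    norm_num at hm
  have hx0 : x ≠ 0 := left_ne_zero_of_mul hxh
  have hh0 : hh x y ≠ 0 := right_ne_zero_of_mul hxh
  have hhn : 1 / 600 ≤ ‖hh x y‖ := by
    rw [norm_mul] at hm
    have := norm_nonneg (hh x y)
    nlinarith
  have hnu := nu_norm
  have s1 : ‖x * PX a c φ x y - nu‖ ≤ 600 * (302 * δ) := by
    have k1 : x * PX a c φ x y - nu = (x * (jN1 a c φ x y - nu * hh x y) -
        nu * (jC c φ x y - x * hh x y)) / jC c φ x y := by
      unfold PX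
      field_simp
      ring
    rw [k1]
    apply div_bound hC
    refine (norm_sub_le _ _).trans ?_
    rw [norm_mul, norm_mul]
    have k2 : ‖x‖ * ‖jN1 a c φ x y - nu * hh x y‖ ≤ 2 * (150 * δ) :=
      mul_le_mul hx j3 (norm_nonneg _) (by norm_num)
    have k3 : ‖nu‖ * ‖jC c φ x y - x * hh x y‖ ≤ 2 * δ :=
      mul_le_mul hnu j1 (norm_nonneg _) (by norm_num)
    linarith
  have s2 : ‖QX b c φ x y‖ ≤ 600 * (150 * δ) := div_bound hC j4
  refine ⟨hC0, by linarith, by linarith, ?_, ?_⟩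
  · have hPZ : ‖x * PX a c φ x y‖ ≤ 400 := by
      have k1 := norm_add_le (x * PX a c φ x y - nu) nu
      rw [sub_add_cancel] at k1
      linarith
    have k1 : x * jP2 a c φ x y - x * g0 x y / hh x y = (x * (jM1 a c φ x y - x * g0 x y) -
        jCv c φ x y * (x * PX a c φ x y) - x * (g0 x y / hh x y) * (jC c φ x y - x * hh x y)) /
        jC c φ x y := by
      unfold jP2 PX
      field_simp
      ring
    have k2 : ‖x * (jM1 a c φ x y - x * g0 x y)‖ ≤ 2 * (150 * δ) := by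
      rw [norm_mul]
      exact mul_le_mul hx j5 (norm_nonneg _) (by norm_num)
    have k3 : ‖jCv c φ x y * (x * PX a c φ x y)‖ ≤ δ * 400 := by
      rw [norm_mul]
      exact mul_le_mul j2 hPZ (norm_nonneg _) hδ0
    have k4 : ‖x * (g0 x y / hh x y) * (jC c φ x y - x * hh x y)‖ ≤ 2 * (600 * 23) * δ := by
      rw [norm_mul, norm_mul]
      have k5 := div_bound hhn e2
      have := norm_nonneg (g0 x y / hh x y)
      have := norm_nonneg x
      gcongr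
    rw [k1]
    have k6 := div_bound (N := x * (jM1 a c φ x y - x * g0 x y) -
        jCv c φ x y * (x * PX a c φ x y) - x * (g0 x y / hh x y) * (jC c φ x y - x * hh x y))
        (B := 2 * (150 * δ) + δ * 400 + 2 * (600 * 23) * δ) hC (by
      have l1 := norm_sub_le (x * (jM1 a c φ x y - x * g0 x y) - jCv c φ x y * (x * PX a c φ x y))
        (x * (g0 x y / hh x y) * (jC c φ x y - x * hh x y))
      have l2 := norm_sub_le (x * (jM1 a c φ x y - x * g0 x y)) (jCv c φ x y * (x * PX a c φ x y))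
      linarith)
    linarith
  · have k0 : ‖-(2 * exp (nu * y) * x ^ 2 * (x - 1)) / (x * hh x y)‖ ≤ 600 * (2 * 3 * 2 ^ 2 * 3) := by
      apply div_bound (by linarith)
      rw [norm_neg, norm_mul, norm_mul, norm_mul, norm_pow, Complex.norm_two]
      have := norm_nonneg x
      gcongr
    have k1 : jQ2 b c φ x y - -(2 * exp (nu * y) * x ^ 2 * (x - 1)) / (x * hh x y) =
        ((jM2 b c φ x y + 2 * exp (nu * y) * x ^ 2 * (x - 1)) - jCv c φ x y * QX b c φ x y -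
        (-(2 * exp (nu * y) * x ^ 2 * (x - 1)) / (x * hh x y)) * (jC c φ x y - x * hh x y)) /
        jC c φ x y := by
      unfold jQ2 QX
      field_simp
      ring
    have k3 : ‖jCv c φ x y * QX b c φ x y‖ ≤ δ * (600 * (150 * δ)) := by
      rw [norm_mul]
      exact mul_le_mul j2 s2 (norm_nonneg _) hδ0
    have k4 : ‖(-(2 * exp (nu * y) * x ^ 2 * (x - 1)) / (x * hh x y)) * (jC c φ x y - x * hh x y)‖ ≤
        600 * (2 * 3 * 2 ^ 2 * 3) * δ := by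
      rw [norm_mul]
      exact mul_le_mul k0 j1 (norm_nonneg _) (by norm_num)
    have k5 : δ * (600 * (150 * δ)) ≤ 150 * δ := by nlinarith
    rw [k1]
    have k6 := div_bound (N := (jM2 b c φ x y + 2 * exp (nu * y) * x ^ 2 * (x - 1)) -
        jCv c φ x y * QX b c φ x y -
        (-(2 * exp (nu * y) * x ^ 2 * (x - 1)) / (x * hh x y)) * (jC c φ x y - x * hh x y))
        (B := 150 * δ + 150 * δ + 600 * (2 * 3 * 2 ^ 2 * 3) * δ) hC (by
      have l1 := norm_sub_le ((jM2 b c φ x y + 2 * exp (nu * y) * x ^ 2 * (x - 1)) -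
        jCv c φ x y * QX b c φ x y)
        ((-(2 * exp (nu * y) * x ^ 2 * (x - 1)) / (x * hh x y)) * (jC c φ x y - x * hh x y))
      have l2 := norm_sub_le (jM2 b c φ x y + 2 * exp (nu * y) * x ^ 2 * (x - 1))
        (jCv c φ x y * QX b c φ x y)
      linarith)
    linarith

end P5

namespace P5

/-! ### Geometry -/

theorem exp_lower {u : ℂ} (h : ‖u‖ ≤ 1) : ‖u‖ - ‖u‖ ^ 2 ≤ ‖exp u - 1‖ := by
  have h1 := Complex.norm_exp_sub_one_sub_id_le h
  have h2 := norm_sub_norm_le u (-(exp u - 1 - u))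
  rw [norm_neg] at h2
  have h3 : u - -(exp u - 1 - u) = exp u - 1 := by ring
  rw [h3] at h2
  linarith

theorem exp_lower' {u : ℂ} {r : ℝ} (hr : r ≤ ‖u‖) (h : ‖u‖ ≤ 5 / 16) : 11 / 16 * r ≤ ‖exp u - 1‖ := by
  have h1 := exp_lower (h.trans (by norm_num))
  nlinarith [norm_nonneg u]

theorem exp_upper {u : ℂ} (h : ‖u‖ ≤ 1) : ‖exp u - 1‖ ≤ ‖u‖ + ‖u‖ ^ 2 := by
  have h1 := Complex.norm_exp_sub_one_sub_id_le h
  have h2 := norm_add_le (exp u - 1 - u) u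
  rw [sub_add_cancel] at h2
  linarith

theorem exp_plus_lower {u : ℂ} (h : ‖u‖ ≤ 5 / 16) : 3 / 2 ≤ ‖exp u + 1‖ := by
  have h1 := exp_upper (h.trans (by norm_num))
  have h2 := norm_sub_norm_le (2 : ℂ) (-(exp u - 1))
  rw [norm_neg, Complex.norm_two] at h2
  have h3 : (2 : ℂ) - -(exp u - 1) = exp u + 1 := by ring
  rw [h3] at h2
  nlinarith [norm_nonneg u]

/-- the points where the forms are controlled -/
def OK (x y : ℂ) : Prop := Rg x y ∧ 1 / 300 ≤ ‖x * hh x y‖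

theorem OK.mem {a b c : ℂ → ℂ → ℂ → ℂ} {φ : ℂ → ℂ → ℂ} {δ : ℝ} (hG : Good a b c φ δ)
    (hδ : δ ≤ 1 / 600) {x y : ℂ} (h : OK x y) : (x, y) ∈ Ux c φ :=
  ⟨h.1.dom, (forms hG hδ h.1 h.2).1⟩

theorem OK_of {z y : ℂ} {A B : ℝ} (hz : |z.re| ≤ 1 / 5) (hy : |y.re| ≤ 3 / 10)
    (hy2 : -(1 / 2) ≤ y.im) (hy3 : y.im ≤ 2 * Real.pi + 1 / 2) (hA0 : 0 ≤ A)
    (hA : A ≤ ‖exp z - 1‖) (hB0 : 0 ≤ B) (hB : B ≤ ‖exp (z - y) - 1‖) (hAB : 1 / 150 ≤ A * B) :
    OK (exp z) y := by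
  rw [abs_le] at hz hy
  refine ⟨⟨?_, ?_, hy2, hy3⟩, ?_⟩
  · rw [Complex.norm_exp]
    have h1 := Real.add_one_le_exp (-z.re)
    rw [Real.exp_neg] at h1
    have h2 : (1 : ℝ) / 2 ≤ (Real.exp z.re)⁻¹ := by linarith
    have h3 := Real.exp_pos z.re
    rw [div_le_iff₀ (by norm_num), inv_mul_eq_div, le_div_iff₀ h3] at h2
    linarith
  · rw [abs_le]; constructor <;> linarith
  · have h1 : exp z * hh (exp z) y = exp (z + y) * ((exp z - 1) * (exp (z - y) - 1)) := by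
      unfold hh
      rw [Complex.exp_add, Complex.exp_sub]
      have := Complex.exp_ne_zero y
      field_simp
    rw [h1, norm_mul, norm_mul, Complex.norm_exp, Complex.add_re]
    have h2 := Real.add_one_le_exp (z.re + y.re)
    have h3 : (1 : ℝ) / 2 ≤ Real.exp (z.re + y.re) := by linarith
    have h4 : A * B ≤ ‖exp z - 1‖ * ‖exp (z - y) - 1‖ := mul_le_mul hA hB hB0 (hA0.trans hA)
    have h5 : (1 : ℝ) / 2 * (1 / 150) ≤ Real.exp (z.re + y.re) * (‖exp z - 1‖ * ‖exp (z - y) - 1‖) :=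
      mul_le_mul h3 (hAB.trans h4) (by norm_num) (Real.exp_pos _).le
    linarith

/-- homotopy in the variables `z`, `y` -/
theorem homZ {a b c : ℂ → ℂ → ℂ → ℂ} {φ : ℂ → ℂ → ℂ} {δ : ℝ} (hG : Good a b c φ δ)
    (hδ : δ ≤ 1 / 600) {X Y X' Y' : ℝ → ℂ}
    (hX : ContDiff ℝ 2 X) (hY : ContDiff ℝ 2 Y) (hX' : ContDiff ℝ 2 X') (hY' : ContDiff ℝ 2 Y')
    (pX : X (2 * Real.pi) = X 0) (pY : Y (2 * Real.pi) = Y 0) (pX' : X' (2 * Real.pi) = X' 0)
    (pY' : Y' (2 * Real.pi) = Y' 0)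
    (hin : ∀ τ ∈ Icc (0 : ℝ) 1, ∀ θ : ℝ,
      OK (exp ((1 - τ) * X θ + τ * X' θ)) ((1 - τ) * Y θ + τ * Y' θ)) :
    (∫ θ in (0 : ℝ)..(2 * Real.pi), (PZ a c φ (X θ) (Y θ) * deriv X θ +
      QZ b c φ (X θ) (Y θ) * deriv Y θ)) =
      ∫ θ in (0 : ℝ)..(2 * Real.pi), (PZ a c φ (X' θ) (Y' θ) * deriv X' θ +
        QZ b c φ (X' θ) (Y' θ) * deriv Y' θ) :=
  loop_eq (isOpen_Uz hG.near.hc hG.leaf.hol) (hol_PZ hG.near.ha hG.near.hc hG.leaf.hol)
    (hol_QZ hG.near.hb hG.near.hc hG.leaf.hol)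
    (fun x y h => closedZ hG.near.ha hG.near.hb hG.near.hc hG.int hG.leaf.hol hG.leaf.ex hG.leaf.ey
      x y h) hX hY hX' hY' pX pY pX' pY' (fun τ hτ θ _ => (hin τ hτ θ).mem hG hδ)

/-- homotopy in the variables `x`, `y` -/
theorem homX {a b c : ℂ → ℂ → ℂ → ℂ} {φ : ℂ → ℂ → ℂ} {δ : ℝ} (hG : Good a b c φ δ)
    (hδ : δ ≤ 1 / 600) {X Y X' Y' : ℝ → ℂ}
    (hX : ContDiff ℝ 2 X) (hY : ContDiff ℝ 2 Y) (hX' : ContDiff ℝ 2 X') (hY' : ContDiff ℝ 2 Y')
    (pX : X (2 * Real.pi) = X 0) (pY : Y (2 * Real.pi) = Y 0) (pX' : X' (2 * Real.pi) = X' 0)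
    (pY' : Y' (2 * Real.pi) = Y' 0)
    (hin : ∀ τ ∈ Icc (0 : ℝ) 1, ∀ θ : ℝ,
      OK ((1 - τ) * X θ + τ * X' θ) ((1 - τ) * Y θ + τ * Y' θ)) :
    (∫ θ in (0 : ℝ)..(2 * Real.pi), (PX a c φ (X θ) (Y θ) * deriv X θ +
      QX b c φ (X θ) (Y θ) * deriv Y θ)) =
      ∫ θ in (0 : ℝ)..(2 * Real.pi), (PX a c φ (X' θ) (Y' θ) * deriv X' θ +
        QX b c φ (X' θ) (Y' θ) * deriv Y' θ) :=
  loop_eq (isOpen_Ux hG.near.hc hG.leaf.hol) (hol_PX hG.near.ha hG.near.hc hG.leaf.hol)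
    (hol_QX hG.near.hb hG.near.hc hG.leaf.hol)
    (fun _ _ h => closedX hG.near.ha hG.near.hb hG.near.hc hG.int hG.leaf.hol hG.leaf.ex hG.leaf.ey
      h) hX hY hX' hY' pX pY pX' pY' (fun τ hτ θ _ => (hin τ hτ θ).mem hG hδ)

theorem norm_cm (c : ℂ) (R θ : ℝ) (hR : 0 ≤ R) : ‖circleMap c R θ - c‖ = R := by
  rw [circleMap_sub_center, norm_circleMap_zero, abs_of_nonneg hR]

theorem re_im_le {w c : ℂ} {r : ℝ} (h : ‖w - c‖ ≤ r) : |w.re - c.re| ≤ r ∧ |w.im - c.im| ≤ r :=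
  ⟨((near_id c w).1).trans h, ((near_id c w).2).trans h⟩

theorem cm_per (c : ℂ) (R : ℝ) : circleMap c R (2 * Real.pi) = circleMap c R 0 := by
  have := periodic_circleMap c R 0
  rwa [zero_add] at this

end P5

namespace P5

/-- the period around `x = 1` -/
noncomputable def E2 (a c : ℂ → ℂ → ℂ → ℂ) (φ : ℂ → ℂ → ℂ) (y : ℂ) : ℂ :=
  ∫ θ in (0 : ℝ)..(2 * Real.pi), PZ a c φ (circleMap 0 (1 / 16) θ) y * deriv (circleMap 0 (1 / 16)) θ

/-- the period around `x = exp y` -/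
noncomputable def E1 (b c : ℂ → ℂ → ℂ → ℂ) (φ : ℂ → ℂ → ℂ) (T : ℝ) : ℂ :=
  ∫ θ in (0 : ℝ)..(2 * Real.pi), QZ b c φ (1 / 16 + T * I) (circleMap (T * I) (1 / 4) θ) *
    deriv (circleMap (T * I) (1 / 4)) θ

theorem cm16 (θ : ℝ) : ‖circleMap 0 (1 / 16) θ‖ = 1 / 16 := by
  rw [norm_circleMap_zero, abs_of_pos (by norm_num)]

theorem cm16_lower (θ : ℝ) : 15 / 256 ≤ ‖exp (circleMap 0 (1 / 16) θ) - 1‖ := by
  have h1 := exp_lower (u := circleMap 0 (1 / 16) θ) (by rw [cm16]; norm_num)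
  rw [cm16] at h1
  linarith

theorem abs_le_of_norm {w : ℂ} {r : ℝ} (h : ‖w‖ ≤ r) : |w.re| ≤ r ∧ |w.im| ≤ r :=
  ⟨(Complex.abs_re_le_norm w).trans h, (Complex.abs_im_le_norm w).trans h⟩

theorem OK_vert (θ t : ℝ) (h0 : 0 ≤ t) (h1 : t ≤ 2 * Real.pi) :
    OK (exp (circleMap 0 (1 / 16) θ)) (1 / 4 + t * I) := by
  have hz := abs_le_of_norm (cm16 θ).le
  have hre : ((1 : ℂ) / 4 + t * I).re = 1 / 4 := by norm_num [Complex.mul_re]
  have him : ((1 : ℂ) / 4 + t * I).im = t := by norm_num [Complex.mul_im]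
  refine OK_of (A := 15 / 256) (B := 3 / 19) (by linarith [hz.1]) ?_ ?_ ?_ (by norm_num)
    (cm16_lower θ) (by norm_num) ?_ (by norm_num)
  · rw [hre]; norm_num [abs_of_pos]
  · rw [him]; linarith
  · rw [him]; linarith
  · have h2 := norm_sub_norm_le (1 : ℂ) (exp (circleMap 0 (1 / 16) θ - (1 / 4 + t * I)))
    rw [norm_one, norm_sub_rev, Complex.norm_exp, Complex.sub_re, hre] at h2
    have h3 : (circleMap 0 (1 / 16) θ).re - 1 / 4 ≤ -(3 / 16) := by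
      have := (abs_le.1 hz.1).2
      linarith
    have h4 : Real.exp ((circleMap 0 (1 / 16) θ).re - 1 / 4) ≤ Real.exp (-(3 / 16)) :=
      Real.exp_le_exp.2 h3
    have h5 : Real.exp (-(3 / 16)) ≤ 16 / 19 := by
      rw [Real.exp_neg]
      have h6 := Real.add_one_le_exp (3 / 16)
      rw [inv_le_comm₀ (Real.exp_pos _) (by norm_num)]
      norm_num at h6 ⊢
      linarith
    linarith

theorem exp_pi_shift (u : ℂ) : exp u - 1 = -(exp (u - Real.pi * I) + 1) := by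
  have h : exp u = exp (u - Real.pi * I) * exp (Real.pi * I) := by
    rw [← Complex.exp_add, sub_add_cancel]
  rw [h, Complex.exp_pi_mul_I]
  ring

theorem exp_pi_shift' (u : ℂ) : exp u - 1 = -(exp (u + Real.pi * I) + 1) := by
  rw [Complex.exp_add, Complex.exp_pi_mul_I]
  ring

theorem pi_re (y : ℂ) : (y - Real.pi * I).re = y.re := by simp

theorem pi_im (y : ℂ) : (y - Real.pi * I).im = y.im - Real.pi := by simp

theorem near_pi {y : ℂ} {r : ℝ} (h : ‖y - Real.pi * I‖ ≤ r) (hr : r ≤ 3 / 10) :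
    |y.re| ≤ 3 / 10 ∧ -(1 / 2) ≤ y.im ∧ y.im ≤ 2 * Real.pi + 1 / 2 := by
  obtain ⟨h1, h2⟩ := abs_le_of_norm (h.trans hr)
  rw [pi_re] at h1
  rw [pi_im, abs_le] at h2
  have := Real.pi_gt_three
  exact ⟨h1, by linarith, by linarith⟩

theorem OK_near (θ : ℝ) {y : ℂ} (h : ‖y - Real.pi * I‖ ≤ 1 / 4) :
    OK (exp (circleMap 0 (1 / 16) θ)) y := by
  have hz := abs_le_of_norm (cm16 θ).le
  obtain ⟨h1, h2, h3⟩ := near_pi h (by norm_num)
  refine OK_of (A := 15 / 256) (B := 3 / 2) (by linarith [hz.1]) h1 h2 h3 (by norm_num)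
    (cm16_lower θ) (by norm_num) ?_ (by norm_num)
  rw [exp_pi_shift', norm_neg]
  apply exp_plus_lower
  have h4 : circleMap 0 (1 / 16) θ - y + Real.pi * I = circleMap 0 (1 / 16) θ - (y - Real.pi * I) := by
    ring
  rw [h4]
  have h5 := norm_sub_le (circleMap 0 (1 / 16) θ) (y - Real.pi * I)
  rw [cm16] at h5
  linarith

theorem OK_rot (θ t : ℝ) (h0 : 0 ≤ t) (h1 : t ≤ 2 * Real.pi) :
    OK (exp (1 / 16 + t * I)) (t * I + circleMap 0 (1 / 4) θ) := by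
  have hn : ‖circleMap 0 (1 / 4) θ‖ = 1 / 4 := by
    rw [norm_circleMap_zero, abs_of_pos (by norm_num)]
  have hz := abs_le_of_norm hn.le
  have hre : ((1 : ℂ) / 16 + t * I).re = 1 / 16 := by norm_num [Complex.mul_re]
  have hyre : (t * I + circleMap 0 (1 / 4) θ).re = (circleMap 0 (1 / 4) θ).re := by simp
  have hyim : (t * I + circleMap 0 (1 / 4) θ).im = t + (circleMap 0 (1 / 4) θ).im := by simp
  refine OK_of (A := 1 / 16) (B := 11 / 16 * (3 / 16)) ?_ ?_ ?_ ?_ (by norm_num)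
    ?_ (by norm_num) ?_ (by norm_num)
  · rw [hre]; norm_num [abs_of_pos]
  · rw [hyre]; linarith [hz.1]
  · rw [hyim]; linarith [(abs_le.1 hz.2).1]
  · rw [hyim]; linarith [(abs_le.1 hz.2).2]
  · have h2 := norm_sub_norm_le (exp (1 / 16 + t * I)) 1
    rw [norm_one, Complex.norm_exp, hre] at h2
    have h3 := Real.add_one_le_exp (1 / 16)
    linarith
  · have h4 : (1 : ℂ) / 16 + t * I - (t * I + circleMap 0 (1 / 4) θ) =
        1 / 16 - circleMap 0 (1 / 4) θ := by ring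
    rw [h4]
    have h16 : ‖(1 : ℂ) / 16‖ = 1 / 16 := by norm_num
    apply exp_lower'
    · have h5 := norm_sub_norm_le (circleMap 0 (1 / 4) θ) (1 / 16)
      rw [norm_sub_rev, hn, h16] at h5
      linarith
    · have h5 := norm_sub_le (1 / 16 : ℂ) (circleMap 0 (1 / 4) θ)
      rw [hn, h16] at h5
      linarith

section
variable {a b c : ℂ → ℂ → ℂ → ℂ} {φ : ℂ → ℂ → ℂ} {δ : ℝ}

theorem E2_move (hG : Good a b c φ δ) (hδ : δ ≤ 1 / 600) {y y' : ℂ}
    (h : ∀ τ ∈ Icc (0 : ℝ) 1, ∀ θ : ℝ, OK (exp (circleMap 0 (1 / 16) θ)) ((1 - τ) * y + τ * y')) :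
    E2 a c φ y = E2 a c φ y' := by
  have h1 := homZ hG hδ (X := circleMap 0 (1 / 16)) (X' := circleMap 0 (1 / 16)) (Y := fun _ => y)
    (Y' := fun _ => y') (contDiff_circleMap _ _) contDiff_const (contDiff_circleMap _ _)
    contDiff_const (cm_per _ _) rfl (cm_per _ _) rfl (by
      intro τ hτ θ
      have h2 : (1 - (τ : ℂ)) * circleMap 0 (1 / 16) θ + τ * circleMap 0 (1 / 16) θ =
        circleMap 0 (1 / 16) θ := by ring
      rw [h2]
      exact h τ hτ θ)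
  simp only [deriv_const, mul_zero, add_zero] at h1
  exact h1

theorem E2_vert (hG : Good a b c φ δ) (hδ : δ ≤ 1 / 600) {t : ℝ} (h0 : 0 ≤ t)
    (h1 : t ≤ 2 * Real.pi) : E2 a c φ (1 / 4) = E2 a c φ (1 / 4 + t * I) := by
  apply E2_move hG hδ
  intro τ hτ θ
  have h2 : (1 - (τ : ℂ)) * (1 / 4) + τ * (1 / 4 + t * I) = 1 / 4 + ((τ * t : ℝ) : ℂ) * I := by
    push_cast
    ring
  rw [h2]
  refine OK_vert θ (τ * t) (mul_nonneg hτ.1 h0) ?_
  nlinarith [hτ.1, hτ.2]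

theorem E2_near (hG : Good a b c φ δ) (hδ : δ ≤ 1 / 600) {y : ℂ}
    (h : ‖y - Real.pi * I‖ < 1 / 10) : E2 a c φ (1 / 4 + Real.pi * I) = E2 a c φ y := by
  apply E2_move hG hδ
  intro τ hτ θ
  apply OK_near
  have h2 : (1 - (τ : ℂ)) * (1 / 4 + Real.pi * I) + τ * y - Real.pi * I =
      ((1 - τ : ℝ) : ℂ) * (1 / 4) + (τ : ℂ) * (y - Real.pi * I) := by
    push_cast
    ring
  rw [h2]
  refine (norm_add_le _ _).trans ?_
  have h4 : ‖(1 / 4 : ℂ)‖ = 1 / 4 := by norm_num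
  rw [norm_mul, norm_mul, Complex.norm_real, Complex.norm_real, h4, Real.norm_eq_abs,
    Real.norm_eq_abs, abs_of_nonneg (sub_nonneg.2 hτ.2), abs_of_nonneg hτ.1]
  nlinarith [hτ.1, hτ.2]

theorem E1_rot (hG : Good a b c φ δ) (hδ : δ ≤ 1 / 600) {T : ℝ} (h0 : 0 ≤ T)
    (h1 : T ≤ 2 * Real.pi) : E1 b c φ 0 = E1 b c φ T := by
  have hc : ∀ (s θ : ℝ), circleMap (s * I) (1 / 4) θ = s * I + circleMap 0 (1 / 4) θ := by
    intro s θ
    simp [circleMap]
  have h2 := homZ hG hδ (X := fun _ => 1 / 16 + (0 : ℝ) * I) (X' := fun _ => 1 / 16 + T * I)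
    (Y := circleMap ((0 : ℝ) * I) (1 / 4)) (Y' := circleMap (T * I) (1 / 4)) contDiff_const
    (contDiff_circleMap _ _) contDiff_const (contDiff_circleMap _ _) rfl (cm_per _ _) rfl
    (cm_per _ _) (by
      intro τ hτ θ
      rw [hc, hc]
      have e1 : (1 - (τ : ℂ)) * (1 / 16 + (0 : ℝ) * I) + τ * (1 / 16 + T * I) =
        1 / 16 + ((τ * T : ℝ) : ℂ) * I := by
        push_cast
        ring
      have e2 : (1 - (τ : ℂ)) * ((0 : ℝ) * I + circleMap 0 (1 / 4) θ) +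
          τ * (T * I + circleMap 0 (1 / 4) θ) = ((τ * T : ℝ) : ℂ) * I + circleMap 0 (1 / 4) θ := by
        push_cast
        ring
      rw [e1, e2]
      refine OK_rot θ (τ * T) (mul_nonneg hτ.1 h0) ?_
      nlinarith [hτ.1, hτ.2])
  simp only [deriv_const, mul_zero, zero_add] at h2
  exact h2

end

end P5

namespace P5

theorem exp_cm_contDiff (w : ℂ) (k : ℂ) : ContDiff ℝ 2 (fun θ : ℝ => exp (w + k * circleMap 0 (1 / 16) θ)) := by
  have h1 : ContDiff ℝ 2 (fun θ : ℝ => w + k * circleMap 0 (1 / 16) θ) :=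
    contDiff_const.add (contDiff_const.mul (contDiff_circleMap _ _))
  exact h1.cexp

theorem deriv_exp_cm (w k : ℂ) (θ : ℝ) : deriv (fun θ : ℝ => exp (w + k * circleMap 0 (1 / 16) θ)) θ =
    exp (w + k * circleMap 0 (1 / 16) θ) * (k * deriv (circleMap 0 (1 / 16)) θ) := by
  have h1 := ((((hasDerivAt_circleMap 0 (1 / 16) θ).const_mul k).const_add w).cexp).deriv
  rw [h1, (hasDerivAt_circleMap 0 (1 / 16) θ).deriv]

section
variable {a b c : ℂ → ℂ → ℂ → ℂ} {φ : ℂ → ℂ → ℂ} {δ : ℝ}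

theorem hh_norm (x y : ℂ) : ‖x * hh x y‖ = ‖x‖ * (‖x - 1‖ * ‖x - exp y‖) := by
  unfold hh
  rw [norm_mul, norm_mul]

theorem exp_pi_add (y : ℂ) : exp y = -exp (y - Real.pi * I) := by
  have h : exp y = exp (y - Real.pi * I) * exp (Real.pi * I) := by
    rw [← Complex.exp_add, sub_add_cancel]
  rw [h, Complex.exp_pi_mul_I]
  ring

theorem OK_x1 {y : ℂ} (hy : ‖y - Real.pi * I‖ < 1 / 10) (τ : ℝ) (h0 : 0 ≤ τ) (h1 : τ ≤ 1) (θ : ℝ) :
    OK ((1 - (τ : ℂ)) * exp (0 + 1 * circleMap 0 (1 / 16) θ) + τ * circleMap 1 (1 / 16) θ) y := by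
  obtain ⟨g1, g2, g3⟩ := near_pi hy.le (by norm_num)
  obtain ⟨w, hw⟩ : ∃ w, w = circleMap 0 (1 / 16) θ := ⟨_, rfl⟩
  have hn : ‖w‖ = 1 / 16 := by rw [hw, cm16]
  have hc : circleMap 1 (1 / 16) θ = 1 + w := by rw [hw]; simp [circleMap]
  rw [hc, ← hw, zero_add, one_mul]
  have hr := Complex.norm_exp_sub_one_sub_id_le (x := w) (by rw [hn]; norm_num)
  rw [hn] at hr
  obtain ⟨x, hx⟩ : ∃ x, x = (1 - (τ : ℂ)) * exp w + τ * (1 + w) := ⟨_, rfl⟩
  rw [← hx]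
  have e1 : x - 1 = w + ((1 - τ : ℝ) : ℂ) * (exp w - 1 - w) := by
    rw [hx]; push_cast; ring
  have e2 : ‖((1 - τ : ℝ) : ℂ) * (exp w - 1 - w)‖ ≤ 1 / 256 := by
    rw [norm_mul, Complex.norm_real, Real.norm_eq_abs, abs_of_nonneg (sub_nonneg.2 h1)]
    have := norm_nonneg (exp w - 1 - w)
    nlinarith
  have k1 : ‖x - 1‖ ≤ 17 / 256 := by
    rw [e1]
    have := norm_add_le w (((1 - τ : ℝ) : ℂ) * (exp w - 1 - w))
    linarith
  have k2 : 15 / 256 ≤ ‖x - 1‖ := by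
    have h2 := norm_sub_norm_le w (-(((1 - τ : ℝ) : ℂ) * (exp w - 1 - w)))
    rw [sub_neg_eq_add, ← e1, norm_neg] at h2
    linarith
  have k3 : ‖x‖ ≤ 2 := by
    have h2 := norm_add_le (x - 1) 1
    rw [sub_add_cancel, norm_one] at h2
    linarith
  have k4 : 1 / 2 ≤ ‖x‖ := by
    have h2 := norm_sub_norm_le (1 : ℂ) (-(x - 1))
    rw [sub_neg_eq_add, norm_neg, norm_one, add_sub_cancel] at h2
    linarith
  have k5 : 1 ≤ ‖x - exp y‖ := by
    have h2 := exp_plus_lower (u := y - Real.pi * I) (by linarith)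
    have h3 := norm_sub_norm_le (exp (y - Real.pi * I) + 1) (-(x - 1))
    have h4 : exp (y - Real.pi * I) + 1 - -(x - 1) = x - exp y := by rw [exp_pi_add y]; ring
    rw [h4, norm_neg] at h3
    linarith
  refine ⟨⟨k3, by linarith, g2, g3⟩, ?_⟩
  rw [hh_norm]
  have h5 : 15 / 256 * 1 ≤ ‖x - 1‖ * ‖x - exp y‖ := mul_le_mul k2 k5 (by norm_num) (by linarith)
  have h6 : 1 / 2 * (15 / 256 * 1) ≤ ‖x‖ * (‖x - 1‖ * ‖x - exp y‖) :=
    mul_le_mul k4 h5 (by norm_num) (by linarith)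
  linarith

theorem E2_circle (hG : Good a b c φ δ) (hδ : δ ≤ 1 / 600) {y : ℂ}
    (hy : ‖y - Real.pi * I‖ < 1 / 10) :
    E2 a c φ y = ∮ x in C(1, 1 / 16), jN1 a c φ x y / jC c φ x y := by
  have h1 := homX hG hδ (X := fun θ => exp (0 + 1 * circleMap 0 (1 / 16) θ))
    (X' := circleMap 1 (1 / 16)) (Y := fun _ => y) (Y' := fun _ => y) (exp_cm_contDiff 0 1)
    contDiff_const (contDiff_circleMap _ _) contDiff_const (by rw [cm_per]) rfl (cm_per _ _) rfl (by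
      intro τ hτ θ
      have h2 : (1 - (τ : ℂ)) * y + τ * y = y := by ring
      rw [h2]
      exact OK_x1 hy τ hτ.1 hτ.2 θ)
  simp only [deriv_const, mul_zero, add_zero, deriv_exp_cm] at h1
  simp only [zero_add, one_mul] at h1
  have h3 : E2 a c φ y = ∫ θ in (0 : ℝ)..(2 * Real.pi), PX a c φ (exp (circleMap 0 (1 / 16) θ)) y *
      (exp (circleMap 0 (1 / 16) θ) * deriv (circleMap 0 (1 / 16)) θ) := by
    unfold E2 PZ
    refine intervalIntegral.integral_congr fun θ _ => ?_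
    ring
  rw [h3, h1]
  unfold circleIntegral PX
  refine intervalIntegral.integral_congr fun θ _ => ?_
  rw [smul_eq_mul, mul_comm]

theorem OK_x2 {y : ℂ} (hy : ‖y - Real.pi * I‖ < 1 / 10) (τ : ℝ) (h0 : 0 ≤ τ) (h1 : τ ≤ 1) (θ : ℝ) :
    OK (exp ((1 - (τ : ℂ)) * (1 / 16 + Real.pi * I) + τ * (y + -1 * circleMap 0 (1 / 16) θ)))
      ((1 - (τ : ℂ)) * circleMap (Real.pi * I) (1 / 4) θ + τ * y) := by
  obtain ⟨w, hw⟩ : ∃ w, w = circleMap 0 (1 / 16) θ := ⟨_, rfl⟩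
  have hn : ‖w‖ = 1 / 16 := by rw [hw, cm16]
  have hc : circleMap (Real.pi * I) (1 / 4) θ = Real.pi * I + 4 * w := by
    rw [hw]; simp [circleMap]; ring
  rw [hc, ← hw]
  obtain ⟨z, hz⟩ : ∃ z, z = (1 - (τ : ℂ)) * (1 / 16 + Real.pi * I) + τ * (y + -1 * w) := ⟨_, rfl⟩
  obtain ⟨v, hv⟩ : ∃ v, v = (1 - (τ : ℂ)) * (Real.pi * I + 4 * w) + τ * y := ⟨_, rfl⟩
  rw [← hz, ← hv]
  have h16 : ‖(1 : ℂ) / 16‖ = 1 / 16 := by norm_num
  have t0 : ‖((1 - τ : ℝ) : ℂ)‖ = 1 - τ := by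
    rw [Complex.norm_real, Real.norm_eq_abs, abs_of_nonneg (sub_nonneg.2 h1)]
  have t1 : ‖((τ : ℝ) : ℂ)‖ = τ := by
    rw [Complex.norm_real, Real.norm_eq_abs, abs_of_nonneg h0]
  have ez : z - Real.pi * I = ((1 - τ : ℝ) : ℂ) * (1 / 16) + ((τ : ℝ) : ℂ) * ((y - Real.pi * I) - w) := by
    rw [hz]; push_cast; ring
  have ev : v - Real.pi * I = ((1 - τ : ℝ) : ℂ) * (4 * w) + ((τ : ℝ) : ℂ) * (y - Real.pi * I) := by
    rw [hv]; push_cast; ring
  have h4 : ‖(4 : ℂ) * w‖ = 1 / 4 := by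
    rw [norm_mul, hn]; norm_num
  have nz : ‖z - Real.pi * I‖ ≤ 1 / 5 := by
    rw [ez]
    refine (norm_add_le _ _).trans ?_
    rw [norm_mul, norm_mul, t0, t1, h16]
    have h5 := norm_sub_le (y - Real.pi * I) w
    rw [hn] at h5
    nlinarith
  have nv : ‖v - Real.pi * I‖ ≤ 1 / 4 := by
    rw [ev]
    refine (norm_add_le _ _).trans ?_
    rw [norm_mul ((1 - τ : ℝ) : ℂ) (4 * w), norm_mul ((τ : ℝ) : ℂ) (y - Real.pi * I), t0, t1, h4]
    nlinarith
  obtain ⟨g1, g2, g3⟩ := near_pi nv (by norm_num)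
  have hzre := (abs_le_of_norm nz).1
  rw [pi_re] at hzre
  refine OK_of (A := 3 / 2) (B := 11 / 16 * (1 / 16)) hzre g1 g2 g3 (by norm_num) ?_ (by norm_num) ?_
    (by norm_num)
  · rw [exp_pi_shift, norm_neg]
    exact exp_plus_lower (by linarith)
  · have e1 : z - v = ((1 - τ : ℝ) : ℂ) * (1 / 16) - ((4 - 3 * τ : ℝ) : ℂ) * w := by
      rw [hz, hv]; push_cast; ring
    have t2 : ‖((4 - 3 * τ : ℝ) : ℂ)‖ = 4 - 3 * τ := by
      rw [Complex.norm_real, Real.norm_eq_abs, abs_of_nonneg (by linarith)]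
    rw [e1]
    apply exp_lower'
    · have h5 := norm_sub_norm_le (((4 - 3 * τ : ℝ) : ℂ) * w) (((1 - τ : ℝ) : ℂ) * (1 / 16))
      rw [norm_sub_rev, norm_mul, norm_mul, t0, t2, h16, hn] at h5
      linarith
    · have h5 := norm_sub_le (((1 - τ : ℝ) : ℂ) * (1 / 16)) (((4 - 3 * τ : ℝ) : ℂ) * w)
      rw [norm_mul, norm_mul, t0, t2, h16, hn] at h5
      linarith

theorem OK_x3 {y : ℂ} (hy : ‖y - Real.pi * I‖ < 1 / 10) (τ : ℝ) (h0 : 0 ≤ τ) (h1 : τ ≤ 1) (θ : ℝ) :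
    OK ((1 - (τ : ℂ)) * exp (y + -1 * circleMap 0 (1 / 16) θ) + τ * circleMap (exp y) (1 / 16) θ) y := by
  obtain ⟨g1, g2, g3⟩ := near_pi hy.le (by norm_num)
  obtain ⟨w, hw⟩ : ∃ w, w = circleMap 0 (1 / 16) θ := ⟨_, rfl⟩
  have hn : ‖w‖ = 1 / 16 := by rw [hw, cm16]
  have hc : circleMap (exp y) (1 / 16) θ = exp y + w := by rw [hw]; simp [circleMap]
  rw [hc, ← hw]
  obtain ⟨x, hx⟩ : ∃ x, x = (1 - (τ : ℂ)) * exp (y + -1 * w) + τ * (exp y + w) := ⟨_, rfl⟩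
  rw [← hx]
  obtain ⟨e, he⟩ : ∃ e, e = exp (y - Real.pi * I) - 1 := ⟨_, rfl⟩
  have hen : ‖e‖ ≤ 11 / 100 := by
    have h2 := exp_upper (u := y - Real.pi * I) (by linarith)
    rw [← he] at h2
    have := norm_nonneg (y - Real.pi * I)
    nlinarith
  have hey : exp y = -(1 + e) := by rw [exp_pi_add y, he]; ring
  have hr := Complex.norm_exp_sub_one_sub_id_le (x := -w) (by rw [norm_neg, hn]; norm_num)
  rw [norm_neg, hn] at hr
  have hyn : ‖exp y‖ ≤ 111 / 100 := by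
    rw [hey, norm_neg]
    have := norm_add_le 1 e
    rw [norm_one] at this
    linarith
  have hyl : 89 / 100 ≤ ‖exp y‖ := by
    rw [hey, norm_neg]
    have := norm_sub_norm_le 1 (-e)
    rw [norm_one, sub_neg_eq_add, norm_neg] at this
    linarith
  have e1 : x - exp y = w * (1 + ((1 - τ : ℝ) : ℂ) * e) +
      ((1 - τ : ℝ) : ℂ) * (exp y * (exp (-w) - 1 - -w)) := by
    have h2 : exp (y + -1 * w) = exp y * exp (-w) := by
      rw [← Complex.exp_add]; congr 1; ring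
    rw [hx, h2, hey]
    push_cast
    ring
  have t0 : ‖((1 - τ : ℝ) : ℂ)‖ = 1 - τ := by
    rw [Complex.norm_real, Real.norm_eq_abs, abs_of_nonneg (sub_nonneg.2 h1)]
  have n1 : ‖((1 - τ : ℝ) : ℂ) * e‖ ≤ 11 / 100 := by
    rw [norm_mul, t0]
    nlinarith [norm_nonneg e]
  have n2 : ‖((1 - τ : ℝ) : ℂ) * (exp y * (exp (-w) - 1 - -w))‖ ≤ 111 / 25600 := by
    rw [norm_mul, norm_mul, t0]
    have h3 : ‖exp y‖ * ‖exp (-w) - 1 - -w‖ ≤ 111 / 100 * (1 / 16) ^ 2 :=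
      mul_le_mul hyn hr (norm_nonneg _) (by norm_num)
    have h4 : 0 ≤ ‖exp y‖ * ‖exp (-w) - 1 - -w‖ := by positivity
    nlinarith
  have n3 : ‖1 + ((1 - τ : ℝ) : ℂ) * e‖ ≤ 111 / 100 := by
    have := norm_add_le 1 (((1 - τ : ℝ) : ℂ) * e)
    rw [norm_one] at this
    linarith
  have n4 : 89 / 100 ≤ ‖1 + ((1 - τ : ℝ) : ℂ) * e‖ := by
    have := norm_sub_norm_le 1 (-(((1 - τ : ℝ) : ℂ) * e))
    rw [norm_one, sub_neg_eq_add, norm_neg] at this
    linarith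
  have k1 : ‖x - exp y‖ ≤ 1 / 10 := by
    rw [e1]
    refine (norm_add_le _ _).trans ?_
    rw [norm_mul, hn]
    linarith
  have k2 : 1 / 20 ≤ ‖x - exp y‖ := by
    have h2 := norm_sub_norm_le (w * (1 + ((1 - τ : ℝ) : ℂ) * e))
      (-(((1 - τ : ℝ) : ℂ) * (exp y * (exp (-w) - 1 - -w))))
    have h3 : w * (1 + ((1 - τ : ℝ) : ℂ) * e) -
      -(((1 - τ : ℝ) : ℂ) * (exp y * (exp (-w) - 1 - -w))) = x - exp y := by
      rw [e1]; ring
    rw [h3, norm_neg, norm_mul w, hn] at h2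
    linarith
  have k3 : ‖x‖ ≤ 2 := by
    have h2 := norm_add_le (x - exp y) (exp y)
    rw [sub_add_cancel] at h2
    linarith
  have k4 : 1 / 2 ≤ ‖x‖ := by
    have h2 := norm_sub_norm_le (exp y) (-(x - exp y))
    rw [sub_neg_eq_add, norm_neg, add_sub_cancel] at h2
    linarith
  have k5 : 1 ≤ ‖x - 1‖ := by
    have h2 := exp_plus_lower (u := y - Real.pi * I) (by linarith)
    have h3 := norm_sub_norm_le (exp (y - Real.pi * I) + 1) (x - exp y)
    have h4 : exp (y - Real.pi * I) + 1 - (x - exp y) = -(x - 1) := by rw [exp_pi_add y]; ring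
    rw [h4, norm_neg] at h3
    linarith
  refine ⟨⟨k3, by linarith, g2, g3⟩, ?_⟩
  rw [hh_norm]
  have h5 : 1 * (1 / 20) ≤ ‖x - 1‖ * ‖x - exp y‖ := mul_le_mul k5 k2 (by norm_num) (by linarith)
  have h6 : 1 / 2 * (1 * (1 / 20)) ≤ ‖x‖ * (‖x - 1‖ * ‖x - exp y‖) :=
    mul_le_mul k4 h5 (by norm_num) (by linarith)
  linarith

theorem E1_circle (hG : Good a b c φ δ) (hδ : δ ≤ 1 / 600) {y : ℂ}
    (hy : ‖y - Real.pi * I‖ < 1 / 10) :
    E1 b c φ Real.pi = ∮ x in C(exp y, 1 / 16), jN1 a c φ x y / jC c φ x y := by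
  have hcd : ContDiff ℝ 2 (fun θ : ℝ => y + -1 * circleMap 0 (1 / 16) θ) :=
    contDiff_const.add (contDiff_const.mul (contDiff_circleMap _ _))
  have hd : ∀ θ : ℝ, deriv (fun θ : ℝ => y + -1 * circleMap 0 (1 / 16) θ) θ =
      -1 * deriv (circleMap 0 (1 / 16)) θ := by
    intro θ
    have h1 := (((hasDerivAt_circleMap 0 (1 / 16) θ).const_mul (-1)).const_add y).deriv
    rw [h1, (hasDerivAt_circleMap 0 (1 / 16) θ).deriv]
  have h1 := homZ hG hδ (X := fun _ => 1 / 16 + Real.pi * I)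
    (X' := fun θ => y + -1 * circleMap 0 (1 / 16) θ) (Y := circleMap (Real.pi * I) (1 / 4))
    (Y' := fun _ => y) contDiff_const (contDiff_circleMap _ _) hcd contDiff_const rfl (cm_per _ _)
    (by rw [cm_per]) rfl (fun τ hτ θ => OK_x2 hy τ hτ.1 hτ.2 θ)
  have h2 := homX hG hδ (X := fun θ => exp (y + -1 * circleMap 0 (1 / 16) θ))
    (X' := circleMap (exp y) (1 / 16)) (Y := fun _ => y) (Y' := fun _ => y) (exp_cm_contDiff y (-1))
    contDiff_const (contDiff_circleMap _ _) contDiff_const (by rw [cm_per]) rfl (cm_per _ _) rfl (by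
      intro τ hτ θ
      have h2 : (1 - (τ : ℂ)) * y + τ * y = y := by ring
      rw [h2]
      exact OK_x3 hy τ hτ.1 hτ.2 θ)
  simp only [deriv_const, mul_zero, zero_add, add_zero, hd] at h1
  simp only [deriv_const, mul_zero, add_zero, deriv_exp_cm] at h2
  have h0 : E1 b c φ Real.pi = ∫ θ in (0 : ℝ)..(2 * Real.pi),
      QZ b c φ (1 / 16 + Real.pi * I) (circleMap (Real.pi * I) (1 / 4) θ) *
      deriv (circleMap (Real.pi * I) (1 / 4)) θ := rfl
  have h3 : (∫ θ in (0 : ℝ)..(2 * Real.pi), PZ a c φ (y + -1 * circleMap 0 (1 / 16) θ) y *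
      (-1 * deriv (circleMap 0 (1 / 16)) θ)) =
      ∫ θ in (0 : ℝ)..(2 * Real.pi), PX a c φ (exp (y + -1 * circleMap 0 (1 / 16) θ)) y *
      (exp (y + -1 * circleMap 0 (1 / 16) θ) * (-1 * deriv (circleMap 0 (1 / 16)) θ)) := by
    unfold PZ
    refine intervalIntegral.integral_congr fun θ _ => ?_
    ring
  rw [h0, h1, h3, h2]
  unfold circleIntegral PX
  refine intervalIntegral.integral_congr fun θ _ => ?_
  rw [smul_eq_mul, mul_comm]

end

end P5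

namespace P5

/-- the model coefficients -/
noncomputable def tz (z y : ℂ) : ℂ := exp z * g0 (exp z) y / hh (exp z) y
noncomputable def ty (z y : ℂ) : ℂ :=
  -(2 * exp (nu * y) * exp z ^ 2 * (exp z - 1)) / (exp z * hh (exp z) y)

theorem dslope_exp_ne {w v : ℂ} (h : ‖v - w‖ ≤ 5 / 16) : dslope exp w v ≠ 0 := by
  by_cases hvw : v = w
  · rw [hvw, dslope_same, Complex.deriv_exp]
    exact Complex.exp_ne_zero w
  · intro h0
    have h1 := sub_smul_dslope exp w v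
    rw [h0, smul_zero] at h1
    have h2 : exp v - exp w = exp w * (exp (v - w) - 1) := by
      rw [mul_sub, ← Complex.exp_add, mul_one]
      congr 2
      ring
    have h3 : exp (v - w) - 1 ≠ 0 := by
      intro h4
      have h5 := exp_lower' (r := ‖v - w‖) le_rfl h
      rw [h4, norm_zero] at h5
      have h6 : 0 < ‖v - w‖ := norm_pos_iff.2 (sub_ne_zero.2 hvw)
      linarith
    rw [h2] at h1
    exact (mul_ne_zero (Complex.exp_ne_zero w) h3) h1.symm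

theorem diff_dslope_exp (w : ℂ) : Differentiable ℂ (dslope exp w) := by
  rw [← differentiableOn_univ]
  exact (Complex.differentiableOn_dslope univ_mem).2 Complex.differentiable_exp.differentiableOn

theorem L2_eval {p : ℝ} (hp : exp (p * I) = 1) :
    (∫ θ in (0 : ℝ)..(2 * Real.pi), exp (-(nu * (circleMap 0 (1 / 16) θ - 1 / 16))) *
      (tz (circleMap 0 (1 / 16) θ) (p * I + 1 / 4) * deriv (circleMap 0 (1 / 16)) θ)) =
      2 * Real.pi * I * exp (nu / 16) := by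
  have hne : ∀ z ∈ closedBall (0 : ℂ) (1 / 16), exp z - exp (p * I + 1 / 4) ≠ 0 := by
    intro z hz h0
    rw [mem_closedBall, dist_zero_right] at hz
    have h1 : ‖exp z‖ = ‖exp (p * I + 1 / 4)‖ := by rw [sub_eq_zero.1 h0]
    rw [Complex.exp_add, hp, one_mul, Complex.norm_exp, Complex.norm_exp] at h1
    have h2 := Real.exp_injective h1
    have h3 := (abs_le.1 (abs_le_of_norm hz).1).2
    have h4 : ((1 : ℂ) / 4).re = 1 / 4 := by norm_num
    rw [h4] at h2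
    linarith
  have hC := DifferentiableOn.circleIntegral_sub_inv_smul (R := 1 / 16) (c := 0) (w := 0)
    (f := fun z => exp (-(nu * z)) * exp z * (2 * exp (nu * (p * I + 1 / 4)) *
      ((exp z - 1) / (exp z - exp (p * I + 1 / 4))) + 1) * (dslope exp 0 z)⁻¹) (by
      intro z hz
      have h1 : DifferentiableAt ℂ (fun z : ℂ => exp z - exp (p * I + 1 / 4)) z := by fun_prop
      have h2 : DifferentiableAt ℂ (fun z : ℂ => exp z - 1) z := by fun_prop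
      have h3 : DifferentiableAt ℂ (fun z : ℂ => exp (-(nu * z)) * exp z) z := by fun_prop
      have h4 := (h2.fun_div h1 (hne z hz))
      have h5 := (h3.fun_mul ((h4.const_mul (2 * exp (nu * (p * I + 1 / 4)))).add_const 1)).fun_mul
        ((diff_dslope_exp 0 z).fun_inv (dslope_exp_ne (by
          rw [mem_closedBall, dist_zero_right] at hz
          rw [sub_zero]
          linarith)))
      exact h5.differentiableWithinAt) (by simp)
  simp only [mul_zero, neg_zero, Complex.exp_zero, sub_self, zero_div, zero_add, mul_one,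
    dslope_same, Complex.deriv_exp, inv_one, smul_eq_mul] at hC
  have h1 : (∫ θ in (0 : ℝ)..(2 * Real.pi), exp (-(nu * (circleMap 0 (1 / 16) θ - 1 / 16))) *
      (tz (circleMap 0 (1 / 16) θ) (p * I + 1 / 4) * deriv (circleMap 0 (1 / 16)) θ)) =
      ∫ θ in (0 : ℝ)..(2 * Real.pi), (deriv (circleMap 0 (1 / 16)) θ • ((circleMap 0 (1 / 16) θ - 0)⁻¹ *
      (exp (-(nu * circleMap 0 (1 / 16) θ)) * exp (circleMap 0 (1 / 16) θ) *
      (2 * exp (nu * (p * I + 1 / 4)) * ((exp (circleMap 0 (1 / 16) θ) - 1) /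
      (exp (circleMap 0 (1 / 16) θ) - exp (p * I + 1 / 4))) + 1) *
      (dslope exp 0 (circleMap 0 (1 / 16) θ))⁻¹))) * exp (nu / 16) := by
    refine intervalIntegral.integral_congr fun θ _ => ?_
    simp only [smul_eq_mul]
    obtain ⟨w, hw⟩ : ∃ w, w = circleMap 0 (1 / 16) θ := ⟨_, rfl⟩
    rw [← hw]
    have hwn : ‖w‖ = 1 / 16 := by rw [hw, cm16]
    have hw0 : w ≠ 0 := by
      intro h0
      rw [h0, norm_zero] at hwn
      norm_num at hwn
    have hs := sub_smul_dslope exp 0 w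
    rw [sub_zero, smul_eq_mul, Complex.exp_zero] at hs
    have hds : dslope exp 0 w ≠ 0 := dslope_exp_ne (by rw [sub_zero, hwn]; norm_num)
    have hd : exp w - exp (p * I + 1 / 4) ≠ 0 := hne w (by
      rw [mem_closedBall, dist_zero_right, hwn])
    have e1 : exp (-(nu * (w - 1 / 16))) = exp (-(nu * w)) * exp (nu / 16) := by
      rw [← Complex.exp_add]; congr 1; ring
    rw [e1, sub_zero]
    unfold tz g0 hh
    rw [← hs]
    have hnz : w * dslope exp 0 w ≠ 0 := mul_ne_zero hw0 hds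
    generalize exp (p * I + 1 / 4) = Ey at hd
    generalize exp (nu * (p * I + 1 / 4)) = En
    field_simp
  rw [h1, intervalIntegral.integral_mul_const]
  have h2 : (∫ θ in (0 : ℝ)..(2 * Real.pi), (deriv (circleMap 0 (1 / 16)) θ • ((circleMap 0 (1 / 16) θ - 0)⁻¹ *
      (exp (-(nu * circleMap 0 (1 / 16) θ)) * exp (circleMap 0 (1 / 16) θ) *
      (2 * exp (nu * (p * I + 1 / 4)) * ((exp (circleMap 0 (1 / 16) θ) - 1) /
      (exp (circleMap 0 (1 / 16) θ) - exp (p * I + 1 / 4))) + 1) *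
      (dslope exp 0 (circleMap 0 (1 / 16) θ))⁻¹)))) = 2 * Real.pi * I := hC
  rw [h2]

theorem L1_eval {p : ℝ} (hp : exp (p * I) = 1) :
    (∫ ψ in (0 : ℝ)..(2 * Real.pi), ty (1 / 16) (circleMap (p * I) (1 / 4) ψ) *
      deriv (circleMap (p * I) (1 / 4)) ψ) = 2 * Real.pi * I * (2 * exp (nu * (p * I + 1 / 16))) := by
  have hx : exp (p * I + 1 / 16) = exp (1 / 16) := by rw [Complex.exp_add, hp, one_mul]
  have h16 : ‖(1 : ℂ) / 16‖ = 1 / 16 := by norm_num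
  have hC := DifferentiableOn.circleIntegral_sub_inv_smul (R := 1 / 4) (c := p * I)
    (w := p * I + 1 / 16)
    (f := fun y => 2 * exp (nu * y) * exp (1 / 16) * (dslope exp (p * I + 1 / 16) y)⁻¹) (by
      intro y hy
      have h3 : DifferentiableAt ℂ (fun y : ℂ => 2 * exp (nu * y) * exp (1 / 16)) y := by fun_prop
      have h5 := h3.fun_mul ((diff_dslope_exp (p * I + 1 / 16) y).fun_inv (dslope_exp_ne (by
          rw [mem_closedBall, dist_eq_norm] at hy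
          have h6 : y - (p * I + 1 / 16) = (y - p * I) - 1 / 16 := by ring
          rw [h6]
          have h7 := norm_sub_le (y - p * I) (1 / 16)
          rw [h16] at h7
          linarith)))
      exact h5.differentiableWithinAt) (by
        rw [mem_ball, dist_eq_norm, add_sub_cancel_left, h16]
        norm_num)
  rw [smul_eq_mul] at hC
  have h0 : 2 * exp (nu * (p * I + 1 / 16)) * exp (1 / 16) *
      (dslope exp (p * I + 1 / 16) (p * I + 1 / 16))⁻¹ = 2 * exp (nu * (p * I + 1 / 16)) := by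
    rw [dslope_same, Complex.deriv_exp, hx]
    have := Complex.exp_ne_zero (1 / 16)
    field_simp
  rw [h0] at hC
  rw [← hC]
  unfold circleIntegral
  refine intervalIntegral.integral_congr fun θ _ => ?_
  simp only [smul_eq_mul]
  obtain ⟨y, hy⟩ : ∃ y, y = circleMap (p * I) (1 / 4) θ := ⟨_, rfl⟩
  rw [← hy]
  have hyn : ‖y - p * I‖ = 1 / 4 := by rw [hy, norm_cm _ _ _ (by norm_num)]
  have hyy : ‖y - (p * I + 1 / 16)‖ ≤ 5 / 16 := by
    have h6 : y - (p * I + 1 / 16) = (y - p * I) - 1 / 16 := by ring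
    rw [h6]
    have h7 := norm_sub_le (y - p * I) (1 / 16)
    rw [h16] at h7
    linarith
  have hyz : y - (p * I + 1 / 16) ≠ 0 := by
    intro h6
    have h7 : y - p * I = 1 / 16 := by linear_combination h6
    rw [h7, h16] at hyn
    norm_num at hyn
  have hds := dslope_exp_ne hyy
  have hs := sub_smul_dslope exp (p * I + 1 / 16) y
  rw [smul_eq_mul, hx] at hs
  have hne : exp (1 / 16) - exp y ≠ 0 := by
    rw [← neg_sub, ← hs]
    exact neg_ne_zero.2 (mul_ne_zero hyz hds)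
  have hx1 : exp ((1 : ℂ) / 16) - 1 ≠ 0 := by
    intro h6
    have h7 := exp_lower' (u := (1 : ℂ) / 16) (r := 1 / 16) (by rw [h16]) (by rw [h16]; norm_num)
    rw [h6, norm_zero] at h7
    norm_num at h7
  have hx0 := Complex.exp_ne_zero (1 / 16)
  have e1 : ty (1 / 16) y = (y - (p * I + 1 / 16))⁻¹ *
      (2 * exp (nu * y) * exp (1 / 16) * (dslope exp (p * I + 1 / 16) y)⁻¹) := by
    have e2 : exp (1 / 16) - exp y = -((y - (p * I + 1 / 16)) * dslope exp (p * I + 1 / 16) y) := by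
      rw [hs]; ring
    unfold ty hh
    rw [e2]
    field_simp
  rw [e1]
  ring

end P5

namespace P5

theorem OK_torus {p : ℝ} (hp : exp (p * I) = 1) (h0 : 0 ≤ p) (h1 : p ≤ 2 * Real.pi) (θ ψ : ℝ) :
    OK (exp (circleMap 0 (1 / 16) θ)) (circleMap (p * I) (1 / 4) ψ) := by
  have hz := abs_le_of_norm (cm16 θ).le
  have hn : ‖circleMap 0 (1 / 4) ψ‖ = 1 / 4 := by
    rw [norm_circleMap_zero, abs_of_pos (by norm_num)]
  have hy := abs_le_of_norm hn.le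
  have hc : circleMap (p * I) (1 / 4) ψ = p * I + circleMap 0 (1 / 4) ψ := by simp [circleMap]
  have hyre : (p * I + circleMap 0 (1 / 4) ψ).re = (circleMap 0 (1 / 4) ψ).re := by simp
  have hyim : (p * I + circleMap 0 (1 / 4) ψ).im = p + (circleMap 0 (1 / 4) ψ).im := by simp
  rw [hc]
  refine OK_of (A := 15 / 256) (B := 11 / 16 * (3 / 16)) (by linarith [hz.1]) ?_ ?_ ?_ (by norm_num)
    (cm16_lower θ) (by norm_num) ?_ (by norm_num)
  · rw [hyre]; linarith [hy.1]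
  · rw [hyim]; linarith [(abs_le.1 hy.2).1]
  · rw [hyim]; linarith [(abs_le.1 hy.2).2]
  · have h4 : circleMap 0 (1 / 16) θ - (p * I + circleMap 0 (1 / 4) ψ) =
        (circleMap 0 (1 / 16) θ - circleMap 0 (1 / 4) ψ) - p * I := by ring
    rw [h4, Complex.exp_sub, hp, div_one]
    apply exp_lower'
    · have h5 := norm_sub_norm_le (circleMap 0 (1 / 4) ψ) (circleMap 0 (1 / 16) θ)
      rw [norm_sub_rev, hn, cm16] at h5
      linarith
    · have h5 := norm_sub_le (circleMap 0 (1 / 16) θ) (circleMap 0 (1 / 4) ψ)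
      rw [hn, cm16] at h5
      linarith

theorem deriv_cm_norm (c : ℂ) (R θ : ℝ) (hR : 0 ≤ R) : ‖deriv (circleMap c R) θ‖ = R := by
  rw [deriv_circleMap, norm_mul, norm_circleMap_zero, Complex.norm_I, mul_one, abs_of_nonneg hR]

theorem cont_deriv_cm (c : ℂ) (R : ℝ) : Continuous (fun θ => deriv (circleMap c R) θ) := by
  have h : (fun θ => deriv (circleMap c R) θ) = fun θ => circleMap 0 R θ * I := by
    funext θ; rw [deriv_circleMap]
  rw [h]
  exact (continuous_circleMap 0 R).mul continuous_const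

theorem int_bound {f : ℝ → ℂ} {B : ℝ} {T : ℝ} (hT0 : 0 ≤ T) (hT : T ≤ 2 * Real.pi) (hB : 0 ≤ B)
    (h : ∀ θ, ‖f θ‖ ≤ B) : ‖∫ θ in (0 : ℝ)..T, f θ‖ ≤ 7 * B := by
  have h1 := intervalIntegral.norm_integral_le_of_norm_le_const (a := 0) (b := T) (f := f) (C := B)
    (fun θ _ => h θ)
  rw [sub_zero, abs_of_nonneg hT0] at h1
  have := Real.pi_lt_d2
  nlinarith

section
variable {a b c : ℂ → ℂ → ℂ → ℂ} {φ : ℂ → ℂ → ℂ} {δ : ℝ}

theorem tz_bound {z y : ℂ} (h : OK (exp z) y) : ‖tz z y‖ ≤ 27600 := by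
  obtain ⟨h1, hm⟩ := h
  obtain ⟨e1, e2, e3, e4⟩ := g0_est h1
  have hx := h1.1
  have hhn : 1 / 600 ≤ ‖hh (exp z) y‖ := by
    rw [norm_mul] at hm
    have := norm_nonneg (hh (exp z) y)
    nlinarith
  unfold tz
  have h2 := div_bound (N := exp z * g0 (exp z) y) (B := 2 * 23) hhn (by
    rw [norm_mul]
    exact mul_le_mul hx e2 (norm_nonneg _) (by norm_num))
  linarith

theorem ty_bound {z y : ℂ} (h : OK (exp z) y) : ‖ty z y‖ ≤ 43200 := by
  obtain ⟨h1, hm⟩ := h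
  obtain ⟨e1, e2, e3, e4⟩ := g0_est h1
  have hx := h1.1
  unfold ty
  have h2 := div_bound (N := -(2 * exp (nu * y) * exp z ^ 2 * (exp z - 1))) (B := 2 * 3 * 2 ^ 2 * 3)
    (C := exp z * hh (exp z) y) (by linarith) (by
      rw [norm_neg, norm_mul, norm_mul, norm_mul, norm_pow, Complex.norm_two]
      have := norm_nonneg (exp z)
      gcongr)
  linarith

/-- the forms on good points, in the variables `z`, `y` -/
theorem formsZ (hG : Good a b c φ δ) (hδ : 30000000 * δ ≤ 1 / 10 ^ 7) {z y : ℂ} (h : OK (exp z) y) :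
    ‖PZ a c φ z y - nu‖ ≤ 1 / 10 ^ 7 ∧ ‖QZ b c φ z y‖ ≤ 1 / 10 ^ 7 ∧
    ‖pZ a c φ z y - tz z y‖ ≤ 1 / 10 ^ 7 ∧ ‖qZ b c φ z y - ty z y‖ ≤ 1 / 10 ^ 7 := by
  obtain ⟨-, h1, h2, h3, h4⟩ := forms hG (by linarith) h.1 h.2
  exact ⟨h1.trans hδ, h2.trans hδ, h3.trans hδ, h4.trans hδ⟩

theorem delta_le (hδ : 30000000 * δ ≤ 1 / 10 ^ 7) : δ ≤ 1 / 600 := by linarith

theorem exp_near {u : ℂ} {r : ℝ} (h : ‖u‖ ≤ r) (hr : r ≤ 1) : ‖exp (-u) - 1‖ ≤ 2 * r := by
  have h1 := exp_upper (u := -u) (by rw [norm_neg]; linarith)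
  rw [norm_neg] at h1
  nlinarith [norm_nonneg u]

theorem cont_PZ (hG : Good a b c φ δ) (hδ : δ ≤ 1 / 600) {y : ℂ}
    (h : ∀ θ, OK (exp (circleMap 0 (1 / 16) θ)) y) :
    Continuous fun θ => PZ a c φ (circleMap 0 (1 / 16) θ) y := by
  have h1 := cont_comp (hol_PZ (a := a) hG.near.ha hG.near.hc hG.leaf.hol) (X := circleMap 0 (1 / 16))
    (Y := fun _ => y) (continuous_circleMap _ _) continuous_const
    (fun θ _ => (h θ).mem hG hδ)
  have h2 : Continuous fun θ : ℝ => ((θ, 0) : ℝ × ℝ) := by fun_prop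
  have h3 := h1.comp h2
  exact h3

theorem cont_pZ (hG : Good a b c φ δ) (hδ : δ ≤ 1 / 600) {y : ℂ}
    (h : ∀ θ, OK (exp (circleMap 0 (1 / 16) θ)) y) :
    Continuous fun θ => pZ a c φ (circleMap 0 (1 / 16) θ) y := by
  have h1 := cont_comp (hol_pZ (a := a) hG.near.ha hG.near.hc hG.leaf.hol) (X := circleMap 0 (1 / 16))
    (Y := fun _ => y) (continuous_circleMap _ _) continuous_const
    (fun θ _ => (h θ).mem hG hδ)
  have h2 : Continuous fun θ : ℝ => ((θ, 0) : ℝ × ℝ) := by fun_prop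
  have h3 := h1.comp h2
  exact h3

theorem cont_QZ (hG : Good a b c φ δ) (hδ : δ ≤ 1 / 600) {z : ℂ} {Y : ℝ → ℂ} (hY : Continuous Y)
    (h : ∀ ψ, OK (exp z) (Y ψ)) : Continuous fun ψ => QZ b c φ z (Y ψ) := by
  have h1 := cont_comp (hol_QZ (b := b) hG.near.hb hG.near.hc hG.leaf.hol) (X := fun _ => z)
    (Y := Y) continuous_const hY (fun _ ψ => (h ψ).mem hG hδ)
  have h2 : Continuous fun θ : ℝ => ((0, θ) : ℝ × ℝ) := by fun_prop
  have h3 := h1.comp h2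
  exact h3

theorem cont_qZ (hG : Good a b c φ δ) (hδ : δ ≤ 1 / 600) {z : ℂ} {Y : ℝ → ℂ} (hY : Continuous Y)
    (h : ∀ ψ, OK (exp z) (Y ψ)) : Continuous fun ψ => qZ b c φ z (Y ψ) := by
  have h1 := cont_comp (hol_qZ (b := b) hG.near.hb hG.near.hc hG.leaf.hol) (X := fun _ => z)
    (Y := Y) continuous_const hY (fun _ ψ => (h ψ).mem hG hδ)
  have h2 : Continuous fun θ : ℝ => ((0, θ) : ℝ × ℝ) := by fun_prop
  have h3 := h1.comp h2
  exact h3

theorem cont_tz {y : ℂ} (h : ∀ θ, OK (exp (circleMap 0 (1 / 16) θ)) y) :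
    Continuous fun θ => tz (circleMap 0 (1 / 16) θ) y := by
  have hc : Continuous fun θ : ℝ => exp (circleMap 0 (1 / 16) θ) :=
    (continuous_circleMap 0 (1 / 16)).cexp
  have hden : Continuous fun θ : ℝ => hh (exp (circleMap 0 (1 / 16) θ)) y := by
    unfold hh
    exact (hc.sub continuous_const).mul (hc.sub continuous_const)
  have hg : Continuous fun θ : ℝ => g0 (exp (circleMap 0 (1 / 16) θ)) y := by
    unfold g0
    exact (continuous_const.mul (hc.sub continuous_const)).add (hc.sub continuous_const)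
  unfold tz
  refine Continuous.div (hc.mul hg) hden ?_
  intro θ h0
  have h1 := (h θ).2
  rw [norm_mul, h0, norm_zero, mul_zero] at h1
  norm_num at h1

theorem cont_ty {z : ℂ} {Y : ℝ → ℂ} (hY : Continuous Y) (h : ∀ ψ, OK (exp z) (Y ψ)) :
    Continuous fun ψ => ty z (Y ψ) := by
  have hden : Continuous fun ψ : ℝ => exp z * hh (exp z) (Y ψ) := by
    unfold hh
    exact continuous_const.mul (continuous_const.mul (continuous_const.sub hY.cexp))
  have hnum : Continuous fun ψ : ℝ => -(2 * exp (nu * Y ψ) * exp z ^ 2 * (exp z - 1)) :=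
    (((continuous_const.mul (continuous_const.mul hY).cexp).mul continuous_const).mul
      continuous_const).neg
  unfold ty
  refine Continuous.div hnum hden ?_
  intro ψ h0
  have h1 := (h ψ).2
  rw [h0, norm_zero] at h1
  norm_num at h1

/-- the primitive along the `z`-loop -/
theorem W_est (hG : Good a b c φ δ) (hδ : 30000000 * δ ≤ 1 / 10 ^ 7) {y : ℂ}
    (h : ∀ θ, OK (exp (circleMap 0 (1 / 16) θ)) y) {T : ℝ} (h0 : 0 ≤ T) (h1 : T ≤ 2 * Real.pi) :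
    ‖(∫ t in (0 : ℝ)..T, PZ a c φ (circleMap 0 (1 / 16) t) y * deriv (circleMap 0 (1 / 16)) t) -
      nu * (circleMap 0 (1 / 16) T - 1 / 16)‖ ≤ 1 / 10 ^ 7 := by
  have hc := cont_PZ hG (delta_le hδ) h
  have e1 : nu * (circleMap 0 (1 / 16) T - 1 / 16) =
      ∫ t in (0 : ℝ)..T, nu * deriv (circleMap 0 (1 / 16)) t := by
    rw [intervalIntegral.integral_const_mul]
    congr 1
    rw [intervalIntegral.integral_deriv_eq_sub (fun t _ => (differentiable_circleMap 0 (1 / 16)) t)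
      ((cont_deriv_cm 0 (1 / 16)).intervalIntegrable _ _)]
    have e2 : circleMap 0 (1 / 16) 0 = 1 / 16 := by simp [circleMap]
    rw [e2]
  have i1 : IntervalIntegrable (fun t => PZ a c φ (circleMap 0 (1 / 16) t) y *
      deriv (circleMap 0 (1 / 16)) t) MeasureTheory.volume 0 T :=
    (hc.mul (cont_deriv_cm 0 (1 / 16))).intervalIntegrable _ _
  have i2 : IntervalIntegrable (fun t => nu * deriv (circleMap 0 (1 / 16)) t)
      MeasureTheory.volume 0 T :=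
    (continuous_const.mul (cont_deriv_cm 0 (1 / 16))).intervalIntegrable _ _
  rw [e1, ← intervalIntegral.integral_sub i1 i2]
  have h2 := int_bound (f := fun t => PZ a c φ (circleMap 0 (1 / 16) t) y *
    deriv (circleMap 0 (1 / 16)) t - nu * deriv (circleMap 0 (1 / 16)) t) (B := 1 / 10 ^ 7 * (1 / 16))
    h0 h1 (by norm_num) (by
      intro t
      rw [← sub_mul, norm_mul, deriv_cm_norm _ _ _ (by norm_num)]
      exact mul_le_mul_of_nonneg_right (formsZ hG hδ (h t)).1 (by norm_num))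
  refine h2.trans ?_
  norm_num

theorem V_est (hG : Good a b c φ δ) (hδ : 30000000 * δ ≤ 1 / 10 ^ 7) {z : ℂ} {w : ℂ}
    (h : ∀ ψ, OK (exp z) (circleMap w (1 / 4) ψ)) {T : ℝ} (h0 : 0 ≤ T) (h1 : T ≤ 2 * Real.pi) :
    ‖∫ t in (0 : ℝ)..T, QZ b c φ z (circleMap w (1 / 4) t) * deriv (circleMap w (1 / 4)) t‖ ≤
      2 / 10 ^ 7 := by
  have h2 := int_bound (f := fun t => QZ b c φ z (circleMap w (1 / 4) t) *
    deriv (circleMap w (1 / 4)) t) (B := 1 / 10 ^ 7 * (1 / 4))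
    h0 h1 (by norm_num) (by
      intro t
      rw [norm_mul, deriv_cm_norm _ _ _ (by norm_num)]
      exact mul_le_mul_of_nonneg_right (formsZ hG hδ (h t)).2.1 (by norm_num))
  refine h2.trans ?_
  norm_num

theorem P2_est (hG : Good a b c φ δ) (hδ : 30000000 * δ ≤ 1 / 10 ^ 7) {y : ℂ}
    (h : ∀ θ, OK (exp (circleMap 0 (1 / 16) θ)) y) :
    ‖(∫ θ in (0 : ℝ)..(2 * Real.pi), exp (-∫ t in (0 : ℝ)..θ, PZ a c φ (circleMap 0 (1 / 16) t) y *
      deriv (circleMap 0 (1 / 16)) t) * (pZ a c φ (circleMap 0 (1 / 16) θ) y *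
      deriv (circleMap 0 (1 / 16)) θ)) -
      ∫ θ in (0 : ℝ)..(2 * Real.pi), exp (-(nu * (circleMap 0 (1 / 16) θ - 1 / 16))) *
      (tz (circleMap 0 (1 / 16) θ) y * deriv (circleMap 0 (1 / 16)) θ)‖ ≤ 1 / 10 := by
  have c1 := cont_PZ hG (delta_le hδ) h
  have c2 := cont_pZ hG (delta_le hδ) h
  have c3 := cont_tz h
  have c4 := cont_deriv_cm 0 (1 / 16)
  have c5 := continuous_circleMap 0 (1 / 16)
  have c6 : Continuous fun θ : ℝ => ∫ t in (0 : ℝ)..θ, PZ a c φ (circleMap 0 (1 / 16) t) y *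
      deriv (circleMap 0 (1 / 16)) t :=
    intervalIntegral.continuous_primitive (fun u v => (c1.mul c4).intervalIntegrable u v) 0
  have i1 : IntervalIntegrable (fun θ => exp (-∫ t in (0 : ℝ)..θ,
      PZ a c φ (circleMap 0 (1 / 16) t) y * deriv (circleMap 0 (1 / 16)) t) *
      (pZ a c φ (circleMap 0 (1 / 16) θ) y * deriv (circleMap 0 (1 / 16)) θ))
      MeasureTheory.volume 0 (2 * Real.pi) :=
    (c6.neg.cexp.mul (c2.mul c4)).intervalIntegrable _ _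
  have i2 : IntervalIntegrable (fun θ => exp (-(nu * (circleMap 0 (1 / 16) θ - 1 / 16))) *
      (tz (circleMap 0 (1 / 16) θ) y * deriv (circleMap 0 (1 / 16)) θ))
      MeasureTheory.volume 0 (2 * Real.pi) :=
    (((continuous_const.mul (c5.sub continuous_const)).neg.cexp).mul
      (c3.mul c4)).intervalIntegrable _ _
  rw [← intervalIntegral.integral_sub i1 i2]
  have h2 := intervalIntegral.norm_integral_le_of_norm_le_const (a := 0) (b := 2 * Real.pi)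
    (f := fun θ => exp (-∫ t in (0 : ℝ)..θ, PZ a c φ (circleMap 0 (1 / 16) t) y *
      deriv (circleMap 0 (1 / 16)) t) * (pZ a c φ (circleMap 0 (1 / 16) θ) y *
      deriv (circleMap 0 (1 / 16)) θ) - exp (-(nu * (circleMap 0 (1 / 16) θ - 1 / 16))) *
      (tz (circleMap 0 (1 / 16) θ) y * deriv (circleMap 0 (1 / 16)) θ)) (C := 1 / 80) (by
      intro θ hθ
      rw [uIoc_of_le (by positivity)] at hθ
      have hW := W_est hG hδ h hθ.1.le hθ.2
      obtain ⟨W, hWe⟩ : ∃ W, W = ∫ t in (0 : ℝ)..θ, PZ a c φ (circleMap 0 (1 / 16) t) y *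
        deriv (circleMap 0 (1 / 16)) t := ⟨_, rfl⟩
      rw [← hWe] at hW ⊢
      obtain ⟨w, hw⟩ : ∃ w, w = circleMap 0 (1 / 16) θ := ⟨_, rfl⟩
      have hf := (formsZ hG hδ (h θ)).2.2.1
      have ht := tz_bound (h θ)
      have hwn : ‖w‖ = 1 / 16 := by rw [hw, cm16]
      rw [← hw] at hW hf ht ⊢
      obtain ⟨p, hp⟩ : ∃ p, p = pZ a c φ w y := ⟨_, rfl⟩
      obtain ⟨t, hte⟩ : ∃ t, t = tz w y := ⟨_, rfl⟩
      rw [← hp, ← hte] at hf
      rw [← hte] at ht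
      rw [← hp, ← hte]
      have e1 : exp (-W) = exp (-(nu * (w - 1 / 16))) * exp (-(W - nu * (w - 1 / 16))) := by
        rw [← Complex.exp_add]; congr 1; ring
      have e2 : exp (-W) * (p * deriv (circleMap 0 (1 / 16)) θ) - exp (-(nu * (w - 1 / 16))) *
          (t * deriv (circleMap 0 (1 / 16)) θ) = exp (-(nu * (w - 1 / 16))) *
          ((exp (-(W - nu * (w - 1 / 16))) - 1) * t + exp (-(W - nu * (w - 1 / 16))) * (p - t)) *
          deriv (circleMap 0 (1 / 16)) θ := by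
        rw [e1]; ring
      rw [e2, norm_mul, norm_mul, deriv_cm_norm _ _ _ (by norm_num)]
      have n1 : ‖exp (-(nu * (w - 1 / 16)))‖ ≤ 2 := by
        have h16 : ‖(1 : ℂ) / 16‖ = 1 / 16 := by norm_num
        have g1 : ‖nu * (w - 1 / 16)‖ ≤ 1 / 4 := by
          rw [norm_mul]
          have g2 := norm_sub_le w (1 / 16)
          rw [hwn, h16] at g2
          have g3 := nu_norm
          have := norm_nonneg (w - 1 / 16)
          nlinarith [norm_nonneg nu]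
        have g4 := exp_near g1 (by norm_num)
        have g5 := norm_add_le (exp (-(nu * (w - 1 / 16))) - 1) 1
        rw [sub_add_cancel, norm_one] at g5
        linarith
      have n2 := exp_near hW (by norm_num)
      have n3 : ‖exp (-(W - nu * (w - 1 / 16)))‖ ≤ 2 := by
        have g5 := norm_add_le (exp (-(W - nu * (w - 1 / 16))) - 1) 1
        rw [sub_add_cancel, norm_one] at g5
        linarith
      have n4 : ‖(exp (-(W - nu * (w - 1 / 16))) - 1) * t + exp (-(W - nu * (w - 1 / 16))) * (p - t)‖ ≤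
          2 * (1 / 10 ^ 7) * 27600 + 2 * (1 / 10 ^ 7) := by
        refine (norm_add_le _ _).trans ?_
        rw [norm_mul, norm_mul]
        exact add_le_add (mul_le_mul n2 ht (norm_nonneg _) (by norm_num))
          (mul_le_mul n3 hf (norm_nonneg _) (by norm_num))
      have n5 := mul_le_mul n1 n4 (norm_nonneg _) (by norm_num)
      refine (mul_le_mul_of_nonneg_right n5 (by norm_num)).trans ?_
      norm_num)
  refine h2.trans ?_
  rw [sub_zero, abs_of_nonneg (by positivity)]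
  have := Real.pi_lt_d2
  linarith

theorem P1_est (hG : Good a b c φ δ) (hδ : 30000000 * δ ≤ 1 / 10 ^ 7) {z : ℂ} {w : ℂ}
    (h : ∀ ψ, OK (exp z) (circleMap w (1 / 4) ψ)) :
    ‖(∫ ψ in (0 : ℝ)..(2 * Real.pi), exp (-∫ t in (0 : ℝ)..ψ, QZ b c φ z (circleMap w (1 / 4) t) *
      deriv (circleMap w (1 / 4)) t) * (qZ b c φ z (circleMap w (1 / 4) ψ) *
      deriv (circleMap w (1 / 4)) ψ)) -
      ∫ ψ in (0 : ℝ)..(2 * Real.pi), ty z (circleMap w (1 / 4) ψ) *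
        deriv (circleMap w (1 / 4)) ψ‖ ≤ 1 / 10 := by
  have c5 := continuous_circleMap w (1 / 4)
  have c1 := cont_QZ hG (delta_le hδ) c5 h
  have c2 := cont_qZ hG (delta_le hδ) c5 h
  have c3 := cont_ty c5 h
  have c4 := cont_deriv_cm w (1 / 4)
  have c6 : Continuous fun ψ : ℝ => ∫ t in (0 : ℝ)..ψ, QZ b c φ z (circleMap w (1 / 4) t) *
      deriv (circleMap w (1 / 4)) t :=
    intervalIntegral.continuous_primitive (fun u v => (c1.mul c4).intervalIntegrable u v) 0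
  have i1 : IntervalIntegrable (fun ψ => exp (-∫ t in (0 : ℝ)..ψ,
      QZ b c φ z (circleMap w (1 / 4) t) * deriv (circleMap w (1 / 4)) t) *
      (qZ b c φ z (circleMap w (1 / 4) ψ) * deriv (circleMap w (1 / 4)) ψ))
      MeasureTheory.volume 0 (2 * Real.pi) :=
    (c6.neg.cexp.mul (c2.mul c4)).intervalIntegrable _ _
  have i2 : IntervalIntegrable (fun ψ => ty z (circleMap w (1 / 4) ψ) *
      deriv (circleMap w (1 / 4)) ψ) MeasureTheory.volume 0 (2 * Real.pi) :=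
    (c3.mul c4).intervalIntegrable _ _
  rw [← intervalIntegral.integral_sub i1 i2]
  have h2 := intervalIntegral.norm_integral_le_of_norm_le_const (a := 0) (b := 2 * Real.pi)
    (f := fun ψ => exp (-∫ t in (0 : ℝ)..ψ, QZ b c φ z (circleMap w (1 / 4) t) *
      deriv (circleMap w (1 / 4)) t) * (qZ b c φ z (circleMap w (1 / 4) ψ) *
      deriv (circleMap w (1 / 4)) ψ) - ty z (circleMap w (1 / 4) ψ) *
        deriv (circleMap w (1 / 4)) ψ) (C := 1 / 80) (by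
      intro ψ hψ
      rw [uIoc_of_le (by positivity)] at hψ
      have hV := V_est hG hδ h hψ.1.le hψ.2
      obtain ⟨V, hVe⟩ : ∃ V, V = ∫ t in (0 : ℝ)..ψ, QZ b c φ z (circleMap w (1 / 4) t) *
        deriv (circleMap w (1 / 4)) t := ⟨_, rfl⟩
      rw [← hVe] at hV ⊢
      have hf := (formsZ hG hδ (h ψ)).2.2.2
      have ht := ty_bound (h ψ)
      obtain ⟨q, hq⟩ : ∃ q, q = qZ b c φ z (circleMap w (1 / 4) ψ) := ⟨_, rfl⟩
      obtain ⟨t, hte⟩ : ∃ t, t = ty z (circleMap w (1 / 4) ψ) := ⟨_, rfl⟩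
      rw [← hq, ← hte] at hf
      rw [← hte] at ht
      rw [← hq, ← hte]
      have e2 : exp (-V) * (q * deriv (circleMap w (1 / 4)) ψ) - t * deriv (circleMap w (1 / 4)) ψ =
          ((exp (-V) - 1) * t + exp (-V) * (q - t)) * deriv (circleMap w (1 / 4)) ψ := by
        ring
      rw [e2, norm_mul, deriv_cm_norm _ _ _ (by norm_num)]
      have n2 := exp_near hV (by norm_num)
      have n3 : ‖exp (-V)‖ ≤ 2 := by
        have g5 := norm_add_le (exp (-V) - 1) 1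
        rw [sub_add_cancel, norm_one] at g5
        linarith
      have n4 : ‖(exp (-V) - 1) * t + exp (-V) * (q - t)‖ ≤
          2 * (2 / 10 ^ 7) * 43200 + 2 * (1 / 10 ^ 7) := by
        refine (norm_add_le _ _).trans ?_
        rw [norm_mul, norm_mul]
        exact add_le_add (mul_le_mul n2 ht (norm_nonneg _) (by norm_num))
          (mul_le_mul n3 hf (norm_nonneg _) (by norm_num))
      refine (mul_le_mul_of_nonneg_right n4 (by norm_num)).trans ?_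
      norm_num)
  refine h2.trans ?_
  rw [sub_zero, abs_of_nonneg (by positivity)]
  have := Real.pi_lt_d2
  linarith

end

end P5

namespace P5

theorem zero_of_exp {u : ℂ} (h : ‖u‖ ≤ 1 / 2) (he : exp (-u) - 1 = 0) : u = 0 := by
  have h1 := exp_lower (u := -u) (by rw [norm_neg]; linarith)
  rw [he, norm_zero, norm_neg] at h1
  have h2 := norm_nonneg u
  have h3 : ‖u‖ = 0 := by nlinarith
  exact norm_eq_zero.1 h3

/-- the two integrals in the torus relation -/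
noncomputable def A2 (a c : ℂ → ℂ → ℂ → ℂ) (φ : ℂ → ℂ → ℂ) (p : ℝ) : ℂ :=
  ∫ θ in (0 : ℝ)..(2 * Real.pi), exp (-∫ t in (0 : ℝ)..θ,
    PZ a c φ (circleMap 0 (1 / 16) t) (p * I + 1 / 4) * deriv (circleMap 0 (1 / 16)) t) *
      (pZ a c φ (circleMap 0 (1 / 16) θ) (p * I + 1 / 4) * deriv (circleMap 0 (1 / 16)) θ)

noncomputable def A1 (b c : ℂ → ℂ → ℂ → ℂ) (φ : ℂ → ℂ → ℂ) (p : ℝ) : ℂ :=
  ∫ ψ in (0 : ℝ)..(2 * Real.pi), exp (-∫ t in (0 : ℝ)..ψ,
    QZ b c φ (1 / 16) (circleMap (p * I) (1 / 4) t) * deriv (circleMap (p * I) (1 / 4)) t) *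
      (qZ b c φ (1 / 16) (circleMap (p * I) (1 / 4) ψ) * deriv (circleMap (p * I) (1 / 4)) ψ)

theorem cm_zero16 : circleMap 0 (1 / 16) 0 = 1 / 16 := by simp [circleMap]

theorem cm_zero4 (p : ℝ) : circleMap (p * I) (1 / 4) 0 = p * I + 1 / 4 := by simp [circleMap]

section
variable {a b c : ℂ → ℂ → ℂ → ℂ} {φ : ℂ → ℂ → ℂ} {δ : ℝ}

theorem OK_a {p : ℝ} (hp : exp (p * I) = 1) (h0 : 0 ≤ p) (h1 : p ≤ 2 * Real.pi) (θ : ℝ) :
    OK (exp (circleMap 0 (1 / 16) θ)) (p * I + 1 / 4) := by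
  have h := OK_torus hp h0 h1 θ 0
  rwa [cm_zero4] at h

theorem OK_b {p : ℝ} (hp : exp (p * I) = 1) (h0 : 0 ≤ p) (h1 : p ≤ 2 * Real.pi) (ψ : ℝ) :
    OK (exp (1 / 16)) (circleMap (p * I) (1 / 4) ψ) := by
  have h := OK_torus hp h0 h1 0 ψ
  rwa [cm_zero16] at h

theorem QZ_shift {p : ℝ} (hp : exp (p * I) = 1) (y : ℂ) :
    QZ b c φ (1 / 16 + p * I) y = QZ b c φ (1 / 16) y := by
  unfold QZ
  rw [Complex.exp_add, hp, mul_one]

theorem torus_at (hG : Good a b c φ δ) (hδ : δ ≤ 1 / 600) {p : ℝ} (hp : exp (p * I) = 1)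
    (h0 : 0 ≤ p) (h1 : p ≤ 2 * Real.pi) :
    (exp (-E1 b c φ p) - 1) * A2 a c φ p = (exp (-E2 a c φ (p * I + 1 / 4)) - 1) * A1 b c φ p := by
  have ha := hG.near.ha
  have hb := hG.near.hb
  have hc := hG.near.hc
  have hφ := hG.leaf.hol
  have h := torus (isOpen_Uz hc hφ) (hol_PZ (a := a) ha hc hφ) (hol_QZ (b := b) hb hc hφ)
    (hol_pZ (a := a) ha hc hφ) (hol_qZ (b := b) hb hc hφ)
    (closedZ ha hb hc hG.int hφ hG.leaf.ex hG.leaf.ey)
    (closedZ2 ha hb hc hG.int hφ hG.leaf.ex hG.leaf.ey)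
    (X := circleMap 0 (1 / 16)) (Y := circleMap (p * I) (1 / 4))
    (X' := deriv (circleMap 0 (1 / 16))) (Y' := deriv (circleMap (p * I) (1 / 4)))
    (fun θ => ((differentiable_circleMap 0 (1 / 16)) θ).hasDerivAt)
    (fun θ => ((differentiable_circleMap (p * I) (1 / 4)) θ).hasDerivAt)
    (cont_deriv_cm _ _) (cont_deriv_cm _ _) (cm_per _ _) (cm_per _ _)
    (fun θ ψ => (OK_torus hp h0 h1 θ ψ).mem hG hδ)
  rw [cm_zero16, cm_zero4] at h
  have hE : E1 b c φ p = ∫ t in (0 : ℝ)..(2 * Real.pi),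
      QZ b c φ (1 / 16) (circleMap (p * I) (1 / 4) t) * deriv (circleMap (p * I) (1 / 4)) t := by
    unfold E1
    congr 1
    funext t
    rw [QZ_shift hp]
  rw [hE]
  exact h

theorem A2_est (hG : Good a b c φ δ) (hδ : 30000000 * δ ≤ 1 / 10 ^ 7) {p : ℝ}
    (hp : exp (p * I) = 1) (h0 : 0 ≤ p) (h1 : p ≤ 2 * Real.pi) :
    ‖A2 a c φ p - 2 * Real.pi * I * exp (nu / 16)‖ ≤ 1 / 10 := by
  have h := P2_est hG hδ (fun θ => OK_a hp h0 h1 θ)
  rw [L2_eval hp] at h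
  exact h

theorem A1_est (hG : Good a b c φ δ) (hδ : 30000000 * δ ≤ 1 / 10 ^ 7) {p : ℝ}
    (hp : exp (p * I) = 1) (h0 : 0 ≤ p) (h1 : p ≤ 2 * Real.pi) :
    ‖A1 b c φ p - 2 * Real.pi * I * (2 * exp (nu * (p * I + 1 / 16)))‖ ≤ 1 / 10 := by
  have h := P1_est hG hδ (fun ψ => OK_b hp h0 h1 ψ)
  rw [L1_eval hp] at h
  exact h

theorem E1_small (hG : Good a b c φ δ) (hδ : 30000000 * δ ≤ 1 / 10 ^ 7) : ‖E1 b c φ 0‖ ≤ 1 / 2 := by
  have hp : exp (((0 : ℝ) : ℂ) * I) = 1 := by simp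
  have hpi := Real.pi_pos
  have h := V_est hG hδ (T := 2 * Real.pi) (fun ψ => OK_b hp le_rfl (by positivity) ψ) (by positivity)
    le_rfl
  have hE : E1 b c φ 0 = ∫ t in (0 : ℝ)..(2 * Real.pi),
      QZ b c φ (1 / 16) (circleMap ((0 : ℝ) * I) (1 / 4) t) *
        deriv (circleMap ((0 : ℝ) * I) (1 / 4)) t := by
    unfold E1
    congr 1
    funext t
    rw [QZ_shift hp]
  rw [hE]
  refine h.trans ?_
  norm_num

theorem E2_small (hG : Good a b c φ δ) (hδ : 30000000 * δ ≤ 1 / 10 ^ 7) :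
    ‖E2 a c φ (1 / 4)‖ ≤ 1 / 2 := by
  have hpi := Real.pi_pos
  have h := W_est hG hδ (T := 2 * Real.pi) (fun θ => OK_vert θ 0 le_rfl (by positivity))
    (by positivity) le_rfl
  rw [cm_per, cm_zero16, sub_self, mul_zero, sub_zero] at h
  have h3 : (1 : ℂ) / 4 + (0 : ℝ) * I = 1 / 4 := by simp
  rw [h3] at h
  refine h.trans ?_
  norm_num

/-- the algebra at the end -/
theorem det_ne {α L x1 x2 x3 x4 : ℂ} (hα : 6 ≤ ‖α‖) (hL : ‖L‖ ≤ 1 / 2)
    (h1 : ‖x1 - α‖ ≤ 1 / 10) (h2 : ‖x2 - α‖ ≤ 1 / 10) (h3 : ‖x3 - 2 * α‖ ≤ 1 / 10)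
    (h4 : ‖x4 - 2 * α * L‖ ≤ 1 / 10) : x1 * x4 - x2 * x3 ≠ 0 := by
  intro h0
  obtain ⟨e1, he1⟩ : ∃ e, e = x1 - α := ⟨_, rfl⟩
  obtain ⟨e2, he2⟩ : ∃ e, e = x2 - α := ⟨_, rfl⟩
  obtain ⟨e3, he3⟩ : ∃ e, e = x3 - 2 * α := ⟨_, rfl⟩
  obtain ⟨e4, he4⟩ : ∃ e, e = x4 - 2 * α * L := ⟨_, rfl⟩
  rw [← he1] at h1
  rw [← he2] at h2
  rw [← he3] at h3
  rw [← he4] at h4
  have hx1 : x1 = α + e1 := by rw [he1]; ring
  have hx2 : x2 = α + e2 := by rw [he2]; ring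
  have hx3 : x3 = 2 * α + e3 := by rw [he3]; ring
  have hx4 : x4 = 2 * α * L + e4 := by rw [he4]; ring
  have h5 : 2 * α ^ 2 * (1 - L) = α * (e4 - e3 - 2 * e2 + 2 * L * e1) + (e1 * e4 - e2 * e3) := by
    have h6 : x1 * x4 - x2 * x3 = -(2 * α ^ 2 * (1 - L)) +
        (α * (e4 - e3 - 2 * e2 + 2 * L * e1) + (e1 * e4 - e2 * e3)) := by
      rw [hx1, hx2, hx3, hx4]; ring
    rw [h0] at h6
    linear_combination h6
  have h7 : 1 / 2 ≤ ‖1 - L‖ := by
    have := norm_sub_norm_le (1 : ℂ) L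
    rw [norm_one] at this
    linarith
  have h8 : ‖2 * α ^ 2 * (1 - L)‖ = 2 * ‖α‖ ^ 2 * ‖1 - L‖ := by
    rw [norm_mul, norm_mul, norm_pow, Complex.norm_two]
  have h9 : ‖α * (e4 - e3 - 2 * e2 + 2 * L * e1) + (e1 * e4 - e2 * e3)‖ ≤
      ‖α‖ * (1 / 10 + 1 / 10 + 2 * (1 / 10) + 2 * (1 / 2) * (1 / 10)) +
        (1 / 10 * (1 / 10) + 1 / 10 * (1 / 10)) := by
    refine (norm_add_le _ _).trans (add_le_add ?_ ?_)
    · rw [norm_mul]
      refine mul_le_mul_of_nonneg_left ?_ (norm_nonneg _)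
      refine (norm_add_le _ _).trans (add_le_add ?_ ?_)
      · refine (norm_sub_le _ _).trans (add_le_add ((norm_sub_le _ _).trans (add_le_add h4 h3)) ?_)
        rw [norm_mul, Complex.norm_two]
        exact mul_le_mul_of_nonneg_left h2 (by norm_num)
      · rw [norm_mul, norm_mul, Complex.norm_two]
        exact mul_le_mul (mul_le_mul_of_nonneg_left hL (by norm_num)) h1 (norm_nonneg _)
          (by norm_num)
    · refine (norm_sub_le _ _).trans (add_le_add ?_ ?_)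
      · rw [norm_mul]
        exact mul_le_mul h1 h4 (norm_nonneg _) (by norm_num)
      · rw [norm_mul]
        exact mul_le_mul h2 h3 (norm_nonneg _) (by norm_num)
  rw [← h5, h8] at h9
  have h10 : 0 ≤ ‖α‖ ^ 2 * (‖1 - L‖ - 1 / 2) := mul_nonneg (by positivity) (by linarith)
  nlinarith [hα]

theorem periods (hG : Good a b c φ δ) (hδ : 30000000 * δ ≤ 1 / 10 ^ 7) :
    E1 b c φ 0 = 0 ∧ E2 a c φ (1 / 4) = 0 := by
  have hδ' := delta_le hδ
  have hpi := Real.pi_pos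
  have hpi3 := Real.pi_gt_three
  have hp0 : exp (((0 : ℝ) : ℂ) * I) = 1 := by simp
  have hp1 : exp (((2 * Real.pi : ℝ) : ℂ) * I) = 1 := by
    push_cast
    exact Complex.exp_two_pi_mul_I
  have t0 := torus_at hG hδ' hp0 le_rfl (by positivity)
  have t1 := torus_at hG hδ' hp1 (by positivity) le_rfl
  have r0 : (((0 : ℝ) : ℂ) * I + 1 / 4) = 1 / 4 := by simp
  have r1 : E2 a c φ (((2 * Real.pi : ℝ) : ℂ) * I + 1 / 4) = E2 a c φ (1 / 4) := by
    rw [add_comm]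
    exact (E2_vert hG hδ' (by positivity) le_rfl).symm
  have r2 := E1_rot (T := 2 * Real.pi) hG hδ' (by positivity) le_rfl
  rw [r0] at t0
  rw [r1, ← r2] at t1
  have a0 := A2_est hG hδ hp0 le_rfl (by positivity)
  have a1 := A2_est hG hδ hp1 (by positivity) le_rfl
  have b0 := A1_est hG hδ hp0 le_rfl (by positivity)
  have b1 := A1_est hG hδ hp1 (by positivity) le_rfl
  obtain ⟨α, hα⟩ : ∃ α, α = 2 * Real.pi * I * exp (nu / 16) := ⟨_, rfl⟩
  obtain ⟨L, hL⟩ : ∃ L : ℂ, L = exp (-(2 * Real.pi)) := ⟨_, rfl⟩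
  have s0 : 2 * Real.pi * I * (2 * exp (nu * (((0 : ℝ) : ℂ) * I + 1 / 16))) = 2 * α := by
    have : nu * (((0 : ℝ) : ℂ) * I + 1 / 16) = nu / 16 := by push_cast; ring
    rw [this, hα]
    ring
  have s1 : 2 * Real.pi * I * (2 * exp (nu * (((2 * Real.pi : ℝ) : ℂ) * I + 1 / 16))) =
      2 * α * L := by
    have h1 : nu * (((2 * Real.pi : ℝ) : ℂ) * I + 1 / 16) = nu / 16 + -(2 * Real.pi) +
        2 * Real.pi * I := by
      unfold nu
      push_cast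
      linear_combination (2 * Real.pi : ℂ) * Complex.I_mul_I
    rw [h1, Complex.exp_add, Complex.exp_add, Complex.exp_two_pi_mul_I, hα, hL]
    ring
  rw [← hα] at a0 a1
  rw [s0] at b0
  rw [s1] at b1
  have hα6 : 6 ≤ ‖α‖ := by
    rw [hα, norm_mul, norm_mul, norm_mul, Complex.norm_I, Complex.norm_two, Complex.norm_real,
      Real.norm_eq_abs, abs_of_pos hpi, Complex.norm_exp]
    have h1 : (nu / 16).re = 1 / 16 := by
      unfold nu
      norm_num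
    rw [h1]
    have h2 := Real.add_one_le_exp (1 / 16)
    nlinarith
  have hL2 : ‖L‖ ≤ 1 / 2 := by
    rw [hL, Complex.norm_exp]
    have h1 : (-(2 * (Real.pi : ℂ))).re = -(2 * Real.pi) := by simp
    rw [h1, Real.exp_neg]
    have h2 := Real.add_one_le_exp (2 * Real.pi)
    rw [inv_le_comm₀ (Real.exp_pos _) (by norm_num)]
    linarith
  have hD := det_ne hα6 hL2 a0 a1 b0 b1
  obtain ⟨m1, hm1⟩ : ∃ m, m = exp (-E1 b c φ 0) - 1 := ⟨_, rfl⟩
  obtain ⟨m2, hm2⟩ : ∃ m, m = exp (-E2 a c φ (1 / 4)) - 1 := ⟨_, rfl⟩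
  rw [← hm1, ← hm2] at t0 t1
  have z1 : m1 * (A2 a c φ 0 * A1 b c φ (2 * Real.pi) - A2 a c φ (2 * Real.pi) * A1 b c φ 0) = 0 := by
    linear_combination A1 b c φ (2 * Real.pi) * t0 - A1 b c φ 0 * t1
  have z2 : m2 * (A2 a c φ 0 * A1 b c φ (2 * Real.pi) - A2 a c φ (2 * Real.pi) * A1 b c φ 0) = 0 := by
    linear_combination A2 a c φ (2 * Real.pi) * t0 - A2 a c φ 0 * t1
  have y1 := (mul_eq_zero.1 z1).resolve_right hD
  have y2 := (mul_eq_zero.1 z2).resolve_right hD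
  exact ⟨zero_of_exp (E1_small hG hδ) (hm1 ▸ y1), zero_of_exp (E2_small hG hδ) (hm2 ▸ y2)⟩

end

end P5

/-- Lemma 4 of the paper (uses T0, `closed1`, `closed2`) -/
theorem periods_zero : ∃ δ > 0, ∀ (a b c : ℂ → ℂ → ℂ → ℂ) (φ : ℂ → ℂ → ℂ), Good a b c φ δ →
    ∀ y : ℂ, ‖y - Real.pi * I‖ < 1 / 10 →
      (∮ x in C(1, 1 / 16), jN1 a c φ x y / jC c φ x y) = 0 ∧
      (∮ x in C(exp y, 1 / 16), jN1 a c φ x y / jC c φ x y) = 0 := by
  refine ⟨1 / 10 ^ 15, by norm_num, ?_⟩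
  intro a b c φ hG y hy
  have hδ : 30000000 * ((1 : ℝ) / 10 ^ 15) ≤ 1 / 10 ^ 7 := by norm_num
  have hδ' := P5.delta_le hδ
  have hpi := Real.pi_pos
  obtain ⟨h1, h2⟩ := P5.periods hG hδ
  constructor
  · rw [← P5.E2_circle hG hδ' hy, ← P5.E2_near hG hδ' hy,
      ← P5.E2_vert hG hδ' hpi.le (by linarith), h2]
  · rw [← P5.E1_circle hG hδ' hy, ← P5.E1_rot hG hδ' hpi.le (by linarith), h1]

end Pool.Agent.H583_Fol
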