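import Pool.Agent.H583_Fol.Defs
import Pool.Agent.H583_Fol.Basic
import Pool.Agent.H583_Fol.St.T0
import Pool.Agent.H583_Fol.St.T3
import Pool.Agent.H583_Fol.St.T5

set_option autoImplicit false

namespace Pool.Agent.H583_Fol

open Complex Set Metric Filter Topology

namespace P6

/-! ### one variable -/

theorem diffCl {f : ℂ → ℂ} {c : ℂ} {r : ℝ} {U : Set ℂ} (hf : DifferentiableOn ℂ f U) (hr : r ≠ 0)
    (h : closedBall c r ⊆ U) : DiffContOnCl ℂ f (ball c r) := by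
  apply DifferentiableOn.diffContOnCl
  rw [closure_ball _ hr]
  exact hf.mono h

/-- Cauchy formula on a ring -/
theorem ring_int {l : ℂ → ℂ} {r R ρ : ℝ} (hl : DifferentiableOn ℂ l (ball 0 ρ)) (h0 : 0 < r)
    (hrR : r < R) (hR : R < ρ) {x0 x : ℂ} (hx0 : ‖x0‖ < r) (hx1 : r < ‖x‖) (hx2 : ‖x‖ < R) :
    (∮ ξ in C(0, R), (ξ - x)⁻¹ * (l ξ / (ξ - x0))) -
      (∮ ξ in C(0, r), (ξ - x)⁻¹ * (l ξ / (ξ - x0))) = 2 * Real.pi * I * (l x / (x - x0)) := by
  have hne : x - x0 ≠ 0 := by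
    intro h
    rw [sub_eq_zero] at h
    rw [h] at hx1
    linarith
  have hRp : 0 < R := h0.trans hrR
  have hcR : DiffContOnCl ℂ l (ball 0 R) :=
    diffCl hl hRp.ne' (closedBall_subset_ball hR)
  have e1 := hcR.circleIntegral_sub_inv_smul (w := x) (by simpa using hx2)
  have e2 := hcR.circleIntegral_sub_inv_smul (w := x0) (by simpa using hx0.trans hrR)
  simp only [smul_eq_mul] at e1 e2
  have hlc : ContinuousOn l (sphere 0 R) :=
    hl.continuousOn.mono (sphere_subset_closedBall.trans (closedBall_subset_ball hR))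
  have hci : ∀ w : ℂ, ‖w‖ < R → CircleIntegrable (fun ξ => (ξ - w)⁻¹ * l ξ) 0 R := by
    intro w hw
    apply ContinuousOn.circleIntegrable hRp.le
    apply ContinuousOn.mul _ hlc
    apply ContinuousOn.inv₀ (by fun_prop)
    intro ξ hξ h
    rw [sub_eq_zero] at h
    rw [mem_sphere_zero_iff_norm, h] at hξ
    linarith
  have hout : (∮ ξ in C(0, R), (ξ - x)⁻¹ * (l ξ / (ξ - x0))) =
      (x - x0)⁻¹ * (2 * Real.pi * I * l x - 2 * Real.pi * I * l x0) := by
    rw [← e1, ← e2, ← circleIntegral.integral_sub (hci x hx2) (hci x0 (hx0.trans hrR)),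
      ← smul_eq_mul, ← circleIntegral.integral_smul]
    apply circleIntegral.integral_congr hRp.le
    intro ξ hξ
    rw [mem_sphere_zero_iff_norm] at hξ
    have h1 : ξ - x ≠ 0 := by
      intro h
      rw [sub_eq_zero] at h
      rw [h] at hξ
      linarith
    have h2 : ξ - x0 ≠ 0 := by
      intro h
      rw [sub_eq_zero] at h
      rw [h] at hξ
      linarith
    simp only [smul_eq_mul]
    field_simp
    ring
  have hin : (∮ ξ in C(0, r), (ξ - x)⁻¹ * (l ξ / (ξ - x0))) =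
      2 * Real.pi * I * ((x0 - x)⁻¹ * l x0) := by
    have hd : DiffContOnCl ℂ (fun ξ => (ξ - x)⁻¹ * l ξ) (ball 0 r) := by
      apply diffCl (U := closedBall 0 r) _ h0.ne' le_rfl
      intro ξ hξ
      rw [mem_closedBall_zero_iff] at hξ
      have h1 : ξ - x ≠ 0 := by
        intro h
        rw [sub_eq_zero] at h
        rw [h] at hξ
        linarith
      have h2 : DifferentiableAt ℂ l ξ := hl.differentiableAt (isOpen_ball.mem_nhds (by
        rw [mem_ball_zero_iff]; linarith))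
      have h3 : DifferentiableAt ℂ (fun ξ => ξ - x) ξ := by fun_prop
      exact ((h3.inv h1).mul h2).differentiableWithinAt
    have := hd.circleIntegral_sub_inv_smul (w := x0) (by simpa using hx0)
    simp only [smul_eq_mul] at this
    rw [← this]
    apply circleIntegral.integral_congr h0.le
    intro ξ hξ
    simp only
    rw [div_eq_mul_inv]
    ring
  rw [hout, hin]
  have hne2 : x0 - x ≠ 0 := by
    intro h
    apply hne
    rw [← neg_sub, h, neg_zero]
  have e3 : (x0 - x)⁻¹ = -(x - x0)⁻¹ := by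
    rw [← neg_sub, inv_neg]
  rw [e3]
  field_simp
  ring

/-- a zero of a holomorphic function -/
theorem exists_zero {g : ℂ → ℂ} {c : ℂ} {η m : ℝ} {U : Set ℂ} (hη : 0 < η)
    (hg : DifferentiableOn ℂ g U) (hU : closedBall c η ⊆ U) (h1 : ∀ x ∈ sphere c η, m ≤ ‖g x‖)
    (h2 : ‖g c‖ < m) : ∃ x ∈ ball c η, g x = 0 := by
  by_contra hcon
  push Not at hcon
  have hm : 0 < m := (norm_nonneg _).trans_lt h2
  have hne : ∀ x ∈ closedBall c η, g x ≠ 0 := by
    intro x hx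
    rcases (mem_closedBall.1 hx).lt_or_eq with h | h
    · exact hcon x h
    · intro h0
      have := h1 x h
      rw [h0, norm_zero] at this
      linarith
  have hd : DiffContOnCl ℂ (fun x => (g x)⁻¹) (ball c η) := by
    apply diffCl (U := closedBall c η) _ hη.ne' le_rfl
    exact (hg.mono hU).inv hne
  have h3 := Complex.norm_le_of_forall_mem_frontier_norm_le (C := m⁻¹) isBounded_ball hd
    (by
      intro z hz
      rw [frontier_ball _ hη.ne'] at hz
      rw [norm_inv]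
      exact inv_anti₀ hm (h1 z hz)) (z := c) (subset_closure (mem_ball_self hη))
  rw [norm_inv] at h3
  have h4 : 0 < ‖g c‖ := norm_pos_iff.2 (hne c (mem_closedBall_self hη.le))
  have h5 := (inv_le_inv₀ h4 hm).1 h3
  linarith

/-- division by a linear factor -/
theorem exists_div {g : ℂ → ℂ} {U : Set ℂ} (hU : IsOpen U) (hg : DifferentiableOn ℂ g U) {c : ℂ}
    (hc : c ∈ U) (h0 : g c = 0) : ∃ u : ℂ → ℂ, DifferentiableOn ℂ u U ∧
      ∀ x, g x = (x - c) * u x := by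
  refine ⟨dslope g c, (Complex.differentiableOn_dslope (hU.mem_nhds hc)).2 hg, fun x => ?_⟩
  have := sub_smul_dslope g c x
  rw [h0, sub_zero, smul_eq_mul] at this
  exact this.symm


theorem tri (x c d : ℂ) : ‖c - d‖ ≤ ‖x - c‖ + ‖x - d‖ := by
  have : c - d = (x - d) - (x - c) := by ring
  rw [this]
  have := norm_sub_le (x - d) (x - c)
  linarith

theorem tri' (x c : ℂ) : ‖x‖ ≤ ‖x - c‖ + ‖c‖ := by
  have : x = (x - c) + c := by ring
  conv_lhs => rw [this]
  exact norm_add_le _ _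

/-- removing the poles -/
theorem residue_step {f g : ℂ → ℂ} {e2 : ℂ} (hf : DifferentiableOn ℂ f (ball 0 4))
    (hg : DifferentiableOn ℂ g (ball 0 4)) (he : ‖e2 + 1‖ ≤ 1 / 8)
    (hgm : ∀ x ∈ ball (0 : ℂ) 4, ‖g x - x * ((x - 1) * (x - e2))‖ ≤ 1 / 1000)
    (h1 : (∮ x in C(1, 1 / 16), f x / g x) = 0) (h2 : (∮ x in C(e2, 1 / 16), f x / g x) = 0)
    {x : ℂ} (hx1 : 29 / 100 < ‖x‖) (hx2 : ‖x‖ < 79 / 20) :
    ((∮ ξ in C(0, 79 / 20), (ξ - x)⁻¹ * (f ξ / g ξ)) -
      (∮ ξ in C(0, 29 / 100), (ξ - x)⁻¹ * (f ξ / g ξ))) * g x = 2 * Real.pi * I * f x := by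
  have he1 : ‖e2‖ ≤ 9 / 8 := by
    have := norm_sub_le (e2 + 1) 1
    rw [add_sub_cancel_right, norm_one] at this
    linarith
  have he0 : 7 / 8 ≤ ‖e2‖ := by
    have := norm_sub_le (e2 + 1) e2
    rw [add_sub_cancel_left, norm_one] at this
    linarith
  have he2 : 15 / 8 ≤ ‖e2 - 1‖ := by
    have e : (2 : ℂ) = (e2 + 1) - (e2 - 1) := by ring
    have := norm_sub_le (e2 + 1) (e2 - 1)
    rw [← e] at this
    have h3 : ‖(2 : ℂ)‖ = 2 := by simp
    linarith
  -- zeros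
  have key : ∀ c : ℂ, ‖c‖ ≤ 9 / 8 → c * ((c - 1) * (c - e2)) = 0 →
      (∀ z ∈ sphere c (1 / 100), 4 / 1000 ≤ ‖z * ((z - 1) * (z - e2))‖) →
      ∃ z ∈ ball c (1 / 100), g z = 0 := by
    intro c hc hc0 hz
    have hsub : closedBall c (1 / 100) ⊆ ball (0 : ℂ) 4 := by
      intro z hz
      rw [mem_closedBall, dist_eq_norm] at hz
      rw [mem_ball_zero_iff]
      have := tri' z c
      linarith
    apply exists_zero (m := 3 / 1000) (by norm_num) hg hsub
    · intro z hz'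
      have a1 := hz z hz'
      have a2 := hgm z (hsub (sphere_subset_closedBall hz'))
      have a3 := norm_sub_norm_le (z * ((z - 1) * (z - e2))) (z * ((z - 1) * (z - e2)) - g z)
      rw [sub_sub_cancel, norm_sub_rev _ (g z)] at a3
      linarith
    · have a2 := hgm c (hsub (mem_closedBall_self (by norm_num)))
      rw [hc0, sub_zero] at a2
      linarith
  obtain ⟨x0, hx0, gx0⟩ := key 0 (by simp; norm_num) (by ring) (by
    intro z hz
    rw [mem_sphere_zero_iff_norm] at hz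
    have b1 := tri z 0 1
    have b2 := tri z 0 e2
    rw [sub_zero, zero_sub, norm_neg] at b1 b2
    rw [norm_one] at b1
    rw [norm_mul, norm_mul, hz]
    have b3 : 99 / 100 ≤ ‖z - 1‖ := by linarith
    have b4 : 86 / 100 ≤ ‖z - e2‖ := by linarith
    have b5 : 99 / 100 * (86 / 100) ≤ ‖z - 1‖ * ‖z - e2‖ :=
      mul_le_mul b3 b4 (by norm_num) (by positivity)
    linarith)
  obtain ⟨x1, hx1', gx1⟩ := key 1 (by simp; norm_num) (by ring) (by
    intro z hz
    rw [mem_sphere, dist_eq_norm] at hz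
    have b1 := tri z 1 0
    have b2 := tri z e2 1
    rw [sub_zero, sub_zero, norm_one] at b1
    rw [norm_mul, norm_mul, hz]
    have b3 : 99 / 100 ≤ ‖z‖ := by linarith
    have b4 : 1 ≤ ‖z - e2‖ := by linarith
    have b5 : 99 / 100 * 1 ≤ ‖z‖ * ‖z - e2‖ :=
      mul_le_mul b3 b4 (by norm_num) (by positivity)
    nlinarith)
  obtain ⟨x2, hx2', gx2⟩ := key e2 he1 (by ring) (by
    intro z hz
    rw [mem_sphere, dist_eq_norm] at hz
    have b1 := tri z e2 0
    have b2 := tri z e2 1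
    rw [sub_zero, sub_zero] at b1
    rw [norm_mul, norm_mul, hz]
    have b3 : 86 / 100 ≤ ‖z‖ := by linarith
    have b4 : 1 ≤ ‖z - 1‖ := by linarith
    have b5 : 86 / 100 * 1 ≤ ‖z‖ * ‖z - 1‖ :=
      mul_le_mul b3 b4 (by norm_num) (by positivity)
    nlinarith)
  rw [mem_ball, dist_eq_norm] at hx0 hx1' hx2'
  rw [sub_zero] at hx0
  have hb0 : x0 ∈ ball (0 : ℂ) 4 := by rw [mem_ball_zero_iff]; linarith
  have n1 : ‖x1‖ ≤ 101 / 100 := by
    have := tri' x1 1
    rw [norm_one] at this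
    linarith
  have n2 : ‖x2‖ ≤ 114 / 100 := by
    have := tri' x2 e2
    linarith
  have hb1 : x1 ∈ ball (0 : ℂ) 4 := by rw [mem_ball_zero_iff]; linarith
  have hb2 : x2 ∈ ball (0 : ℂ) 4 := by rw [mem_ball_zero_iff]; linarith
  have d10 : 98 / 100 ≤ ‖x1 - x0‖ := by
    have e : (1 : ℂ) = (x1 - x0) - (x1 - 1) + x0 := by ring
    have a1 := norm_add_le ((x1 - x0) - (x1 - 1)) x0
    have a2 := norm_sub_le (x1 - x0) (x1 - 1)
    rw [← e, norm_one] at a1
    linarith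
  have d20 : 85 / 100 ≤ ‖x2 - x0‖ := by
    have e : e2 = (x2 - x0) - (x2 - e2) + x0 := by ring
    have a1 := norm_add_le ((x2 - x0) - (x2 - e2)) x0
    have a2 := norm_sub_le (x2 - x0) (x2 - e2)
    rw [← e] at a1
    linarith
  have d21 : 185 / 100 ≤ ‖x2 - x1‖ := by
    have e : e2 - 1 = (x2 - x1) - (x2 - e2) + (x1 - 1) := by ring
    have a1 := norm_add_le ((x2 - x1) - (x2 - e2)) (x1 - 1)
    have a2 := norm_sub_le (x2 - x1) (x2 - e2)
    rw [← e] at a1
    linarith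
  have ne10 : x1 - x0 ≠ 0 := by
    rw [← norm_pos_iff]; linarith
  have ne20 : x2 - x0 ≠ 0 := by
    rw [← norm_pos_iff]; linarith
  have ne21 : x2 - x1 ≠ 0 := by
    rw [← norm_pos_iff]; linarith
  -- factorization
  obtain ⟨g1, hg1, eg1⟩ := exists_div isOpen_ball hg hb0 gx0
  have g1x1 : g1 x1 = 0 := by
    have := eg1 x1
    rw [gx1] at this
    exact (mul_eq_zero.1 this.symm).resolve_left ne10
  obtain ⟨g2, hg2, eg2⟩ := exists_div isOpen_ball hg1 hb1 g1x1
  have g2x2 : g2 x2 = 0 := by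
    have := eg1 x2
    rw [gx2, eg2] at this
    exact (mul_eq_zero.1 ((mul_eq_zero.1 this.symm).resolve_left ne20)).resolve_left ne21
  obtain ⟨u, hu, eu⟩ := exists_div isOpen_ball hg2 hb2 g2x2
  have hgu : ∀ z, g z = (z - x0) * ((z - x1) * ((z - x2) * u z)) := by
    intro z
    rw [eg1, eg2, eu]
  have hsub1 : closedBall (0 : ℂ) (99 / 25) ⊆ ball 0 4 := closedBall_subset_ball (by norm_num)
  have hu1 : ∀ z ∈ closedBall (0 : ℂ) (99 / 25), u z ≠ 0 := by
    have hd : DiffContOnCl ℂ (fun z => u z - 1) (ball 0 (99 / 25)) :=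
      diffCl (hu.sub (differentiableOn_const 1)) (by norm_num) hsub1
    have hfr : ∀ z ∈ frontier (ball (0 : ℂ) (99 / 25)), ‖u z - 1‖ ≤ 1 / 2 := by
        intro z hz
        rw [frontier_ball _ (by norm_num), mem_sphere_zero_iff_norm] at hz
        have c0 := tri z 0 x0
        have c1 := tri z 0 x1
        have c2 := tri z 0 x2
        have a0 : 395 / 100 ≤ ‖z - x0‖ := by
          have := tri' z x0
          linarith
        have a1 : 295 / 100 ≤ ‖z - x1‖ := by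
          have := tri' z x1
          linarith
        have a2 : 282 / 100 ≤ ‖z - x2‖ := by
          have := tri' z x2
          linarith
        have u0 : ‖z - x0‖ ≤ 4 := by
          have := norm_sub_le z x0
          linarith
        have u1 : ‖z - x1‖ ≤ 5 := by
          have := norm_sub_le z x1
          linarith
        have u3 : ‖z - 1‖ ≤ 5 := by
          have := norm_sub_le z 1
          rw [norm_one] at this
          linarith
        have u4 : ‖z - e2‖ ≤ 52 / 10 := by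
          have := norm_sub_le z e2
          linarith
        have hp : 32 ≤ ‖(z - x0) * ((z - x1) * (z - x2))‖ := by
          rw [norm_mul, norm_mul]
          have b1 : 295 / 100 * (282 / 100) ≤ ‖z - x1‖ * ‖z - x2‖ :=
            mul_le_mul a1 a2 (by norm_num) (by positivity)
          have b2 : 395 / 100 * (295 / 100 * (282 / 100)) ≤ ‖z - x0‖ * (‖z - x1‖ * ‖z - x2‖) :=
            mul_le_mul a0 b1 (by norm_num) (by positivity)
          linarith
        have hz4 : z ∈ ball (0 : ℂ) 4 := by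
          rw [mem_ball_zero_iff, hz]; norm_num
        have hdiff : ‖g z - (z - x0) * ((z - x1) * (z - x2))‖ ≤ 2 := by
          have e : g z - (z - x0) * ((z - x1) * (z - x2)) =
              (g z - z * ((z - 1) * (z - e2))) + x0 * ((z - 1) * (z - e2)) +
              (z - x0) * ((x1 - 1) * (z - e2)) + (z - x0) * ((z - x1) * (x2 - e2)) := by ring
          rw [e]
          have t1 := norm_add_le ((g z - z * ((z - 1) * (z - e2))) + x0 * ((z - 1) * (z - e2)) +
              (z - x0) * ((x1 - 1) * (z - e2))) ((z - x0) * ((z - x1) * (x2 - e2)))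
          have t2 := norm_add_le ((g z - z * ((z - 1) * (z - e2))) + x0 * ((z - 1) * (z - e2)))
              ((z - x0) * ((x1 - 1) * (z - e2)))
          have t3 := norm_add_le (g z - z * ((z - 1) * (z - e2))) (x0 * ((z - 1) * (z - e2)))
          have t4 := hgm z hz4
          have s1 : ‖x0 * ((z - 1) * (z - e2))‖ ≤ 1 / 100 * (5 * (52 / 10)) := by
            rw [norm_mul, norm_mul]
            exact mul_le_mul hx0.le (mul_le_mul u3 u4 (norm_nonneg _) (by norm_num))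
              (by positivity) (by norm_num)
          have s2 : ‖(z - x0) * ((x1 - 1) * (z - e2))‖ ≤ 4 * (1 / 100 * (52 / 10)) := by
            rw [norm_mul, norm_mul]
            exact mul_le_mul u0 (mul_le_mul hx1'.le u4 (norm_nonneg _) (by norm_num))
              (by positivity) (by norm_num)
          have s3 : ‖(z - x0) * ((z - x1) * (x2 - e2))‖ ≤ 4 * (5 * (1 / 100)) := by
            rw [norm_mul, norm_mul]
            exact mul_le_mul u0 (mul_le_mul u1 hx2'.le (norm_nonneg _) (by norm_num))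
              (by positivity) (by norm_num)
          linarith
        have hpne : (z - x0) * ((z - x1) * (z - x2)) ≠ 0 := by
          rw [← norm_pos_iff]; linarith
        have e3 : u z - 1 = (g z - (z - x0) * ((z - x1) * (z - x2))) /
            ((z - x0) * ((z - x1) * (z - x2))) := by
          rw [eq_div_iff hpne, hgu z]
          ring
        rw [e3, norm_div, div_le_iff₀ (by linarith)]
        linarith
    have hb : ∀ z ∈ closure (ball (0 : ℂ) (99 / 25)), ‖u z - 1‖ ≤ 1 / 2 := fun z hz =>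
      Complex.norm_le_of_forall_mem_frontier_norm_le isBounded_ball hd hfr hz
    intro z hz h0
    have := hb z (by rw [closure_ball _ (by norm_num)]; exact hz)
    rw [h0] at this
    norm_num at this
  -- the quotient by `u`
  set B : Set ℂ := ball (0 : ℂ) (99 / 25) with hB
  have hBs : B ⊆ ball (0 : ℂ) 4 := ball_subset_ball (by norm_num)
  set k : ℂ → ℂ := fun z => f z / u z with hk
  have hkd : DifferentiableOn ℂ k B :=
    (hf.mono hBs).div (hu.mono hBs) (fun z hz => hu1 z (ball_subset_closedBall hz))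
  have hfk : ∀ z ∈ B, f z = k z * u z := by
    intro z hz
    rw [hk]
    simp only
    rw [div_mul_cancel₀ _ (hu1 z (ball_subset_closedBall hz))]
  have kx1 : k x1 = 0 := by
    have hsub : closedBall (1 : ℂ) (1 / 16) ⊆ B := by
      intro z hz
      rw [mem_closedBall, dist_eq_norm] at hz
      rw [hB, mem_ball_zero_iff]
      have := tri' z 1
      rw [norm_one] at this
      linarith
    have hne : ∀ z ∈ closedBall (1 : ℂ) (1 / 16), (z - x0) * (z - x2) ≠ 0 := by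
      intro z hz
      rw [mem_closedBall, dist_eq_norm] at hz
      apply mul_ne_zero
      · rw [← norm_pos_iff]
        have e : (1 : ℂ) = (z - x0) - (z - 1) + x0 := by ring
        have a1 := norm_add_le ((z - x0) - (z - 1)) x0
        have a2 := norm_sub_le (z - x0) (z - 1)
        rw [← e, norm_one] at a1
        linarith
      · rw [← norm_pos_iff]
        have e : e2 - 1 = (z - 1) - (z - x2) - (x2 - e2) := by ring
        have a1 := norm_sub_le ((z - 1) - (z - x2)) (x2 - e2)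
        have a2 := norm_sub_le (z - 1) (z - x2)
        rw [← e] at a1
        linarith
    have hd : DiffContOnCl ℂ (fun z => k z / ((z - x0) * (z - x2))) (ball 1 (1 / 16)) := by
      apply diffCl (U := closedBall 1 (1 / 16)) _ (by norm_num) le_rfl
      exact (hkd.mono hsub).div (by fun_prop) hne
    have hc := hd.circleIntegral_sub_inv_smul (w := x1) (by
      rw [mem_ball, dist_eq_norm]; linarith)
    have e4 : (∮ z in C(1, 1 / 16), (z - x1)⁻¹ • (k z / ((z - x0) * (z - x2)))) = 0 := by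
      rw [← h1]
      apply circleIntegral.integral_congr (by norm_num)
      intro z hz
      have hzB := hsub (sphere_subset_closedBall hz)
      have a1 := hne z (sphere_subset_closedBall hz)
      have a2 := hu1 z (ball_subset_closedBall hzB)
      simp only [smul_eq_mul]
      rw [hfk z hzB, hgu z]
      rw [mul_ne_zero_iff] at a1
      obtain ⟨a3, a4⟩ := a1
      rw [mem_sphere, dist_eq_norm] at hz
      have a5 : z - x1 ≠ 0 := by
        intro h
        rw [sub_eq_zero] at h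
        rw [h] at hz
        linarith
      field_simp
    rw [e4, smul_eq_mul] at hc
    have := (mul_eq_zero.1 hc.symm).resolve_left (by
      simp [Real.pi_ne_zero])
    rw [div_eq_zero_iff] at this
    rcases this with h | h
    · exact h
    · exfalso
      rcases mul_eq_zero.1 h with h | h
      · exact ne10 h
      · exact ne21 (by rw [← neg_sub, h, neg_zero])
  have hx1B : x1 ∈ B := by rw [hB, mem_ball_zero_iff]; linarith
  have hx2B : x2 ∈ B := by rw [hB, mem_ball_zero_iff]; linarith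
  have kx2 : k x2 = 0 := by
    have hsub : closedBall e2 (1 / 16) ⊆ B := by
      intro z hz
      rw [mem_closedBall, dist_eq_norm] at hz
      rw [hB, mem_ball_zero_iff]
      have := tri' z e2
      linarith
    have hne : ∀ z ∈ closedBall e2 (1 / 16), (z - x0) * (z - x1) ≠ 0 := by
      intro z hz
      rw [mem_closedBall, dist_eq_norm] at hz
      apply mul_ne_zero
      · rw [← norm_pos_iff]
        have e : e2 = (z - x0) - (z - e2) + x0 := by ring
        have a1 := norm_add_le ((z - x0) - (z - e2)) x0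
        have a2 := norm_sub_le (z - x0) (z - e2)
        rw [← e] at a1
        linarith
      · rw [← norm_pos_iff]
        have e : e2 - 1 = (z - x1) - (z - e2) + (x1 - 1) := by ring
        have a1 := norm_add_le ((z - x1) - (z - e2)) (x1 - 1)
        have a2 := norm_sub_le (z - x1) (z - e2)
        rw [← e] at a1
        linarith
    have hd : DiffContOnCl ℂ (fun z => k z / ((z - x0) * (z - x1))) (ball e2 (1 / 16)) := by
      apply diffCl (U := closedBall e2 (1 / 16)) _ (by norm_num) le_rfl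
      exact (hkd.mono hsub).div (by fun_prop) hne
    have hc := hd.circleIntegral_sub_inv_smul (w := x2) (by
      rw [mem_ball, dist_eq_norm]; linarith)
    have e4 : (∮ z in C(e2, 1 / 16), (z - x2)⁻¹ • (k z / ((z - x0) * (z - x1)))) = 0 := by
      rw [← h2]
      apply circleIntegral.integral_congr (by norm_num)
      intro z hz
      have hzB := hsub (sphere_subset_closedBall hz)
      have a1 := hne z (sphere_subset_closedBall hz)
      have a2 := hu1 z (ball_subset_closedBall hzB)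
      simp only [smul_eq_mul]
      rw [hfk z hzB, hgu z]
      rw [mul_ne_zero_iff] at a1
      obtain ⟨a3, a4⟩ := a1
      rw [mem_sphere, dist_eq_norm] at hz
      have a5 : z - x2 ≠ 0 := by
        intro h
        rw [sub_eq_zero] at h
        rw [h] at hz
        linarith
      field_simp
    rw [e4, smul_eq_mul] at hc
    have := (mul_eq_zero.1 hc.symm).resolve_left (by
      simp [Real.pi_ne_zero])
    rw [div_eq_zero_iff] at this
    rcases this with h | h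
    · exact h
    · exfalso
      rcases mul_eq_zero.1 h with h | h
      · exact ne20 h
      · exact ne21 h
  obtain ⟨k1, hk1, ek1⟩ := exists_div isOpen_ball hkd hx1B kx1
  have k1x2 : k1 x2 = 0 := by
    have := ek1 x2
    rw [kx2] at this
    exact (mul_eq_zero.1 this.symm).resolve_left ne21
  obtain ⟨l, hl, el⟩ := exists_div isOpen_ball hk1 hx2B k1x2
  have hfl : ∀ z ∈ B, f z = (z - x1) * ((z - x2) * l z) * u z := by
    intro z hz
    rw [hfk z hz, ek1, el]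
  have hq : ∀ z ∈ B, 115 / 100 < ‖z‖ ∨ (1 / 100 < ‖z‖ ∧ ‖z‖ < 85 / 100) →
      f z / g z = l z / (z - x0) := by
    intro z hz hzn
    have hz0 : z - x0 ≠ 0 := by
      intro h
      rw [sub_eq_zero] at h
      rw [h] at hzn
      rcases hzn with h | h <;> linarith
    have hz1 : z - x1 ≠ 0 := by
      intro h
      rw [sub_eq_zero] at h
      have := tri' 1 x1
      rw [norm_one, norm_sub_rev, ← h] at this
      have hx1n : ‖z - 1‖ < 1 / 100 := by rw [h]; exact hx1'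
      rcases hzn with h' | h'
      · rw [h] at h'
        linarith
      · linarith
    have hz2 : z - x2 ≠ 0 := by
      intro h
      rw [sub_eq_zero] at h
      have := tri' e2 x2
      rw [norm_sub_rev, ← h] at this
      have hx1n : ‖z - e2‖ < 1 / 100 := by rw [h]; exact hx2'
      rcases hzn with h' | h'
      · rw [h] at h'
        linarith
      · linarith
    have hzu := hu1 z (ball_subset_closedBall hz)
    rw [hfl z hz, hgu z]
    field_simp
  have hring := ring_int (l := l) (r := 29 / 100) (R := 79 / 20) (ρ := 99 / 25) hl (by norm_num)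
    (by norm_num) (by norm_num) (x0 := x0) (x := x) (by linarith) hx1 hx2
  have i1 : (∮ ξ in C(0, 79 / 20), (ξ - x)⁻¹ * (f ξ / g ξ)) =
      ∮ ξ in C(0, 79 / 20), (ξ - x)⁻¹ * (l ξ / (ξ - x0)) := by
    apply circleIntegral.integral_congr (by norm_num)
    intro z hz
    rw [mem_sphere_zero_iff_norm] at hz
    simp only
    rw [hq z (by rw [hB, mem_ball_zero_iff, hz]; norm_num) (Or.inl (by rw [hz]; norm_num))]
  have i2 : (∮ ξ in C(0, 29 / 100), (ξ - x)⁻¹ * (f ξ / g ξ)) =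
      ∮ ξ in C(0, 29 / 100), (ξ - x)⁻¹ * (l ξ / (ξ - x0)) := by
    apply circleIntegral.integral_congr (by norm_num)
    intro z hz
    rw [mem_sphere_zero_iff_norm] at hz
    simp only
    rw [hq z (by rw [hB, mem_ball_zero_iff, hz]; norm_num) (Or.inr (by rw [hz]; norm_num))]
  rw [i1, i2, hring, hgu x, hfl x (by rw [hB, mem_ball_zero_iff]; linarith)]
  have hz0 : x - x0 ≠ 0 := by
    intro h
    rw [sub_eq_zero] at h
    rw [h] at hx1
    linarith
  field_simp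


/-- integrals over the unit interval with a holomorphic parameter -/
theorem param_unit {E : Type} [NormedAddCommGroup E] [NormedSpace ℂ E] [FiniteDimensional ℂ E]
    {Ω : Set (E × ℂ)} (hΩ : IsOpen Ω) {F : E × ℂ → ℂ} (hF : DifferentiableOn ℂ F Ω)
    {U : Set E} (hU : IsOpen U) (hsub : ∀ p ∈ U, ∀ t ∈ Icc (0 : ℝ) 1, (p, (t : ℂ)) ∈ Ω) :
    DifferentiableOn ℂ (fun p => ∫ t in (0 : ℝ)..1, F (p, (t : ℂ))) U := by
  have hcd : ContDiffOn ℂ (1:ℕ) F Ω := Helper417.Mer.Hartogs673.contDiffOn_of_differentiableOn hΩ hF 1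
  have hfd : ContinuousOn (fun q => fderiv ℂ F q) Ω :=
    hcd.continuousOn_fderiv_of_isOpen hΩ (by simp)
  intro p0 hp0
  have : ProperSpace E := FiniteDimensional.proper ℂ E
  obtain ⟨δ, hδ, hδU⟩ := Metric.nhds_basis_closedBall.mem_iff.1 (hU.mem_nhds hp0)
  have hcI : IsCompact ((fun t : ℝ => (t : ℂ)) '' Icc (0 : ℝ) 1) :=
    isCompact_Icc.image Complex.continuous_ofReal
  have hK : IsCompact (closedBall p0 δ ×ˢ ((fun t : ℝ => (t : ℂ)) '' Icc (0 : ℝ) 1)) :=
    (isCompact_closedBall _ _).prod hcI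
  have hKΩ : closedBall p0 δ ×ˢ ((fun t : ℝ => (t : ℂ)) '' Icc (0 : ℝ) 1) ⊆ Ω := by
    rintro ⟨p, ξ⟩ ⟨h1, t, h2, rfl⟩
    exact hsub p (hδU h1) t h2
  obtain ⟨M, hM⟩ := hK.exists_bound_of_continuousOn (hfd.mono hKΩ)
  have hFc : ∀ p ∈ U, ContinuousOn (fun t : ℝ => F (p, (t : ℂ))) (Icc 0 1) := by
    intro p hp
    apply hF.continuousOn.comp (by fun_prop)
    intro t ht
    exact hsub p hp t ht
  have hF'c : ∀ p ∈ U, ContinuousOn (fun t : ℝ => fderiv ℂ F (p, (t : ℂ))) (Icc 0 1) := by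
    intro p hp
    apply hfd.comp (by fun_prop)
    intro t ht
    exact hsub p hp t ht
  have hI : uIoc (0 : ℝ) 1 ⊆ Icc (0 : ℝ) 1 := by
    rw [uIoc_of_le zero_le_one]
    exact Ioc_subset_Icc_self
  have key := intervalIntegral.hasFDerivAt_integral_of_dominated_of_fderiv_le (𝕜 := ℂ)
    (F := fun (p : E) (t : ℝ) => F (p, (t : ℂ)))
    (F' := fun (p : E) (t : ℝ) =>
      ((fderiv ℂ F (p, (t : ℂ))).comp (ContinuousLinearMap.inl ℂ E ℂ)))
    (x₀ := p0) (s := ball p0 δ) (μ := MeasureTheory.volume) (a := 0) (b := 1)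
    (bound := fun _ => (M * ‖ContinuousLinearMap.inl ℂ E ℂ‖))
    (ball_mem_nhds p0 hδ)
    (by
      filter_upwards [hU.mem_nhds hp0] with p hp
      exact ((hFc p hp).mono hI).aestronglyMeasurable measurableSet_uIoc)
    (by
      apply ContinuousOn.intervalIntegrable
      rw [uIcc_of_le zero_le_one]
      exact hFc p0 hp0)
    (by
      apply ContinuousOn.aestronglyMeasurable _ measurableSet_uIoc
      exact ((hF'c p0 hp0).mono hI).clm_comp continuousOn_const)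
    (by
      refine Filter.Eventually.of_forall fun t ht p hp => ?_
      refine (ContinuousLinearMap.opNorm_comp_le _ _).trans ?_
      apply mul_le_mul_of_nonneg_right _ (norm_nonneg _)
      exact hM (p, (t : ℂ)) ⟨ball_subset_closedBall hp, t, hI ht, rfl⟩)
    intervalIntegrable_const
    (by
      refine Filter.Eventually.of_forall fun t ht p hp => ?_
      have h1 : (p, (t : ℂ)) ∈ Ω := hsub p (hδU (ball_subset_closedBall hp)) _ (hI ht)
      exact (hF.differentiableAt (hΩ.mem_nhds h1)).hasFDerivAt.comp p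
          (hasFDerivAt_prodMk_left p (t : ℂ)))
  exact key.differentiableAt.differentiableWithinAt


/-! ### bounds on the rings -/

theorem exp_Yq {y : ℂ} (h : y ∈ Yq) : 4716 / 10000 < ‖exp y‖ ∧ ‖exp y‖ < 212 / 100 := by
  obtain ⟨h1, -, -⟩ := h
  rw [abs_lt] at h1
  rw [Complex.norm_exp]
  have e1 := Real.exp_one_lt_d9
  have e2 : Real.exp (3 / 4) < 212 / 100 := by
    have h2 : Real.exp (3 / 4) ^ 4 < (212 / 100 : ℝ) ^ 4 := by
      rw [← Real.exp_nat_mul]
      have h3 : ((4 : ℕ) : ℝ) * (3 / 4) = ((3 : ℕ) : ℝ) * 1 := by norm_num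
      rw [h3, Real.exp_nat_mul]
      calc Real.exp 1 ^ 3 < (2.7182818286 : ℝ) ^ 3 :=
            pow_lt_pow_left₀ e1 (Real.exp_pos _).le (by norm_num)
        _ < _ := by norm_num
    exact lt_of_pow_lt_pow_left₀ 4 (by norm_num) h2
  constructor
  · have h2 : Real.exp (-(3 / 4)) < Real.exp y.re := Real.exp_lt_exp.2 h1.1
    rw [Real.exp_neg] at h2
    have h4 : (212 / 100 : ℝ)⁻¹ < (Real.exp (3 / 4))⁻¹ :=
      inv_strictAnti₀ (Real.exp_pos _) e2
    have h5 : (4716 : ℝ) / 10000 < (212 / 100)⁻¹ := by norm_num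
    linarith
  · have h2 : Real.exp y.re < Real.exp (3 / 4) := Real.exp_lt_exp.2 h1.2
    linarith

theorem low_in {x y : ℂ} (hy : y ∈ Yq) (h1 : 28 / 100 ≤ ‖x‖) (h2 : ‖x‖ ≤ 36 / 100) :
    19 / 1000 ≤ ‖x * hh x y‖ := by
  have he := (exp_Yq hy).1
  have a1 : 64 / 100 ≤ ‖x - 1‖ := by
    have := norm_sub_norm_le 1 x
    rw [norm_one, norm_sub_rev] at this
    linarith
  have a2 : 1116 / 10000 ≤ ‖x - exp y‖ := by
    have := norm_sub_norm_le (exp y) x
    rw [norm_sub_rev] at this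
    linarith
  rw [hh, norm_mul, norm_mul]
  have a3 : 64 / 100 * (1116 / 10000) ≤ ‖x - 1‖ * ‖x - exp y‖ :=
    mul_le_mul a1 a2 (by norm_num) (by positivity)
  have a4 : 28 / 100 * (64 / 100 * (1116 / 10000)) ≤ ‖x‖ * (‖x - 1‖ * ‖x - exp y‖) :=
    mul_le_mul h1 a3 (by norm_num) (by positivity)
  linarith

theorem low_out {x y : ℂ} (hy : y ∈ Yq) (h1 : 39 / 10 ≤ ‖x‖) :
    20 ≤ ‖x * hh x y‖ := by
  have he := (exp_Yq hy).2
  have a1 : 29 / 10 ≤ ‖x - 1‖ := by
    have := norm_sub_norm_le x 1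
    rw [norm_one] at this
    linarith
  have a2 : 178 / 100 ≤ ‖x - exp y‖ := by
    have := norm_sub_norm_le x (exp y)
    linarith
  rw [hh, norm_mul, norm_mul]
  have a3 : 29 / 10 * (178 / 100) ≤ ‖x - 1‖ * ‖x - exp y‖ :=
    mul_le_mul a1 a2 (by norm_num) (by positivity)
  have a4 : 39 / 10 * (29 / 10 * (178 / 100)) ≤ ‖x‖ * (‖x - 1‖ * ‖x - exp y‖) :=
    mul_le_mul h1 a3 (by norm_num) (by positivity)
  linarith

/-! ### the abstract situation -/

/-- the data of the form `(N1 dx + N2 dy) / K` -/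
structure Dat (N1 N2 K : ℂ → ℂ → ℂ) (η : ℝ) : Prop where
  hN1 : Hol2 N1 Dom
  hN2 : Hol2 N2 Dom
  hK : Hol2 K Dom
  cl : ∀ x y, (x, y) ∈ Dom →
    K x y * (d1 N2 x y - d2 N1 x y) = N2 x y * d1 K x y - N1 x y * d2 K x y
  nK : ∀ x y, (x, y) ∈ Dom → ‖K x y - x * hh x y‖ ≤ η
  n1 : ∀ x y, ‖x‖ ≤ 99 / 25 → y ∈ Yq → ‖N1 x y - nu * hh x y‖ ≤ η
  n2 : ∀ x y, ‖x‖ ≤ 99 / 25 → y ∈ Yq → ‖N2 x y‖ ≤ η
  per : ∀ y : ℂ, ‖y - Real.pi * I‖ < 1 / 10 →
      (∮ x in C(1, 1 / 16), N1 x y / K x y) = 0 ∧ (∮ x in C(exp y, 1 / 16), N1 x y / K x y) = 0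
  small : η ≤ 1 / 1000

variable {N1 N2 K : ℂ → ℂ → ℂ} {η : ℝ}

theorem Dat.pos (h : Dat N1 N2 K η) : 0 ≤ η := by
  have h0 : (0 : ℂ) ∈ Yq := by
    refine ⟨by simp, by simp, ?_⟩
    simp only [zero_im]
    have := Real.pi_pos
    linarith
  exact (norm_nonneg _).trans (h.n2 0 0 (by simp; norm_num) h0)

theorem mem_Dom {x y : ℂ} (hx : ‖x‖ < 4) (hy : y ∈ Yq) : (x, y) ∈ Dom :=
  ⟨hx, Yq_subset_Yr hy⟩

theorem Dat.low_in (h : Dat N1 N2 K η) {x y : ℂ} (hy : y ∈ Yq) (h1 : 28 / 100 ≤ ‖x‖)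
    (h2 : ‖x‖ ≤ 36 / 100) : 18 / 1000 ≤ ‖K x y‖ := by
  have a1 := P6.low_in hy h1 h2
  have a2 := h.nK x y (mem_Dom (by linarith) hy)
  have a3 := h.small
  have a4 := norm_sub_norm_le (x * hh x y) (K x y)
  rw [norm_sub_rev] at a4
  linarith

theorem Dat.low_out (h : Dat N1 N2 K η) {x y : ℂ} (hy : y ∈ Yq) (h1 : 39 / 10 ≤ ‖x‖)
    (h2 : ‖x‖ ≤ 99 / 25) : 19 ≤ ‖K x y‖ := by
  have a1 := P6.low_out hy h1
  have a2 := h.nK x y (mem_Dom (by linarith) hy)
  have a3 := h.small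
  have a4 := norm_sub_norm_le (x * hh x y) (K x y)
  rw [norm_sub_rev] at a4
  linarith

/-- the extension of `N1 / K` to the ring -/
noncomputable def bt (N1 K : ℂ → ℂ → ℂ) (x y : ℂ) : ℂ :=
  (2 * Real.pi * I)⁻¹ * ((∮ ξ in C(0, 79 / 20), (ξ - x)⁻¹ * (N1 ξ y / K ξ y)) -
    (∮ ξ in C(0, 29 / 100), (ξ - x)⁻¹ * (N1 ξ y / K ξ y)))

def Rg : Set (ℂ × ℂ) := {p | 29 / 100 < ‖p.1‖ ∧ ‖p.1‖ < 79 / 20 ∧ p.2 ∈ Yq}

theorem isOpen_Rg : IsOpen Rg := by
  have h1 : IsOpen {p : ℂ × ℂ | 29 / 100 < ‖p.1‖} := isOpen_lt (by fun_prop) (by fun_prop)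
  have h2 : IsOpen {p : ℂ × ℂ | ‖p.1‖ < 79 / 20} := isOpen_lt (by fun_prop) (by fun_prop)
  exact h1.inter (h2.inter (isOpen_Yq.preimage continuous_snd))

theorem hol_one (h : Dat N1 N2 K η) {r : ℝ} (hr : 0 < r)
    (h0 : ∀ ξ y : ℂ, ‖ξ‖ = r → y ∈ Yq → K ξ y ≠ 0) (hr4 : r < 4)
    (hne : ∀ p ∈ Rg, ‖p.1‖ ≠ r) :
    DifferentiableOn ℂ (fun p : ℂ × ℂ => ∮ ξ in C(0, r), (ξ - p.1)⁻¹ * (N1 ξ p.2 / K ξ p.2))
      Rg := by
  set Ω : Set ((ℂ × ℂ) × ℂ) := {q | q.2 - q.1.1 ≠ 0 ∧ (q.2, q.1.2) ∈ Dom ∧ K q.2 q.1.2 ≠ 0}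
    with hΩd
  have hK' : ContinuousOn (fun q : (ℂ × ℂ) × ℂ => K q.2 q.1.2)
      ((fun q : (ℂ × ℂ) × ℂ => (q.2, q.1.2)) ⁻¹' Dom) :=
    h.hK.continuousOn.comp (t := Dom) (f := fun q : (ℂ × ℂ) × ℂ => (q.2, q.1.2)) (by fun_prop)
      (fun q hq => hq)
  have hΩ : IsOpen Ω := by
    have o1 : IsOpen {q : (ℂ × ℂ) × ℂ | q.2 - q.1.1 ≠ 0} :=
      isOpen_ne_fun (by fun_prop) (by fun_prop)
    have o2 : IsOpen ((fun q : (ℂ × ℂ) × ℂ => (q.2, q.1.2)) ⁻¹' Dom) :=
      isOpen_Dom.preimage (by fun_prop)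
    have o3 := hK'.isOpen_inter_preimage o2 (isOpen_compl_singleton (x := (0 : ℂ)))
    have e : Ω = {q : (ℂ × ℂ) × ℂ | q.2 - q.1.1 ≠ 0} ∩
        ((fun q : (ℂ × ℂ) × ℂ => (q.2, q.1.2)) ⁻¹' Dom ∩
          (fun q : (ℂ × ℂ) × ℂ => K q.2 q.1.2) ⁻¹' {0}ᶜ) := by
      ext q
      simp only [hΩd, mem_ofPred_eq, mem_inter_iff, mem_preimage, mem_compl_iff, mem_singleton_iff]
    rw [e]
    exact o1.inter o3
  have hF : DifferentiableOn ℂ (fun q : (ℂ × ℂ) × ℂ =>
      (q.2 - q.1.1)⁻¹ * (N1 q.2 q.1.2 / K q.2 q.1.2)) Ω := by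
    have m : MapsTo (fun q : (ℂ × ℂ) × ℂ => (q.2, q.1.2)) Ω Dom := fun q hq => hq.2.1
    have f1 : DifferentiableOn ℂ (fun q : (ℂ × ℂ) × ℂ => N1 q.2 q.1.2) Ω :=
      h.hN1.comp (f := fun q : (ℂ × ℂ) × ℂ => (q.2, q.1.2)) (by fun_prop) m
    have f2 : DifferentiableOn ℂ (fun q : (ℂ × ℂ) × ℂ => K q.2 q.1.2) Ω :=
      h.hK.comp (f := fun q : (ℂ × ℂ) × ℂ => (q.2, q.1.2)) (by fun_prop) m
    have f3 : DifferentiableOn ℂ (fun q : (ℂ × ℂ) × ℂ => q.2 - q.1.1) Ω := by fun_prop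
    have f4 : DifferentiableOn ℂ (fun q : (ℂ × ℂ) × ℂ => N1 q.2 q.1.2 / K q.2 q.1.2) Ω := by
      simp only [div_eq_mul_inv]
      exact f1.mul (f2.fun_inv (fun q hq => hq.2.2))
    have f5 : DifferentiableOn ℂ (fun q : (ℂ × ℂ) × ℂ => (q.2 - q.1.1)⁻¹) Ω :=
      f3.fun_inv (fun q hq => hq.1)
    exact f5.mul f4
  have := Helper417.Mer.Hartogs673.param_circle hΩ hF (r := r) isOpen_Rg (by
    intro p hp ξ hξ
    rw [abs_of_pos hr, mem_sphere_zero_iff_norm] at hξ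
    refine ⟨?_, mem_Dom (by rw [hξ]; exact hr4) hp.2.2, h0 ξ p.2 hξ hp.2.2⟩
    intro he
    simp only at he
    rw [sub_eq_zero] at he
    exact hne p hp (by rw [← he, hξ]))
  exact this

theorem hol_bt (h : Dat N1 N2 K η) : Hol2 (bt N1 K) Rg := by
  have h1 := hol_one h (r := 79 / 20) (by norm_num) (by
    intro ξ y hξ hy h0
    have := h.low_out hy (x := ξ) (by rw [hξ]; norm_num) (by rw [hξ]; norm_num)
    rw [h0, norm_zero] at this
    norm_num at this) (by norm_num) (fun p hp => hp.2.1.ne)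
  have h2 := hol_one h (r := 29 / 100) (by norm_num) (by
    intro ξ y hξ hy h0
    have := h.low_in hy (x := ξ) (by rw [hξ]; norm_num) (by rw [hξ]; norm_num)
    rw [h0, norm_zero] at this
    norm_num at this) (by norm_num) (fun p hp => hp.1.ne')
  exact (h1.sub h2).const_mul _

theorem Yq_of_near {y : ℂ} (hy : ‖y - Real.pi * I‖ < 1 / 10) : y ∈ Yq := by
  have h1 := (abs_re_le_norm (y - Real.pi * I)).trans_lt hy
  have h2 := (abs_im_le_norm (y - Real.pi * I)).trans_lt hy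
  simp only [sub_re, mul_re, ofReal_re, I_re, mul_zero, ofReal_im, I_im, sub_zero, sub_im,
    mul_im, mul_one, add_zero] at h1 h2
  rw [abs_lt] at h1 h2
  have := Real.pi_pos
  refine ⟨abs_lt.2 ⟨by linarith, by linarith⟩, by linarith, by linarith⟩

theorem bt_mul_near (h : Dat N1 N2 K η) {x y : ℂ} (hy : ‖y - Real.pi * I‖ < 1 / 10)
    (hx1 : 29 / 100 < ‖x‖) (hx2 : ‖x‖ < 79 / 20) : bt N1 K x y * K x y = N1 x y := by
  have hyq := Yq_of_near hy
  have he : ‖exp y + 1‖ ≤ 1 / 8 := by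
    have e : exp y = -exp (y - Real.pi * I) := by
      have : y = (y - Real.pi * I) + Real.pi * I := by ring
      conv_lhs => rw [this, Complex.exp_add, Complex.exp_pi_mul_I]
      ring
    have h3 := Complex.norm_exp_sub_one_sub_id_le (x := y - Real.pi * I) (by linarith)
    have h4 : exp y + 1 = -((exp (y - Real.pi * I) - 1 - (y - Real.pi * I)) +
        (y - Real.pi * I)) := by
      rw [e]; ring
    rw [h4, norm_neg]
    have h5 := norm_add_le (exp (y - Real.pi * I) - 1 - (y - Real.pi * I)) (y - Real.pi * I)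
    have h6 := norm_nonneg (y - Real.pi * I)
    nlinarith
  have hsl : MapsTo (fun x : ℂ => (x, y)) (ball 0 4) Dom := fun x hx =>
    mem_Dom (mem_ball_zero_iff.1 hx) hyq
  have hf : DifferentiableOn ℂ (fun x => N1 x y) (ball 0 4) :=
    h.hN1.comp (f := fun x : ℂ => (x, y)) (by fun_prop) hsl
  have hg : DifferentiableOn ℂ (fun x => K x y) (ball 0 4) :=
    h.hK.comp (f := fun x : ℂ => (x, y)) (by fun_prop) hsl
  have := residue_step hf hg he (fun z hz => (h.nK z y (hsl hz)).trans h.small)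
    (h.per y hy).1 (h.per y hy).2 hx1 hx2
  rw [bt]
  have hp : (2 * Real.pi * I : ℂ) ≠ 0 := Complex.two_pi_I_ne_zero
  rw [mul_assoc, this]
  field_simp

/-! ### the variable `z` -/

def Tz : Set (ℂ × ℂ) :=
  {p | Real.log (29 / 100) < p.1.re ∧ p.1.re < Real.log (79 / 20) ∧ p.2 ∈ Yq}

theorem isOpen_Tz : IsOpen Tz := by
  have h1 : IsOpen {p : ℂ × ℂ | Real.log (29 / 100) < p.1.re} :=
    isOpen_lt (by fun_prop) (by fun_prop)
  have h2 : IsOpen {p : ℂ × ℂ | p.1.re < Real.log (79 / 20)} :=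
    isOpen_lt (by fun_prop) (by fun_prop)
  exact h1.inter (h2.inter (isOpen_Yq.preimage continuous_snd))

theorem convex_Tz : Convex ℝ Tz := by
  have h1 : Convex ℝ {y : ℂ | Real.log (29 / 100) < y.re} := convex_halfSpace_re_gt _
  have h2 : Convex ℝ {y : ℂ | y.re < Real.log (79 / 20)} := convex_halfSpace_re_lt _
  have h := (h1.inter h2).prod convex_Yq
  convert h using 1
  ext p
  simp only [Tz, mem_ofPred_eq, mem_prod, mem_inter_iff]
  tauto

theorem exp_mem_Rg {z y : ℂ} (h : (z, y) ∈ Tz) : (exp z, y) ∈ Rg := by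
  obtain ⟨h1, h2, h3⟩ := h
  simp only at h1 h2 h3
  refine ⟨?_, ?_, h3⟩
  · simp only
    rw [Complex.norm_exp, ← Real.exp_log (show (0 : ℝ) < 29 / 100 by norm_num)]
    exact Real.exp_lt_exp.2 h1
  · simp only
    rw [Complex.norm_exp, ← Real.exp_log (show (0 : ℝ) < 79 / 20 by norm_num)]
    exact Real.exp_lt_exp.2 h2

theorem Rg_Dom {x y : ℂ} (h : (x, y) ∈ Rg) : (x, y) ∈ Dom := by
  obtain ⟨-, h2, h3⟩ := h
  simp only at h2
  exact mem_Dom (by linarith) h3

noncomputable def Pz (N1 K : ℂ → ℂ → ℂ) (z y : ℂ) : ℂ := bt N1 K (exp z) y * exp z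

theorem hol_comp_exp {f : ℂ → ℂ → ℂ} {U W : Set (ℂ × ℂ)} (hf : Hol2 f U)
    (hW : ∀ z y, (z, y) ∈ W → (exp z, y) ∈ U) : Hol2 (fun z y => f (exp z) y) W := by
  have : DifferentiableOn ℂ (fun p : ℂ × ℂ => (exp p.1, p.2)) W := by fun_prop
  exact hf.comp this (fun p hp => hW p.1 p.2 hp)

theorem hol_Pz (h : Dat N1 N2 K η) : Hol2 (Pz N1 K) Tz := by
  have h1 : Hol2 (fun z y => bt N1 K (exp z) y) Tz :=
    hol_comp_exp (hol_bt h) (fun z y hz => exp_mem_Rg hz)
  have h2 : DifferentiableOn ℂ (fun p : ℂ × ℂ => exp p.1) Tz := by fun_prop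
  exact h1.mul h2

theorem Pz_mul (h : Dat N1 N2 K η) {z y : ℂ} (hz : (z, y) ∈ Tz) :
    K (exp z) y * Pz N1 K z y = exp z * N1 (exp z) y := by
  have hk : Hol2 (fun z y => K (exp z) y) Tz :=
    hol_comp_exp h.hK (fun z y hz => Rg_Dom (exp_mem_Rg hz))
  have hn : Hol2 (fun z y => N1 (exp z) y) Tz :=
    hol_comp_exp h.hN1 (fun z y hz => Rg_Dom (exp_mem_Rg hz))
  have he : DifferentiableOn ℂ (fun p : ℂ × ℂ => exp p.1) Tz := by fun_prop
  have hf : Hol2 (fun z y => K (exp z) y * Pz N1 K z y - exp z * N1 (exp z) y) Tz :=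
    (DifferentiableOn.mul hk (hol_Pz h)).sub (he.mul hn)
  have := ident2 isOpen_Tz convex_Tz hf (W := {p : ℂ × ℂ | ‖p.2 - Real.pi * I‖ < 1 / 10})
    (isOpen_lt (by fun_prop) (by fun_prop)) (by
      refine ⟨(0, Real.pi * I), by simp, ?_, ?_, Yq_of_near (by simp)⟩
      · simp only [zero_re]
        exact Real.log_neg (by norm_num) (by norm_num)
      · simp only [zero_re]
        exact Real.log_pos (by norm_num)) (by
      rintro a b ⟨hb1, hb2⟩
      have hr := exp_mem_Rg hb2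
      have := bt_mul_near h hb1 hr.1 hr.2.1
      simp only [Pz]
      simp only at this
      rw [← this]
      ring) hz
  exact sub_eq_zero.1 this

theorem bt_mul (h : Dat N1 N2 K η) {x y : ℂ} (hx : (x, y) ∈ Rg) :
    bt N1 K x y * K x y = N1 x y := by
  have hx0 : x ≠ 0 := by
    rw [← norm_pos_iff]
    have := hx.1
    simp only at this
    linarith
  have hz : (Complex.log x, y) ∈ Tz := by
    obtain ⟨h1, h2, h3⟩ := hx
    simp only at h1 h2
    refine ⟨?_, ?_, h3⟩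
    · simp only
      rw [Complex.log_re]
      exact Real.log_lt_log (by norm_num) h1
    · simp only
      rw [Complex.log_re]
      exact Real.log_lt_log (by linarith) h2
  have := Pz_mul h hz
  rw [Pz, Complex.exp_log hx0] at this
  have h2 : x * (bt N1 K x y * K x y) = x * N1 x y := by
    rw [← this]; ring
  exact mul_left_cancel₀ hx0 h2

/-! ### the potential -/

/-- the base point -/
noncomputable def zs : ℂ := ((Real.log (8 / 25) : ℝ) : ℂ)

theorem zs_re : zs.re = Real.log (8 / 25) := by simp [zs]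

theorem exp_zs : exp zs = 8 / 25 := by
  rw [zs, ← Complex.ofReal_exp, Real.exp_log (by norm_num)]
  norm_num

theorem zs_mem {y : ℂ} (hy : y ∈ Yq) : (zs, y) ∈ Tz := by
  refine ⟨?_, ?_, hy⟩
  · simp only
    rw [zs_re]
    exact Real.log_lt_log (by norm_num) (by norm_num)
  · simp only
    rw [zs_re]
    exact Real.log_lt_log (by norm_num) (by norm_num)

theorem hol_slice1 {f : ℂ → ℂ → ℂ} {U : Set (ℂ × ℂ)} (hf : Hol2 f U) {s : Set ℂ} {y : ℂ}
    (hs : ∀ z ∈ s, (z, y) ∈ U) : DifferentiableOn ℂ (fun z => f z y) s :=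
  hf.comp (f := fun z : ℂ => (z, y)) (by fun_prop) hs

theorem hol_slice2 {f : ℂ → ℂ → ℂ} {U : Set (ℂ × ℂ)} (hf : Hol2 f U) {s : Set ℂ} {x : ℂ}
    (hs : ∀ z ∈ s, (x, z) ∈ U) : DifferentiableOn ℂ (fun z => f x z) s :=
  hf.comp (f := fun z : ℂ => (x, z)) (by fun_prop) hs

/-- the strip of the variable `z` -/
def Ts : Set ℂ := {z | Real.log (29 / 100) < z.re ∧ z.re < Real.log (79 / 20)}

theorem isOpen_Ts : IsOpen Ts := by
  have h1 : IsOpen {p : ℂ | Real.log (29 / 100) < p.re} :=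
    isOpen_lt (by fun_prop) (by fun_prop)
  have h2 : IsOpen {p : ℂ | p.re < Real.log (79 / 20)} :=
    isOpen_lt (by fun_prop) (by fun_prop)
  exact h1.inter h2

theorem convex_Ts : Convex ℝ Ts := by
  have h1 : Convex ℝ {y : ℂ | Real.log (29 / 100) < y.re} := convex_halfSpace_re_gt _
  have h2 : Convex ℝ {y : ℂ | y.re < Real.log (79 / 20)} := convex_halfSpace_re_lt _
  exact h1.inter h2

theorem mem_Tz {z y : ℂ} (hz : z ∈ Ts) (hy : y ∈ Yq) : (z, y) ∈ Tz := ⟨hz.1, hz.2, hy⟩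

theorem mem_Ts {z y : ℂ} (hz : (z, y) ∈ Tz) : z ∈ Ts := ⟨hz.1, hz.2.1⟩

theorem zs_Ts : zs ∈ Ts := by
  have h0 : (0 : ℂ) ∈ Yq := by
    refine ⟨by simp, by simp, ?_⟩
    simp only [zero_im]
    have := Real.pi_pos
    linarith
  exact mem_Ts (zs_mem h0)

theorem seg_Ts {z : ℂ} (hz : z ∈ Ts) {t : ℝ} (ht : t ∈ Icc (0 : ℝ) 1) :
    zs + (t : ℂ) * (z - zs) ∈ Ts := by
  have := convex_Ts.add_smul_sub_mem zs_Ts hz ht
  rwa [Complex.real_smul] at this

theorem hol_seg {P : ℂ → ℂ → ℂ} (hP : Hol2 P Tz) :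
    Hol2 (fun z y => ∫ t in (0 : ℝ)..1, P (zs + (t : ℂ) * (z - zs)) y) Tz := by
  set Ω : Set ((ℂ × ℂ) × ℂ) := (fun q : (ℂ × ℂ) × ℂ => (zs + q.2 * (q.1.1 - zs), q.1.2)) ⁻¹' Tz
    with hΩd
  have hΩ : IsOpen Ω := isOpen_Tz.preimage (by fun_prop)
  have hF : DifferentiableOn ℂ (fun q : (ℂ × ℂ) × ℂ => P (zs + q.2 * (q.1.1 - zs)) q.1.2) Ω :=
    hP.comp (f := fun q : (ℂ × ℂ) × ℂ => (zs + q.2 * (q.1.1 - zs), q.1.2)) (by fun_prop)
      (fun q hq => hq)
  exact param_unit hΩ hF isOpen_Tz (by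
    rintro ⟨z, y⟩ hp t ht
    exact mem_Tz (seg_Ts (mem_Ts hp) ht) hp.2.2)

theorem seg_prim {P : ℂ → ℂ → ℂ} (hP : Hol2 P Tz) {y : ℂ} (hy : y ∈ Yq) :
    ∃ Φ : ℂ → ℂ, (∀ z ∈ Ts, HasDerivAt Φ (P z y) z) ∧
      ∀ z ∈ Ts, (z - zs) * ∫ t in (0 : ℝ)..1, P (zs + (t : ℂ) * (z - zs)) y = Φ z - Φ zs := by
  have hd : DifferentiableOn ℂ (fun z => P z y) Ts := hol_slice1 hP (fun z hz => mem_Tz hz hy)
  obtain ⟨Φ, hΦ⟩ := convex_Ts.exists_forall_hasDerivWithinAt hd
  have hΦ' : ∀ z ∈ Ts, HasDerivAt Φ (P z y) z := fun z hz =>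
    (hΦ z hz).hasDerivAt (isOpen_Ts.mem_nhds hz)
  refine ⟨Φ, hΦ', fun z hz => ?_⟩
  have hm : ∀ t ∈ Icc (0 : ℝ) 1, zs + t • (z - zs) ∈ Ts := fun t ht =>
    convex_Ts.add_smul_sub_mem zs_Ts hz ht
  have := intervalIntegral.integral_unitInterval_deriv_eq_sub (𝕜 := ℂ) (f := Φ) (f' := fun z => P z y) (z₀ := zs)
    (z₁ := z - zs) (by
      apply hd.continuousOn.comp (by fun_prop) hm) (fun t ht => hΦ' _ (hm t ht))
  simp only [smul_eq_mul, Complex.real_smul, add_sub_cancel] at this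
  exact this

theorem norm_le_of_Yq {y : ℂ} (h : y ∈ Yq) : ‖y‖ ≤ 8 := (norm_lt_of_Yr (Yq_subset_Yr h)).le

theorem zero_Yq : (0 : ℂ) ∈ Yq := by
  refine ⟨by simp, by simp, ?_⟩
  simp only [zero_im]
  have := Real.pi_pos
  linarith

theorem Dat.N2K (h : Dat N1 N2 K η) {x y : ℂ} (hy : y ∈ Yq) (h1 : 28 / 100 ≤ ‖x‖)
    (h2 : ‖x‖ ≤ 36 / 100) : ‖N2 x y / K x y‖ ≤ 60 * η := by
  have a1 := h.low_in hy h1 h2
  have a2 := h.n2 x y (by linarith) hy
  have a3 := h.pos
  rw [norm_div, div_le_iff₀ (by linarith)]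
  nlinarith

theorem exists_V (h : Dat N1 N2 K η) : ∃ V : ℂ → ℂ → ℂ, Hol2 V Tz ∧
    (∀ z y, (z, y) ∈ Tz → d1 V z y = Pz N1 K z y) ∧
    (∀ y ∈ Yq, d2 V zs y = N2 (8 / 25) y / K (8 / 25) y) ∧
    (∀ y ∈ Yq, ‖V zs y - nu * zs‖ ≤ 480 * η) := by
  have hx : ‖(8 / 25 : ℂ)‖ = 8 / 25 := by
    rw [norm_div]; simp
  have hWd : DifferentiableOn ℂ (fun y => N2 (8 / 25) y / K (8 / 25) y) Yq := by
    have hm : ∀ y ∈ Yq, ((8 / 25 : ℂ), y) ∈ Dom := fun y hy => mem_Dom (by rw [hx]; norm_num) hy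
    have f1 := hol_slice2 h.hN2 hm
    have f2 := hol_slice2 h.hK hm
    exact f1.fun_div f2 (by
      intro y hy h0
      have := h.low_in hy (x := 8 / 25) (by rw [hx]; norm_num) (by rw [hx]; norm_num)
      rw [h0, norm_zero] at this
      norm_num at this)
  obtain ⟨W0, hW0⟩ := convex_Yq.exists_forall_hasDerivWithinAt hWd
  have hW : ∀ y ∈ Yq, HasDerivAt (fun y => W0 y - W0 0) (N2 (8 / 25) y / K (8 / 25) y) y :=
    fun y hy => ((hW0 y hy).hasDerivAt (isOpen_Yq.mem_nhds hy)).sub_const _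
  set W : ℂ → ℂ := fun y => W0 y - W0 0 with hWdef
  have hP := hol_Pz h
  refine ⟨fun z y => nu * zs + W y + (z - zs) *
    ∫ t in (0 : ℝ)..1, Pz N1 K (zs + (t : ℂ) * (z - zs)) y, ?_, ?_, ?_, ?_⟩
  · have h1 : DifferentiableOn ℂ (fun p : ℂ × ℂ => W p.2) Tz := by
      have hWo : DifferentiableOn ℂ W Yq := fun y hy =>
        (hW y hy).differentiableAt.differentiableWithinAt
      exact hWo.comp (f := fun p : ℂ × ℂ => p.2) (by fun_prop) (fun p hp => hp.2.2)
    have h2 : DifferentiableOn ℂ (fun p : ℂ × ℂ => p.1 - zs) Tz := by fun_prop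
    have h3 := h2.mul (hol_seg hP)
    exact (h1.const_add (nu * zs)).add h3
  · intro z y hz
    obtain ⟨Φ, hΦ1, hΦ2⟩ := seg_prim hP hz.2.2
    have e : (fun z => nu * zs + W y + (z - zs) *
        ∫ t in (0 : ℝ)..1, Pz N1 K (zs + (t : ℂ) * (z - zs)) y) =ᶠ[𝓝 z]
        (fun z => nu * zs + W y + (Φ z - Φ zs)) := by
      filter_upwards [isOpen_Ts.mem_nhds (mem_Ts hz)] with w hw
      rw [hΦ2 w hw]
    rw [d1, e.deriv_eq]
    exact (((hΦ1 z (mem_Ts hz)).sub_const _).const_add _).deriv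
  · intro y hy
    have e : (fun y => nu * zs + W y + (zs - zs) *
        ∫ t in (0 : ℝ)..1, Pz N1 K (zs + (t : ℂ) * (zs - zs)) y) = (fun y => nu * zs + W y) := by
      funext y
      rw [sub_self, zero_mul, add_zero]
    rw [d2, e]
    exact ((hW y hy).const_add _).deriv
  · intro y hy
    have e : nu * zs + W y + (zs - zs) *
        (∫ t in (0 : ℝ)..1, Pz N1 K (zs + (t : ℂ) * (zs - zs)) y) - nu * zs = W y - W 0 := by
      rw [sub_self, zero_mul, add_zero, hWdef]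
      ring
    simp only
    rw [e]
    have hb := convex_Yq.norm_image_sub_le_of_norm_deriv_le (𝕜 := ℂ) (f := W) (C := 60 * η)
      (fun y hy => (hW y hy).differentiableAt) (fun y hy => by
        rw [(hW y hy).deriv]
        exact h.N2K hy (by rw [hx]; norm_num) (by rw [hx]; norm_num)) zero_Yq hy
    have h1 := norm_le_of_Yq hy
    have h2 := h.pos
    rw [sub_zero] at hb
    nlinarith

theorem hasD1 {f : ℂ → ℂ → ℂ} {U : Set (ℂ × ℂ)} (hU : IsOpen U) (hf : Hol2 f U) {x y : ℂ}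
    (h : (x, y) ∈ U) : HasDerivAt (fun t => f t y) (d1 f x y) x := by
  have h1 : DifferentiableAt ℂ (fun p : ℂ × ℂ => f p.1 p.2) (x, y) :=
    hf.differentiableAt (hU.mem_nhds h)
  have h2 : DifferentiableAt ℂ (fun t : ℂ => f t y) x :=
    h1.comp (f := fun t : ℂ => (t, y)) x (by fun_prop)
  exact h2.hasDerivAt

theorem hasD2 {f : ℂ → ℂ → ℂ} {U : Set (ℂ × ℂ)} (hU : IsOpen U) (hf : Hol2 f U) {x y : ℂ}
    (h : (x, y) ∈ U) : HasDerivAt (fun t => f x t) (d2 f x y) y := by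
  have h1 : DifferentiableAt ℂ (fun p : ℂ × ℂ => f p.1 p.2) (x, y) :=
    hf.differentiableAt (hU.mem_nhds h)
  have h2 : DifferentiableAt ℂ (fun t : ℂ => f x t) y :=
    h1.comp (f := fun t : ℂ => (x, t)) y (by fun_prop)
  exact h2.hasDerivAt

/-- the thin strip -/
def Ss : Set ℂ := {z | Real.log (29 / 100) < z.re ∧ z.re < Real.log (36 / 100)}

theorem isOpen_Ss : IsOpen Ss := by
  have h1 : IsOpen {p : ℂ | Real.log (29 / 100) < p.re} :=
    isOpen_lt (by fun_prop) (by fun_prop)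
  have h2 : IsOpen {p : ℂ | p.re < Real.log (36 / 100)} :=
    isOpen_lt (by fun_prop) (by fun_prop)
  exact h1.inter h2

theorem convex_Ss : Convex ℝ Ss := by
  have h1 : Convex ℝ {y : ℂ | Real.log (29 / 100) < y.re} := convex_halfSpace_re_gt _
  have h2 : Convex ℝ {y : ℂ | y.re < Real.log (36 / 100)} := convex_halfSpace_re_lt _
  exact h1.inter h2

theorem Ss_Ts {z : ℂ} (hz : z ∈ Ss) : z ∈ Ts :=
  ⟨hz.1, hz.2.trans (Real.log_lt_log (by norm_num) (by norm_num))⟩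

theorem zs_Ss : zs ∈ Ss := by
  refine ⟨?_, ?_⟩
  · rw [zs_re]
    exact Real.log_lt_log (by norm_num) (by norm_num)
  · rw [zs_re]
    exact Real.log_lt_log (by norm_num) (by norm_num)

theorem exp_Ss {z : ℂ} (hz : z ∈ Ss) : 28 / 100 ≤ ‖exp z‖ ∧ ‖exp z‖ ≤ 36 / 100 := by
  obtain ⟨h1, h2⟩ := hz
  rw [Complex.norm_exp]
  constructor
  · have : (28 : ℝ) / 100 ≤ 29 / 100 := by norm_num
    refine this.trans ?_
    rw [← Real.exp_log (show (0 : ℝ) < 29 / 100 by norm_num)]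
    exact Real.exp_le_exp.2 h1.le
  · rw [← Real.exp_log (show (0 : ℝ) < 36 / 100 by norm_num)]
    exact Real.exp_le_exp.2 h2.le

theorem Dat.ne_Ss (h : Dat N1 N2 K η) {z y : ℂ} (hz : z ∈ Ss) (hy : y ∈ Yq) :
    K (exp z) y ≠ 0 := by
  intro h0
  have := h.low_in hy (exp_Ss hz).1 (exp_Ss hz).2
  rw [h0, norm_zero] at this
  norm_num at this

theorem const_of_deriv {f : ℂ → ℂ} {s : Set ℂ} (hs : Convex ℝ s)
    (hd : ∀ z ∈ s, HasDerivAt f 0 z) {a b : ℂ} (ha : a ∈ s) (hb : b ∈ s) : f b = f a := by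
  have := hs.norm_image_sub_le_of_norm_deriv_le (𝕜 := ℂ) (f := f) (C := 0)
    (fun z hz => (hd z hz).differentiableAt) (fun z hz => by rw [(hd z hz).deriv, norm_zero])
    ha hb
  rw [zero_mul, norm_le_zero_iff, sub_eq_zero] at this
  exact this

/-- the second derivative on the thin strip -/
theorem d2_thin (h : Dat N1 N2 K η) {V : ℂ → ℂ → ℂ} (hV : Hol2 V Tz)
    (hV1 : ∀ z y, (z, y) ∈ Tz → d1 V z y = Pz N1 K z y)
    (hV2 : ∀ y ∈ Yq, d2 V zs y = N2 (8 / 25) y / K (8 / 25) y) {z y : ℂ} (hz : z ∈ Ss)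
    (hy : y ∈ Yq) : K (exp z) y * d2 V z y = N2 (exp z) y := by
  have hV2' := hV.d2 isOpen_Tz
  have hP : ∀ w ∈ Ss, ∀ t ∈ Yq, Pz N1 K w t = exp w * (N1 (exp w) t / K (exp w) t) := by
    intro w hw t ht
    have h1 := Pz_mul h (mem_Tz (Ss_Ts hw) ht)
    have h2 := h.ne_Ss hw ht
    field_simp
    rw [mul_comm]
    exact h1
  have hE : ∀ w ∈ Ss, HasDerivAt (fun w => d2 V w y - N2 (exp w) y / K (exp w) y) 0 w := by
    intro w hw
    have hwT := mem_Tz (Ss_Ts hw) hy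
    have hwD : (exp w, y) ∈ Dom := Rg_Dom (exp_mem_Rg hwT)
    have hne := h.ne_Ss hw hy
    have a1 := hasD1 isOpen_Tz hV2' hwT
    have a2 : HasDerivAt (fun w => N2 (exp w) y) (d1 N2 (exp w) y * exp w) w :=
      (hasD1 isOpen_Dom h.hN2 hwD).comp w (Complex.hasDerivAt_exp w)
    have a3 : HasDerivAt (fun w => K (exp w) y) (d1 K (exp w) y * exp w) w :=
      (hasD1 isOpen_Dom h.hK hwD).comp w (Complex.hasDerivAt_exp w)
    have a4 := a1.sub (a2.fun_div a3 hne)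
    have b1 := hasD2 isOpen_Dom h.hN1 hwD
    have b2 := hasD2 isOpen_Dom h.hK hwD
    have b3 := (b1.fun_div b2 hne).const_mul (exp w)
    have b4 : HasDerivAt (fun t => d1 V w t) (exp w * ((d2 N1 (exp w) y * K (exp w) y -
        N1 (exp w) y * d2 K (exp w) y) / K (exp w) y ^ 2)) y := by
      refine b3.congr_of_eventuallyEq ?_
      filter_upwards [isOpen_Yq.mem_nhds hy] with t ht
      rw [hV1 w t (mem_Tz (Ss_Ts hw) ht), hP w hw t ht]
    have b5 : d1 (d2 V) w y = exp w * ((d2 N1 (exp w) y * K (exp w) y -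
        N1 (exp w) y * d2 K (exp w) y) / K (exp w) y ^ 2) := by
      rw [d_comm isOpen_Tz hV hwT]
      exact b4.deriv
    have c1 := h.cl (exp w) y hwD
    refine a4.congr_deriv ?_
    rw [b5]
    field_simp
    linear_combination (-exp w) * c1
  have h1 := const_of_deriv convex_Ss hE zs_Ss hz
  rw [hV2 y hy, exp_zs, sub_self] at h1
  rw [sub_eq_zero] at h1
  rw [h1]
  have hne := h.ne_Ss hz hy
  field_simp

theorem d2_all (h : Dat N1 N2 K η) {V : ℂ → ℂ → ℂ} (hV : Hol2 V Tz)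
    (hV1 : ∀ z y, (z, y) ∈ Tz → d1 V z y = Pz N1 K z y)
    (hV2 : ∀ y ∈ Yq, d2 V zs y = N2 (8 / 25) y / K (8 / 25) y) {z y : ℂ} (hz : (z, y) ∈ Tz) :
    K (exp z) y * d2 V z y = N2 (exp z) y := by
  have hk : Hol2 (fun z y => K (exp z) y) Tz :=
    hol_comp_exp h.hK (fun z y hz => Rg_Dom (exp_mem_Rg hz))
  have hn : Hol2 (fun z y => N2 (exp z) y) Tz :=
    hol_comp_exp h.hN2 (fun z y hz => Rg_Dom (exp_mem_Rg hz))
  have hf : Hol2 (fun z y => K (exp z) y * d2 V z y - N2 (exp z) y) Tz :=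
    (DifferentiableOn.mul hk (hV.d2 isOpen_Tz)).sub hn
  have := ident2 isOpen_Tz convex_Tz hf (W := (fun p : ℂ × ℂ => p.1) ⁻¹' Ss)
    (isOpen_Ss.preimage continuous_fst) (by
      exact ⟨(zs, 0), zs_Ss, zs_mem zero_Yq⟩) (by
      rintro a b ⟨hb1, hb2⟩
      rw [d2_thin h hV hV1 hV2 hb1 hb2.2.2, sub_self]) hz
  exact sub_eq_zero.1 this

theorem shift_Ts {z : ℂ} (hz : z ∈ Ts) : z + 2 * Real.pi * I ∈ Ts := by
  have : (z + 2 * Real.pi * I).re = z.re := by simp
  exact ⟨by rw [this]; exact hz.1, by rw [this]; exact hz.2⟩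

theorem shift_Ss {z : ℂ} (hz : z ∈ Ss) : z + 2 * Real.pi * I ∈ Ss := by
  have : (z + 2 * Real.pi * I).re = z.re := by simp
  exact ⟨by rw [this]; exact hz.1, by rw [this]; exact hz.2⟩

theorem mono (h : Dat N1 N2 K η) {V : ℂ → ℂ → ℂ} (hV : Hol2 V Tz)
    (hV1 : ∀ z y, (z, y) ∈ Tz → d1 V z y = Pz N1 K z y)
    (hV2 : ∀ y ∈ Yq, d2 V zs y = N2 (8 / 25) y / K (8 / 25) y) {z y : ℂ} (hz : (z, y) ∈ Tz) :
    V (z + 2 * Real.pi * I) y - V z y = V (zs + 2 * Real.pi * I) 0 - V zs 0 := by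
  have hy : y ∈ Yq := hz.2.2
  have h1 : ∀ w ∈ Ts, HasDerivAt (fun w => V (w + 2 * Real.pi * I) y - V w y) 0 w := by
    intro w hw
    have a1 := hasD1 isOpen_Tz hV (mem_Tz hw hy)
    have a2 := hasD1 isOpen_Tz hV (mem_Tz (shift_Ts hw) hy)
    have a3 : HasDerivAt (fun w => V (w + 2 * Real.pi * I) y)
        (d1 V (w + 2 * Real.pi * I) y) w := a2.comp_add_const w (2 * Real.pi * I)
    refine (a3.sub a1).congr_deriv ?_
    rw [hV1 _ _ (mem_Tz hw hy), hV1 _ _ (mem_Tz (shift_Ts hw) hy), Pz, Pz,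
      Complex.exp_periodic w, sub_self]
  have h2 : ∀ t ∈ Yq, HasDerivAt (fun t => V (zs + 2 * Real.pi * I) t - V zs t) 0 t := by
    intro t ht
    have a1 := hasD2 isOpen_Tz hV (mem_Tz zs_Ts ht)
    have a2 := hasD2 isOpen_Tz hV (mem_Tz (shift_Ts zs_Ts) ht)
    refine (a2.sub a1).congr_deriv ?_
    have b1 := d2_thin h hV hV1 hV2 zs_Ss ht
    have b2 := d2_thin h hV hV1 hV2 (shift_Ss zs_Ss) ht
    rw [Complex.exp_periodic zs] at b2
    have hne := h.ne_Ss zs_Ss ht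
    exact mul_left_cancel₀ hne (by rw [mul_sub, b1, b2, sub_self, mul_zero])
  have e1 := const_of_deriv convex_Ts h1 zs_Ts (mem_Ts hz)
  have e2 := const_of_deriv convex_Yq h2 zero_Yq hy
  exact e1.trans e2

theorem int_circle (h : Dat N1 N2 K η) {V : ℂ → ℂ → ℂ} (hV : Hol2 V Tz)
    (hV1 : ∀ z y, (z, y) ∈ Tz → d1 V z y = Pz N1 K z y) {y : ℂ} (hy : y ∈ Yq) :
    (∮ x in C(0, 8 / 25), N1 x y / K x y) = V (zs + 2 * Real.pi * I) y - V zs y := by
  have hm : ∀ θ : ℝ, zs + (θ : ℂ) * I ∈ Ss := by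
    intro θ
    have : (zs + (θ : ℂ) * I).re = zs.re := by simp
    exact ⟨by rw [this]; exact zs_Ss.1, by rw [this]; exact zs_Ss.2⟩
  have hcm : ∀ θ : ℝ, circleMap 0 (8 / 25) θ = exp (zs + (θ : ℂ) * I) := by
    intro θ
    rw [Complex.exp_add, exp_zs, circleMap]
    push_cast
    ring
  have hd : ∀ θ : ℝ, HasDerivAt (fun θ : ℝ => V (zs + (θ : ℂ) * I) y)
      (Pz N1 K (zs + (θ : ℂ) * I) y * I) θ := by
    intro θ
    have a1 := hasD1 isOpen_Tz hV (mem_Tz (Ss_Ts (hm θ)) hy)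
    have a2 : HasDerivAt (fun w : ℂ => zs + w * I) I ((θ : ℝ) : ℂ) := by
      simpa using ((hasDerivAt_id ((θ : ℝ) : ℂ)).mul_const I).const_add zs
    have a3 := (a1.comp ((θ : ℝ) : ℂ) a2).comp_ofReal
    rw [hV1 _ _ (mem_Tz (Ss_Ts (hm θ)) hy)] at a3
    exact a3
  have hcont : Continuous (fun θ : ℝ => Pz N1 K (zs + (θ : ℂ) * I) y * I) := by
    apply Continuous.mul _ continuous_const
    have h1 : ContinuousOn (fun z => Pz N1 K z y) Ts :=
      (hol_slice1 (hol_Pz h) (fun z hz => mem_Tz hz hy)).continuousOn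
    exact h1.comp_continuous (by fun_prop) (fun θ => Ss_Ts (hm θ))
  have hF := intervalIntegral.integral_eq_sub_of_hasDerivAt (a := 0) (b := 2 * Real.pi)
    (fun θ _ => hd θ) (hcont.intervalIntegrable _ _)
  have e : (∮ x in C(0, 8 / 25), N1 x y / K x y) =
      ∫ θ in (0 : ℝ)..(2 * Real.pi), Pz N1 K (zs + (θ : ℂ) * I) y * I := by
    rw [circleIntegral]
    apply intervalIntegral.integral_congr
    intro θ _
    simp only
    rw [deriv_circleMap, hcm θ, smul_eq_mul]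
    have h1 := Pz_mul h (mem_Tz (Ss_Ts (hm θ)) hy)
    have h2 := h.ne_Ss (hm θ) hy
    field_simp
    rw [← h1]
  rw [e, hF]
  simp

/-! ### estimates -/

theorem norm_nu : ‖nu‖ ≤ 3 / 2 := by
  have h : ‖nu‖ ^ 2 = 2 := by
    rw [← Complex.normSq_eq_norm_sq, nu, Complex.normSq_apply]
    simp
    norm_num
  by_contra hc
  push Not at hc
  nlinarith

theorem Dat.quot (h : Dat N1 N2 K η) {x y : ℂ} (hy : y ∈ Yq) (hx : ‖x‖ ≤ 99 / 25) (hx0 : x ≠ 0)
    (hK : K x y ≠ 0) : ‖N1 x y / K x y - nu / x‖ ≤ (‖x‖ + 3 / 2) * η / (‖x‖ * ‖K x y‖) := by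
  have e : N1 x y / K x y - nu / x =
      (x * (N1 x y - nu * hh x y) - nu * (K x y - x * hh x y)) / (x * K x y) := by
    field_simp
    ring
  rw [e, norm_div, norm_mul x (K x y)]
  apply div_le_div_of_nonneg_right _ (by positivity)
  have a1 := norm_sub_le (x * (N1 x y - nu * hh x y)) (nu * (K x y - x * hh x y))
  rw [norm_mul, norm_mul] at a1
  have a2 := h.n1 x y hx hy
  have a3 := h.nK x y (mem_Dom (by linarith) hy)
  have a4 : ‖x‖ * ‖N1 x y - nu * hh x y‖ ≤ ‖x‖ * η := mul_le_mul_of_nonneg_left a2 (norm_nonneg _)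
  have a5 : ‖nu‖ * ‖K x y - x * hh x y‖ ≤ 3 / 2 * η :=
    mul_le_mul norm_nu a3 (norm_nonneg _) (by norm_num)
  linarith

theorem Dat.quot_in (h : Dat N1 N2 K η) {x y : ℂ} (hy : y ∈ Yq) (h1 : 28 / 100 ≤ ‖x‖)
    (h2 : ‖x‖ ≤ 36 / 100) : ‖N1 x y / K x y - nu / x‖ ≤ 400 * η := by
  have a1 := h.low_in hy h1 h2
  have hx0 : x ≠ 0 := by rw [← norm_pos_iff]; linarith
  have hK : K x y ≠ 0 := by rw [← norm_pos_iff]; linarith
  refine (h.quot hy (by linarith) hx0 hK).trans ?_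
  have a2 : 28 / 100 * (18 / 1000) ≤ ‖x‖ * ‖K x y‖ :=
    mul_le_mul h1 a1 (by norm_num) (norm_nonneg _)
  have a3 := h.pos
  rw [div_le_iff₀ (by linarith)]
  nlinarith

theorem Dat.quot_out (h : Dat N1 N2 K η) {x y : ℂ} (hy : y ∈ Yq) (h1 : 39 / 10 ≤ ‖x‖)
    (h2 : ‖x‖ ≤ 99 / 25) : ‖N1 x y / K x y - nu / x‖ ≤ 400 * η := by
  have a1 := h.low_out hy h1 h2
  have hx0 : x ≠ 0 := by rw [← norm_pos_iff]; linarith
  have hK : K x y ≠ 0 := by rw [← norm_pos_iff]; linarith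
  refine (h.quot hy (by linarith) hx0 hK).trans ?_
  have a2 : 39 / 10 * 19 ≤ ‖x‖ * ‖K x y‖ :=
    mul_le_mul h1 a1 (by norm_num) (norm_nonneg _)
  have a3 := h.pos
  rw [div_le_iff₀ (by linarith)]
  nlinarith

theorem ci_one (h : Dat N1 N2 K η) {r : ℝ} (hr : 0 < r) (hr4 : r < 4) {y : ℂ} (hy : y ∈ Yq)
    (h0 : ∀ ξ : ℂ, ‖ξ‖ = r → K ξ y ≠ 0) {x : ℂ} (hx : ‖x‖ ≠ r) :
    CircleIntegrable (fun ξ => (ξ - x)⁻¹ * (N1 ξ y / K ξ y)) 0 r := by
  apply ContinuousOn.circleIntegrable hr.le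
  have hm : ∀ ξ ∈ sphere (0 : ℂ) r, (ξ, y) ∈ Dom := fun ξ hξ =>
    mem_Dom (by rw [mem_sphere_zero_iff_norm.1 hξ]; exact hr4) hy
  have f1 := (hol_slice1 h.hN1 hm).continuousOn
  have f2 := (hol_slice1 h.hK hm).continuousOn
  apply ContinuousOn.mul _ (f1.div f2 (fun ξ hξ => h0 ξ (mem_sphere_zero_iff_norm.1 hξ)))
  apply ContinuousOn.inv₀ (by fun_prop)
  intro ξ hξ he
  rw [sub_eq_zero] at he
  rw [mem_sphere_zero_iff_norm, he] at hξ
  exact hx hξ

theorem ci_two {r : ℝ} (hr : 0 < r) {x : ℂ} (hx : ‖x‖ ≠ r) :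
    CircleIntegrable (fun ξ => (ξ - x)⁻¹ * (nu / ξ)) 0 r := by
  apply ContinuousOn.circleIntegrable hr.le
  apply ContinuousOn.mul
  · apply ContinuousOn.inv₀ (by fun_prop)
    intro ξ hξ he
    rw [sub_eq_zero] at he
    rw [mem_sphere_zero_iff_norm, he] at hξ
    exact hx hξ
  · apply ContinuousOn.div continuousOn_const continuousOn_id
    intro ξ hξ he
    rw [mem_sphere_zero_iff_norm] at hξ
    simp only [id_eq] at he
    rw [he, norm_zero] at hξ
    exact hr.ne hξ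

theorem bt_near (h : Dat N1 N2 K η) {x y : ℂ} (hy : y ∈ Yq) (hx1 : 3 / 10 ≤ ‖x‖)
    (hx2 : ‖x‖ ≤ 39 / 10) : ‖bt N1 K x y - nu / x‖ ≤ 43200 * η := by
  have hη := h.pos
  have k1 : ∀ ξ : ℂ, ‖ξ‖ = 79 / 20 → K ξ y ≠ 0 := by
    intro ξ hξ h0
    have := h.low_out hy (x := ξ) (by rw [hξ]; norm_num) (by rw [hξ]; norm_num)
    rw [h0, norm_zero] at this
    norm_num at this
  have k2 : ∀ ξ : ℂ, ‖ξ‖ = 29 / 100 → K ξ y ≠ 0 := by
    intro ξ hξ h0
    have := h.low_in hy (x := ξ) (by rw [hξ]; norm_num) (by rw [hξ]; norm_num)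
    rw [h0, norm_zero] at this
    norm_num at this
  have i1 := ci_one h (r := 79 / 20) (by norm_num) (by norm_num) hy k1 (x := x)
    (by intro he; rw [he] at hx2; norm_num at hx2)
  have i2 := ci_one h (r := 29 / 100) (by norm_num) (by norm_num) hy k2 (x := x)
    (by intro he; rw [he] at hx1; norm_num at hx1)
  have j1 := ci_two (r := 79 / 20) (by norm_num) (x := x)
    (by intro he; rw [he] at hx2; norm_num at hx2)
  have j2 := ci_two (r := 29 / 100) (by norm_num) (x := x)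
    (by intro he; rw [he] at hx1; norm_num at hx1)
  have hring := ring_int (l := fun _ => nu) (r := 29 / 100) (R := 79 / 20) (ρ := 99 / 25)
    (differentiableOn_const _) (by norm_num)
    (by norm_num) (by norm_num) (x0 := 0) (x := x) (by simp) (by linarith)
    (by linarith)
  simp only [sub_zero] at hring
  have hp : (2 * Real.pi * I : ℂ) ≠ 0 := Complex.two_pi_I_ne_zero
  have e : bt N1 K x y - nu / x =
      (2 * Real.pi * I : ℂ)⁻¹ • (∮ ξ in C(0, 79 / 20), ((ξ - x)⁻¹ * (N1 ξ y / K ξ y) -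
        (ξ - x)⁻¹ * (nu / ξ))) -
      (2 * Real.pi * I : ℂ)⁻¹ • (∮ ξ in C(0, 29 / 100), ((ξ - x)⁻¹ * (N1 ξ y / K ξ y) -
        (ξ - x)⁻¹ * (nu / ξ))) := by
    rw [circleIntegral.integral_sub i1 j1, circleIntegral.integral_sub i2 j2, bt]
    have : nu / x = (2 * Real.pi * I : ℂ)⁻¹ * (2 * Real.pi * I * (nu / x)) := by
      field_simp
    rw [this, ← hring]
    simp only [smul_eq_mul]
    ring
  rw [e]
  have b1 := circleIntegral.norm_two_pi_i_inv_smul_integral_le_of_norm_le_const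
    (c := 0) (R := 79 / 20) (C := 20 * (400 * η)) (f := fun ξ => (ξ - x)⁻¹ * (N1 ξ y / K ξ y) -
        (ξ - x)⁻¹ * (nu / ξ)) (by norm_num) (by
      intro ξ hξ
      rw [mem_sphere_zero_iff_norm] at hξ
      rw [← mul_sub, norm_mul]
      have c1 := h.quot_out hy (x := ξ) (by rw [hξ]; norm_num) (by rw [hξ]; norm_num)
      have c2 : 1 / 20 ≤ ‖ξ - x‖ := by
        have := norm_sub_norm_le ξ x
        rw [hξ] at this
        linarith
      have c3 : ‖(ξ - x)⁻¹‖ ≤ 20 := by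
        rw [norm_inv]
        have := inv_anti₀ (by norm_num : (0 : ℝ) < 1 / 20) c2
        norm_num at this
        exact this
      exact mul_le_mul c3 c1 (norm_nonneg _) (by norm_num))
  have b2 := circleIntegral.norm_two_pi_i_inv_smul_integral_le_of_norm_le_const
    (c := 0) (R := 29 / 100) (C := 100 * (400 * η)) (f := fun ξ => (ξ - x)⁻¹ * (N1 ξ y / K ξ y) -
        (ξ - x)⁻¹ * (nu / ξ)) (by norm_num) (by
      intro ξ hξ
      rw [mem_sphere_zero_iff_norm] at hξ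
      rw [← mul_sub, norm_mul]
      have c1 := h.quot_in hy (x := ξ) (by rw [hξ]; norm_num) (by rw [hξ]; norm_num)
      have c2 : 1 / 100 ≤ ‖ξ - x‖ := by
        have := norm_sub_norm_le x ξ
        rw [hξ, norm_sub_rev] at this
        linarith
      have c3 : ‖(ξ - x)⁻¹‖ ≤ 100 := by
        rw [norm_inv]
        have := inv_anti₀ (by norm_num : (0 : ℝ) < 1 / 100) c2
        norm_num at this
        exact this
      exact mul_le_mul c3 c1 (norm_nonneg _) (by norm_num))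
  have b3 := norm_sub_le ((2 * Real.pi * I : ℂ)⁻¹ • (∮ ξ in C(0, 79 / 20),
    ((ξ - x)⁻¹ * (N1 ξ y / K ξ y) - (ξ - x)⁻¹ * (nu / ξ)))) ((2 * Real.pi * I : ℂ)⁻¹ •
      (∮ ξ in C(0, 29 / 100), ((ξ - x)⁻¹ * (N1 ξ y / K ξ y) - (ξ - x)⁻¹ * (nu / ξ))))
  linarith

/-- the strip of `Zd` -/
def Us : Set ℂ := {z | Real.log (3 / 10) < z.re ∧ z.re < Real.log (39 / 10)}

theorem convex_Us : Convex ℝ Us := by
  have h1 : Convex ℝ {y : ℂ | Real.log (3 / 10) < y.re} := convex_halfSpace_re_gt _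
  have h2 : Convex ℝ {y : ℂ | y.re < Real.log (39 / 10)} := convex_halfSpace_re_lt _
  exact h1.inter h2

theorem Us_Ts {z : ℂ} (hz : z ∈ Us) : z ∈ Ts :=
  ⟨(Real.log_lt_log (by norm_num) (by norm_num)).trans hz.1,
    hz.2.trans (Real.log_lt_log (by norm_num) (by norm_num))⟩

theorem Zd_Tz {z y : ℂ} (hz : (z, y) ∈ Zd) : (z, y) ∈ Tz :=
  mem_Tz (Us_Ts ⟨hz.1, hz.2.1⟩) hz.2.2.2.2

theorem zs_Us : zs ∈ Us := by
  refine ⟨?_, ?_⟩
  · rw [zs_re]
    exact Real.log_lt_log (by norm_num) (by norm_num)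
  · rw [zs_re]
    exact Real.log_lt_log (by norm_num) (by norm_num)

theorem exp_Us {z : ℂ} (hz : z ∈ Us) : 3 / 10 ≤ ‖exp z‖ ∧ ‖exp z‖ ≤ 39 / 10 := by
  obtain ⟨h1, h2⟩ := hz
  rw [Complex.norm_exp]
  constructor
  · rw [← Real.exp_log (show (0 : ℝ) < 3 / 10 by norm_num)]
    exact Real.exp_le_exp.2 h1.le
  · rw [← Real.exp_log (show (0 : ℝ) < 39 / 10 by norm_num)]
    exact Real.exp_le_exp.2 h2.le

theorem Pz_near (h : Dat N1 N2 K η) {z y : ℂ} (hy : y ∈ Yq) (hz : z ∈ Us) :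
    ‖Pz N1 K z y - nu‖ ≤ 170000 * η := by
  have h1 := exp_Us hz
  have h2 := bt_near h hy h1.1 h1.2
  have hη := h.pos
  have e : Pz N1 K z y - nu = (bt N1 K (exp z) y - nu / exp z) * exp z := by
    rw [Pz, sub_mul, div_mul_cancel₀ _ (Complex.exp_ne_zero z)]
  rw [e, norm_mul]
  have h3 : ‖bt N1 K (exp z) y - nu / exp z‖ * ‖exp z‖ ≤ 43200 * η * (39 / 10) :=
    mul_le_mul h2 h1.2 (norm_nonneg _) (by positivity)
  linarith

theorem dist_Us {z : ℂ} (hz : z ∈ Us) (h1 : -1 < z.im) (h2 : z.im < 2 * Real.pi + 1) :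
    ‖z - zs‖ ≤ 13 := by
  have hp := Real.pi_lt_d2
  have hp0 := Real.pi_pos
  have h3 := Complex.norm_le_abs_re_add_abs_im (z - zs)
  have l1 : Real.log (39 / 10) ≤ 39 / 10 - 1 := Real.log_le_sub_one_of_pos (by norm_num)
  have l2 : -(10 / 3 - 1 : ℝ) ≤ Real.log (3 / 10) := by
    have : Real.log (3 / 10) = -Real.log (10 / 3) := by
      rw [← Real.log_inv]
      norm_num
    have h4 : Real.log (10 / 3) ≤ 10 / 3 - 1 := Real.log_le_sub_one_of_pos (by norm_num)
    linarith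
  have h5 := zs_Us
  have h6 : |(z - zs).re| ≤ 55 / 10 := by
    rw [sub_re, abs_le]
    constructor <;> linarith [hz.1, hz.2, h5.1, h5.2]
  have h7 : |(z - zs).im| ≤ 73 / 10 := by
    have : zs.im = 0 := by simp [zs]
    rw [sub_im, this, sub_zero, abs_le]
    constructor <;> linarith
  linarith

theorem V_near (h : Dat N1 N2 K η) {V : ℂ → ℂ → ℂ} (hV : Hol2 V Tz)
    (hV1 : ∀ z y, (z, y) ∈ Tz → d1 V z y = Pz N1 K z y)
    (hV3 : ∀ y ∈ Yq, ‖V zs y - nu * zs‖ ≤ 480 * η) {z y : ℂ} (hz : (z, y) ∈ Zd) :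
    ‖V z y - nu * z‖ ≤ 3000000 * η := by
  have hy : y ∈ Yq := hz.2.2.2.2
  have hzU : z ∈ Us := ⟨hz.1, hz.2.1⟩
  have hη := h.pos
  have hd : ∀ w ∈ Us, HasDerivAt (fun w => V w y - nu * w) (Pz N1 K w y - nu) w := by
    intro w hw
    have a1 := hasD1 isOpen_Tz hV (mem_Tz (Us_Ts hw) hy)
    rw [hV1 _ _ (mem_Tz (Us_Ts hw) hy)] at a1
    have a2 : HasDerivAt (fun w => nu * w) nu w := by
      simpa using (hasDerivAt_id w).const_mul nu
    exact a1.sub a2
  have h1 := convex_Us.norm_image_sub_le_of_norm_deriv_le (𝕜 := ℂ)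
    (f := fun w => V w y - nu * w) (C := 170000 * η)
    (fun w hw => (hd w hw).differentiableAt) (fun w hw => by
      rw [(hd w hw).deriv]
      exact Pz_near h hy hw) zs_Us hzU
  have h2 := hV3 y hy
  have h3 := dist_Us hzU hz.2.2.1 hz.2.2.2.1
  have h4 : 170000 * η * ‖z - zs‖ ≤ 170000 * η * 13 := mul_le_mul_of_nonneg_left h3 (by positivity)
  have h5 := norm_add_le ((V z y - nu * z) - (V zs y - nu * zs)) (V zs y - nu * zs)
  rw [sub_add_cancel] at h5
  linarith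

theorem nu_near (h : Dat N1 N2 K η) {y : ℂ} (hy : y ∈ Yq) {ν' : ℂ}
    (hν : (∮ x in C(0, 8 / 25), N1 x y / K x y) = 2 * Real.pi * I * ν') :
    ‖ν' - nu‖ ≤ 128 * η := by
  have hp : (2 * Real.pi * I : ℂ) ≠ 0 := Complex.two_pi_I_ne_zero
  have h1 : (∮ x in C(0, 8 / 25), nu / x) = 2 * Real.pi * I * nu := by
    have := circleIntegral.integral_sub_center_inv (0 : ℂ) (R := 8 / 25) (by norm_num)
    simp only [sub_zero] at this
    rw [← this, mul_comm, ← smul_eq_mul, ← circleIntegral.integral_smul]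
    simp only [smul_eq_mul, div_eq_mul_inv]
  have k1 : ∀ ξ ∈ sphere (0 : ℂ) (8 / 25), K ξ y ≠ 0 := by
    intro ξ hξ h0
    rw [mem_sphere_zero_iff_norm] at hξ
    have := h.low_in hy (x := ξ) (by rw [hξ]; norm_num) (by rw [hξ]; norm_num)
    rw [h0, norm_zero] at this
    norm_num at this
  have i1 : CircleIntegrable (fun ξ => N1 ξ y / K ξ y) 0 (8 / 25) := by
    apply ContinuousOn.circleIntegrable (by norm_num)
    have hm : ∀ ξ ∈ sphere (0 : ℂ) (8 / 25), (ξ, y) ∈ Dom := fun ξ hξ =>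
      mem_Dom (by rw [mem_sphere_zero_iff_norm.1 hξ]; norm_num) hy
    have f1 := (hol_slice1 h.hN1 hm).continuousOn
    have f2 := (hol_slice1 h.hK hm).continuousOn
    exact f1.div f2 k1
  have i2 : CircleIntegrable (fun ξ => nu / ξ) 0 (8 / 25) := by
    apply ContinuousOn.circleIntegrable (by norm_num)
    apply ContinuousOn.div continuousOn_const continuousOn_id
    intro ξ hξ he
    rw [mem_sphere_zero_iff_norm] at hξ
    simp only [id_eq] at he
    rw [he, norm_zero] at hξ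
    norm_num at hξ
  have e : ν' - nu = (2 * Real.pi * I : ℂ)⁻¹ • ∮ x in C(0, 8 / 25), (N1 x y / K x y - nu / x) := by
    rw [circleIntegral.integral_sub i1 i2, hν, h1, smul_eq_mul]
    field_simp
  rw [e]
  have b1 := circleIntegral.norm_two_pi_i_inv_smul_integral_le_of_norm_le_const
    (c := 0) (R := 8 / 25) (C := 400 * η) (f := fun ξ => N1 ξ y / K ξ y - nu / ξ) (by norm_num) (by
      intro ξ hξ
      rw [mem_sphere_zero_iff_norm] at hξ
      exact h.quot_in hy (x := ξ) (by rw [hξ]; norm_num) (by rw [hξ]; norm_num))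
  linarith

/-- the abstract theorem -/
theorem abs_gauge (h : Dat N1 N2 K η) : ∃ (V : ℂ → ℂ → ℂ) (ν' : ℂ), Hol2 V Zd ∧
    (∀ z y, (z, y) ∈ Zd → K (exp z) y * d1 V z y = exp z * N1 (exp z) y) ∧
    (∀ z y, (z, y) ∈ Zd → K (exp z) y * d2 V z y = N2 (exp z) y) ∧
    (∀ z y, (z, y) ∈ Zd → (z + 2 * Real.pi * I, y) ∈ Zd →
      V (z + 2 * Real.pi * I) y = V z y + 2 * Real.pi * I * ν') ∧
    (∀ z y, (z, y) ∈ Zd → ‖V z y - nu * z‖ ≤ 3000000 * η) ∧ ‖ν' - nu‖ ≤ 3000000 * η ∧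
    (∀ y ∈ Yq, (∮ x in C(0, 8 / 25), N1 x y / K x y) = 2 * Real.pi * I * ν') := by
  obtain ⟨V, hV, hV1, hV2, hV3⟩ := exists_V h
  have hη := h.pos
  have hp : (2 * Real.pi * I : ℂ) ≠ 0 := Complex.two_pi_I_ne_zero
  set ν' : ℂ := (2 * Real.pi * I)⁻¹ * (V (zs + 2 * Real.pi * I) 0 - V zs 0) with hν'
  have hνe : V (zs + 2 * Real.pi * I) 0 - V zs 0 = 2 * Real.pi * I * ν' := by
    rw [hν']
    field_simp
  have hint : ∀ y ∈ Yq, (∮ x in C(0, 8 / 25), N1 x y / K x y) = 2 * Real.pi * I * ν' := by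
    intro y hy
    rw [int_circle h hV hV1 hy, mono h hV hV1 hV2 (mem_Tz zs_Ts hy), hνe]
  refine ⟨V, ν', hV.mono (fun p hp => Zd_Tz hp), ?_, ?_, ?_, ?_, ?_, hint⟩
  · intro z y hz
    rw [hV1 _ _ (Zd_Tz hz)]
    exact Pz_mul h (Zd_Tz hz)
  · intro z y hz
    exact d2_all h hV hV1 hV2 (Zd_Tz hz)
  · intro z y hz _
    rw [← hνe, ← mono h hV hV1 hV2 (Zd_Tz hz)]
    ring
  · intro z y hz
    exact V_near h hV hV1 hV3 hz
  · have := nu_near h zero_Yq (hint 0 zero_Yq)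
    linarith

/-! ### the jets satisfy the assumptions -/

theorem slice3 {f : ℂ → ℂ → ℂ → ℂ} (hf : Hol3 f univ) (x y v : ℂ) :
    DifferentiableAt ℂ (fun t => f x y t) v := by
  have h1 : DifferentiableAt ℂ (fun p : ℂ × ℂ × ℂ => f p.1 p.2.1 p.2.2) (x, y, v) :=
    hf.differentiableAt univ_mem
  exact h1.comp (f := fun t : ℂ => (x, y, t)) v (by fun_prop)

theorem D3_sub {f g : ℂ → ℂ → ℂ → ℂ} (hf : Hol3 f univ) (hg : Hol3 g univ) (x y v : ℂ) :
    D3 (fun x y v => f x y v - g x y v) x y v = D3 f x y v - D3 g x y v := by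
  rw [D3, D3, D3]
  exact ((slice3 hf x y v).hasDerivAt.sub (slice3 hg x y v).hasDerivAt).deriv

theorem hol_a0 : Hol3 a0 univ := by
  have : Differentiable ℂ (fun p : ℂ × ℂ × ℂ => a0 p.1 p.2.1 p.2.2) := by
    unfold a0 hh
    fun_prop
  exact this.differentiableOn

theorem hol_b0 : Hol3 b0 univ := by
  have : Differentiable ℂ (fun p : ℂ × ℂ × ℂ => b0 p.1 p.2.1 p.2.2) := by
    unfold b0
    fun_prop
  exact this.differentiableOn

theorem hol_c0 : Hol3 c0 univ := by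
  have : Differentiable ℂ (fun p : ℂ × ℂ × ℂ => c0 p.1 p.2.1 p.2.2) := by
    unfold c0 hh
    fun_prop
  exact this.differentiableOn

theorem D3_a0 (x y v : ℂ) : D3 a0 x y v =
    nu * hh x y + 2 * v * (x * (2 * exp (nu * y) * (x - 1) + (x - exp y))) := by
  have h1 : HasDerivAt (fun t : ℂ => nu * t * hh x y +
      t ^ 2 * x * (2 * exp (nu * y) * (x - 1) + (x - exp y)))
      (nu * 1 * hh x y + (2 * v ^ (2 - 1) * 1) * x *
        (2 * exp (nu * y) * (x - 1) + (x - exp y))) v := by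
    exact (((hasDerivAt_id v).const_mul nu).mul_const (hh x y)).add
      ((((hasDerivAt_id v).pow 2).mul_const x).mul_const _)
  rw [D3]
  unfold a0
  rw [h1.deriv]
  ring

theorem D3_b0 (x y v : ℂ) : D3 b0 x y v = -(2 * exp (nu * y) * (2 * v) * x ^ 2 * (x - 1)) := by
  have h1 : HasDerivAt (fun t : ℂ => -(2 * exp (nu * y) * t ^ 2 * x ^ 2 * (x - 1)))
      (-(2 * exp (nu * y) * (2 * v ^ (2 - 1) * 1) * x ^ 2 * (x - 1))) v := by
    exact (((((hasDerivAt_id v).pow 2).const_mul (2 * exp (nu * y))).mul_const (x ^ 2)).mul_const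
      (x - 1)).neg
  rw [D3]
  unfold b0
  rw [h1.deriv]
  ring

theorem D3_c0 (x y v : ℂ) : D3 c0 x y v = 0 := by
  rw [D3]
  unfold c0
  exact deriv_const _ _

theorem exp_nu {y : ℂ} (hy : y ∈ Yq) : ‖exp (nu * y)‖ ≤ 9 / 2 := by
  obtain ⟨h1, h2, h3⟩ := hy
  rw [abs_lt] at h1
  rw [Complex.norm_exp]
  have e : (nu * y).re = y.re - y.im := by
    rw [nu]; simp [mul_re]
  rw [e]
  have e1 := Real.exp_one_lt_d9
  have h4 : Real.exp (y.re - y.im) ≤ Real.exp (3 / 2) := Real.exp_le_exp.2 (by linarith)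
  refine h4.trans ?_
  have h5 : Real.exp (3 / 2) ^ 2 ≤ (9 / 2 : ℝ) ^ 2 := by
    rw [← Real.exp_nat_mul]
    have h3 : ((2 : ℕ) : ℝ) * (3 / 2) = ((3 : ℕ) : ℝ) * 1 := by norm_num
    rw [h3, Real.exp_nat_mul]
    calc Real.exp 1 ^ 3 ≤ (2.7182818286 : ℝ) ^ 3 :=
          pow_le_pow_left₀ (Real.exp_pos _).le e1.le 3
      _ ≤ _ := by norm_num
  exact le_of_sq_le_sq h5 (by norm_num)

theorem jets (a b c : ℂ → ℂ → ℂ → ℂ) (φ : ℂ → ℂ → ℂ) {δ : ℝ} (hG : Good a b c φ δ) (h1 : δ ≤ 1) :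
    (∀ x y, (x, y) ∈ Dom → ‖jC c φ x y - x * hh x y‖ ≤ δ) ∧
    (∀ x y, ‖x‖ ≤ 99 / 25 → y ∈ Yq → ‖jN1 a c φ x y - nu * hh x y‖ ≤ 2000 * δ) ∧
    (∀ x y, ‖x‖ ≤ 99 / 25 → y ∈ Yq → ‖jN2 b c φ x y‖ ≤ 2000 * δ) := by
  obtain ⟨⟨ha, hb, hc, na, nb, nc⟩, hI, ⟨hφ, hs, ex, ey⟩⟩ := hG
  have hδ : 0 ≤ δ := (norm_nonneg _).trans (hs 0 0 (mem_Dom (by simp) zero_Yq))
  have Ha : Hol3 (fun x y v => a x y v - a0 x y v) univ := DifferentiableOn.sub ha hol_a0
  have Hb : Hol3 (fun x y v => b x y v - b0 x y v) univ := DifferentiableOn.sub hb hol_b0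
  have Hc : Hol3 (fun x y v => c x y v - c0 x y v) univ := DifferentiableOn.sub hc hol_c0
  have d3c : ∀ x y, ‖x‖ ≤ 99 / 25 → y ∈ Yq → ‖D3 c x y (φ x y)‖ ≤ δ := by
    intro x y hx hy
    have hD := mem_Dom (x := x) (by linarith) hy
    have := cauchy_D3 Hc (R := 9) nc x y (φ x y) (by linarith)
      (by linarith [norm_le_of_Yq hy]) (by linarith [hs x y hD])
    rwa [D3_sub hc hol_c0, D3_c0, sub_zero] at this
  have dφ1 : ∀ x y, ‖x‖ ≤ 99 / 25 → y ∈ Yq → ‖d1 φ x y‖ ≤ 25 * δ := by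
    intro x y hx hy
    have hm : ∀ t ∈ ball x (1 / 25), (t, y) ∈ Dom := by
      intro t ht
      rw [mem_ball, dist_eq_norm] at ht
      have := tri' t x
      exact mem_Dom (by linarith) hy
    have := cauchy_d1 (f := φ) (x := x) (y := y) (r := 1 / 25) (M := δ) (by norm_num)
      (hol_slice1 hφ hm) (fun t ht => hs t y (hm t ht))
    linarith
  have dφ2 : ∀ x y, ‖x‖ ≤ 99 / 25 → y ∈ Yq → ‖d2 φ x y‖ ≤ 4 * δ := by
    intro x y hx hy
    have hm : ∀ t ∈ ball y (1 / 4), (x, t) ∈ Dom := by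
      intro t ht
      rw [mem_ball, dist_eq_norm] at ht
      have i1 := (abs_re_le_norm (t - y)).trans_lt ht
      have i2 := (abs_im_le_norm (t - y)).trans_lt ht
      rw [sub_re, abs_lt] at i1
      rw [sub_im, abs_lt] at i2
      obtain ⟨j1, j2, j3⟩ := hy
      rw [abs_lt] at j1
      refine ⟨by simp only; linarith, ?_⟩
      exact ⟨abs_lt.2 ⟨by linarith, by linarith⟩, by simp only; linarith, by simp only; linarith⟩
    have := cauchy_d2 (f := φ) (x := x) (y := y) (r := 1 / 4) (M := δ) (by norm_num)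
      (hol_slice2 hφ hm) (fun t ht => hs x t (hm t ht))
    linarith
  refine ⟨?_, ?_, ?_⟩
  · intro x y hD
    have := nc x y (φ x y) (by have := hD.1; simp only at this; linarith)
      (by linarith [norm_lt_of_Yr hD.2]) (by linarith [hs x y hD])
    exact this
  · intro x y hx hy
    have hD := mem_Dom (x := x) (by linarith) hy
    have k1 := cauchy_D3 Ha (R := 9) na x y (φ x y) (by linarith)
      (by linarith [norm_le_of_Yq hy]) (by linarith [hs x y hD])
    rw [D3_sub ha hol_a0] at k1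
    have k2 := d3c x y hx hy
    have k3 := dφ1 x y hx hy
    have k4 := exp_nu hy
    have k5 := (exp_Yq hy).2
    have k6 := hs x y hD
    have e : jN1 a c φ x y - nu * hh x y = (D3 a x y (φ x y) - D3 a0 x y (φ x y)) +
        (2 * φ x y * (x * (2 * exp (nu * y) * (x - 1) + (x - exp y)))) +
        D3 c x y (φ x y) * d1 φ x y := by
      rw [jN1, D3_a0]; ring
    rw [e]
    have s1 := norm_add₃_le (a := D3 a x y (φ x y) - D3 a0 x y (φ x y))
      (b := 2 * φ x y * (x * (2 * exp (nu * y) * (x - 1) + (x - exp y))))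
      (c := D3 c x y (φ x y) * d1 φ x y)
    have s2 : ‖D3 c x y (φ x y) * d1 φ x y‖ ≤ 25 * δ := by
      rw [norm_mul]
      have : ‖D3 c x y (φ x y)‖ * ‖d1 φ x y‖ ≤ 1 * (25 * δ) :=
        mul_le_mul (k2.trans h1) k3 (norm_nonneg _) (by norm_num)
      linarith
    have u1 : ‖x - 1‖ ≤ 5 := by
      have := norm_sub_le x 1
      rw [norm_one] at this
      linarith
    have u2 : ‖x - exp y‖ ≤ 7 := by
      have := norm_sub_le x (exp y)
      linarith
    have u3 : ‖2 * exp (nu * y) * (x - 1) + (x - exp y)‖ ≤ 52 := by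
      have v1 := norm_add_le (2 * exp (nu * y) * (x - 1)) (x - exp y)
      have v2 : ‖2 * exp (nu * y) * (x - 1)‖ ≤ 2 * (9 / 2) * 5 := by
        rw [norm_mul, norm_mul, Complex.norm_ofNat]
        exact mul_le_mul (mul_le_mul_of_nonneg_left k4 (by norm_num)) u1 (norm_nonneg _)
          (by norm_num)
      linarith
    have s3 : ‖2 * φ x y * (x * (2 * exp (nu * y) * (x - 1) + (x - exp y)))‖ ≤
        2 * δ * (4 * 52) := by
      rw [norm_mul, norm_mul, norm_mul, Complex.norm_ofNat]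
      have v1 : ‖x‖ * ‖2 * exp (nu * y) * (x - 1) + (x - exp y)‖ ≤ 4 * 52 :=
        mul_le_mul (by linarith) u3 (norm_nonneg _) (by norm_num)
      exact mul_le_mul (mul_le_mul_of_nonneg_left k6 (by norm_num)) v1 (by positivity)
        (by positivity)
    linarith
  · intro x y hx hy
    have hD := mem_Dom (x := x) (by linarith) hy
    have k1 := cauchy_D3 Hb (R := 9) nb x y (φ x y) (by linarith)
      (by linarith [norm_le_of_Yq hy]) (by linarith [hs x y hD])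
    rw [D3_sub hb hol_b0] at k1
    have k2 := d3c x y hx hy
    have k3 := dφ2 x y hx hy
    have k4 := exp_nu hy
    have k6 := hs x y hD
    have e : jN2 b c φ x y = (D3 b x y (φ x y) - D3 b0 x y (φ x y)) +
        (-(2 * exp (nu * y) * (2 * φ x y) * x ^ 2 * (x - 1))) +
        D3 c x y (φ x y) * d2 φ x y := by
      rw [jN2, D3_b0]; ring
    rw [e]
    have s1 := norm_add₃_le (a := D3 b x y (φ x y) - D3 b0 x y (φ x y))
      (b := -(2 * exp (nu * y) * (2 * φ x y) * x ^ 2 * (x - 1)))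
      (c := D3 c x y (φ x y) * d2 φ x y)
    have s2 : ‖D3 c x y (φ x y) * d2 φ x y‖ ≤ 4 * δ := by
      rw [norm_mul]
      have : ‖D3 c x y (φ x y)‖ * ‖d2 φ x y‖ ≤ 1 * (4 * δ) :=
        mul_le_mul (k2.trans h1) k3 (norm_nonneg _) (by norm_num)
      linarith
    have u1 : ‖x - 1‖ ≤ 5 := by
      have := norm_sub_le x 1
      rw [norm_one] at this
      linarith
    have s3 : ‖-(2 * exp (nu * y) * (2 * φ x y) * x ^ 2 * (x - 1))‖ ≤
        2 * (9 / 2) * (2 * δ) * 4 ^ 2 * 5 := by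
      rw [norm_neg, norm_mul, norm_mul, norm_mul, norm_mul, norm_mul, norm_pow,
        Complex.norm_ofNat]
      have v1 : ‖x‖ ^ 2 ≤ 4 ^ 2 := pow_le_pow_left₀ (norm_nonneg _) (by linarith) 2
      have v2 : 2 * ‖exp (nu * y)‖ * (2 * ‖φ x y‖) ≤ 2 * (9 / 2) * (2 * δ) :=
        mul_le_mul (mul_le_mul_of_nonneg_left k4 (by norm_num))
          (mul_le_mul_of_nonneg_left k6 (by norm_num)) (by positivity) (by norm_num)
      exact mul_le_mul (mul_le_mul v2 v1 (by positivity) (by positivity)) u1 (norm_nonneg _)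
        (by positivity)
    linarith

theorem dat_of_good (a b c : ℂ → ℂ → ℂ → ℂ) (φ : ℂ → ℂ → ℂ) {δ : ℝ} (hG : Good a b c φ δ)
    (h1 : δ ≤ 1 / 2000000)
    (hp : ∀ y : ℂ, ‖y - Real.pi * I‖ < 1 / 10 →
      (∮ x in C(1, 1 / 16), jN1 a c φ x y / jC c φ x y) = 0 ∧
      (∮ x in C(exp y, 1 / 16), jN1 a c φ x y / jC c φ x y) = 0) :
    Dat (jN1 a c φ) (jN2 b c φ) (jC c φ) (2000 * δ) := by
  have hδ : 0 ≤ δ := (norm_nonneg _).trans (hG.leaf.small 0 0 (mem_Dom (by simp) zero_Yq))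
  obtain ⟨j1, j2, j3⟩ := jets a b c φ hG (by linarith)
  obtain ⟨⟨ha, hb, hc, na, nb, nc⟩, hI, ⟨hφ, hs, ex, ey⟩⟩ := hG
  have ha3 := ha.D3 isOpen_univ
  have hb3 := hb.D3 isOpen_univ
  have hc3 := hc.D3 isOpen_univ
  refine ⟨?_, ?_, comp3 hc hφ, ?_, ?_, j2, j3, hp, by linarith⟩
  · exact (comp3 ha3 hφ).add ((comp3 hc3 hφ).mul (hφ.d1 isOpen_Dom))
  · exact (comp3 hb3 hφ).add ((comp3 hc3 hφ).mul (hφ.d2 isOpen_Dom))
  · intro x y hxy
    exact closed1 ha hb hc hI isOpen_Dom hφ ex ey hxy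
  · intro x y hxy
    exact (j1 x y hxy).trans (by linarith)

end P6

/-- Lemma 5 of the paper -/
theorem exists_gauge : ∀ ε > 0, ∃ δ > 0, ∀ (a b c : ℂ → ℂ → ℂ → ℂ) (φ : ℂ → ℂ → ℂ),
    Good a b c φ δ → ∃ (V : ℂ → ℂ → ℂ) (ν' : ℂ), Gauge a b c φ V ν' ε := by
  intro ε hε
  obtain ⟨δ0, hδ0, hper⟩ := periods_zero
  refine ⟨min δ0 (min (1 / 2000000) (ε / 6000000000)), by positivity, ?_⟩
  intro a b c φ hG
  set δ := min δ0 (min (1 / 2000000) (ε / 6000000000)) with hδ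
  have k1 : δ ≤ δ0 := min_le_left _ _
  have k2 : δ ≤ 1 / 2000000 := (min_le_right _ _).trans (min_le_left _ _)
  have k3 : δ ≤ ε / 6000000000 := (min_le_right _ _).trans (min_le_right _ _)
  have hD := P6.dat_of_good a b c φ hG k2 (hper a b c φ (hG.mono k1))
  obtain ⟨V, ν', g1, g2, g3, g4, g5, g6, g7⟩ := P6.abs_gauge hD
  have k4 : 3000000 * (2000 * δ) ≤ ε := by linarith
  exact ⟨V, ν', g1, g2, g3, g4, fun z y hz => (g5 z y hz).trans k4, g6.trans k4, g7⟩

end Pool.Agent.H583_Fol
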