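import Pool.Agent.H583_Fol.Defs
import Pool.Agent.H583_Fol.Basic
import Pool.Agent.H583_Fol.St.T0
import Pool.Agent.H583_Fol.St.T3
import Pool.Agent.H583_Fol.St.T10

set_option autoImplicit false

namespace Pool.Agent.H583_Fol

open Complex Set Metric Filter Topology

/-! ## T7. Node data -/

namespace P7

theorem hol_jM1 {a c : ℂ → ℂ → ℂ → ℂ} {φ : ℂ → ℂ → ℂ} (ha : Hol3 a univ) (hc : Hol3 c univ)
    (hφ : Hol2 φ Dom) : Hol2 (jM1 a c φ) Dom := by
  have h1 : Hol2 (fun x y => D3 (D3 a) x y (φ x y)) Dom :=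
    comp3 ((ha.D3 isOpen_univ).D3 isOpen_univ) hφ
  have h2 : Hol2 (fun x y => D3 (D3 c) x y (φ x y)) Dom :=
    comp3 ((hc.D3 isOpen_univ).D3 isOpen_univ) hφ
  have h3 : Hol2 (d1 φ) Dom := Hol2.d1 isOpen_Dom hφ
  unfold Hol2 jM1
  simp only [div_eq_mul_inv]
  exact DifferentiableOn.mul_const (h1.add (h2.mul h3)) _

theorem hol_jM2 {b c : ℂ → ℂ → ℂ → ℂ} {φ : ℂ → ℂ → ℂ} (hb : Hol3 b univ) (hc : Hol3 c univ)
    (hφ : Hol2 φ Dom) : Hol2 (jM2 b c φ) Dom := by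
  have h1 : Hol2 (fun x y => D3 (D3 b) x y (φ x y)) Dom :=
    comp3 ((hb.D3 isOpen_univ).D3 isOpen_univ) hφ
  have h2 : Hol2 (fun x y => D3 (D3 c) x y (φ x y)) Dom :=
    comp3 ((hc.D3 isOpen_univ).D3 isOpen_univ) hφ
  have h3 : Hol2 (d2 φ) Dom := Hol2.d2 isOpen_Dom hφ
  unfold Hol2 jM2
  simp only [div_eq_mul_inv]
  exact DifferentiableOn.mul_const (h1.add (h2.mul h3)) _

theorem hol_jCv {c : ℂ → ℂ → ℂ → ℂ} {φ : ℂ → ℂ → ℂ} (hc : Hol3 c univ)
    (hφ : Hol2 φ Dom) : Hol2 (jCv c φ) Dom := comp3 (hc.D3 isOpen_univ) hφ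

theorem hol_jC {c : ℂ → ℂ → ℂ → ℂ} {φ : ℂ → ℂ → ℂ} (hc : Hol3 c univ)
    (hφ : Hol2 φ Dom) : Hol2 (jC c φ) Dom := comp3 hc hφ

theorem hol_exp {f : ℂ → ℂ → ℂ} (hf : Hol2 f Dom) : Hol2 (fun z y => f (exp z) y) Zd := by
  have h1 : DifferentiableOn ℂ (fun p : ℂ × ℂ => (exp p.1, p.2)) Zd := by fun_prop
  have h2 : MapsTo (fun p : ℂ × ℂ => (exp p.1, p.2)) Zd Dom := by
    rintro ⟨z, y⟩ h
    exact exp_mem_Dom h
  exact DifferentiableOn.comp (g := fun p : ℂ × ℂ => f p.1 p.2) hf h1 h2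

end P7

/-- Lemma 6 of the paper, local part; `g_closed` follows from `blow` (T10) at `w = 0` -/
theorem g_hol {a b c : ℂ → ℂ → ℂ → ℂ} {φ V : ℂ → ℂ → ℂ} {ν' : ℂ} {δ ε : ℝ}
    (hG : Good a b c φ δ) (hV : Gauge a b c φ V ν' ε) :
    Hol2 (gA a c φ V) Zd ∧ Hol2 (gB b c φ V) Zd ∧ Hol2 (gC c φ) Zd := by
  have ha := hG.near.ha
  have hb := hG.near.hb
  have hc := hG.near.hc
  have hφ := hG.leaf.hol
  have hVh := hV.hol
  have hE : DifferentiableOn ℂ (fun p : ℂ × ℂ => exp (-V p.1 p.2)) Zd :=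
    (DifferentiableOn.neg hVh).cexp
  have hx : DifferentiableOn ℂ (fun p : ℂ × ℂ => exp p.1) Zd := by fun_prop
  have hM1 := P7.hol_exp (P7.hol_jM1 ha hc hφ)
  have hM2 := P7.hol_exp (P7.hol_jM2 hb hc hφ)
  have hCv := P7.hol_exp (P7.hol_jCv hc hφ)
  have hC := P7.hol_exp (P7.hol_jC hc hφ)
  have hV1 : Hol2 (d1 V) Zd := Hol2.d1 isOpen_Zd hVh
  have hV2 : Hol2 (d2 V) Zd := Hol2.d2 isOpen_Zd hVh
  exact ⟨hE.mul ((hx.mul hM1).sub (hCv.mul hV1)), hE.mul (hM2.sub (hCv.mul hV2)), hC⟩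

theorem g_closed {a b c : ℂ → ℂ → ℂ → ℂ} {φ V : ℂ → ℂ → ℂ} {ν' : ℂ} {δ ε : ℝ}
    (hG : Good a b c φ δ) (hV : Gauge a b c φ V ν' ε) {z y : ℂ} (h : (z, y) ∈ Zd) :
    gC c φ z y * (d1 (gB b c φ V) z y - d2 (gA a c φ V) z y) =
      gB b c φ V z y * d1 (gC c φ) z y - gA a c φ V z y * d2 (gC c φ) z y := by
  obtain ⟨A, B, C, U, hU, hm, -, -, -, -, h0, hC, -, -, hid⟩ := blow hG hV h
  have e1 : ∀ᶠ t in 𝓝 z, (t, y, (0 : ℂ)) ∈ U := by
    have : ContinuousAt (fun t : ℂ => (t, y, (0 : ℂ))) z := by fun_prop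
    exact this.eventually (hU.mem_nhds hm)
  have e2 : ∀ᶠ t in 𝓝 y, (z, t, (0 : ℂ)) ∈ U := by
    have : ContinuousAt (fun t : ℂ => (z, t, (0 : ℂ))) y := by fun_prop
    exact this.eventually (hU.mem_nhds hm)
  have hC0 : ∀ z y, (z, y, (0 : ℂ)) ∈ U → C z y 0 = gC c φ z y := by
    intro z y h
    rw [hC z y 0 h, mul_zero, add_zero]
    rfl
  have k1 : D1 B z y 0 = d1 (gB b c φ V) z y := by
    apply Filter.EventuallyEq.deriv_eq
    filter_upwards [e1] with t ht using (h0 t y ht).2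
  have k2 : D2 A z y 0 = d2 (gA a c φ V) z y := by
    apply Filter.EventuallyEq.deriv_eq
    filter_upwards [e2] with t ht using (h0 z t ht).1
  have k3 : D1 C z y 0 = d1 (gC c φ) z y := by
    apply Filter.EventuallyEq.deriv_eq
    filter_upwards [e1] with t ht using hC0 t y ht
  have k4 : D2 C z y 0 = d2 (gC c φ) z y := by
    apply Filter.EventuallyEq.deriv_eq
    filter_upwards [e2] with t ht using hC0 z t ht
  have := hid z y 0 hm
  rw [k1, k2, k3, k4, hC0 z y hm, (h0 z y hm).1, (h0 z y hm).2] at this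
  rw [this]
  ring

namespace P7

theorem D3_sub {f g : ℂ → ℂ → ℂ → ℂ} (hf : Hol3 f univ) (hg : Hol3 g univ) :
    D3 (fun x y v => f x y v - g x y v) = fun x y v => D3 f x y v - D3 g x y v := by
  funext x y v
  have l : Differentiable ℂ (fun t : ℂ => (x, y, t)) := by fun_prop
  have h1 : DifferentiableAt ℂ (fun t => f x y t) v :=
    ((differentiableOn_univ.1 hf).comp l) v
  have h2 : DifferentiableAt ℂ (fun t => g x y t) v :=
    ((differentiableOn_univ.1 hg).comp l) v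
  exact deriv_fun_sub h1 h2

theorem hol_sub {f g : ℂ → ℂ → ℂ → ℂ} (hf : Hol3 f univ) (hg : Hol3 g univ) :
    Hol3 (fun x y v => f x y v - g x y v) univ := DifferentiableOn.sub hf hg

theorem near_DD {f g : ℂ → ℂ → ℂ → ℂ} (hf : Hol3 f univ) (hg : Hol3 g univ) {δ : ℝ}
    (h : ∀ x y v, ‖x‖ ≤ 9 → ‖y‖ ≤ 9 → ‖v‖ ≤ 9 → ‖f x y v - g x y v‖ ≤ δ) (x y v : ℂ)
    (hx : ‖x‖ ≤ 8) (hy : ‖y‖ ≤ 8) (hv : ‖v‖ ≤ 7) :
    ‖D3 f x y v - D3 g x y v‖ ≤ δ ∧ ‖D3 (D3 f) x y v - D3 (D3 g) x y v‖ ≤ δ := by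
  have k1 : ∀ x y v, ‖x‖ ≤ 8 → ‖y‖ ≤ 8 → ‖v‖ ≤ 8 → ‖D3 f x y v - D3 g x y v‖ ≤ δ := by
    intro x y v hx hy hv
    have := cauchy_D3 (hol_sub hf hg) (R := 9) h x y v (by linarith) (by linarith) (by linarith)
    rwa [D3_sub hf hg] at this
  refine ⟨k1 x y v hx hy (by linarith), ?_⟩
  have hf1 := hf.D3 isOpen_univ
  have hg1 := hg.D3 isOpen_univ
  have := cauchy_D3 (hol_sub hf1 hg1) (R := 8) k1 x y v (by linarith) (by linarith) (by linarith)
  rwa [D3_sub hf1 hg1] at this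

theorem hol_a0 : Hol3 a0 univ := by
  unfold Hol3 a0 hh
  fun_prop

theorem hol_b0 : Hol3 b0 univ := by
  unfold Hol3 b0
  fun_prop

theorem hol_c0 : Hol3 c0 univ := by
  unfold Hol3 c0 hh
  fun_prop

theorem D3_quad (p q : ℂ → ℂ → ℂ) : D3 (fun x y v => p x y * v + v ^ 2 * q x y) =
    fun x y v => p x y + 2 * v * q x y := by
  funext x y v
  have h : HasDerivAt (fun t : ℂ => p x y * t + t ^ 2 * q x y) (p x y + 2 * v * q x y) v := by
    have h1 := ((hasDerivAt_id v).const_mul (p x y)).add (((hasDerivAt_id v).pow 2).mul_const (q x y))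
    refine (h1.congr_deriv ?_)
    simp
  exact h.deriv

theorem D3_lin (p q : ℂ → ℂ → ℂ) : D3 (fun x y v => p x y + 2 * v * q x y) =
    fun x y _ => 2 * q x y := by
  funext x y v
  have h : HasDerivAt (fun t : ℂ => p x y + 2 * t * q x y) (2 * q x y) v := by
    have h1 := ((((hasDerivAt_id v).const_mul (2 : ℂ)).mul_const (q x y)).const_add (p x y))
    refine (h1.congr_deriv ?_)
    simp
  exact h.deriv

/-- half of the second derivative of `a0` -/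
noncomputable def m1 (x y : ℂ) : ℂ := x * (2 * exp (nu * y) * (x - 1) + (x - exp y))
/-- half of the second derivative of `b0` -/
noncomputable def m2 (x y : ℂ) : ℂ := -(2 * exp (nu * y) * x ^ 2 * (x - 1))

theorem DD_a0 (x y v : ℂ) : D3 (D3 a0) x y v = 2 * m1 x y := by
  have h : a0 = fun x y v => (nu * hh x y) * v + v ^ 2 * m1 x y := by
    funext x y v
    simp only [a0, m1]
    ring
  rw [h, D3_quad (fun x y => nu * hh x y) m1, D3_lin (fun x y => nu * hh x y) m1]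

theorem DD_b0 (x y v : ℂ) : D3 (D3 b0) x y v = 2 * m2 x y := by
  have h : b0 = fun x y v => (0 : ℂ) * v + v ^ 2 * m2 x y := by
    funext x y v
    simp only [b0, m2]
    ring
  rw [h, D3_quad (fun _ _ => 0) m2, D3_lin (fun _ _ => 0) m2]

theorem D_c0 (x y v : ℂ) : D3 c0 x y v = 0 := by
  have h : (fun t => c0 x y t) = fun _ => x * hh x y := rfl
  simp only [D3]
  rw [h]
  simp

theorem DD_c0 (x y v : ℂ) : D3 (D3 c0) x y v = 0 := by
  have h : (fun t => D3 c0 x y t) = fun _ => (0 : ℂ) := by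
    funext t
    exact D_c0 x y t
  rw [show D3 (D3 c0) x y v = deriv (fun t => D3 c0 x y t) v from rfl, h]
  simp

theorem phi_d1 {φ : ℂ → ℂ → ℂ} (hφ : Hol2 φ Dom) {δ : ℝ}
    (hs : ∀ x y, (x, y) ∈ Dom → ‖φ x y‖ ≤ δ) {x y : ℂ} (hx : ‖x‖ < 39 / 10) (hy : y ∈ Yr) :
    ‖d1 φ x y‖ ≤ 10 * δ := by
  have hb : ∀ t ∈ ball x (1 / 10), (t, y) ∈ Dom := by
    intro t ht
    rw [mem_ball, dist_eq_norm] at ht
    refine ⟨?_, hy⟩
    have : ‖t‖ ≤ ‖t - x‖ + ‖x‖ := by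
      calc ‖t‖ = ‖(t - x) + x‖ := by ring_nf
        _ ≤ _ := norm_add_le _ _
    simp only
    linarith
  have h := cauchy_d1 (f := φ) (x := x) (y := y) (r := 1 / 10) (M := δ) (by norm_num) ?_
    (fun t ht => hs t y (hb t ht))
  · linarith [h, show δ / (1 / 10) = 10 * δ by ring]
  · have l : DifferentiableOn ℂ (fun t : ℂ => (t, y)) (ball x (1 / 10)) := by fun_prop
    exact DifferentiableOn.comp (g := fun p : ℂ × ℂ => φ p.1 p.2) hφ l hb

theorem Yq_ball {y t : ℂ} (hy : y ∈ Yq) (ht : t ∈ ball y (1 / 4)) : t ∈ Yr := by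
  rw [mem_ball, dist_eq_norm] at ht
  obtain ⟨h1, h2, h3⟩ := hy
  have k1 := (Complex.abs_re_le_norm (t - y)).trans_lt ht
  have k2 := (Complex.abs_im_le_norm (t - y)).trans_lt ht
  rw [sub_re, abs_lt] at k1
  rw [sub_im, abs_lt] at k2
  rw [abs_lt] at h1
  exact ⟨abs_lt.2 ⟨by linarith, by linarith⟩, by linarith, by linarith⟩

theorem phi_d2 {φ : ℂ → ℂ → ℂ} (hφ : Hol2 φ Dom) {δ : ℝ}
    (hs : ∀ x y, (x, y) ∈ Dom → ‖φ x y‖ ≤ δ) {x y : ℂ} (hx : ‖x‖ < 39 / 10) (hy : y ∈ Yq) :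
    ‖d2 φ x y‖ ≤ 4 * δ := by
  have hb : ∀ t ∈ ball y (1 / 4), (x, t) ∈ Dom := by
    intro t ht
    exact ⟨by simp only; linarith, Yq_ball hy ht⟩
  have h := cauchy_d2 (f := φ) (x := x) (y := y) (r := 1 / 4) (M := δ) (by norm_num) ?_
    (fun t ht => hs x t (hb t ht))
  · linarith [h, show δ / (1 / 4) = 4 * δ by ring]
  · have l : DifferentiableOn ℂ (fun t : ℂ => (x, t)) (ball y (1 / 4)) := by fun_prop
    exact DifferentiableOn.comp (g := fun p : ℂ × ℂ => φ p.1 p.2) hφ l hb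

theorem V_d1 {V : ℂ → ℂ → ℂ} (hV : Hol2 V Zd) {δ : ℝ}
    (hs : ∀ x y, (x, y) ∈ Zd → ‖V x y - nu * x‖ ≤ δ) {z y : ℂ}
    (hb : ∀ t ∈ ball z (1 / 4), (t, y) ∈ Zd) : ‖d1 V z y - nu‖ ≤ 4 * δ := by
  have hd : DifferentiableOn ℂ (fun t => V t y) (ball z (1 / 4)) := by
    have l : DifferentiableOn ℂ (fun t : ℂ => (t, y)) (ball z (1 / 4)) := by fun_prop
    exact DifferentiableOn.comp (g := fun p : ℂ × ℂ => V p.1 p.2) hV l hb
  have h := cauchy_d1 (f := fun x y => V x y - nu * x) (x := z) (y := y) (r := 1 / 4) (M := δ)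
    (by norm_num) (hd.sub (by fun_prop)) (fun t ht => hs t y (hb t ht))
  have e : d1 (fun x y => V x y - nu * x) z y = d1 V z y - nu := by
    have h1 : DifferentiableAt ℂ (fun t => V t y) z :=
      hd.differentiableAt (ball_mem_nhds z (by norm_num))
    have h2 : HasDerivAt (fun t : ℂ => nu * t) nu z := by
      have := (hasDerivAt_id z).const_mul nu
      rwa [mul_one] at this
    exact (h1.hasDerivAt.sub h2).deriv
  rw [e] at h
  linarith [h, show δ / (1 / 4) = 4 * δ by ring]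

theorem V_d2 {V : ℂ → ℂ → ℂ} (hV : Hol2 V Zd) {δ : ℝ}
    (hs : ∀ x y, (x, y) ∈ Zd → ‖V x y - nu * x‖ ≤ δ) {z y : ℂ}
    (hb : ∀ t ∈ ball y (1 / 4), (z, t) ∈ Zd) : ‖d2 V z y‖ ≤ 4 * δ := by
  have hd : DifferentiableOn ℂ (fun t => V z t) (ball y (1 / 4)) := by
    have l : DifferentiableOn ℂ (fun t : ℂ => (z, t)) (ball y (1 / 4)) := by fun_prop
    exact DifferentiableOn.comp (g := fun p : ℂ × ℂ => V p.1 p.2) hV l hb
  have h := cauchy_d2 (f := fun x y => V x y - nu * x) (x := z) (y := y) (r := 1 / 4) (M := δ)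
    (by norm_num) (hd.sub (by fun_prop)) (fun t ht => hs z t (hb t ht))
  have e : d2 (fun x y => V x y - nu * x) z y = d2 V z y := by
    have h1 : DifferentiableAt ℂ (fun t => V z t) y :=
      hd.differentiableAt (ball_mem_nhds y (by norm_num))
    have := (h1.hasDerivAt.sub_const (nu * z)).deriv
    exact this
  rw [e] at h
  linarith [h, show δ / (1 / 4) = 4 * δ by ring]

theorem exp_near {V z : ℂ} {δ : ℝ} (hδ : δ ≤ 1) (hz : ‖z‖ ≤ 1 / 2) (h : ‖V - nu * z‖ ≤ δ) :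
    ‖exp (-(nu * z))‖ ≤ 3 ∧ ‖exp (-V)‖ ≤ 9 ∧ ‖exp (-V) - exp (-(nu * z))‖ ≤ 6 * δ := by
  have hd0 : 0 ≤ δ := (norm_nonneg _).trans h
  have hn : ‖nu‖ ≤ 2 := by
    unfold nu
    calc ‖(1 : ℂ) + I‖ ≤ ‖(1 : ℂ)‖ + ‖I‖ := norm_add_le _ _
      _ = 2 := by simp; norm_num
  have h0 : ‖exp (-(nu * z))‖ ≤ 3 := by
    rw [Complex.norm_exp]
    have h1 : (-(nu * z)).re ≤ 1 := by
      calc (-(nu * z)).re ≤ ‖-(nu * z)‖ := Complex.re_le_norm _
        _ = ‖nu‖ * ‖z‖ := by rw [norm_neg, norm_mul]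
        _ ≤ 2 * (1 / 2) := by gcongr
        _ = 1 := by norm_num
    have h2 := Real.exp_le_exp.2 h1
    have := Real.exp_one_lt_d9
    linarith
  have h1 : exp (-V) - exp (-(nu * z)) = exp (-(nu * z)) * (exp (-(V - nu * z)) - 1) := by
    rw [mul_sub, ← Complex.exp_add, mul_one]
    ring_nf
  have h2 : ‖exp (-(V - nu * z)) - 1‖ ≤ 2 * δ := by
    have := Complex.norm_exp_sub_one_le (x := -(V - nu * z)) (by rw [norm_neg]; linarith)
    rw [norm_neg] at this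
    linarith
  have h3 : ‖exp (-V) - exp (-(nu * z))‖ ≤ 6 * δ := by
    rw [h1, norm_mul]
    calc ‖exp (-(nu * z))‖ * ‖exp (-(V - nu * z)) - 1‖ ≤ 3 * (2 * δ) := by gcongr
      _ = 6 * δ := by ring
  refine ⟨h0, ?_, h3⟩
  calc ‖exp (-V)‖ = ‖(exp (-V) - exp (-(nu * z))) + exp (-(nu * z))‖ := by ring_nf
    _ ≤ ‖exp (-V) - exp (-(nu * z))‖ + ‖exp (-(nu * z))‖ := norm_add_le _ _
    _ ≤ 6 * δ + 3 := by gcongr
    _ ≤ 9 := by linarith

theorem expnu_Yr {y : ℂ} (h : y ∈ Yr) : ‖exp (nu * y)‖ ≤ 9 := by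
  obtain ⟨h1, h2, -⟩ := h
  rw [abs_lt] at h1
  rw [Complex.norm_exp]
  have h3 : (nu * y).re ≤ 1 + 1 := by
    have : (nu * y).re = y.re - y.im := by simp [nu]
    rw [this]
    linarith
  have h4 := Real.exp_le_exp.2 h3
  have h5 := Real.exp_one_lt_d9
  have h6 := Real.exp_pos 1
  rw [Real.exp_add] at h4
  nlinarith

theorem m1_bd {x y : ℂ} (hx : ‖x‖ ≤ 4) (hy : y ∈ Yr) : ‖m1 x y‖ ≤ 388 := by
  have h1 := expnu_Yr hy
  have h2 := (norm_exp_of_Yr hy).2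
  have h3 : ‖x - 1‖ ≤ 5 := by
    calc ‖x - 1‖ ≤ ‖x‖ + ‖(1 : ℂ)‖ := norm_sub_le _ _
      _ ≤ 4 + 1 := by rw [norm_one]; gcongr
      _ = 5 := by norm_num
  have h4 : ‖x - exp y‖ ≤ 7 := by
    calc ‖x - exp y‖ ≤ ‖x‖ + ‖exp y‖ := norm_sub_le _ _
      _ ≤ 4 + 3 := by gcongr
      _ = 7 := by norm_num
  unfold m1
  calc ‖x * (2 * exp (nu * y) * (x - 1) + (x - exp y))‖
      = ‖x‖ * ‖2 * exp (nu * y) * (x - 1) + (x - exp y)‖ := norm_mul _ _
    _ ≤ ‖x‖ * (‖2 * exp (nu * y) * (x - 1)‖ + ‖x - exp y‖) := by gcongr; exact norm_add_le _ _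
    _ = ‖x‖ * (2 * ‖exp (nu * y)‖ * ‖x - 1‖ + ‖x - exp y‖) := by
        rw [norm_mul, norm_mul, show ‖(2 : ℂ)‖ = 2 by simp]
    _ ≤ 4 * (2 * 9 * 5 + 7) := by gcongr
    _ = 388 := by norm_num

theorem m2_bd {x y : ℂ} (hx : ‖x‖ ≤ 4) (hy : y ∈ Yr) : ‖m2 x y‖ ≤ 1440 := by
  have h1 := expnu_Yr hy
  have h3 : ‖x - 1‖ ≤ 5 := by
    calc ‖x - 1‖ ≤ ‖x‖ + ‖(1 : ℂ)‖ := norm_sub_le _ _
      _ ≤ 4 + 1 := by rw [norm_one]; gcongr
      _ = 5 := by norm_num
  unfold m2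
  calc ‖-(2 * exp (nu * y) * x ^ 2 * (x - 1))‖
      = 2 * ‖exp (nu * y)‖ * ‖x‖ ^ 2 * ‖x - 1‖ := by
        rw [norm_neg, norm_mul, norm_mul, norm_mul, norm_pow, show ‖(2 : ℂ)‖ = 2 by simp]
    _ ≤ 2 * 9 * 4 ^ 2 * 5 := by gcongr
    _ = 1440 := by norm_num

theorem g_bound {a b c : ℂ → ℂ → ℂ → ℂ} {φ V : ℂ → ℂ → ℂ} {ν' : ℂ} {δ : ℝ} (hδ : δ ≤ 1)
    (hG : Good a b c φ δ) (hV : Gauge a b c φ V ν' δ) {z y : ℂ} (hzy : (z, y) ∈ Zd)
    (hz : ‖z‖ ≤ 1 / 2) (hb1 : ∀ t ∈ ball z (1 / 4), (t, y) ∈ Zd)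
    (hb2 : ∀ t ∈ ball y (1 / 4), (z, t) ∈ Zd) :
    ‖gA a c φ V z y - exp (-(nu * z)) * (exp z * m1 (exp z) y)‖ ≤ 10000 * δ ∧
    ‖gB b c φ V z y - exp (-(nu * z)) * m2 (exp z) y‖ ≤ 10000 * δ ∧
    ‖gC c φ z y - exp z * ((exp z - 1) * (exp z - exp y))‖ ≤ δ := by
  have hD := exp_mem_Dom hzy
  have hx := (norm_exp_of_Zd hzy).2
  have hyr : y ∈ Yr := hD.2
  have hyq : y ∈ Yq := hzy.2.2.2.2
  have hy8 := norm_lt_of_Yr hyr
  have hφ := hG.leaf.small _ _ hD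
  have hd0 : 0 ≤ δ := (norm_nonneg _).trans hφ
  obtain ⟨na1, na2⟩ := near_DD hG.near.ha hol_a0 hG.near.na (exp z) y (φ (exp z) y) (by linarith)
    (by linarith) (by linarith)
  obtain ⟨nb1, nb2⟩ := near_DD hG.near.hb hol_b0 hG.near.nb (exp z) y (φ (exp z) y) (by linarith)
    (by linarith) (by linarith)
  obtain ⟨nc1, nc2⟩ := near_DD hG.near.hc hol_c0 hG.near.nc (exp z) y (φ (exp z) y) (by linarith)
    (by linarith) (by linarith)
  rw [DD_a0] at na2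
  rw [DD_b0] at nb2
  rw [DD_c0, sub_zero] at nc2
  rw [D_c0, sub_zero] at nc1
  have hp1 := phi_d1 hG.leaf.hol hG.leaf.small hx hyr
  have hp2 := phi_d2 hG.leaf.hol hG.leaf.small hx hyq
  have hv1 := V_d1 hV.hol hV.small hb1
  have hv2 := V_d2 hV.hol hV.small hb2
  have hn : ‖nu‖ ≤ 2 := by
    unfold nu
    calc ‖(1 : ℂ) + I‖ ≤ ‖(1 : ℂ)‖ + ‖I‖ := norm_add_le _ _
      _ = 2 := by simp; norm_num
  have hv1' : ‖d1 V z y‖ ≤ 6 := by
    calc ‖d1 V z y‖ = ‖(d1 V z y - nu) + nu‖ := by ring_nf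
      _ ≤ ‖d1 V z y - nu‖ + ‖nu‖ := norm_add_le _ _
      _ ≤ 4 * δ + 2 := by gcongr
      _ ≤ 6 := by linarith
  obtain ⟨e1, e2, e3⟩ := exp_near hδ hz (hV.small z y hzy)
  have hm1 := m1_bd (x := exp z) (by linarith) hyr
  have hm2 := m2_bd (x := exp z) (by linarith) hyr
  refine ⟨?_, ?_, ?_⟩
  · have k1 : ‖jM1 a c φ (exp z) y - m1 (exp z) y‖ ≤ 6 * δ := by
      have : jM1 a c φ (exp z) y - m1 (exp z) y =
          ((D3 (D3 a) (exp z) y (φ (exp z) y) - 2 * m1 (exp z) y) +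
            D3 (D3 c) (exp z) y (φ (exp z) y) * d1 φ (exp z) y) / 2 := by
        unfold jM1; ring
      rw [this, norm_div, show ‖(2 : ℂ)‖ = 2 by simp]
      have k2 : ‖(D3 (D3 a) (exp z) y (φ (exp z) y) - 2 * m1 (exp z) y) +
            D3 (D3 c) (exp z) y (φ (exp z) y) * d1 φ (exp z) y‖ ≤ δ + 1 * (10 * δ) := by
        refine (norm_add_le _ _).trans ?_
        rw [norm_mul]
        gcongr
        linarith
      linarith
    have k3 : ‖(exp z * jM1 a c φ (exp z) y - jCv c φ (exp z) y * d1 V z y) -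
        exp z * m1 (exp z) y‖ ≤ 30 * δ := by
      have : (exp z * jM1 a c φ (exp z) y - jCv c φ (exp z) y * d1 V z y) -
        exp z * m1 (exp z) y = exp z * (jM1 a c φ (exp z) y - m1 (exp z) y) -
          jCv c φ (exp z) y * d1 V z y := by ring
      rw [this]
      calc _ ≤ ‖exp z * (jM1 a c φ (exp z) y - m1 (exp z) y)‖ + ‖jCv c φ (exp z) y * d1 V z y‖ :=
            norm_sub_le _ _
        _ = ‖exp z‖ * ‖jM1 a c φ (exp z) y - m1 (exp z) y‖ +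
            ‖jCv c φ (exp z) y‖ * ‖d1 V z y‖ := by rw [norm_mul, norm_mul]
        _ ≤ 4 * (6 * δ) + δ * 6 := by
            gcongr
            · linarith
            · exact nc1
        _ = 30 * δ := by ring
    have k4 : gA a c φ V z y - exp (-(nu * z)) * (exp z * m1 (exp z) y) =
        exp (-V z y) * ((exp z * jM1 a c φ (exp z) y - jCv c φ (exp z) y * d1 V z y) -
        exp z * m1 (exp z) y) + (exp (-V z y) - exp (-(nu * z))) * (exp z * m1 (exp z) y) := by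
      unfold gA; ring
    rw [k4]
    calc _ ≤ ‖exp (-V z y) * ((exp z * jM1 a c φ (exp z) y - jCv c φ (exp z) y * d1 V z y) -
        exp z * m1 (exp z) y)‖ +
          ‖(exp (-V z y) - exp (-(nu * z))) * (exp z * m1 (exp z) y)‖ := norm_add_le _ _
      _ = ‖exp (-V z y)‖ * ‖(exp z * jM1 a c φ (exp z) y - jCv c φ (exp z) y * d1 V z y) -
        exp z * m1 (exp z) y‖ +
          ‖exp (-V z y) - exp (-(nu * z))‖ * (‖exp z‖ * ‖m1 (exp z) y‖) := by
          rw [norm_mul, norm_mul, norm_mul]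
      _ ≤ 9 * (30 * δ) + (6 * δ) * (4 * 388) := by
          gcongr
          linarith
      _ ≤ 10000 * δ := by linarith
  · have k1 : ‖jM2 b c φ (exp z) y - m2 (exp z) y‖ ≤ 3 * δ := by
      have : jM2 b c φ (exp z) y - m2 (exp z) y =
          ((D3 (D3 b) (exp z) y (φ (exp z) y) - 2 * m2 (exp z) y) +
            D3 (D3 c) (exp z) y (φ (exp z) y) * d2 φ (exp z) y) / 2 := by
        unfold jM2; ring
      rw [this, norm_div, show ‖(2 : ℂ)‖ = 2 by simp]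
      have k2 : ‖(D3 (D3 b) (exp z) y (φ (exp z) y) - 2 * m2 (exp z) y) +
            D3 (D3 c) (exp z) y (φ (exp z) y) * d2 φ (exp z) y‖ ≤ δ + 1 * (4 * δ) := by
        refine (norm_add_le _ _).trans ?_
        rw [norm_mul]
        gcongr
        linarith
      linarith
    have k3 : ‖(jM2 b c φ (exp z) y - jCv c φ (exp z) y * d2 V z y) - m2 (exp z) y‖ ≤ 7 * δ := by
      have : (jM2 b c φ (exp z) y - jCv c φ (exp z) y * d2 V z y) -
        m2 (exp z) y = (jM2 b c φ (exp z) y - m2 (exp z) y) -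
          jCv c φ (exp z) y * d2 V z y := by ring
      rw [this]
      calc _ ≤ ‖jM2 b c φ (exp z) y - m2 (exp z) y‖ + ‖jCv c φ (exp z) y * d2 V z y‖ :=
            norm_sub_le _ _
        _ = ‖jM2 b c φ (exp z) y - m2 (exp z) y‖ +
            ‖jCv c φ (exp z) y‖ * ‖d2 V z y‖ := by rw [norm_mul]
        _ ≤ 3 * δ + 1 * (4 * δ) := by
            gcongr
            exact nc1.trans hδ
        _ = 7 * δ := by ring
    have k4 : gB b c φ V z y - exp (-(nu * z)) * m2 (exp z) y =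
        exp (-V z y) * ((jM2 b c φ (exp z) y - jCv c φ (exp z) y * d2 V z y) -
        m2 (exp z) y) + (exp (-V z y) - exp (-(nu * z))) * m2 (exp z) y := by
      unfold gB; ring
    rw [k4]
    calc _ ≤ ‖exp (-V z y) * ((jM2 b c φ (exp z) y - jCv c φ (exp z) y * d2 V z y) -
        m2 (exp z) y)‖ +
          ‖(exp (-V z y) - exp (-(nu * z))) * m2 (exp z) y‖ := norm_add_le _ _
      _ = ‖exp (-V z y)‖ * ‖(jM2 b c φ (exp z) y - jCv c φ (exp z) y * d2 V z y) -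
        m2 (exp z) y‖ +
          ‖exp (-V z y) - exp (-(nu * z))‖ * ‖m2 (exp z) y‖ := by
          rw [norm_mul, norm_mul]
      _ ≤ 9 * (7 * δ) + (6 * δ) * 1440 := by
          gcongr
      _ ≤ 10000 * δ := by linarith
  · exact hG.near.nc (exp z) y (φ (exp z) y) (by linarith) (by linarith) (by linarith)

theorem Bd_balls {z y p : ℂ} (h : (z, y) ∈ Bd) (hp : p = 0 ∨ p = 2 * Real.pi * I) :
    (z, y + p) ∈ Zd ∧ (∀ t ∈ ball z (1 / 4), (t, y + p) ∈ Zd) ∧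
      ∀ t ∈ ball (y + p) (1 / 4), (z, t) ∈ Zd := by
  obtain ⟨hz, hy⟩ := h
  simp only at hz hy
  have hl1 : Real.log (3 / 10) < -(3 / 4) := by
    have h1 : Real.log (3 / 10) < Real.log (Real.exp (-(3 / 4))) := by
      apply Real.log_lt_log (by norm_num)
      have := Real.add_one_le_exp (-(3 / 8) : ℝ)
      have h2 : Real.exp (-(3 / 4)) = Real.exp (-(3 / 8)) ^ 2 := by
        rw [← Real.exp_nat_mul]; norm_num
      rw [h2]
      have : (5 / 8 : ℝ) ≤ Real.exp (-(3 / 8)) := by linarith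
      nlinarith
    rwa [Real.log_exp] at h1
  have hl2 : 3 / 4 < Real.log (39 / 10) := by
    have h1 : Real.log (Real.exp (3 / 4)) < Real.log (39 / 10) := by
      apply Real.log_lt_log (Real.exp_pos _)
      have h2 : Real.exp (3 / 4) ≤ Real.exp 1 := Real.exp_le_exp.2 (by norm_num)
      have := Real.exp_one_lt_d9
      linarith
    rwa [Real.log_exp] at h1
  have hpi := Real.pi_gt_three
  have hpr : p.re = 0 := by
    rcases hp with rfl | rfl <;> simp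
  have hpi0 : p.im = 0 ∨ p.im = 2 * Real.pi := by
    rcases hp with rfl | rfl
    · left; simp
    · right; simp
  have main : ∀ t s : ℂ, ‖t‖ < 3 / 4 → ‖s - p‖ < 3 / 4 → (t, s) ∈ Zd := by
    intro t s ht hs
    have hz1 := (Complex.abs_re_le_norm t).trans_lt ht
    have hz2 := (Complex.abs_im_le_norm t).trans_lt ht
    have hy1 := (Complex.abs_re_le_norm (s - p)).trans_lt hs
    have hy2 := (Complex.abs_im_le_norm (s - p)).trans_lt hs
    rw [sub_re, hpr, sub_zero] at hy1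
    rw [sub_im] at hy2
    rw [abs_lt] at hz1 hz2 hy2
    refine ⟨by simp only; linarith, by simp only; linarith, by simp only; linarith,
      by simp only; linarith, hy1, ?_, ?_⟩
    · rcases hpi0 with h0 | h0 <;> rw [h0] at hy2 <;> linarith
    · rcases hpi0 with h0 | h0 <;> rw [h0] at hy2 <;> linarith
  refine ⟨main z (y + p) (by linarith) (by simpa using by linarith), fun t ht => ?_, fun t ht => ?_⟩
  · rw [mem_ball, dist_eq_norm] at ht
    have : ‖t‖ ≤ ‖t - z‖ + ‖z‖ := by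
      calc ‖t‖ = ‖(t - z) + z‖ := by ring_nf
        _ ≤ _ := norm_add_le _ _
    exact main t (y + p) (by linarith) (by simpa using by linarith)
  · rw [mem_ball, dist_eq_norm] at ht
    have : ‖t - p‖ ≤ ‖t - (y + p)‖ + ‖y‖ := by
      calc ‖t - p‖ = ‖(t - (y + p)) + y‖ := by ring_nf
        _ ≤ _ := norm_add_le _ _
    exact main z t (by linarith) (by linarith)

end P7

theorem g_near : ∀ ε > 0, ∃ δ > 0, ∀ (a b c : ℂ → ℂ → ℂ → ℂ) (φ V : ℂ → ℂ → ℂ) (ν' : ℂ),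
    Good a b c φ δ → Gauge a b c φ V ν' δ → ∀ z y, (z, y) ∈ Bd →
    ‖gA a c φ V z y - mA 2 z y‖ ≤ ε ∧ ‖gB b c φ V z y - mB 2 z y‖ ≤ ε ∧
    ‖gC c φ z y - mC z y‖ ≤ ε ∧
    ‖sh (2 * Real.pi * I) (gA a c φ V) z y - mA (2 * exp (2 * Real.pi * I * nu)) z y‖ ≤ ε ∧
    ‖sh (2 * Real.pi * I) (gB b c φ V) z y - mB (2 * exp (2 * Real.pi * I * nu)) z y‖ ≤ ε ∧
    ‖sh (2 * Real.pi * I) (gC c φ) z y - mC z y‖ ≤ ε := by
  intro ε hε
  refine ⟨min 1 (ε / 10000), lt_min one_pos (by positivity), ?_⟩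
  intro a b c φ V ν' hG hV z y h
  have hd1 : min 1 (ε / 10000) ≤ 1 := min_le_left _ _
  have hd2 : 10000 * min 1 (ε / 10000) ≤ ε := by
    have := min_le_right 1 (ε / 10000)
    linarith
  have hd3 : min 1 (ε / 10000) ≤ ε := by
    have := min_le_right 1 (ε / 10000)
    linarith
  have hz : ‖z‖ ≤ 1 / 2 := h.1.le
  have hexp : exp (y + 2 * Real.pi * I) = exp y := Complex.exp_periodic y
  have h2 : exp ((2 - nu) * z) = exp (-(nu * z)) * (exp z * exp z) := by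
    rw [← Complex.exp_add, ← Complex.exp_add]
    ring_nf
  obtain ⟨p0, p1, p2⟩ := P7.Bd_balls (p := 0) h (Or.inl rfl)
  obtain ⟨q0, q1, q2⟩ := P7.Bd_balls (p := 2 * Real.pi * I) h (Or.inr rfl)
  rw [add_zero] at p0 p1 p2
  obtain ⟨r1, r2, r3⟩ := P7.g_bound hd1 hG hV p0 hz p1 p2
  obtain ⟨s1, s2, s3⟩ := P7.g_bound hd1 hG hV q0 hz q1 q2
  refine ⟨?_, ?_, ?_, ?_, ?_, ?_⟩
  · refine le_trans (le_of_eq ?_) (r1.trans hd2)
    unfold mA P7.m1
    rw [h2]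
    ring_nf
  · refine le_trans (le_of_eq ?_) (r2.trans hd2)
    unfold mB P7.m2
    rw [h2]
    ring_nf
  · exact r3.trans hd3
  · refine le_trans (le_of_eq ?_) (s1.trans hd2)
    unfold mA P7.m1 sh
    rw [h2, hexp, mul_add nu y, Complex.exp_add (nu * y), show nu * (2 * Real.pi * I) =
      2 * Real.pi * I * nu by ring]
    ring_nf
  · refine le_trans (le_of_eq ?_) (s2.trans hd2)
    unfold mB P7.m2 sh
    rw [h2, mul_add nu y, Complex.exp_add (nu * y), show nu * (2 * Real.pi * I) =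
      2 * Real.pi * I * nu by ring]
    ring_nf
  · refine le_trans (le_of_eq ?_) (s3.trans hd3)
    unfold mC sh
    rw [hexp]

namespace P7

theorem lower {F : ℝ × ℝ → ℂ} (hF : Continuous F)
    (h : ∀ τ ∈ Icc (0 : ℝ) 1, ∀ θ ∈ Icc (0 : ℝ) (2 * Real.pi), F (τ, θ) ≠ 0) :
    ∃ m > 0, ∀ τ ∈ Icc (0 : ℝ) 1, ∀ θ ∈ Icc (0 : ℝ) (2 * Real.pi), m ≤ ‖F (τ, θ)‖ := by
  have hpi := Real.pi_pos
  have hK : IsCompact (Icc (0 : ℝ) 1 ×ˢ Icc (0 : ℝ) (2 * Real.pi)) := isCompact_Icc.prod isCompact_Icc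
  have hne : (Icc (0 : ℝ) 1 ×ˢ Icc (0 : ℝ) (2 * Real.pi)).Nonempty :=
    ⟨(0, 0), ⟨⟨le_rfl, zero_le_one⟩, ⟨le_rfl, by positivity⟩⟩⟩
  obtain ⟨p, hp, hmin⟩ := hK.exists_isMinOn hne hF.norm.continuousOn
  refine ⟨‖F p‖, norm_pos_iff.2 (h p.1 hp.1 p.2 hp.2), fun τ hτ θ hθ => ?_⟩
  exact hmin (show (τ, θ) ∈ _ from ⟨hτ, hθ⟩)

theorem gC_bound {a b c : ℂ → ℂ → ℂ → ℂ} {φ : ℂ → ℂ → ℂ} {δ : ℝ} (hδ : δ ≤ 1)
    (hG : Good a b c φ δ) {z y : ℂ} (hzy : (z, y) ∈ Zd) : ‖gC c φ z y - mC z y‖ ≤ δ := by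
  have hD := exp_mem_Dom hzy
  have hx := (norm_exp_of_Zd hzy).2
  have hy8 := norm_lt_of_Yr hD.2
  have hφ := hG.leaf.small _ _ hD
  exact hG.near.nc (exp z) y (φ (exp z) y) (by linarith) (by linarith) (by linarith)

/-- the open set on which the form `(gA dz + gB dy) / gC` is defined -/
def Ug (c : ℂ → ℂ → ℂ → ℂ) (φ : ℂ → ℂ → ℂ) : Set (ℂ × ℂ) := {p | p ∈ Zd ∧ gC c φ p.1 p.2 ≠ 0}

theorem isOpen_Ug {a b c : ℂ → ℂ → ℂ → ℂ} {φ V : ℂ → ℂ → ℂ} {ν' : ℂ} {δ ε : ℝ}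
    (hG : Good a b c φ δ) (hV : Gauge a b c φ V ν' ε) : IsOpen (Ug c φ) := by
  have h := (g_hol hG hV).2.2.continuousOn.isOpen_inter_preimage isOpen_Zd
    (isOpen_compl_singleton (x := (0 : ℂ)))
  exact h

theorem Ug_sub {c : ℂ → ℂ → ℂ → ℂ} {φ : ℂ → ℂ → ℂ} : Ug c φ ⊆ Zd := fun _ h => h.1

theorem hol_P {a b c : ℂ → ℂ → ℂ → ℂ} {φ V : ℂ → ℂ → ℂ} {ν' : ℂ} {δ ε : ℝ}
    (hG : Good a b c φ δ) (hV : Gauge a b c φ V ν' ε) :
    Hol2 (fun z y => gA a c φ V z y / gC c φ z y) (Ug c φ) ∧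
    Hol2 (fun z y => gB b c φ V z y / gC c φ z y) (Ug c φ) := by
  obtain ⟨h1, h2, h3⟩ := g_hol hG hV
  have h4 : DifferentiableOn ℂ (fun p : ℂ × ℂ => (gC c φ p.1 p.2)⁻¹) (Ug c φ) :=
    DifferentiableOn.inv (h3.mono Ug_sub) (fun p hp => hp.2)
  constructor
  · unfold Hol2
    simp only [div_eq_mul_inv]
    exact DifferentiableOn.mul (h1.mono Ug_sub) h4
  · unfold Hol2
    simp only [div_eq_mul_inv]
    exact DifferentiableOn.mul (h2.mono Ug_sub) h4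

theorem hasDeriv1 {f : ℂ → ℂ → ℂ} {U : Set (ℂ × ℂ)} (hU : IsOpen U) (hf : Hol2 f U) {z y : ℂ}
    (h : (z, y) ∈ U) : HasDerivAt (fun t => f t y) (d1 f z y) z := by
  have h1 : DifferentiableAt ℂ (fun p : ℂ × ℂ => f p.1 p.2) (z, y) :=
    hf.differentiableAt (hU.mem_nhds h)
  have l : DifferentiableAt ℂ (fun t : ℂ => (t, y)) z := by fun_prop
  have h2 : DifferentiableAt ℂ (fun t => f t y) z :=
    DifferentiableAt.comp (g := fun p : ℂ × ℂ => f p.1 p.2) z h1 l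
  exact h2.hasDerivAt

theorem hasDeriv2 {f : ℂ → ℂ → ℂ} {U : Set (ℂ × ℂ)} (hU : IsOpen U) (hf : Hol2 f U) {z y : ℂ}
    (h : (z, y) ∈ U) : HasDerivAt (fun t => f z t) (d2 f z y) y := by
  have h1 : DifferentiableAt ℂ (fun p : ℂ × ℂ => f p.1 p.2) (z, y) :=
    hf.differentiableAt (hU.mem_nhds h)
  have l : DifferentiableAt ℂ (fun t : ℂ => (z, t)) y := by fun_prop
  have h2 : DifferentiableAt ℂ (fun t => f z t) y :=
    DifferentiableAt.comp (g := fun p : ℂ × ℂ => f p.1 p.2) y h1 l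
  exact h2.hasDerivAt

theorem closed_PQ {a b c : ℂ → ℂ → ℂ → ℂ} {φ V : ℂ → ℂ → ℂ} {ν' : ℂ} {δ ε : ℝ}
    (hG : Good a b c φ δ) (hV : Gauge a b c φ V ν' ε) (z y : ℂ) (h : (z, y) ∈ Ug c φ) :
    d1 (fun z y => gB b c φ V z y / gC c φ z y) z y =
      d2 (fun z y => gA a c φ V z y / gC c φ z y) z y := by
  obtain ⟨h1, h2, h3⟩ := g_hol hG hV
  have hz : (z, y) ∈ Zd := h.1
  have hne : gC c φ z y ≠ 0 := h.2
  have e1 := ((hasDeriv1 isOpen_Zd h2 hz).div (hasDeriv1 isOpen_Zd h3 hz) hne).deriv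
  have e2 := ((hasDeriv2 isOpen_Zd h1 hz).div (hasDeriv2 isOpen_Zd h3 hz) hne).deriv
  have hcl := g_closed hG hV hz
  have e1' : d1 (fun z y => gB b c φ V z y / gC c φ z y) z y =
    (d1 (gB b c φ V) z y * gC c φ z y - gB b c φ V z y * d1 (gC c φ) z y) / gC c φ z y ^ 2 := e1
  have e2' : d2 (fun z y => gA a c φ V z y / gC c φ z y) z y =
    (d2 (gA a c φ V) z y * gC c φ z y - gA a c φ V z y * d2 (gC c φ) z y) / gC c φ z y ^ 2 := e2
  rw [e1', e2']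
  congr 1
  linear_combination hcl

/-- transport of a loop in the first variable -/
theorem loop_x {P Q : ℂ → ℂ → ℂ} {U : Set (ℂ × ℂ)} (hU : IsOpen U) (hP : Hol2 P U) (hQ : Hol2 Q U)
    (hcl : ∀ x y, (x, y) ∈ U → d1 Q x y = d2 P x y) {x₀ y₀ y₁ : ℂ} {r : ℝ}
    (hin : ∀ τ ∈ Icc (0 : ℝ) 1, ∀ θ ∈ Icc (0 : ℝ) (2 * Real.pi),
      (circleMap x₀ r θ, (1 - τ) * y₀ + τ * y₁) ∈ U) :
    (∮ x in C(x₀, r), P x y₀) = ∮ x in C(x₀, r), P x y₁ := by
  have hc : ContDiff ℝ 2 (circleMap x₀ r) := contDiff_circleMap _ _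
  have hp : circleMap x₀ r (2 * Real.pi) = circleMap x₀ r 0 := by
    have := periodic_circleMap x₀ r 0
    rwa [zero_add] at this
  have h := loop_eq (X := circleMap x₀ r) (Y := fun _ => y₀) (X' := circleMap x₀ r)
    (Y' := fun _ => y₁) hU hP hQ hcl hc contDiff_const hc contDiff_const hp rfl hp rfl
    (fun τ hτ θ hθ => by
      have := hin τ hτ θ hθ
      convert this using 2
      ring)
  simp only [deriv_const, mul_zero, add_zero] at h
  simp only [circleIntegral, smul_eq_mul]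
  calc _ = ∫ θ in (0 : ℝ)..(2 * Real.pi), P (circleMap x₀ r θ) y₀ * deriv (circleMap x₀ r) θ := by
        congr 1; funext θ; ring
    _ = _ := h
    _ = _ := by congr 1; funext θ; ring

/-- transport of a loop in the second variable -/
theorem loop_y {P Q : ℂ → ℂ → ℂ} {U : Set (ℂ × ℂ)} (hU : IsOpen U) (hP : Hol2 P U) (hQ : Hol2 Q U)
    (hcl : ∀ x y, (x, y) ∈ U → d1 Q x y = d2 P x y) {x₀ x₁ y₀ y₁ : ℂ} {r : ℝ}
    (hin : ∀ τ ∈ Icc (0 : ℝ) 1, ∀ θ ∈ Icc (0 : ℝ) (2 * Real.pi),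
      ((1 - τ) * x₀ + τ * x₁, (1 - τ) * y₀ + τ * y₁ + circleMap 0 r θ) ∈ U) :
    (∮ y in C(y₀, r), Q x₀ y) = ∮ y in C(y₁, r), Q x₁ y := by
  have hc0 : ContDiff ℝ 2 (circleMap y₀ r) := contDiff_circleMap _ _
  have hc1 : ContDiff ℝ 2 (circleMap y₁ r) := contDiff_circleMap _ _
  have hp0 : circleMap y₀ r (2 * Real.pi) = circleMap y₀ r 0 := by
    have := periodic_circleMap y₀ r 0
    rwa [zero_add] at this
  have hp1 : circleMap y₁ r (2 * Real.pi) = circleMap y₁ r 0 := by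
    have := periodic_circleMap y₁ r 0
    rwa [zero_add] at this
  have h := loop_eq (X := fun _ => x₀) (Y := circleMap y₀ r) (X' := fun _ => x₁)
    (Y' := circleMap y₁ r) hU hP hQ hcl contDiff_const hc0 contDiff_const hc1 rfl hp0 rfl hp1
    (fun τ hτ θ hθ => by
      have := hin τ hτ θ hθ
      convert this using 2
      simp only [circleMap]
      ring)
  simp only [deriv_const, mul_zero, zero_add] at h
  simp only [circleIntegral, smul_eq_mul]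
  calc _ = ∫ θ in (0 : ℝ)..(2 * Real.pi), Q x₀ (circleMap y₀ r θ) * deriv (circleMap y₀ r) θ := by
        congr 1; funext θ; ring
    _ = _ := h
    _ = _ := by congr 1; funext θ; ring

theorem two_pi_I_re (n : ℤ) : ((n : ℂ) * (2 * Real.pi * I)).re = 0 := by simp

theorem two_pi_I_im (n : ℤ) : ((n : ℂ) * (2 * Real.pi * I)).im = n * (2 * Real.pi) := by simp

theorem mC_ne {z y : ℂ} (h1 : ∀ n : ℤ, z ≠ n * (2 * Real.pi * I))
    (h2 : ∀ n : ℤ, z ≠ y + n * (2 * Real.pi * I)) : mC z y ≠ 0 := by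
  unfold mC
  refine mul_ne_zero (exp_ne_zero _) (mul_ne_zero ?_ ?_)
  · intro h
    rw [sub_eq_zero, Complex.exp_eq_one_iff] at h
    obtain ⟨n, hn⟩ := h
    exact h1 n hn
  · intro h
    rw [sub_eq_zero, Complex.exp_eq_exp_iff_exists_int] at h
    obtain ⟨n, hn⟩ := h
    exact h2 n hn

theorem circ_z {θ : ℝ} : |(circleMap 0 (1 / 16) θ).re| ≤ 1 / 16 ∧
    |(circleMap 0 (1 / 16) θ).im| ≤ 1 / 16 ∧ circleMap 0 (1 / 16) θ ≠ 0 := by
  have h : ‖circleMap 0 (1 / 16) θ‖ = 1 / 16 := by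
    rw [norm_circleMap_zero, abs_of_pos (by norm_num)]
  have e1 := Complex.abs_re_le_norm (circleMap 0 (1 / 16) θ)
  have e2 := Complex.abs_im_le_norm (circleMap 0 (1 / 16) θ)
  rw [h] at e1 e2
  refine ⟨e1, e2, ?_⟩
  intro h0
  rw [h0, norm_zero] at h
  norm_num at h

theorem int_cases (n : ℤ) : (n : ℝ) ≤ -1 ∨ (n : ℝ) = 0 ∨ 1 ≤ (n : ℝ) := by
  rcases lt_trichotomy n 0 with h | h | h
  · left; exact_mod_cast (by omega : n ≤ -1)
  · right; left; exact_mod_cast h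
  · right; right; exact_mod_cast (by omega : 1 ≤ n)

theorem z_ne (θ : ℝ) (n : ℤ) : circleMap 0 (1 / 16) θ ≠ n * (2 * Real.pi * I) := by
  intro h
  obtain ⟨-, h2, h3⟩ := circ_z (θ := θ)
  have hpi := Real.pi_gt_three
  rw [h] at h2
  rw [two_pi_I_im, abs_le] at h2
  rcases int_cases n with hn | hn | hn
  · nlinarith
  · have : n = 0 := by exact_mod_cast hn
    rw [this] at h
    apply h3
    rw [h]
    simp
  · nlinarith

theorem log_bds : Real.log (3 / 10) < -(3 / 4) ∧ 3 / 4 < Real.log (39 / 10) := by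
  constructor
  · have h1 : Real.log (3 / 10) < Real.log (Real.exp (-(3 / 4))) := by
      apply Real.log_lt_log (by norm_num)
      have := Real.add_one_le_exp (-(3 / 8) : ℝ)
      have h2 : Real.exp (-(3 / 4)) = Real.exp (-(3 / 8)) ^ 2 := by
        rw [← Real.exp_nat_mul]; norm_num
      rw [h2]
      have : (5 / 8 : ℝ) ≤ Real.exp (-(3 / 8)) := by linarith
      nlinarith
    rwa [Real.log_exp] at h1
  · have h1 : Real.log (Real.exp (3 / 4)) < Real.log (39 / 10) := by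
      apply Real.log_lt_log (Real.exp_pos _)
      have h2 : Real.exp (3 / 4) ≤ Real.exp 1 := Real.exp_le_exp.2 (by norm_num)
      have := Real.exp_one_lt_d9
      linarith
    rwa [Real.log_exp] at h1

theorem seg1 {τ θ : ℝ} (hτ : τ ∈ Icc (0 : ℝ) 1) :
    (circleMap 0 (1 / 16) θ, (1 - (τ : ℂ)) * (I / 4) + τ * (1 / 2 + 2 * Real.pi * I)) ∈ Zd ∧
    mC (circleMap 0 (1 / 16) θ) ((1 - (τ : ℂ)) * (I / 4) + τ * (1 / 2 + 2 * Real.pi * I)) ≠ 0 := by
  obtain ⟨h1, h2, h3⟩ := circ_z (θ := θ)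
  obtain ⟨t0, t1⟩ := hτ
  rw [abs_le] at h1 h2
  have hpi := Real.pi_gt_three
  have hpi2 := Real.pi_lt_d2
  obtain ⟨l1, l2⟩ := log_bds
  have hre : ((1 - (τ : ℂ)) * (I / 4) + τ * (1 / 2 + 2 * Real.pi * I)).re = τ / 2 := by
    have : (1 - (τ : ℂ)) * (I / 4) + τ * (1 / 2 + 2 * Real.pi * I) =
      ((τ / 2 : ℝ) : ℂ) + ((1 / 4 + τ * (2 * Real.pi - 1 / 4) : ℝ) : ℂ) * I := by
      push_cast; ring
    rw [this]
    simp
  have him : ((1 - (τ : ℂ)) * (I / 4) + τ * (1 / 2 + 2 * Real.pi * I)).im =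
      1 / 4 + τ * (2 * Real.pi - 1 / 4) := by
    have : (1 - (τ : ℂ)) * (I / 4) + τ * (1 / 2 + 2 * Real.pi * I) =
      ((τ / 2 : ℝ) : ℂ) + ((1 / 4 + τ * (2 * Real.pi - 1 / 4) : ℝ) : ℂ) * I := by
      push_cast; ring
    rw [this]
    simp
  refine ⟨⟨by simp only; linarith, by simp only; linarith, by simp only; linarith,
      by simp only; linarith, ?_, ?_, ?_⟩, mC_ne (z_ne θ) ?_⟩
  · rw [hre, abs_of_nonneg (by linarith)]; linarith
  · rw [him]; nlinarith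
  · rw [him]; nlinarith
  · intro n hn
    have r1 := congrArg Complex.re hn
    have r2 := congrArg Complex.im hn
    rw [add_re, two_pi_I_re, hre, add_zero] at r1
    rw [add_im, two_pi_I_im, him] at r2
    have hτ8 : τ ≤ 1 / 8 := by linarith
    have k1 : 1 / 4 ≤ 1 / 4 + τ * (2 * Real.pi - 1 / 4) := by nlinarith
    have k2 : 1 / 4 + τ * (2 * Real.pi - 1 / 4) ≤ 3 / 2 := by nlinarith
    rcases int_cases n with h | h | h
    · nlinarith
    · rw [h] at r2; linarith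
    · nlinarith

theorem seg2 {τ θ : ℝ} (hτ : τ ∈ Icc (0 : ℝ) 1) :
    (circleMap 0 (1 / 16) θ, (1 - (τ : ℂ)) * (1 / 2 + 2 * Real.pi * I) +
      τ * (I / 4 + 2 * Real.pi * I)) ∈ Zd ∧
    mC (circleMap 0 (1 / 16) θ) ((1 - (τ : ℂ)) * (1 / 2 + 2 * Real.pi * I) +
      τ * (I / 4 + 2 * Real.pi * I)) ≠ 0 := by
  obtain ⟨h1, h2, h3⟩ := circ_z (θ := θ)
  obtain ⟨t0, t1⟩ := hτ
  rw [abs_le] at h1 h2
  have hpi := Real.pi_gt_three
  have hpi2 := Real.pi_lt_d2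
  obtain ⟨l1, l2⟩ := log_bds
  have hre : ((1 - (τ : ℂ)) * (1 / 2 + 2 * Real.pi * I) +
      τ * (I / 4 + 2 * Real.pi * I)).re = (1 - τ) / 2 := by
    have : (1 - (τ : ℂ)) * (1 / 2 + 2 * Real.pi * I) +
      τ * (I / 4 + 2 * Real.pi * I) =
      (((1 - τ) / 2 : ℝ) : ℂ) + ((2 * Real.pi + τ / 4 : ℝ) : ℂ) * I := by
      push_cast; ring
    rw [this]
    simp
  have him : ((1 - (τ : ℂ)) * (1 / 2 + 2 * Real.pi * I) +
      τ * (I / 4 + 2 * Real.pi * I)).im = 2 * Real.pi + τ / 4 := by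
    have : (1 - (τ : ℂ)) * (1 / 2 + 2 * Real.pi * I) +
      τ * (I / 4 + 2 * Real.pi * I) =
      (((1 - τ) / 2 : ℝ) : ℂ) + ((2 * Real.pi + τ / 4 : ℝ) : ℂ) * I := by
      push_cast; ring
    rw [this]
    simp
  refine ⟨⟨by simp only; linarith, by simp only; linarith, by simp only; linarith,
      by simp only; linarith, ?_, ?_, ?_⟩, mC_ne (z_ne θ) ?_⟩
  · rw [hre, abs_of_nonneg (by linarith)]; linarith
  · rw [him]; linarith
  · rw [him]; linarith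
  · intro n hn
    have r1 := congrArg Complex.re hn
    have r2 := congrArg Complex.im hn
    rw [add_re, two_pi_I_re, hre, add_zero] at r1
    rw [add_im, two_pi_I_im, him] at r2
    have hτ8 : 7 / 8 ≤ τ := by linarith
    have r3 : (circleMap 0 (1 / 16) θ).im = ((n + 1 : ℤ) : ℝ) * (2 * Real.pi) + τ / 4 := by
      rw [r2]; push_cast; ring
    rcases int_cases (n + 1) with h | h | h
    · nlinarith
    · rw [h] at r3; linarith
    · nlinarith

theorem seg3 {τ θ : ℝ} (hτ : τ ∈ Icc (0 : ℝ) 1) :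
    ((1 - (τ : ℂ)) * (-(1 / 16)) + τ * (-(1 / 16) + 2 * Real.pi * I),
      (1 - (τ : ℂ)) * 0 + τ * (2 * Real.pi * I) + circleMap 0 (1 / 4) θ) ∈ Zd ∧
    mC ((1 - (τ : ℂ)) * (-(1 / 16)) + τ * (-(1 / 16) + 2 * Real.pi * I))
      ((1 - (τ : ℂ)) * 0 + τ * (2 * Real.pi * I) + circleMap 0 (1 / 4) θ) ≠ 0 := by
  have hw : ‖circleMap 0 (1 / 4) θ‖ = 1 / 4 := by
    rw [norm_circleMap_zero, abs_of_pos (by norm_num)]
  have h1 := Complex.abs_re_le_norm (circleMap 0 (1 / 4) θ)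
  have h2 := Complex.abs_im_le_norm (circleMap 0 (1 / 4) θ)
  rw [hw, abs_le] at h1 h2
  obtain ⟨t0, t1⟩ := hτ
  have hpi := Real.pi_gt_three
  have hpi2 := Real.pi_lt_d2
  obtain ⟨l1, l2⟩ := log_bds
  have ez : (1 - (τ : ℂ)) * (-(1 / 16)) + τ * (-(1 / 16) + 2 * Real.pi * I) =
      ((-(1 / 16) : ℝ) : ℂ) + ((τ * (2 * Real.pi) : ℝ) : ℂ) * I := by
    push_cast; ring
  have ey : (1 - (τ : ℂ)) * 0 + τ * (2 * Real.pi * I) + circleMap 0 (1 / 4) θ =
      ((τ * (2 * Real.pi) : ℝ) : ℂ) * I + circleMap 0 (1 / 4) θ := by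
    push_cast; ring
  rw [ez, ey]
  have b1 : 0 ≤ τ * (2 * Real.pi) := by positivity
  have b2 : τ * (2 * Real.pi) ≤ 2 * Real.pi := by nlinarith
  have zre : (((-(1 / 16) : ℝ) : ℂ) + ((τ * (2 * Real.pi) : ℝ) : ℂ) * I).re = -(1 / 16) := by simp
  have zim : (((-(1 / 16) : ℝ) : ℂ) + ((τ * (2 * Real.pi) : ℝ) : ℂ) * I).im =
    τ * (2 * Real.pi) := by simp
  have yre : (((τ * (2 * Real.pi) : ℝ) : ℂ) * I + circleMap 0 (1 / 4) θ).re =
    (circleMap 0 (1 / 4) θ).re := by simp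
  have yim : (((τ * (2 * Real.pi) : ℝ) : ℂ) * I + circleMap 0 (1 / 4) θ).im =
    τ * (2 * Real.pi) + (circleMap 0 (1 / 4) θ).im := by simp
  refine ⟨⟨?_, ?_, ?_, ?_, ?_, ?_, ?_⟩, mC_ne ?_ ?_⟩
  · simp only [zre]; linarith
  · simp only [zre]; linarith
  · simp only [zim]; linarith
  · simp only [zim]; linarith
  · simp only [yre]; exact abs_lt.2 ⟨by linarith, by linarith⟩
  · simp only [yim]; linarith
  · simp only [yim]; linarith
  · intro n hn
    have r1 := congrArg Complex.re hn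
    rw [zre, two_pi_I_re] at r1
    norm_num at r1
  · intro n hn
    have hn' : circleMap 0 (1 / 4) θ = ((-(1 / 16) : ℝ) : ℂ) - n * (2 * Real.pi * I) := by
      linear_combination -hn
    have r2 := congrArg Complex.im hn'
    rw [sub_im, two_pi_I_im, ofReal_im] at r2
    rcases int_cases n with h | h | h
    · nlinarith
    · have : n = 0 := by exact_mod_cast h
      rw [this] at hn'
      rw [hn'] at hw
      have e : ‖((-(1 / 16) : ℝ) : ℂ) - ((0 : ℤ) : ℂ) * (2 * Real.pi * I)‖ = 1 / 16 := by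
        rw [Int.cast_zero, zero_mul, sub_zero, Complex.norm_real, Real.norm_eq_abs]
        norm_num
      rw [e] at hw
      norm_num at hw
    · nlinarith

theorem cont_mC : Continuous (fun p : ℂ × ℂ => mC p.1 p.2) := by
  unfold mC
  fun_prop

end P7

/-- Lemma 6 of the paper: transport of the two periods (uses T0, `g_closed`, `g_hol`) -/
theorem per_transport : ∃ δ > 0, ∀ (a b c : ℂ → ℂ → ℂ → ℂ) (φ V : ℂ → ℂ → ℂ) (ν' : ℂ),
    Good a b c φ δ → Gauge a b c φ V ν' δ →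
    per2 (sh (2 * Real.pi * I) (gA a c φ V)) (sh (2 * Real.pi * I) (gC c φ)) =
      per2 (gA a c φ V) (gC c φ) ∧
    per1 (sh (2 * Real.pi * I) (gB b c φ V)) (sh (2 * Real.pi * I) (gC c φ)) =
      exp (2 * Real.pi * I * ν') * per1 (gB b c φ V) (gC c φ) := by
  have k : Continuous (fun p : ℝ × ℝ => circleMap 0 (1 / 16) p.2) :=
    (continuous_circleMap 0 (1 / 16)).comp continuous_snd
  have k' : Continuous (fun p : ℝ × ℝ => circleMap 0 (1 / 4) p.2) :=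
    (continuous_circleMap 0 (1 / 4)).comp continuous_snd
  obtain ⟨m1, hm1, h1⟩ := P7.lower (F := fun p : ℝ × ℝ => mC (circleMap 0 (1 / 16) p.2)
    ((1 - (p.1 : ℂ)) * (I / 4) + p.1 * (1 / 2 + 2 * Real.pi * I)))
    (P7.cont_mC.comp (k.prodMk (by fun_prop))) (fun τ hτ θ _ => (P7.seg1 hτ).2)
  obtain ⟨m2, hm2, h2⟩ := P7.lower (F := fun p : ℝ × ℝ => mC (circleMap 0 (1 / 16) p.2)
    ((1 - (p.1 : ℂ)) * (1 / 2 + 2 * Real.pi * I) + p.1 * (I / 4 + 2 * Real.pi * I)))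
    (P7.cont_mC.comp (k.prodMk (by fun_prop))) (fun τ hτ θ _ => (P7.seg2 hτ).2)
  obtain ⟨m3, hm3, h3⟩ := P7.lower (F := fun p : ℝ × ℝ =>
    mC ((1 - (p.1 : ℂ)) * (-(1 / 16)) + p.1 * (-(1 / 16) + 2 * Real.pi * I))
      ((1 - (p.1 : ℂ)) * 0 + p.1 * (2 * Real.pi * I) + circleMap 0 (1 / 4) p.2))
    (P7.cont_mC.comp (Continuous.prodMk (by fun_prop) ((by fun_prop : Continuous
      (fun p : ℝ × ℝ => (1 - (p.1 : ℂ)) * 0 + p.1 * (2 * Real.pi * I))).add k')))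
    (fun τ hτ θ _ => (P7.seg3 hτ).2)
  set δ : ℝ := min 1 (min m1 (min m2 m3) / 2) with hδ
  have hm : 0 < min m1 (min m2 m3) := lt_min hm1 (lt_min hm2 hm3)
  have hδ1 : δ ≤ 1 := min_le_left _ _
  have hδ2 : δ < min m1 (min m2 m3) := by
    have : δ ≤ min m1 (min m2 m3) / 2 := min_le_right _ _
    linarith
  have d1' : δ < m1 := hδ2.trans_le (min_le_left _ _)
  have d2' : δ < m2 := hδ2.trans_le ((min_le_right _ _).trans (min_le_left _ _))
  have d3' : δ < m3 := hδ2.trans_le ((min_le_right _ _).trans (min_le_right _ _))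
  refine ⟨δ, lt_min one_pos (by positivity), ?_⟩
  intro a b c φ V ν' hG hV
  have key : ∀ z y m, (z, y) ∈ Zd → m ≤ ‖mC z y‖ → δ < m → (z, y) ∈ P7.Ug c φ := by
    intro z y m hz h5 h6
    refine ⟨hz, ?_⟩
    intro h0
    have h7 := P7.gC_bound hδ1 hG hz
    simp only at h0
    rw [h0, zero_sub, norm_neg] at h7
    linarith
  obtain ⟨hP, hQ⟩ := P7.hol_P hG hV
  have hU := P7.isOpen_Ug hG hV
  have hcl := P7.closed_PQ hG hV
  have L1 := P7.loop_x hU hP hQ hcl (x₀ := 0) (r := 1 / 16) (y₀ := I / 4)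
    (y₁ := 1 / 2 + 2 * Real.pi * I)
    (fun τ hτ θ hθ => key _ _ m1 (P7.seg1 hτ).1 (h1 τ hτ θ hθ) d1')
  have L2 := P7.loop_x hU hP hQ hcl (x₀ := 0) (r := 1 / 16) (y₀ := 1 / 2 + 2 * Real.pi * I)
    (y₁ := I / 4 + 2 * Real.pi * I)
    (fun τ hτ θ hθ => key _ _ m2 (P7.seg2 hτ).1 (h2 τ hτ θ hθ) d2')
  have L3 := P7.loop_y hU hP hQ hcl (x₀ := -(1 / 16)) (x₁ := -(1 / 16) + 2 * Real.pi * I)
    (y₀ := 0) (y₁ := 2 * Real.pi * I) (r := 1 / 4)
    (fun τ hτ θ hθ => key _ _ m3 (P7.seg3 hτ).1 (h3 τ hτ θ hθ) d3')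
  constructor
  · unfold per2 sh
    rw [L1, L2]
  · unfold per1 sh
    rw [L3]
    have hpi := Real.pi_gt_three
    have hin : ∀ y ∈ sphere (2 * Real.pi * I) (1 / 4),
        (-(1 / 16), y) ∈ Zd ∧ (-(1 / 16) + 2 * Real.pi * I, y) ∈ Zd := by
      intro y hy
      rw [mem_sphere, dist_eq_norm] at hy
      have k1 := Complex.abs_re_le_norm (y - 2 * Real.pi * I)
      have k2 := Complex.abs_im_le_norm (y - 2 * Real.pi * I)
      have e1 : (y - 2 * Real.pi * I).re = y.re := by simp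
      have e2 : (y - 2 * Real.pi * I).im = y.im - 2 * Real.pi := by simp
      rw [hy, e1] at k1
      rw [hy, e2, abs_le] at k2
      have hyq : y ∈ Yq := ⟨by linarith, by linarith, by linarith⟩
      obtain ⟨l1, l2⟩ := P7.log_bds
      have z1 : (-(1 / 16) : ℂ) = ((-(1 / 16) : ℝ) : ℂ) := by push_cast; ring
      have r1 : (-(1 / 16) : ℂ).re = -(1 / 16) := by rw [z1, ofReal_re]
      have i1 : (-(1 / 16) : ℂ).im = 0 := by rw [z1, ofReal_im]
      have r2 : (-(1 / 16) + 2 * Real.pi * I : ℂ).re = -(1 / 16) := by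
        rw [add_re, r1]; simp
      have i2 : (-(1 / 16) + 2 * Real.pi * I : ℂ).im = 2 * Real.pi := by
        rw [add_im, i1]; simp
      refine ⟨⟨?_, ?_, ?_, ?_, hyq⟩, ⟨?_, ?_, ?_, ?_, hyq⟩⟩
      · simp only [r1]; linarith
      · simp only [r1]; linarith
      · simp only [i1]; linarith
      · simp only [i1]; linarith
      · simp only [r2]; linarith
      · simp only [r2]; linarith
      · simp only [i2]; linarith
      · simp only [i2]; linarith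
    have hmon : ∀ y ∈ sphere (2 * Real.pi * I) (1 / 4),
        gB b c φ V (-(1 / 16) + 2 * Real.pi * I) y / gC c φ (-(1 / 16) + 2 * Real.pi * I) y =
        exp (-(2 * Real.pi * I * ν')) * (gB b c φ V (-(1 / 16)) y / gC c φ (-(1 / 16)) y) := by
      intro y hy
      obtain ⟨g1, g2⟩ := hin y hy
      have hx : exp (-(1 / 16) + 2 * Real.pi * I) = exp (-(1 / 16)) := Complex.exp_periodic _
      have hd : d2 V (-(1 / 16) + 2 * Real.pi * I) y = d2 V (-(1 / 16)) y := by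
        have hev : (fun t => V (-(1 / 16) + 2 * Real.pi * I) t) =ᶠ[𝓝 y]
            fun t => V (-(1 / 16)) t + 2 * Real.pi * I * ν' := by
          have c1 : ∀ᶠ t in 𝓝 y, ((-(1 / 16) : ℂ), t) ∈ Zd := by
            have : ContinuousAt (fun t : ℂ => ((-(1 / 16) : ℂ), t)) y := by fun_prop
            exact this.eventually (isOpen_Zd.mem_nhds g1)
          have c2 : ∀ᶠ t in 𝓝 y, ((-(1 / 16) + 2 * Real.pi * I : ℂ), t) ∈ Zd := by
            have : ContinuousAt (fun t : ℂ => ((-(1 / 16) + 2 * Real.pi * I : ℂ), t)) y := by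
              fun_prop
            exact this.eventually (isOpen_Zd.mem_nhds g2)
          filter_upwards [c1, c2] with t h5 h6 using hV.mon _ _ h5 h6
        unfold d2
        rw [hev.deriv_eq, deriv_add_const]
      have e1 : gC c φ (-(1 / 16) + 2 * Real.pi * I) y = gC c φ (-(1 / 16)) y := by
        unfold gC
        rw [hx]
      have e2 : gB b c φ V (-(1 / 16) + 2 * Real.pi * I) y =
          exp (-(2 * Real.pi * I * ν')) * gB b c φ V (-(1 / 16)) y := by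
        unfold gB
        rw [hx, hd, hV.mon _ _ g1 g2, neg_add, Complex.exp_add]
        ring
      rw [e1, e2]
      ring
    have hshift : (∮ y in C(0, 1 / 4), gB b c φ V (-(1 / 16)) (y + 2 * Real.pi * I) /
        gC c φ (-(1 / 16)) (y + 2 * Real.pi * I)) =
        ∮ y in C(2 * Real.pi * I, 1 / 4), gB b c φ V (-(1 / 16)) y / gC c φ (-(1 / 16)) y := by
      simp only [circleIntegral, deriv_circleMap]
      congr 1
      funext θ
      have : circleMap (2 * Real.pi * I) (1 / 4) θ = circleMap 0 (1 / 4) θ + 2 * Real.pi * I := by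
        simp only [circleMap]; ring
      rw [this]
    rw [hshift, circleIntegral.integral_congr (by norm_num) hmon,
      circleIntegral.integral_const_mul]
    rw [Complex.exp_neg]
    have := exp_ne_zero (2 * Real.pi * I * ν')
    field_simp

end Pool.Agent.H583_Fol
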