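import Pool.Agent.H583_Fol.P8e

/-!
# T8. The node lemma
-/

set_option autoImplicit false

namespace Pool.Agent.H583_Fol

open Complex Set Metric Filter Topology

namespace P8

/-- the linear part of the model -/
noncomputable def Leq (κ : ℂ) (hκ : κ ≠ 0) : (ℂ × ℂ) ≃L[ℂ] (ℂ × ℂ) :=
  LinearEquiv.toContinuousLinearEquiv
    { toFun := fun v => ((κ + 1) * v.1 - v.2, -(κ * v.1))
      map_add' := fun v w => by
        ext
        · simp
          ring
        · simp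
          ring
      map_smul' := fun t v => by
        ext
        · simp
          ring
        · simp
          ring
      invFun := fun v => (-(v.2 / κ), -((κ + 1) * v.2 / κ) - v.1)
      left_inv := fun v => by
        ext
        · simp
          field_simp
        · simp
          field_simp
          ring
      right_inv := fun v => by
        ext
        · simp
          field_simp
          ring
        · simp
          field_simp }

theorem Leq_apply (κ : ℂ) (hκ : κ ≠ 0) (v : ℂ × ℂ) :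
    Leq κ hκ v = ((κ + 1) * v.1 - v.2, -(κ * v.1)) := rfl

theorem exists_zero {κ : ℂ} (hκ : κ ≠ 0) : ∃ c : ℝ, 0 < c ∧ ∀ r : ℝ, 0 < r → r ≤ 1 / 100 →
    ∀ A B : ℂ → ℂ → ℂ, Hol2 A Bd → Hol2 B Bd →
    (∀ z y, ‖z‖ ≤ r → ‖y‖ ≤ r → ‖d1 A z y - (κ + 1)‖ ≤ c ∧ ‖d2 A z y + 1‖ ≤ c ∧
      ‖d1 B z y + κ‖ ≤ c ∧ ‖d2 B z y‖ ≤ c) →
    ‖A 0 0‖ ≤ c * r → ‖B 0 0‖ ≤ c * r →
    ∃ z y, ‖z‖ ≤ r ∧ ‖y‖ ≤ r ∧ A z y = 0 ∧ B z y = 0 := by
  set L : (ℂ × ℂ) ≃L[ℂ] (ℂ × ℂ) := Leq κ hκ with hL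
  set N : ℝ := ‖(L.symm : (ℂ × ℂ) →L[ℂ] (ℂ × ℂ))‖ with hN
  have hN0 : 0 < N := by
    rw [hN, norm_pos_iff]
    intro h
    have h1 : L.symm (L (0, 1)) = (0, 1) := L.symm_apply_apply _
    have h2 : (L.symm : (ℂ × ℂ) →L[ℂ] (ℂ × ℂ)) (L (0, 1)) = 0 := by rw [h]; rfl
    have h3 : ((0, 1) : ℂ × ℂ) = 0 := h1.symm.trans h2
    have h4 := congrArg Prod.snd h3
    simp at h4
  refine ⟨1 / (4 * N), by positivity, ?_⟩
  intro r hr hr1 A B hA hB hd h0A h0B
  set c : ℝ := 1 / (4 * N) with hc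
  have hc0 : 0 < c := by positivity
  have hmem : ∀ p ∈ closedBall (0 : ℂ × ℂ) r, ‖p.1‖ ≤ r ∧ ‖p.2‖ ≤ r := by
    intro p hp
    rw [mem_closedBall_zero_iff, Prod.norm_def, max_le_iff] at hp
    exact hp
  have hBd : ∀ p ∈ closedBall (0 : ℂ × ℂ) r, p ∈ Bd := by
    intro p hp
    have h := hmem p hp
    exact ⟨by linarith [h.1], by linarith [h.2]⟩
  set F : ℂ × ℂ → ℂ × ℂ := fun p => (A p.1 p.2, B p.1 p.2) with hF
  have happ : ApproximatesLinearOn F (L : (ℂ × ℂ) →L[ℂ] (ℂ × ℂ)) (closedBall 0 r)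
      ⟨2 * c, by positivity⟩ := by
    intro p hp q hq
    refine (convex_closedBall (0 : ℂ × ℂ) r).norm_image_sub_le_of_norm_hasFDerivWithin_le'
      (f' := fun p => (fderiv ℂ (fun p : ℂ × ℂ => A p.1 p.2) p).prod
        (fderiv ℂ (fun p : ℂ × ℂ => B p.1 p.2) p)) ?_ ?_ hq hp
    · intro s hs
      have h1 := P0.hasFD2 isOpen_Bd hA (hBd s hs)
      have h2 := P0.hasFD2 isOpen_Bd hB (hBd s hs)
      exact (h1.prodMk h2).hasFDerivWithinAt
    · rintro ⟨a, b⟩ hs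
      have hm := hmem _ hs
      obtain ⟨k1, k2, k3, k4⟩ := hd a b hm.1 hm.2
      apply ContinuousLinearMap.opNorm_le_bound _ (by positivity)
      rintro ⟨u, w⟩
      have e : (((fderiv ℂ (fun p : ℂ × ℂ => A p.1 p.2) (a, b)).prod
          (fderiv ℂ (fun p : ℂ × ℂ => B p.1 p.2) (a, b))) -
          (L : (ℂ × ℂ) →L[ℂ] (ℂ × ℂ))) (u, w) =
          ((d1 A a b - (κ + 1)) * u + (d2 A a b + 1) * w,
            (d1 B a b + κ) * u + d2 B a b * w) := by
        rw [_root_.sub_apply, ContinuousLinearMap.prod_apply,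
          P0.fd2_apply isOpen_Bd hA (hBd _ hs), P0.fd2_apply isOpen_Bd hB (hBd _ hs)]
        have e2 : (L : (ℂ × ℂ) →L[ℂ] (ℂ × ℂ)) (u, w) = ((κ + 1) * u - w, -(κ * u)) := rfl
        rw [e2, Prod.mk_sub_mk]
        ext
        · simp only
          ring
        · simp only
          ring
      rw [e, Prod.norm_def]
      have hu : ‖u‖ ≤ ‖((u, w) : ℂ × ℂ)‖ := le_max_left _ _
      have hw : ‖w‖ ≤ ‖((u, w) : ℂ × ℂ)‖ := le_max_right _ _
      have key : ∀ s t : ℂ, ‖s‖ ≤ c → ‖t‖ ≤ c → ‖s * u + t * w‖ ≤ 2 * c * ‖((u, w) : ℂ × ℂ)‖ := by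
        intro s t hs ht
        calc ‖s * u + t * w‖ ≤ ‖s * u‖ + ‖t * w‖ := norm_add_le _ _
          _ = ‖s‖ * ‖u‖ + ‖t‖ * ‖w‖ := by rw [norm_mul, norm_mul]
          _ ≤ c * ‖((u, w) : ℂ × ℂ)‖ + c * ‖((u, w) : ℂ × ℂ)‖ :=
            add_le_add (mul_le_mul hs hu (norm_nonneg _) hc0.le)
              (mul_le_mul ht hw (norm_nonneg _) hc0.le)
          _ = _ := by ring
      exact max_le (key _ _ k1 k2) (key _ _ k3 k4)
  have hsurj := happ.surjOn_closedBall_of_nonlinearRightInverse L.toNonlinearRightInverse hr.le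
    (le_refl (closedBall (0 : ℂ × ℂ) r))
  have hnn : ((L.toNonlinearRightInverse.nnnorm : ℝ))⁻¹ = 4 * c := by
    have : (L.toNonlinearRightInverse.nnnorm : ℝ) = N := rfl
    rw [this, hc]
    field_simp
  have h0 : (0 : ℂ × ℂ) ∈ closedBall (F 0)
      ((((L.toNonlinearRightInverse.nnnorm : ℝ))⁻¹ - ((⟨2 * c, by positivity⟩ : NNReal) : ℝ)) * r) := by
    rw [hnn, mem_closedBall, dist_comm, dist_zero_right, Prod.norm_def]
    have e3 : (((⟨2 * c, by positivity⟩ : NNReal)) : ℝ) = 2 * c := rfl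
    rw [e3]
    have e4 : c * r ≤ (4 * c - 2 * c) * r := by
      have := mul_pos hc0 hr
      nlinarith
    exact max_le (h0A.trans e4) (h0B.trans e4)
  obtain ⟨p, hp, hp0⟩ := hsurj h0
  have hm := hmem p hp
  have h1 := congrArg Prod.fst hp0
  have h2 := congrArg Prod.snd hp0
  exact ⟨p.1, p.2, hm.1, hm.2, h1, h2⟩

theorem nonvanish {κ : ℂ} (hκ : κ ≠ 0) (hκ1 : κ ≠ 1) : ∃ η : ℝ, 0 < η ∧ ∀ a1 a2 b1 b2 : ℂ,
    ‖a1 - (κ + 1)‖ ≤ η → ‖a2 + 1‖ ≤ η → ‖b1 + κ‖ ≤ η → ‖b2‖ ≤ η →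
    b1 - a2 ≠ 0 ∧ a1 * b2 - a2 * b1 ≠ 0 := by
  have hc1 : ContinuousAt (fun w : ℂ × ℂ × ℂ × ℂ => w.2.2.1 - w.2.1) (κ + 1, -1, -κ, 0) := by
    fun_prop
  have hc2 : ContinuousAt (fun w : ℂ × ℂ × ℂ × ℂ => w.1 * w.2.2.2 - w.2.1 * w.2.2.1)
      (κ + 1, -1, -κ, 0) := by
    fun_prop
  have h1 := hc1.eventually_ne (y := (0 : ℂ)) (by
    simp only
    intro h
    apply hκ1
    linear_combination -h)
  have h2 := hc2.eventually_ne (y := (0 : ℂ)) (by
    simp only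
    intro h
    apply hκ
    linear_combination -h)
  obtain ⟨r, hr, H⟩ := Metric.eventually_nhds_iff_ball.1 (h1.and h2)
  refine ⟨r / 2, half_pos hr, fun a1 a2 b1 b2 k1 k2 k3 k4 => ?_⟩
  have g1 : dist a1 (κ + 1) < r := by rw [dist_eq_norm]; linarith
  have g2 : dist a2 (-1) < r := by rw [dist_eq_norm, sub_neg_eq_add]; linarith
  have g3 : dist b1 (-κ) < r := by rw [dist_eq_norm, sub_neg_eq_add]; linarith
  have g4 : dist b2 0 < r := by rw [dist_eq_norm, sub_zero]; linarith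
  have hm : ((a1, a2, b1, b2) : ℂ × ℂ × ℂ × ℂ) ∈ ball (κ + 1, -1, -κ, 0) r :=
    max_lt g1 (max_lt g2 (max_lt g3 g4))
  exact H _ hm

/-- closeness of a value of a model function near the origin -/
theorem model_near {M : ℂ → ℂ → ℂ} (hM : Hol2 M univ) {e : ℝ} (he : 0 < e) :
    ∀ᶠ p : ℂ × ℂ in 𝓝 0, ‖M p.1 p.2 - M 0 0‖ ≤ e := by
  have hc : ContinuousAt (fun p : ℂ × ℂ => M p.1 p.2) 0 :=
    (DifferentiableOn.continuousOn hM).continuousAt univ_mem
  have h := Metric.tendsto_nhds.1 hc e he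
  filter_upwards [h] with p hp
  rw [dist_eq_norm] at hp
  exact hp.le

theorem Hol2.mono' {f : ℂ → ℂ → ℂ} (hf : Hol2 f univ) : Hol2 f Bd :=
  DifferentiableOn.mono hf (subset_univ _)

end P8

open P8 in
/-- Lemma 7 of the paper (uses T0; self-contained) -/
theorem node {κ : ℂ} (hκ : κ ≠ 0) (hκ1 : κ ≠ 1) : ∀ ε > 0, ∃ δ > 0, ∀ A B C : ℂ → ℂ → ℂ,
    Hol2 A Bd → Hol2 B Bd → Hol2 C Bd →
    (∀ z y, (z, y) ∈ Bd → ‖A z y - mA κ z y‖ ≤ δ ∧ ‖B z y - mB κ z y‖ ≤ δ ∧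
      ‖C z y - mC z y‖ ≤ δ) →
    (∀ z y, (z, y) ∈ Bd → C z y * (d1 B z y - d2 A z y) = B z y * d1 C z y - A z y * d2 C z y) →
    ‖per1 B C - κ‖ ≤ ε ∧ ‖per2 A C - 1‖ ≤ ε ∧
    ∃ z y, (z, y) ∈ Bd ∧ A z y = 0 ∧ B z y = 0 ∧ d1 B z y - d2 A z y ≠ 0 ∧
      d1 A z y * d2 B z y - d2 A z y * d1 B z y ≠ 0 ∧
      (d1 B z y - d2 A z y) ^ 2 * (per1 B C * per2 A C) =
        -(per1 B C - per2 A C) ^ 2 * (d1 A z y * d2 B z y - d2 A z y * d1 B z y) := by
  intro ε hε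
  obtain ⟨η, hη, hη1, Hclose⟩ := close κ hε
  obtain ⟨η2, hη2, Hne⟩ := nonvanish hκ hκ1
  obtain ⟨c, hc, Hzero⟩ := exists_zero hκ
  set e : ℝ := min (min η η2) c with he
  have he0 : 0 < e := lt_min (lt_min hη hη2) hc
  have heη : e ≤ η := (min_le_left _ _).trans (min_le_left _ _)
  have heη2 : e ≤ η2 := (min_le_left _ _).trans (min_le_right _ _)
  have hec : e ≤ c := min_le_right _ _
  have he2 : 0 < e / 2 := half_pos he0
  have hA1 := (hol_mA κ).d1 isOpen_univ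
  have hA2 := (hol_mA κ).d2 isOpen_univ
  have hB1 := (hol_mB κ).d1 isOpen_univ
  have hB2 := (hol_mB κ).d2 isOpen_univ
  have hC11 := (hol_mC.d1 isOpen_univ).d1 isOpen_univ
  have hC12 := (hol_mC.d2 isOpen_univ).d1 isOpen_univ
  have hC22 := (hol_mC.d2 isOpen_univ).d2 isOpen_univ
  obtain ⟨r0, hr0, H0⟩ := Metric.eventually_nhds_iff_ball.1 ((model_near hA1 he2).and
    ((model_near hA2 he2).and ((model_near hB1 he2).and ((model_near hB2 he2).and
      ((model_near hC11 he2).and ((model_near hC12 he2).and (model_near hC22 he2)))))))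
  have hcC : ContinuousOn (fun p : ℂ × ℂ => mC p.1 p.2) (closedBall 0 1) :=
    (DifferentiableOn.continuousOn hol_mC).mono (subset_univ _)
  have huc := (isCompact_closedBall (0 : ℂ × ℂ) 1).uniformContinuousOn_of_continuous hcC
  obtain ⟨ρ, hρ, Hρ⟩ := Metric.uniformContinuousOn_iff.1 huc (1 / 2000) (by norm_num)
  set r : ℝ := min (min (r0 / 2) (ρ / 2)) (1 / 100) with hr
  have hrp : 0 < r := lt_min (lt_min (half_pos hr0) (half_pos hρ)) (by norm_num)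
  have hr0' : r < r0 := by
    have : r ≤ r0 / 2 := (min_le_left _ _).trans (min_le_left _ _)
    linarith
  have hrρ : r < ρ := by
    have : r ≤ ρ / 2 := (min_le_left _ _).trans (min_le_right _ _)
    linarith
  have hr1 : r ≤ 1 / 100 := min_le_right _ _
  set δ : ℝ := min (min (e / 128) (c * r)) (1 / 2000) with hδ
  have hδ0 : 0 < δ := lt_min (lt_min (by positivity) (mul_pos hc hrp)) (by norm_num)
  have hδe : δ ≤ e / 128 := (min_le_left _ _).trans (min_le_left _ _)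
  have hδc : δ ≤ c * r := (min_le_left _ _).trans (min_le_right _ _)
  have hδ2 : δ ≤ 1 / 2000 := min_le_right _ _
  refine ⟨δ, hδ0, ?_⟩
  intro A B C hA hB hC hnear hI
  have nA : ∀ z y, (z, y) ∈ Bd → ‖A z y - mA κ z y‖ ≤ δ := fun z y h => (hnear z y h).1
  have nB : ∀ z y, (z, y) ∈ Bd → ‖B z y - mB κ z y‖ ≤ δ := fun z y h => (hnear z y h).2.1
  have nC : ∀ z y, (z, y) ∈ Bd → ‖C z y - mC z y‖ ≤ δ := fun z y h => (hnear z y h).2.2
  have hmA := Hol2.mono' (hol_mA κ)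
  have hmB := Hol2.mono' (hol_mB κ)
  have hmC := Hol2.mono' hol_mC
  -- closeness of the derivatives
  have tri : ∀ {a b d : ℂ} {s t : ℝ}, ‖a - b‖ ≤ s → ‖b - d‖ ≤ t → ‖a - d‖ ≤ s + t := by
    intro a b d s t h1 h2
    calc ‖a - d‖ = ‖(a - b) + (b - d)‖ := by congr 1; ring
      _ ≤ ‖a - b‖ + ‖b - d‖ := norm_add_le _ _
      _ ≤ s + t := add_le_add h1 h2
  have hball : ∀ z y : ℂ, ‖z‖ ≤ r → ‖y‖ ≤ r → ((z, y) : ℂ × ℂ) ∈ ball (0 : ℂ × ℂ) r0 := by
    intro z y hz hy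
    rw [mem_ball_zero_iff, Prod.norm_def]
    exact max_lt (by simp only; linarith) (by simp only; linarith)
  have first : ∀ z y : ℂ, ‖z‖ ≤ r → ‖y‖ ≤ r → ‖d1 A z y - (κ + 1)‖ ≤ e ∧ ‖d2 A z y + 1‖ ≤ e ∧
      ‖d1 B z y + κ‖ ≤ e ∧ ‖d2 B z y‖ ≤ e := by
    intro z y hz hy
    obtain ⟨k1, k2, k3, k4, -⟩ := H0 _ (hball z y hz hy)
    simp only [d1mA, d2mA, d1mB, d2mB] at k1 k2 k3 k4
    have j1 := near1 hA hmA nA z y (by linarith) (by linarith)
    have j2 := near1 hB hmB nB z y (by linarith) (by linarith)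
    have i1 := tri j1.1 k1
    have i2 := tri j1.2 k2
    have i3 := tri j2.1 k3
    have i4 := tri j2.2 k4
    rw [sub_neg_eq_add] at i2 i3
    rw [sub_zero] at i4
    exact ⟨by linarith, by linarith, by linarith, by linarith⟩
  have second : ∀ z y : ℂ, ‖z‖ ≤ r → ‖y‖ ≤ r → ‖d1 (d1 C) z y - 2‖ ≤ e ∧
      ‖d1 (d2 C) z y + 1‖ ≤ e ∧ ‖d2 (d2 C) z y‖ ≤ e := by
    intro z y hz hy
    obtain ⟨-, -, -, -, k1, k2, k3⟩ := H0 _ (hball z y hz hy)
    simp only [d11mC, d12mC, d22mC] at k1 k2 k3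
    have j1 := near2 hC hmC nC z y (by linarith) (by linarith)
    have i1 := tri j1.1 k1
    have i2 := tri j1.2.1 k2
    have i3 := tri j1.2.2 k3
    rw [sub_neg_eq_add] at i2
    rw [sub_zero] at i3
    exact ⟨by linarith, by linarith, by linarith⟩
  have h00 : ((0 : ℂ), (0 : ℂ)) ∈ Bd := ⟨by simp, by simp⟩
  obtain ⟨x, y, hx, hy, hAx, hBx⟩ := Hzero r hrp hr1 A B hA hB
    (fun z y hz hy => by
      obtain ⟨k1, k2, k3, k4⟩ := first z y hz hy
      exact ⟨k1.trans hec, k2.trans hec, k3.trans hec, k4.trans hec⟩)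
    (by
      have := nA 0 0 h00
      rw [mA0, sub_zero] at this
      exact this.trans hδc)
    (by
      have := nB 0 0 h00
      rw [mB0, sub_zero] at this
      exact this.trans hδc)
  obtain ⟨f1, f2, f3, f4⟩ := first x y hx hy
  obtain ⟨s1, s2, s3⟩ := second x y hx hy
  obtain ⟨hrot, hdet⟩ := Hne _ _ _ _ (f1.trans heη2) (f2.trans heη2) (f3.trans heη2)
    (f4.trans heη2)
  have hm : (x, y) ∈ Bd := ⟨by simp only; linarith, by simp only; linarith⟩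
  have D1 : Data A B C x y := ⟨hA, hB, hC, hI, hm, hAx, hBx, hrot, hdet⟩
  -- the lower bound
  have hsmall : ∀ v ∈ ball (0 : ℂ × ℂ) (7 / 16),
      ‖C (x + v.1) (y + v.2) - mC v.1 v.2‖ ≤ 1 / 1000 := by
    rintro ⟨u, w⟩ hv
    rw [mem_ball_zero_iff, Prod.norm_def, max_lt_iff] at hv
    obtain ⟨hu, hw⟩ := hv
    simp only at hu hw ⊢
    have a1 : ‖x + u‖ < 1 / 2 := lt_of_le_of_lt (norm_add_le _ _) (by linarith)
    have a2 : ‖y + w‖ < 1 / 2 := lt_of_le_of_lt (norm_add_le _ _) (by linarith)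
    have b1 := nC (x + u) (y + w) ⟨a1, a2⟩
    have b2 := Hρ (x + u, y + w) (by
        rw [mem_closedBall_zero_iff, Prod.norm_def]
        exact max_le (by simp only; linarith) (by simp only; linarith)) (u, w) (by
        rw [mem_closedBall_zero_iff, Prod.norm_def]
        exact max_le (by simp only; linarith) (by simp only; linarith)) (by
        rw [Prod.dist_eq, dist_eq_norm, dist_eq_norm]
        simp only [add_sub_cancel_right]
        exact max_lt (by linarith) (by linarith))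
    rw [dist_eq_norm] at b2
    simp only at b2
    have := tri b1 b2.le
    linarith
  set G : ℂ × ℂ → ℂ := fun v => C (x + v.1) (y + v.2) - mC v.1 v.2 with hG
  have hG0 : G 0 = 0 := by
    simp only [hG, Prod.fst_zero, Prod.snd_zero, add_zero, D1.c0, mC0, sub_zero]
  have hGd : DifferentiableOn ℂ G (ball 0 (7 / 16)) := by
    have t1 : DifferentiableOn ℂ (fun v : ℂ × ℂ => (x + v.1, y + v.2)) (ball 0 (7 / 16)) := by
      fun_prop
    have t2 : MapsTo (fun v : ℂ × ℂ => (x + v.1, y + v.2)) (ball 0 (7 / 16)) Bd := by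
      rintro ⟨u, w⟩ hv
      rw [mem_ball_zero_iff, Prod.norm_def, max_lt_iff] at hv
      obtain ⟨hu, hw⟩ := hv
      simp only at hu hw
      exact ⟨lt_of_le_of_lt (norm_add_le _ _) (by linarith),
        lt_of_le_of_lt (norm_add_le _ _) (by linarith)⟩
    have t3 : DifferentiableOn ℂ (fun v : ℂ × ℂ => C (x + v.1) (y + v.2)) (ball 0 (7 / 16)) :=
      DifferentiableOn.comp (g := fun p : ℂ × ℂ => C p.1 p.2) hC t1 t2
    exact t3.sub (DifferentiableOn.mono hol_mC (subset_univ _))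
  have hGl : (G · - G 0) =o[𝓝 0] (fun w : ℂ × ℂ => ‖w - 0‖ ^ 1) := by
    have z1 : fderiv ℂ (fun p : ℂ × ℂ => C p.1 p.2) (x, y) = 0 := by
      ext
      all_goals simp [P0.fd2_apply isOpen_Bd hC hm, D1.c12.1, D1.c12.2]
    have z2 : fderiv ℂ (fun p : ℂ × ℂ => mC p.1 p.2) (0, 0) = 0 := by
      ext
      all_goals simp [P0.fd2_apply isOpen_univ hol_mC (mem_univ _), d1mC0, d2mC0]
    have w1 : HasFDerivAt (fun p : ℂ × ℂ => C p.1 p.2) (0 : (ℂ × ℂ) →L[ℂ] ℂ)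
        ((x, y) + (0 : ℂ × ℂ)) := by
      rw [add_zero, ← z1]
      exact P0.hasFD2 isOpen_Bd hC hm
    have w2 : HasFDerivAt (fun p : ℂ × ℂ => mC p.1 p.2) (0 : (ℂ × ℂ) →L[ℂ] ℂ) (0 : ℂ × ℂ) := by
      rw [← z2]
      exact P0.hasFD2 isOpen_univ hol_mC (mem_univ _)
    have w3 := w1.comp (f := fun v : ℂ × ℂ => (x, y) + v) (0 : ℂ × ℂ)
      ((hasFDerivAt_id (0 : ℂ × ℂ)).const_add (x, y))
    have w4 : HasFDerivAt G (0 : (ℂ × ℂ) →L[ℂ] ℂ) 0 := by
      have := w3.sub w2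
      simp only [ContinuousLinearMap.zero_comp, sub_zero] at this
      exact this
    have w5 := w4.isLittleO
    simp only [_root_.zero_apply, sub_zero] at w5
    simp only [pow_one, sub_zero]
    exact w5.norm_right
  have hSchwarz : ∀ v ∈ ball (0 : ℂ × ℂ) (7 / 16), ‖G v‖ ≤ 1 / 1000 * (‖v‖ / (7 / 16)) ^ 2 := by
    intro v hv
    have h := Complex.dist_le_mul_div_pow_of_mapsTo_ball_of_isLittleO (R₂ := 1 / 1000) hGd
      (fun w hw => by
        rw [hG0, mem_closedBall_zero_iff]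
        exact hsmall w hw) hGl hv
    rw [hG0, dist_zero_right, dist_zero_right] at h
    exact h
  have D2 : Data2 A B C x y (1 / 1000) := by
    refine ⟨D1, hx.trans hr1, hy.trans hr1, by norm_num, ?_⟩
    intro σ hσ hσ1 u w hT
    have g1 := mC_ge hσ hσ1 hT
    have n1 : ‖(σ : ℂ) * u‖ ≤ σ * (13 / 50) := by
      rw [norm_mul, norm_real, Real.norm_eq_abs, abs_of_pos hσ]
      exact mul_le_mul_of_nonneg_left (hT.2.1.trans (by norm_num)) hσ.le
    have n2 : ‖(σ : ℂ) * w‖ ≤ σ * (13 / 50) := by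
      rw [norm_mul, norm_real, Real.norm_eq_abs, abs_of_pos hσ]
      exact mul_le_mul_of_nonneg_left hT.2.2.2 hσ.le
    have n3 : ‖((σ * u, σ * w) : ℂ × ℂ)‖ ≤ σ * (13 / 50) := by
      rw [Prod.norm_def]
      exact max_le n1 n2
    have g2 := hSchwarz (σ * u, σ * w) (by
      rw [mem_ball_zero_iff]
      exact lt_of_le_of_lt n3 (by linarith))
    have g3 : (‖((σ * u, σ * w) : ℂ × ℂ)‖ / (7 / 16)) ^ 2 ≤ (σ * (13 / 50) / (7 / 16)) ^ 2 := by
      apply pow_le_pow_left₀ (by positivity)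
      exact div_le_div_of_nonneg_right n3 (by norm_num)
    have g4 : ‖mC (σ * u) (σ * w)‖ ≤ ‖C (x + σ * u) (y + σ * w)‖ + ‖G (σ * u, σ * w)‖ := by
      have e5 : mC (σ * u) (σ * w) = C (x + σ * u) (y + σ * w) - G (σ * u, σ * w) := by
        simp only [hG]
        ring
      calc ‖mC (σ * u) (σ * w)‖ = ‖C (x + σ * u) (y + σ * w) - G (σ * u, σ * w)‖ := by rw [e5]
        _ ≤ _ := norm_sub_le _ _
    nlinarith [sq_nonneg σ]
  -- the periods
  set p : ℂ := d1 (d1 C) x y / 2 with hp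
  set q : ℂ := d1 (d2 C) x y with hq
  set r' : ℂ := d2 (d2 C) x y / 2 with hr'
  have b1 : ‖p - 1‖ ≤ η := by
    have : p - 1 = (d1 (d1 C) x y - 2) / 2 := by rw [hp]; ring
    rw [this, norm_div]
    have e2 : ‖(2 : ℂ)‖ = 2 := by simp
    rw [e2]
    linarith
  have b2 : ‖q + 1‖ ≤ η := s2.trans heη
  have b3 : ‖r'‖ ≤ η := by
    rw [hr', norm_div]
    have e2 : ‖(2 : ℂ)‖ = 2 := by simp
    rw [e2]
    linarith
  obtain ⟨hp0, t1, t2, ht, ht', ht2, ht1, c1, c2⟩ := Hclose (d1 A x y) (d2 A x y) p q r'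
    (f1.trans heη) (f2.trans heη) b1 b2 b3
  obtain ⟨e1, e2, e3⟩ := core D2 hp.symm hq.symm hr'.symm hp0 ht ht' ht2 ht1
  refine ⟨?_, ?_, x, y, hm, hAx, hBx, hrot, hdet, e3⟩
  · rw [e1]
    exact c1
  · rw [e2]
    exact c2

end Pool.Agent.H583_Fol
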