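import Pool.Agent.H583_Fol.Basic
import Pool.Agent.H583_Fol.P0

/-!
# The node lemma, part a: residues of quotients of linear by quadratic forms
-/

set_option autoImplicit false

namespace Pool.Agent.H583_Fol

open Complex Set Metric Filter Topology

namespace P8

theorem res1 {p t1 t2 b1 b2 x : ℂ} (hx : ‖x‖ = 1 / 16) (hp : p ≠ 0) (h2 : ‖t2‖ < 1 / 4)
    (h1 : 1 / 4 < ‖t1‖) :
    (∮ y in C(0, 1 / 4), (b1 * x + b2 * y) / (p * ((x - t1 * y) * (x - t2 * y)))) =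
      2 * Real.pi * I * ((b1 * t1 + b2) / (p * t1 * (t2 - t1))) := by
  have ht1 : t1 ≠ 0 := by
    rintro rfl
    rw [norm_zero] at h1
    linarith
  have ht : t2 - t1 ≠ 0 := by
    intro h
    rw [sub_eq_zero.1 h] at h2
    linarith
  have hd2 : ∀ y : ℂ, ‖y‖ ≤ 1 / 4 → x - t2 * y ≠ 0 := by
    intro y hy h
    have h3 : ‖x‖ = ‖t2‖ * ‖y‖ := by rw [sub_eq_zero.1 h, norm_mul]
    rw [hx] at h3
    have h4 : ‖t2‖ * ‖y‖ < 1 / 4 * (1 / 4) := by
      have h5 : ‖t2‖ * ‖y‖ ≤ ‖t2‖ * (1 / 4) := mul_le_mul_of_nonneg_left hy (norm_nonneg _)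
      linarith
    linarith
  have hd1 : ∀ y : ℂ, ‖y‖ = 1 / 4 → x - t1 * y ≠ 0 := by
    intro y hy h
    have h3 : ‖x‖ = ‖t1‖ * ‖y‖ := by rw [sub_eq_zero.1 h, norm_mul]
    rw [hx, hy] at h3
    linarith
  have hball : x / t1 ∈ ball (0 : ℂ) (1 / 4) := by
    rw [mem_ball_zero_iff, norm_div, hx, div_lt_iff₀ (by positivity)]
    linarith
  set K : ℂ := (b1 * t1 + b2) / (p * t1 * (t2 - t1)) with hK
  have e1 : (∮ y in C(0, 1 / 4), (b1 * x + b2 * y) / (p * ((x - t1 * y) * (x - t2 * y)))) =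
      ∮ y in C(0, 1 / 4), (K * (y - x / t1)⁻¹ + (b2 + t2 * b1) / ((t2 - t1) * p) * (x - t2 * y)⁻¹) := by
    apply circleIntegral.integral_congr (by norm_num)
    intro y hy
    rw [mem_sphere_zero_iff_norm] at hy
    have f1 := hd1 y hy
    have f2 := hd2 y hy.le
    have f3 : y - x / t1 ≠ 0 := by
      intro h
      apply f1
      rw [sub_eq_zero.1 h]
      field_simp
      ring
    have f4 : (y - x / t1) = -(x - t1 * y) / t1 := by
      field_simp
      ring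
    simp only
    rw [f4, hK]
    have f1' : x - y * t1 ≠ 0 := by rwa [mul_comm y t1]
    have f2' : x - y * t2 ≠ 0 := by rwa [mul_comm y t2]
    field_simp
    ring
  have c2 : ContinuousOn (fun y => (b2 + t2 * b1) / ((t2 - t1) * p) * (x - t2 * y)⁻¹)
      (closedBall (0 : ℂ) (1 / 4)) := by
    apply ContinuousOn.mul continuousOn_const
    apply ContinuousOn.inv₀ (by fun_prop)
    intro y hy
    exact hd2 y (mem_closedBall_zero_iff.1 hy)
  have c1 : ContinuousOn (fun y => K * (y - x / t1)⁻¹) (sphere (0 : ℂ) (1 / 4)) := by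
    apply ContinuousOn.mul continuousOn_const
    apply ContinuousOn.inv₀ (by fun_prop)
    intro y hy h
    rw [sub_eq_zero.1 h, mem_sphere_zero_iff_norm] at hy
    rw [mem_ball_zero_iff] at hball
    linarith
  rw [e1, circleIntegral.integral_add (c1.circleIntegrable (by norm_num))
    ((c2.mono sphere_subset_closedBall).circleIntegrable (by norm_num)),
    circleIntegral.integral_const_mul, circleIntegral.integral_sub_inv_of_mem_ball hball]
  have e2 : (∮ y in C(0, 1 / 4), (b2 + t2 * b1) / ((t2 - t1) * p) * (x - t2 * y)⁻¹) = 0 := by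
    apply Complex.circleIntegral_eq_zero_of_differentiable_on_off_countable (by norm_num)
      countable_empty c2
    rintro y ⟨hy, -⟩
    have f2 := hd2 y (mem_ball_zero_iff.1 hy).le
    exact ((differentiableAt_const _).mul (((differentiableAt_const _).sub
      ((differentiableAt_const _).mul differentiableAt_id)).inv f2))
  rw [e2]
  ring

theorem res2 {p t1 t2 a1 a2 y : ℂ} (hy : ‖y‖ = 1 / 4) (hp : p ≠ 0) (h2 : ‖t2‖ < 1 / 4)
    (h1 : 1 / 4 < ‖t1‖) :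
    (∮ z in C(0, 1 / 16), (a1 * z + a2 * y) / (p * ((z - t1 * y) * (z - t2 * y)))) =
      2 * Real.pi * I * ((a1 * t2 + a2) / (p * (t2 - t1))) := by
  have hy0 : y ≠ 0 := by
    rintro rfl
    rw [norm_zero] at hy
    linarith
  have ht : t2 - t1 ≠ 0 := by
    intro h
    rw [sub_eq_zero.1 h] at h2
    linarith
  have hd1 : ∀ z : ℂ, ‖z‖ ≤ 1 / 16 → z - t1 * y ≠ 0 := by
    intro z hz h
    have h3 : ‖z‖ = ‖t1‖ * ‖y‖ := by rw [sub_eq_zero.1 h, norm_mul]
    rw [hy] at h3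
    linarith
  have hball : t2 * y ∈ ball (0 : ℂ) (1 / 16) := by
    rw [mem_ball_zero_iff, norm_mul, hy]
    linarith
  have hd2 : ∀ z : ℂ, ‖z‖ = 1 / 16 → z - t2 * y ≠ 0 := by
    intro z hz h
    rw [mem_ball_zero_iff, ← sub_eq_zero.1 h] at hball
    linarith
  set K : ℂ := (a1 * t2 + a2) / (p * (t2 - t1)) with hK
  have e1 : (∮ z in C(0, 1 / 16), (a1 * z + a2 * y) / (p * ((z - t1 * y) * (z - t2 * y)))) =
      ∮ z in C(0, 1 / 16), (K * (z - t2 * y)⁻¹ +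
        -((a1 * t1 + a2) / (p * (t2 - t1))) * (z - t1 * y)⁻¹) := by
    apply circleIntegral.integral_congr (by norm_num)
    intro z hz
    rw [mem_sphere_zero_iff_norm] at hz
    have f1 := hd1 z hz.le
    have f2 := hd2 z hz
    simp only
    rw [hK]
    have f1' : z - y * t1 ≠ 0 := by rwa [mul_comm y t1]
    have f2' : z - y * t2 ≠ 0 := by rwa [mul_comm y t2]
    field_simp
    ring
  have c2 : ContinuousOn (fun z => -((a1 * t1 + a2) / (p * (t2 - t1))) * (z - t1 * y)⁻¹)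
      (closedBall (0 : ℂ) (1 / 16)) := by
    apply ContinuousOn.mul continuousOn_const
    apply ContinuousOn.inv₀ (by fun_prop)
    intro z hz
    exact hd1 z (mem_closedBall_zero_iff.1 hz)
  have c1 : ContinuousOn (fun z => K * (z - t2 * y)⁻¹) (sphere (0 : ℂ) (1 / 16)) := by
    apply ContinuousOn.mul continuousOn_const
    apply ContinuousOn.inv₀ (by fun_prop)
    intro z hz
    exact hd2 z (mem_sphere_zero_iff_norm.1 hz)
  rw [e1, circleIntegral.integral_add (c1.circleIntegrable (by norm_num))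
    ((c2.mono sphere_subset_closedBall).circleIntegrable (by norm_num)),
    circleIntegral.integral_const_mul, circleIntegral.integral_sub_inv_of_mem_ball hball]
  have e2 : (∮ z in C(0, 1 / 16), -((a1 * t1 + a2) / (p * (t2 - t1))) * (z - t1 * y)⁻¹) = 0 := by
    apply Complex.circleIntegral_eq_zero_of_differentiable_on_off_countable (by norm_num)
      countable_empty c2
    rintro z ⟨hz, -⟩
    have f2 := hd1 z (mem_ball_zero_iff.1 hz).le
    exact ((differentiableAt_const _).mul ((differentiableAt_id.sub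
      (differentiableAt_const _)).inv f2))
  rw [e2]
  ring

theorem alg {p q r a1 a2 b1 b2 t1 t2 : ℂ} (hp : p ≠ 0) (ht : t2 - t1 ≠ 0) (ht1 : t1 ≠ 0)
    (hq : q = -(p * (t1 + t2))) (hr : r = p * (t1 * t2)) (e1 : p * (b1 + a2) = a1 * q)
    (e2 : b2 * p = a1 * r) :
    (b1 * t1 + b2) / (p * t1 * (t2 - t1)) = -((a1 * t1 + a2) / (p * (t2 - t1))) ∧
      (b1 - a2) ^ 2 * (((b1 * t1 + b2) / (p * t1 * (t2 - t1))) *
        ((a1 * t2 + a2) / (p * (t2 - t1)))) =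
      -((b1 * t1 + b2) / (p * t1 * (t2 - t1)) - (a1 * t2 + a2) / (p * (t2 - t1))) ^ 2 *
        (a1 * b2 - a2 * b1) := by
  have hb1 : b1 = -a2 - a1 * (t1 + t2) := by
    have h : p * (b1 + a2) = p * (-(a1 * (t1 + t2))) := by
      rw [e1, hq]
      ring
    have := mul_left_cancel₀ hp h
    linear_combination this
  have hb2 : b2 = a1 * (t1 * t2) := by
    have h : p * b2 = p * (a1 * (t1 * t2)) := by
      rw [mul_comm, e2, hr]
      ring
    exact mul_left_cancel₀ hp h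
  have hK : (b1 * t1 + b2) / (p * t1 * (t2 - t1)) = -((a1 * t1 + a2) / (p * (t2 - t1))) := by
    rw [hb1, hb2]
    field_simp
    ring
  refine ⟨hK, ?_⟩
  rw [hK, hb1, hb2]
  field_simp
  ring

/-- factorisation of a quadratic form -/
theorem factor {p q r : ℂ} (hp : p ≠ 0) : ∃ t1 t2 : ℂ, q = -(p * (t1 + t2)) ∧ r = p * (t1 * t2) ∧
    ‖t2‖ ≤ ‖t1‖ := by
  obtain ⟨s, hs⟩ := IsAlgClosed.exists_pow_nat_eq (q ^ 2 - 4 * p * r) (n := 2) (by norm_num)
  have key : ∃ t1 t2 : ℂ, q = -(p * (t1 + t2)) ∧ r = p * (t1 * t2) := by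
    refine ⟨(-q + s) / (2 * p), (-q - s) / (2 * p), ?_, ?_⟩
    · field_simp
      ring
    · field_simp
      linear_combination hs
  obtain ⟨t1, t2, h1, h2⟩ := key
  rcases le_total ‖t2‖ ‖t1‖ with h | h
  · exact ⟨t1, t2, h1, h2, h⟩
  · exact ⟨t2, t1, by rw [h1]; ring, by rw [h2]; ring, h⟩

theorem close (κ : ℂ) {ε : ℝ} (hε : 0 < ε) : ∃ η > 0, η ≤ 1 / 100 ∧ ∀ a1 a2 p q r : ℂ,
    ‖a1 - (κ + 1)‖ ≤ η → ‖a2 + 1‖ ≤ η → ‖p - 1‖ ≤ η → ‖q + 1‖ ≤ η → ‖r‖ ≤ η →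
    p ≠ 0 ∧ ∃ t1 t2 : ℂ, q = -(p * (t1 + t2)) ∧ r = p * (t1 * t2) ∧ ‖t2‖ < 1 / 4 ∧ 1 / 4 < ‖t1‖ ∧
      ‖-((a1 * t1 + a2) / (p * (t2 - t1))) - κ‖ ≤ ε ∧ ‖(a1 * t2 + a2) / (p * (t2 - t1)) - 1‖ ≤ ε := by
  have hc1 : ContinuousAt (fun w : ℂ × ℂ × ℂ × ℂ × ℂ =>
      -((w.1 * w.2.2.2.1 + w.2.1) / (w.2.2.1 * (w.2.2.2.2 - w.2.2.2.1))))
      (κ + 1, -1, 1, 1, 0) := by
    apply ContinuousAt.neg
    apply ContinuousAt.div (by fun_prop) (by fun_prop)
    norm_num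
  have hc2 : ContinuousAt (fun w : ℂ × ℂ × ℂ × ℂ × ℂ =>
      (w.1 * w.2.2.2.2 + w.2.1) / (w.2.2.1 * (w.2.2.2.2 - w.2.2.2.1)))
      (κ + 1, -1, 1, 1, 0) := by
    apply ContinuousAt.div (by fun_prop) (by fun_prop)
    norm_num
  obtain ⟨d1, hd1, H1⟩ := Metric.continuousAt_iff.1 hc1 ε hε
  obtain ⟨d2, hd2, H2⟩ := Metric.continuousAt_iff.1 hc2 ε hε
  set d := min (min d1 d2) (1 / 8) with hd
  have hd0 : 0 < d := lt_min (lt_min hd1 hd2) (by norm_num)
  have hdd1 : d ≤ d1 := (min_le_left _ _).trans (min_le_left _ _)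
  have hdd2 : d ≤ d2 := (min_le_left _ _).trans (min_le_right _ _)
  have hd8 : d ≤ 1 / 8 := min_le_right _ _
  refine ⟨d ^ 2 / 32, by positivity, by nlinarith, ?_⟩
  intro a1 a2 p q r ha1 ha2 hp hq hr
  have hη : d ^ 2 / 32 ≤ 1 / 100 := by nlinarith
  have hηd : d ^ 2 / 32 ≤ d / 256 := by nlinarith
  have hp1 : 1 / 2 ≤ ‖p‖ := by
    have h : ‖(1 : ℂ)‖ ≤ ‖p‖ + ‖p - 1‖ := by
      calc ‖(1 : ℂ)‖ = ‖p - (p - 1)‖ := by congr 1; ring
        _ ≤ _ := norm_sub_le _ _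
    rw [norm_one] at h
    linarith
  have hp0 : p ≠ 0 := by
    rintro rfl
    rw [norm_zero] at hp1
    linarith
  obtain ⟨t1, t2, h1, h2, h12⟩ := factor (q := q) (r := r) hp0
  have hpp : 0 < ‖p‖ := by positivity
  have ht12 : ‖t1 * t2‖ ≤ d ^ 2 / 16 := by
    rw [h2, norm_mul] at hr
    nlinarith [norm_nonneg (t1 * t2)]
  have ht2 : ‖t2‖ ≤ d / 4 := by
    rw [norm_mul] at ht12
    by_contra hcon
    push Not at hcon
    nlinarith [norm_nonneg t2]
  have hsum : ‖t1 + t2 - 1‖ ≤ d / 4 := by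
    have e : p * (t1 + t2 - 1) = -(q + 1) - (p - 1) := by
      linear_combination h1
    have e2 : ‖p‖ * ‖t1 + t2 - 1‖ ≤ 2 * (d ^ 2 / 32) := by
      rw [← norm_mul, e]
      calc ‖-(q + 1) - (p - 1)‖ ≤ ‖-(q + 1)‖ + ‖p - 1‖ := norm_sub_le _ _
        _ ≤ _ := by rw [norm_neg]; linarith
    nlinarith [norm_nonneg (t1 + t2 - 1)]
  have ht1 : ‖t1 - 1‖ ≤ d / 2 := by
    calc ‖t1 - 1‖ = ‖(t1 + t2 - 1) - t2‖ := by congr 1; ring
      _ ≤ ‖t1 + t2 - 1‖ + ‖t2‖ := norm_sub_le _ _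
      _ ≤ d / 2 := by linarith
  have hmem : dist ((a1, a2, p, t1, t2) : ℂ × ℂ × ℂ × ℂ × ℂ) (κ + 1, -1, 1, 1, 0) < d := by
    have g1 : dist a1 (κ + 1) < d := by rw [dist_eq_norm]; linarith
    have g2 : dist a2 (-1) < d := by rw [dist_eq_norm, sub_neg_eq_add]; linarith
    have g3 : dist p 1 < d := by rw [dist_eq_norm]; linarith
    have g4 : dist t1 1 < d := by rw [dist_eq_norm]; linarith
    have g5 : dist t2 0 < d := by rw [dist_eq_norm, sub_zero]; linarith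
    exact max_lt g1 (max_lt g2 (max_lt g3 (max_lt g4 g5)))
  refine ⟨hp0, t1, t2, h1, h2, by linarith, ?_, ?_, ?_⟩
  · have : ‖(1 : ℂ)‖ ≤ ‖t1‖ + ‖t1 - 1‖ := by
      calc ‖(1 : ℂ)‖ = ‖t1 - (t1 - 1)‖ := by congr 1; ring
        _ ≤ _ := norm_sub_le _ _
    rw [norm_one] at this
    linarith
  · have := H1 (lt_of_lt_of_le hmem hdd1)
    rw [dist_eq_norm] at this
    simp only at this
    have e : -(((κ + 1) * 1 + -1) / (1 * (0 - 1))) = κ := by
      norm_num [div_neg]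
    rw [e] at this
    exact this.le
  · have := H2 (lt_of_lt_of_le hmem hdd2)
    rw [dist_eq_norm] at this
    simp only at this
    have e : (((κ + 1) * 0 + -1) / (1 * (0 - 1)) : ℂ) = 1 := by
      norm_num
    rw [e] at this
    exact this.le

end P8

end Pool.Agent.H583_Fol
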