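import Pool.Agent.H583_Fol.Basic
import Pool.Agent.H583_Fol.P0

/-!
# The node lemma, part b: Taylor expansion at the zero
-/

set_option autoImplicit false

namespace Pool.Agent.H583_Fol

open Complex Set Metric Filter Topology

namespace P8

theorem line {f : ℂ → ℂ → ℂ} {U : Set (ℂ × ℂ)} (hU : IsOpen U) (hf : Hol2 f U) {x y u w t : ℂ}
    (h : (x + t * u, y + t * w) ∈ U) : HasDerivAt (fun s => f (x + s * u) (y + s * w))
      (d1 f (x + t * u) (y + t * w) * u + d2 f (x + t * u) (y + t * w) * w) t := by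
  have h1 : HasDerivAt (fun s => x + s * u) u t := by
    simpa using ((hasDerivAt_id t).mul_const u).const_add x
  have h2 : HasDerivAt (fun s => y + s * w) w t := by
    simpa using ((hasDerivAt_id t).mul_const w).const_add y
  have h3 := (P0.hasFD2 hU hf h).comp_hasDerivAt (f := fun s => (x + s * u, y + s * w)) t
    (h1.prodMk h2)
  have h4 : HasDerivAt (fun s => f (x + s * u) (y + s * w))
    (fderiv ℂ (fun p : ℂ × ℂ => f p.1 p.2) (x + t * u, y + t * w) (u, w)) t := h3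
  rwa [P0.fd2_apply hU hf h] at h4

theorem line0 {f : ℂ → ℂ → ℂ} {U : Set (ℂ × ℂ)} (hU : IsOpen U) (hf : Hol2 f U) {x y : ℂ}
    (h : (x, y) ∈ U) (u w : ℂ) : HasDerivAt (fun s => f (x + s * u) (y + s * w))
      (d1 f x y * u + d2 f x y * w) 0 := by
  have h1 := line (t := 0) (u := u) (w := w) hU hf (x := x) (y := y) (by simpa using h)
  simpa using h1

theorem slope0 {f : ℂ → ℂ → ℂ} {U : Set (ℂ × ℂ)} (hU : IsOpen U) (hf : Hol2 f U) {x y : ℂ}
    (h : (x, y) ∈ U) (h0 : f x y = 0) (u w : ℂ) :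
    Tendsto (fun t : ℂ => f (x + t * u) (y + t * w) / t) (𝓝[≠] 0)
      (𝓝 (d1 f x y * u + d2 f x y * w)) := by
  have h1 := hasDerivAt_iff_tendsto_slope_zero.1 (line0 hU hf h u w)
  refine h1.congr fun t => ?_
  simp only [zero_add, zero_mul, add_zero, h0, sub_zero, smul_eq_mul]
  rw [div_eq_inv_mul]

theorem cont0 {f : ℂ → ℂ → ℂ} {U : Set (ℂ × ℂ)} (hU : IsOpen U) (hf : Hol2 f U) {x y : ℂ}
    (h : (x, y) ∈ U) (u w : ℂ) :
    Tendsto (fun t : ℂ => f (x + t * u) (y + t * w)) (𝓝[≠] 0) (𝓝 (f x y)) := by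
  have h1 := (line0 hU hf h u w).continuousAt
  have h2 : Tendsto (fun t : ℂ => f (x + t * u) (y + t * w)) (𝓝 0)
    (𝓝 (f (x + 0 * u) (y + 0 * w))) := h1
  rw [zero_mul, zero_mul, add_zero, add_zero] at h2
  exact h2.mono_left nhdsWithin_le_nhds

theorem ev_mem {U : Set (ℂ × ℂ)} (hU : IsOpen U) {x y : ℂ} (h : (x, y) ∈ U) (u w : ℂ) :
    ∀ᶠ t : ℂ in 𝓝 0, (x + t * u, y + t * w) ∈ U := by
  have hc : Continuous (fun t : ℂ => (x + t * u, y + t * w)) := by fun_prop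
  exact hc.continuousAt.preimage_mem_nhds (hU.mem_nhds (by simpa using h))

/-- second order Taylor expansion in one variable -/
theorem taylor2 {g : ℂ → ℂ} {c : ℂ} (hg : ∀ᶠ t in 𝓝 (0 : ℂ), DifferentiableAt ℂ g t)
    (g0 : g 0 = 0) (g1 : deriv g 0 = 0)
    (hd : Tendsto (fun t => deriv g t / t) (𝓝[≠] 0) (𝓝 (2 * c))) :
    Tendsto (fun t => g t / t ^ 2) (𝓝[≠] 0) (𝓝 c) := by
  rw [Metric.tendsto_nhds]
  intro ε hε
  have h1 : ∀ᶠ t in 𝓝[≠] (0 : ℂ), dist (deriv g t / t) (2 * c) < ε / 2 :=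
    (Metric.tendsto_nhds.1 hd) (ε / 2) (half_pos hε)
  rw [eventually_nhdsWithin_iff] at h1
  obtain ⟨r, hr, H⟩ := Metric.eventually_nhds_iff_ball.1 (h1.and hg)
  rw [eventually_nhdsWithin_iff]
  filter_upwards [ball_mem_nhds (0 : ℂ) hr] with T hT hT0
  have hT0' : T ≠ 0 := hT0
  have hTn : 0 < ‖T‖ := norm_pos_iff.2 hT0'
  have hsub : closedBall (0 : ℂ) ‖T‖ ⊆ ball 0 r :=
    closedBall_subset_ball (mem_ball_zero_iff.1 hT)
  have hdiff : ∀ t ∈ closedBall (0 : ℂ) ‖T‖, HasDerivAt (fun t => g t - c * t ^ 2)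
      (deriv g t - c * (2 * t)) t := by
    intro t ht
    have h3 := (H t (hsub ht)).2.hasDerivAt
    have h4 : HasDerivAt (fun t : ℂ => c * t ^ 2) (c * (2 * t)) t := by
      simpa using (hasDerivAt_pow 2 t).const_mul c
    exact h3.sub h4
  have hb : ∀ t ∈ closedBall (0 : ℂ) ‖T‖, ‖deriv g t - c * (2 * t)‖ ≤ ε / 2 * ‖T‖ := by
    intro t ht
    rcases eq_or_ne t 0 with rfl | ht0
    · rw [g1]
      simp only [mul_zero, sub_zero, norm_zero]
      positivity
    · have h3 := (H t (hsub ht)).1 ht0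
      rw [dist_eq_norm] at h3
      have h4 : deriv g t - c * (2 * t) = (deriv g t / t - 2 * c) * t := by
        field_simp
      rw [h4, norm_mul]
      exact mul_le_mul h3.le (mem_closedBall_zero_iff.1 ht) (norm_nonneg _) (by positivity)
  have h5 := (convex_closedBall (0 : ℂ) ‖T‖).norm_image_sub_le_of_norm_hasDerivWithin_le
    (fun t ht => (hdiff t ht).hasDerivWithinAt) hb (mem_closedBall_self (norm_nonneg _))
    (show T ∈ closedBall (0 : ℂ) ‖T‖ by simp)
  rw [g0] at h5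
  simp only [ne_eq, OfNat.ofNat_ne_zero, not_false_eq_true, zero_pow, mul_zero, sub_zero] at h5
  rw [dist_eq_norm]
  have h6 : g T / T ^ 2 - c = (g T - c * T ^ 2) / T ^ 2 := by
    field_simp
  rw [h6, norm_div, norm_pow, div_lt_iff₀ (by positivity)]
  calc ‖g T - c * T ^ 2‖ ≤ ε / 2 * ‖T‖ * ‖T‖ := h5
    _ = ε / 2 * ‖T‖ ^ 2 := by ring
    _ < ε * ‖T‖ ^ 2 := by
      apply mul_lt_mul_of_pos_right _ (by positivity)
      linarith

theorem quad_lim {C : ℂ → ℂ → ℂ} {U : Set (ℂ × ℂ)} (hU : IsOpen U) (hC : Hol2 C U) {x y : ℂ}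
    (h : (x, y) ∈ U) (c0 : C x y = 0) (c1 : d1 C x y = 0) (c2 : d2 C x y = 0) (u w : ℂ) :
    Tendsto (fun t : ℂ => C (x + t * u) (y + t * w) / t ^ 2) (𝓝[≠] 0)
      (𝓝 (d1 (d1 C) x y / 2 * u ^ 2 + d1 (d2 C) x y * u * w + d2 (d2 C) x y / 2 * w ^ 2)) := by
  have hev := ev_mem hU h u w
  apply taylor2 (g := fun t => C (x + t * u) (y + t * w))
  · filter_upwards [hev] with t ht
    exact (line hU hC ht).differentiableAt
  · simpa using c0
  · rw [(line0 hU hC h u w).deriv, c1, c2]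
    simp
  · have s1 := slope0 hU (hC.d1 hU) h c1 u w
    have s2 := slope0 hU (hC.d2 hU) h c2 u w
    have s3 := (s1.mul_const u).add (s2.mul_const w)
    rw [← d_comm hU hC h] at s3
    have e : (d1 (d1 C) x y * u + d1 (d2 C) x y * w) * u +
        (d1 (d2 C) x y * u + d2 (d2 C) x y * w) * w =
        2 * (d1 (d1 C) x y / 2 * u ^ 2 + d1 (d2 C) x y * u * w + d2 (d2 C) x y / 2 * w ^ 2) := by
      ring
    rw [e] at s3
    refine s3.congr' ?_
    have hev' : ∀ᶠ t : ℂ in 𝓝[≠] 0, (x + t * u, y + t * w) ∈ U := hev.filter_mono nhdsWithin_le_nhds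
    filter_upwards [hev'] with t ht
    rw [(line hU hC ht).deriv]
    ring

/-- the data of the node lemma -/
structure Data (A B C : ℂ → ℂ → ℂ) (x y : ℂ) : Prop where
  hA : Hol2 A Bd
  hB : Hol2 B Bd
  hC : Hol2 C Bd
  hI : ∀ z y, (z, y) ∈ Bd →
    C z y * (d1 B z y - d2 A z y) = B z y * d1 C z y - A z y * d2 C z y
  hm : (x, y) ∈ Bd
  a0 : A x y = 0
  b0 : B x y = 0
  rot : d1 B x y - d2 A x y ≠ 0
  det : d1 A x y * d2 B x y - d2 A x y * d1 B x y ≠ 0

variable {A B C : ℂ → ℂ → ℂ} {x y : ℂ}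

theorem Data.hol_rot (D : Data A B C x y) : Hol2 (fun z y => d1 B z y - d2 A z y) Bd :=
  DifferentiableOn.sub (D.hB.d1 isOpen_Bd) (D.hA.d2 isOpen_Bd)

theorem Data.c0 (D : Data A B C x y) : C x y = 0 := by
  have h := D.hI x y D.hm
  rw [D.a0, D.b0, zero_mul, zero_mul, sub_zero] at h
  exact (mul_eq_zero.1 h).resolve_right D.rot

theorem Data.first (D : Data A B C x y) (u w : ℂ) :
    (d1 C x y * u + d2 C x y * w) * (d1 B x y - d2 A x y) =
      (d1 B x y * u + d2 B x y * w) * d1 C x y - (d1 A x y * u + d2 A x y * w) * d2 C x y := by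
  have s1 := (slope0 isOpen_Bd D.hC D.hm D.c0 u w).mul (cont0 isOpen_Bd D.hol_rot D.hm u w)
  have s2 := (slope0 isOpen_Bd D.hB D.hm D.b0 u w).mul
    (cont0 isOpen_Bd (D.hC.d1 isOpen_Bd) D.hm u w)
  have s3 := (slope0 isOpen_Bd D.hA D.hm D.a0 u w).mul
    (cont0 isOpen_Bd (D.hC.d2 isOpen_Bd) D.hm u w)
  refine tendsto_nhds_unique (s1.congr' ?_) (s2.sub s3)
  have hev := (ev_mem isOpen_Bd D.hm u w).filter_mono (nhdsWithin_le_nhds (s := {0}ᶜ))
  filter_upwards [hev] with t ht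
  have h := D.hI _ _ ht
  calc C (x + t * u) (y + t * w) / t *
        (d1 B (x + t * u) (y + t * w) - d2 A (x + t * u) (y + t * w)) =
        C (x + t * u) (y + t * w) *
        (d1 B (x + t * u) (y + t * w) - d2 A (x + t * u) (y + t * w)) / t := by ring
    _ = _ := by rw [h]; ring

theorem Data.c12 (D : Data A B C x y) : d1 C x y = 0 ∧ d2 C x y = 0 := by
  have h1 := D.first 1 0
  have h2 := D.first 0 1
  constructor
  · have : (d1 A x y * d2 B x y - d2 A x y * d1 B x y) * d1 C x y = 0 := by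
      linear_combination (d1 B x y) * h1 - (d1 A x y) * h2
    exact (mul_eq_zero.1 this).resolve_left D.det
  · have : (d1 A x y * d2 B x y - d2 A x y * d1 B x y) * d2 C x y = 0 := by
      linear_combination (d2 B x y) * h1 - (d2 A x y) * h2
    exact (mul_eq_zero.1 this).resolve_left D.det

theorem Data.lim (D : Data A B C x y) (u w : ℂ) :
    Tendsto (fun t : ℂ => C (x + t * u) (y + t * w) / t ^ 2) (𝓝[≠] 0)
      (𝓝 (d1 (d1 C) x y / 2 * u ^ 2 + d1 (d2 C) x y * u * w + d2 (d2 C) x y / 2 * w ^ 2)) :=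
  quad_lim isOpen_Bd D.hC D.hm D.c0 D.c12.1 D.c12.2 u w

theorem Data.second (D : Data A B C x y) (u w : ℂ) :
    (d1 (d1 C) x y / 2 * u ^ 2 + d1 (d2 C) x y * u * w + d2 (d2 C) x y / 2 * w ^ 2) *
        (d1 B x y - d2 A x y) =
      (d1 B x y * u + d2 B x y * w) * (d1 (d1 C) x y * u + d1 (d2 C) x y * w) -
        (d1 A x y * u + d2 A x y * w) * (d1 (d2 C) x y * u + d2 (d2 C) x y * w) := by
  have s1 := (D.lim u w).mul (cont0 isOpen_Bd D.hol_rot D.hm u w)
  have s2 := (slope0 isOpen_Bd D.hB D.hm D.b0 u w).mul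
    (slope0 isOpen_Bd (D.hC.d1 isOpen_Bd) D.hm D.c12.1 u w)
  have s3 := (slope0 isOpen_Bd D.hA D.hm D.a0 u w).mul
    (slope0 isOpen_Bd (D.hC.d2 isOpen_Bd) D.hm D.c12.2 u w)
  rw [← d_comm isOpen_Bd D.hC D.hm] at s2
  refine tendsto_nhds_unique (s1.congr' ?_) (s2.sub s3)
  have hev := (ev_mem isOpen_Bd D.hm u w).filter_mono (nhdsWithin_le_nhds (s := {0}ᶜ))
  filter_upwards [hev] with t ht
  have h := D.hI _ _ ht
  calc C (x + t * u) (y + t * w) / t ^ 2 *
        (d1 B (x + t * u) (y + t * w) - d2 A (x + t * u) (y + t * w)) =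
        C (x + t * u) (y + t * w) *
        (d1 B (x + t * u) (y + t * w) - d2 A (x + t * u) (y + t * w)) / t ^ 2 := by ring
    _ = _ := by rw [h]; ring

theorem Data.rel (D : Data A B C x y) :
    d1 (d1 C) x y / 2 * (d1 B x y + d2 A x y) = d1 A x y * d1 (d2 C) x y ∧
      d2 B x y * (d1 (d1 C) x y / 2) = d1 A x y * (d2 (d2 C) x y / 2) := by
  have h1 := D.second 1 0
  have h2 := D.second 0 1
  have h3 := D.second 1 1
  constructor
  · linear_combination -h1
  · linear_combination (h1 + h2 - h3) / 2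

end P8

end Pool.Agent.H583_Fol
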