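import Pool.Agent.H583_Fol.P8b

/-!
# The node lemma, part c: the periods are those of the quadratic part
-/

set_option autoImplicit false

namespace Pool.Agent.H583_Fol

open Complex Set Metric Filter Topology

namespace P8

variable {A B C : ℂ → ℂ → ℂ} {x y : ℂ}

/-- a neighbourhood of a torus -/
def Thick (u w : ℂ) : Prop := 1 / 20 ≤ ‖u‖ ∧ ‖u‖ ≤ 3 / 40 ∧ 6 / 25 ≤ ‖w‖ ∧ ‖w‖ ≤ 13 / 50

/-- the complement of the zeros of `C` -/
def UC (C : ℂ → ℂ → ℂ) : Set (ℂ × ℂ) := {p | p ∈ Bd ∧ C p.1 p.2 ≠ 0}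

theorem isOpen_UC (hC : Hol2 C Bd) : IsOpen (UC C) := by
  have h := (DifferentiableOn.continuousOn hC).isOpen_inter_preimage isOpen_Bd
    (isOpen_compl_singleton (x := (0 : ℂ)))
  exact h

theorem Data.hP (D : Data A B C x y) : Hol2 (fun z y => A z y / C z y) (UC C) := by
  have h1 : DifferentiableOn ℂ (fun p : ℂ × ℂ => A p.1 p.2) (UC C) :=
    DifferentiableOn.mono D.hA fun p hp => hp.1
  have h2 : DifferentiableOn ℂ (fun p : ℂ × ℂ => C p.1 p.2) (UC C) :=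
    DifferentiableOn.mono D.hC fun p hp => hp.1
  have h3 : DifferentiableOn ℂ (fun p : ℂ × ℂ => (C p.1 p.2)⁻¹) (UC C) :=
    fun p hp => (h2 p hp).inv hp.2
  exact (h1.mul h3).congr fun p _ => div_eq_mul_inv _ _

theorem Data.hQ (D : Data A B C x y) : Hol2 (fun z y => B z y / C z y) (UC C) := by
  have h1 : DifferentiableOn ℂ (fun p : ℂ × ℂ => B p.1 p.2) (UC C) :=
    DifferentiableOn.mono D.hB fun p hp => hp.1
  have h2 : DifferentiableOn ℂ (fun p : ℂ × ℂ => C p.1 p.2) (UC C) :=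
    DifferentiableOn.mono D.hC fun p hp => hp.1
  have h3 : DifferentiableOn ℂ (fun p : ℂ × ℂ => (C p.1 p.2)⁻¹) (UC C) :=
    fun p hp => (h2 p hp).inv hp.2
  exact (h1.mul h3).congr fun p _ => div_eq_mul_inv _ _

theorem Data.closed (D : Data A B C x y) (z t : ℂ) (h : (z, t) ∈ UC C) :
    d1 (fun z y => B z y / C z y) z t = d2 (fun z y => A z y / C z y) z t := by
  obtain ⟨hm, h0⟩ := h
  have hB1 := P0.hasDerivAt_d1 isOpen_Bd D.hB hm
  have hC1 := P0.hasDerivAt_d1 isOpen_Bd D.hC hm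
  have hA2 := P0.hasDerivAt_d2 isOpen_Bd D.hA hm
  have hC2 := P0.hasDerivAt_d2 isOpen_Bd D.hC hm
  rw [← P0.d1_eq isOpen_Bd D.hB hm] at hB1
  rw [← P0.d1_eq isOpen_Bd D.hC hm] at hC1
  rw [← P0.d2_eq isOpen_Bd D.hA hm] at hA2
  rw [← P0.d2_eq isOpen_Bd D.hC hm] at hC2
  have e1 : d1 (fun z y => B z y / C z y) z t =
      (d1 B z t * C z t - B z t * d1 C z t) / C z t ^ 2 := (hB1.div hC1 h0).deriv
  have e2 : d2 (fun z y => A z y / C z y) z t =
      (d2 A z t * C z t - A z t * d2 C z t) / C z t ^ 2 := (hA2.div hC2 h0).deriv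
  rw [e1, e2]
  congr 1
  linear_combination D.hI z t hm

/-- the quadratic part of `C` -/
noncomputable def q2 (C : ℂ → ℂ → ℂ) (x y u w : ℂ) : ℂ :=
  d1 (d1 C) x y / 2 * u ^ 2 + d1 (d2 C) x y * u * w + d2 (d2 C) x y / 2 * w ^ 2

theorem tendsto_ofReal : Tendsto (fun τ : ℝ => (τ : ℂ)) (𝓝[>] 0) (𝓝[≠] 0) := by
  apply tendsto_nhdsWithin_of_tendsto_nhds_of_eventually_within
  · have h : Tendsto (fun τ : ℝ => (τ : ℂ)) (𝓝 0) (𝓝 ((0 : ℝ) : ℂ)) :=
      Complex.continuous_ofReal.tendsto 0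
    rw [ofReal_zero] at h
    exact h.mono_left nhdsWithin_le_nhds
  · filter_upwards [self_mem_nhdsWithin] with τ hτ
    simp only [mem_compl_iff, mem_singleton_iff, ofReal_eq_zero]
    exact (ne_of_gt hτ)

/-- the standing assumptions -/
structure Data2 (A B C : ℂ → ℂ → ℂ) (x y : ℂ) (k : ℝ) : Prop extends Data A B C x y where
  hx : ‖x‖ ≤ 1 / 100
  hy : ‖y‖ ≤ 1 / 100
  hk : 0 < k
  hL : ∀ σ : ℝ, 0 < σ → σ ≤ 1 → ∀ u w, Thick u w → k * σ ^ 2 ≤ ‖C (x + σ * u) (y + σ * w)‖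

variable {k : ℝ}

theorem Data2.q2_ge (D : Data2 A B C x y k) {u w : ℂ} (h : Thick u w) : k ≤ ‖q2 C x y u w‖ := by
  have h1 := ((D.lim u w).comp tendsto_ofReal).norm
  refine ge_of_tendsto h1 ?_
  have h2 : Ioc (0 : ℝ) 1 ∈ 𝓝[>] (0 : ℝ) := Ioc_mem_nhdsGT one_pos
  filter_upwards [h2] with τ hτ
  have h3 := D.hL τ hτ.1 hτ.2 u w h
  have h4 : 0 < τ := hτ.1
  simp only [Function.comp_apply, norm_div, norm_pow, norm_real, Real.norm_eq_abs, sq_abs]
  rw [le_div_iff₀ (by positivity)]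
  exact h3

theorem Data2.q2_ne (D : Data2 A B C x y k) {u w : ℂ} (h : Thick u w) : q2 C x y u w ≠ 0 := by
  intro h0
  have h1 := D.q2_ge h
  rw [h0, norm_zero] at h1
  linarith [D.hk]

theorem thick_of {u w : ℂ} (hu : ‖u‖ = 1 / 16) (hw : ‖w‖ = 1 / 4) : Thick u w := by
  refine ⟨?_, ?_, ?_, ?_⟩ <;> rw [‹‖_‖ = _›] <;> norm_num

theorem mem_bd (D : Data2 A B C x y k) {σ : ℝ} (h0 : 0 ≤ σ) (h1 : σ ≤ 1) {u w : ℂ}
    (h : ‖u‖ ≤ 3 / 40 ∧ ‖w‖ ≤ 13 / 50) : (x + σ * u, y + σ * w) ∈ Bd := by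
  have hx := D.hx
  have hy := D.hy
  have e1 : ‖(σ : ℂ) * u‖ ≤ 3 / 40 := by
    rw [norm_mul, norm_real, Real.norm_eq_abs, abs_of_nonneg h0]
    nlinarith [norm_nonneg u]
  have e2 : ‖(σ : ℂ) * w‖ ≤ 13 / 50 := by
    rw [norm_mul, norm_real, Real.norm_eq_abs, abs_of_nonneg h0]
    nlinarith [norm_nonneg w]
  constructor
  · calc ‖x + σ * u‖ ≤ ‖x‖ + ‖(σ : ℂ) * u‖ := norm_add_le _ _
      _ < 1 / 2 := by linarith
  · calc ‖y + σ * w‖ ≤ ‖y‖ + ‖(σ : ℂ) * w‖ := norm_add_le _ _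
      _ < 1 / 2 := by linarith

theorem mem_UC (D : Data2 A B C x y k) {σ : ℝ} (h0 : 0 < σ) (h1 : σ ≤ 1) {u w : ℂ}
    (h : Thick u w) : (x + σ * u, y + σ * w) ∈ UC C := by
  refine ⟨mem_bd D h0.le h1 ⟨h.2.1, h.2.2.2⟩, ?_⟩
  intro hc
  have h3 := D.hL σ h0 h1 u w h
  simp only at hc
  rw [hc, norm_zero] at h3
  have := mul_pos D.hk (pow_pos h0 2)
  linarith

/-- Schwarz: functions which vanish at the centre -/
theorem lin_bound (D : Data2 A B C x y k) {F : ℂ → ℂ → ℂ} (hF : Hol2 F Bd) (h0 : F x y = 0) :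
    ∃ M : ℝ, 0 ≤ M ∧ ∀ σ : ℝ, 0 < σ → σ ≤ 1 → ∀ u w, Thick u w →
      ‖F (x + σ * u) (y + σ * w)‖ ≤ M * σ := by
  have hx := D.hx
  have hy := D.hy
  have hsub : closedBall ((x, y) : ℂ × ℂ) (2 / 5) ⊆ Bd := by
    rintro ⟨a, b⟩ hab
    rw [mem_closedBall, Prod.dist_eq, max_le_iff, dist_eq_norm, dist_eq_norm] at hab
    obtain ⟨h1, h2⟩ := hab
    simp only at h1 h2
    constructor
    · calc ‖a‖ = ‖(a - x) + x‖ := by congr 1; ring
        _ ≤ ‖a - x‖ + ‖x‖ := norm_add_le _ _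
        _ < 1 / 2 := by linarith
    · calc ‖b‖ = ‖(b - y) + y‖ := by congr 1; ring
        _ ≤ ‖b - y‖ + ‖y‖ := norm_add_le _ _
        _ < 1 / 2 := by linarith
  obtain ⟨M, hM⟩ := (isCompact_closedBall ((x, y) : ℂ × ℂ) (2 / 5)).exists_bound_of_continuousOn
    ((DifferentiableOn.continuousOn hF).mono hsub)
  have hM0 : 0 ≤ M := (norm_nonneg _).trans (hM (x, y) (mem_closedBall_self (by norm_num)))
  refine ⟨M, hM0, fun σ hσ hσ1 u w h => ?_⟩
  have hd : dist ((x + σ * u, y + σ * w) : ℂ × ℂ) (x, y) ≤ σ * (13 / 50) := by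
    rw [Prod.dist_eq, max_le_iff, dist_eq_norm, dist_eq_norm]
    simp only [add_sub_cancel_left, norm_mul, norm_real, Real.norm_eq_abs, abs_of_pos hσ]
    constructor
    · apply mul_le_mul_of_nonneg_left _ hσ.le
      exact h.2.1.trans (by norm_num)
    · exact mul_le_mul_of_nonneg_left h.2.2.2 hσ.le
  have h1 := Complex.dist_le_div_mul_dist_of_mapsTo_ball (R₂ := M)
    (DifferentiableOn.mono hF (ball_subset_closedBall.trans hsub) :
      DifferentiableOn ℂ (fun p : ℂ × ℂ => F p.1 p.2) (ball ((x, y) : ℂ × ℂ) (2 / 5)))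
    (fun p hp => by
      rw [mem_closedBall, dist_eq_norm]
      simp only [h0, sub_zero]
      exact hM p (ball_subset_closedBall hp))
    (z := (x + σ * u, y + σ * w)) (by
      rw [mem_ball]
      exact lt_of_le_of_lt hd (by nlinarith))
  simp only [h0, dist_zero_right] at h1
  calc ‖F (x + σ * u) (y + σ * w)‖ ≤ M / (2 / 5) * dist ((x + σ * u, y + σ * w) : ℂ × ℂ) (x, y) := h1
    _ ≤ M / (2 / 5) * (σ * (13 / 50)) := mul_le_mul_of_nonneg_left hd (by positivity)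
    _ ≤ M * σ := by
      have : 0 ≤ M * σ := by positivity
      nlinarith

theorem scale (D : Data2 A B C x y k) {X Y : ℝ → ℂ} (hX : ContDiff ℝ 2 X) (hY : ContDiff ℝ 2 Y)
    (pX : X (2 * Real.pi) = X 0) (pY : Y (2 * Real.pi) = Y 0)
    (nX : ∀ θ, ‖X θ‖ = 1 / 16) (nY : ∀ θ, ‖Y θ‖ = 1 / 4) {τ : ℝ} (h0 : 0 < τ) (h1 : τ ≤ 1) :
    (∫ θ in (0 : ℝ)..(2 * Real.pi), (A (X θ) (Y θ) / C (X θ) (Y θ) * deriv X θ +
        B (X θ) (Y θ) / C (X θ) (Y θ) * deriv Y θ)) =
      ∫ θ in (0 : ℝ)..(2 * Real.pi),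
        (A (x + τ * X θ) (y + τ * Y θ) / C (x + τ * X θ) (y + τ * Y θ) * (τ * deriv X θ) +
          B (x + τ * X θ) (y + τ * Y θ) / C (x + τ * X θ) (y + τ * Y θ) * (τ * deriv Y θ)) := by
  have hX' : ContDiff ℝ 2 (fun θ => x + τ * X θ) := contDiff_const.add (contDiff_const.mul hX)
  have hY' : ContDiff ℝ 2 (fun θ => y + τ * Y θ) := contDiff_const.add (contDiff_const.mul hY)
  have dX : ∀ θ, deriv (fun θ => x + τ * X θ) θ = τ * deriv X θ := by
    intro θ
    have h := ((hX.differentiable (by simp) θ).hasDerivAt.const_mul (τ : ℂ)).const_add x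
    exact h.deriv
  have dY : ∀ θ, deriv (fun θ => y + τ * Y θ) θ = τ * deriv Y θ := by
    intro θ
    have h := ((hY.differentiable (by simp) θ).hasDerivAt.const_mul (τ : ℂ)).const_add y
    exact h.deriv
  have key := loop_eq (isOpen_UC D.hC) D.hP D.hQ D.closed hX hY hX' hY' pX pY
    (by simp only [pX]) (by simp only [pY]) (by
      intro s hs θ hθ
      set σ : ℝ := (1 - s) + s * τ with hσ
      have hσ0 : 0 < σ := by
        rcases eq_or_lt_of_le hs.1 with h | h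
        · rw [hσ, ← h]
          norm_num
        · have := mul_pos h h0
          have h3 := hs.2
          rw [hσ]
          linarith
      have hσ1 : σ ≤ 1 := by
        rw [hσ]
        nlinarith [hs.1, hs.2]
      have hc : 0 ≤ (1 - s) / σ ∧ (1 - s) / σ ≤ 1 := by
        constructor
        · exact div_nonneg (by linarith [hs.2]) hσ0.le
        · rw [div_le_one hσ0, hσ]
          have := mul_nonneg hs.1 h0.le
          linarith
      set c : ℝ := (1 - s) / σ with hcdef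
      have hcσ : σ * c = 1 - s := by
        rw [hcdef]
        field_simp
      have hcσ' : (σ : ℂ) * (c : ℂ) = 1 - s := by
        rw [← ofReal_mul, hcσ]
        simp
      have hσ' : (σ : ℂ) = (1 - s) + s * τ := by
        rw [hσ]
        push_cast
        ring
      have hT : Thick (X θ - c * x) (Y θ - c * y) := by
        have b1 : ‖(c : ℂ) * x‖ ≤ 1 / 100 := by
          rw [norm_mul, norm_real, Real.norm_eq_abs, abs_of_nonneg hc.1]
          nlinarith [norm_nonneg x, D.hx, hc.2, hc.1]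
        have b2 : ‖(c : ℂ) * y‖ ≤ 1 / 100 := by
          rw [norm_mul, norm_real, Real.norm_eq_abs, abs_of_nonneg hc.1]
          nlinarith [norm_nonneg y, D.hy, hc.2, hc.1]
        have b3 := norm_sub_norm_le (X θ) (c * x)
        have b4 := norm_sub_le (X θ) (c * x)
        have b5 := norm_sub_norm_le (Y θ) (c * y)
        have b6 := norm_sub_le (Y θ) (c * y)
        rw [nX] at b3 b4
        rw [nY] at b5 b6
        exact ⟨by linarith, by linarith, by linarith, by linarith⟩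
      have hm := mem_UC D hσ0 hσ1 hT
      have e1 : (1 - (s : ℂ)) * X θ + s * (x + τ * X θ) = x + σ * (X θ - c * x) := by
        have : x + (σ : ℂ) * (X θ - c * x) = x + σ * X θ - (σ * c) * x := by ring
        rw [this, hcσ', hσ']
        ring
      have e2 : (1 - (s : ℂ)) * Y θ + s * (y + τ * Y θ) = y + σ * (Y θ - c * y) := by
        have : y + (σ : ℂ) * (Y θ - c * y) = y + σ * Y θ - (σ * c) * y := by ring
        rw [this, hcσ', hσ']
        ring
      rw [e1, e2]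
      exact hm)
  rw [key]
  apply intervalIntegral.integral_congr
  intro θ _
  simp only
  rw [dX, dY]

theorem period_lim (D : Data2 A B C x y k) {X Y : ℝ → ℂ} (hX : ContDiff ℝ 2 X)
    (hY : ContDiff ℝ 2 Y) (pX : X (2 * Real.pi) = X 0) (pY : Y (2 * Real.pi) = Y 0)
    (nX : ∀ θ, ‖X θ‖ = 1 / 16) (nY : ∀ θ, ‖Y θ‖ = 1 / 4) :
    (∫ θ in (0 : ℝ)..(2 * Real.pi), (A (X θ) (Y θ) / C (X θ) (Y θ) * deriv X θ +
        B (X θ) (Y θ) / C (X θ) (Y θ) * deriv Y θ)) =
      ∫ θ in (0 : ℝ)..(2 * Real.pi),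
        ((d1 A x y * X θ + d2 A x y * Y θ) / q2 C x y (X θ) (Y θ) * deriv X θ +
          (d1 B x y * X θ + d2 B x y * Y θ) / q2 C x y (X θ) (Y θ) * deriv Y θ) := by
  have hTh : ∀ θ, Thick (X θ) (Y θ) := fun θ => thick_of (nX θ) (nY θ)
  obtain ⟨MA, hMA0, hMA⟩ := lin_bound D D.hA D.a0
  obtain ⟨MB, hMB0, hMB⟩ := lin_bound D D.hB D.b0
  have hIoc : Ioc (0 : ℝ) 1 ∈ 𝓝[>] (0 : ℝ) := Ioc_mem_nhdsGT one_pos
  have cX : Continuous X := hX.continuous
  have cY : Continuous Y := hY.continuous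
  have cX' : Continuous (deriv X) := hX.continuous_deriv (by norm_num)
  have cY' : Continuous (deriv Y) := hY.continuous_deriv (by norm_num)
  set F : ℝ → ℝ → ℂ := fun τ θ =>
    (A (x + τ * X θ) (y + τ * Y θ) / C (x + τ * X θ) (y + τ * Y θ) * (τ * deriv X θ) +
      B (x + τ * X θ) (y + τ * Y θ) / C (x + τ * X θ) (y + τ * Y θ) * (τ * deriv Y θ)) with hF
  have hconst : ∀ᶠ τ in 𝓝[>] (0 : ℝ), (∫ θ in (0 : ℝ)..(2 * Real.pi), F τ θ) =
      (∫ θ in (0 : ℝ)..(2 * Real.pi), (A (X θ) (Y θ) / C (X θ) (Y θ) * deriv X θ +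
        B (X θ) (Y θ) / C (X θ) (Y θ) * deriv Y θ)) := by
    filter_upwards [hIoc] with τ hτ
    exact (scale D hX hY pX pY nX nY hτ.1 hτ.2).symm
  have hlim : Tendsto (fun τ => ∫ θ in (0 : ℝ)..(2 * Real.pi), F τ θ) (𝓝[>] (0 : ℝ))
      (𝓝 (∫ θ in (0 : ℝ)..(2 * Real.pi),
        ((d1 A x y * X θ + d2 A x y * Y θ) / q2 C x y (X θ) (Y θ) * deriv X θ +
          (d1 B x y * X θ + d2 B x y * Y θ) / q2 C x y (X θ) (Y θ) * deriv Y θ))) := by
    apply intervalIntegral.tendsto_integral_filter_of_dominated_convergence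
      (fun θ => MA / k * ‖deriv X θ‖ + MB / k * ‖deriv Y θ‖)
    · filter_upwards [hIoc] with τ hτ
      apply Continuous.aestronglyMeasurable
      have hmem : ∀ θ, ((x + τ * X θ, y + τ * Y θ) : ℂ × ℂ) ∈ UC C :=
        fun θ => mem_UC D hτ.1 hτ.2 (hTh θ)
      have hc1 : Continuous (fun θ => ((x + τ * X θ, y + τ * Y θ) : ℂ × ℂ)) := by fun_prop
      have hcP := (DifferentiableOn.continuousOn D.hP).comp_continuous hc1 hmem
      have hcQ := (DifferentiableOn.continuousOn D.hQ).comp_continuous hc1 hmem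
      exact (hcP.mul (continuous_const.mul cX')).add (hcQ.mul (continuous_const.mul cY'))
    · filter_upwards [hIoc] with τ hτ
      refine Eventually.of_forall fun θ _ => ?_
      have h0 : 0 < τ := hτ.1
      have hCl := D.hL τ hτ.1 hτ.2 _ _ (hTh θ)
      have hCp : 0 < ‖C (x + τ * X θ) (y + τ * Y θ)‖ :=
        lt_of_lt_of_le (mul_pos D.hk (pow_pos h0 2)) hCl
      have key : ∀ (G : ℂ → ℂ → ℂ) (M : ℝ) (v : ℂ), 0 ≤ M →
          ‖G (x + τ * X θ) (y + τ * Y θ)‖ ≤ M * τ →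
          ‖G (x + τ * X θ) (y + τ * Y θ) / C (x + τ * X θ) (y + τ * Y θ) * (τ * v)‖ ≤
            M / k * ‖v‖ := by
        intro G M v hM hG
        rw [norm_mul, norm_div, norm_mul, norm_real, Real.norm_eq_abs, abs_of_pos h0]
        have e1 : ‖G (x + τ * X θ) (y + τ * Y θ)‖ / ‖C (x + τ * X θ) (y + τ * Y θ)‖ ≤
            M * τ / (k * τ ^ 2) :=
          div_le_div₀ (by positivity) hG (mul_pos D.hk (pow_pos h0 2)) hCl
        have e2 : M * τ / (k * τ ^ 2) * (τ * ‖v‖) = M / k * ‖v‖ := by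
          have := D.hk.ne'
          field_simp
        rw [← e2]
        exact mul_le_mul_of_nonneg_right e1 (by positivity)
      rw [hF]
      refine (norm_add_le _ _).trans (add_le_add ?_ ?_)
      · exact key A MA _ hMA0 (hMA τ hτ.1 hτ.2 _ _ (hTh θ))
      · exact key B MB _ hMB0 (hMB τ hτ.1 hτ.2 _ _ (hTh θ))
    · apply Continuous.intervalIntegrable
      exact (continuous_const.mul cX'.norm).add (continuous_const.mul cY'.norm)
    · refine Eventually.of_forall fun θ _ => ?_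
      have hq := D.q2_ne (hTh θ)
      have lC := (D.lim (X θ) (Y θ)).comp tendsto_ofReal
      have lA := (slope0 isOpen_Bd D.hA D.hm D.a0 (X θ) (Y θ)).comp tendsto_ofReal
      have lB := (slope0 isOpen_Bd D.hB D.hm D.b0 (X θ) (Y θ)).comp tendsto_ofReal
      have l1 := ((lA.div lC hq).mul_const (deriv X θ)).add
        ((lB.div lC hq).mul_const (deriv Y θ))
      refine l1.congr' ?_
      filter_upwards [hIoc] with τ hτ
      have h0 : (τ : ℂ) ≠ 0 := by
        rw [ne_eq, ofReal_eq_zero]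
        exact (ne_of_gt hτ.1)
      have hC0 : C (x + τ * X θ) (y + τ * Y θ) ≠ 0 := (mem_UC D hτ.1 hτ.2 (hTh θ)).2
      simp only [Function.comp_apply, hF, Pi.div_apply]
      field_simp
  exact (tendsto_nhds_unique (hlim.congr' hconst) tendsto_const_nhds).symm

end P8

end Pool.Agent.H583_Fol
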