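import Pool.Agent.H583_Fol.P8a
import Pool.Agent.H583_Fol.P8c

/-!
# The node lemma, part d: the periods
-/

set_option autoImplicit false

namespace Pool.Agent.H583_Fol

open Complex Set Metric Filter Topology

namespace P8

variable {A B C : ℂ → ℂ → ℂ} {x y : ℂ} {k : ℝ}

theorem per1_eq (D : Data2 A B C x y k) : per1 B C = (2 * Real.pi * I)⁻¹ *
    ∮ w in C(0, 1 / 4), (d1 B x y * (-(1 / 16)) + d2 B x y * w) / q2 C x y (-(1 / 16)) w := by
  have h := period_lim D (X := fun _ => -(1 / 16)) (Y := circleMap 0 (1 / 4)) contDiff_const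
    (contDiff_circleMap 0 (1 / 4)) rfl
    (by have := periodic_circleMap 0 (1 / 4) 0; simpa using this)
    (fun θ => by norm_num) (fun θ => by rw [norm_circleMap_zero]; norm_num)
  unfold per1
  congr 1
  simp only [circleIntegral, smul_eq_mul]
  simp only [deriv_const, mul_zero, zero_add] at h
  calc _ = ∫ θ in (0 : ℝ)..(2 * Real.pi), B (-(1 / 16)) (circleMap 0 (1 / 4) θ) /
        C (-(1 / 16)) (circleMap 0 (1 / 4) θ) * deriv (circleMap 0 (1 / 4)) θ := by
        apply intervalIntegral.integral_congr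
        intro θ _
        simp only
        ring
    _ = _ := h
    _ = _ := by
        apply intervalIntegral.integral_congr
        intro θ _
        simp only
        ring

theorem per2_eq (D : Data2 A B C x y k) : per2 A C = (2 * Real.pi * I)⁻¹ *
    ∮ z in C(0, 1 / 16), (d1 A x y * z + d2 A x y * (I / 4)) / q2 C x y z (I / 4) := by
  have h := period_lim D (X := circleMap 0 (1 / 16)) (Y := fun _ => I / 4)
    (contDiff_circleMap 0 (1 / 16)) contDiff_const
    (by have := periodic_circleMap 0 (1 / 16) 0; simpa using this) rfl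
    (fun θ => by rw [norm_circleMap_zero]; norm_num) (fun θ => by norm_num)
  unfold per2
  congr 1
  simp only [circleIntegral, smul_eq_mul]
  simp only [deriv_const, mul_zero, add_zero] at h
  calc _ = ∫ θ in (0 : ℝ)..(2 * Real.pi), A (circleMap 0 (1 / 16) θ) (I / 4) /
        C (circleMap 0 (1 / 16) θ) (I / 4) * deriv (circleMap 0 (1 / 16)) θ := by
        apply intervalIntegral.integral_congr
        intro θ _
        simp only
        ring
    _ = _ := h
    _ = _ := by
        apply intervalIntegral.integral_congr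
        intro θ _
        simp only
        ring

theorem q2_factor {p q r t1 t2 : ℂ} (h1 : d1 (d1 C) x y / 2 = p) (h2 : d1 (d2 C) x y = q)
    (h3 : d2 (d2 C) x y / 2 = r) (hq : q = -(p * (t1 + t2))) (hr : r = p * (t1 * t2)) (u w : ℂ) :
    q2 C x y u w = p * ((u - t1 * w) * (u - t2 * w)) := by
  unfold q2
  rw [h1, h2, h3, hq, hr]
  ring

/-- the periods and the relation with the first derivatives -/
theorem core (D : Data2 A B C x y k) {p q r t1 t2 : ℂ} (h1 : d1 (d1 C) x y / 2 = p)
    (h2 : d1 (d2 C) x y = q) (h3 : d2 (d2 C) x y / 2 = r) (hp : p ≠ 0)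
    (hq : q = -(p * (t1 + t2))) (hr : r = p * (t1 * t2)) (ht2 : ‖t2‖ < 1 / 4)
    (ht1 : 1 / 4 < ‖t1‖) :
    per1 B C = -((d1 A x y * t1 + d2 A x y) / (p * (t2 - t1))) ∧
      per2 A C = (d1 A x y * t2 + d2 A x y) / (p * (t2 - t1)) ∧
      (d1 B x y - d2 A x y) ^ 2 * (per1 B C * per2 A C) =
        -(per1 B C - per2 A C) ^ 2 * (d1 A x y * d2 B x y - d2 A x y * d1 B x y) := by
  have hpi : (2 * Real.pi * I : ℂ) ≠ 0 := by
    simp [Real.pi_ne_zero]
  have ht0 : t1 ≠ 0 := by
    rintro rfl
    rw [norm_zero] at ht1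
    linarith
  have ht : t2 - t1 ≠ 0 := by
    intro h
    rw [sub_eq_zero.1 h] at ht2
    linarith
  have e1 : per1 B C = (d1 B x y * t1 + d2 B x y) / (p * t1 * (t2 - t1)) := by
    rw [per1_eq D]
    simp only [q2_factor h1 h2 h3 hq hr]
    rw [res1 (by norm_num) hp ht2 ht1]
    field_simp
  have e2 : per2 A C = (d1 A x y * t2 + d2 A x y) / (p * (t2 - t1)) := by
    rw [per2_eq D]
    simp only [q2_factor h1 h2 h3 hq hr]
    rw [res2 (by norm_num) hp ht2 ht1]
    field_simp
  have hrel := D.rel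
  rw [h1, h2, h3] at hrel
  have ha := alg hp ht ht0 hq hr hrel.1 hrel.2
  refine ⟨e1.trans ha.1, e2, ?_⟩
  rw [e1, e2]
  exact ha.2

end P8

end Pool.Agent.H583_Fol
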