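import Pool.Agent.H583_Fol.P8d

/-!
# The node lemma, part e: the model
-/

set_option autoImplicit false

namespace Pool.Agent.H583_Fol

open Complex Set Metric Filter Topology

namespace P8

/-! ### Cauchy estimates -/

theorem shrink {G : ℂ → ℂ → ℂ} (hG : Hol2 G Bd) {R s δ : ℝ} (hR : R ≤ 1 / 2) (hs : 0 < s)
    (h : ∀ z y, ‖z‖ < R → ‖y‖ < R → ‖G z y‖ ≤ δ) (z y : ℂ) (hz : ‖z‖ < R - s)
    (hy : ‖y‖ < R - s) : ‖d1 G z y‖ ≤ δ / s ∧ ‖d2 G z y‖ ≤ δ / s := by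
  have hb : ∀ {a t : ℂ}, ‖a‖ < R - s → t ∈ ball a s → ‖t‖ < R := by
    intro a t ha ht
    rw [mem_ball, dist_eq_norm] at ht
    calc ‖t‖ = ‖(t - a) + a‖ := by congr 1; ring
      _ ≤ ‖t - a‖ + ‖a‖ := norm_add_le _ _
      _ < R := by linarith
  constructor
  · apply cauchy_d1 hs
    · intro t ht
      have hm : (t, y) ∈ Bd := ⟨by simpa using (hb hz ht).trans_le hR, by
        simp only
        linarith⟩
      exact (P0.hasDerivAt_d1 isOpen_Bd hG hm).differentiableAt.differentiableWithinAt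
    · intro t ht
      exact h t y (hb hz ht) (by linarith)
  · apply cauchy_d2 hs
    · intro t ht
      have hm : (z, t) ∈ Bd := ⟨by
        simp only
        linarith, by simpa using (hb hy ht).trans_le hR⟩
      exact (P0.hasDerivAt_d2 isOpen_Bd hG hm).differentiableAt.differentiableWithinAt
    · intro t ht
      exact h z t (by linarith) (hb hy ht)

theorem d1_congr {f g : ℂ → ℂ → ℂ} {U : Set (ℂ × ℂ)} (hU : IsOpen U)
    (h : ∀ z y, (z, y) ∈ U → f z y = g z y) {z y : ℂ} (hm : (z, y) ∈ U) :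
    d1 f z y = d1 g z y := by
  have hc : Continuous (fun t : ℂ => (t, y)) := by fun_prop
  have he : (fun t => f t y) =ᶠ[𝓝 z] fun t => g t y := by
    filter_upwards [hc.continuousAt.preimage_mem_nhds (hU.mem_nhds hm)] with t ht
    exact h t y ht
  exact he.deriv_eq

theorem d2_congr {f g : ℂ → ℂ → ℂ} {U : Set (ℂ × ℂ)} (hU : IsOpen U)
    (h : ∀ z y, (z, y) ∈ U → f z y = g z y) {z y : ℂ} (hm : (z, y) ∈ U) :
    d2 f z y = d2 g z y := by
  have hc : Continuous (fun t : ℂ => (z, t)) := by fun_prop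
  have he : (fun t => f z t) =ᶠ[𝓝 y] fun t => g z t := by
    filter_upwards [hc.continuousAt.preimage_mem_nhds (hU.mem_nhds hm)] with t ht
    exact h z t ht
  exact he.deriv_eq

theorem d1_sub {f g : ℂ → ℂ → ℂ} {U : Set (ℂ × ℂ)} (hU : IsOpen U) (hf : Hol2 f U)
    (hg : Hol2 g U) {z y : ℂ} (hm : (z, y) ∈ U) :
    d1 (fun z y => f z y - g z y) z y = d1 f z y - d1 g z y := by
  rw [P0.d1_eq hU hf hm, P0.d1_eq hU hg hm]
  exact ((P0.hasDerivAt_d1 hU hf hm).sub (P0.hasDerivAt_d1 hU hg hm)).deriv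

theorem d2_sub {f g : ℂ → ℂ → ℂ} {U : Set (ℂ × ℂ)} (hU : IsOpen U) (hf : Hol2 f U)
    (hg : Hol2 g U) {z y : ℂ} (hm : (z, y) ∈ U) :
    d2 (fun z y => f z y - g z y) z y = d2 f z y - d2 g z y := by
  rw [P0.d2_eq hU hf hm, P0.d2_eq hU hg hm]
  exact ((P0.hasDerivAt_d2 hU hf hm).sub (P0.hasDerivAt_d2 hU hg hm)).deriv

theorem mem_Bd {z y : ℂ} : (z, y) ∈ Bd ↔ ‖z‖ < 1 / 2 ∧ ‖y‖ < 1 / 2 := Iff.rfl

/-- closeness of the first derivatives -/
theorem near1 {F M : ℂ → ℂ → ℂ} (hF : Hol2 F Bd) (hM : Hol2 M Bd) {δ : ℝ}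
    (h : ∀ z y, (z, y) ∈ Bd → ‖F z y - M z y‖ ≤ δ) (z y : ℂ) (hz : ‖z‖ < 3 / 8)
    (hy : ‖y‖ < 3 / 8) : ‖d1 F z y - d1 M z y‖ ≤ 8 * δ ∧ ‖d2 F z y - d2 M z y‖ ≤ 8 * δ := by
  have hm : (z, y) ∈ Bd := ⟨by simp only; linarith, by simp only; linarith⟩
  have hG : Hol2 (fun z y => F z y - M z y) Bd := DifferentiableOn.sub hF hM
  have h1 := shrink hG (R := 1 / 2) (s := 1 / 8) (δ := δ) le_rfl (by norm_num)
    (fun z y hz hy => h z y ⟨hz, hy⟩) z y (by linarith) (by linarith)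
  rw [d1_sub isOpen_Bd hF hM hm, d2_sub isOpen_Bd hF hM hm] at h1
  constructor
  · linarith [h1.1]
  · linarith [h1.2]

/-- closeness of the second derivatives -/
theorem near2 {F M : ℂ → ℂ → ℂ} (hF : Hol2 F Bd) (hM : Hol2 M Bd) {δ : ℝ}
    (h : ∀ z y, (z, y) ∈ Bd → ‖F z y - M z y‖ ≤ δ) (z y : ℂ) (hz : ‖z‖ < 1 / 4)
    (hy : ‖y‖ < 1 / 4) : ‖d1 (d1 F) z y - d1 (d1 M) z y‖ ≤ 64 * δ ∧
      ‖d1 (d2 F) z y - d1 (d2 M) z y‖ ≤ 64 * δ ∧ ‖d2 (d2 F) z y - d2 (d2 M) z y‖ ≤ 64 * δ := by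
  have hm : (z, y) ∈ Bd := ⟨by simp only; linarith, by simp only; linarith⟩
  have hF1 := hF.d1 isOpen_Bd
  have hF2 := hF.d2 isOpen_Bd
  have hM1 := hM.d1 isOpen_Bd
  have hM2 := hM.d2 isOpen_Bd
  have hG1 : Hol2 (fun z y => d1 F z y - d1 M z y) Bd := DifferentiableOn.sub hF1 hM1
  have hG2 : Hol2 (fun z y => d2 F z y - d2 M z y) Bd := DifferentiableOn.sub hF2 hM2
  have k1 := shrink hG1 (R := 3 / 8) (s := 1 / 8) (δ := 8 * δ) (by norm_num) (by norm_num)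
    (fun z y hz hy => (near1 hF hM h z y hz hy).1) z y (by linarith) (by linarith)
  have k2 := shrink hG2 (R := 3 / 8) (s := 1 / 8) (δ := 8 * δ) (by norm_num) (by norm_num)
    (fun z y hz hy => (near1 hF hM h z y hz hy).2) z y (by linarith) (by linarith)
  rw [d1_sub isOpen_Bd hF1 hM1 hm] at k1
  rw [d1_sub isOpen_Bd hF2 hM2 hm, d2_sub isOpen_Bd hF2 hM2 hm] at k2
  refine ⟨?_, ?_, ?_⟩
  · linarith [k1.1]
  · linarith [k2.1]
  · linarith [k2.2]

/-! ### The model -/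

theorem hol_mA (κ : ℂ) : Hol2 (mA κ) univ := by
  unfold Hol2 mA
  fun_prop

theorem hol_mB (κ : ℂ) : Hol2 (mB κ) univ := by
  unfold Hol2 mB
  fun_prop

theorem hol_mC : Hol2 mC univ := by
  unfold Hol2 mC
  fun_prop

theorem mA0 (κ : ℂ) : mA κ 0 0 = 0 := by simp [mA]
theorem mB0 (κ : ℂ) : mB κ 0 0 = 0 := by simp [mB]
theorem mC0 : mC 0 0 = 0 := by simp [mC]

theorem d1mA (κ : ℂ) : d1 (mA κ) 0 0 = κ + 1 := by
  have h1 : HasDerivAt (fun t : ℂ => exp ((2 - nu) * t)) ((2 - nu)) 0 := by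
    have h : HasDerivAt (fun t : ℂ => (2 - nu) * t) ((2 - nu)) 0 := by
      simpa using (hasDerivAt_id (0 : ℂ)).const_mul (2 - nu)
    simpa using h.cexp
  have h2 : HasDerivAt (fun t : ℂ => κ * exp (nu * 0) * (exp t - 1) + (exp t - exp 0)) (κ + 1) 0 := by
    have h : HasDerivAt (fun t : ℂ => exp t) 1 0 := by simpa using Complex.hasDerivAt_exp 0
    have h3 := ((h.sub_const 1).const_mul (κ * exp (nu * 0))).add (h.sub_const (exp 0))
    refine HasDerivAt.congr_deriv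
      (f := fun t : ℂ => κ * exp (nu * 0) * (exp t - 1) + (exp t - exp 0)) h3 ?_
    simp
  have h3 := h1.mul h2
  have h4 : HasDerivAt (fun t => mA κ t 0) (κ + 1) 0 := by
    refine HasDerivAt.congr_deriv (f := fun t => mA κ t 0) h3 ?_
    simp
  exact h4.deriv

theorem d2mA (κ : ℂ) : d2 (mA κ) 0 0 = -1 := by
  have h1 : (fun t => mA κ 0 t) = fun t : ℂ => 1 - exp t := by
    funext t
    simp [mA]
  have h : HasDerivAt (fun t : ℂ => 1 - exp t) (-1) 0 := by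
    simpa using (Complex.hasDerivAt_exp 0).const_sub 1
  unfold d2
  rw [h1]
  exact h.deriv

theorem d1mB (κ : ℂ) : d1 (mB κ) 0 0 = -κ := by
  have h1 : HasDerivAt (fun t : ℂ => exp ((2 - nu) * t)) ((2 - nu)) 0 := by
    have h : HasDerivAt (fun t : ℂ => (2 - nu) * t) ((2 - nu)) 0 := by
      simpa using (hasDerivAt_id (0 : ℂ)).const_mul (2 - nu)
    simpa using h.cexp
  have h2 : HasDerivAt (fun t : ℂ => exp t - 1) 1 0 := by
    simpa using (Complex.hasDerivAt_exp 0).sub_const 1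
  have h3 := ((h1.mul h2).const_mul κ).neg
  have h4 : HasDerivAt (fun t => mB κ t 0) (-κ) 0 := by
    have e : (fun t => mB κ t 0) = fun t => -(κ * (exp ((2 - nu) * t) * (exp t - 1))) := by
      funext t
      simp [mB]
      ring
    rw [e]
    refine HasDerivAt.congr_deriv h3 ?_
    simp
  exact h4.deriv

theorem d2mB (κ : ℂ) : d2 (mB κ) 0 0 = 0 := by
  have h1 : (fun t => mB κ 0 t) = fun _ : ℂ => 0 := by
    funext t
    simp [mB]
  unfold d2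
  rw [h1]
  simp

theorem d1mC (t : ℂ) : d1 mC t 0 = exp t * (exp t - 1) ^ 2 + exp t * (2 * (exp t - 1) * exp t) := by
  have h0 := Complex.hasDerivAt_exp t
  have h1 : HasDerivAt (fun s : ℂ => exp s * (exp s - 1) ^ 2)
      (exp t * (exp t - 1) ^ 2 + exp t * (2 * (exp t - 1) * exp t)) t := by
    have h2 := h0.mul ((h0.sub_const 1).pow 2)
    refine HasDerivAt.congr_deriv (f := fun s : ℂ => exp s * (exp s - 1) ^ 2) h2 ?_
    norm_num
  have e : (fun s => mC s 0) = fun s : ℂ => exp s * (exp s - 1) ^ 2 := by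
    funext s
    simp [mC]
    ring
  unfold d1
  rw [e]
  exact h1.deriv

theorem d1mC0 : d1 mC 0 0 = 0 := by
  rw [d1mC]
  simp

theorem d2mC (t : ℂ) : d2 mC t 0 = -(exp t * (exp t - 1)) := by
  have h0 : HasDerivAt (fun s : ℂ => exp s) 1 0 := by simpa using Complex.hasDerivAt_exp 0
  have h1 := (((h0.const_sub (exp t)).const_mul (exp t - 1)).const_mul (exp t))
  have h2 : HasDerivAt (fun s => mC t s) (-(exp t * (exp t - 1))) 0 := by
    refine HasDerivAt.congr_deriv (f := fun s => mC t s) h1 ?_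
    ring
  exact h2.deriv

theorem d2mC0 : d2 mC 0 0 = 0 := by
  rw [d2mC]
  simp

theorem d11mC : d1 (d1 mC) 0 0 = 2 := by
  have h0 : HasDerivAt (fun s : ℂ => exp s) 1 0 := by simpa using Complex.hasDerivAt_exp 0
  have h1 := (h0.mul ((h0.sub_const 1).pow 2)).add
    (h0.mul (((h0.sub_const 1).const_mul 2).mul h0))
  have h2 : HasDerivAt (fun t => d1 mC t 0) 2 0 := by
    have e : (fun t => d1 mC t 0) =
        fun t : ℂ => exp t * (exp t - 1) ^ 2 + exp t * (2 * (exp t - 1) * exp t) := by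
      funext t
      exact d1mC t
    rw [e]
    refine HasDerivAt.congr_deriv
      (f := fun t : ℂ => exp t * (exp t - 1) ^ 2 + exp t * (2 * (exp t - 1) * exp t)) h1 ?_
    simp
  exact h2.deriv

theorem d12mC : d1 (d2 mC) 0 0 = -1 := by
  have h0 : HasDerivAt (fun s : ℂ => exp s) 1 0 := by simpa using Complex.hasDerivAt_exp 0
  have h1 := (h0.mul (h0.sub_const 1)).neg
  have h2 : HasDerivAt (fun t => d2 mC t 0) (-1) 0 := by
    have e : (fun t => d2 mC t 0) = fun t : ℂ => -(exp t * (exp t - 1)) := by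
      funext t
      exact d2mC t
    rw [e]
    refine HasDerivAt.congr_deriv (f := fun t : ℂ => -(exp t * (exp t - 1))) h1 ?_
    simp
  exact h2.deriv

theorem d22mC : d2 (d2 mC) 0 0 = 0 := by
  have e : (fun t => d2 mC 0 t) = fun _ : ℂ => 0 := by
    funext t
    unfold d2
    have : (fun t => mC 0 t) = fun _ : ℂ => 0 := by
      funext t
      simp [mC]
    rw [this]
    simp
  have : d2 (d2 mC) 0 0 = deriv (fun t => d2 mC 0 t) 0 := rfl
  rw [this, e]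
  simp

/-! ### The lower bound -/

theorem exp_sub_one_ge {z : ℂ} (h : ‖z‖ ≤ 1) : ‖z‖ * (1 - ‖z‖) ≤ ‖exp z - 1‖ := by
  have h1 := Complex.norm_exp_sub_one_sub_id_le h
  have h2 : ‖z‖ ≤ ‖exp z - 1‖ + ‖exp z - 1 - z‖ := by
    calc ‖z‖ = ‖(exp z - 1) - (exp z - 1 - z)‖ := by congr 1; ring
      _ ≤ _ := norm_sub_le _ _
  nlinarith

theorem mC_ge {σ : ℝ} (h0 : 0 < σ) (h1 : σ ≤ 1) {u w : ℂ} (h : Thick u w) :
    σ ^ 2 / 400 ≤ ‖mC (σ * u) (σ * w)‖ := by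
  obtain ⟨a1, a2, a3, a4⟩ := h
  have n1 : ‖(σ : ℂ) * u‖ = σ * ‖u‖ := by
    rw [norm_mul, norm_real, Real.norm_eq_abs, abs_of_pos h0]
  have n2 : ‖(σ : ℂ) * w - σ * u‖ = σ * ‖w - u‖ := by
    rw [← mul_sub, norm_mul, norm_real, Real.norm_eq_abs, abs_of_pos h0]
  have hwu1 : ‖w - u‖ ≤ 67 / 200 := (norm_sub_le _ _).trans (by linarith)
  have hwu2 : 33 / 200 ≤ ‖w - u‖ := by
    have := norm_sub_norm_le w u
    linarith
  have s1 : ‖(σ : ℂ) * u‖ ≤ 3 / 40 := by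
    rw [n1]
    nlinarith [norm_nonneg u]
  have s2 : ‖(σ : ℂ) * w - σ * u‖ ≤ 67 / 200 := by
    rw [n2]
    nlinarith [norm_nonneg (w - u)]
  have f1 := exp_sub_one_ge (z := (σ : ℂ) * u) (by linarith)
  have f2 := exp_sub_one_ge (z := (σ : ℂ) * w - σ * u) (by linarith)
  have g1 : σ / 20 * (9 / 10) ≤ ‖exp ((σ : ℂ) * u) - 1‖ := by
    refine le_trans ?_ f1
    apply mul_le_mul _ (by linarith) (by norm_num) (norm_nonneg _)
    rw [n1]
    nlinarith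
  have g2 : σ * (33 / 200) * (1 / 2) ≤ ‖exp ((σ : ℂ) * w - σ * u) - 1‖ := by
    refine le_trans ?_ f2
    apply mul_le_mul _ (by linarith) (by norm_num) (norm_nonneg _)
    rw [n2]
    nlinarith
  have g3 : 9 / 10 ≤ ‖exp ((σ : ℂ) * u)‖ := by
    have k1 := Complex.norm_exp_sub_one_sub_id_le (x := (σ : ℂ) * u) (by linarith)
    have k2 : ‖(1 : ℂ)‖ ≤ ‖exp ((σ : ℂ) * u)‖ + ‖exp ((σ : ℂ) * u) - 1 - σ * u‖ + ‖(σ : ℂ) * u‖ := by
      calc ‖(1 : ℂ)‖ = ‖exp ((σ : ℂ) * u) - (exp ((σ : ℂ) * u) - 1 - σ * u) - σ * u‖ := by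
            congr 1; ring
        _ ≤ ‖exp ((σ : ℂ) * u) - (exp ((σ : ℂ) * u) - 1 - σ * u)‖ + ‖(σ : ℂ) * u‖ := norm_sub_le _ _
        _ ≤ _ := by
          have := norm_sub_le (exp ((σ : ℂ) * u)) (exp ((σ : ℂ) * u) - 1 - σ * u)
          linarith
    rw [norm_one] at k2
    nlinarith [norm_nonneg ((σ : ℂ) * u)]
  have e : mC (σ * u) (σ * w) = -(exp ((σ : ℂ) * u) * ((exp ((σ : ℂ) * u) - 1) *
      (exp ((σ : ℂ) * u) * (exp ((σ : ℂ) * w - σ * u) - 1)))) := by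
    have : exp ((σ : ℂ) * w) = exp ((σ : ℂ) * u) * exp ((σ : ℂ) * w - σ * u) := by
      rw [← Complex.exp_add]
      congr 1
      ring
    unfold mC
    rw [this]
    ring
  rw [e, norm_neg, norm_mul, norm_mul, norm_mul]
  have m1 : 9 / 10 * (σ * (33 / 200) * (1 / 2)) ≤
      ‖exp ((σ : ℂ) * u)‖ * ‖exp ((σ : ℂ) * w - σ * u) - 1‖ :=
    mul_le_mul g3 g2 (by positivity) (norm_nonneg _)
  have m2 : σ / 20 * (9 / 10) * (9 / 10 * (σ * (33 / 200) * (1 / 2))) ≤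
      ‖exp ((σ : ℂ) * u) - 1‖ * (‖exp ((σ : ℂ) * u)‖ * ‖exp ((σ : ℂ) * w - σ * u) - 1‖) :=
    mul_le_mul g1 m1 (by positivity) (norm_nonneg _)
  have m3 : 9 / 10 * (σ / 20 * (9 / 10) * (9 / 10 * (σ * (33 / 200) * (1 / 2)))) ≤
      ‖exp ((σ : ℂ) * u)‖ * (‖exp ((σ : ℂ) * u) - 1‖ *
        (‖exp ((σ : ℂ) * u)‖ * ‖exp ((σ : ℂ) * w - σ * u) - 1‖)) :=
    mul_le_mul g3 m2 (by positivity) (norm_nonneg _)
  refine le_trans ?_ m3
  nlinarith [sq_nonneg σ]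

end P8

end Pool.Agent.H583_Fol
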