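import Pool.Agent.H583_Fol.Basic
import Pool.Agent.H583_Fol.St.T0

set_option autoImplicit false

namespace Pool.Agent.H583_Fol

open Complex Set Metric Filter Topology

namespace P9

/-! ### Calculus for holomorphic functions of three variables -/

section calculus

variable {f : ℂ → ℂ → ℂ → ℂ} {U : Set (ℂ × ℂ × ℂ)} {x y v : ℂ}

theorem diffAt (hU : IsOpen U) (hf : Hol3 f U) (h : (x, y, v) ∈ U) :
    DifferentiableAt ℂ (fun p : ℂ × ℂ × ℂ => f p.1 p.2.1 p.2.2) (x, y, v) :=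
  hf.differentiableAt (hU.mem_nhds h)

theorem hd1 (hU : IsOpen U) (hf : Hol3 f U) (h : (x, y, v) ∈ U) :
    HasDerivAt (fun t => f t y v) (D1 f x y v) x := by
  have h1 : HasDerivAt (fun t : ℂ => (t, y, v)) ((1 : ℂ), (0 : ℂ), (0 : ℂ)) x :=
    (hasDerivAt_id x).prodMk ((hasDerivAt_const x y).prodMk (hasDerivAt_const x v))
  have h2 := (diffAt hU hf h).hasFDerivAt.comp_hasDerivAt x h1
  have h3 : HasDerivAt (fun t => f t y v) _ x := h2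
  exact h3.differentiableAt.hasDerivAt

theorem hd2 (hU : IsOpen U) (hf : Hol3 f U) (h : (x, y, v) ∈ U) :
    HasDerivAt (fun t => f x t v) (D2 f x y v) y := by
  have h1 : HasDerivAt (fun t : ℂ => (x, t, v)) ((0 : ℂ), (1 : ℂ), (0 : ℂ)) y :=
    (hasDerivAt_const y x).prodMk ((hasDerivAt_id y).prodMk (hasDerivAt_const y v))
  have h2 := (diffAt hU hf h).hasFDerivAt.comp_hasDerivAt y h1
  have h3 : HasDerivAt (fun t => f x t v) _ y := h2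
  exact h3.differentiableAt.hasDerivAt

theorem fd_apply (hU : IsOpen U) (hf : Hol3 f U) (h : (x, y, v) ∈ U) (a b c : ℂ) :
    fderiv ℂ (fun p : ℂ × ℂ × ℂ => f p.1 p.2.1 p.2.2) (x, y, v) (a, b, c) =
      D1 f x y v * a + D2 f x y v * b + D3 f x y v * c := by
  have hF := (diffAt hU hf h).hasFDerivAt
  have e1 : fderiv ℂ (fun p : ℂ × ℂ × ℂ => f p.1 p.2.1 p.2.2) (x, y, v) (1, 0, 0) = D1 f x y v := by
    have h1 : HasDerivAt (fun t : ℂ => (t, y, v)) ((1 : ℂ), (0 : ℂ), (0 : ℂ)) x :=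
      (hasDerivAt_id x).prodMk ((hasDerivAt_const x y).prodMk (hasDerivAt_const x v))
    have h2 := hF.comp_hasDerivAt x h1
    have h3 : HasDerivAt (fun t => f t y v) _ x := h2
    exact h3.deriv.symm
  have e2 : fderiv ℂ (fun p : ℂ × ℂ × ℂ => f p.1 p.2.1 p.2.2) (x, y, v) (0, 1, 0) = D2 f x y v := by
    have h1 : HasDerivAt (fun t : ℂ => (x, t, v)) ((0 : ℂ), (1 : ℂ), (0 : ℂ)) y :=
      (hasDerivAt_const y x).prodMk ((hasDerivAt_id y).prodMk (hasDerivAt_const y v))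
    have h2 := hF.comp_hasDerivAt y h1
    have h3 : HasDerivAt (fun t => f x t v) _ y := h2
    exact h3.deriv.symm
  have e3 : fderiv ℂ (fun p : ℂ × ℂ × ℂ => f p.1 p.2.1 p.2.2) (x, y, v) (0, 0, 1) = D3 f x y v := by
    have h1 : HasDerivAt (fun t : ℂ => (x, y, t)) ((0 : ℂ), (0 : ℂ), (1 : ℂ)) v :=
      (hasDerivAt_const v x).prodMk ((hasDerivAt_const v y).prodMk (hasDerivAt_id v))
    have h2 := HasFDerivAt.comp_hasDerivAt (f := fun t : ℂ => ((x, y, t) : ℂ × ℂ × ℂ)) v hF h1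
    have h3 : HasDerivAt (fun t => f x y t) _ v := h2
    exact h3.deriv.symm
  have hv : ((a, b, c) : ℂ × ℂ × ℂ) = a • ((1 : ℂ), (0 : ℂ), (0 : ℂ)) +
      b • ((0 : ℂ), (1 : ℂ), (0 : ℂ)) + c • ((0 : ℂ), (0 : ℂ), (1 : ℂ)) := by
    simp
  rw [hv, map_add, map_add, map_smul, map_smul, map_smul, e1, e2, e3]
  simp only [smul_eq_mul]
  ring

theorem chain (hU : IsOpen U) (hf : Hol3 f U) {g1 g2 : ℂ → ℂ} {w a b : ℂ}
    (h : (g1 w, g2 w, w) ∈ U) (h1 : HasDerivAt g1 a w) (h2 : HasDerivAt g2 b w) :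
    HasDerivAt (fun t => f (g1 t) (g2 t) t) (D1 f (g1 w) (g2 w) w * a + D2 f (g1 w) (g2 w) w * b +
      D3 f (g1 w) (g2 w) w) w := by
  have h3 : HasDerivAt (fun t : ℂ => (g1 t, g2 t, t)) (a, b, (1 : ℂ)) w :=
    h1.prodMk (h2.prodMk (hasDerivAt_id w))
  have h4 := (diffAt hU hf h).hasFDerivAt.comp_hasDerivAt w h3
  rw [fd_apply hU hf h, mul_one] at h4
  exact h4

end calculus

/-! ### The identity and its derivatives -/

theorem gen1 {rot C C1 B C2 A B3 A3 : ℂ → ℂ} {t rot' c' c1' b' c2' a' b3' a3' : ℂ} (k : ℂ)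
    (hrot : HasDerivAt rot rot' t) (hC : HasDerivAt C c' t) (hC1 : HasDerivAt C1 c1' t)
    (hB : HasDerivAt B b' t) (hC2 : HasDerivAt C2 c2' t) (hA : HasDerivAt A a' t)
    (hB3 : HasDerivAt B3 b3' t) (hA3 : HasDerivAt A3 a3' t)
    (hT : ∀ᶠ s in 𝓝 t, C s * rot s - (B s * C1 s - A s * C2 s +
      k * (A s * B3 s - B s * A3 s)) = 0) :
    c' * rot t + C t * rot' - (b' * C1 t + B t * c1' - (a' * C2 t + A t * c2') +
      k * (a' * B3 t + A t * b3' - (b' * A3 t + B t * a3'))) = 0 := by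
  have h1 : HasDerivAt (fun s => C s * rot s - (B s * C1 s - A s * C2 s +
      k * (A s * B3 s - B s * A3 s))) (c' * rot t + C t * rot' - (b' * C1 t + B t * c1' -
        (a' * C2 t + A t * c2') + k * (a' * B3 t + A t * b3' - (b' * A3 t + B t * a3')))) t :=
    (hC.mul hrot).sub (((hB.mul hC1).sub (hA.mul hC2)).add
      (((hA.mul hB3).sub (hB.mul hA3)).const_mul k))
  have h2 : (fun s => C s * rot s - (B s * C1 s - A s * C2 s +
      k * (A s * B3 s - B s * A3 s))) =ᶠ[𝓝 t] fun _ => 0 := hT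
  exact h1.unique ((hasDerivAt_const t (0 : ℂ)).congr_of_eventuallyEq h2)

theorem gen2 {Ci rot C roti Bi C1 B C1i Ai C2 A C2i B3 B3i A3 A3i : ℂ → ℂ}
    {t ci' rot' c' roti' bi' c1' b' c1i' ai' c2' a' c2i' b3' b3i' a3' a3i' : ℂ} (k : ℂ)
    (hCi : HasDerivAt Ci ci' t) (hrot : HasDerivAt rot rot' t) (hC : HasDerivAt C c' t)
    (hroti : HasDerivAt roti roti' t) (hBi : HasDerivAt Bi bi' t) (hC1 : HasDerivAt C1 c1' t)
    (hB : HasDerivAt B b' t) (hC1i : HasDerivAt C1i c1i' t) (hAi : HasDerivAt Ai ai' t)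
    (hC2 : HasDerivAt C2 c2' t) (hA : HasDerivAt A a' t) (hC2i : HasDerivAt C2i c2i' t)
    (hB3 : HasDerivAt B3 b3' t) (hB3i : HasDerivAt B3i b3i' t) (hA3 : HasDerivAt A3 a3' t)
    (hA3i : HasDerivAt A3i a3i' t) (hC0 : C t = 0) (hB0 : B t = 0) (hA0 : A t = 0)
    (hT : ∀ᶠ s in 𝓝 t, Ci s * rot s + C s * roti s - (Bi s * C1 s + B s * C1i s -
      (Ai s * C2 s + A s * C2i s) + k * (Ai s * B3 s + A s * B3i s -
        (Bi s * A3 s + B s * A3i s))) = 0) :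
    ci' * rot t + Ci t * rot' + c' * roti t - (bi' * C1 t + Bi t * c1' + b' * C1i t -
      (ai' * C2 t + Ai t * c2' + a' * C2i t) + k * (ai' * B3 t + Ai t * b3' + a' * B3i t -
        (bi' * A3 t + Bi t * a3' + b' * A3i t))) = 0 := by
  have h1 : HasDerivAt (fun s => Ci s * rot s + C s * roti s - (Bi s * C1 s + B s * C1i s -
      (Ai s * C2 s + A s * C2i s) + k * (Ai s * B3 s + A s * B3i s -
        (Bi s * A3 s + B s * A3i s))))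
      (ci' * rot t + Ci t * rot' + (c' * roti t + C t * roti') -
        ((bi' * C1 t + Bi t * c1') + (b' * C1i t + B t * c1i') -
        ((ai' * C2 t + Ai t * c2') + (a' * C2i t + A t * c2i')) +
        k * ((ai' * B3 t + Ai t * b3') + (a' * B3i t + A t * b3i') -
          ((bi' * A3 t + Bi t * a3') + (b' * A3i t + B t * a3i'))))) t :=
    ((hCi.mul hrot).add (hC.mul hroti)).sub ((((hBi.mul hC1).add (hB.mul hC1i)).sub
      ((hAi.mul hC2).add (hA.mul hC2i))).add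
      ((((hAi.mul hB3).add (hA.mul hB3i)).sub ((hBi.mul hA3).add (hB.mul hA3i))).const_mul k))
  have h2 : (fun s => Ci s * rot s + C s * roti s - (Bi s * C1 s + B s * C1i s -
      (Ai s * C2 s + A s * C2i s) + k * (Ai s * B3 s + A s * B3i s -
        (Bi s * A3 s + B s * A3i s)))) =ᶠ[𝓝 t] fun _ => 0 := hT
  have h3 := h1.unique ((hasDerivAt_const t (0 : ℂ)).congr_of_eventuallyEq h2)
  rw [hC0, hB0, hA0] at h3
  linear_combination h3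

/-- the algebra at a point of the curve -/
theorem alg {A1 A2 A3 B1 B2 B3 C1 C2 A11 A12 A22 B11 B12 B22 C11 C12 C22 A13 A23 B13 B23 g1 g2
    w : ℂ} (hw : w ≠ 0) (hdet : A1 * B2 - A2 * B1 ≠ 0)
    (hA : A1 * g1 + A2 * g2 + A3 = 0) (hB : B1 * g1 + B2 * g2 + B3 = 0)
    (e1 : C1 * (B1 - A2) - (B1 * C1 - A1 * C2 + w ^ 2 * (A1 * B3 - B1 * A3)) = 0)
    (e2 : C2 * (B1 - A2) - (B2 * C1 - A2 * C2 + w ^ 2 * (A2 * B3 - B2 * A3)) = 0)
    (e11 : C11 * (B1 - A2) + C1 * (B11 - A12) + C1 * (B11 - A12) -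
      (B11 * C1 + B1 * C11 + B1 * C11 - (A11 * C2 + A1 * C12 + A1 * C12) +
        w ^ 2 * (A11 * B3 + A1 * B13 + A1 * B13 - (B11 * A3 + B1 * A13 + B1 * A13))) = 0)
    (e12 : C12 * (B1 - A2) + C1 * (B12 - A22) + C2 * (B11 - A12) -
      (B12 * C1 + B1 * C12 + B2 * C11 - (A12 * C2 + A1 * C22 + A2 * C12) +
        w ^ 2 * (A12 * B3 + A1 * B23 + A2 * B13 - (B12 * A3 + B1 * A23 + B2 * A13))) = 0)
    (e22 : C22 * (B1 - A2) + C2 * (B12 - A22) + C2 * (B12 - A22) -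
      (B22 * C1 + B2 * C12 + B2 * C12 - (A22 * C2 + A2 * C22 + A2 * C22) +
        w ^ 2 * (A22 * B3 + A2 * B23 + A2 * B23 - (B22 * A3 + B2 * A23 + B2 * A23))) = 0) :
    2 * ((B11 - A12) * g1 + (B12 - A22) * g2 + (B13 - A23)) * (A1 * B2 - A2 * B1) =
      (B1 - A2) * ((A11 * g1 + A12 * g2 + A13) * B2 + A1 * (B12 * g1 + B22 * g2 + B23) -
        (A12 * g1 + A22 * g2 + A23) * B1 - A2 * (B11 * g1 + B12 * g2 + B13)) := by
  have hA3 : A3 = -(A1 * g1 + A2 * g2) := by linear_combination hA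
  have hB3 : B3 = -(B1 * g1 + B2 * g2) := by linear_combination hB
  subst hA3 hB3
  have hC1 : C1 = -(w ^ 2 * (A1 * g1 + B1 * g2)) := by
    apply mul_left_cancel₀ hdet
    linear_combination B1 * e1 - A1 * e2
  have hC2 : C2 = -(w ^ 2 * (A2 * g1 + B2 * g2)) := by
    apply mul_left_cancel₀ hdet
    linear_combination B2 * e1 - A2 * e2
  subst hC1 hC2
  apply mul_left_cancel₀ (pow_ne_zero 2 hw)
  linear_combination -(B2 * e11 + A1 * e22 - (B1 + A2) * e12)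

/-! ### The point of the curve -/

/-- `(rot ^ 2 / det)' = 0`, at a common zero of `A` and `B` with `w ≠ 0` -/
theorem point {A B C : ℂ → ℂ → ℂ → ℂ} {U : Set (ℂ × ℂ × ℂ)} (hU : IsOpen U)
    (hA : Hol3 A U) (hB : Hol3 B U) (hC : Hol3 C U)
    (hid : ∀ z y w, (z, y, w) ∈ U → C z y w * (D1 B z y w - D2 A z y w) =
      B z y w * D1 C z y w - A z y w * D2 C z y w +
        w ^ 2 * (A z y w * D3 B z y w - B z y w * D3 A z y w)) {z y w g1 g2 : ℂ}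
    (hp : (z, y, w) ∈ U) (hw : w ≠ 0) (hA0 : A z y w = 0) (hB0 : B z y w = 0)
    (hrot : D1 B z y w - D2 A z y w ≠ 0)
    (hdet : D1 A z y w * D2 B z y w - D2 A z y w * D1 B z y w ≠ 0)
    (hAg : D1 A z y w * g1 + D2 A z y w * g2 + D3 A z y w = 0)
    (hBg : D1 B z y w * g1 + D2 B z y w * g2 + D3 B z y w = 0) :
    C z y w = 0 ∧
    2 * ((D1 (D1 B) z y w - D1 (D2 A) z y w) * g1 + (D2 (D1 B) z y w - D2 (D2 A) z y w) * g2 +
      (D3 (D1 B) z y w - D3 (D2 A) z y w)) *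
        (D1 A z y w * D2 B z y w - D2 A z y w * D1 B z y w) =
      (D1 B z y w - D2 A z y w) *
        ((D1 (D1 A) z y w * g1 + D2 (D1 A) z y w * g2 + D3 (D1 A) z y w) * D2 B z y w +
          D1 A z y w * (D1 (D2 B) z y w * g1 + D2 (D2 B) z y w * g2 + D3 (D2 B) z y w) -
        (D1 (D2 A) z y w * g1 + D2 (D2 A) z y w * g2 + D3 (D2 A) z y w) * D1 B z y w -
          D2 A z y w * (D1 (D1 B) z y w * g1 + D2 (D1 B) z y w * g2 + D3 (D1 B) z y w)) := by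
  have hC0 : C z y w = 0 := by
    have h := hid z y w hp
    rw [hA0, hB0] at h
    have h2 : C z y w * (D1 B z y w - D2 A z y w) = 0 := by rw [h]; ring
    exact (mul_eq_zero.1 h2).resolve_right hrot
  refine ⟨hC0, ?_⟩
  have a1 := hA.D1 hU
  have a2 := hA.D2 hU
  have a3 := hA.D3 hU
  have b1 := hB.D1 hU
  have b2 := hB.D2 hU
  have b3 := hB.D3 hU
  have c1 := hC.D1 hU
  have c2 := hC.D2 hU
  have near1 : ∀ {z y w : ℂ}, (z, y, w) ∈ U → ∀ᶠ s in 𝓝 z, (s, y, w) ∈ U := by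
    intro z y w h
    have hc : ContinuousAt (fun s : ℂ => ((s, y, w) : ℂ × ℂ × ℂ)) z := by fun_prop
    exact hc.eventually (hU.mem_nhds h)
  have near2 : ∀ {z y w : ℂ}, (z, y, w) ∈ U → ∀ᶠ s in 𝓝 y, (z, s, w) ∈ U := by
    intro z y w h
    have hc : ContinuousAt (fun s : ℂ => ((z, s, w) : ℂ × ℂ × ℂ)) y := by fun_prop
    exact hc.eventually (hU.mem_nhds h)
  have hid' : ∀ z y w, (z, y, w) ∈ U → C z y w * (D1 B z y w - D2 A z y w) -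
      (B z y w * D1 C z y w - A z y w * D2 C z y w +
        w ^ 2 * (A z y w * D3 B z y w - B z y w * D3 A z y w)) = 0 := fun z y w h =>
    sub_eq_zero.2 (hid z y w h)
  -- first derivatives
  have E1 : ∀ z y w, (z, y, w) ∈ U → D1 C z y w * (D1 B z y w - D2 A z y w) +
      C z y w * (D1 (D1 B) z y w - D1 (D2 A) z y w) - (D1 B z y w * D1 C z y w +
        B z y w * D1 (D1 C) z y w - (D1 A z y w * D2 C z y w + A z y w * D1 (D2 C) z y w) +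
      w ^ 2 * (D1 A z y w * D3 B z y w + A z y w * D1 (D3 B) z y w -
        (D1 B z y w * D3 A z y w + B z y w * D1 (D3 A) z y w))) = 0 := by
    intro z y w h
    exact gen1 (rot := fun s => D1 B s y w - D2 A s y w) (C := fun s => C s y w)
      (C1 := fun s => D1 C s y w) (B := fun s => B s y w) (C2 := fun s => D2 C s y w)
      (A := fun s => A s y w) (B3 := fun s => D3 B s y w) (A3 := fun s => D3 A s y w) (w ^ 2)
      ((hd1 hU b1 h).sub (hd1 hU a2 h)) (hd1 hU hC h) (hd1 hU c1 h)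
      (hd1 hU hB h) (hd1 hU c2 h) (hd1 hU hA h) (hd1 hU b3 h) (hd1 hU a3 h)
      ((near1 h).mono fun s hs => hid' s y w hs)
  have E2 : ∀ z y w, (z, y, w) ∈ U → D2 C z y w * (D1 B z y w - D2 A z y w) +
      C z y w * (D2 (D1 B) z y w - D2 (D2 A) z y w) - (D2 B z y w * D1 C z y w +
        B z y w * D2 (D1 C) z y w - (D2 A z y w * D2 C z y w + A z y w * D2 (D2 C) z y w) +
      w ^ 2 * (D2 A z y w * D3 B z y w + A z y w * D2 (D3 B) z y w -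
        (D2 B z y w * D3 A z y w + B z y w * D2 (D3 A) z y w))) = 0 := by
    intro z y w h
    exact gen1 (rot := fun s => D1 B z s w - D2 A z s w) (C := fun s => C z s w)
      (C1 := fun s => D1 C z s w) (B := fun s => B z s w) (C2 := fun s => D2 C z s w)
      (A := fun s => A z s w) (B3 := fun s => D3 B z s w) (A3 := fun s => D3 A z s w) (w ^ 2)
      ((hd2 hU b1 h).sub (hd2 hU a2 h)) (hd2 hU hC h) (hd2 hU c1 h)
      (hd2 hU hB h) (hd2 hU c2 h) (hd2 hU hA h) (hd2 hU b3 h) (hd2 hU a3 h)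
      ((near2 h).mono fun s hs => hid' z s w hs)
  have b11 := b1.D1 hU
  have b12 := b1.D2 hU
  have a21 := a2.D1 hU
  have a22 := a2.D2 hU
  -- second derivatives
  have E11 := gen2 (Ci := fun s => D1 C s y w) (rot := fun s => D1 B s y w - D2 A s y w)
    (C := fun s => C s y w) (roti := fun s => D1 (D1 B) s y w - D1 (D2 A) s y w)
    (Bi := fun s => D1 B s y w) (C1 := fun s => D1 C s y w) (B := fun s => B s y w)
    (C1i := fun s => D1 (D1 C) s y w) (Ai := fun s => D1 A s y w) (C2 := fun s => D2 C s y w)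
    (A := fun s => A s y w) (C2i := fun s => D1 (D2 C) s y w) (B3 := fun s => D3 B s y w)
    (B3i := fun s => D1 (D3 B) s y w) (A3 := fun s => D3 A s y w)
    (A3i := fun s => D1 (D3 A) s y w) (w ^ 2)
    (hd1 hU c1 hp) ((hd1 hU b1 hp).sub (hd1 hU a2 hp)) (hd1 hU hC hp)
    ((hd1 hU b11 hp).sub (hd1 hU a21 hp)) (hd1 hU b1 hp) (hd1 hU c1 hp) (hd1 hU hB hp)
    (hd1 hU (c1.D1 hU) hp) (hd1 hU a1 hp) (hd1 hU c2 hp) (hd1 hU hA hp) (hd1 hU (c2.D1 hU) hp)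
    (hd1 hU b3 hp) (hd1 hU (b3.D1 hU) hp) (hd1 hU a3 hp) (hd1 hU (a3.D1 hU) hp) hC0 hB0 hA0
    ((near1 hp).mono fun s hs => E1 s y w hs)
  have E12 := gen2 (Ci := fun s => D1 C z s w) (rot := fun s => D1 B z s w - D2 A z s w)
    (C := fun s => C z s w) (roti := fun s => D1 (D1 B) z s w - D1 (D2 A) z s w)
    (Bi := fun s => D1 B z s w) (C1 := fun s => D1 C z s w) (B := fun s => B z s w)
    (C1i := fun s => D1 (D1 C) z s w) (Ai := fun s => D1 A z s w) (C2 := fun s => D2 C z s w)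
    (A := fun s => A z s w) (C2i := fun s => D1 (D2 C) z s w) (B3 := fun s => D3 B z s w)
    (B3i := fun s => D1 (D3 B) z s w) (A3 := fun s => D3 A z s w)
    (A3i := fun s => D1 (D3 A) z s w) (w ^ 2)
    (hd2 hU c1 hp) ((hd2 hU b1 hp).sub (hd2 hU a2 hp)) (hd2 hU hC hp)
    ((hd2 hU b11 hp).sub (hd2 hU a21 hp)) (hd2 hU b1 hp) (hd2 hU c1 hp) (hd2 hU hB hp)
    (hd2 hU (c1.D1 hU) hp) (hd2 hU a1 hp) (hd2 hU c2 hp) (hd2 hU hA hp) (hd2 hU (c2.D1 hU) hp)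
    (hd2 hU b3 hp) (hd2 hU (b3.D1 hU) hp) (hd2 hU a3 hp) (hd2 hU (a3.D1 hU) hp) hC0 hB0 hA0
    ((near2 hp).mono fun s hs => E1 z s w hs)
  have E22 := gen2 (Ci := fun s => D2 C z s w) (rot := fun s => D1 B z s w - D2 A z s w)
    (C := fun s => C z s w) (roti := fun s => D2 (D1 B) z s w - D2 (D2 A) z s w)
    (Bi := fun s => D2 B z s w) (C1 := fun s => D1 C z s w) (B := fun s => B z s w)
    (C1i := fun s => D2 (D1 C) z s w) (Ai := fun s => D2 A z s w) (C2 := fun s => D2 C z s w)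
    (A := fun s => A z s w) (C2i := fun s => D2 (D2 C) z s w) (B3 := fun s => D3 B z s w)
    (B3i := fun s => D2 (D3 B) z s w) (A3 := fun s => D3 A z s w)
    (A3i := fun s => D2 (D3 A) z s w) (w ^ 2)
    (hd2 hU c2 hp) ((hd2 hU b1 hp).sub (hd2 hU a2 hp)) (hd2 hU hC hp)
    ((hd2 hU b12 hp).sub (hd2 hU a22 hp)) (hd2 hU b2 hp) (hd2 hU c1 hp) (hd2 hU hB hp)
    (hd2 hU (c1.D2 hU) hp) (hd2 hU a2 hp) (hd2 hU c2 hp) (hd2 hU hA hp) (hd2 hU (c2.D2 hU) hp)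
    (hd2 hU b3 hp) (hd2 hU (b3.D2 hU) hp) (hd2 hU a3 hp) (hd2 hU (a3.D2 hU) hp) hC0 hB0 hA0
    ((near2 hp).mono fun s hs => E2 z s w hs)
  have F1 := E1 z y w hp
  have F2 := E2 z y w hp
  rw [hC0, hB0, hA0] at F1 F2
  rw [D12_comm hU hA hp] at *
  rw [D12_comm hU hB hp]
  rw [D12_comm hU hC hp] at *
  rw [D13_comm hU hA hp, D13_comm hU hB hp] at E11 E12
  rw [D23_comm hU hA hp, D23_comm hU hB hp] at E12 E22
  exact alg (C1 := D1 C z y w) (C2 := D2 C z y w) (C11 := D1 (D1 C) z y w)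
    (C12 := D2 (D1 C) z y w) (C22 := D2 (D2 C) z y w) hw hdet hAg hBg
    (by linear_combination F1) (by linear_combination F2)
    (by linear_combination E11) (by linear_combination E12) (by linear_combination E22)

/-! ### The curve -/

theorem curve {A B : ℂ → ℂ → ℂ → ℂ} {z₀ y₀ : ℂ} {U : Set (ℂ × ℂ × ℂ)} (hU : IsOpen U)
    (hm : (z₀, y₀, 0) ∈ U) (hA : Hol3 A U) (hB : Hol3 B U)
    (hA0 : A z₀ y₀ 0 = 0) (hB0 : B z₀ y₀ 0 = 0)
    (hdet : D1 A z₀ y₀ 0 * D2 B z₀ y₀ 0 - D2 A z₀ y₀ 0 * D1 B z₀ y₀ 0 ≠ 0) :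
    ∃ g1 g2 : ℂ → ℂ, g1 0 = z₀ ∧ g2 0 = y₀ ∧ (∃ r > 0, DifferentiableOn ℂ g1 (ball 0 r) ∧
      DifferentiableOn ℂ g2 (ball 0 r) ∧ ∀ w ∈ ball (0 : ℂ) r, (g1 w, g2 w, w) ∈ U ∧
        A (g1 w) (g2 w) w = 0 ∧ B (g1 w) (g2 w) w = 0) ∧
      ∀ᶠ q : ℂ × ℂ × ℂ in 𝓝 (z₀, y₀, 0), A q.1 q.2.1 q.2.2 = 0 → B q.1 q.2.1 q.2.2 = 0 →
        q.1 = g1 q.2.2 ∧ q.2.1 = g2 q.2.2 := by
  set m : ℂ × ℂ × ℂ := (z₀, y₀, 0) with hmdef
  let Φ : ℂ × ℂ × ℂ → ℂ × ℂ × ℂ := fun q => (A q.1 q.2.1 q.2.2, B q.1 q.2.1 q.2.2, q.2.2)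
  have hUm : U ∈ 𝓝 m := hU.mem_nhds hm
  have cA : ContDiffAt ℂ (1 : ℕ) (fun q : ℂ × ℂ × ℂ => A q.1 q.2.1 q.2.2) m :=
    (Pool.Agent.Helper417.Mer.Hartogs673.contDiffOn_of_differentiableOn hU hA 1).contDiffAt hUm
  have cB : ContDiffAt ℂ (1 : ℕ) (fun q : ℂ × ℂ × ℂ => B q.1 q.2.1 q.2.2) m :=
    (Pool.Agent.Helper417.Mer.Hartogs673.contDiffOn_of_differentiableOn hU hB 1).contDiffAt hUm
  have cΦ : ContDiffAt ℂ (1 : ℕ) Φ m := cA.prodMk (cB.prodMk (contDiffAt_snd.snd))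
  have hm0 : Φ m = (0, 0, 0) := by
    show (A z₀ y₀ 0, B z₀ y₀ 0, (0 : ℂ)) = (0, 0, 0)
    rw [hA0, hB0]
  have hfd : ∀ a b c : ℂ, fderiv ℂ Φ m (a, b, c) = (D1 A z₀ y₀ 0 * a + D2 A z₀ y₀ 0 * b +
      D3 A z₀ y₀ 0 * c, D1 B z₀ y₀ 0 * a + D2 B z₀ y₀ 0 * b + D3 B z₀ y₀ 0 * c, c) := by
    intro a b c
    have h1 : HasFDerivAt Φ ((fderiv ℂ (fun q : ℂ × ℂ × ℂ => A q.1 q.2.1 q.2.2) m).prod
        ((fderiv ℂ (fun q : ℂ × ℂ × ℂ => B q.1 q.2.1 q.2.2) m).prod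
          ((ContinuousLinearMap.snd ℂ ℂ ℂ).comp (ContinuousLinearMap.snd ℂ ℂ (ℂ × ℂ))))) m :=
      (diffAt hU hA hm).hasFDerivAt.prodMk ((diffAt hU hB hm).hasFDerivAt.prodMk
        (hasFDerivAt_snd.snd))
    rw [h1.fderiv]
    have e1 := fd_apply hU hA hm a b c
    have e2 := fd_apply hU hB hm a b c
    exact Prod.ext e1 (Prod.ext e2 rfl)
  have hinj : (fderiv ℂ Φ m : ℂ × ℂ × ℂ →ₗ[ℂ] ℂ × ℂ × ℂ).ker = ⊥ := by
    rw [LinearMap.ker_eq_bot']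
    rintro ⟨a, b, c⟩ h
    have h' : fderiv ℂ Φ m (a, b, c) = 0 := h
    rw [hfd, Prod.mk_eq_zero, Prod.mk_eq_zero] at h'
    obtain ⟨h1, h2, h3⟩ := h'
    subst h3
    have ha : a = 0 := by
      apply mul_left_cancel₀ hdet
      linear_combination D2 B z₀ y₀ 0 * h1 - D2 A z₀ y₀ 0 * h2
    have hb : b = 0 := by
      apply mul_left_cancel₀ hdet
      linear_combination D1 A z₀ y₀ 0 * h2 - D1 B z₀ y₀ 0 * h1
    rw [ha, hb]
    rfl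
  have hsurj : (fderiv ℂ Φ m : ℂ × ℂ × ℂ →ₗ[ℂ] ℂ × ℂ × ℂ).range = ⊤ :=
    LinearMap.range_eq_top.2 (LinearMap.injective_iff_surjective.1 (LinearMap.ker_eq_bot.1 hinj))
  let L : (ℂ × ℂ × ℂ) ≃L[ℂ] (ℂ × ℂ × ℂ) := ContinuousLinearEquiv.ofBijective (fderiv ℂ Φ m) hinj hsurj
  have hL : HasFDerivAt Φ (L : (ℂ × ℂ × ℂ) →L[ℂ] (ℂ × ℂ × ℂ)) m := by
    have h1 : (L : (ℂ × ℂ × ℂ) →L[ℂ] (ℂ × ℂ × ℂ)) = fderiv ℂ Φ m :=
      ContinuousLinearEquiv.coe_ofBijective _ _ _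
    rw [h1]
    exact (cΦ.differentiableAt (by simp)).hasFDerivAt
  let Ψ := cΦ.localInverse hL (by simp)
  have hΨc : ContDiffAt ℂ (1 : ℕ) Ψ (0, 0, 0) := by
    have := cΦ.to_localInverse hL (by simp)
    rwa [hm0] at this
  have hΨ0 : Ψ (0, 0, 0) = m := by
    have := cΦ.localInverse_apply_image hL (by simp)
    rwa [hm0] at this
  have hS := cΦ.hasStrictFDerivAt' hL (by simp)
  have hleft : ∀ᶠ q in 𝓝 m, Ψ (Φ q) = q := hS.eventually_left_inverse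
  have hright : ∀ᶠ q in 𝓝 ((0, 0, 0) : ℂ × ℂ × ℂ), Φ (Ψ q) = q := by
    have := hS.eventually_right_inverse
    rwa [hm0] at this
  have hdiff : ∀ᶠ q in 𝓝 ((0, 0, 0) : ℂ × ℂ × ℂ), DifferentiableAt ℂ Ψ q :=
    (hΨc.eventually (by simp)).mono fun q hq => hq.differentiableAt (by simp)
  have hinU : ∀ᶠ q in 𝓝 ((0, 0, 0) : ℂ × ℂ × ℂ), Ψ q ∈ U := by
    have h1 : ContinuousAt Ψ (0, 0, 0) := hΨc.continuousAt
    have h2 : U ∈ 𝓝 (Ψ (0, 0, 0)) := by rw [hΨ0]; exact hUm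
    exact h1.eventually h2
  have hι : ContinuousAt (fun w : ℂ => ((0, 0, w) : ℂ × ℂ × ℂ)) 0 := by fun_prop
  have hall := hι.eventually (hright.and (hdiff.and hinU))
  obtain ⟨r, hr, hball⟩ := Metric.eventually_nhds_iff_ball.1 hall
  refine ⟨fun w => (Ψ (0, 0, w)).1, fun w => (Ψ (0, 0, w)).2.1, ?_, ?_, ⟨r, hr, ?_, ?_, ?_⟩, ?_⟩
  · show (Ψ (0, 0, 0)).1 = z₀
    rw [hΨ0]
  · show (Ψ (0, 0, 0)).2.1 = y₀
    rw [hΨ0]
  · intro w hw
    have h1 : DifferentiableAt ℂ (fun w : ℂ => ((0, 0, w) : ℂ × ℂ × ℂ)) w := by fun_prop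
    have h2 : DifferentiableAt ℂ (fun w : ℂ => Ψ (0, 0, w)) w :=
      DifferentiableAt.comp (f := fun w : ℂ => ((0, 0, w) : ℂ × ℂ × ℂ)) w (hball w hw).2.1 h1
    exact h2.fst.differentiableWithinAt
  · intro w hw
    have h1 : DifferentiableAt ℂ (fun w : ℂ => ((0, 0, w) : ℂ × ℂ × ℂ)) w := by fun_prop
    have h2 : DifferentiableAt ℂ (fun w : ℂ => Ψ (0, 0, w)) w :=
      DifferentiableAt.comp (f := fun w : ℂ => ((0, 0, w) : ℂ × ℂ × ℂ)) w (hball w hw).2.1 h1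
    exact h2.snd.fst.differentiableWithinAt
  · intro w hw
    obtain ⟨h1, -, h3⟩ := hball w hw
    have h4 : (Ψ (0, 0, w)).2.2 = w := congrArg (fun q : ℂ × ℂ × ℂ => q.2.2) h1
    have h5 : A (Ψ (0, 0, w)).1 (Ψ (0, 0, w)).2.1 (Ψ (0, 0, w)).2.2 = 0 :=
      congrArg (fun q : ℂ × ℂ × ℂ => q.1) h1
    have h6 : B (Ψ (0, 0, w)).1 (Ψ (0, 0, w)).2.1 (Ψ (0, 0, w)).2.2 = 0 :=
      congrArg (fun q : ℂ × ℂ × ℂ => q.2.1) h1
    rw [h4] at h5 h6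
    refine ⟨?_, h5, h6⟩
    have h7 : Ψ (0, 0, w) = ((Ψ (0, 0, w)).1, (Ψ (0, 0, w)).2.1, w) := by
      refine Prod.ext rfl (Prod.ext rfl h4)
    show ((Ψ (0, 0, w)).1, (Ψ (0, 0, w)).2.1, w) ∈ U
    rw [← h7]
    exact h3
  · filter_upwards [hleft] with q hq hqA hqB
    have h1 : Φ q = (0, 0, q.2.2) := by
      show (A q.1 q.2.1 q.2.2, B q.1 q.2.1 q.2.2, q.2.2) = (0, 0, q.2.2)
      rw [hqA, hqB]
    rw [h1] at hq
    constructor
    · show q.1 = (Ψ (0, 0, q.2.2)).1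
      rw [hq]
    · show q.2.1 = (Ψ (0, 0, q.2.2)).2.1
      rw [hq]

end P9

/-! ## T9. Constancy along the Kupka curve -/

/-- Lemma 8 of the paper (self-contained) -/
theorem kupka {A B C : ℂ → ℂ → ℂ → ℂ} {z₀ y₀ : ℂ} {U : Set (ℂ × ℂ × ℂ)} (hU : IsOpen U)
    (hm : (z₀, y₀, 0) ∈ U) (hA : Hol3 A U) (hB : Hol3 B U) (hC : Hol3 C U)
    (hid : ∀ z y w, (z, y, w) ∈ U → C z y w * (D1 B z y w - D2 A z y w) =
      B z y w * D1 C z y w - A z y w * D2 C z y w +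
        w ^ 2 * (A z y w * D3 B z y w - B z y w * D3 A z y w))
    (hA0 : A z₀ y₀ 0 = 0) (hB0 : B z₀ y₀ 0 = 0) (hrot : D1 B z₀ y₀ 0 - D2 A z₀ y₀ 0 ≠ 0)
    (hdet : D1 A z₀ y₀ 0 * D2 B z₀ y₀ 0 - D2 A z₀ y₀ 0 * D1 B z₀ y₀ 0 ≠ 0) :
    (∀ᶠ q : ℂ × ℂ × ℂ in 𝓝 (z₀, y₀, 0), A q.1 q.2.1 q.2.2 = 0 → B q.1 q.2.1 q.2.2 = 0 →
      q.2.2 ≠ 0 → C q.1 q.2.1 q.2.2 = 0 ∧
        D1 B q.1 q.2.1 q.2.2 - D2 A q.1 q.2.1 q.2.2 ≠ 0 ∧
        D1 A q.1 q.2.1 q.2.2 * D2 B q.1 q.2.1 q.2.2 -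
          D2 A q.1 q.2.1 q.2.2 * D1 B q.1 q.2.1 q.2.2 ≠ 0 ∧
        (D1 B q.1 q.2.1 q.2.2 - D2 A q.1 q.2.1 q.2.2) ^ 2 *
          (D1 A z₀ y₀ 0 * D2 B z₀ y₀ 0 - D2 A z₀ y₀ 0 * D1 B z₀ y₀ 0) =
        (D1 B z₀ y₀ 0 - D2 A z₀ y₀ 0) ^ 2 * (D1 A q.1 q.2.1 q.2.2 * D2 B q.1 q.2.1 q.2.2 -
          D2 A q.1 q.2.1 q.2.2 * D1 B q.1 q.2.1 q.2.2)) ∧
    (∃ᶠ q : ℂ × ℂ × ℂ in 𝓝 (z₀, y₀, 0), A q.1 q.2.1 q.2.2 = 0 ∧ B q.1 q.2.1 q.2.2 = 0 ∧
      q.2.2 ≠ 0) := by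
  obtain ⟨g1, g2, hg1, hg2, ⟨r, hr, dg1, dg2, hcur⟩, hloc⟩ := P9.curve hU hm hA hB hA0 hB0 hdet
  have a1 := hA.D1 hU
  have a2 := hA.D2 hU
  have b1 := hB.D1 hU
  have b2 := hB.D2 hU
  have hg1' : ∀ w ∈ ball (0 : ℂ) r, HasDerivAt g1 (deriv g1 w) w := fun w hw =>
    (dg1.differentiableAt (isOpen_ball.mem_nhds hw)).hasDerivAt
  have hg2' : ∀ w ∈ ball (0 : ℂ) r, HasDerivAt g2 (deriv g2 w) w := fun w hw =>
    (dg2.differentiableAt (isOpen_ball.mem_nhds hw)).hasDerivAt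
  have hch : ∀ {f : ℂ → ℂ → ℂ → ℂ}, Hol3 f U → ∀ w ∈ ball (0 : ℂ) r,
      HasDerivAt (fun t => f (g1 t) (g2 t) t) (D1 f (g1 w) (g2 w) w * deriv g1 w +
        D2 f (g1 w) (g2 w) w * deriv g2 w + D3 f (g1 w) (g2 w) w) w := fun hf w hw =>
    P9.chain hU hf (hcur w hw).1 (hg1' w hw) (hg2' w hw)
  let rt : ℂ → ℂ := fun w => D1 B (g1 w) (g2 w) w - D2 A (g1 w) (g2 w) w
  let dt : ℂ → ℂ := fun w => D1 A (g1 w) (g2 w) w * D2 B (g1 w) (g2 w) w -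
    D2 A (g1 w) (g2 w) w * D1 B (g1 w) (g2 w) w
  have h0 : (0 : ℂ) ∈ ball (0 : ℂ) r := mem_ball_self hr
  have hrt0 : rt 0 ≠ 0 := by
    show D1 B (g1 0) (g2 0) 0 - D2 A (g1 0) (g2 0) 0 ≠ 0
    rw [hg1, hg2]
    exact hrot
  have hdt0 : dt 0 ≠ 0 := by
    show D1 A (g1 0) (g2 0) 0 * D2 B (g1 0) (g2 0) 0 - D2 A (g1 0) (g2 0) 0 * D1 B (g1 0) (g2 0) 0 ≠ 0
    rw [hg1, hg2]
    exact hdet
  have drt : ∀ w ∈ ball (0 : ℂ) r, HasDerivAt rt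
      ((D1 (D1 B) (g1 w) (g2 w) w * deriv g1 w + D2 (D1 B) (g1 w) (g2 w) w * deriv g2 w +
        D3 (D1 B) (g1 w) (g2 w) w) - (D1 (D2 A) (g1 w) (g2 w) w * deriv g1 w +
          D2 (D2 A) (g1 w) (g2 w) w * deriv g2 w + D3 (D2 A) (g1 w) (g2 w) w)) w := fun w hw =>
    (hch b1 w hw).sub (hch a2 w hw)
  have ddt : ∀ w ∈ ball (0 : ℂ) r, HasDerivAt dt
      (((D1 (D1 A) (g1 w) (g2 w) w * deriv g1 w + D2 (D1 A) (g1 w) (g2 w) w * deriv g2 w +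
        D3 (D1 A) (g1 w) (g2 w) w) * D2 B (g1 w) (g2 w) w + D1 A (g1 w) (g2 w) w *
        (D1 (D2 B) (g1 w) (g2 w) w * deriv g1 w + D2 (D2 B) (g1 w) (g2 w) w * deriv g2 w +
        D3 (D2 B) (g1 w) (g2 w) w)) - ((D1 (D2 A) (g1 w) (g2 w) w * deriv g1 w +
        D2 (D2 A) (g1 w) (g2 w) w * deriv g2 w + D3 (D2 A) (g1 w) (g2 w) w) *
        D1 B (g1 w) (g2 w) w + D2 A (g1 w) (g2 w) w *
        (D1 (D1 B) (g1 w) (g2 w) w * deriv g1 w + D2 (D1 B) (g1 w) (g2 w) w * deriv g2 w +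
        D3 (D1 B) (g1 w) (g2 w) w))) w := fun w hw =>
    ((hch a1 w hw).mul (hch b2 w hw)).sub ((hch a2 w hw).mul (hch b1 w hw))
  have crt : ContinuousAt rt 0 := (drt 0 h0).continuousAt
  have cdt : ContinuousAt dt 0 := (ddt 0 h0).continuousAt
  obtain ⟨s, hs, hsb⟩ := Metric.eventually_nhds_iff_ball.1
    ((crt.eventually_ne hrt0).and ((cdt.eventually_ne hdt0).and (ball_mem_nhds (0 : ℂ) hr)))
  let h : ℂ → ℂ := fun w => rt w ^ 2 / dt w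
  -- the derivative
  have hder : ∀ w ∈ ball (0 : ℂ) s, w ≠ 0 → C (g1 w) (g2 w) w = 0 ∧ HasDerivAt h 0 w := by
    intro w hw hw0
    obtain ⟨hr1, hr2, hr3⟩ := hsb w hw
    obtain ⟨hcU, hcA, hcB⟩ := hcur w hr3
    have hAg : D1 A (g1 w) (g2 w) w * deriv g1 w + D2 A (g1 w) (g2 w) w * deriv g2 w +
        D3 A (g1 w) (g2 w) w = 0 := by
      have h1 := hch hA w hr3
      have h2 : (fun t => A (g1 t) (g2 t) t) =ᶠ[𝓝 w] fun _ => 0 := by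
        filter_upwards [isOpen_ball.mem_nhds hr3] with t ht using (hcur t ht).2.1
      exact h1.unique ((hasDerivAt_const w (0 : ℂ)).congr_of_eventuallyEq h2)
    have hBg : D1 B (g1 w) (g2 w) w * deriv g1 w + D2 B (g1 w) (g2 w) w * deriv g2 w +
        D3 B (g1 w) (g2 w) w = 0 := by
      have h1 := hch hB w hr3
      have h2 : (fun t => B (g1 t) (g2 t) t) =ᶠ[𝓝 w] fun _ => 0 := by
        filter_upwards [isOpen_ball.mem_nhds hr3] with t ht using (hcur t ht).2.2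
      exact h1.unique ((hasDerivAt_const w (0 : ℂ)).congr_of_eventuallyEq h2)
    obtain ⟨hC0, hk⟩ := P9.point hU hA hB hC hid hcU hw0 hcA hcB hr1 hr2 hAg hBg
    refine ⟨hC0, ?_⟩
    have h3 := ((drt w hr3).pow 2).div (ddt w hr3) hr2
    refine h3.congr_deriv ?_
    rw [div_eq_zero_iff]
    left
    have e1 : rt w = D1 B (g1 w) (g2 w) w - D2 A (g1 w) (g2 w) w := rfl
    have e2 : dt w = D1 A (g1 w) (g2 w) w * D2 B (g1 w) (g2 w) w -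
      D2 A (g1 w) (g2 w) w * D1 B (g1 w) (g2 w) w := rfl
    simp only [Pi.pow_apply]
    rw [e1, e2]
    push_cast
    linear_combination (D1 B (g1 w) (g2 w) w - D2 A (g1 w) (g2 w) w) * hk
  have hdiff : DifferentiableOn ℂ h (ball 0 s) := by
    intro w hw
    obtain ⟨hr1, hr2, hr3⟩ := hsb w hw
    exact (((drt w hr3).pow 2).div (ddt w hr3) hr2).differentiableAt.differentiableWithinAt
  have h0s : (0 : ℂ) ∈ ball (0 : ℂ) s := mem_ball_self hs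
  have hd0 : deriv h 0 = 0 := by
    have h1 : ContinuousAt (deriv h) 0 :=
      ((hdiff.deriv isOpen_ball).continuousOn).continuousAt (isOpen_ball.mem_nhds h0s)
    have h2 : Tendsto (deriv h) (𝓝[≠] 0) (𝓝 (deriv h 0)) := h1.tendsto.mono_left nhdsWithin_le_nhds
    have h3 : deriv h =ᶠ[𝓝[≠] 0] fun _ => 0 := by
      filter_upwards [self_mem_nhdsWithin, nhdsWithin_le_nhds (isOpen_ball.mem_nhds h0s)]
        with w hw hws using (hder w hws hw).2.deriv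
    exact tendsto_nhds_unique (h2.congr' h3) tendsto_const_nhds
  have hconst : ∀ w ∈ ball (0 : ℂ) s, h w = h 0 := by
    intro w hw
    refine isOpen_ball.is_const_of_deriv_eq_zero (convex_ball (0 : ℂ) s).isPreconnected hdiff
      (fun t ht => ?_) hw h0s
    by_cases ht0 : t = 0
    · rw [ht0]
      exact hd0
    · exact (hder t ht ht0).2.deriv
  have hrt0' : rt 0 = D1 B z₀ y₀ 0 - D2 A z₀ y₀ 0 := by
    show D1 B (g1 0) (g2 0) 0 - D2 A (g1 0) (g2 0) 0 = _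
    rw [hg1, hg2]
  have hdt0' : dt 0 = D1 A z₀ y₀ 0 * D2 B z₀ y₀ 0 - D2 A z₀ y₀ 0 * D1 B z₀ y₀ 0 := by
    show D1 A (g1 0) (g2 0) 0 * D2 B (g1 0) (g2 0) 0 -
      D2 A (g1 0) (g2 0) 0 * D1 B (g1 0) (g2 0) 0 = _
    rw [hg1, hg2]
  constructor
  · have hsm : ∀ᶠ q : ℂ × ℂ × ℂ in 𝓝 (z₀, y₀, 0), q.2.2 ∈ ball (0 : ℂ) s := by
      have hc : ContinuousAt (fun q : ℂ × ℂ × ℂ => q.2.2) (z₀, y₀, 0) := by fun_prop
      exact hc.eventually (isOpen_ball.mem_nhds h0s)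
    filter_upwards [hloc, hsm] with q hq hqs hqA hqB hq0
    obtain ⟨e1, e2⟩ := hq hqA hqB
    obtain ⟨hr1, hr2, hr3⟩ := hsb q.2.2 hqs
    have hc := (hder q.2.2 hqs hq0).1
    have hk := hconst q.2.2 hqs
    have f1 : rt q.2.2 = D1 B q.1 q.2.1 q.2.2 - D2 A q.1 q.2.1 q.2.2 := by
      show D1 B (g1 q.2.2) (g2 q.2.2) q.2.2 - D2 A (g1 q.2.2) (g2 q.2.2) q.2.2 = _
      rw [← e1, ← e2]
    have f2 : dt q.2.2 = D1 A q.1 q.2.1 q.2.2 * D2 B q.1 q.2.1 q.2.2 -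
        D2 A q.1 q.2.1 q.2.2 * D1 B q.1 q.2.1 q.2.2 := by
      show D1 A (g1 q.2.2) (g2 q.2.2) q.2.2 * D2 B (g1 q.2.2) (g2 q.2.2) q.2.2 -
        D2 A (g1 q.2.2) (g2 q.2.2) q.2.2 * D1 B (g1 q.2.2) (g2 q.2.2) q.2.2 = _
      rw [← e1, ← e2]
    rw [← e1, ← e2] at hc
    rw [← f1, ← f2, ← hrt0', ← hdt0']
    refine ⟨hc, hr1, hr2, ?_⟩
    have hk' : rt q.2.2 ^ 2 / dt q.2.2 = rt 0 ^ 2 / dt 0 := hk
    rwa [div_eq_div_iff hr2 hdt0] at hk'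
  · have hγ : Tendsto (fun w : ℂ => ((g1 w, g2 w, w) : ℂ × ℂ × ℂ)) (𝓝[≠] 0) (𝓝 (z₀, y₀, 0)) := by
      have hc : ContinuousAt (fun w : ℂ => ((g1 w, g2 w, w) : ℂ × ℂ × ℂ)) 0 :=
        (hg1' 0 h0).continuousAt.prodMk ((hg2' 0 h0).continuousAt.prodMk continuousAt_id)
      have ht := hc.tendsto.mono_left (nhdsWithin_le_nhds (s := {0}ᶜ))
      rw [hg1, hg2] at ht
      exact ht
    refine hγ.frequently (Eventually.frequently ?_)
    filter_upwards [self_mem_nhdsWithin, nhdsWithin_le_nhds (isOpen_ball.mem_nhds h0)]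
      with w hw hwr
    exact ⟨(hcur w hwr).2.1, (hcur w hwr).2.2, hw⟩

end Pool.Agent.H583_Fol
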