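import Pool.Agent.H583_Fol.Alg
import Pool.Agent.H583_Fol.Ext

/-!
# The problem: forms, integrability, approximation
-/

set_option autoImplicit false

namespace Pool.Agent.H583_Fol

open Filter Topology Set Metric

/-- a `(1,0)`-form `∑ a_i dz_i` on `ℂ^k`, given by its coefficients -/
abbrev Form (k : ℕ) := (Fin k → ℂ) → Fin k → ℂ

/-- the unit polydisc -/
def polydisc (k : ℕ) : Set (Fin k → ℂ) := {z | ∀ i, ‖z i‖ < 1}

/-- the value at `z` of the form, in the exterior algebra -/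
noncomputable def val {k : ℕ} (α : Form k) (z : Fin k → ℂ) : ExteriorAlgebra ℂ (Fin k → ℂ) :=
  ∑ i, α z i • dz i

/-- the value at `z` of `∂α = ∑ (∂a_l/∂z_i) dz_i ∧ dz_l` -/
noncomputable def del {k : ℕ} (α : Form k) (z : Fin k → ℂ) : ExteriorAlgebra ℂ (Fin k → ℂ) :=
  ∑ i, ∑ l, (fderiv ℂ (fun w => α w l) z (Pi.single i 1)) • (dz i * dz l)

/-- the Frobenius condition `∂α_j ∧ α_1 ∧ ... ∧ α_m = 0` on `U` -/
def Frob {k m : ℕ} (α : Fin m → Form k) (U : Set (Fin k → ℂ)) : Prop :=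
  ∀ z ∈ U, ∀ j, del (α j) z * (List.ofFn fun l => val (α l) z).prod = 0

/-- the projection on the first three coordinates -/
def prj {k : ℕ} (hk : 3 ≤ k) : (Fin k → ℂ) →ₗ[ℂ] (Fin 3 → ℂ) where
  toFun z := fun i => z (Fin.castLE hk i)
  map_add' _ _ := rfl
  map_smul' _ _ := rfl

theorem prj_single {k : ℕ} (hk : 3 ≤ k) (i : Fin 3) (t : ℂ) :
    prj hk (Pi.single (Fin.castLE hk i) t) = Pi.single i t := by
  funext j
  simp only [prj, LinearMap.coe_mk, AddHom.coe_mk, Pi.single_apply, Fin.castLE_inj]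

theorem prj_single_of_ne {k : ℕ} (hk : 3 ≤ k) (i : Fin k) (hi : i ∉ Set.range (Fin.castLE hk)) (t : ℂ) :
    prj hk (Pi.single i t) = 0 := by
  funext j
  simp only [prj, LinearMap.coe_mk, AddHom.coe_mk, Pi.single_apply, Pi.zero_apply]
  rw [if_neg]
  intro h
  exact hi ⟨j, h⟩

theorem map_dz {k : ℕ} (hk : 3 ≤ k) (i : Fin 3) :
    ExteriorAlgebra.map (prj hk) (dz (Fin.castLE hk i)) = dz i := by
  rw [dz, ExteriorAlgebra.map_apply_ι, prj_single, dz]

theorem map_dz_of_ne {k : ℕ} (hk : 3 ≤ k) (i : Fin k) (hi : i ∉ Set.range (Fin.castLE hk)) :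
    ExteriorAlgebra.map (prj hk) (dz i) = 0 := by
  rw [dz, ExteriorAlgebra.map_apply_ι, prj_single_of_ne hk i hi, map_zero]

theorem castLE_inj' {k : ℕ} (hk : 3 ≤ k) : Function.Injective (Fin.castLE hk) := Fin.castLE_injective hk

/-- image under the projection of `∂α ∧ α` -/
theorem map_frob {k : ℕ} (hk : 3 ≤ k) (f : Fin k → Fin k → ℂ) (g : Fin k → ℂ)
    (h : (∑ i, ∑ l, f i l • (dz i * dz l)) * (∑ j, g j • dz j) = 0) :
    g (Fin.castLE hk 0) * (f (Fin.castLE hk 1) (Fin.castLE hk 2) - f (Fin.castLE hk 2) (Fin.castLE hk 1)) +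
    g (Fin.castLE hk 1) * (f (Fin.castLE hk 2) (Fin.castLE hk 0) - f (Fin.castLE hk 0) (Fin.castLE hk 2)) +
    g (Fin.castLE hk 2) * (f (Fin.castLE hk 0) (Fin.castLE hk 1) - f (Fin.castLE hk 1) (Fin.castLE hk 0)) =
      0 := by
  have h1 := congrArg (ExteriorAlgebra.map (prj hk)) h
  have h2 : ExteriorAlgebra.map (prj hk) (∑ j, g j • dz j) = ∑ j : Fin 3, g (Fin.castLE hk j) • dz j := by
    rw [map_sum]
    refine (Fintype.sum_of_injective (Fin.castLE hk) (castLE_inj' hk) _ _ ?_ ?_).symm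
    · intro i hi
      rw [map_smul, map_dz_of_ne hk i hi, smul_zero]
    · intro i
      rw [map_smul, map_dz]
  have h3 : ExteriorAlgebra.map (prj hk) (∑ i, ∑ l, f i l • (dz i * dz l)) =
      ∑ i : Fin 3, ∑ l : Fin 3, f (Fin.castLE hk i) (Fin.castLE hk l) • (dz i * dz l) := by
    rw [map_sum]
    refine (Fintype.sum_of_injective (Fin.castLE hk) (castLE_inj' hk) _ _ ?_ ?_).symm
    · intro i hi
      rw [map_sum]
      refine Finset.sum_eq_zero fun l _ => ?_
      rw [map_smul, map_mul, map_dz_of_ne hk i hi, zero_mul, smul_zero]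
    · intro i
      rw [map_sum]
      refine Fintype.sum_of_injective (Fin.castLE hk) (castLE_inj' hk) _ _ ?_ ?_
      · intro l hl
        rw [map_smul, map_mul, map_dz_of_ne hk l hl, mul_zero, smul_zero]
      · intro l
        rw [map_smul, map_mul, map_dz, map_dz]
  rw [map_mul, h2, h3, wedge3 (fun i l => f (Fin.castLE hk i) (Fin.castLE hk l))
    (fun j => g (Fin.castLE hk j)), map_zero] at h1
  exact (smul_eq_zero.1 h1).resolve_right dz3_ne

/-- the inclusion of the first three coordinates -/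
def inc {k : ℕ} (hk : 3 ≤ k) : (Fin 3 → ℂ) →ₗ[ℂ] (Fin k → ℂ) where
  toFun u := fun i => if h : (i : ℕ) < 3 then u ⟨i, h⟩ else 0
  map_add' u v := by
    funext i
    by_cases h : (i : ℕ) < 3 <;> simp [h]
  map_smul' t u := by
    funext i
    by_cases h : (i : ℕ) < 3 <;> simp [h]

theorem inc_castLE {k : ℕ} (hk : 3 ≤ k) (u : Fin 3 → ℂ) (i : Fin 3) :
    inc hk u (Fin.castLE hk i) = u i := by
  simp [inc]

theorem inc_of_ne {k : ℕ} (hk : 3 ≤ k) (u : Fin 3 → ℂ) (i : Fin k)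
    (hi : i ∉ Set.range (Fin.castLE hk)) : inc hk u i = 0 := by
  have : ¬ (i : ℕ) < 3 := by
    intro h
    exact hi ⟨⟨i, h⟩, by ext; simp⟩
  simp [inc, this]

theorem inc_single {k : ℕ} (hk : 3 ≤ k) (i : Fin 3) (t : ℂ) :
    inc hk (Pi.single i t) = Pi.single (Fin.castLE hk i) t := by
  funext j
  by_cases h : j ∈ Set.range (Fin.castLE hk)
  · obtain ⟨l, rfl⟩ := h
    rw [inc_castLE]
    simp only [Pi.single_apply, Fin.castLE_inj]
  · rw [inc_of_ne hk _ _ h, Pi.single_apply, if_neg]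
    rintro rfl
    exact h ⟨i, rfl⟩

theorem map_inc_dz {k : ℕ} (hk : 3 ≤ k) (i : Fin 3) :
    ExteriorAlgebra.map (inc hk) (dz i) = dz (Fin.castLE hk i) := by
  rw [dz, ExteriorAlgebra.map_apply_ι, inc_single, dz]

/-- `∂α ∧ α = 0` for a form with three coefficients depending on three variables -/
theorem frob_of {k : ℕ} (hk : 3 ≤ k) (f : Fin k → Fin k → ℂ) (g : Fin k → ℂ)
    (hf1 : ∀ i l, i ∉ Set.range (Fin.castLE hk) → f i l = 0)
    (hf2 : ∀ i l, l ∉ Set.range (Fin.castLE hk) → f i l = 0)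
    (hg : ∀ j, j ∉ Set.range (Fin.castLE hk) → g j = 0)
    (h : g (Fin.castLE hk 0) * (f (Fin.castLE hk 1) (Fin.castLE hk 2) -
        f (Fin.castLE hk 2) (Fin.castLE hk 1)) +
      g (Fin.castLE hk 1) * (f (Fin.castLE hk 2) (Fin.castLE hk 0) -
        f (Fin.castLE hk 0) (Fin.castLE hk 2)) +
      g (Fin.castLE hk 2) * (f (Fin.castLE hk 0) (Fin.castLE hk 1) -
        f (Fin.castLE hk 1) (Fin.castLE hk 0)) = 0) :
    (∑ i, ∑ l, f i l • (dz i * dz l)) * (∑ j, g j • dz j) = 0 := by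
  have h2 : ExteriorAlgebra.map (inc hk) (∑ j : Fin 3, g (Fin.castLE hk j) • dz j) = ∑ j, g j • dz j := by
    rw [map_sum]
    refine Fintype.sum_of_injective (Fin.castLE hk) (castLE_inj' hk) _ _ ?_ ?_
    · intro i hi
      rw [hg i hi, zero_smul]
    · intro i
      rw [map_smul, map_inc_dz]
  have h3 : ExteriorAlgebra.map (inc hk) (∑ i : Fin 3, ∑ l : Fin 3,
      f (Fin.castLE hk i) (Fin.castLE hk l) • (dz i * dz l)) = ∑ i, ∑ l, f i l • (dz i * dz l) := by
    rw [map_sum]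
    refine Fintype.sum_of_injective (Fin.castLE hk) (castLE_inj' hk) _ _ ?_ ?_
    · intro i hi
      refine Finset.sum_eq_zero fun l _ => ?_
      rw [hf1 i l hi, zero_smul]
    · intro i
      rw [map_sum]
      refine Fintype.sum_of_injective (Fin.castLE hk) (castLE_inj' hk) _ _ ?_ ?_
      · intro l hl
        rw [hf2 _ l hl, zero_smul]
      · intro l
        rw [map_smul, map_mul, map_inc_dz, map_inc_dz]
  rw [← h2, ← h3, ← map_mul, wedge3 (fun i l => f (Fin.castLE hk i) (Fin.castLE hk l))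
    (fun j => g (Fin.castLE hk j)), h, zero_smul, map_zero]

end Pool.Agent.H583_Fol
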