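import Pool.Agent.H583_Fol.St.T0
import Pool.Agent.H583_Fol.St.T1
import Pool.Agent.H583_Fol.St.T2
import Pool.Agent.H583_Fol.St.T3
import Pool.Agent.H583_Fol.St.T4
import Pool.Agent.H583_Fol.St.T5
import Pool.Agent.H583_Fol.St.T6
import Pool.Agent.H583_Fol.St.T7
import Pool.Agent.H583_Fol.St.T8
import Pool.Agent.H583_Fol.St.T9
import Pool.Agent.H583_Fol.St.T10
import Pool.Agent.H583_Fol.St.T11
import Pool.Agent.H583_Fol.St.T12
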